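import Mathlib

/-!
# Definitions: cyclic permutations in the two alternating one-row grid classes
-/

set_option autoImplicit false

namespace Q165.AltSig

open Equiv

/-- the permutation consists of a single `n`-cycle -/
def IsCyclic {n : ℕ} (π : Perm (Fin n)) : Prop := ∀ x y : Fin n, ∃ m : ℕ, (π ^ m) x = y

/-- `π` has a `σ`-segmentation, with `true` for `+` and `false` for `-`; positions are counted from
`0`, so that the block number `i` consists of the positions `x` with `e i ≤ x < e (i + 1)` -/
def HasSegmentation {k n : ℕ} (σ : Fin k → Bool) (π : Perm (Fin n)) : Prop :=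
  ∃ e : Fin (k + 1) → ℕ, e 0 = 0 ∧ e (Fin.last k) = n ∧ Monotone e ∧
    ∀ i : Fin k, ∀ x y : Fin n, e i.castSucc ≤ x → x < y → (y : ℕ) < e i.succ →
      if σ i = true then π x < π y else π y < π x

/-- the number of cyclic permutations of `n` letters in the `σ`-class -/
noncomputable def cyclicCount {k : ℕ} (σ : Fin k → Bool) (n : ℕ) : ℕ :=
  Nat.card {π : Perm (Fin n) // IsCyclic π ∧ HasSegmentation σ π}

/-- the alternating signature `+-+-⋯` of size `k` -/
def altPlus (k : ℕ) : Fin k → Bool := fun i => decide ((i : ℕ) % 2 = 0)

/-- the alternating signature `-+-+⋯` of size `k` -/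
def altMinus (k : ℕ) : Fin k → Bool := fun i => decide ((i : ℕ) % 2 = 1)

end Q165.AltSig
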