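import Pool.Agent.Results.MP_d71793_co.ComplementSignature

/-!
# Itineraries of cyclic permutations, without the condition `n % 4 ≠ 2`

The lemmas about re-sorting of the hand-in `ComplementSignature` of `MP_d71793_co`, for the
permutations with different itineraries, and the description of the other ones.
-/

set_option autoImplicit false

namespace Q165.AltSig

open Finset Equiv
open Pool.Agent.Results.MP_d71793_co.ComplementSignature

/-- the itineraries of different points are different -/
def Inj {n : ℕ} (b : Fin n → ℕ) (π : Perm (Fin n)) : Prop := Function.Injective (key true b π)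

theorem inj_all {n : ℕ} {b : Fin n → ℕ} {π : Perm (Fin n)} (h : Inj b π) (s : Bool) :
    Function.Injective (key s b π) := fun _ _ hxy => h (key_inj_iff hxy)

theorem key_eq_iff {s : Bool} {n : ℕ} {b : Fin n → ℕ} {π : Perm (Fin n)} {x y : Fin n} :
    key s b π x = key s b π y ↔ ∀ i, b ((π ^ i) x) = b ((π ^ i) y) := by
  constructor
  · intro h i
    have := congrFun (toLex.injective h) i
    split_ifs at this <;> omega
  · intro h
    unfold key
    congr 1
    funext i
    rw [h i]

theorem same_key {s : Bool} {n : ℕ} {b : Fin n → ℕ} {π : Perm (Fin n)}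
    (h : Cl s b π) {x y : Fin n} (hxy : ∀ i, b ((π ^ i) x) = b ((π ^ i) y)) {d : ℕ}
    (hd : (π ^ d) x = y) : (sg s d → x = y) ∧ (π ^ (2 * d)) x = x := by
  have hb : ∀ i, b ((π ^ i) x) = b ((π ^ (i + d)) x) := by
    intro i
    rw [pow_add, Perm.mul_apply, hd]
    exact hxy i
  have hb' : ∀ m i, b ((π ^ i) x) = b ((π ^ (i + m * d)) x) := by
    intro m i
    induction m with
    | zero => simp
    | succ m ih =>
      rw [ih, hb (i + m * d)]
      congr 3
      ring
  have step : ∀ e p q, sg s e → ((π ^ (p * d)) x < (π ^ (q * d)) x) →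
      (π ^ (e + p * d)) x < (π ^ (e + q * d)) x := by
    intro e p q he hlt
    have := iter h hlt e (by
      intro j _
      rw [← Perm.mul_apply, ← pow_add, ← Perm.mul_apply, ← pow_add, ← hb' p j, ← hb' q j])
    rw [if_pos he, ← Perm.mul_apply, ← pow_add, ← Perm.mul_apply, ← pow_add] at this
    exact this
  have fix : ∀ t, sg s (t * d) → (π ^ (t * d)) x = x := by
    intro t ht
    apply no_drift
    intro m
    have e0 : ∀ m, ((π ^ (t * d)) ^ m) x = (π ^ ((t * m) * d)) x := by
      intro m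
      rw [← pow_mul]
      congr 2
      ring
    rw [e0, e0, e0]
    have e1 : t * (m + 1) * d = t * d + (t * m) * d := by ring
    have e2 : t * (m + 2) * d = t * d + (t * (m + 1)) * d := by ring
    constructor
    · intro h1
      have := step (t * d) _ _ ht h1
      rwa [← e1, ← e2] at this
    · intro h1
      have := step (t * d) _ _ ht h1
      rwa [← e1, ← e2] at this
  refine ⟨fun hs => ?_, fix 2 (Or.inr (by simp))⟩
  have := fix 1 (by simpa using hs)
  rw [one_mul, hd] at this
  exact this.symm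

theorem inj_of_true {n : ℕ} {b : Fin n → ℕ} {π : Perm (Fin n)} (h : Cl true b π) : Inj b π := by
  intro x y hxy
  obtain ⟨d, hd⟩ := h.1 x y
  exact (same_key h (key_eq_iff.1 hxy) hd).1 (Or.inl rfl)

/-! ### re-sorting -/

theorem strictMono_srt' {s' : Bool} {n : ℕ} {b : Fin n → ℕ}
    {π : Perm (Fin n)} (h : Inj b π) : StrictMono (key s' b π ∘ srt s' b π) :=
  (Tuple.monotone_sort (key s' b π)).strictMono_of_injective
    ((inj_all h s').comp (srt s' b π).injective)

theorem b_srt' {s' : Bool} {n : ℕ} {b : Fin n → ℕ} (hb : Monotone b)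
    {π : Perm (Fin n)} (h : Inj b π) (x : Fin n) : b (srt s' b π x) = b x := by
  have h1 : Monotone (b ∘ srt s' b π) := by
    intro x y hxy
    rcases hxy.lt_or_eq with h2 | h2
    · exact b_le_of_key_le (s' := s') (b := b) (π := π) (π' := π) (strictMono_srt' h h2)
    · rw [h2]
  have h2 := Tuple.unique_monotone (f := b) (σ := srt s' b π) (τ := 1) h1 (by simpa using hb)
  have := congrFun h2 x
  simpa using this

theorem key_F' {s' : Bool} {n : ℕ} {b : Fin n → ℕ} (hb : Monotone b)
    {π : Perm (Fin n)} (h : Inj b π) (t : Bool) (x : Fin n) :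
    key t b (F s' b π) x = key t b π (srt s' b π x) := by
  unfold key
  congr 1
  funext i
  have : b ((F s' b π ^ i) x) = b ((π ^ i) (srt s' b π x)) := by
    rw [F_pow, ← b_srt' (s' := s') hb h]; simp
  rw [this]

theorem inj_F {s' : Bool} {n : ℕ} {b : Fin n → ℕ} (hb : Monotone b)
    {π : Perm (Fin n)} (h : Inj b π) : Inj b (F s' b π) := by
  intro x y hxy
  rw [key_F' hb h, key_F' hb h] at hxy
  exact (srt s' b π).injective (h hxy)

theorem lt_iff' {s : Bool} {n : ℕ} {b : Fin n → ℕ} (hb : Monotone b)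
    {π : Perm (Fin n)} (h : Cl s b π) (hi : Inj b π) : StrictMono (key s b π) := by
  intro x y hxy
  have hne : key s b π x ≠ key s b π y := fun he => hxy.ne (inj_all hi s he)
  have hex : ∃ i, b ((π ^ i) x) ≠ b ((π ^ i) y) := by
    by_contra hc
    push Not at hc
    exact hne (key_eq_iff.2 hc)
  classical
  obtain ⟨i, hi, hmin⟩ : ∃ i, b ((π ^ i) x) ≠ b ((π ^ i) y) ∧
      ∀ j < i, b ((π ^ j) x) = b ((π ^ j) y) :=
    ⟨Nat.find hex, Nat.find_spec hex, fun j hj => not_not.1 (Nat.find_min hex hj)⟩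
  refine ⟨i, ?_, ?_⟩
  · intro j hj
    change (if sg s j then (b ((π ^ j) x) : ℤ) else - (b ((π ^ j) x) : ℤ)) =
      (if sg s j then (b ((π ^ j) y) : ℤ) else - (b ((π ^ j) y) : ℤ))
    rw [hmin j hj]
  · change (if sg s i then (b ((π ^ i) x) : ℤ) else - (b ((π ^ i) x) : ℤ)) <
      (if sg s i then (b ((π ^ i) y) : ℤ) else - (b ((π ^ i) y) : ℤ))
    have h1 := iter h hxy i hmin
    split_ifs with c
    · rw [if_pos c] at h1
      have := hb h1.le
      omega
    · rw [if_neg c] at h1
      have := hb h1.le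
      omega

theorem Cl_F' {s' : Bool} {n : ℕ} {b : Fin n → ℕ} (hb : Monotone b)
    {π : Perm (Fin n)} (hcyc : Cyclic π) (h : Inj b π) : Cl s' b (F s' b π) := by
  constructor
  · intro x y
    obtain ⟨m, hm⟩ := hcyc (srt s' b π x) (srt s' b π y)
    refine ⟨m, ?_⟩
    rw [F_pow, hm]; simp
  · intro x y hxy hbxy
    have h1 : key s' b (F s' b π) x < key s' b (F s' b π) y := by
      rw [key_F' hb h, key_F' hb h]
      exact strictMono_srt' h hxy
    have hsm : StrictMono (key s' b (F s' b π)) := by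
      intro x y hxy
      rw [key_F' hb h, key_F' hb h]
      exact strictMono_srt' h hxy
    obtain ⟨i, h2, h3⟩ := h1
    have hi : i ≠ 0 := by
      rintro rfl
      change (if sg s' 0 then (b ((F s' b π ^ 0) x) : ℤ) else - (b ((F s' b π ^ 0) x) : ℤ)) <
        (if sg s' 0 then (b ((F s' b π ^ 0) y) : ℤ) else - (b ((F s' b π ^ 0) y) : ℤ)) at h3
      rw [if_pos (show sg s' 0 from Or.inr (by simp)),
        if_pos (show sg s' 0 from Or.inr (by simp))] at h3
      simp only [pow_zero, Perm.one_apply] at h3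
      omega
    obtain ⟨i, rfl⟩ : ∃ j, i = j + 1 := ⟨i - 1, by omega⟩
    set P := F s' b π with hP
    have h4 : ∀ j < i, b ((P ^ j) (P x)) = b ((P ^ j) (P y)) := by
      intro j hj
      have := h2 (j + 1) (by omega)
      change (if sg s' (j + 1) then (b ((P ^ (j + 1)) x) : ℤ) else - (b ((P ^ (j + 1)) x) : ℤ)) =
        (if sg s' (j + 1) then (b ((P ^ (j + 1)) y) : ℤ) else - (b ((P ^ (j + 1)) y) : ℤ)) at this
      rw [pow_succ, Perm.mul_apply, Perm.mul_apply] at this
      split_ifs at this <;> omega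
    change (if sg s' (i + 1) then (b ((P ^ (i + 1)) x) : ℤ) else - (b ((P ^ (i + 1)) x) : ℤ)) <
      (if sg s' (i + 1) then (b ((P ^ (i + 1)) y) : ℤ) else - (b ((P ^ (i + 1)) y) : ℤ)) at h3
    rw [pow_succ, Perm.mul_apply, Perm.mul_apply] at h3
    -- comparison of the keys of `P x` and `P y`
    have cmp : ∀ u v : Fin n, (∀ j < i, b ((P ^ j) u) = b ((P ^ j) v)) →
        (if sg s' i then (b ((P ^ i) u) : ℤ) < b ((P ^ i) v) else
          (b ((P ^ i) v) : ℤ) < b ((P ^ i) u)) → u < v := by
      intro u v huv hlt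
      rw [← hsm.lt_iff_lt]
      refine ⟨i, ?_, ?_⟩
      · intro j hj
        change (if sg s' j then (b ((P ^ j) u) : ℤ) else - (b ((P ^ j) u) : ℤ)) =
          (if sg s' j then (b ((P ^ j) v) : ℤ) else - (b ((P ^ j) v) : ℤ))
        rw [huv j hj]
      · change (if sg s' i then (b ((P ^ i) u) : ℤ) else - (b ((P ^ i) u) : ℤ)) <
          (if sg s' i then (b ((P ^ i) v) : ℤ) else - (b ((P ^ i) v) : ℤ))
        split_ifs with c
        · rw [if_pos c] at hlt; exact hlt
        · rw [if_neg c] at hlt; omega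
    unfold Pool.Agent.Results.MP_d71793_co.ComplementSignature.Rel
    cases s' with
    | true =>
      rw [if_pos rfl]
      apply cmp _ _ h4
      have c1 : sg true i := Or.inl rfl
      have c2 : sg true (i + 1) := Or.inl rfl
      rw [if_pos c2, if_pos c2] at h3
      rw [if_pos c1]
      exact h3
    | false =>
      rw [if_neg (by simp)]
      apply cmp _ _ (fun j hj => (h4 j hj).symm)
      by_cases c : Even i
      · have c1 : sg false i := Or.inr c
        have c2 : ¬ sg false (i + 1) := by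
          rintro (h | h)
          · exact Bool.noConfusion h
          · exact (Nat.even_add_one.1 h) c
        rw [if_neg c2, if_neg c2] at h3
        rw [if_pos c1]
        omega
      · have c1 : ¬ sg false i := by
          rintro (h | h)
          · exact Bool.noConfusion h
          · exact c h
        have c2 : sg false (i + 1) := Or.inr (Nat.even_add_one.2 c)
        rw [if_pos c2, if_pos c2] at h3
        rw [if_neg c1]
        exact h3

theorem F_inj' {s s' : Bool} {n : ℕ} {b : Fin n → ℕ} (hb : Monotone b)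
    {π₁ π₂ : Perm (Fin n)} (h₁ : Cl s b π₁) (h₂ : Cl s b π₂) (i₁ : Inj b π₁) (i₂ : Inj b π₂)
    (h : F s' b π₁ = F s' b π₂) : π₁ = π₂ := by
  have e : key s b π₁ ∘ srt s' b π₁ = key s b π₂ ∘ srt s' b π₂ := by
    funext x
    simp only [Function.comp_apply]
    rw [← key_F' hb i₁, ← key_F' hb i₂, h]
  have m1 : Monotone (key s b π₁) := (lt_iff' hb h₁ i₁).monotone
  have m2 : Monotone (key s b π₂) := (lt_iff' hb h₂ i₂).monotone
  set K' := key s b π₁ ∘ srt s' b π₁ with hK'
  have e1 : key s b π₁ = K' ∘ ((srt s' b π₁)⁻¹ : Perm (Fin n)) := by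
    funext x; simp [hK']
  have e2 : key s b π₂ = K' ∘ ((srt s' b π₂)⁻¹ : Perm (Fin n)) := by
    rw [e]; funext x; simp
  have hu := Tuple.unique_monotone (f := K') (e1 ▸ m1) (e2 ▸ m2)
  have hinj : Function.Injective K' := (inj_all i₁ s).comp (srt s' b π₁).injective
  have hρ : srt s' b π₁ = srt s' b π₂ := by
    apply inv_injective
    ext x
    have := congrFun hu x
    simp only [Function.comp_apply] at this
    rw [hinj this]
  unfold F at h
  rw [hρ] at h
  have h' := mul_right_cancel h
  exact mul_left_cancel h'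

theorem card_le' (s s' : Bool) {n : ℕ} {b : Fin n → ℕ} (hb : Monotone b) :
    Nat.card {π // Cl s b π ∧ Inj b π} ≤ Nat.card {π // Cl s' b π ∧ Inj b π} :=
  Nat.card_le_card_of_injective
    (fun π => ⟨F s' b π.1, Cl_F' hb π.2.1.1 π.2.2, inj_F hb π.2.2⟩) (by
    rintro ⟨π₁, h₁⟩ ⟨π₂, h₂⟩ h
    exact Subtype.ext (F_inj' hb h₁.1 h₂.1 h₁.2 h₂.2 (congrArg Subtype.val h)))

theorem card_inj {n : ℕ} {b : Fin n → ℕ} (hb : Monotone b) :
    Nat.card {π // Cl false b π ∧ Inj b π} = Nat.card {π // Cl true b π} := by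
  have h1 : Nat.card {π // Cl true b π} = Nat.card {π // Cl true b π ∧ Inj b π} :=
    Nat.card_congr (Equiv.subtypeEquivRight (fun π => ⟨fun h => ⟨h, inj_of_true h⟩, fun h => h.1⟩))
  rw [h1]
  exact le_antisymm (card_le' _ _ hb) (card_le' _ _ hb)

/-! ### the permutations with equal itineraries -/

theorem pow_n {n : ℕ} {π : Perm (Fin n)} (h : Cyclic π) : π ^ n = 1 := by
  ext x
  have h1 := Function.iterate_minimalPeriod (f := π) (x := x)
  rw [minimalPeriod_eq h x, Perm.iterate_eq_pow] at h1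
  rw [h1]
  rfl

theorem pow_ne {n m : ℕ} (hm0 : 0 < m) (hmn : m < n) {π : Perm (Fin n)} (h : Cyclic π)
    (x : Fin n) : (π ^ m) x ≠ x := by
  intro hc
  have h1 : Function.IsPeriodicPt π m x := by
    rw [Function.IsPeriodicPt, Function.IsFixedPt, Perm.iterate_eq_pow]
    exact hc
  have h2 := h1.minimalPeriod_le hm0
  rw [minimalPeriod_eq h x] at h2
  omega

/-- the same itinerary -/
def Same {n : ℕ} (b : Fin n → ℕ) (π : Perm (Fin n)) (x y : Fin n) : Prop :=
  ∀ i, b ((π ^ i) x) = b ((π ^ i) y)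

theorem same_pow {n : ℕ} {b : Fin n → ℕ} {π : Perm (Fin n)} {x y : Fin n} (h : Same b π x y)
    (d : ℕ) : Same b π ((π ^ d) x) ((π ^ d) y) := by
  intro i
  rw [← Perm.mul_apply, ← Perm.mul_apply, ← pow_add]
  exact h _

theorem same_cases {n m : ℕ} (hn : n = 2 * m) (hm : m % 2 = 1) {b : Fin n → ℕ}
    {π : Perm (Fin n)} (h : Cl false b π) {x y : Fin n} (hxy : Same b π x y) :
    y = x ∨ y = (π ^ m) x := by
  obtain ⟨d, hd⟩ := h.1 x y
  obtain ⟨h1, h2⟩ := same_key h hxy hd
  by_cases hs : sg false d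
  · exact Or.inl (h1 hs).symm
  · right
    have hodd : ¬ Even d := fun he => hs (Or.inr he)
    have h3 : n ∣ 2 * d := by
      rw [← minimalPeriod_eq h.1 x]
      apply Function.IsPeriodicPt.minimalPeriod_dvd
      rw [Function.IsPeriodicPt, Function.IsFixedPt, Perm.iterate_eq_pow]
      exact h2
    obtain ⟨q, hq⟩ := h3
    have hdq : d = m * q := by
      rw [hn, mul_assoc] at hq
      omega
    have hqo : q % 2 = 1 := by
      by_contra hc
      apply hodd
      have : Even q := by rw [Nat.even_iff]; omega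
      rw [hdq]
      exact this.mul_left m
    obtain ⟨r, rfl⟩ : ∃ r, q = 2 * r + 1 := ⟨q / 2, by omega⟩
    have e : d = m + n * r := by rw [hdq, hn]; ring
    rw [← hd, e, pow_add, pow_mul, pow_n h.1, one_pow, mul_one]

theorem same_all {n m : ℕ} (hn : n = 2 * m) (hm : m % 2 = 1) {b : Fin n → ℕ}
    {π : Perm (Fin n)} (h : Cl false b π) (hi : ¬ Inj b π) (z : Fin n) :
    Same b π z ((π ^ m) z) := by
  unfold Inj Function.Injective at hi
  push Not at hi
  obtain ⟨x, y, hxy, hne⟩ := hi
  rw [key_eq_iff] at hxy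
  rcases same_cases hn hm h hxy with h1 | h1
  · exact absurd h1.symm hne
  · obtain ⟨d, hd⟩ := h.1 x z
    have h2 := same_pow (hxy : Same b π x y) d
    rw [hd, h1, ← Perm.mul_apply, ← pow_add, add_comm, pow_add, Perm.mul_apply, hd] at h2
    exact h2

theorem same_between {n : ℕ} {b : Fin n → ℕ} (hb : Monotone b) {π : Perm (Fin n)}
    (h : Cl false b π) {x y z : Fin n} (hxy : x < y) (hyz : y < z) (hs : Same b π x z) :
    Same b π x y := by
  intro i
  induction i using Nat.strong_induction_on with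
  | _ i ih =>
    have h1 := iter h hxy i ih
    have h2 := iter h hyz i (fun j hj => (ih j hj).symm.trans (hs j))
    have h3 := hs i
    by_cases c : sg false i
    · rw [if_pos c] at h1 h2
      have := hb h1.le
      have := hb h2.le
      omega
    · rw [if_neg c] at h1 h2
      have := hb h1.le
      have := hb h2.le
      omega

/-- the partner of `z` is next to `z` -/
theorem adj {n m : ℕ} (hn : n = 2 * m) (hm : m % 2 = 1) {b : Fin n → ℕ} (hb : Monotone b)
    {π : Perm (Fin n)} (h : Cl false b π) (hi : ¬ Inj b π) (z : Fin n) :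
    (((π ^ m) z : Fin n) : ℕ) = z + 1 ∨ (z : ℕ) = ((π ^ m) z : Fin n) + 1 := by
  have hne := pow_ne (n := n) (m := m) (by omega) (by omega) h.1 z
  have hs := same_all hn hm h hi z
  have hinv : (π ^ m) ((π ^ m) z) = z := by
    rw [← Perm.mul_apply, ← pow_add, show m + m = n by omega, pow_n h.1]
    rfl
  rcases lt_or_gt_of_ne hne with h1 | h1
  · right
    by_contra hc
    have h1' : (((π ^ m) z : Fin n) : ℕ) < z := h1
    have hz := z.2
    have h2 : (π ^ m) z < ⟨((π ^ m) z : Fin n) + 1, by omega⟩ := by rw [Fin.lt_def]; simp only; omega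
    have h3 : (⟨((π ^ m) z : Fin n) + 1, by omega⟩ : Fin n) < z := by rw [Fin.lt_def]; simp only; omega
    have h4 := same_between hb h h2 h3 (fun i => (hs i).symm)
    rcases same_cases hn hm h h4 with h5 | h5
    · exact absurd h5.symm h2.ne
    · rw [hinv] at h5
      exact absurd h5 h3.ne
  · left
    by_contra hc
    have h1' : (z : ℕ) < ((π ^ m) z : Fin n) := h1
    have hz := ((π ^ m) z).2
    have h2 : z < ⟨(z : ℕ) + 1, by omega⟩ := by rw [Fin.lt_def]; simp only; omega
    have h3 : (⟨(z : ℕ) + 1, by omega⟩ : Fin n) < (π ^ m) z := by rw [Fin.lt_def]; simp only; omega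
    have h4 := same_between hb h h2 h3 hs
    rcases same_cases hn hm h h4 with h5 | h5
    · exact absurd h5.symm h2.ne
    · exact absurd h5 h3.ne

/-- the fibres of the itinerary are the pairs `{2 i, 2 i + 1}` -/
theorem pairs {n m : ℕ} (hn : n = 2 * m) (hm : m % 2 = 1) {b : Fin n → ℕ} (hb : Monotone b)
    {π : Perm (Fin n)} (h : Cl false b π) (hi : ¬ Inj b π) : ∀ (i : ℕ) (hx : 2 * i + 1 < n),
    (π ^ m) ⟨2 * i, by omega⟩ = ⟨2 * i + 1, hx⟩ ∧ (π ^ m) ⟨2 * i + 1, hx⟩ = ⟨2 * i, by omega⟩ := by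
  have hinv : ∀ z, (π ^ m) ((π ^ m) z) = z := by
    intro z
    rw [← Perm.mul_apply, ← pow_add, show m + m = n by omega, pow_n h.1]
    rfl
  intro i
  induction i with
  | zero =>
    intro hx
    have h1 := adj hn hm hb h hi ⟨2 * 0, by omega⟩
    have h2 : (π ^ m) ⟨2 * 0, by omega⟩ = ⟨2 * 0 + 1, hx⟩ := by
      apply Fin.ext
      simp only at h1 ⊢
      omega
    exact ⟨h2, by rw [← h2, hinv]⟩
  | succ i ih =>
    intro hx
    have h1 := adj hn hm hb h hi ⟨2 * (i + 1), by omega⟩
    obtain ⟨h3, h4⟩ := ih (by omega)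
    have h2 : (π ^ m) ⟨2 * (i + 1), by omega⟩ = ⟨2 * (i + 1) + 1, hx⟩ := by
      apply Fin.ext
      rcases h1 with h1 | h1
      · exact h1
      · exfalso
        have h5 : (π ^ m) ⟨2 * (i + 1), by omega⟩ = ⟨2 * i + 1, by omega⟩ := by
          apply Fin.ext
          simp only at h1 ⊢
          omega
        have h6 := hinv ⟨2 * (i + 1), by omega⟩
        rw [h5, h4, Fin.mk.injEq] at h6
        omega
    exact ⟨h2, by rw [← h2, hinv]⟩

/-- cyclic, and `π (2 i) = π (2 i + 1) + 1` with `π (2 i + 1)` even -/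
def PP {n : ℕ} (π : Perm (Fin n)) : Prop :=
  Cyclic π ∧ ∀ x y : Fin n, (x : ℕ) % 2 = 0 → (y : ℕ) = x + 1 →
    ((π y : ℕ) % 2 = 0 ∧ (π x : ℕ) = π y + 1)

theorem PP_of {n m : ℕ} (hn : n = 2 * m) (hm : m % 2 = 1) {b : Fin n → ℕ} (hb : Monotone b)
    {π : Perm (Fin n)} (h : Cl false b π) (hi : ¬ Inj b π) : PP π := by
  refine ⟨h.1, ?_⟩
  intro x y hx hy
  have hp := pairs hn hm hb h hi ((x : ℕ) / 2) (by have := y.2; omega)
  have ex : (⟨2 * ((x : ℕ) / 2), by have := y.2; omega⟩ : Fin n) = x :=
    Fin.ext (by simp only; omega)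
  have ey : (⟨2 * ((x : ℕ) / 2) + 1, by have := y.2; omega⟩ : Fin n) = y :=
    Fin.ext (by simp only; omega)
  rw [ex, ey] at hp
  obtain ⟨h1, h2⟩ := hp
  -- `π y` is the partner of `π x`
  have h3 : (π ^ m) (π y) = π x := by
    rw [← Perm.mul_apply, ← pow_succ, pow_succ', Perm.mul_apply, h2]
  have h4 : b x = b y := by
    have := same_all hn hm h hi x 0
    rw [h1] at this
    simpa using this
  have h5 := h.2 x y (by rw [Fin.lt_def]; omega) h4
  unfold Pool.Agent.Results.MP_d71793_co.ComplementSignature.Rel at h5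
  rw [if_neg (by simp), Fin.lt_def] at h5
  have hπy := (π y).2
  have hπx := (π x).2
  rcases Nat.mod_two_eq_zero_or_one (π y : ℕ) with h6 | h6
  · have hq := (pairs hn hm hb h hi ((π y : ℕ) / 2) (by omega)).1
    have e1 : (⟨2 * ((π y : ℕ) / 2), by omega⟩ : Fin n) = π y := Fin.ext (by simp only; omega)
    rw [e1, h3] at hq
    refine ⟨h6, ?_⟩
    rw [hq]
    simp only
    omega
  · exfalso
    have hq := (pairs hn hm hb h hi ((π y : ℕ) / 2) (by omega)).2
    have e1 : (⟨2 * ((π y : ℕ) / 2) + 1, by omega⟩ : Fin n) = π y := Fin.ext (by simp only; omega)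
    rw [e1, h3] at hq
    rw [hq] at h5
    simp only at h5
    omega

theorem notInj_iff {n m : ℕ} (hn : n = 2 * m) (hm : m % 2 = 1) {J : Finset ℕ} (hJ : J ⊆ range n)
    (π : Perm (Fin n)) : (Cl false (bJ J) π ∧ ¬ Inj (bJ J) π) ↔
      (PP π ∧ V false π ⊆ J ∧ ∀ j ∈ J, j % 2 = 1) := by
  constructor
  · rintro ⟨h, hi⟩
    refine ⟨PP_of hn hm (bJ_mono J) h hi, (Cl_bJ.1 h).2, ?_⟩
    intro j hj
    by_contra hc
    have hjn := mem_range.1 (hJ hj)
    have h1 := (pairs hn hm (bJ_mono J) h hi (j / 2) (by omega)).1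
    have e : (⟨2 * (j / 2), by omega⟩ : Fin n) = ⟨j, hjn⟩ := Fin.ext (by simp only; omega)
    rw [e] at h1
    have h2 := same_all hn hm h hi ⟨j, hjn⟩ 0
    rw [h1] at h2
    simp only [pow_zero, Perm.one_apply] at h2
    rw [bJ_eq_iff (by rw [Fin.lt_def]; simp only; omega)] at h2
    apply h2 j hj
    simp only
    omega
  · rintro ⟨h1, h2, h3⟩
    refine ⟨Cl_bJ.2 ⟨h1.1, h2⟩, ?_⟩
    intro hc
    have hb : ∀ x y : Fin n, (x : ℕ) / 2 = (y : ℕ) / 2 → bJ J x = bJ J y := by
      have : ∀ x y : Fin n, x < y → (x : ℕ) / 2 = (y : ℕ) / 2 → bJ J x = bJ J y := by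
        intro x y hxy he
        rw [bJ_eq_iff hxy]
        intro j hj hc
        have := h3 j hj
        rw [Fin.lt_def] at hxy
        omega
      intro x y he
      rcases lt_trichotomy x y with h | h | h
      · exact this x y h he
      · rw [h]
      · exact (this y x h he.symm).symm
    have hπ : ∀ x y : Fin n, (x : ℕ) / 2 = (y : ℕ) / 2 → (π x : ℕ) / 2 = (π y : ℕ) / 2 := by
      have : ∀ x y : Fin n, x < y → (x : ℕ) / 2 = (y : ℕ) / 2 →
          (π x : ℕ) / 2 = (π y : ℕ) / 2 := by
        intro x y hxy he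
        rw [Fin.lt_def] at hxy
        have := h1.2 x y (by omega) (by omega)
        omega
      intro x y he
      rcases lt_trichotomy x y with h | h | h
      · exact this x y h he
      · rw [h]
      · exact (this y x h he.symm).symm
    have hpow : ∀ i (x y : Fin n), (x : ℕ) / 2 = (y : ℕ) / 2 →
        (((π ^ i) x : Fin n) : ℕ) / 2 = (((π ^ i) y : Fin n) : ℕ) / 2 := by
      intro i
      induction i with
      | zero => intro x y h; simpa using h
      | succ i ih =>
        intro x y h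
        rw [pow_succ, Perm.mul_apply, Perm.mul_apply]
        exact ih _ _ (hπ x y h)
    have h01 : (⟨0, by omega⟩ : Fin n) = ⟨1, by omega⟩ := by
      apply hc
      rw [key_eq_iff]
      intro i
      apply hb
      apply hpow
      simp only
    rw [Fin.mk.injEq] at h01
    omega

end Q165.AltSig
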