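import Pool.Agent.Q165.AltSigKey
import Pool.Agent.Q165.AltSigDef

/-!
# The sum over the descent sets
-/

set_option autoImplicit false

namespace Q165.AltSig

open Finset Equiv
open Pool.Agent.Results.MP_d71793_co.ComplementSignature

open Classical in
/-- the number of the elements of `PP` with the given ascent set -/
noncomputable def p (n : ℕ) (E : Finset ℕ) : ℕ :=
  ((univ : Finset (Perm (Fin n))).filter (fun π => PP π ∧ V false π = E)).card

open Classical in
theorem card_PP (n : ℕ) (J : Finset ℕ) :
    ((univ : Finset (Perm (Fin n))).filter (fun π => PP π ∧ V false π ⊆ J)).card =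
      ∑ E ∈ J.powerset, p n E := by
  rw [card_eq_sum_card_fiberwise (f := fun π : Perm (Fin n) => V false π) (t := J.powerset)]
  · refine sum_congr rfl (fun D hD => ?_)
    unfold p
    congr 1
    ext π
    rw [mem_filter, mem_filter, mem_filter]
    rw [mem_powerset] at hD
    constructor
    · rintro ⟨⟨_, h1, _⟩, h2⟩
      exact ⟨mem_univ _, h1, h2⟩
    · rintro ⟨_, h1, h2⟩
      exact ⟨⟨mem_univ _, h1, h2 ▸ hD⟩, h2⟩
  · intro π hπ
    rw [mem_coe, mem_filter] at hπ
    rw [mem_coe, mem_powerset]
    exact hπ.2.2

open Classical in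
theorem sum_g {n m : ℕ} (hn : n = 2 * m) (hm : m % 2 = 1) {J : Finset ℕ} (hJ : J ⊆ range n) :
    ∑ D ∈ J.powerset, g false n D = ∑ D ∈ J.powerset, g true n D +
      if (∀ j ∈ J, j % 2 = 1) then ∑ E ∈ J.powerset, p n E else 0 := by
  rw [← card_sub, ← card_sub, ← card_inj (bJ_mono J), ← card_PP]
  rw [Nat.card_eq_fintype_card, Fintype.card_subtype, Nat.card_eq_fintype_card,
    Fintype.card_subtype]
  have h1 : (univ.filter (fun π : Perm (Fin n) => Cl false (bJ J) π)) =
      (univ.filter (fun π : Perm (Fin n) => Cl false (bJ J) π ∧ Inj (bJ J) π)) ∪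
      (univ.filter (fun π : Perm (Fin n) => Cl false (bJ J) π ∧ ¬ Inj (bJ J) π)) := by
    ext π
    simp only [mem_filter, mem_univ, true_and, mem_union]
    tauto
  rw [h1, card_union_of_disjoint]
  · congr 1
    split_ifs with hc
    · congr 1
      ext π
      simp only [mem_filter, mem_univ, true_and]
      rw [notInj_iff hn hm hJ]
      tauto
    · rw [card_eq_zero, filter_eq_empty_iff]
      intro π _ h
      rw [notInj_iff hn hm hJ] at h
      exact hc h.2.2
  · rw [disjoint_left]
    intro π h2 h3
    rw [mem_filter] at h2 h3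
    exact h3.2.2 h2.2.2

/-- the even part and the odd part -/
def ev (D : Finset ℕ) : Finset ℕ := D.filter (fun j => j % 2 = 0)
def od (D : Finset ℕ) : Finset ℕ := D.filter (fun j => j % 2 = 1)

/-- toggle an element -/
def tg (D : Finset ℕ) (q : ℕ) : Finset ℕ := if q ∈ D then D.erase q else insert q D

theorem mem_tg {D : Finset ℕ} {q j : ℕ} : j ∈ tg D q ↔ (j = q ∧ q ∉ D) ∨ (j ≠ q ∧ j ∈ D) := by
  unfold tg
  by_cases h : q ∈ D
  · rw [if_pos h, mem_erase]
    tauto
  · rw [if_neg h, mem_insert]
    constructor
    · rintro (h1 | h1)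
      · exact Or.inl ⟨h1, h⟩
      · exact Or.inr ⟨fun he => h (he ▸ h1), h1⟩
    · tauto

theorem tg_tg (D : Finset ℕ) (q : ℕ) : tg (tg D q) q = D := by
  ext j
  rw [mem_tg, mem_tg, mem_tg]
  by_cases h : j = q
  · subst h
    tauto
  · tauto

theorem tg_ne (D : Finset ℕ) (q : ℕ) : tg D q ≠ D := by
  intro h
  have h1 : q ∈ tg D q ↔ q ∈ D := by rw [h]
  rw [mem_tg] at h1
  tauto

theorem od_tg {D : Finset ℕ} {q : ℕ} (hq : q % 2 = 0) : od (tg D q) = od D := by
  ext j
  unfold od
  rw [mem_filter, mem_filter, mem_tg]
  constructor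
  · rintro ⟨h1 | h1, h2⟩
    · omega
    · exact ⟨h1.2, h2⟩
  · rintro ⟨h1, h2⟩
    exact ⟨Or.inr ⟨by rintro rfl; omega, h1⟩, h2⟩

theorem sign_tg {D : Finset ℕ} {q : ℕ} (hq : q % 2 = 0) :
    ((-1 : ℤ)) ^ (ev (tg D q)).card = - (-1 : ℤ) ^ (ev D).card := by
  have key : ∀ D : Finset ℕ, q ∉ D → ev (insert q D) = insert q (ev D) ∧ q ∉ ev D := by
    intro D h
    refine ⟨?_, fun h1 => h (mem_filter.1 h1).1⟩
    unfold ev
    rw [filter_insert, if_pos hq]
  by_cases h : q ∈ D
  · have h1 : tg D q = D.erase q := by unfold tg; rw [if_pos h]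
    have h2 := key (D.erase q) (notMem_erase q D)
    rw [insert_erase h] at h2
    rw [h1, h2.1, card_insert_of_notMem h2.2, pow_succ]
    ring
  · have h1 : tg D q = insert q D := by unfold tg; rw [if_neg h]
    have h2 := key D h
    rw [h1, h2.1, card_insert_of_notMem h2.2, pow_succ]
    ring

/-- the difference of the two numbers -/
noncomputable def hh (n : ℕ) (D : Finset ℕ) : ℤ := (-1) ^ (ev D).card * p n (od D)

theorem hh_tg {n : ℕ} {D : Finset ℕ} {q : ℕ} (hq : q % 2 = 0) : hh n (tg D q) = - hh n D := by
  unfold hh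
  rw [sign_tg hq, od_tg hq]
  ring

theorem sum_hh (n : ℕ) (J : Finset ℕ) : ∑ D ∈ J.powerset, hh n D =
    if (∀ j ∈ J, j % 2 = 1) then ∑ E ∈ J.powerset, (p n E : ℤ) else 0 := by
  split_ifs with hc
  · refine sum_congr rfl (fun D hD => ?_)
    rw [mem_powerset] at hD
    have h1 : ev D = ∅ := by
      unfold ev
      rw [filter_eq_empty_iff]
      intro j hj
      have := hc j (hD hj)
      omega
    have h2 : od D = D := by
      unfold od
      rw [filter_eq_self]
      intro j hj
      exact hc j (hD hj)
    unfold hh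
    rw [h1, h2]
    simp
  · push Not at hc
    obtain ⟨q, hqJ, hq⟩ := hc
    have hq' : q % 2 = 0 := by omega
    apply sum_involution (fun D _ => tg D q)
    · intro D _
      rw [hh_tg hq']
      ring
    · intro D _ _
      exact tg_ne D q
    · intro D hD
      rw [mem_powerset] at hD ⊢
      intro j hj
      rw [mem_tg] at hj
      rcases hj with hj | hj
      · rw [hj.1]; exact hqJ
      · exact hD hj.2
    · intro D _
      exact tg_tg D q

theorem g_diff {n m : ℕ} (hn : n = 2 * m) (hm : m % 2 = 1) (D : Finset ℕ) (hD : D ⊆ range n) :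
    (g false n D : ℤ) = g true n D + hh n D := by
  classical
  induction D using Finset.strongInduction with
  | H D ih =>
    have h1 := sum_g hn hm hD
    have h2 := sum_hh n D
    have h3 : (∑ D' ∈ D.powerset, (g false n D' : ℤ)) =
        ∑ D' ∈ D.powerset, (g true n D' : ℤ) + ∑ D' ∈ D.powerset, hh n D' := by
      rw [h2]
      have := congrArg (fun x : ℕ => (x : ℤ)) h1
      push_cast at this
      exact this
    have hmem : D ∈ D.powerset := mem_powerset_self D
    rw [← add_sum_erase _ _ hmem, ← add_sum_erase _ _ hmem, ← add_sum_erase _ _ hmem] at h3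
    have h4 : ∑ D' ∈ D.powerset.erase D, (g false n D' : ℤ) =
        ∑ D' ∈ D.powerset.erase D, (g true n D' : ℤ) + ∑ D' ∈ D.powerset.erase D, hh n D' := by
      rw [← sum_add_distrib]
      refine sum_congr rfl (fun D' hD' => ?_)
      rw [mem_erase, mem_powerset] at hD'
      exact ih D' (lt_of_le_of_ne hD'.2 hD'.1) (hD'.2.trans hD)
    linarith

/-! ### changes of sign -/

/-- the letter number `i - 1` of `D`; the letter before the first one is `+` -/
def lt (D : Finset ℕ) (i : ℕ) : Prop := i ≠ 0 ∧ i - 1 ∈ D

instance (D : Finset ℕ) (i : ℕ) : Decidable (lt D i) := by unfold lt; infer_instance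

theorem lt_zero (D : Finset ℕ) : ¬ lt D 0 := fun h => h.1 rfl

theorem lt_succ (D : Finset ℕ) (i : ℕ) : lt D (i + 1) ↔ i ∈ D := by
  unfold lt
  simp

/-- the number of changes of letter -/
def ch (D : Finset ℕ) : ℕ → ℕ
  | 0 => 0
  | (x + 1) => ch D x + if (lt D (x + 1) ↔ lt D x) then 0 else 1

theorem ch_succ (D : Finset ℕ) (x : ℕ) :
    ch D (x + 1) = ch D x + if (lt D (x + 1) ↔ lt D x) then 0 else 1 := rfl

theorem ch_le (D : Finset ℕ) (x : ℕ) : ch D x ≤ ch D (x + 1) ∧ ch D (x + 1) ≤ ch D x + 1 := by
  rw [ch_succ]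
  split_ifs <;> omega

theorem ch_mono (D : Finset ℕ) : Monotone (ch D) :=
  monotone_nat_of_le_succ (fun x => (ch_le D x).1)

theorem lt_iff_ch (D : Finset ℕ) (x : ℕ) : lt D x ↔ ch D x % 2 = 1 := by
  induction x with
  | zero => simp [lt_zero, ch]
  | succ x ih =>
    rw [ch_succ]
    by_cases h : (lt D (x + 1) ↔ lt D x)
    · rw [if_pos h, h, ih, add_zero]
    · rw [if_neg h]
      rw [ih] at h
      by_cases h1 : lt D (x + 1)
      · simp only [h1, true_iff] at h ⊢
        omega
      · simp only [h1, false_iff] at h ⊢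
        omega

theorem good_iff {k n : ℕ} (hk : 1 ≤ k) (hn : 1 ≤ n) (D : Finset ℕ) :
    Good (altPlus k) n D ↔ ch D (n - 1) + 1 ≤ k := by
  unfold Good altPlus
  constructor
  · rintro ⟨e, h0, hl, hm, hb⟩
    have key : ∀ x, ∀ i : Fin k, x < e i.succ → ch D x ≤ i := by
      intro x
      induction x with
      | zero => intro i _; exact Nat.zero_le _
      | succ x ih =>
        intro i hx
        have hc := ch_le D x
        by_cases hxi : e i.castSucc ≤ x
        · have h1 := ih i (by omega)
          have h2 := hb i x hxi hx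
          have h3 := lt_iff_ch D (x + 1)
          rw [lt_succ] at h3
          rw [decide_eq_true_iff] at h2
          rw [h3] at h2
          omega
        · have hi0 : (i : ℕ) ≠ 0 := by
            intro hi
            have : i.castSucc = 0 := by
              apply Fin.ext
              simpa using hi
            rw [this, h0] at hxi
            omega
          have hil := i.2
          have he : (⟨(i : ℕ) - 1, by omega⟩ : Fin k).succ = i.castSucc := by
            apply Fin.ext
            simp only [Fin.val_succ, Fin.val_castSucc]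
            omega
          have h1 := ih ⟨(i : ℕ) - 1, by omega⟩ (by rw [he]; omega)
          simp only at h1
          omega
    have he : (⟨k - 1, by omega⟩ : Fin k).succ = Fin.last k := by
      apply Fin.ext
      simp only [Fin.val_succ, Fin.val_last]
      omega
    have := key (n - 1) ⟨k - 1, by omega⟩ (by rw [he, hl]; omega)
    simp only at this
    omega
  · intro h
    have thr : ∀ i x, x < n → (x < ((range n).filter (fun y => ch D y < i)).card ↔ ch D x < i) := by
      intro i x hx
      constructor
      · intro h1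
        by_contra hc
        have h2 : (range n).filter (fun y => ch D y < i) ⊆ range x := by
          intro y hy
          rw [mem_filter] at hy
          rw [mem_range]
          by_contra hyx
          have := ch_mono D (not_lt.1 hyx)
          omega
        have h3 := card_le_card h2
        rw [card_range] at h3
        omega
      · intro h1
        have h2 : range (x + 1) ⊆ (range n).filter (fun y => ch D y < i) := by
          intro y hy
          rw [mem_range] at hy
          rw [mem_filter, mem_range]
          have := ch_mono D (show y ≤ x by omega)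
          exact ⟨by omega, by omega⟩
        have h3 := card_le_card h2
        rw [card_range] at h3
        omega
    refine ⟨fun i => ((range n).filter (fun y => ch D y < i)).card, ?_, ?_, ?_, ?_⟩
    · simp
    · simp only [Fin.val_last]
      rw [filter_true_of_mem, card_range]
      intro y hy
      rw [mem_range] at hy
      have := ch_mono D (show y ≤ n - 1 by omega)
      omega
    · intro i j hij
      apply card_le_card
      intro y hy
      rw [mem_filter] at hy ⊢
      have : (i : ℕ) ≤ j := hij
      exact ⟨hy.1, by omega⟩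
    · intro i j h1 h2
      simp only [Fin.val_castSucc, Fin.val_succ] at h1 h2
      have hle : ((range n).filter (fun y => ch D y < (i : ℕ) + 1)).card ≤ n := by
        have := card_le_card (filter_subset (fun y => ch D y < (i : ℕ) + 1) (range n))
        rwa [card_range] at this
      have h3 := (thr (i + 1) (j + 1) (by omega)).1 h2
      have h4 := (thr i j (by omega)).not.1 (by omega)
      have h5 := (ch_le D j).1
      have h6 := lt_iff_ch D (j + 1)
      rw [lt_succ] at h6
      rw [decide_eq_true_iff, h6]
      omega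

theorem ch_tg {D : Finset ℕ} {q : ℕ} (h1 : ¬ lt D q) (h2 : q + 1 ∈ D) :
    ∀ x, (x ≤ q → ch (tg D q) x = ch D x) ∧ (q + 2 ≤ x → ch (tg D q) x = ch D x) := by
  have hne : ∀ i, i ≠ q + 1 → (lt (tg D q) i ↔ lt D i) := by
    intro i hi
    unfold lt
    rw [mem_tg]
    constructor
    · rintro ⟨h3, h4 | h4⟩
      · omega
      · exact ⟨h3, h4.2⟩
    · rintro ⟨h3, h4⟩
      exact ⟨h3, Or.inr ⟨by omega, h4⟩⟩
  have heq : lt (tg D q) (q + 1) ↔ ¬ lt D (q + 1) := by
    rw [lt_succ, lt_succ, mem_tg]
    tauto
  intro x
  induction x with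
  | zero => exact ⟨fun _ => rfl, fun h => by omega⟩
  | succ x ih =>
    refine ⟨fun hx => ?_, fun hx => ?_⟩
    · rw [ch_succ, ch_succ, ih.1 (by omega)]
      have e1 := hne (x + 1) (by omega)
      have e2 := hne x (by omega)
      rw [if_congr (by rw [e1, e2]) rfl rfl]
    · by_cases hx2 : x = q + 1
      · subst hx2
        have h3 : ch (tg D q) q = ch D q := by
          -- up to `q` nothing changes
          have aux : ∀ y, y ≤ q → ch (tg D q) y = ch D y := by
            intro y
            induction y with
            | zero => intro _; rfl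
            | succ y ihy =>
              intro hy
              rw [ch_succ, ch_succ, ihy (by omega)]
              have e1 := hne (y + 1) (by omega)
              have e2 := hne y (by omega)
              rw [if_congr (by rw [e1, e2]) rfl rfl]
          exact aux q le_rfl
        rw [ch_succ, ch_succ, ch_succ, ch_succ, h3]
        have e1 := hne (q + 1 + 1) (by omega)
        have e2 := hne q (by omega)
        have e3 : lt D (q + 1 + 1) := by rw [lt_succ]; exact h2
        by_cases hc : lt D (q + 1)
        · have hc' : ¬ lt (tg D q) (q + 1) := by rw [heq]; exact fun h => h hc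
          have a1 : (lt (tg D q) (q + 1) ↔ lt (tg D q) q) := by tauto
          have a2 : ¬ (lt (tg D q) (q + 1 + 1) ↔ lt (tg D q) (q + 1)) := by tauto
          have a3 : ¬ (lt D (q + 1) ↔ lt D q) := by tauto
          have a4 : (lt D (q + 1 + 1) ↔ lt D (q + 1)) := by tauto
          rw [if_pos a1, if_neg a2, if_neg a3, if_pos a4]
        · have hc' : lt (tg D q) (q + 1) := by rw [heq]; exact hc
          have a1 : ¬ (lt (tg D q) (q + 1) ↔ lt (tg D q) q) := by tauto
          have a2 : (lt (tg D q) (q + 1 + 1) ↔ lt (tg D q) (q + 1)) := by tauto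
          have a3 : (lt D (q + 1) ↔ lt D q) := by tauto
          have a4 : ¬ (lt D (q + 1 + 1) ↔ lt D (q + 1)) := by tauto
          rw [if_neg a1, if_pos a2, if_pos a3, if_neg a4]
      · rw [ch_succ, ch_succ, ih.2 (by omega)]
        have e1 := hne (x + 1) (by omega)
        have e2 := hne x (by omega)
        rw [if_congr (by rw [e1, e2]) rfl rfl]

/-! ### the elements of `PP` have an ascent -/

theorem PP_ascent {n : ℕ} (hn : 3 ≤ n) {π : Perm (Fin n)} (h : Cyclic π) :
    V false π ≠ ∅ := by
  intro hV
  have hdec : ∀ x y : Fin n, x < y → π y < π x := by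
    intro x y hxy
    have h1 : Cl false (bJ ∅) π := Cl_bJ.2 ⟨h, by rw [hV]⟩
    have h2 := h1.2 x y hxy (by
      rw [bJ_eq_iff hxy]
      intro j hj
      exact absurd hj (notMem_empty j))
    unfold Pool.Agent.Results.MP_d71793_co.ComplementSignature.Rel at h2
    rwa [if_neg (by simp)] at h2
  have hinc : ∀ x y : Fin n, x < y → (π ^ 2) x < (π ^ 2) y := by
    intro x y hxy
    rw [pow_two, Perm.mul_apply, Perm.mul_apply]
    exact hdec _ _ (hdec _ _ hxy)
  have hfix : (π ^ 2) ⟨0, by omega⟩ = ⟨0, by omega⟩ := by
    apply no_drift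
    intro m
    rw [pow_succ' _ (m + 1), Perm.mul_apply]
    constructor
    · intro h1
      have := hinc _ _ h1
      rw [← Perm.mul_apply, ← pow_succ'] at this
      exact this
    · intro h1
      have := hinc _ _ h1
      rw [← Perm.mul_apply (π ^ 2) ((π ^ 2) ^ m), ← pow_succ'] at this
      exact this
  exact pow_ne (by norm_num) (by omega) h _ hfix

/-- the smallest element -/
noncomputable def mo (E : Finset ℕ) : ℕ := sInf (E : Set ℕ)

theorem p_ne_zero {n : ℕ} (hn : 3 ≤ n) {E : Finset ℕ} (h : p n E ≠ 0) :
    E.Nonempty ∧ ∀ j ∈ E, j + 1 < n := by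
  classical
  unfold p at h
  rw [← Nat.pos_iff_ne_zero, card_pos] at h
  obtain ⟨π, hπ⟩ := h
  rw [mem_filter] at hπ
  obtain ⟨_, h1, rfl⟩ := hπ
  refine ⟨nonempty_iff_ne_empty.2 (PP_ascent hn h1.1), ?_⟩
  intro j hj
  unfold V at hj
  rw [mem_filter] at hj
  obtain ⟨_, h2, _⟩ := hj
  exact h2

open Classical in
theorem sum_good {k n : ℕ} (hk : 1 ≤ k) (hn : 3 ≤ n) :
    ∑ D ∈ (range n).powerset, (if Good (altPlus k) n D then hh n D else 0) = 0 := by
  have main : ∀ D ∈ (range n).powerset, p n (od D) ≠ 0 →
      (mo (od D) - 1) % 2 = 0 ∧ mo (od D) - 1 < n ∧ ¬ lt D (mo (od D) - 1) ∧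
        mo (od D) - 1 + 1 ∈ D ∧ mo (od D) - 1 + 2 ≤ n - 1 := by
    intro D hD hp
    obtain ⟨hne, hlt⟩ := p_ne_zero hn hp
    have h1 : mo (od D) ∈ od D := by
      have := Nat.sInf_mem (s := (od D : Set ℕ)) hne
      exact this
    have h2 := hlt _ h1
    have h1' : mo (od D) ∈ D ∧ mo (od D) % 2 = 1 := by
      have := h1
      unfold od at this
      rw [mem_filter] at this
      exact this
    refine ⟨by omega, by omega, ?_, ?_, by omega⟩
    · rintro ⟨h3, h4⟩
      have h5 : mo (od D) - 1 - 1 ∈ (od D : Set ℕ) := by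
        rw [mem_coe]
        exact mem_filter.2 ⟨h4, by omega⟩
      have h6 : mo (od D) ≤ mo (od D) - 1 - 1 := Nat.sInf_le h5
      omega
    · rw [show mo (od D) - 1 + 1 = mo (od D) by omega]
      exact h1'.1
  have hG : ∀ D ∈ (range n).powerset, p n (od D) ≠ 0 →
      (Good (altPlus k) n (tg D (mo (od D) - 1)) ↔ Good (altPlus k) n D) := by
    intro D hD hp
    obtain ⟨_, _, h3, h4, h5⟩ := main D hD hp
    rw [good_iff hk (by omega), good_iff hk (by omega), (ch_tg h3 h4 (n - 1)).2 h5]
  apply sum_involution (fun D _ => if p n (od D) = 0 then D else tg D (mo (od D) - 1))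
  · intro D hD
    by_cases hp : p n (od D) = 0
    · rw [if_pos hp]
      have : hh n D = 0 := by unfold hh; rw [hp]; simp
      rw [this]
      simp
    · rw [if_neg hp]
      obtain ⟨h1, _⟩ := main D hD hp
      rw [if_congr (hG D hD hp) rfl rfl, hh_tg h1]
      split_ifs <;> ring
  · intro D hD hne
    by_cases hp : p n (od D) = 0
    · exfalso
      apply hne
      have : hh n D = 0 := by unfold hh; rw [hp]; simp
      rw [this]
      simp
    · rw [if_neg hp]
      exact tg_ne _ _
  · intro D hD
    by_cases hp : p n (od D) = 0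
    · rw [if_pos hp]; exact hD
    · rw [if_neg hp]
      obtain ⟨_, h2, _⟩ := main D hD hp
      rw [mem_powerset] at hD ⊢
      intro j hj
      rw [mem_tg] at hj
      rcases hj with hj | hj
      · rw [hj.1, mem_range]; exact h2
      · exact hD hj.2
  · intro D hD
    by_cases hp : p n (od D) = 0
    · simp only [if_pos hp]
    · have h1 := (main D hD hp).1
      have h2 : od (tg D (mo (od D) - 1)) = od D := od_tg h1
      simp only [if_neg hp]
      rw [h2, if_neg hp, tg_tg]

/-! ### the theorem -/

theorem tw_true (k : ℕ) : tw true (altPlus k) = altPlus k := by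
  funext i; unfold tw; rw [if_pos rfl]

theorem tw_false (k : ℕ) : tw false (altPlus k) = altMinus k := by
  funext i
  unfold tw altPlus altMinus
  rw [if_neg (by simp)]
  rcases Nat.mod_two_eq_zero_or_one (i : ℕ) with h | h <;> rw [h] <;> rfl

theorem count_eq_of_three {k n : ℕ} (hk : 1 ≤ k) (hn : 3 ≤ n) :
    count (altPlus k) n = count (altMinus k) n := by
  classical
  rw [← tw_false, ← tw_true, count_eq true (altPlus k), tw_true, count_eq false (altPlus k)]
  by_cases h4 : n % 4 = 2
  · have h := sum_good (k := k) hk hn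
    have hn2 : n = 2 * (n / 2) := by omega
    have hm : n / 2 % 2 = 1 := by omega
    have e : (∑ D ∈ (range n).powerset, ((if Good (altPlus k) n D then g false n D else 0 : ℕ) : ℤ)) =
        ∑ D ∈ (range n).powerset, ((if Good (altPlus k) n D then g true n D else 0 : ℕ) : ℤ) := by
      have : (∑ D ∈ (range n).powerset, ((if Good (altPlus k) n D then g false n D else 0 : ℕ) : ℤ))
          = ∑ D ∈ (range n).powerset, ((if Good (altPlus k) n D then g true n D else 0 : ℕ) : ℤ) +
            ∑ D ∈ (range n).powerset, (if Good (altPlus k) n D then hh n D else 0) := by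
        rw [← sum_add_distrib]
        refine sum_congr rfl (fun D hD => ?_)
        rw [mem_powerset] at hD
        split_ifs
        · exact g_diff hn2 hm D hD
        · simp
      rw [this, h, add_zero]
    symm
    exact_mod_cast e
  · refine sum_congr rfl (fun D _ => ?_)
    rw [g_eq h4]

theorem hasSeg_two {k : ℕ} (hk : 2 ≤ k) {n : ℕ} (hn : n ≤ 2) (σ : Fin k → Bool)
    (π : Perm (Fin n)) : HasSeg σ π := by
  refine ⟨fun i => min i n, by simp, by simp only [Fin.val_last]; omega, ?_, ?_⟩
  · intro i j hij
    have : (i : ℕ) ≤ j := hij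
    simp only
    omega
  · intro i x y h1 h2 h3
    exfalso
    simp only [Fin.val_castSucc, Fin.val_succ] at h1 h3
    rw [Fin.lt_def] at h2
    omega

theorem count_eq_all {k n : ℕ} (hk : 2 ≤ k) : count (altPlus k) n = count (altMinus k) n := by
  rcases Nat.lt_or_ge n 3 with h | h
  · unfold count
    apply Nat.card_congr
    apply Equiv.subtypeEquivRight
    intro π
    exact ⟨fun h1 => ⟨h1.1, hasSeg_two hk (by omega) _ _⟩,
      fun h1 => ⟨h1.1, hasSeg_two hk (by omega) _ _⟩⟩
  · exact count_eq_of_three (by omega) h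

theorem main {k n : ℕ} (hk : 2 ≤ k) : cyclicCount (altPlus k) n = cyclicCount (altMinus k) n :=
  count_eq_all hk

end Q165.AltSig
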