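import Mathlib

/-!
Consecutive patterns and integration: iterated integrals over coordinates of a real sequence.
-/

open MeasureTheory Set Function
open scoped ENNReal

namespace Q165.CP

noncomputable section

/-- The uniform distribution on the unit interval. -/
def U : Measure ℝ := volume.restrict (Set.Icc (0:ℝ) 1)

instance : IsProbabilityMeasure U := ⟨by simp [U]⟩

/-- Real sequences. -/
abbrev Sq := ℕ → ℝ

/-- Integrate out the coordinates in `s`. -/
def In (s : Finset ℕ) (f : Sq → ℝ≥0∞) : Sq → ℝ≥0∞ := lmarginal (fun _ => U) s f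

/-- `f` depends only on the coordinates in `A`. -/
def Dep (f : Sq → ℝ≥0∞) (A : Set ℕ) : Prop := ∀ x y, (∀ i ∈ A, x i = y i) → f x = f y

lemma Dep.mono {f : Sq → ℝ≥0∞} {A B : Set ℕ} (h : Dep f A) (hAB : A ⊆ B) : Dep f B :=
  fun x y hxy => h x y fun i hi => hxy i (hAB hi)

lemma Dep.mul {f g : Sq → ℝ≥0∞} {A : Set ℕ} (hf : Dep f A) (hg : Dep g A) :
    Dep (fun x => f x * g x) A :=
  fun x y hxy => by simp only [hf x y hxy, hg x y hxy]

lemma Dep_const (c : ℝ≥0∞) (A : Set ℕ) : Dep (fun _ => c) A := fun _ _ _ => rfl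

lemma measurable_In {f : Sq → ℝ≥0∞} (hf : Measurable f) (s : Finset ℕ) : Measurable (In s f) :=
  Measurable.lmarginal _ hf

lemma In_mono {f g : Sq → ℝ≥0∞} (s : Finset ℕ) (h : ∀ x, f x ≤ g x) (x : Sq) :
    In s f x ≤ In s g x := lmarginal_mono (s := s) (μ := fun _ => U) (fun y => h y) x

lemma In_empty (f : Sq → ℝ≥0∞) : In ∅ f = f := lmarginal_empty _ f

lemma In_mul {f h : Sq → ℝ≥0∞} {s : Finset ℕ} (hh : Dep h {i | i ∉ s}) (hf : Measurable f)
    (x : Sq) : In s (fun x => h x * f x) x = h x * In s f x := by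
  unfold In lmarginal
  have h1 : ∀ y : (i : s) → ℝ, h (updateFinset x s y) = h x := by
    intro y
    apply hh
    intro i hi
    simp only [Set.mem_ofPred_eq] at hi
    simp [updateFinset, hi]
  simp_rw [h1]
  rw [lintegral_const_mul]
  exact hf.comp measurable_updateFinset

lemma In_mul' {f h : Sq → ℝ≥0∞} {s : Finset ℕ} (hh : Dep h {i | i ∉ s}) (hf : Measurable f)
    (x : Sq) : In s (fun x => f x * h x) x = In s f x * h x := by
  simp_rw [mul_comm (f _) (h _)]
  rw [In_mul hh hf, mul_comm]

lemma In_one (s : Finset ℕ) (x : Sq) : In s (fun _ => 1) x = 1 := by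
  unfold In lmarginal
  simp

lemma In_const (s : Finset ℕ) (c : ℝ≥0∞) (x : Sq) : In s (fun _ => c) x = c := by
  unfold In lmarginal
  simp

lemma In_of_dep {f : Sq → ℝ≥0∞} {s : Finset ℕ} (hf : Dep f {i | i ∉ s}) (x : Sq) :
    In s f x = f x := by
  have := In_mul (f := fun _ => (1 : ℝ≥0∞)) (h := f) (s := s) hf measurable_const x
  simpa [In_one] using this

lemma In_dep {f : Sq → ℝ≥0∞} {A : Set ℕ} (hf : Dep f A) (s : Finset ℕ) :
    Dep (In s f) {i | i ∈ A ∧ i ∉ s} := by
  intro x y hxy
  unfold In lmarginal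
  apply lintegral_congr
  intro z
  apply hf
  intro i hi
  by_cases his : i ∈ s
  · simp [updateFinset, his]
  · simp only [updateFinset, his, dif_neg, not_false_eq_true]
    exact hxy i ⟨hi, his⟩

lemma In_union {f : Sq → ℝ≥0∞} (hf : Measurable f) {s t : Finset ℕ} (h : Disjoint s t) :
    In (s ∪ t) f = In s (In t f) := lmarginal_union _ f hf h

lemma In_union' {f : Sq → ℝ≥0∞} (hf : Measurable f) {s t : Finset ℕ} (h : Disjoint s t) :
    In (s ∪ t) f = In t (In s f) := lmarginal_union' _ f hf h

lemma In_single (f : Sq → ℝ≥0∞) (i : ℕ) (x : Sq) :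
    In {i} f x = ∫⁻ u, f (Function.update x i u) ∂U := by
  unfold In
  rw [lmarginal_singleton]

lemma Ico_union {a b c : ℕ} (h1 : a ≤ b) (h2 : b ≤ c) :
    Finset.Ico a b ∪ Finset.Ico b c = Finset.Ico a c := Finset.Ico_union_Ico_eq_Ico h1 h2

lemma In_Ico {f : Sq → ℝ≥0∞} (hf : Measurable f) {a b c : ℕ} (h1 : a ≤ b) (h2 : b ≤ c) :
    In (Finset.Ico a c) f = In (Finset.Ico a b) (In (Finset.Ico b c) f) := by
  rw [← Ico_union h1 h2, In_union hf (Finset.Ico_disjoint_Ico_consecutive a b c)]

lemma In_Ico' {f : Sq → ℝ≥0∞} (hf : Measurable f) {a b c : ℕ} (h1 : a ≤ b) (h2 : b ≤ c) :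
    In (Finset.Ico a c) f = In (Finset.Ico b c) (In (Finset.Ico a b) f) := by
  rw [← Ico_union h1 h2, In_union' hf (Finset.Ico_disjoint_Ico_consecutive a b c)]

lemma In_add {f g : Sq → ℝ≥0∞} (hf : Measurable f) (s : Finset ℕ) (x : Sq) :
    In s (fun x => f x + g x) x = In s f x + In s g x := by
  unfold In lmarginal
  rw [lintegral_add_left]
  exact hf.comp measurable_updateFinset

lemma In_const_mul {f : Sq → ℝ≥0∞} (hf : Measurable f) (c : ℝ≥0∞) (s : Finset ℕ) (x : Sq) :
    In s (fun x => c * f x) x = c * In s f x := In_mul (Dep_const c _) hf x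

/-- Shifting the coordinates. -/
lemma In_shift {f : Sq → ℝ≥0∞} (hf : Measurable f) (a b c : ℕ) (x : Sq) :
    In (Finset.Ico (a + c) (b + c)) (fun x => f (fun i => x (i + c))) x =
      In (Finset.Ico a b) f (fun i => x (i + c)) := by
  have h := lmarginal_image (μ := fun _ : ℕ => U) (e := fun i : ℕ => i + c)
    (fun i j h => by simpa using h) (Finset.Ico a b) (f := f) hf x
  unfold In
  have h2 : (Finset.Ico a b).image (fun i => i + c) = Finset.Ico (a + c) (b + c) := by
    ext i
    simp only [Finset.mem_image, Finset.mem_Ico]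
    constructor
    · rintro ⟨j, hj, rfl⟩; omega
    · intro hi; exact ⟨i - c, by omega, by omega⟩
  rw [h2] at h
  exact h

/-- Permuting the coordinates. -/
lemma In_perm {f : Sq → ℝ≥0∞} (hf : Measurable f) (s : Finset ℕ) (e : Equiv.Perm ℕ)
    (he : s.image e = s) (x : Sq) :
    In s (fun x => f (fun i => x (e i))) x = In s f (fun i => x (e i)) := by
  have h := lmarginal_image (μ := fun _ : ℕ => U) (e := e) e.injective s (f := f) hf x
  rw [he] at h
  exact h

/-- The product of interval constraints. -/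
lemma In_box (s : Finset ℕ) (B : ℕ → Set ℝ) (hB : ∀ i, MeasurableSet (B i)) (x : Sq) :
    In s (fun x => ∏ i ∈ s, (B i).indicator (fun _ => (1 : ℝ≥0∞)) (x i)) x = ∏ i ∈ s, U (B i) := by
  induction s using Finset.induction_on generalizing x with
  | empty => simp [In_empty]
  | insert i s hi ih =>
    rw [Finset.insert_eq, In_union _ (by simpa using hi)]
    · rw [In_single]
      have h1 : ∀ u : ℝ, In s (fun x => ∏ i ∈ {i} ∪ s, (B i).indicator (fun _ => (1 : ℝ≥0∞)) (x i))
          (Function.update x i u) = (B i).indicator (fun _ => (1 : ℝ≥0∞)) u * ∏ j ∈ s, U (B j) := by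
        intro u
        rw [← Finset.insert_eq]
        simp_rw [Finset.prod_insert hi]
        rw [In_mul, ih]
        · simp
        · intro y z hyz
          simp only
          rw [hyz i (by simpa using hi)]
        · apply Finset.measurable_prod
          intro j _
          exact (measurable_const.indicator (hB j)).comp (measurable_pi_apply j)
      simp_rw [h1]
      rw [lintegral_mul_const _ (measurable_const.indicator (hB i)), lintegral_indicator (hB i),
        ← Finset.insert_eq, Finset.prod_insert hi]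
      simp
    · apply Finset.measurable_prod
      intro j _
      exact (measurable_const.indicator (hB j)).comp (measurable_pi_apply j)

lemma In_le_one {f : Sq → ℝ≥0∞} (s : Finset ℕ) (h : ∀ x, f x ≤ 1) (x : Sq) : In s f x ≤ 1 :=
  (In_mono s h x).trans (In_one s x).le

end

end Q165.CP
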