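import Mathlib

/-!
Two-parameter families of real numbers with geometrically small differences.
-/

open Filter Topology

namespace Q165.CP

lemma geo_bound {x : ℕ → ℝ} {q θ : ℝ} (hθ1 : θ < 1) (hθ0 : 0 ≤ θ) (hq : 0 ≤ q)
    (h : ∀ m, |x (m + 1) - x m| ≤ q * θ ^ m) (m : ℕ) : |x m - x 0| ≤ q / (1 - θ) := by
  have h1 : ∀ m, |x m - x 0| ≤ q * (1 - θ ^ m) / (1 - θ) := by
    intro m
    induction m with
    | zero => simp
    | succ m ih =>
      have h2 : 0 < 1 - θ := by linarith
      calc |x (m + 1) - x 0| = |(x (m + 1) - x m) + (x m - x 0)| := by ring_nf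
        _ ≤ |x (m + 1) - x m| + |x m - x 0| := abs_add_le _ _
        _ ≤ q * θ ^ m + q * (1 - θ ^ m) / (1 - θ) := add_le_add (h m) ih
        _ = q * (1 - θ ^ (m + 1)) / (1 - θ) := by
            field_simp
            ring
  refine (h1 m).trans ?_
  apply div_le_div_of_nonneg_right _ (by linarith)
  have : 0 ≤ θ ^ m := pow_nonneg hθ0 m
  nlinarith

/-- A two-parameter family with small differences in both directions converges. -/
theorem two_cauchy {R : ℕ → ℕ → ℝ} {A : ℕ} {K θ : ℝ} (hK : 0 ≤ K) (hθ0 : 0 < θ) (hθ1 : θ < 1)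
    (h1 : ∀ i N, A ≤ i → i + A ≤ N → |R i (N + 1) - R i N| ≤ K * θ ^ (N - i))
    (h2 : ∀ i N, A ≤ i → i + A ≤ N → |R (i + 1) (N + 1) - R i N| ≤ K * θ ^ i) :
    ∃ C : ℝ, (∀ i N, A ≤ i → i + A ≤ N → |R i N - C| ≤ 3 * K / (1 - θ) * θ ^ (min i (N - i))) ∧
      ∀ c, (∀ i N, A ≤ i → i + A ≤ N → c ≤ R i N) → c ≤ C := by
  have h1θ : 0 < 1 - θ := by linarith
  set D : ℕ → ℝ := fun j => R (A + j) (2 * (A + j)) with hD
  have hd : ∀ j, dist (D j) (D (j + 1)) ≤ 2 * K * θ ^ A * θ ^ j := by
    intro j
    rw [dist_comm, Real.dist_eq]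
    have e1 := h1 (A + j + 1) (2 * (A + j) + 1) (by omega) (by omega)
    have e2 := h2 (A + j) (2 * (A + j)) (by omega) (by omega)
    have e3 : 2 * (A + j) + 1 - (A + j + 1) = A + j := by omega
    rw [e3] at e1
    have e4 : D (j + 1) = R (A + j + 1) (2 * (A + j) + 1 + 1) := by
      simp only [hD]; congr 1
    rw [e4]
    calc |R (A + j + 1) (2 * (A + j) + 1 + 1) - D j|
        = |(R (A + j + 1) (2 * (A + j) + 1 + 1) - R (A + j + 1) (2 * (A + j) + 1)) +
            (R (A + j + 1) (2 * (A + j) + 1) - R (A + j) (2 * (A + j)))| := by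
          simp only [hD]; ring_nf
      _ ≤ _ := abs_add_le _ _
      _ ≤ K * θ ^ (A + j) + K * θ ^ (A + j) := add_le_add e1 e2
      _ = _ := by rw [pow_add]; ring
  obtain ⟨C, hC⟩ := cauchySeq_tendsto_of_complete
    (cauchySeq_of_le_geometric θ (2 * K * θ ^ A) hθ1 hd)
  have hrate := dist_le_of_le_geometric_of_tendsto θ (2 * K * θ ^ A) hθ1 hd hC
  have hdiag : ∀ i, A ≤ i → |R i (2 * i) - C| ≤ 2 * K / (1 - θ) * θ ^ i := by
    intro i hi
    obtain ⟨j, rfl⟩ : ∃ j, i = A + j := ⟨i - A, by omega⟩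
    have := hrate j
    rw [Real.dist_eq] at this
    calc _ ≤ 2 * K * θ ^ A * θ ^ j / (1 - θ) := this
      _ = _ := by rw [pow_add]; ring
  refine ⟨C, ?_, ?_⟩
  · intro i N hi hN
    rcases le_total i (N - i) with h | h
    · rw [min_eq_left h]
      obtain ⟨m, rfl⟩ : ∃ m, N = 2 * i + m := ⟨N - 2 * i, by omega⟩
      have e1 := geo_bound (x := fun m => R i (2 * i + m)) (q := K * θ ^ i) hθ1 hθ0.le
        (by positivity) (by
          intro m'
          have := h1 i (2 * i + m') hi (by omega)
          have e : 2 * i + m' - i = i + m' := by omega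
          rw [e, pow_add] at this
          calc _ ≤ K * (θ ^ i * θ ^ m') := this
            _ = _ := by ring) m
      simp only [add_zero] at e1
      calc |R i (2 * i + m) - C| = |(R i (2 * i + m) - R i (2 * i)) + (R i (2 * i) - C)| := by
            ring_nf
        _ ≤ _ := abs_add_le _ _
        _ ≤ K * θ ^ i / (1 - θ) + 2 * K / (1 - θ) * θ ^ i := add_le_add e1 (hdiag i hi)
        _ = _ := by ring
    · rw [min_eq_right h]
      obtain ⟨j, hj⟩ : ∃ j, j = N - i := ⟨_, rfl⟩
      rw [← hj] at h ⊢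
      obtain ⟨m, hm⟩ : ∃ m, i = j + m := ⟨i - j, by omega⟩
      have hN' : N = 2 * j + m := by omega
      subst hm
      rw [hN']
      have e1 := geo_bound (x := fun m => R (j + m) (2 * j + m)) (q := K * θ ^ j) hθ1 hθ0.le
        (by positivity) (by
          intro m'
          have := h2 (j + m') (2 * j + m') (by omega) (by omega)
          rw [pow_add] at this
          calc _ ≤ K * (θ ^ j * θ ^ m') := this
            _ = _ := by ring) m
      simp only [add_zero] at e1
      calc |R (j + m) (2 * j + m) - C| =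
            |(R (j + m) (2 * j + m) - R j (2 * j)) + (R j (2 * j) - C)| := by ring_nf
        _ ≤ _ := abs_add_le _ _
        _ ≤ K * θ ^ j / (1 - θ) + 2 * K / (1 - θ) * θ ^ j := add_le_add e1 (hdiag j (by omega))
        _ = _ := by ring
  · intro c hc
    apply ge_of_tendsto' hC
    intro j
    exact hc (A + j) (2 * (A + j)) (by omega) (by omega)

/-- One step of the quotient of two sequences with the same growth factors. -/
lemma quot_step {u v u' v' a b l L : ℝ} (hv : 0 < v) (hu : 0 ≤ u)
    (huL : u ≤ L * v) (hl : 0 < l) (hla : l / 2 ≤ a) (hab : a ≤ b) (h1 : a * u ≤ u')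
    (h2 : u' ≤ b * u) (h3 : a * v ≤ v') (h4 : v' ≤ b * v) :
    |u' / v' - u / v| ≤ 2 * L / l * (b - a) := by
  have ha : 0 < a := by linarith
  have hav : 0 < a * v := by positivity
  have hv' : 0 < v' := by linarith
  have hb : 0 < b := by linarith
  have hx : u / v ≤ L := by rw [div_le_iff₀ hv]; exact huL
  have hx0 : 0 ≤ u / v := by positivity
  have hia : 1 / a ≤ 2 / l := by
    rw [div_le_div_iff₀ ha hl]; linarith
  have hib : 1 / b ≤ 2 / l := by
    rw [div_le_div_iff₀ hb hl]; linarith
  have up : u' / v' ≤ b / a * (u / v) := by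
    calc u' / v' ≤ (b * u) / (a * v) := div_le_div₀ (by positivity) h2 hav h3
      _ = _ := by field_simp
  have low : a / b * (u / v) ≤ u' / v' := by
    calc a / b * (u / v) = (a * u) / (b * v) := by field_simp
      _ ≤ u' / v' := div_le_div₀ (le_trans (by positivity) h1) h1 hv' h4
  rw [abs_le]
  constructor
  · have e1 : u / v - a / b * (u / v) = (b - a) * (1 / b) * (u / v) := by field_simp
    have e2 : (b - a) * (1 / b) * (u / v) ≤ (b - a) * (2 / l) * L := by
      apply mul_le_mul _ hx hx0 (by positivity)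
      exact mul_le_mul_of_nonneg_left hib (by linarith)
    have e3 : (b - a) * (2 / l) * L = 2 * L / l * (b - a) := by ring
    linarith
  · have e1 : b / a * (u / v) - u / v = (b - a) * (1 / a) * (u / v) := by field_simp
    have e2 : (b - a) * (1 / a) * (u / v) ≤ (b - a) * (2 / l) * L := by
      apply mul_le_mul _ hx hx0 (by positivity)
      exact mul_le_mul_of_nonneg_left hia (by linarith)
    have e3 : (b - a) * (2 / l) * L = 2 * L / l * (b - a) := by ring
    linarith

end Q165.CP
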