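import Pool.Agent.Q165.CPGam

/-!
The contraction of the transfer operator.
-/

open MeasureTheory Set Function
open scoped ENNReal

namespace Q165.CP

noncomputable section

variable {d : ℕ} {π : Equiv.Perm (Fin (d + 1))}

variable (π) in
/-- The probability to survive from the window at `s` to the end. -/
def G (s n : ℕ) (x : Sq) : ℝ≥0∞ := T π ∅ s n (fun _ => 1) x

lemma measurable_G (s n : ℕ) : Measurable (G π s n) := measurable_T π ∅ _ _ measurable_const

lemma G_le_one (s n : ℕ) (x : Sq) : G π s n x ≤ 1 := T_le_one π ∅ _ _ (fun _ => le_rfl) x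

lemma T_G {s t n : ℕ} (h1 : s ≤ t) (h2 : t ≤ n) : T π ∅ s t (G π t n) = G π s n := by
  unfold G
  rw [T_split π ∅ h1 h2 measurable_const]

lemma G_dep (s n : ℕ) : Dep (G π s n) {i | s ≤ i ∧ i < s + d} := by
  have h := T_dep π ∅ s n (m := 0) (f := fun _ => 1) (Dep_const 1 _)
  apply Dep.mono h
  intro i hi
  simp only [Set.mem_ofPred_eq, Finset.mem_Ico] at hi ⊢
  omega

lemma G_anti (s : ℕ) {n m : ℕ} (h : n ≤ m) (h1 : s ≤ n) (x : Sq) : G π s m x ≤ G π s n x := by
  unfold G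
  rw [T_split π ∅ h1 h measurable_const]
  exact T_mono π ∅ _ _ (fun z => T_le_one π ∅ _ _ (fun _ => le_rfl) z) x

lemma core (hd : 2 ≤ d) (h0 : π (Fin.last d) ≠ 0) :
    ∃ (M : ℕ) (κ η : ℝ), 2 + d + d ≤ M ∧ 0 < κ ∧ κ ≤ 1 ∧ 0 < η ∧
      (∀ t n, t + d + (2 + d) ≤ n → Pr π ∅ t n ≤ 2 * Lam d η t (G π t n) 0) ∧
      (∀ t n, Lam d η t (G π t n) 0 ≠ ⊤) ∧
      (∀ (s : ℕ) (f : Sq → ℝ≥0∞), Measurable f →
        Dep f {i | s + M ≤ i ∧ i < s + M + d} → ∀ x,
        ENNReal.ofReal κ * T π ∅ s (s + 2) (fun _ => 1) x * Lam d η (s + M) f 0 ≤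
          T π ∅ s (s + M) f x) ∧
      ∀ (s : ℕ) (f : Sq → ℝ≥0∞), Measurable f → Dep f {i | s + M ≤ i ∧ i < s + M + d} →
        ∀ x n, s + M + d + (2 + d) ≤ n →
          ENNReal.ofReal κ * G π s n x * Lam d η (s + M) f 0 ≤
            T π ∅ s (s + M) f x * Lam d η (s + M) (G π (s + M) n) 0 := by
  obtain ⟨η₀, hη₀, hη₀', hl⟩ := lower hd h0
  obtain ⟨η, hη, hη', hf⟩ := first_nice hd h0 hη₀ hη₀'
  obtain ⟨M, C, hM, hC, hC', hlow⟩ := hl η hη hη'
  have hCt : C ≠ ⊤ := (hC'.trans_lt ENNReal.one_lt_top).ne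
  have hκ : ENNReal.ofReal (C.toReal / 2) = C / 2 := by
    rw [ENNReal.ofReal_div_of_pos (by norm_num), ENNReal.ofReal_toReal hCt]; simp
  have hC1 : C.toReal ≤ 1 := by
    have := ENNReal.toReal_mono ENNReal.one_ne_top hC'
    simpa using this
  have hC2 : 0 < C.toReal := ENNReal.toReal_pos hC hCt
  have hconst : ∀ (s : ℕ) (f : Sq → ℝ≥0∞), Dep f {i | s + M ≤ i ∧ i < s + M + d} →
      ∀ x, Lam d η (s + M) f x = Lam d η (s + M) f 0 := by
    intro s f hfd x
    unfold Lam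
    apply In_dep (A := {i | s + M ≤ i ∧ i < s + M + d})
    · exact Dep.mul (NI_dep η _) hfd
    · intro i hi
      simp only [Set.mem_ofPred_eq, Finset.mem_Ico] at hi
      omega
  refine ⟨M, C.toReal / 2, η, hM, by linarith, by linarith, hη, hf, ?_, ?_, ?_⟩
  · intro t n
    apply ((In_le_one _ _ _).trans_lt ENNReal.one_lt_top).ne
    intro y
    calc _ ≤ (1 : ℝ≥0∞) * 1 := by
          gcongr
          · unfold NI; split_ifs <;> simp
          · exact G_le_one t n y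
      _ = 1 := one_mul 1
  · intro s f hfm hfd x
    have h1 := hlow s f hfm (hfd.mono (fun i hi => hi.1)) x
    rw [hconst s f hfd x] at h1
    refine le_trans ?_ h1
    rw [hκ]
    gcongr
    exact ENNReal.half_le_self
  · intro s f hfm hfd x n hn
    have h1 := hlow s f hfm (hfd.mono (fun i hi => hi.1)) x
    rw [hconst s f hfd x] at h1
    set α := T π ∅ s (s + 2) (fun _ => 1) x with hα
    have h2 : G π s n x ≤ α * Pr π ∅ (s + 2 + d) n := by
      unfold G
      rw [T_split π ∅ (t := s + 2) (by omega) (by omega) measurable_const]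
      calc _ ≤ T π ∅ s (s + 2) (fun _ => Pr π ∅ (s + 2 + d) n * 1) x := by
            apply T_mono
            intro y
            rw [mul_one]
            exact T_le_Pr y
        _ = _ := by rw [T_const_mul π ∅ _ _ measurable_const, mul_comm]
    have h3 : Pr π ∅ (s + 2 + d) n ≤ 2 * Lam d η (s + M) (G π (s + M) n) 0 :=
      (Pr_anti (by omega) (by omega)).trans (hf (s + M) n (by omega))
    calc ENNReal.ofReal (C.toReal / 2) * G π s n x * Lam d η (s + M) f 0
        ≤ ENNReal.ofReal (C.toReal / 2) * (α * (2 * Lam d η (s + M) (G π (s + M) n) 0)) *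
            Lam d η (s + M) f 0 := by
          gcongr
          exact h2.trans (by gcongr)
      _ = (C / 2 * 2) * α * Lam d η (s + M) f 0 * Lam d η (s + M) (G π (s + M) n) 0 := by
          rw [hκ]; ring
      _ = C * α * Lam d η (s + M) f 0 * Lam d η (s + M) (G π (s + M) n) 0 := by
          rw [ENNReal.div_mul_cancel (by norm_num) (by norm_num)]
      _ ≤ _ := by gcongr

lemma Lam_add {η : ℝ} {t : ℕ} {f g : Sq → ℝ≥0∞} (hf : Measurable f) (x : Sq) :
    Lam d η t (fun y => f y + g y) x = Lam d η t f x + Lam d η t g x := by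
  unfold Lam
  rw [← In_add ((measurable_NI _ _).fun_mul hf)]
  congr 1
  funext y
  ring

lemma Lam_const_mul {η : ℝ} {t : ℕ} {f : Sq → ℝ≥0∞} (hf : Measurable f) (c : ℝ≥0∞) (x : Sq) :
    Lam d η t (fun y => c * f y) x = c * Lam d η t f x := by
  unfold Lam
  rw [← In_const_mul ((measurable_NI _ _).fun_mul hf)]
  congr 1
  funext y
  ring

/-- The contraction property, with the constants `M` and `κ`. -/
def Contr (π : Equiv.Perm (Fin (d + 1))) (M : ℕ) (κ : ℝ) : Prop :=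
  ∀ (s n : ℕ) (h : Sq → ℝ≥0∞) (a b : ℝ), s + M + d + (2 + d) ≤ n → Measurable h →
    Dep h {i | s + M ≤ i ∧ i < s + M + d} → 0 ≤ a → a ≤ b →
    (∀ x, ENNReal.ofReal a * G π (s + M) n x ≤ h x) →
    (∀ x, h x ≤ ENNReal.ofReal b * G π (s + M) n x) →
    ∃ a' b' : ℝ, a ≤ a' ∧ a' ≤ b' ∧ b' ≤ b ∧ b' - a' ≤ (1 - κ) * (b - a) ∧
      (∀ x, ENNReal.ofReal a' * G π s n x ≤ T π ∅ s (s + M) h x) ∧
      (∀ x, T π ∅ s (s + M) h x ≤ ENNReal.ofReal b' * G π s n x)

lemma contract (h0 : π (Fin.last d) ≠ 0) {M : ℕ} {κ η : ℝ} (hκ : 0 < κ) (hκ1 : κ ≤ 1)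
    (h1 : ∀ t n, t + d + (2 + d) ≤ n → Pr π ∅ t n ≤ 2 * Lam d η t (G π t n) 0)
    (h2 : ∀ t n, Lam d η t (G π t n) 0 ≠ ⊤)
    (h3 : ∀ (s : ℕ) (f : Sq → ℝ≥0∞), Measurable f → Dep f {i | s + M ≤ i ∧ i < s + M + d} →
        ∀ x n, s + M + d + (2 + d) ≤ n →
          ENNReal.ofReal κ * G π s n x * Lam d η (s + M) f 0 ≤
            T π ∅ s (s + M) f x * Lam d η (s + M) (G π (s + M) n) 0) : Contr π M κ := by
  intro s n h a b hn hm hdep ha hab hlo hhi
  set t := s + M with ht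
  set ΛG := Lam d η t (G π t n) 0 with hΛG
  have hΛt : ΛG ≠ ⊤ := h2 t n
  have hΛ0 : ΛG ≠ 0 := by
    intro hz
    have := h1 t n (by omega)
    rw [← hΛG, hz, mul_zero] at this
    exact Pr_pos h0 t n (le_antisymm this zero_le)
  have hGm := measurable_G (π := π) t n
  have hGfin : ∀ x, G π t n x ≠ ⊤ := fun x => ((G_le_one t n x).trans_lt ENNReal.one_lt_top).ne
  have hGsfin : ∀ x, G π s n x ≠ ⊤ := fun x => ((G_le_one s n x).trans_lt ENNReal.one_lt_top).ne
  set H1 : Sq → ℝ≥0∞ := fun x => h x - ENNReal.ofReal a * G π t n x with hH1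
  set H2 : Sq → ℝ≥0∞ := fun x => ENNReal.ofReal b * G π t n x - h x with hH2
  have hH1m : Measurable H1 := hm.sub (measurable_const.fun_mul hGm)
  have hH2m : Measurable H2 := (measurable_const.fun_mul hGm).sub hm
  have e1 : ∀ x, ENNReal.ofReal a * G π t n x + H1 x = h x := fun x =>
    add_tsub_cancel_of_le (hlo x)
  have e2 : ∀ x, h x + H2 x = ENNReal.ofReal b * G π t n x := fun x =>
    add_tsub_cancel_of_le (hhi x)
  have e3 : ∀ x, H1 x + H2 x = ENNReal.ofReal (b - a) * G π t n x := by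
    intro x
    have : ENNReal.ofReal a * G π t n x + (H1 x + H2 x) =
        ENNReal.ofReal a * G π t n x + ENNReal.ofReal (b - a) * G π t n x := by
      rw [← add_assoc, e1, e2, ← add_mul, ← ENNReal.ofReal_add ha (by linarith)]
      congr 2; ring
    exact (ENNReal.add_right_inj (ENNReal.mul_ne_top ENNReal.ofReal_ne_top (hGfin x))).1 this
  have hGd := G_dep (π := π) t n
  have hd1 : Dep H1 {i | t ≤ i ∧ i < t + d} := by
    intro x y hxy
    simp only [hH1, hdep x y hxy, hGd x y hxy]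
  have hd2 : Dep H2 {i | t ≤ i ∧ i < t + d} := by
    intro x y hxy
    simp only [hH2, hdep x y hxy, hGd x y hxy]
  have e4 : Lam d η t H1 0 + Lam d η t H2 0 = ENNReal.ofReal (b - a) * ΛG := by
    rw [← Lam_add hH1m, hΛG, ← Lam_const_mul hGm]
    congr 1
    funext x
    exact e3 x
  have hfin : ENNReal.ofReal (b - a) * ΛG ≠ ⊤ := ENNReal.mul_ne_top ENNReal.ofReal_ne_top hΛt
  have hL1 : Lam d η t H1 0 ≠ ⊤ := ne_top_of_le_ne_top hfin (by rw [← e4]; exact le_self_add)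
  have hL2 : Lam d η t H2 0 ≠ ⊤ := ne_top_of_le_ne_top hfin (by rw [← e4]; exact le_add_self)
  set θ1 := (Lam d η t H1 0 / ΛG).toReal with hθ1
  set θ2 := (Lam d η t H2 0 / ΛG).toReal with hθ2
  have hθ1' : Lam d η t H1 0 = ENNReal.ofReal θ1 * ΛG := by
    rw [hθ1, ENNReal.ofReal_toReal (ENNReal.div_ne_top hL1 hΛ0), ENNReal.div_mul_cancel hΛ0 hΛt]
  have hθ2' : Lam d η t H2 0 = ENNReal.ofReal θ2 * ΛG := by
    rw [hθ2, ENNReal.ofReal_toReal (ENNReal.div_ne_top hL2 hΛ0), ENNReal.div_mul_cancel hΛ0 hΛt]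
  have hθ10 : 0 ≤ θ1 := ENNReal.toReal_nonneg
  have hθ20 : 0 ≤ θ2 := ENNReal.toReal_nonneg
  have hsum : θ1 + θ2 = b - a := by
    rw [hθ1', hθ2', ← add_mul, ← ENNReal.ofReal_add hθ10 hθ20] at e4
    have := (ENNReal.mul_left_inj hΛ0 hΛt).1 e4
    rwa [ENNReal.ofReal_eq_ofReal_iff (by linarith) (by linarith)] at this
  have key : ∀ (f : Sq → ℝ≥0∞) (θ : ℝ), Measurable f → Dep f {i | t ≤ i ∧ i < t + d} → 0 ≤ θ →
      Lam d η t f 0 = ENNReal.ofReal θ * ΛG →
      ∀ x, ENNReal.ofReal (κ * θ) * G π s n x ≤ T π ∅ s t f x := by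
    intro f θ hfm hfd hθ hfe x
    have := h3 s f hfm hfd x n hn
    rw [← ht, hfe, ← hΛG] at this
    have h4 : ENNReal.ofReal (κ * θ) * G π s n x * ΛG ≤ T π ∅ s t f x * ΛG := by
      calc _ = ENNReal.ofReal κ * G π s n x * (ENNReal.ofReal θ * ΛG) := by
            rw [ENNReal.ofReal_mul hκ.le]; ring
        _ ≤ _ := this
    exact (ENNReal.mul_le_mul_iff_left hΛ0 hΛt).1 h4
  have hk1 := key H1 θ1 hH1m hd1 hθ10 hθ1'
  have hk2 := key H2 θ2 hH2m hd2 hθ20 hθ2'
  have hTG : T π ∅ s t (G π t n) = G π s n := T_G (by omega) (by omega)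
  refine ⟨a + κ * θ1, b - κ * θ2, ?_, ?_, ?_, ?_, ?_, ?_⟩
  · have : 0 ≤ κ * θ1 := by positivity
    linarith
  · nlinarith
  · have : 0 ≤ κ * θ2 := by positivity
    linarith
  · nlinarith
  · intro x
    have h5 : T π ∅ s t h x = ENNReal.ofReal a * G π s n x + T π ∅ s t H1 x := by
      rw [← hTG, ← T_const_mul π ∅ _ _ hGm, ← T_add π ∅ _ _ (measurable_const.fun_mul hGm)]
      congr 1
      funext y
      exact (e1 y).symm
    rw [h5, ENNReal.ofReal_add ha (by positivity), add_mul]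
    gcongr
    exact hk1 x
  · intro x
    have h5 : T π ∅ s t h x + T π ∅ s t H2 x = ENNReal.ofReal b * G π s n x := by
      rw [← hTG, ← T_const_mul π ∅ _ _ hGm, ← T_add π ∅ _ _ hm]
      congr 1
      funext y
      exact e2 y
    have h6 : T π ∅ s t h x + ENNReal.ofReal (κ * θ2) * G π s n x ≤
        ENNReal.ofReal (b - κ * θ2) * G π s n x + ENNReal.ofReal (κ * θ2) * G π s n x := by
      rw [← add_mul, ← ENNReal.ofReal_add (by nlinarith) (by positivity)]
      calc _ ≤ T π ∅ s t h x + T π ∅ s t H2 x := by gcongr; exact hk2 x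
        _ = _ := by rw [h5]; congr 2; ring
    exact (ENNReal.add_le_add_iff_right (ENNReal.mul_ne_top ENNReal.ofReal_ne_top (hGsfin x))).1 h6

/-- The iterated contraction. -/
lemma contract_iter {M : ℕ} {κ : ℝ} (hκ1 : κ ≤ 1) (hc : Contr π M κ) (i : ℕ) :
    ∀ (s r n : ℕ) (h : Sq → ℝ≥0∞) (a b : ℝ), s + i * M ≤ r → r + d + (2 + d) ≤ n →
      Measurable h → Dep h {i | r ≤ i ∧ i < r + d} → 0 ≤ a → a ≤ b →
      (∀ x, ENNReal.ofReal a * G π r n x ≤ h x) → (∀ x, h x ≤ ENNReal.ofReal b * G π r n x) →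
      ∃ a' b' : ℝ, a ≤ a' ∧ a' ≤ b' ∧ b' ≤ b ∧ b' - a' ≤ (1 - κ) ^ i * (b - a) ∧
        (∀ x, ENNReal.ofReal a' * G π s n x ≤ T π ∅ s r h x) ∧
        (∀ x, T π ∅ s r h x ≤ ENNReal.ofReal b' * G π s n x) := by
  induction i with
  | zero =>
    intro s r n h a b hsr hrn hm hdep ha hab hlo hhi
    have hGm := measurable_G (π := π) r n
    refine ⟨a, b, le_rfl, hab, le_rfl, by simp, ?_, ?_⟩
    · intro x
      rw [← T_G (s := s) (t := r) (n := n) (by omega) (by omega), ← T_const_mul π ∅ _ _ hGm]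
      exact T_mono π ∅ _ _ hlo x
    · intro x
      rw [← T_G (s := s) (t := r) (n := n) (by omega) (by omega), ← T_const_mul π ∅ _ _ hGm]
      exact T_mono π ∅ _ _ hhi x
  | succ i ih =>
    intro s r n h a b hsr hrn hm hdep ha hab hlo hhi
    have e : (i + 1) * M = i * M + M := by ring
    obtain ⟨a', b', h1, h2, h3, h4, h5, h6⟩ := ih (s + M) r n h a b (by omega) hrn hm hdep ha hab
      hlo hhi
    have hTm : Measurable (T π ∅ (s + M) r h) := measurable_T π ∅ _ _ hm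
    have hTd : Dep (T π ∅ (s + M) r h) {i | s + M ≤ i ∧ i < s + M + d} := by
      have := T_dep π ∅ (s + M) r (m := r + d) (f := h) (hdep.mono (fun i hi => by
        simp only [Set.mem_ofPred_eq] at hi ⊢
        omega))
      apply this.mono
      intro i hi
      simp only [Set.mem_ofPred_eq, Finset.mem_Ico] at hi ⊢
      omega
    obtain ⟨a'', b'', g1, g2, g3, g4, g5, g6⟩ := hc s n (T π ∅ (s + M) r h) a' b' (by omega) hTm
      hTd (by linarith) h2 h5 h6
    have hT : T π ∅ s r h = T π ∅ s (s + M) (T π ∅ (s + M) r h) :=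
      T_split π ∅ (by omega) (by omega) hm
    refine ⟨a'', b'', by linarith, g2, by linarith, ?_, ?_, ?_⟩
    · calc b'' - a'' ≤ (1 - κ) * (b' - a') := g4
        _ ≤ (1 - κ) * ((1 - κ) ^ i * (b - a)) := by
            apply mul_le_mul_of_nonneg_left h4; linarith
        _ = _ := by ring
    · intro x; rw [hT]; exact g5 x
    · intro x; rw [hT]; exact g6 x

end

end Q165.CP
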