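import Pool.Agent.Q165.CPMain

/-!
Double descents as consecutive occurrences of the pattern 321.
-/

open Filter Topology

namespace Q165.CP

/-- The (one-based) index `i` is a double descent of the permutation `w` of length `n`:
`2 ≤ i ≤ n - 1` and `w_{i-1} > w_i > w_{i+1}`. -/
def IsDD {n : ℕ} (w : Equiv.Perm (Fin n)) (i : ℕ) : Prop :=
  2 ≤ i ∧ ∃ h : i + 1 ≤ n, w ⟨i - 1, by omega⟩ < w ⟨i - 2, by omega⟩ ∧
    w ⟨i, by omega⟩ < w ⟨i - 1, by omega⟩

/-- The number `dd(I; n)` of permutations of length `n` whose double descent set is `I`. -/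
noncomputable def ddc (I : Finset ℕ) (n : ℕ) : ℕ :=
  Nat.card {w : Equiv.Perm (Fin n) // ∀ i, IsDD w i ↔ i ∈ I}

/-- The pattern 321. -/
def p321 : Equiv.Perm (Fin 3) := Fin.revPerm

lemma isDD_iff {n : ℕ} (w : Equiv.Perm (Fin n)) (i : ℕ) :
    IsDD w (i + 1) ↔ OccursAt p321 w i := by
  unfold IsDD OccursAt p321
  constructor
  · rintro ⟨h1, h2, h3, h4⟩
    obtain ⟨j, rfl⟩ : ∃ j, i = j + 1 := ⟨i - 1, by omega⟩
    refine ⟨by omega, by omega, ?_⟩
    have h3' : w ⟨j + 1, by omega⟩ < w ⟨j, by omega⟩ := h3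
    have h4' : w ⟨j + 2, by omega⟩ < w ⟨j + 1, by omega⟩ := h4
    intro a b ha hb
    simp only [Fin.revPerm_apply, Fin.rev_lt_rev]
    have e : j + 1 - 1 = j := by omega
    fin_cases a <;> fin_cases b <;> simp [e]
    · exact h3'.le
    · exact (h4'.trans h3').le
    · exact h3'
    · exact h4'.le
    · exact h4'.trans h3'
    · exact h4'
  · rintro ⟨h1, h2, h3⟩
    obtain ⟨j, rfl⟩ : ∃ j, i = j + 1 := ⟨i - 1, by omega⟩
    refine ⟨by omega, by omega, ?_, ?_⟩
    · have := (h3 1 0 (by simp; omega) (by simp; omega)).2 (by decide)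
      simpa using this
    · have := (h3 2 1 (by simp; omega) (by simp; omega)).2 (by decide)
      simpa using this

lemma ddc_eq_count (I : Finset ℕ) (h0 : 0 ∉ I) (n : ℕ) :
    ddc I n = count p321 (I.image Nat.pred) n := by
  unfold ddc count
  apply Nat.card_congr
  apply Equiv.subtypeEquivRight
  intro w
  constructor
  · intro h i
    rw [← isDD_iff, h]
    simp only [Finset.mem_image]
    constructor
    · intro hi; exact ⟨i + 1, hi, rfl⟩
    · rintro ⟨j, hj, rfl⟩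
      have : j ≠ 0 := fun hj0 => h0 (hj0 ▸ hj)
      rwa [Nat.pred_eq_sub_one, Nat.sub_add_cancel (Nat.pos_of_ne_zero this)]
  · intro h i
    rcases Nat.eq_zero_or_pos i with hi | hi
    · subst hi
      constructor
      · rintro ⟨h1, -⟩; omega
      · intro h1; exact absurd h1 h0
    · obtain ⟨j, rfl⟩ : ∃ j, i = j + 1 := ⟨i - 1, by omega⟩
      rw [isDD_iff, h]
      simp only [Finset.mem_image]
      constructor
      · rintro ⟨k, hk, hkj⟩
        have : k ≠ 0 := fun hk0 => h0 (hk0 ▸ hk)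
        have : k = j + 1 := by rw [Nat.pred_eq_sub_one] at hkj; omega
        rwa [← this]
      · intro hj; exact ⟨j + 1, hj, rfl⟩

lemma ddc_zero (I : Finset ℕ) (h0 : 0 ∈ I) (n : ℕ) : ddc I n = 0 := by
  unfold ddc
  rw [Nat.card_eq_zero]
  left
  constructor
  rintro ⟨w, hw⟩
  have := ((hw 0).2 h0).1
  omega

/-- The double descent counts of all sets are asymptotically proportional. -/
theorem dd_asymp : ∃ θ : ℝ, 0 < θ ∧ θ < 1 ∧ ∀ I : Finset ℕ, ∃ c K : ℝ, 0 ≤ c ∧
      (∀ᶠ n in atTop, |(ddc I n : ℝ) - c * ddc ∅ n| ≤ K * θ ^ n * (c * ddc ∅ n)) ∧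
      ((∃ᶠ n in atTop, ddc I n ≠ 0) → 0 < c) := by
  obtain ⟨θ, h0, h1, h⟩ := main le_rfl p321
  refine ⟨θ, h0, h1, fun I => ?_⟩
  by_cases hI : 0 ∈ I
  · refine ⟨0, 0, le_rfl, ?_, ?_⟩
    · filter_upwards with n
      simp [ddc_zero I hI n]
    · intro hf
      exfalso
      apply hf
      filter_upwards with n
      simp [ddc_zero I hI n]
  · obtain ⟨c, K, hc, hK, hpos⟩ := h (I.image Nat.pred)
    refine ⟨c, K, hc, ?_, ?_⟩
    · filter_upwards [hK] with n hn
      rw [ddc_eq_count I hI, ddc_eq_count ∅ (by simp)]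
      simpa using hn
    · intro hf
      apply hpos
      apply hf.mono
      intro n hn
      rwa [← ddc_eq_count I hI]

lemma tendsto_ratio {u v : ℕ → ℝ} {c K θ : ℝ} (h0 : 0 < θ) (h1 : θ < 1)
    (hv : ∀ᶠ n in atTop, 0 < v n)
    (h : ∀ᶠ n in atTop, |u n - c * v n| ≤ K * θ ^ n * (c * v n)) :
    Tendsto (fun n => u n / v n) atTop (𝓝 c) := by
  have ht : Tendsto (fun n => K * θ ^ n * c) atTop (𝓝 (K * 0 * c)) :=
    ((tendsto_pow_atTop_nhds_zero_of_lt_one h0.le h1).const_mul K).mul_const c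
  rw [mul_zero, zero_mul] at ht
  rw [tendsto_iff_norm_sub_tendsto_zero]
  apply squeeze_zero' _ _ ht
  · filter_upwards with n; exact norm_nonneg _
  · filter_upwards [hv, h] with n hvn hn
    rw [Real.norm_eq_abs]
    have e : u n / v n - c = (u n - c * v n) / v n := by field_simp
    rw [e, abs_div, abs_of_pos hvn, div_le_iff₀ hvn]
    calc _ ≤ K * θ ^ n * (c * v n) := hn
      _ = _ := by ring

lemma ddc_pos_of {I : Finset ℕ} (h : ∀ᶠ n in atTop, 0 < ddc I n) :
    ∀ᶠ n in atTop, (0 : ℝ) < ddc I n := by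
  filter_upwards [h] with n hn
  exact_mod_cast hn

/-- The ratio of two eventually positive double descent counts converges to a positive real. -/
theorem dd_ratio {I J : Finset ℕ} (hI : ∀ᶠ n in atTop, 0 < ddc I n)
    (hJ : ∀ᶠ n in atTop, 0 < ddc J n) :
    ∃ L : ℝ, 0 < L ∧ Tendsto (fun n => (ddc I n : ℝ) / ddc J n) atTop (𝓝 L) := by
  obtain ⟨θ, h0, h1, h⟩ := dd_asymp
  obtain ⟨cI, KI, hcI, hKI, hpI⟩ := h I
  obtain ⟨cJ, KJ, hcJ, hKJ, hpJ⟩ := h J
  have hcI' : 0 < cI := hpI (hI.mono (fun n hn => hn.ne')).frequently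
  have hcJ' : 0 < cJ := hpJ (hJ.mono (fun n hn => hn.ne')).frequently
  have hE : ∀ᶠ n in atTop, (0 : ℝ) < ddc ∅ n := by
    filter_upwards [hKI, ddc_pos_of hI] with n h2 h3
    by_contra hc
    have h4 : (ddc ∅ n : ℝ) = 0 := le_antisymm (not_lt.1 hc) (by positivity)
    rw [h4] at h2
    simp only [mul_zero, sub_zero] at h2
    have := abs_nonpos_iff.1 h2
    linarith
  have tI := tendsto_ratio h0 h1 hE hKI
  have tJ := tendsto_ratio h0 h1 hE hKJ
  refine ⟨cI / cJ, div_pos hcI' hcJ', ?_⟩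
  refine (tI.div tJ hcJ'.ne').congr' ?_
  filter_upwards [hE] with n hn
  simp only [Pi.div_apply]
  field_simp

end Q165.CP
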