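import Mathlib

/-!
Consecutive patterns in permutations: the definitions.
-/

namespace Q165.CP

/-- The pattern `π` of length `k` has a consecutive occurrence in the permutation `w` of length `n`
which starts at the (one-based) index `i`: `1 ≤ i ≤ n - k + 1` and the entries
`w_i, ..., w_{i+k-1}` are in the same relative order as `π_1, ..., π_k`. -/
def OccursAt {k n : ℕ} (π : Equiv.Perm (Fin k)) (w : Equiv.Perm (Fin n)) (i : ℕ) : Prop :=
  1 ≤ i ∧ i + k ≤ n + 1 ∧ ∀ (a b : Fin k) (ha : i - 1 + a < n) (hb : i - 1 + b < n),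
    w ⟨i - 1 + a, ha⟩ < w ⟨i - 1 + b, hb⟩ ↔ π a < π b

/-- The number `p_π(I, n)` of permutations of length `n` whose set of starting indices of
consecutive occurrences of `π` is exactly `I`. -/
noncomputable def count {k : ℕ} (π : Equiv.Perm (Fin k)) (I : Finset ℕ) (n : ℕ) : ℕ :=
  Nat.card {w : Equiv.Perm (Fin n) // ∀ i, OccursAt π w i ↔ i ∈ I}

end Q165.CP
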