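import Pool.Agent.Q165.CPWin

/-!
Every window can be continued to a window with entries away from 0 and 1, with a probability
comparable to the probability to survive two steps.
-/

open MeasureTheory Set Function
open scoped ENNReal

namespace Q165.CP

noncomputable section

variable {d : ℕ} (π : Equiv.Perm (Fin (d + 1)))

lemma T_one_step (P : Set ℕ) (s : ℕ) (f : Sq → ℝ≥0∞) (x : Sq) :
    T π P s (s + 1) f x =
      ∫⁻ u, E π P s (s + 1) (Function.update x (s + d) u) * f (Function.update x (s + d) u) ∂U := by
  unfold T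
  have : Finset.Ico (s + d) (s + 1 + d) = {s + d} := by
    ext i; simp; omega
  rw [this, In_single]

/-- The probability to survive one step. -/
def a1 (s : ℕ) (x : Sq) : ℝ≥0∞ := T π ∅ s (s + 1) (fun _ => 1) x

lemma measurable_a1 (s : ℕ) : Measurable (a1 π s) := measurable_T π ∅ s (s + 1) measurable_const

lemma E_step (s : ℕ) (x : Sq) :
    E π ∅ s (s + 1) x = {x : Sq | ¬ occ π x s}.indicator (fun _ => 1) x := by
  classical
  unfold E
  simp only [Set.indicator, Set.mem_ofPred_eq]
  congr 1
  apply propext
  constructor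
  · intro h; have := h s le_rfl (by omega); simpa using this
  · intro h j h1 h2
    have : j = s := by omega
    subst this
    simpa using h

lemma a1_eq (s : ℕ) (x : Sq) :
    a1 π s x = U {u | ¬ occ π (Function.update x (s + d) u) s} := by
  unfold a1
  rw [T_one_step]
  simp_rw [E_step, mul_one]
  have hm : MeasurableSet {u | ¬ occ π (Function.update x (s + d) u) s} :=
    (measurable_update x) (measurableSet_occ π s).compl
  rw [← lintegral_indicator_one hm]
  rfl

lemma a1_le_one (s : ℕ) (x : Sq) : a1 π s x ≤ 1 := by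
  rw [a1_eq]; exact prob_le_one

lemma U_Icc {a b : ℝ} (ha : 0 ≤ a) (hb : b ≤ 1) : U (Set.Icc a b) = ENNReal.ofReal (b - a) := by
  unfold U
  rw [Measure.restrict_apply measurableSet_Icc, Set.inter_eq_left.2, Real.volume_Icc]
  exact Set.Icc_subset_Icc ha hb

lemma upd_same (x : Sq) (i : ℕ) (u : ℝ) : Function.update x i u i = u := by simp

lemma upd_ne (x : Sq) {i j : ℕ} (u : ℝ) (h : j ≠ i) : Function.update x i u j = x j := by
  simp [h]

lemma not_occ_of_le {s : ℕ} {x : Sq} {u : ℝ} {a : Fin (d + 1)} (ha : π a < π (Fin.last d))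
    (hu : u ≤ x (s + a)) : ¬ occ π (Function.update x (s + d) u) s := by
  intro h
  have h1 := (h a (Fin.last d)).2 ha
  have ha' : (a : ℕ) ≠ d := by
    intro hh
    have : a = Fin.last d := Fin.ext hh
    subst this
    exact lt_irrefl _ ha
  rw [Fin.val_last, upd_same, upd_ne x u (by omega)] at h1
  linarith

lemma not_occ_of_ge {s : ℕ} {x : Sq} {u : ℝ} {a : Fin (d + 1)} (ha : π (Fin.last d) < π a)
    (hu : x (s + a) ≤ u) : ¬ occ π (Function.update x (s + d) u) s := by
  intro h
  have h1 := (h (Fin.last d) a).2 ha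
  have ha' : (a : ℕ) ≠ d := by
    intro hh
    have : a = Fin.last d := Fin.ext hh
    subst this
    exact lt_irrefl _ ha
  rw [Fin.val_last, upd_same, upd_ne x u (by omega)] at h1
  linarith

lemma a1_ge_of_le {s : ℕ} {x : Sq} {a : Fin (d + 1)} {z : ℝ} (ha : π a < π (Fin.last d))
    (h1 : z ≤ 1) (hz : z ≤ x (s + a)) : ENNReal.ofReal z ≤ a1 π s x := by
  rw [a1_eq]
  calc ENNReal.ofReal z = U (Set.Icc 0 z) := by rw [U_Icc le_rfl h1, sub_zero]
    _ ≤ _ := by
      apply measure_mono
      intro u hu
      exact not_occ_of_le π ha (hu.2.trans hz)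

lemma a1_ge_of_ge {s : ℕ} {x : Sq} {a : Fin (d + 1)} {z : ℝ} (ha : π (Fin.last d) < π a)
    (h1 : z ≤ 1) (hz : x (s + a) ≤ 1 - z) : ENNReal.ofReal z ≤ a1 π s x := by
  rw [a1_eq]
  calc ENNReal.ofReal z = U (Set.Icc (1 - z) 1) := by rw [U_Icc (by linarith) le_rfl]; ring_nf
    _ ≤ _ := by
      apply measure_mono
      intro u hu
      exact not_occ_of_ge π ha (hz.trans hu.1)

/-- A window with an entry in the middle is not forced. -/
lemma a1_ge_mid {s i : ℕ} {x : Sq} {z : ℝ} (hi : s ≤ i) (hi' : i < s + d) (h0 : 0 ≤ z)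
    (hz : z ≤ x i) (hz' : x i ≤ 1 - z) : ENNReal.ofReal z ≤ a1 π s x := by
  have h1 : z ≤ 1 := by linarith
  let a : Fin (d + 1) := ⟨i - s, by omega⟩
  have hia : s + (a : ℕ) = i := by simp [a]; omega
  have hne : π a ≠ π (Fin.last d) := by
    intro h
    have := π.injective h
    have h2 : (a : ℕ) = d := by rw [this]; simp
    simp [a] at h2
    omega
  rcases lt_or_gt_of_ne hne with h | h
  · exact a1_ge_of_le π h h1 (by rw [hia]; exact hz)
  · exact a1_ge_of_ge π h h1 (by rw [hia]; exact hz')

/-- The indicator of: the entries with index in `[t, m)` are in `[z, 1 - z]`. -/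
def Nice (z : ℝ) (t m : ℕ) (x : Sq) : Prop := ∀ i, t ≤ i → i < m → z ≤ x i ∧ x i ≤ 1 - z

lemma measurableSet_Nice (z : ℝ) (t m : ℕ) : MeasurableSet {x : Sq | Nice z t m x} := by
  have : {x : Sq | Nice z t m x} = ⋂ i ∈ Finset.Ico t m, {x : Sq | z ≤ x i ∧ x i ≤ 1 - z} := by
    ext x; simp [Nice]
  rw [this]
  refine Finset.measurableSet_biInter _ fun i _ => ?_
  exact (measurableSet_le measurable_const (measurable_pi_apply i)).inter
    (measurableSet_le (measurable_pi_apply i) measurable_const)

/-- One step to a middle value from a window that is not forced. -/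
lemma step_mid {s : ℕ} {x : Sq} {z : ℝ} (h0 : 0 ≤ z) (h1 : z ≤ 1)
    (hz : ENNReal.ofReal z ≤ a1 π s x) :
    ENNReal.ofReal (z / 2) ≤
      U {u | ¬ occ π (Function.update x (s + d) u) s ∧ z / 4 ≤ u ∧ u ≤ 1 - z / 4} := by
  rw [a1_eq] at hz
  have hsub : U {u | ¬ occ π (Function.update x (s + d) u) s} ≤
      U {u | ¬ occ π (Function.update x (s + d) u) s ∧ z / 4 ≤ u ∧ u ≤ 1 - z / 4} +
        (U (Set.Icc 0 (z / 4)) + U (Set.Icc (1 - z / 4) 1)) := by
    have hU : U {u | ¬ occ π (Function.update x (s + d) u) s} =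
        U ({u | ¬ occ π (Function.update x (s + d) u) s} ∩ Set.Icc 0 1) := by
      unfold U
      rw [Measure.restrict_apply', Measure.restrict_apply', Set.inter_assoc, Set.inter_self]
      · exact measurableSet_Icc
      · exact measurableSet_Icc
    rw [hU]
    refine (measure_mono ?_).trans ((measure_union_le _ _).trans
      (add_le_add le_rfl (measure_union_le _ _)))
    rintro u ⟨hu, hu0, hu1⟩
    by_cases h2 : u < z / 4
    · right; left; exact ⟨hu0, h2.le⟩
    · by_cases h3 : 1 - z / 4 < u
      · right; right; exact ⟨h3.le, hu1⟩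
      · left; exact ⟨hu, not_lt.1 h2, not_lt.1 h3⟩
  rw [U_Icc le_rfl (by linarith), U_Icc (by linarith) le_rfl,
    ← ENNReal.ofReal_add (by linarith) (by linarith)] at hsub
  have h3 := hz.trans hsub
  have h4 : ENNReal.ofReal z = ENNReal.ofReal (z / 2) + ENNReal.ofReal (z / 4 - 0 + (1 - (1 - z / 4))) := by
    rw [← ENNReal.ofReal_add (by linarith) (by linarith)]
    congr 1; ring
  rw [h4] at h3
  exact (ENNReal.add_le_add_iff_right ENNReal.ofReal_ne_top).1 h3

open Classical in
/-- The state function of the path lemma. -/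
def st (z : ℝ) (t j : ℕ) (x : Sq) : ℝ≥0∞ :=
  if Nice z (t + d) (t + d + j) x ∧ ENNReal.ofReal z ≤ a1 π (t + j) x then 1 else 0

lemma measurable_st (z : ℝ) (t j : ℕ) : Measurable (st π z t j) := by
  unfold st
  exact Measurable.ite ((measurableSet_Nice z _ _).inter
    (measurableSet_le measurable_const (measurable_a1 π _))) measurable_const measurable_const

lemma T_nil (P : Set ℕ) (s : ℕ) (f : Sq → ℝ≥0∞) (x : Sq) : T π P s s f x = f x := by
  unfold T
  rw [Finset.Ico_self, In_empty, E_empty _ _ le_rfl, one_mul]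

lemma lintegral_ge_of_set {f : ℝ → ℝ≥0∞} {S : Set ℝ} (hf : Measurable f)
    (h : ∀ u ∈ S, 1 ≤ f u) : U S ≤ ∫⁻ u, f u ∂U := by
  have h1 : S ⊆ {u | 1 ≤ f u} := h
  have hm : MeasurableSet {u | 1 ≤ f u} := measurableSet_le measurable_const hf
  calc U S ≤ U {u | 1 ≤ f u} := measure_mono h1
    _ = ∫⁻ u, {u | 1 ≤ f u}.indicator 1 u ∂U := (lintegral_indicator_one hm).symm
    _ ≤ _ := by
      apply lintegral_mono
      intro u
      simp only [Set.indicator, Set.mem_ofPred_eq, Pi.one_apply]
      split_ifs with h
      · exact h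
      · simp

lemma path (hd : 1 ≤ d) {z : ℝ} (h1 : z ≤ 1) (j : ℕ) :
    ∃ C : ℝ≥0∞, 0 < z → C ≠ 0 ∧ C ≤ 1 ∧ ∀ (t : ℕ) (x : Sq), ENNReal.ofReal z ≤ a1 π t x →
      C ≤ T π ∅ t (t + j) (st π (z / 4 ^ j) t j) x := by
  induction j with
  | zero =>
    refine ⟨1, fun _ => ⟨one_ne_zero, le_rfl, fun t x hx => ?_⟩⟩
    rw [add_zero, T_nil]
    unfold st
    rw [if_pos]
    refine ⟨fun i h1 h2 => by omega, by simpa using hx⟩
  | succ j ih =>
    obtain ⟨C, hC⟩ := ih
    refine ⟨C * ENNReal.ofReal (z / 4 ^ j / 2), fun hz => ?_⟩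
    obtain ⟨hC0, hC1, hC2⟩ := hC hz
    have hzj : 0 < z / 4 ^ j := by positivity
    have hzj1 : z / 4 ^ j ≤ 1 := by
      rw [div_le_one (by positivity)]
      exact h1.trans (one_le_pow₀ (by norm_num))
    refine ⟨?_, ?_, fun t x hx => ?_⟩
    · apply mul_ne_zero hC0
      rw [Ne, ENNReal.ofReal_eq_zero, not_le]
      positivity
    · calc C * ENNReal.ofReal (z / 4 ^ j / 2) ≤ 1 * 1 := by
            gcongr
            rw [ENNReal.ofReal_le_one]
            linarith
        _ = 1 := one_mul 1
    · rw [T_split π ∅ (t := t + j) (by omega) (by omega) (measurable_st π _ _ _)]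
      calc C * ENNReal.ofReal (z / 4 ^ j / 2)
          ≤ ENNReal.ofReal (z / 4 ^ j / 2) * T π ∅ t (t + j) (st π (z / 4 ^ j) t j) x := by
            rw [mul_comm]; gcongr; exact hC2 t x hx
        _ = T π ∅ t (t + j) (fun y => ENNReal.ofReal (z / 4 ^ j / 2) * st π (z / 4 ^ j) t j y) x := by
            rw [T_const_mul π ∅ _ _ (measurable_st π _ _ _)]
        _ ≤ _ := by
            apply T_mono
            intro y
            by_cases hy : Nice (z / 4 ^ j) (t + d) (t + d + j) y ∧
                ENNReal.ofReal (z / 4 ^ j) ≤ a1 π (t + j) y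
            · have h2 : st π (z / 4 ^ j) t j y = 1 := by unfold st; rw [if_pos hy]
              rw [h2, mul_one]
              have h3 := step_mid π hzj.le hzj1 hy.2
              have h4 : t + (j + 1) = t + j + 1 := by ring
              rw [h4, T_one_step]
              refine h3.trans (lintegral_ge_of_set ?_ ?_)
              · exact ((measurable_E π ∅ _ _).comp (measurable_update y)).mul
                  ((measurable_st π _ _ _).comp (measurable_update y))
              · rintro u ⟨hu, hu1, hu2⟩
                rw [E_step]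
                simp only [Set.indicator, Set.mem_ofPred_eq, hu, not_false_eq_true, if_true,
                  one_mul]
                unfold st
                rw [if_pos]
                have h44 : z / 4 ^ (j + 1) = z / 4 ^ j / 4 := by rw [pow_succ]; field_simp
                rw [h44]
                constructor
                · intro i hi1 hi2
                  by_cases hij : i = t + j + d
                  · subst hij
                    rw [upd_same]
                    exact ⟨hu1, hu2⟩
                  · rw [upd_ne _ _ hij]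
                    have := hy.1 i hi1 (by omega)
                    constructor <;> linarith
                · rw [h4]
                  apply a1_ge_mid π (i := t + j + d) (by omega) (by omega) (by positivity)
                  · rw [upd_same]; exact hu1
                  · rw [upd_same]; exact hu2
            · have h2 : st π (z / 4 ^ j) t j y = 0 := by unfold st; rw [if_neg hy]
              rw [h2, mul_zero]
              exact zero_le

end

end Q165.CP
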