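import Pool.Agent.Q165.CPLow

/-!
The probabilities to avoid the pattern: positivity, translation, bounded ratios.
-/

open MeasureTheory Set Function
open scoped ENNReal

namespace Q165.CP

noncomputable section

variable {d : ℕ} (π : Equiv.Perm (Fin (d + 1)))

/-- The probability of the event `E`. -/
def Pr (P : Set ℕ) (s n : ℕ) : ℝ≥0∞ := In (Finset.Ico s (n + d)) (E π P s n) 0

lemma Pr_eq (P : Set ℕ) (s n : ℕ) (x : Sq) :
    In (Finset.Ico s (n + d)) (E π P s n) x = Pr π P s n := by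
  unfold Pr
  apply In_dep (E_dep π P s n)
  intro i hi
  simp only [Set.mem_ofPred_eq, Finset.mem_Ico] at hi
  omega

lemma In_E_split (P : Set ℕ) {s m n : ℕ} (h1 : s ≤ m) (h2 : m ≤ n) {f : Sq → ℝ≥0∞}
    (hf : Measurable f) : In (Finset.Ico s (n + d)) (fun x => E π P s n x * f x) =
      In (Finset.Ico s (m + d)) (fun x => E π P s m x * T π P m n f x) := by
  rw [In_Ico ((measurable_E π P s n).fun_mul hf) (b := m + d) (by omega) (by omega)]
  congr 1
  funext y
  have : (fun x => E π P s n x * f x) = fun x => E π P s m x * (E π P m n x * f x) := by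
    funext z
    rw [← mul_assoc, E_mul π P h1 h2]
  rw [this, In_mul]
  · rfl
  · apply (E_dep π P s m).mono
    intro i hi
    simp only [Set.mem_ofPred_eq, Finset.mem_Ico] at hi ⊢
    omega
  · exact (measurable_E π P m n).fun_mul hf

lemma Pr_split (P : Set ℕ) {s m n : ℕ} (h1 : s ≤ m) (h2 : m ≤ n) :
    Pr π P s n = In (Finset.Ico s (m + d)) (fun x => E π P s m x * T π P m n (fun _ => 1) x) 0 := by
  rw [← In_E_split π P h1 h2 measurable_const]
  simp only [mul_one]
  rfl

lemma T_le_one (P : Set ℕ) (s n : ℕ) {f : Sq → ℝ≥0∞} (hf : ∀ x, f x ≤ 1) (x : Sq) :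
    T π P s n f x ≤ 1 := by
  unfold T
  apply In_le_one
  intro y
  calc _ ≤ (1 : ℝ≥0∞) * 1 := by
        gcongr
        · exact E_le_one π P s n y
        · exact hf y
    _ = 1 := one_mul 1

lemma Pr_le_one (P : Set ℕ) (s n : ℕ) : Pr π P s n ≤ 1 :=
  In_le_one _ (E_le_one π P s n) _

lemma occ_shift (x : Sq) (j c : ℕ) : occ π x (j + c) ↔ occ π (fun i => x (i + c)) j := by
  unfold occ
  refine forall_congr' fun a => forall_congr' fun b => ?_
  have e1 : j + c + (a : ℕ) = j + a + c := by ring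
  have e2 : j + c + (b : ℕ) = j + b + c := by ring
  rw [e1, e2]

lemma E_shift (s n c : ℕ) (x : Sq) : E π ∅ (s + c) (n + c) x = E π ∅ s n (fun i => x (i + c)) := by
  unfold E
  congr 1
  apply propext
  simp only [Set.mem_empty_iff_false, iff_false]
  constructor
  · intro h j h1 h2
    rw [← occ_shift]
    exact h (j + c) (by omega) (by omega)
  · intro h j h1 h2
    have := h (j - c) (by omega) (by omega)
    rw [← occ_shift] at this
    have e : j - c + c = j := by omega
    rwa [e] at this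

lemma Pr_shift (s n c : ℕ) : Pr π ∅ (s + c) (n + c) = Pr π ∅ s n := by
  unfold Pr
  have e : E π ∅ (s + c) (n + c) = fun x => E π ∅ s n (fun i => x (i + c)) := by
    funext x; exact E_shift π s n c x
  have e2 : n + c + d = n + d + c := by ring
  rw [e, e2, In_shift (measurable_E π ∅ s n)]
  rfl

variable {π}

lemma Pr_pos (h0 : π (Fin.last d) ≠ 0) (s n : ℕ) : Pr π ∅ s n ≠ 0 := by
  classical
  have hal : ∃ a : Fin (d + 1), π a < π (Fin.last d) := by
    refine ⟨π.symm 0, ?_⟩
    rw [Equiv.apply_symm_apply]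
    exact Fin.pos_iff_ne_zero.2 h0
  obtain ⟨al, hal⟩ := hal
  have haln : (al : ℕ) < d := by
    have h5 : (al : ℕ) ≠ d := fun h => by
      have : al = Fin.last d := Fin.ext (by simp [h])
      rw [this] at hal
      exact lt_irrefl _ hal
    have := al.2; omega
  set H := n + d + 1 with hH
  set S := Finset.Ico s (n + d) with hS
  have hη : (0 : ℝ) < 1 / 4 := by norm_num
  have hη' : (1 / 4 : ℝ) < 1 / 2 := by norm_num
  have hb : In S (fun y => ∏ i ∈ S,
      (box (1 / 4) H (n + d - i)).indicator (fun _ => (1 : ℝ≥0∞)) (y i)) 0 ≠ 0 := by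
    rw [In_box _ (fun i => box (1 / 4) H (n + d - i)) (fun i => measurableSet_Icc)]
    rw [Finset.prod_ne_zero_iff]
    intro i _
    rw [U_box hη hη' (by omega) (by omega), Ne, ENNReal.ofReal_eq_zero, not_le]
    have : (0 : ℝ) < H := by rw [hH]; positivity
    positivity
  intro hzero
  apply hb
  apply le_antisymm _ zero_le
  rw [← hzero]
  unfold Pr
  apply In_mono
  intro y
  by_cases hin : ∀ i ∈ S, y i ∈ box (1 / 4) H (n + d - i)
  · have hE : E π ∅ s n y = 1 := by
      unfold E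
      rw [if_pos]
      intro j hj1 hj2
      simp only [Set.mem_empty_iff_false, iff_false]
      intro hocc
      have h1 := (hocc al (Fin.last d)).2 hal
      rw [Fin.val_last] at h1
      have h2 := hin (j + al) (by rw [hS, Finset.mem_Ico]; omega)
      have h3 := hin (j + d) (by rw [hS, Finset.mem_Ico]; omega)
      have h4 := box_lt hη hη' (by omega) (by omega : n + d - (j + d) < n + d - (j + al)) h3 h2
      linarith
    rw [hE]
    apply Finset.prod_le_one'
    intro i _
    simp only [Set.indicator]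
    split_ifs <;> simp
  · push Not at hin
    obtain ⟨i, hi, hi'⟩ := hin
    rw [Finset.prod_eq_zero hi]
    · exact zero_le
    · exact Set.indicator_of_notMem hi' _

/-- The ratios of consecutive probabilities are bounded from below. -/
lemma ratio (hd : 2 ≤ d) (h0 : π (Fin.last d) ≠ 0) :
    ∃ l : ℝ≥0∞, l ≠ 0 ∧ l ≤ 1 ∧ ∀ s n, s + (2 + d) ≤ n → l * Pr π ∅ s n ≤ Pr π ∅ s (n + 1) := by
  obtain ⟨η, C, hη, hη', hC, hC', hr⟩ := reach hd h0
  refine ⟨C * ENNReal.ofReal η, mul_ne_zero hC (by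
    rw [Ne, ENNReal.ofReal_eq_zero, not_le]; exact hη), ?_, ?_⟩
  · calc _ ≤ (1 : ℝ≥0∞) * 1 := by
          gcongr
          rw [ENNReal.ofReal_le_one]; linarith
      _ = 1 := one_mul 1
  intro s n hn
  obtain ⟨m, rfl⟩ : ∃ m, n = m + 2 + d := ⟨n - 2 - d, by omega⟩
  rw [Pr_split π ∅ (s := s) (m := m) (n := m + 2 + d) (by omega) (by omega),
    Pr_split π ∅ (s := s) (m := m) (n := m + 2 + d + 1) (by omega) (by omega),
    ← In_const_mul ((measurable_E π ∅ _ _).fun_mul (measurable_T π ∅ _ _ measurable_const))]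
  apply In_mono
  intro y
  have e1 : T π ∅ m (m + 2 + d) (fun _ => 1) y ≤ T π ∅ m (m + 2) (fun _ => 1) y := by
    rw [T_split π ∅ (t := m + 2) (by omega) (by omega) measurable_const]
    exact T_mono π ∅ _ _ (fun z => T_le_one π ∅ _ _ (fun _ => le_rfl) z) y
  have e2 : C * ENNReal.ofReal η * T π ∅ m (m + 2) (fun _ => 1) y ≤
      T π ∅ m (m + 2 + d + 1) (fun _ => 1) y := by
    rw [T_split π ∅ (t := m + 2 + d) (n := m + 2 + d + 1) (by omega) (by omega) measurable_const]
    calc _ = ENNReal.ofReal η * (C * T π ∅ m (m + 2) (fun _ => 1) y) := by ring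
      _ ≤ ENNReal.ofReal η * T π ∅ m (m + 2 + d) (NI d η (m + 2 + d)) y := by
          gcongr; exact hr m y
      _ = T π ∅ m (m + 2 + d) (fun z => ENNReal.ofReal η * NI d η (m + 2 + d) z) y := by
          rw [T_const_mul π ∅ _ _ (measurable_NI _ _)]
      _ ≤ _ := by
          apply T_mono
          intro z
          unfold NI
          split_ifs with h
          · rw [mul_one]
            have h1 := h (m + 2 + d) le_rfl (by omega)
            exact a1_ge_mid π le_rfl (by omega) hη.le h1.1 h1.2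
          · rw [mul_zero]; exact zero_le
  calc C * ENNReal.ofReal η * (E π ∅ s m y * T π ∅ m (m + 2 + d) (fun _ => 1) y)
      = E π ∅ s m y * (C * ENNReal.ofReal η * T π ∅ m (m + 2 + d) (fun _ => 1) y) := by ring
    _ ≤ E π ∅ s m y * (C * ENNReal.ofReal η * T π ∅ m (m + 2) (fun _ => 1) y) := by gcongr
    _ ≤ _ := by gcongr

lemma ratio_pow {l : ℝ≥0∞} (hl : ∀ s n, s + (2 + d) ≤ n → l * Pr π ∅ s n ≤ Pr π ∅ s (n + 1))
    (j s n : ℕ) (h : s + (2 + d) ≤ n) : l ^ j * Pr π ∅ s n ≤ Pr π ∅ s (n + j) := by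
  induction j with
  | zero => simp
  | succ j ih =>
    calc l ^ (j + 1) * Pr π ∅ s n = l * (l ^ j * Pr π ∅ s n) := by ring
      _ ≤ l * Pr π ∅ s (n + j) := by gcongr
      _ ≤ _ := hl s (n + j) (by omega)

lemma T_le_Pr {t n : ℕ} (x : Sq) :
    T π ∅ t n (fun _ => 1) x ≤ Pr π ∅ (t + d) n := by
  unfold T
  rw [← Pr_eq π ∅ (t + d) n x]
  apply In_mono
  intro y
  rw [mul_one]
  exact E_anti π ∅ (by omega) le_rfl y

lemma Pr_anti {s t n : ℕ} (h : s ≤ t) (h2 : t ≤ n) : Pr π ∅ s n ≤ Pr π ∅ t n := by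
  unfold Pr
  rw [In_Ico' (measurable_E π ∅ s n) (b := t) (by omega) (by omega)]
  apply In_mono
  intro y
  calc In (Finset.Ico s t) (E π ∅ s n) y ≤ In (Finset.Ico s t) (E π ∅ t n) y :=
        In_mono _ (fun z => E_anti π ∅ h le_rfl z) y
    _ = E π ∅ t n y := by
        apply In_of_dep
        apply (E_dep π ∅ t n).mono
        intro i hi
        simp only [Set.mem_ofPred_eq, Finset.mem_Ico] at hi ⊢
        omega

lemma In_NI (η : ℝ) (h0 : 0 ≤ η) (t : ℕ) (x : Sq) :
    In (Finset.Ico t (t + d)) (NI d η t) x = ENNReal.ofReal (1 - 2 * η) ^ d := by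
  classical
  have e : NI d η t = fun y => ∏ i ∈ Finset.Ico t (t + d),
      (Set.Icc η (1 - η)).indicator (fun _ => (1 : ℝ≥0∞)) (y i) := by
    funext y
    unfold NI
    by_cases h : Nice η t (t + d) y
    · rw [if_pos h, Finset.prod_eq_one]
      intro i hi
      rw [Finset.mem_Ico] at hi
      have : y i ∈ Set.Icc η (1 - η) := h i hi.1 hi.2
      simp [this]
    · rw [if_neg h]
      unfold Nice at h
      push Not at h
      obtain ⟨i, hi1, hi2, hi3⟩ := h
      rw [Finset.prod_eq_zero (i := i) (Finset.mem_Ico.2 ⟨hi1, hi2⟩)]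
      have : y i ∉ Set.Icc η (1 - η) := fun hh => absurd hh.2 (not_le.2 (hi3 hh.1))
      simp [this]
  rw [e, In_box _ (fun _ => Set.Icc η (1 - η)) (fun _ => measurableSet_Icc),
    Finset.prod_congr rfl (g := fun _ => ENNReal.ofReal (1 - 2 * η))]
  · rw [Finset.prod_const, Nat.card_Ico]
    congr 1; omega
  · intro i _
    rw [U_Icc h0 (by linarith)]
    congr 1; ring

/-- With a positive proportion the first window is away from 0 and 1. -/
lemma first_nice (hd : 2 ≤ d) (h0 : π (Fin.last d) ≠ 0) {η₀ : ℝ} (hη₀ : 0 < η₀)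
    (hη₀' : η₀ < 1 / 2) : ∃ η, 0 < η ∧ η ≤ η₀ ∧ ∀ t n, t + d + (2 + d) ≤ n →
      Pr π ∅ t n ≤ 2 * Lam d η t (T π ∅ t n (fun _ => 1)) 0 := by
  obtain ⟨l, hl0, hl1, hl⟩ := ratio hd h0
  have hltop : l ≠ ⊤ := (hl1.trans_lt ENNReal.one_lt_top).ne
  set lr := l.toReal with hlr
  have hlr0 : 0 < lr := ENNReal.toReal_pos hl0 hltop
  have hlr1 : lr ≤ 1 := by
    have := ENNReal.toReal_mono ENNReal.one_ne_top hl1
    simpa using this
  have hlpow : 0 < lr ^ d := by positivity
  have hlpow1 : lr ^ d ≤ 1 := pow_le_one₀ hlr0.le hlr1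
  set η := min η₀ (lr ^ d / (4 * (d + 1))) with hη
  have hη0 : 0 < η := lt_min hη₀ (by positivity)
  refine ⟨η, hη0, min_le_left _ _, fun t n hn => ?_⟩
  set G := T π ∅ t n (fun _ => 1) with hG
  have hGm : Measurable G := measurable_T π ∅ _ _ measurable_const
  have hηs : η ≤ η₀ := min_le_left _ _
  have hηs2 : η ≤ lr ^ d / (4 * (d + 1)) := min_le_right _ _
  -- the bad part
  set bad : Sq → ℝ≥0∞ := fun y => 1 - NI d η t y with hbad
  have hbadm : Measurable bad := measurable_const.sub (measurable_NI _ _)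
  have hNI1 : ∀ y, NI d η t y ≤ 1 := by
    intro y; unfold NI; split_ifs <;> simp
  have hadd : ∀ y, NI d η t y + bad y = 1 := fun y => add_tsub_cancel_of_le (hNI1 y)
  have hbadI : In (Finset.Ico t (t + d)) bad 0 ≤ ENNReal.ofReal (lr ^ d / 2) := by
    have h1 : In (Finset.Ico t (t + d)) (NI d η t) 0 + In (Finset.Ico t (t + d)) bad 0 = 1 := by
      rw [← In_add (measurable_NI _ _)]
      simp_rw [hadd]
      exact In_one _ _
    rw [In_NI η hη0.le] at h1
    have h2 : 1 - lr ^ d / 2 ≤ (1 - 2 * η) ^ d := by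
      have hB := one_add_mul_le_pow (a := -(2 * η)) (by linarith) d
      have h3 : (d : ℝ) * (2 * η) ≤ lr ^ d / 2 := by
        have : (d : ℝ) * (2 * η) ≤ d * (2 * (lr ^ d / (4 * (d + 1)))) := by gcongr
        refine this.trans ?_
        rw [show (d : ℝ) * (2 * (lr ^ d / (4 * (d + 1)))) = (d / (d + 1)) * (lr ^ d / 2) by
          field_simp; ring]
        have : (d : ℝ) / (d + 1) ≤ 1 := by
          rw [div_le_one (by positivity)]; linarith
        exact mul_le_of_le_one_left (by positivity) this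
      have e : (1 : ℝ) + -(2 * η) = 1 - 2 * η := by ring
      rw [e] at hB
      linarith
    have h3 : ENNReal.ofReal (1 - lr ^ d / 2) ≤ ENNReal.ofReal (1 - 2 * η) ^ d := by
      rw [← ENNReal.ofReal_pow (by linarith)]
      exact ENNReal.ofReal_le_ofReal h2
    have h4 : ENNReal.ofReal (1 - lr ^ d / 2) + In (Finset.Ico t (t + d)) bad 0 ≤
        ENNReal.ofReal (1 - lr ^ d / 2) + ENNReal.ofReal (lr ^ d / 2) := by
      rw [← ENNReal.ofReal_add (by linarith) (by positivity)]
      calc _ ≤ ENNReal.ofReal (1 - 2 * η) ^ d + In (Finset.Ico t (t + d)) bad 0 := by gcongr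
        _ = 1 := h1
        _ = _ := by rw [sub_add_cancel, ENNReal.ofReal_one]
    exact (ENNReal.add_le_add_iff_left ENNReal.ofReal_ne_top).1 h4
  have hPrG : Pr π ∅ t n = In (Finset.Ico t (t + d)) G 0 := by
    rw [Pr_split π ∅ (s := t) (m := t) (n := n) le_rfl (by omega)]
    congr 1
    funext y
    rw [E_empty π ∅ le_rfl, one_mul]
  have hsplit : Pr π ∅ t n ≤ Lam d η t G 0 +
      In (Finset.Ico t (t + d)) bad 0 * Pr π ∅ (t + d) n := by
    rw [hPrG]
    have e1 : G = fun y => NI d η t y * G y + bad y * G y := by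
      funext y
      rw [← add_mul, hadd, one_mul]
    calc In (Finset.Ico t (t + d)) G 0
        = In (Finset.Ico t (t + d)) (fun y => NI d η t y * G y + bad y * G y) 0 := by rw [← e1]
      _ = Lam d η t G 0 + In (Finset.Ico t (t + d)) (fun y => bad y * G y) 0 := by
          rw [In_add ((measurable_NI _ _).fun_mul hGm)]; rfl
      _ ≤ Lam d η t G 0 + In (Finset.Ico t (t + d)) (fun y => bad y * Pr π ∅ (t + d) n) 0 := by
          gcongr
          apply In_mono
          intro y
          gcongr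
          exact T_le_Pr y
      _ = _ := by
          congr 1
          simp_rw [mul_comm (bad _)]
          rw [In_const_mul hbadm, mul_comm]
  have hlow : l ^ d * Pr π ∅ (t + d) n ≤ Pr π ∅ t n := by
    have := ratio_pow hl d (t + d) n (by omega)
    rwa [Pr_shift] at this
  have hbad2 : In (Finset.Ico t (t + d)) bad 0 * Pr π ∅ (t + d) n ≤ Pr π ∅ t n / 2 := by
    have e1 : ENNReal.ofReal (lr ^ d / 2) = l ^ d / 2 := by
      rw [ENNReal.ofReal_div_of_pos (by norm_num), ENNReal.ofReal_pow hlr0.le, hlr,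
        ENNReal.ofReal_toReal hltop]
      simp
    calc _ ≤ ENNReal.ofReal (lr ^ d / 2) * Pr π ∅ (t + d) n := by gcongr
      _ = (l ^ d * Pr π ∅ (t + d) n) / 2 := by
          rw [e1]; simp only [div_eq_mul_inv]; ring
      _ ≤ _ := by gcongr
  have hfin : Pr π ∅ t n ≤ Lam d η t G 0 + Pr π ∅ t n / 2 := hsplit.trans (by gcongr)
  have hPt : Pr π ∅ t n ≠ ⊤ := ((Pr_le_one π ∅ t n).trans_lt ENNReal.one_lt_top).ne
  have h5 : Pr π ∅ t n / 2 ≤ Lam d η t G 0 := by
    have e : Pr π ∅ t n = Pr π ∅ t n / 2 + Pr π ∅ t n / 2 := (ENNReal.add_halves _).symm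
    nth_rewrite 1 [e] at hfin
    exact (ENNReal.add_le_add_iff_right (ENNReal.div_ne_top hPt (by norm_num))).1 hfin
  calc Pr π ∅ t n = 2 * (Pr π ∅ t n / 2) := by
        rw [ENNReal.mul_div_cancel (by norm_num) (by norm_num)]
    _ ≤ _ := by gcongr

end

end Q165.CP
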