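import Mathlib

/-!
Two nonnegative sequences with almost the same growth factors have a convergent ratio.
-/

open Filter Topology

namespace Q165.CP

lemma exp_bound {R : ℕ → ℝ} {K θ : ℝ} (hK : 0 ≤ K) (hθ0 : 0 ≤ θ) (hθ : θ < 1)
    (hR : ∀ n, 0 ≤ R n) (h : ∀ n, R (n + 1) ≤ (1 + K * θ ^ n) * R n) (n : ℕ) :
    R n ≤ R 0 * Real.exp (K / (1 - θ)) := by
  have h1 : ∀ n, R n ≤ R 0 * Real.exp (K * ∑ j ∈ Finset.range n, θ ^ j) := by
    intro n
    induction n with
    | zero => simp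
    | succ n ih =>
      calc R (n + 1) ≤ (1 + K * θ ^ n) * R n := h n
        _ ≤ Real.exp (K * θ ^ n) * (R 0 * Real.exp (K * ∑ j ∈ Finset.range n, θ ^ j)) := by
            apply mul_le_mul _ ih (hR n) (Real.exp_pos _).le
            have := Real.add_one_le_exp (K * θ ^ n)
            linarith
        _ = _ := by
            rw [Finset.sum_range_succ, mul_add, Real.exp_add]; ring
  refine (h1 n).trans ?_
  apply mul_le_mul_of_nonneg_left _ (hR 0)
  apply Real.exp_le_exp.2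
  rw [div_eq_mul_inv]
  apply mul_le_mul_of_nonneg_left _ hK
  rw [geom_sum_eq hθ.ne]
  rw [show (θ ^ n - 1) / (θ - 1) = (1 - θ ^ n) * (1 - θ)⁻¹ by
    rw [div_eq_mul_inv, ← neg_sub 1 θ, inv_neg]; ring]
  have h2 : 0 ≤ θ ^ n := pow_nonneg hθ0 n
  have h3 : 0 < (1 - θ)⁻¹ := inv_pos.2 (by linarith)
  nlinarith

/-- The growth condition: there are common growth factors for all the sequences in `S`. -/
def Grow (S : Set (ℕ → ℝ)) (l K θ : ℝ) (n₀ : ℕ) : Prop :=
  ∀ n ≥ n₀, ∃ a b : ℝ, 0 ≤ a ∧ a ≤ b ∧ l ≤ b ∧ b - a ≤ K * θ ^ n ∧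
    ∀ u ∈ S, a * u n ≤ u (n + 1) ∧ u (n + 1) ≤ b * u n

lemma ratio_limit {S : Set (ℕ → ℝ)} {l K θ : ℝ} {n₀ : ℕ} (hl : 0 < l) (hK : 0 ≤ K) (hθ0 : 0 < θ)
    (hθ : θ < 1) (hg : Grow S l K θ n₀) {u v : ℕ → ℝ} (hu : u ∈ S) (hv : v ∈ S)
    (hu0 : ∀ n, 0 ≤ u n) (hv0 : ∀ n, 0 < v n) :
    ∃ c K' : ℝ, 0 ≤ c ∧ (∃ n₁, ∀ n ≥ n₁, |u n - c * v n| ≤ K' * θ ^ n * (c * v n)) ∧
      ((∃ᶠ n in atTop, u n ≠ 0) → 0 < c) := by
  -- a threshold
  obtain ⟨n₁, hn₁, hsmall⟩ : ∃ n₁ ≥ n₀, ∀ n ≥ n₁, K * θ ^ n ≤ l / 2 := by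
    have ht : Tendsto (fun n => K * θ ^ n) atTop (𝓝 (K * 0)) :=
      (tendsto_pow_atTop_nhds_zero_of_lt_one hθ0.le hθ).const_mul K
    rw [mul_zero] at ht
    have := ht.eventually (gt_mem_nhds (by positivity : 0 < l / 2))
    obtain ⟨N, hN⟩ := eventually_atTop.1 this
    exact ⟨max N n₀, le_max_right _ _, fun n hn => (hN n ((le_max_left _ _).trans hn)).le⟩
  have hstep : ∀ n ≥ n₁, ∃ a b : ℝ, l / 2 ≤ a ∧ a ≤ b ∧ b - a ≤ K * θ ^ n ∧
      a * u n ≤ u (n + 1) ∧ u (n + 1) ≤ b * u n ∧ a * v n ≤ v (n + 1) ∧ v (n + 1) ≤ b * v n := by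
    intro n hn
    obtain ⟨a, b, ha, hab, hlb, hba, hS⟩ := hg n (by omega)
    have := hsmall n hn
    exact ⟨a, b, by linarith, hab, hba, (hS u hu).1, (hS u hu).2, (hS v hv).1, (hS v hv).2⟩
  by_cases hz : u n₁ = 0
  · -- the sequence vanishes
    have hzero : ∀ n ≥ n₁, u n = 0 := by
      intro n hn
      induction n, hn using Nat.le_induction with
      | base => exact hz
      | succ n hn ih =>
        obtain ⟨a, b, -, -, -, -, h2, -⟩ := hstep n hn
        rw [ih, mul_zero] at h2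
        exact le_antisymm h2 (hu0 _)
    refine ⟨0, 0, le_rfl, ⟨n₁, fun n hn => by simp [hzero n hn]⟩, fun hf => ?_⟩
    exfalso
    apply hf
    filter_upwards [eventually_ge_atTop n₁] with n hn
    simp [hzero n hn]
  · have hpos : ∀ n ≥ n₁, 0 < u n := by
      intro n hn
      induction n, hn using Nat.le_induction with
      | base => exact lt_of_le_of_ne (hu0 _) (Ne.symm hz)
      | succ n hn ih =>
        obtain ⟨a, b, h0, -, -, h1, -⟩ := hstep n hn
        have : 0 < a * u n := mul_pos (by linarith) ih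
        linarith
    set R : ℕ → ℝ := fun n => u (n₁ + n) / v (n₁ + n) with hR
    have hRpos : ∀ n, 0 < R n := fun n => div_pos (hpos _ (by omega)) (hv0 _)
    set K1 := 2 * K / l * θ ^ n₁ with hK1
    have hK10 : 0 ≤ K1 := by positivity
    have hba : ∀ n, ∃ a b : ℝ, 0 < a ∧ a ≤ b ∧ b ≤ (1 + K1 * θ ^ n) * a ∧
        a * u (n₁ + n) ≤ u (n₁ + n + 1) ∧ u (n₁ + n + 1) ≤ b * u (n₁ + n) ∧
        a * v (n₁ + n) ≤ v (n₁ + n + 1) ∧ v (n₁ + n + 1) ≤ b * v (n₁ + n) := by
      intro n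
      obtain ⟨a, b, h0, h1, h2, h3, h4, h5, h6⟩ := hstep (n₁ + n) (by omega)
      refine ⟨a, b, by linarith, h1, ?_, h3, h4, h5, h6⟩
      have e1 : K * θ ^ (n₁ + n) ≤ K1 * θ ^ n * a := by
        calc K * θ ^ (n₁ + n) = (2 * K / l * θ ^ n₁ * θ ^ n) * (l / 2) := by
              rw [pow_add]; field_simp
          _ ≤ (2 * K / l * θ ^ n₁ * θ ^ n) * a := by
              apply mul_le_mul_of_nonneg_left h0; positivity
      linarith
    have hup : ∀ n, R (n + 1) ≤ (1 + K1 * θ ^ n) * R n := by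
      intro n
      obtain ⟨a, b, h0, h1, h2, h3, h4, h5, h6⟩ := hba n
      have hvn := hv0 (n₁ + n)
      have hun := hpos (n₁ + n) (by omega)
      have hav : 0 < a * v (n₁ + n) := mul_pos h0 hvn
      calc R (n + 1) = u (n₁ + n + 1) / v (n₁ + n + 1) := by simp only [hR]; rfl
        _ ≤ (b * u (n₁ + n)) / (a * v (n₁ + n)) := by
            apply div_le_div₀ _ h4 hav h5
            have : 0 ≤ b := by linarith
            positivity
        _ = (b / a) * R n := by simp only [hR]; field_simp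
        _ ≤ (1 + K1 * θ ^ n) * R n := by
            apply mul_le_mul_of_nonneg_right _ (hRpos n).le
            rw [div_le_iff₀ h0]; exact h2
    have hdown : ∀ n, (R (n + 1))⁻¹ ≤ (1 + K1 * θ ^ n) * (R n)⁻¹ := by
      intro n
      obtain ⟨a, b, h0, h1, h2, h3, h4, h5, h6⟩ := hba n
      have hvn := hv0 (n₁ + n)
      have hun := hpos (n₁ + n) (by omega)
      have hau : 0 < a * u (n₁ + n) := mul_pos h0 hun
      calc (R (n + 1))⁻¹ = v (n₁ + n + 1) / u (n₁ + n + 1) := by simp only [hR]; rw [inv_div]; rfl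
        _ ≤ (b * v (n₁ + n)) / (a * u (n₁ + n)) := by
            apply div_le_div₀ _ h6 hau h3
            have : 0 ≤ b := by linarith
            positivity
        _ = (b / a) * (R n)⁻¹ := by simp only [hR]; rw [inv_div]; field_simp
        _ ≤ (1 + K1 * θ ^ n) * (R n)⁻¹ := by
            apply mul_le_mul_of_nonneg_right _ (inv_nonneg.2 (hRpos n).le)
            rw [div_le_iff₀ h0]; exact h2
    have hA := exp_bound hK10 hθ0.le hθ (fun n => (hRpos n).le) hup
    have hA' := exp_bound hK10 hθ0.le hθ (fun n => inv_nonneg.2 (hRpos n).le) hdown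
    set A := R 0 * Real.exp (K1 / (1 - θ)) with hAdef
    set A' := (R 0)⁻¹ * Real.exp (K1 / (1 - θ)) with hAdef'
    have hApos : 0 < A := mul_pos (hRpos 0) (Real.exp_pos _)
    have hApos' : 0 < A' := mul_pos (inv_pos.2 (hRpos 0)) (Real.exp_pos _)
    have hdist : ∀ n, dist (R n) (R (n + 1)) ≤ (K1 * A) * θ ^ n := by
      intro n
      rw [Real.dist_eq, abs_le]
      have hθn : 0 ≤ θ ^ n := by positivity
      constructor
      · have h1 := hup n
        have h2 : K1 * θ ^ n * R n ≤ K1 * θ ^ n * A :=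
          mul_le_mul_of_nonneg_left (hA n) (by positivity)
        nlinarith
      · have h1 := hdown n
        have hRn := hRpos n
        have hRn1 := hRpos (n + 1)
        have h3 : R n ≤ (1 + K1 * θ ^ n) * R (n + 1) := by
          have := mul_le_mul_of_nonneg_left h1 (mul_pos hRn hRn1).le
          have e1 : R n * R (n + 1) * (R (n + 1))⁻¹ = R n := by field_simp
          have e2 : R n * R (n + 1) * ((1 + K1 * θ ^ n) * (R n)⁻¹) =
              (1 + K1 * θ ^ n) * R (n + 1) := by field_simp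
          rwa [e1, e2] at this
        have h2 : K1 * θ ^ n * R (n + 1) ≤ K1 * θ ^ n * A :=
          mul_le_mul_of_nonneg_left (hA (n + 1)) (by positivity)
        nlinarith
    obtain ⟨c, hc⟩ := cauchySeq_tendsto_of_complete
      (cauchySeq_of_le_geometric θ (K1 * A) hθ hdist)
    have hcA : A'⁻¹ ≤ c := by
      apply ge_of_tendsto' hc
      intro n
      rw [inv_le_comm₀ hApos' (hRpos n)]
      exact hA' n
    have hcpos : 0 < c := (inv_pos.2 hApos').trans_le hcA
    have hrate := dist_le_of_le_geometric_of_tendsto θ (K1 * A) hθ hdist hc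
    refine ⟨c, K1 * A / (1 - θ) / c / θ ^ n₁, hcpos.le, ⟨n₁, fun n hn => ?_⟩, fun _ => hcpos⟩
    obtain ⟨m, rfl⟩ : ∃ m, n = n₁ + m := ⟨n - n₁, by omega⟩
    have h1 := hrate m
    rw [Real.dist_eq] at h1
    have hvn := hv0 (n₁ + m)
    have e1 : u (n₁ + m) - c * v (n₁ + m) = (R m - c) * v (n₁ + m) := by
      simp only [hR]; field_simp
    rw [e1, abs_mul, abs_of_pos hvn]
    calc |R m - c| * v (n₁ + m) ≤ (K1 * A * θ ^ m / (1 - θ)) * v (n₁ + m) :=
          mul_le_mul_of_nonneg_right h1 hvn.le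
      _ = _ := by
          have : (1 - θ) ≠ 0 := by linarith
          rw [pow_add]
          field_simp

end Q165.CP
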