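import Pool.Agent.Q165.CPContr
import Pool.Agent.Q165.CPReal

/-!
The probabilities of all initial occurrence sets have the same growth factors.
-/

open MeasureTheory Set Function
open scoped ENNReal

namespace Q165.CP

noncomputable section

variable {d : ℕ} {π : Equiv.Perm (Fin (d + 1))}

variable (π) in
/-- The probability that the occurrences are exactly the ones in `P`, as a real number. -/
def phi (P : Set ℕ) (n : ℕ) : ℝ := (Pr π P 0 n).toReal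

lemma Pr_ne_top (P : Set ℕ) (s n : ℕ) : Pr π P s n ≠ ⊤ :=
  ((Pr_le_one π P s n).trans_lt ENNReal.one_lt_top).ne

lemma T_eq_G {P : Set ℕ} {m : ℕ} (hP : ∀ j ∈ P, j < m) (n : ℕ) :
    T π P m n (fun _ => 1) = G π m n := by
  funext x
  unfold G T
  congr 1
  funext y
  rw [E_congr π (P := P) (Q := ∅)]
  intro j h1 _
  constructor
  · intro h; have := hP j h; omega
  · intro h; exact absurd h (Set.notMem_empty j)

lemma Pr_as_G {P : Set ℕ} {m n : ℕ} (hP : ∀ j ∈ P, j < m) (h : m ≤ n) :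
    Pr π P 0 n = In (Finset.Ico 0 (m + d)) (fun x => E π P 0 m x * G π m n x) 0 := by
  rw [Pr_split π P (s := 0) (m := m) (n := n) (by omega) h]
  simp_rw [T_eq_G hP n]

/-- Common bounds for the growth at the right end. -/
lemma growth_factors (hd : 2 ≤ d) (h0 : π (Fin.last d) ≠ 0) :
    ∃ (M : ℕ) (κ : ℝ), 2 + d + d ≤ M ∧ 0 < κ ∧ κ ≤ 1 ∧ Contr π M κ ∧
      ∀ i m n, m + i * M + d + (2 + d) ≤ n → ∃ a b : ℝ, 0 ≤ a ∧ a ≤ b ∧ b ≤ 1 ∧
        b - a ≤ (1 - κ) ^ i ∧ (∀ x, ENNReal.ofReal a * G π m n x ≤ G π m (n + 1) x) ∧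
        (∀ x, G π m (n + 1) x ≤ ENNReal.ofReal b * G π m n x) := by
  obtain ⟨M, κ, η, hM, hκ, hκ1, hη, c1, c2, c3, c4⟩ := core hd h0
  have hc : Contr π M κ := contract h0 hκ hκ1 c1 c2 c4
  refine ⟨M, κ, hM, hκ, hκ1, hc, fun i m n hn => ?_⟩
  obtain ⟨r, rfl⟩ : ∃ r, n = r + d + (2 + d) := ⟨n - (d + (2 + d)), by omega⟩
  obtain ⟨a, b, h1, h2, h3, h4, h5, h6⟩ := contract_iter hκ1 hc i m r (r + d + (2 + d))
    (G π r (r + d + (2 + d) + 1)) 0 1 (by omega) le_rfl (measurable_G _ _) (G_dep _ _) le_rfl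
    zero_le_one (by intro x; simp) (by
      intro x; rw [ENNReal.ofReal_one, one_mul]; exact G_anti _ (by omega) (by omega) x)
  rw [T_G (by omega) (by omega)] at h5 h6
  exact ⟨a, b, h1, h2, h3, by simpa using h4, h5, h6⟩

lemma phi_bounds {P : Set ℕ} {m n : ℕ} (hP : ∀ j ∈ P, j < m) (h : m ≤ n) {a b : ℝ} (ha : 0 ≤ a)
    (hb : 0 ≤ b) (h1 : ∀ x, ENNReal.ofReal a * G π m n x ≤ G π m (n + 1) x)
    (h2 : ∀ x, G π m (n + 1) x ≤ ENNReal.ofReal b * G π m n x) :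
    a * phi π P n ≤ phi π P (n + 1) ∧ phi π P (n + 1) ≤ b * phi π P n := by
  have hm : Measurable fun x => E π P 0 m x * G π m n x :=
    (measurable_E π P 0 m).fun_mul (measurable_G m n)
  have e1 : ENNReal.ofReal a * Pr π P 0 n ≤ Pr π P 0 (n + 1) := by
    rw [Pr_as_G hP h, Pr_as_G hP (by omega : m ≤ n + 1), ← In_const_mul hm]
    apply In_mono
    intro x
    calc _ = E π P 0 m x * (ENNReal.ofReal a * G π m n x) := by ring
      _ ≤ _ := by gcongr; exact h1 x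
  have e2 : Pr π P 0 (n + 1) ≤ ENNReal.ofReal b * Pr π P 0 n := by
    rw [Pr_as_G hP h, Pr_as_G hP (by omega : m ≤ n + 1), ← In_const_mul hm]
    apply In_mono
    intro x
    calc _ ≤ E π P 0 m x * (ENNReal.ofReal b * G π m n x) := by gcongr; exact h2 x
      _ = _ := by ring
  constructor
  · have := ENNReal.toReal_mono (Pr_ne_top P 0 (n + 1)) e1
    rwa [ENNReal.toReal_mul, ENNReal.toReal_ofReal ha] at this
  · have := ENNReal.toReal_mono (ENNReal.mul_ne_top ENNReal.ofReal_ne_top (Pr_ne_top P 0 n)) e2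
    rwa [ENNReal.toReal_mul, ENNReal.toReal_ofReal hb] at this

lemma phi_nonneg (P : Set ℕ) (n : ℕ) : 0 ≤ phi π P n := ENNReal.toReal_nonneg

lemma phi_empty_pos (h0 : π (Fin.last d) ≠ 0) (n : ℕ) : 0 < phi π ∅ n :=
  ENNReal.toReal_pos (Pr_pos h0 0 n) (Pr_ne_top ∅ 0 n)

/-- All the probabilities with occurrences in `[0, m)` grow with the same factors. -/
theorem grow (hd : 2 ≤ d) (h0 : π (Fin.last d) ≠ 0) :
    ∃ l θ : ℝ, 0 < l ∧ 0 < θ ∧ θ < 1 ∧ ∀ m, ∃ (K : ℝ) (n₀ : ℕ), 0 ≤ K ∧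
      Grow {u | ∃ P : Set ℕ, (∀ j ∈ P, j < m) ∧ u = phi π P} l K θ n₀ := by
  obtain ⟨M, κ, hM, hκ, hκ1, hc, hg⟩ := growth_factors hd h0
  obtain ⟨l, hl0, hl1, hl⟩ := ratio hd h0
  have hlt : l ≠ ⊤ := (hl1.trans_lt ENNReal.one_lt_top).ne
  have hM0 : (2 : ℝ) ≤ M := by exact_mod_cast (by omega : 2 ≤ M)
  set θ : ℝ := 1 - κ / M with hθ
  have hκM : κ / M ≤ 1 / 2 := by
    rw [div_le_div_iff₀ (by linarith) (by norm_num)]
    linarith
  have hκM0 : 0 < κ / M := by positivity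
  have hθ0 : 0 < θ := by rw [hθ]; linarith
  have hθ1 : θ < 1 := by rw [hθ]; linarith
  have hθM : 1 - κ ≤ θ ^ M := by
    have := one_add_mul_le_pow (a := -(κ / M)) (by linarith) M
    have e1 : (1 : ℝ) + M * -(κ / M) = 1 - κ := by field_simp; ring
    have e2 : (1 : ℝ) + -(κ / M) = θ := by rw [hθ]; ring
    rwa [e1, e2] at this
  refine ⟨l.toReal, θ, ENNReal.toReal_pos hl0 hlt, hθ0, hθ1, fun m => ?_⟩
  refine ⟨(θ ^ (m + (2 * d + 2) + M))⁻¹, m + (2 * d + 2) + M, by positivity, ?_⟩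
  intro n hn
  set i := (n - m - (2 * d + 2)) / M with hi
  have hdm := Nat.div_add_mod (n - m - (2 * d + 2)) M
  have hmod := Nat.mod_lt (n - m - (2 * d + 2)) (by omega : M > 0)
  rw [← hi] at hdm
  have hiM : M * i ≤ n - m - (2 * d + 2) := by omega
  have hiM2 : n ≤ M * i + (m + (2 * d + 2) + M) := by omega
  obtain ⟨a, b, ha, hab, hb1, hba, h5, h6⟩ := hg i m n (by
    have : i * M = M * i := Nat.mul_comm _ _
    omega)
  have hlb : l.toReal ≤ b := by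
    have h7 := (phi_bounds (P := ∅) (by simp) (by omega : m ≤ n) ha (by linarith) h5 h6).2
    have h8 : l.toReal * phi π ∅ n ≤ phi π ∅ (n + 1) := by
      have := ENNReal.toReal_mono (Pr_ne_top ∅ 0 (n + 1)) (hl 0 n (by omega))
      rwa [ENNReal.toReal_mul] at this
    exact le_of_mul_le_mul_right (h8.trans h7) (phi_empty_pos h0 n)
  refine ⟨a, b, ha, hab, hlb, ?_, ?_⟩
  · calc b - a ≤ (1 - κ) ^ i := hba
      _ ≤ (θ ^ M) ^ i := pow_le_pow_left₀ (by linarith) hθM i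
      _ = θ ^ (M * i) := (pow_mul _ _ _).symm
      _ ≤ (θ ^ (m + (2 * d + 2) + M))⁻¹ * θ ^ n := by
          rw [← div_eq_inv_mul, le_div_iff₀ (by positivity), ← pow_add]
          exact pow_le_pow_of_le_one hθ0.le hθ1.le hiM2
  · rintro u ⟨P, hP, rfl⟩
    exact phi_bounds hP (by omega) ha (by linarith) h5 h6

/-- The asymptotics of the probabilities of prescribed initial occurrence sets. -/
theorem phi_asymp (hd : 2 ≤ d) (h0 : π (Fin.last d) ≠ 0) :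
    ∃ θ : ℝ, 0 < θ ∧ θ < 1 ∧ ∀ (m : ℕ) (P : Set ℕ), (∀ j ∈ P, j < m) → ∃ c K : ℝ, 0 ≤ c ∧
      (∃ n₁, ∀ n ≥ n₁, |phi π P n - c * phi π ∅ n| ≤ K * θ ^ n * (c * phi π ∅ n)) ∧
      ((∃ᶠ n in Filter.atTop, phi π P n ≠ 0) → 0 < c) := by
  obtain ⟨l, θ, hl, hθ0, hθ1, hg⟩ := grow hd h0
  refine ⟨θ, hθ0, hθ1, fun m P hP => ?_⟩
  obtain ⟨K, n₀, hK, hgr⟩ := hg m
  exact ratio_limit hl hK hθ0 hθ1 hgr (u := phi π P) (v := phi π ∅) ⟨P, hP, rfl⟩
    ⟨∅, by simp, rfl⟩ (phi_nonneg P) (phi_empty_pos h0)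

end

end Q165.CP
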