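import Pool.Agent.Q165.CPGrow

/-!
Inserting one more occurrence of the pattern: upper and lower bounds for the quotient of the
probabilities with and without the additional occurrence.
-/

open MeasureTheory Set Function
open scoped ENNReal

namespace Q165.CP

noncomputable section

variable {d : ℕ} {π : Equiv.Perm (Fin (d + 1))}

lemma T_congr {P Q : Set ℕ} {s n : ℕ} (h : ∀ j, s ≤ j → j < n → (j ∈ P ↔ j ∈ Q))
    (f : Sq → ℝ≥0∞) : T π P s n f = T π Q s n f := by
  unfold T
  congr 1
  funext x
  rw [E_congr π h]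

/-- From a window away from 0 and 1 one reaches every window away from 0 and 1. -/
lemma inner (hd : 2 ≤ d) (h0 : π (Fin.last d) ≠ 0) {η : ℝ} (hη : 0 < η) (hη1 : η < 1 / 2) :
    ∃ (Z : ℕ) (C : ℝ≥0∞), C ≠ 0 ∧ C ≤ 1 ∧ ∀ (t : ℕ) (f : Sq → ℝ≥0∞), Measurable f →
      Dep f {i | t + d + Z ≤ i} → ∀ y,
        C * (NI d η t y * Lam d η (t + d + Z) f y) ≤ T π ∅ t (t + d + Z) f y := by
  obtain ⟨Z, C₁, hC₁, hC₁', hm⟩ := mid π hd h0 hη hη1
  refine ⟨Z, C₁, hC₁, hC₁', fun t f hf hfd y => ?_⟩
  unfold T
  rw [In_Ico' ((measurable_E π ∅ _ _).fun_mul hf) (b := t + d + Z) (by omega) (by omega)]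
  have e1 : ∀ w, In (Finset.Ico (t + d) (t + d + Z)) (fun x => E π ∅ t (t + d + Z) x * f x) w =
      In (Finset.Ico (t + d) (t + d + Z)) (E π ∅ t (t + d + Z)) w * f w := by
    intro w
    apply In_mul'
    · apply hfd.mono
      intro i hi
      simp only [Set.mem_ofPred_eq, Finset.mem_Ico] at hi ⊢
      omega
    · exact measurable_E π ∅ _ _
  have e2 : C₁ * (NI d η t y * Lam d η (t + d + Z) f y) =
      In (Finset.Ico (t + d + Z) (t + d + Z + d))
        (fun w => (C₁ * NI d η t w) * (NI d η (t + d + Z) w * f w)) y := by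
    rw [In_mul (h := fun w => C₁ * NI d η t w)]
    · unfold Lam; ring
    · apply Dep.mul (Dep_const _ _)
      apply (NI_dep η t).mono
      intro i hi
      simp only [Set.mem_ofPred_eq, Finset.mem_Ico] at hi ⊢
      omega
    · exact (measurable_NI _ _).fun_mul hf
  rw [e2]
  apply In_mono
  intro w
  rw [e1]
  by_cases h1 : Nice η t (t + d) w
  · by_cases h2 : Nice η (t + d + Z) (t + d + Z + d) w
    · have := hm t w h1 h2
      unfold NI
      rw [if_pos h1, if_pos h2, mul_one, one_mul]
      gcongr
    · unfold NI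
      rw [if_neg h2, zero_mul, mul_zero]
      exact zero_le
  · unfold NI
    rw [if_neg h1, mul_zero, zero_mul]
    exact zero_le

/-! ### The block with exactly one occurrence -/

/-- The interval of the level `v` between `η` and `1 - η`. -/
def bx (η δ : ℝ) (v : ℕ) : Set ℝ := Set.Icc (η + δ * v + δ / 4) (η + δ * v + δ / 2)

lemma bx_lt {η δ : ℝ} (hδ : 0 < δ) {v v' : ℕ} (h : v < v') {u w : ℝ} (hu : u ∈ bx η δ v)
    (hw : w ∈ bx η δ v') : u < w := by
  have h1 := hu.2
  have h2 := hw.1
  have h3 : (v : ℝ) + 1 ≤ v' := by exact_mod_cast h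
  have h4 : δ * v + δ ≤ δ * v' := by nlinarith
  linarith

lemma bx_nice {η δ : ℝ} (hδ : 0 < δ) {v V : ℕ} (hV : δ * V ≤ 1 - 2 * η) (h : v < V) {u : ℝ}
    (hu : u ∈ bx η δ v) : η ≤ u ∧ u ≤ 1 - η := by
  have h1 := hu.1
  have h2 := hu.2
  have h3 : (v : ℝ) + 1 ≤ V := by exact_mod_cast h
  have h4 : δ * v + δ ≤ δ * V := by nlinarith
  have h5 : 0 ≤ δ * v := by positivity
  constructor <;> linarith

lemma U_bx {η δ : ℝ} (hη : 0 < η) (hδ : 0 < δ) {v V : ℕ} (hV : δ * V ≤ 1 - 2 * η) (h : v < V) :
    U (bx η δ v) = ENNReal.ofReal (δ / 4) := by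
  have h3 : (v : ℝ) + 1 ≤ V := by exact_mod_cast h
  have h4 : δ * v + δ ≤ δ * V := by nlinarith
  have h5 : 0 ≤ δ * v := by positivity
  unfold bx
  rw [U_Icc (by linarith) (by linarith)]
  congr 1
  ring

variable (π) in
/-- The levels of the block with exactly one occurrence. -/
def bl (p : ℕ) : ℕ :=
  if p < d then (if π 0 = 0 then 4 * d + 1 - p else p)
  else if h : p < 2 * d + 1 then 2 * d + (π ⟨p - d, by omega⟩ : ℕ) else 4 * d - p

lemma bl_mid (a : Fin (d + 1)) : bl π (d + a) = 2 * d + (π a : ℕ) := by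
  have := a.2
  unfold bl
  rw [if_neg (by omega), dif_pos (by omega)]
  congr 3
  apply Fin.ext
  simp

lemma bl_right {p : ℕ} (h : 2 * d + 1 ≤ p) : bl π p = 4 * d - p := by
  unfold bl
  rw [if_neg (by omega), dif_neg (by omega)]

lemma bl_left {p : ℕ} (h : p < d) (hz : π 0 ≠ 0) : bl π p = p := by
  unfold bl
  rw [if_pos h, if_neg hz]

lemma bl_left' {p : ℕ} (h : p < d) (hz : π 0 = 0) : bl π p = 4 * d + 1 - p := by
  unfold bl
  rw [if_pos h, if_pos hz]

lemma bl_lt (hd : 2 ≤ d) (p : ℕ) (hp : p < 3 * d + 1) : bl π p < 4 * d + 2 := by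
  unfold bl
  split_ifs with h1 h2 h3
  · omega
  · omega
  · have := (π ⟨p - d, by omega⟩).2
    omega
  · omega

/-- A word with the levels of the block has exactly one occurrence. -/
lemma block_occ (hd : 2 ≤ d) (h0 : π (Fin.last d) ≠ 0) {b : ℕ} {y : Sq}
    (hy : ∀ p q, p < 3 * d + 1 → q < 3 * d + 1 → bl π p < bl π q → y (b + p) < y (b + q))
    {j : ℕ} (h1 : b ≤ j) (h2 : j < b + (2 * d + 1)) : occ π y j ↔ j = b + d := by
  obtain ⟨p, rfl⟩ : ∃ p, j = b + p := ⟨j - b, by omega⟩
  rcases lt_trichotomy p d with hp | hp | hp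
  · -- to the left
    refine iff_of_false (fun hocc => ?_) (by omega)
    by_cases hz : π 0 = 0
    · have h3 := (hocc 0 (Fin.last d)).2 (by
        rw [hz]; exact Fin.pos_iff_ne_zero.2 h0)
      have h4 := hy (p + d) p (by omega) (by omega) (by
        have h5 := bl_mid (π := π) ⟨p, by omega⟩
        have h6 : ((⟨p, by omega⟩ : Fin (d + 1)) : ℕ) = p := rfl
        rw [h6] at h5
        rw [add_comm p d, h5, bl_left' hp hz]
        have := (π ⟨p, by omega⟩).2
        omega)
      simp only [Fin.val_zero, add_zero, Fin.val_last] at h3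
      have e : b + p + d = b + (p + d) := by ring
      rw [e] at h3
      linarith
    · have h3 := (hocc (π.symm 0) 0).2 (by
        rw [Equiv.apply_symm_apply]; exact Fin.pos_iff_ne_zero.2 hz)
      set c := π.symm 0 with hc
      have hc0 : (c : ℕ) ≠ 0 := by
        intro h
        apply hz
        have h4 : c = 0 := Fin.ext (by simpa using h)
        rw [← h4, hc, Equiv.apply_symm_apply]
        rw [h4] at hc
        exact hc
      have hcl := c.2
      have h4 := hy p (p + c) (by omega) (by omega) (by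
        rw [bl_left hp hz]
        by_cases h5 : p + c < d
        · rw [bl_left h5 hz]; omega
        · have h7 := bl_mid (π := π) ⟨p + c - d, by omega⟩
          have h6 : ((⟨p + c - d, by omega⟩ : Fin (d + 1)) : ℕ) = p + c - d := rfl
          rw [h6] at h7
          have e : d + (p + (c : ℕ) - d) = p + c := by omega
          rw [e] at h7
          rw [h7]
          omega)
      simp only [Fin.val_zero, add_zero] at h3
      have e : b + p + (c : ℕ) = b + (p + c) := by ring
      rw [e] at h3
      linarith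
  · subst hp
    refine iff_of_true (fun a a' => ?_) rfl
    have ha := a.2
    have ha' := a'.2
    have e1 : b + p + (a : ℕ) = b + (p + a) := by ring
    have e2 : b + p + (a' : ℕ) = b + (p + a') := by ring
    rw [e1, e2]
    rcases lt_trichotomy (π a) (π a') with h | h | h
    · refine iff_of_true (hy _ _ (by omega) (by omega) ?_) h
      rw [bl_mid, bl_mid]
      have : (π a : ℕ) < π a' := h
      omega
    · have := π.injective h
      subst this
      simp
    · refine iff_of_false (fun h3 => ?_) (not_lt.2 h.le)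
      have h4 := hy (p + a') (p + a) (by omega) (by omega) (by
        rw [bl_mid, bl_mid]
        have : (π a' : ℕ) < π a := h
        omega)
      linarith
  · -- to the right
    refine iff_of_false (fun hocc => ?_) (by omega)
    have h3 := (hocc (π.symm 0) (Fin.last d)).2 (by
      rw [Equiv.apply_symm_apply]; exact Fin.pos_iff_ne_zero.2 h0)
    set c := π.symm 0 with hc
    have hcl : (c : ℕ) < d := by
      have h5 : (c : ℕ) ≠ d := by
        intro h
        apply h0
        have h4 : c = Fin.last d := Fin.ext (by simpa using h)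
        rw [← h4, hc, Equiv.apply_symm_apply]
      have := c.2
      omega
    have h4 := hy (p + d) (p + c) (by omega) (by omega) (by
      rw [bl_right (p := p + d) (by omega)]
      by_cases h5 : p + c < 2 * d + 1
      · have h7 := bl_mid (π := π) ⟨p + c - d, by omega⟩
        have h6 : ((⟨p + c - d, by omega⟩ : Fin (d + 1)) : ℕ) = p + c - d := rfl
        rw [h6] at h7
        have e : d + (p + (c : ℕ) - d) = p + c := by omega
        rw [e] at h7
        rw [h7]
        omega
      · rw [bl_right (by omega)]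
        omega)
    rw [Fin.val_last] at h3
    have e1 : b + p + (c : ℕ) = b + (p + c) := by ring
    have e2 : b + p + d = b + (p + d) := by ring
    rw [e1, e2] at h3
    linarith

end

end Q165.CP
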