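import Pool.Agent.Q165.CPIns

/-!
Inserting one more occurrence of the pattern: the lower bound.
-/

open MeasureTheory Set Function
open scoped ENNReal

namespace Q165.CP

noncomputable section

variable {d : ℕ} {π : Equiv.Perm (Fin (d + 1))}

variable (π) in
/-- The constraint that the entries in `[b + u, b + v)` have the levels of the block. -/
def BX (η δ : ℝ) (b u v : ℕ) (x : Sq) : ℝ≥0∞ :=
  ∏ i ∈ Finset.Ico (b + u) (b + v), (bx η δ (bl π (i - b))).indicator (fun _ => (1 : ℝ≥0∞)) (x i)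

lemma measurable_BX (η δ : ℝ) (b u v : ℕ) : Measurable (BX π η δ b u v) := by
  unfold BX
  apply Finset.measurable_prod
  intro j _
  exact (measurable_const.indicator measurableSet_Icc).comp (measurable_pi_apply j)

lemma BX_dep (η δ : ℝ) (b u v : ℕ) : Dep (BX π η δ b u v) {i | b + u ≤ i ∧ i < b + v} := by
  intro x y hxy
  unfold BX
  apply Finset.prod_congr rfl
  intro i hi
  rw [Finset.mem_Ico] at hi
  rw [hxy i hi]

lemma BX_le_one (η δ : ℝ) (b u v : ℕ) (x : Sq) : BX π η δ b u v x ≤ 1 := by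
  unfold BX
  apply Finset.prod_le_one'
  intro i _
  simp only [Set.indicator]
  split_ifs <;> simp

lemma BX_cases (η δ : ℝ) (b u v : ℕ) (x : Sq) :
    BX π η δ b u v x = 0 ∨ ((∀ i, b + u ≤ i → i < b + v → x i ∈ bx η δ (bl π (i - b))) ∧
      BX π η δ b u v x = 1) := by
  classical
  by_cases h : ∀ i, b + u ≤ i → i < b + v → x i ∈ bx η δ (bl π (i - b))
  · right
    refine ⟨h, ?_⟩
    unfold BX
    apply Finset.prod_eq_one
    intro i hi
    rw [Finset.mem_Ico] at hi
    simp [h i hi.1 hi.2]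
  · left
    push Not at h
    obtain ⟨i, hi1, hi2, hi3⟩ := h
    unfold BX
    rw [Finset.prod_eq_zero (i := i) (Finset.mem_Ico.2 ⟨hi1, hi2⟩)]
    simp [hi3]

lemma In_BX {η δ : ℝ} (hη : 0 < η) (hδ : 0 < δ) (hd : 2 ≤ d)
    (hV : δ * (4 * d + 2 : ℕ) ≤ 1 - 2 * η) (b u v : ℕ) (hv : v ≤ 3 * d + 1) (x : Sq) :
    In (Finset.Ico (b + u) (b + v)) (BX π η δ b u v) x = ENNReal.ofReal (δ / 4) ^ (v - u) := by
  unfold BX
  rw [In_box _ (fun i => bx η δ (bl π (i - b))) (fun _ => measurableSet_Icc),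
    Finset.prod_congr rfl (g := fun _ => ENNReal.ofReal (δ / 4))]
  · rw [Finset.prod_const, Nat.card_Ico]
    congr 1; omega
  · intro i hi
    rw [Finset.mem_Ico] at hi
    exact U_bx hη hδ hV (bl_lt hd _ (by omega))

/-- From a window with the first levels of the block one continues with the block with a
probability bounded from below. -/
lemma block_T (hd : 2 ≤ d) (h0 : π (Fin.last d) ≠ 0) {η δ : ℝ} (hη : 0 < η) (hδ : 0 < δ)
    (hV : δ * (4 * d + 2 : ℕ) ≤ 1 - 2 * η) (b : ℕ) (x : Sq) :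
    ENNReal.ofReal (δ / 4) ^ (2 * d + 1) * BX π η δ b 0 d x ≤
      T π {b + d} b (b + (2 * d + 1)) (NI d η (b + (2 * d + 1))) x := by
  have e1 : In (Finset.Ico (b + d) (b + (3 * d + 1)))
      (fun y => BX π η δ b 0 d y * BX π η δ b d (3 * d + 1) y) x =
      ENNReal.ofReal (δ / 4) ^ (2 * d + 1) * BX π η δ b 0 d x := by
    rw [In_mul, In_BX hη hδ hd hV b d (3 * d + 1) le_rfl, mul_comm]
    · congr 2; omega
    · apply (BX_dep η δ b 0 d).mono
      intro i hi
      simp only [Set.mem_ofPred_eq, Finset.mem_Ico] at hi ⊢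
      omega
    · exact measurable_BX _ _ _ _ _
  rw [← e1]
  unfold T
  have e2 : b + (2 * d + 1) + d = b + (3 * d + 1) := by ring
  rw [e2]
  apply In_mono
  intro y
  rcases BX_cases (π := π) η δ b 0 d y with h1 | ⟨h1, h1'⟩
  · rw [h1, zero_mul]; exact zero_le
  rcases BX_cases (π := π) η δ b d (3 * d + 1) y with h2 | ⟨h2, h2'⟩
  · rw [h2, mul_zero]; exact zero_le
  have hall : ∀ p, p < 3 * d + 1 → y (b + p) ∈ bx η δ (bl π p) := by
    intro p hp
    by_cases hpd : p < d
    · have := h1 (b + p) (by omega) (by omega)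
      rwa [Nat.add_sub_cancel_left] at this
    · have := h2 (b + p) (by omega) (by omega)
      rwa [Nat.add_sub_cancel_left] at this
  have hE : E π {b + d} b (b + (2 * d + 1)) y = 1 := by
    unfold E
    rw [if_pos]
    intro j hj1 hj2
    rw [Set.mem_singleton_iff]
    apply block_occ hd h0 _ hj1 hj2
    intro p q hp hq hpq
    exact bx_lt hδ hpq (hall p hp) (hall q hq)
  have hN : NI d η (b + (2 * d + 1)) y = 1 := by
    unfold NI
    rw [if_pos]
    intro i hi1 hi2
    have := hall (i - b) (by omega)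
    have e3 : b + (i - b) = i := by omega
    rw [e3] at this
    exact bx_nice hδ hV (bl_lt hd _ (by omega)) this
  rw [hE, hN, one_mul, h1', h2', one_mul]

/-- From a window away from 0 and 1 one reaches every window away from 0 and 1 with exactly one
occurrence of the pattern on the way. -/
lemma ins_mid (hd : 2 ≤ d) (h0 : π (Fin.last d) ≠ 0) {η : ℝ} (hη : 0 < η) (hη1 : η < 1 / 2) :
    ∃ (q r : ℕ) (C : ℝ≥0∞), q < r ∧ C ≠ 0 ∧ C ≤ 1 ∧ ∀ (t : ℕ) (f : Sq → ℝ≥0∞), Measurable f →
      Dep f {i | t + r ≤ i ∧ i < t + r + d} → ∀ y,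
        C * (NI d η t y * Lam d η (t + r) f 0) ≤ T π {t + q} t (t + r) f y := by
  obtain ⟨Z, C, hC, hC', hin⟩ := inner hd h0 hη hη1
  set δ : ℝ := (1 - 2 * η) / (4 * d + 2 : ℕ) with hδdef
  have hVpos : (0 : ℝ) < (4 * d + 2 : ℕ) := by positivity
  have hδ : 0 < δ := div_pos (by linarith) hVpos
  have hV : δ * (4 * d + 2 : ℕ) ≤ 1 - 2 * η := by
    rw [hδdef, div_mul_cancel₀ _ hVpos.ne']
  have hδ1 : δ ≤ 1 := by
    have : (1 : ℝ) ≤ (4 * d + 2 : ℕ) := by exact_mod_cast (by omega : 1 ≤ 4 * d + 2)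
    rw [hδdef, div_le_one hVpos]
    linarith
  set c := ENNReal.ofReal (δ / 4) with hc
  have hc0 : c ≠ 0 := by
    rw [hc, Ne, ENNReal.ofReal_eq_zero, not_le]; positivity
  have hc1 : c ≤ 1 := by rw [hc, ENNReal.ofReal_le_one]; linarith
  refine ⟨d + Z + d, d + Z + (2 * d + 1) + (d + Z), C * (c ^ (2 * d + 1) * (C * c ^ d)),
    by omega, ?_, ?_, ?_⟩
  · exact mul_ne_zero hC (mul_ne_zero (pow_ne_zero _ hc0) (mul_ne_zero hC (pow_ne_zero _ hc0)))
  · calc _ ≤ (1 : ℝ≥0∞) * (1 * (1 * 1)) := by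
          gcongr
          · exact pow_le_one' hc1 _
          · exact pow_le_one' hc1 _
      _ = 1 := by simp
  intro t f hf hfd y
  set b := t + d + Z with hb
  set b' := b + (2 * d + 1) with hb'
  have hr : t + (d + Z + (2 * d + 1) + (d + Z)) = b' + d + Z := by omega
  have hq : t + (d + Z + d) = b + d := by omega
  rw [hr] at hfd ⊢
  rw [hq]
  set r := b' + d + Z with hrdef
  -- constancy of the functional
  have hconst : ∀ x, Lam d η r f x = Lam d η r f 0 := by
    intro x
    unfold Lam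
    apply In_dep (A := {i | r ≤ i ∧ i < r + d})
    · exact Dep.mul (NI_dep η _) hfd
    · intro i hi
      simp only [Set.mem_ofPred_eq, Finset.mem_Ico] at hi
      omega
  set L := Lam d η r f 0 with hL
  -- splitting
  have s1 : T π {b + d} t r f = T π ∅ t b (T π {b + d} b r f) := by
    rw [T_split π {b + d} (t := b) (by omega) (by omega) hf]
    apply T_congr
    intro j h1 h2
    simp only [Set.mem_singleton_iff, Set.mem_empty_iff_false, iff_false]
    omega
  have s2 : T π {b + d} b r f = T π {b + d} b b' (T π ∅ b' r f) := by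
    rw [T_split π {b + d} (t := b') (by omega) (by omega) hf]
    congr 1
    apply T_congr
    intro j h1 h2
    simp only [Set.mem_singleton_iff, Set.mem_empty_iff_false, iff_false]
    omega
  have m1 : ∀ z, (C * L) * NI d η b' z ≤ T π ∅ b' r f z := by
    intro z
    have := hin b' f hf (hfd.mono (fun i hi => hi.1)) z
    rw [← hrdef, hconst] at this
    calc _ = C * (NI d η b' z * L) := by ring
      _ ≤ _ := this
  have m2 : ∀ z, (C * L) * (c ^ (2 * d + 1) * BX π η δ b 0 d z) ≤ T π {b + d} b r f z := by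
    intro z
    rw [s2]
    calc (C * L) * (c ^ (2 * d + 1) * BX π η δ b 0 d z)
        ≤ (C * L) * T π {b + d} b b' (NI d η b') z := by
          gcongr
          exact block_T hd h0 hη hδ hV b z
      _ = T π {b + d} b b' (fun w => (C * L) * NI d η b' w) z := by
          rw [T_const_mul π _ _ _ (measurable_NI _ _)]
      _ ≤ _ := T_mono π _ _ _ m1 z
  rw [s1]
  have hBXm : Measurable (BX π η δ b 0 d) := measurable_BX _ _ _ _ _
  have hBXd : Dep (BX π η δ b 0 d) {i | b ≤ i} := by
    apply (BX_dep η δ b 0 d).mono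
    intro i hi
    simp only [Set.mem_ofPred_eq] at hi ⊢
    omega
  have hLB : Lam d η b (BX π η δ b 0 d) y = c ^ d := by
    unfold Lam
    have e1 : (fun x => NI d η b x * BX π η δ b 0 d x) = BX π η δ b 0 d := by
      funext x
      rcases BX_cases (π := π) η δ b 0 d x with h1 | ⟨h1, h1'⟩
      · rw [h1, mul_zero]
      · rw [h1', mul_one]
        unfold NI
        rw [if_pos]
        intro i hi1 hi2
        have := h1 i (by omega) (by omega)
        exact bx_nice hδ hV (bl_lt hd _ (by omega)) this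
    rw [e1]
    have := In_BX (π := π) hη hδ hd hV b 0 d (by omega) y
    rw [add_zero, Nat.sub_zero] at this
    exact this
  calc C * (c ^ (2 * d + 1) * (C * c ^ d)) * (NI d η t y * L)
      = (C * L * c ^ (2 * d + 1)) * (C * (NI d η t y * Lam d η b (BX π η δ b 0 d) y)) := by
        rw [hLB]; ring
    _ ≤ (C * L * c ^ (2 * d + 1)) * T π ∅ t b (BX π η δ b 0 d) y := by
        gcongr
        exact hin t _ hBXm hBXd y
    _ = T π ∅ t b (fun z => (C * L * c ^ (2 * d + 1)) * BX π η δ b 0 d z) y := by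
        rw [T_const_mul π _ _ _ hBXm]
    _ ≤ _ := by
        apply T_mono
        intro z
        calc _ = (C * L) * (c ^ (2 * d + 1) * BX π η δ b 0 d z) := by ring
          _ ≤ _ := m2 z

/-- The lower bound for the insertion of an occurrence. -/
lemma ins_lower (hd : 2 ≤ d) (h0 : π (Fin.last d) ≠ 0) :
    ∃ (q r : ℕ) (C : ℝ≥0∞), q < r ∧ C ≠ 0 ∧ C ≤ 1 ∧ ∀ (s n : ℕ), s + r ≤ n → ∀ x,
      C * G π s n x ≤ T π {s + q} s n (fun _ => 1) x := by
  obtain ⟨η₀, C₀, hη₀, hη₀', hC₀, hC₀', hr⟩ := reach hd h0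
  obtain ⟨η, hη, hη', hf⟩ := first_nice hd h0 hη₀ hη₀'
  obtain ⟨q, r, C, hqr, hC, hC', hm⟩ := ins_mid hd h0 hη (by linarith)
  have hCt : C ≠ ⊤ := (hC'.trans_lt ENNReal.one_lt_top).ne
  refine ⟨2 + d + q, 2 + d + r + (d + (2 + d)), C₀ * C / 2, by omega, ?_, ?_, ?_⟩
  · exact (ENNReal.div_pos (mul_ne_zero hC₀ hC) (by norm_num)).ne'
  · calc C₀ * C / 2 ≤ 1 * 1 / 2 := by gcongr
      _ ≤ 1 := by
        rw [one_mul]
        exact ENNReal.div_le_of_le_mul (by norm_num)
  intro s n hn x
  set t := s + 2 + d with ht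
  have e0 : s + (2 + d + q) = t + q := by omega
  rw [e0]
  have s1 : T π {t + q} s n (fun _ => 1) = T π ∅ s t (T π {t + q} t (t + r) (G π (t + r) n)) := by
    rw [T_split π {t + q} (t := t) (by omega) (by omega) measurable_const]
    rw [T_split π {t + q} (s := t) (t := t + r) (by omega) (by omega) measurable_const]
    have e2 : T π {t + q} (t + r) n (fun _ => 1) = G π (t + r) n := by
      unfold G
      apply T_congr
      intro j h1 h2
      simp only [Set.mem_singleton_iff, Set.mem_empty_iff_false, iff_false]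
      omega
    rw [e2]
    apply T_congr
    intro j h1 h2
    simp only [Set.mem_singleton_iff, Set.mem_empty_iff_false, iff_false]
    omega
  rw [s1]
  set L := Lam d η (t + r) (G π (t + r) n) 0 with hL
  have m1 : ∀ y, (C * L) * NI d η t y ≤ T π {t + q} t (t + r) (G π (t + r) n) y := by
    intro y
    have := hm t (G π (t + r) n) (measurable_G _ _) (G_dep _ _) y
    calc _ = C * (NI d η t y * L) := by ring
      _ ≤ _ := this
  have h2 : G π s n x ≤ T π ∅ s (s + 2) (fun _ => 1) x * Pr π ∅ t n := by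
    unfold G
    rw [T_split π ∅ (t := s + 2) (by omega) (by omega) measurable_const]
    calc _ ≤ T π ∅ s (s + 2) (fun _ => Pr π ∅ t n * 1) x := by
          apply T_mono
          intro y
          rw [mul_one]
          exact T_le_Pr y
      _ = _ := by rw [T_const_mul π ∅ _ _ measurable_const, mul_comm]
  have h3 : Pr π ∅ t n ≤ 2 * L :=
    (Pr_anti (by omega) (by omega)).trans (hf (t + r) n (by omega))
  calc C₀ * C / 2 * G π s n x
      ≤ C₀ * C / 2 * (T π ∅ s (s + 2) (fun _ => 1) x * (2 * L)) := by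
        gcongr
        exact h2.trans (by gcongr)
    _ = (C * L) * (C₀ * T π ∅ s (s + 2) (fun _ => 1) x) * (2 / 2) := by
        simp only [div_eq_mul_inv]; ring
    _ = (C * L) * (C₀ * T π ∅ s (s + 2) (fun _ => 1) x) := by
        rw [ENNReal.div_self (by norm_num) (by norm_num), mul_one]
    _ ≤ (C * L) * T π ∅ s t (NI d η t) x := by
        gcongr
        exact (hr s x).trans (T_mono π ∅ _ _ (fun y => NI_mono hη' _ y) x)
    _ = T π ∅ s t (fun y => (C * L) * NI d η t y) x := by
        rw [T_const_mul π ∅ _ _ (measurable_NI _ _)]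
    _ ≤ _ := T_mono π ∅ _ _ m1 x

end

end Q165.CP
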