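import Pool.Agent.Q165.CPIns2

/-!
Inserting one more occurrence of the pattern: the quotient is almost independent of the earlier
occurrences.
-/

open MeasureTheory Set Function
open scoped ENNReal

namespace Q165.CP

noncomputable section

variable {d : ℕ} {π : Equiv.Perm (Fin (d + 1))}

/-- The upper bound for the insertion of an occurrence. -/
lemma T_single_le {s M n : ℕ} (hM : 2 + d + d ≤ M) (hd : 2 ≤ d) (hn : s + M ≤ n) (x : Sq) :
    T π {s + M - 1} s n (fun _ => 1) x ≤
      T π ∅ s (s + 2) (fun _ => 1) x * Pr π ∅ (s + M) n := by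
  have s1 : T π {s + M - 1} s n (fun _ => 1) =
      T π ∅ s (s + 2) (T π {s + M - 1} (s + 2) n (fun _ => 1)) := by
    rw [T_split π {s + M - 1} (t := s + 2) (by omega) (by omega) measurable_const]
    apply T_congr
    intro j h1 h2
    simp only [Set.mem_singleton_iff, Set.mem_empty_iff_false, iff_false]
    omega
  have hE : ∀ y, E π {s + M - 1} (s + M) n y = E π ∅ (s + M) n y := by
    intro y
    apply E_congr
    intro j h1 h2
    simp only [Set.mem_singleton_iff, Set.mem_empty_iff_false, iff_false]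
    omega
  have h2 : ∀ y, T π {s + M - 1} (s + 2) n (fun _ => 1) y ≤ Pr π ∅ (s + M) n * 1 := by
    intro y
    rw [mul_one]
    unfold T
    calc In (Finset.Ico (s + 2 + d) (n + d)) (fun x => E π {s + M - 1} (s + 2) n x * 1) y
        ≤ In (Finset.Ico (s + 2 + d) (n + d)) (E π ∅ (s + M) n) y := by
          apply In_mono
          intro z
          rw [mul_one, ← hE]
          exact E_anti π _ (by omega) le_rfl z
      _ = Pr π ∅ (s + M) n := by
          rw [In_Ico' (measurable_E π ∅ (s + M) n) (b := s + M) (by omega) (by omega)]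
          have e : In (Finset.Ico (s + 2 + d) (s + M)) (E π ∅ (s + M) n) = E π ∅ (s + M) n := by
            funext z
            apply In_of_dep
            apply (E_dep π ∅ (s + M) n).mono
            intro i hi
            simp only [Set.mem_ofPred_eq, Finset.mem_Ico] at hi ⊢
            omega
          rw [e]
          exact Pr_eq π ∅ (s + M) n y
  rw [s1]
  calc _ ≤ T π ∅ s (s + 2) (fun _ => Pr π ∅ (s + M) n * 1) x := T_mono π ∅ _ _ h2 x
    _ = _ := by rw [T_const_mul π ∅ _ _ measurable_const, mul_comm]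

lemma pow_div_bound {κ : ℝ} {M : ℕ} (hκ : 0 < κ) (hκ1 : κ ≤ 1) (hM : 2 ≤ M) (N : ℕ) :
    (1 - κ) ^ (N / M) ≤ ((1 - κ / M) ^ M)⁻¹ * (1 - κ / M) ^ N := by
  have hM0 : (2 : ℝ) ≤ M := by exact_mod_cast hM
  have hκM : κ / M ≤ 1 / 2 := by
    rw [div_le_div_iff₀ (by linarith) (by norm_num)]
    linarith
  have hκM0 : 0 < κ / M := by positivity
  set θ : ℝ := 1 - κ / M with hθ
  have hθ0 : 0 < θ := by rw [hθ]; linarith
  have hθ1 : θ < 1 := by rw [hθ]; linarith
  have hθM : 1 - κ ≤ θ ^ M := by
    have := one_add_mul_le_pow (a := -(κ / M)) (by linarith) M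
    have e1 : (1 : ℝ) + M * -(κ / M) = 1 - κ := by field_simp; ring
    have e2 : (1 : ℝ) + -(κ / M) = θ := by rw [hθ]; ring
    rwa [e1, e2] at this
  have hdm := Nat.div_add_mod N M
  have hmod := Nat.mod_lt N (by omega : M > 0)
  calc (1 - κ) ^ (N / M) ≤ (θ ^ M) ^ (N / M) := pow_le_pow_left₀ (by linarith) hθM _
    _ = θ ^ (M * (N / M)) := (pow_mul _ _ _).symm
    _ ≤ (θ ^ M)⁻¹ * θ ^ N := by
        rw [← div_eq_inv_mul, le_div_iff₀ (by positivity), ← pow_add]
        exact pow_le_pow_of_le_one hθ0.le hθ1.le (by omega)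

/-- The quotients of the probabilities with and without an additional occurrence. -/
theorem ins_phi (hd : 2 ≤ d) (h0 : π (Fin.last d) ≠ 0) :
    ∃ (A : ℕ) (L K θ c l : ℝ), 0 ≤ L ∧ 0 ≤ K ∧ 0 < θ ∧ θ < 1 ∧ 0 < c ∧ 0 < l ∧
      (∀ s i n, s + A ≤ i → i + A ≤ n → ∃ a b : ℝ, 0 ≤ a ∧ a ≤ b ∧ b ≤ L ∧
        b - a ≤ K * θ ^ (i - s) ∧ ∀ P : Set ℕ, (∀ j ∈ P, j < s) →
          a * phi π P n ≤ phi π (insert i P) n ∧ phi π (insert i P) n ≤ b * phi π P n) ∧
      (∀ i n, A ≤ i → i + A ≤ n → c * phi π ∅ n ≤ phi π {i} n) ∧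
      (∀ m n, m + A ≤ n → ∃ a b : ℝ, 0 ≤ a ∧ a ≤ b ∧ l ≤ b ∧ b - a ≤ K * θ ^ (n - m) ∧
        ∀ P : Set ℕ, (∀ j ∈ P, j < m) →
          a * phi π P n ≤ phi π P (n + 1) ∧ phi π P (n + 1) ≤ b * phi π P n) := by
  obtain ⟨M, κ, η, hM, hκ, hκ1, hη, c1, c2, c3, c4⟩ := core hd h0
  have hc : Contr π M κ := contract h0 hκ hκ1 c1 c2 c4
  obtain ⟨l, hl0, hl1, hl⟩ := ratio hd h0
  have hlt : l ≠ ⊤ := (hl1.trans_lt ENNReal.one_lt_top).ne
  obtain ⟨q, r, C, hqr, hC, hC', hlow⟩ := ins_lower hd h0
  have hCt : C ≠ ⊤ := (hC'.trans_lt ENNReal.one_lt_top).ne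
  have hM2 : 2 ≤ M := by omega
  have hM0 : (2 : ℝ) ≤ M := by exact_mod_cast hM2
  have hκM : κ / M ≤ 1 / 2 := by
    rw [div_le_div_iff₀ (by linarith) (by norm_num)]
    linarith
  have hκM0 : 0 < κ / M := by positivity
  set θ : ℝ := 1 - κ / M with hθ
  have hθ0 : 0 < θ := by rw [hθ]; linarith
  have hθ1 : θ < 1 := by rw [hθ]; linarith
  set K : ℝ := (θ ^ M)⁻¹ * (2 / κ + 1) * (θ ^ (M + (2 * d + 2)))⁻¹ with hK
  have hpw : ∀ N N' : ℕ, N' ≤ N + (M + (2 * d + 2)) →
      (1 - κ) ^ (N / M) * (2 / κ + 1) ≤ K * θ ^ N' := by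
    intro N N' hN
    have h1 := pow_div_bound hκ hκ1 hM2 N
    rw [← hθ] at h1
    have h2 : θ ^ N ≤ (θ ^ (M + (2 * d + 2)))⁻¹ * θ ^ N' := by
      rw [← div_eq_inv_mul, le_div_iff₀ (by positivity), ← pow_add]
      exact pow_le_pow_of_le_one hθ0.le hθ1.le hN
    calc (1 - κ) ^ (N / M) * (2 / κ + 1) ≤ ((θ ^ M)⁻¹ * θ ^ N) * (2 / κ + 1) := by
          apply mul_le_mul_of_nonneg_right h1; positivity
      _ ≤ ((θ ^ M)⁻¹ * ((θ ^ (M + (2 * d + 2)))⁻¹ * θ ^ N')) * (2 / κ + 1) := by
          gcongr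
      _ = K * θ ^ N' := by rw [hK]; ring
  refine ⟨M + r + (2 * d + 3), 2 / κ, K, θ, C.toReal, l.toReal, by positivity, by positivity, hθ0,
    hθ1, ENNReal.toReal_pos hC hCt, ENNReal.toReal_pos hl0 hlt, ?_, ?_, ?_⟩
  · -- insertion
    intro s i n hsi hin
    obtain ⟨s', hs'⟩ : ∃ s', i = s' + M - 1 := ⟨i + 1 - M, by omega⟩
    -- the bound at the window s'
    set h : Sq → ℝ≥0∞ := T π {i} s' n (fun _ => 1) with hh
    have hhm : Measurable h := measurable_T π _ _ _ measurable_const
    have hhd : Dep h {j | s' ≤ j ∧ j < s' + d} := by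
      have := T_dep π {i} s' n (m := 0) (f := fun _ => 1) (Dep_const 1 _)
      apply Dep.mono this
      intro j hj
      simp only [Set.mem_ofPred_eq, Finset.mem_Ico] at hj ⊢
      omega
    have hup : ∀ x, h x ≤ ENNReal.ofReal (2 / κ) * G π s' n x := by
      intro x
      have h1 : h x ≤ T π ∅ s' (s' + 2) (fun _ => 1) x * Pr π ∅ (s' + M) n := by
        rw [hh, hs']
        exact T_single_le hM hd (by omega) x
      have h2 := c1 (s' + M) n (by omega)
      have h3 := c3 s' (G π (s' + M) n) (measurable_G _ _) (G_dep _ _) x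
      rw [T_G (by omega) (by omega)] at h3
      have e1 : ENNReal.ofReal (2 / κ) = 2 * (ENNReal.ofReal κ)⁻¹ := by
        rw [div_eq_mul_inv, ENNReal.ofReal_mul (by norm_num), ENNReal.ofReal_inv_of_pos hκ]
        simp
      have hκ0 : ENNReal.ofReal κ ≠ 0 := by
        rw [Ne, ENNReal.ofReal_eq_zero, not_le]; exact hκ
      calc h x ≤ T π ∅ s' (s' + 2) (fun _ => 1) x *
            (2 * Lam d η (s' + M) (G π (s' + M) n) 0) := h1.trans (by gcongr)
        _ = 2 * ((ENNReal.ofReal κ)⁻¹ * ENNReal.ofReal κ) * (T π ∅ s' (s' + 2) (fun _ => 1) x *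
            Lam d η (s' + M) (G π (s' + M) n) 0) := by
            rw [ENNReal.inv_mul_cancel hκ0 ENNReal.ofReal_ne_top]; ring
        _ = 2 * (ENNReal.ofReal κ)⁻¹ * (ENNReal.ofReal κ * T π ∅ s' (s' + 2) (fun _ => 1) x *
            Lam d η (s' + M) (G π (s' + M) n) 0) := by ring
        _ ≤ 2 * (ENNReal.ofReal κ)⁻¹ * G π s' n x := by gcongr
        _ = _ := by rw [e1]
    have hdm := Nat.div_add_mod (s' - s) M
    obtain ⟨a, b, g1, g2, g3, g4, g5, g6⟩ := contract_iter hκ1 hc ((s' - s) / M) s s' n h 0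
      (2 / κ) (by
        have : (s' - s) / M * M = M * ((s' - s) / M) := Nat.mul_comm _ _
        omega) (by omega) hhm hhd le_rfl (by positivity) (by intro x; simp) hup
    refine ⟨a, b, g1, g2, g3, ?_, ?_⟩
    · rw [sub_zero] at g4
      refine g4.trans ?_
      refine le_trans ?_ (hpw (s' - s) (i - s) (by omega))
      apply mul_le_mul_of_nonneg_left (by linarith)
      apply pow_nonneg; linarith
    · intro P hP
      have hsplit : T π ∅ s s' h = T π (insert i P) s n (fun _ => 1) := by
        rw [hh, T_split π (insert i P) (t := s') (by omega) (by omega) measurable_const]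
        have e1 : T π (insert i P) s' n (fun _ => 1) = T π {i} s' n (fun _ => 1) := by
          apply T_congr
          intro j h1 h2
          rw [Set.mem_insert_iff, Set.mem_singleton_iff]
          constructor
          · rintro (h3 | h3)
            · exact h3
            · have := hP j h3; omega
          · intro h3; exact Or.inl h3
        rw [e1]
        apply T_congr
        intro j h1 h2
        simp only [Set.mem_empty_iff_false, false_iff, Set.mem_insert_iff, not_or]
        refine ⟨by omega, fun h3 => ?_⟩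
        have := hP j h3; omega
      have hE : ∀ x, E π (insert i P) 0 s x = E π P 0 s x := by
        intro x
        apply E_congr
        intro j h1 h2
        rw [Set.mem_insert_iff]
        constructor
        · rintro (h3 | h3)
          · omega
          · exact h3
        · intro h3; exact Or.inr h3
      have e1 : Pr π (insert i P) 0 n =
          In (Finset.Ico 0 (s + d)) (fun x => E π P 0 s x * T π ∅ s s' h x) 0 := by
        rw [Pr_split π (insert i P) (s := 0) (m := s) (n := n) (by omega) (by omega), hsplit]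
        simp_rw [hE]
      have hm : Measurable fun x => E π P 0 s x * G π s n x :=
        (measurable_E π P 0 s).fun_mul (measurable_G s n)
      have e2 : Pr π P 0 n = In (Finset.Ico 0 (s + d)) (fun x => E π P 0 s x * G π s n x) 0 :=
        Pr_as_G hP (by omega)
      have k1 : ENNReal.ofReal a * Pr π P 0 n ≤ Pr π (insert i P) 0 n := by
        rw [e1, e2, ← In_const_mul hm]
        apply In_mono
        intro x
        calc _ = E π P 0 s x * (ENNReal.ofReal a * G π s n x) := by ring
          _ ≤ _ := by gcongr; exact g5 x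
      have k2 : Pr π (insert i P) 0 n ≤ ENNReal.ofReal b * Pr π P 0 n := by
        rw [e1, e2, ← In_const_mul hm]
        apply In_mono
        intro x
        calc _ ≤ E π P 0 s x * (ENNReal.ofReal b * G π s n x) := by gcongr; exact g6 x
          _ = _ := by ring
      constructor
      · have := ENNReal.toReal_mono (Pr_ne_top (insert i P) 0 n) k1
        rwa [ENNReal.toReal_mul, ENNReal.toReal_ofReal g1] at this
      · have := ENNReal.toReal_mono (ENNReal.mul_ne_top ENNReal.ofReal_ne_top (Pr_ne_top P 0 n)) k2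
        rwa [ENNReal.toReal_mul, ENNReal.toReal_ofReal (by linarith)] at this
  · -- the lower bound
    intro i n hi hin
    obtain ⟨s, rfl⟩ : ∃ s, i = s + q := ⟨i - q, by omega⟩
    have h1 := hlow s n (by omega)
    have e2 : Pr π ∅ 0 n = In (Finset.Ico 0 (s + d)) (fun x => E π ∅ 0 s x * G π s n x) 0 :=
      Pr_as_G (by simp) (by omega)
    have hE : ∀ x, E π {s + q} 0 s x = E π ∅ 0 s x := by
      intro x
      apply E_congr
      intro j h1 h2
      simp only [Set.mem_singleton_iff, Set.mem_empty_iff_false, iff_false]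
      omega
    have e1 : Pr π {s + q} 0 n = In (Finset.Ico 0 (s + d))
        (fun x => E π ∅ 0 s x * T π {s + q} s n (fun _ => 1) x) 0 := by
      rw [Pr_split π {s + q} (s := 0) (m := s) (n := n) (by omega) (by omega)]
      simp_rw [hE]
    have hm : Measurable fun x => E π ∅ 0 s x * G π s n x :=
      (measurable_E π ∅ 0 s).fun_mul (measurable_G s n)
    have k1 : C * Pr π ∅ 0 n ≤ Pr π {s + q} 0 n := by
      rw [e1, e2, ← In_const_mul hm]
      apply In_mono
      intro x
      calc _ = E π ∅ 0 s x * (C * G π s n x) := by ring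
        _ ≤ _ := by gcongr; exact h1 x
    have := ENNReal.toReal_mono (Pr_ne_top {s + q} 0 n) k1
    rwa [ENNReal.toReal_mul] at this
  · -- growth
    intro m n hmn
    have hdm := Nat.div_add_mod (n - m - (2 * d + 2)) M
    have hmod := Nat.mod_lt (n - m - (2 * d + 2)) (by omega : M > 0)
    obtain ⟨ρ, hρ⟩ : ∃ ρ, n = ρ + d + (2 + d) := ⟨n - (d + (2 + d)), by omega⟩
    obtain ⟨a, b, g1, g2, g3, g4, g5, g6⟩ := contract_iter hκ1 hc ((n - m - (2 * d + 2)) / M) m ρ n
      (G π ρ (n + 1)) 0 1 (by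
        have : (n - m - (2 * d + 2)) / M * M = M * ((n - m - (2 * d + 2)) / M) := Nat.mul_comm _ _
        omega) (by omega) (measurable_G _ _) (G_dep _ _) le_rfl
      zero_le_one (by intro x; simp) (by
        intro x; rw [ENNReal.ofReal_one, one_mul]; exact G_anti _ (by omega) (by omega) x)
    rw [T_G (by omega) (by omega)] at g5 g6
    refine ⟨a, b, g1, g2, ?_, ?_, ?_⟩
    · have h7 := (phi_bounds (P := ∅) (by simp) (by omega : m ≤ n) g1 (by linarith) g5 g6).2
      have h8 : l.toReal * phi π ∅ n ≤ phi π ∅ (n + 1) := by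
        have := ENNReal.toReal_mono (Pr_ne_top ∅ 0 (n + 1)) (hl 0 n (by omega))
        rwa [ENNReal.toReal_mul] at this
      exact le_of_mul_le_mul_right (h8.trans h7) (phi_empty_pos h0 n)
    · rw [sub_zero, mul_one] at g4
      refine g4.trans ?_
      refine le_trans ?_ (hpw (n - m - (2 * d + 2)) (n - m) (by omega))
      have h9 : 0 ≤ (1 - κ) ^ ((n - m - (2 * d + 2)) / M) := pow_nonneg (by linarith) _
      have h10 : 0 ≤ 2 / κ := by positivity
      nlinarith
    · intro P hP
      exact phi_bounds hP (by omega) g1 (by linarith) g5 g6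

end

end Q165.CP
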