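import Pool.Agent.Q165.CPMid

/-!
The lower bound for the transfer operator, and the bounded ratio of consecutive counts.
-/

open MeasureTheory Set Function
open scoped ENNReal

namespace Q165.CP

noncomputable section

variable {d : ℕ} (π : Equiv.Perm (Fin (d + 1)))

open Classical in
/-- The indicator of: the window at `t` is away from 0 and 1. -/
def NI (d : ℕ) (η : ℝ) (t : ℕ) (x : Sq) : ℝ≥0∞ := if Nice η t (t + d) x then 1 else 0

lemma measurable_NI (η : ℝ) (t : ℕ) : Measurable (NI d η t) :=
  Measurable.ite (measurableSet_Nice η _ _) measurable_const measurable_const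

lemma NI_dep (η : ℝ) (t : ℕ) : Dep (NI d η t) {i | t ≤ i ∧ i < t + d} := by
  intro x y hxy
  unfold NI Nice
  congr 1
  apply propext
  refine forall_congr' fun i => forall_congr' fun h1 => forall_congr' fun h2 => ?_
  rw [hxy i ⟨h1, h2⟩]

lemma NI_mono {η η' : ℝ} (h : η' ≤ η) (t : ℕ) (x : Sq) : NI d η t x ≤ NI d η' t x := by
  unfold NI
  by_cases h1 : Nice η t (t + d) x
  · rw [if_pos h1, if_pos]
    intro i hi hi'
    have := h1 i hi hi'
    constructor <;> linarith
  · rw [if_neg h1]; exact zero_le

variable {π}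

/-- From every window one reaches a window away from 0 and 1. -/
lemma reach (hd : 2 ≤ d) (h0 : π (Fin.last d) ≠ 0) :
    ∃ (η : ℝ) (C : ℝ≥0∞), 0 < η ∧ η < 1 / 2 ∧ C ≠ 0 ∧ C ≤ 1 ∧ ∀ (s : ℕ) (x : Sq),
      C * T π ∅ s (s + 2) (fun _ => 1) x ≤ T π ∅ s (s + 2 + d) (NI d η (s + 2 + d)) x := by
  obtain ⟨C, hC⟩ := path π (by omega : 1 ≤ d) (z := 1 / 16) (by norm_num) d
  obtain ⟨hC0, hC1, hC⟩ := hC (by norm_num)
  have hη : (0 : ℝ) < 1 / 16 / 4 ^ d := by positivity
  refine ⟨1 / 16 / 4 ^ d, C * ENNReal.ofReal (1 / 8), hη, ?_, ?_, ?_, fun s x => ?_⟩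
  · calc (1 : ℝ) / 16 / 4 ^ d ≤ 1 / 16 := div_le_self (by norm_num) (one_le_pow₀ (by norm_num))
      _ < 1 / 2 := by norm_num
  · apply mul_ne_zero hC0
    rw [Ne, ENNReal.ofReal_eq_zero, not_le]; norm_num
  · calc _ ≤ (1 : ℝ≥0∞) * 1 := by
          gcongr
          rw [ENNReal.ofReal_le_one]; norm_num
      _ = 1 := one_mul 1
  · rw [T_split π ∅ (t := s + 2) (by omega) (by omega) (measurable_NI _ _)]
    calc _ = C * (ENNReal.ofReal (1 / 8) * T π ∅ s (s + 2) (fun _ => 1) x) := by ring
      _ ≤ C * T π ∅ s (s + 2) (g π (s + 2)) x := by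
          gcongr; exact two_steps hd h0 s x
      _ = T π ∅ s (s + 2) (fun y => C * g π (s + 2) y) x := by
          rw [T_const_mul π ∅ _ _ (measurable_g π _)]
      _ ≤ _ := by
          apply T_mono
          intro y
          unfold g
          split_ifs with h
          · rw [mul_one]
            refine (hC (s + 2) y h).trans ?_
            apply T_mono
            intro z
            unfold st NI
            split_ifs with h1 h2 h2
            · exact le_rfl
            · exact absurd h1.1 h2
            · exact zero_le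
            · exact le_rfl
          · rw [mul_zero]; exact zero_le

variable (π)

/-- The functional of the window at `t`. -/
def Lam (d : ℕ) (η : ℝ) (t : ℕ) (f : Sq → ℝ≥0∞) : Sq → ℝ≥0∞ :=
  In (Finset.Ico t (t + d)) (fun x => NI d η t x * f x)

variable {π}

/-- The lower bound for the transfer operator. -/
lemma lower (hd : 2 ≤ d) (h0 : π (Fin.last d) ≠ 0) :
    ∃ (η₀ : ℝ), 0 < η₀ ∧ η₀ < 1 / 2 ∧ ∀ η, 0 < η → η ≤ η₀ → ∃ (M : ℕ) (C : ℝ≥0∞),
      2 + d + d ≤ M ∧ C ≠ 0 ∧ C ≤ 1 ∧ ∀ (s : ℕ) (f : Sq → ℝ≥0∞), Measurable f →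
        Dep f {i | s + M ≤ i} → ∀ x,
        C * T π ∅ s (s + 2) (fun _ => 1) x * Lam d η (s + M) f x ≤ T π ∅ s (s + M) f x := by
  obtain ⟨η₀, C₀, hη₀, hη₀', hC₀, hC₀', hr⟩ := reach hd h0
  refine ⟨η₀, hη₀, hη₀', fun η hη hη' => ?_⟩
  obtain ⟨Z, C₁, hC₁, hC₁', hm⟩ := mid π hd h0 hη (by linarith)
  refine ⟨2 + d + d + Z, C₀ * C₁, by omega, mul_ne_zero hC₀ hC₁, ?_, ?_⟩
  · calc _ ≤ (1 : ℝ≥0∞) * 1 := by gcongr
      _ = 1 := one_mul 1
  · intro s f hf hfd x
    have hM : s + (2 + d + d + Z) = s + 2 + d + d + Z := by ring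
    rw [hM] at hfd ⊢
    set t := s + 2 + d with ht
    rw [T_split π ∅ (t := t) (by omega) (by omega) hf]
    -- the inner estimate
    have hin : ∀ y, C₁ * (NI d η t y * Lam d η (t + d + Z) f y) ≤
        T π ∅ t (t + d + Z) f y := by
      intro y
      unfold T
      rw [In_Ico' ((measurable_E π ∅ _ _).fun_mul hf) (b := t + d + Z) (by omega) (by omega)]
      have e1 : ∀ w, In (Finset.Ico (t + d) (t + d + Z)) (fun x => E π ∅ t (t + d + Z) x * f x) w =
          In (Finset.Ico (t + d) (t + d + Z)) (E π ∅ t (t + d + Z)) w * f w := by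
        intro w
        apply In_mul'
        · apply hfd.mono
          intro i hi
          simp only [Set.mem_ofPred_eq, Finset.mem_Ico] at hi ⊢
          omega
        · exact measurable_E π ∅ _ _
      have e2 : C₁ * (NI d η t y * Lam d η (t + d + Z) f y) =
          In (Finset.Ico (t + d + Z) (t + d + Z + d))
            (fun w => (C₁ * NI d η t w) * (NI d η (t + d + Z) w * f w)) y := by
        rw [In_mul (h := fun w => C₁ * NI d η t w)]
        · unfold Lam; ring
        · apply Dep.mul (Dep_const _ _)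
          apply (NI_dep η t).mono
          intro i hi
          simp only [Set.mem_ofPred_eq, Finset.mem_Ico] at hi ⊢
          omega
        · exact (measurable_NI _ _).fun_mul hf
      rw [e2]
      apply In_mono
      intro w
      rw [e1]
      by_cases h1 : Nice η t (t + d) w
      · by_cases h2 : Nice η (t + d + Z) (t + d + Z + d) w
        · have := hm t w h1 h2
          unfold NI
          rw [if_pos h1, if_pos h2, mul_one, one_mul]
          gcongr
        · unfold NI
          rw [if_neg h2, zero_mul, mul_zero]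
          exact zero_le
      · unfold NI
        rw [if_neg h1, mul_zero, zero_mul]
        exact zero_le
    have hLd : Dep (Lam d η (t + d + Z) f) {i | t + d + Z + d ≤ i} := by
      unfold Lam
      apply (In_dep (A := {i | t + d + Z ≤ i}) _ _).mono
      · intro i hi
        simp only [Set.mem_ofPred_eq, Finset.mem_Ico] at hi ⊢
        omega
      · apply Dep.mul _ hfd
        apply (NI_dep η _).mono
        intro i hi
        simp only [Set.mem_ofPred_eq] at hi ⊢
        omega
    have hLm : Measurable (Lam d η (t + d + Z) f) := measurable_In ((measurable_NI _ _).fun_mul hf) _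
    calc C₀ * C₁ * T π ∅ s (s + 2) (fun _ => 1) x * Lam d η (t + d + Z) f x
        = C₁ * ((C₀ * T π ∅ s (s + 2) (fun _ => 1) x) * Lam d η (t + d + Z) f x) := by ring
      _ ≤ C₁ * (T π ∅ s t (NI d η₀ t) x * Lam d η (t + d + Z) f x) := by
          gcongr; exact hr s x
      _ ≤ C₁ * (T π ∅ s t (NI d η t) x * Lam d η (t + d + Z) f x) := by
          gcongr
          exact T_mono π ∅ _ _ (fun y => NI_mono hη' _ y) x
      _ = C₁ * T π ∅ s t (fun y => NI d η t y * Lam d η (t + d + Z) f y) x := by
          congr 1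
          unfold T
          rw [← In_mul' (s := Finset.Ico (s + d) (t + d)) (h := Lam d η (t + d + Z) f)]
          · congr 1
            funext y
            ring
          · apply hLd.mono
            intro i hi
            simp only [Set.mem_ofPred_eq, Finset.mem_Ico] at hi ⊢
            omega
          · exact (measurable_E π ∅ _ _).fun_mul (measurable_NI _ _)
      _ = T π ∅ s t (fun y => C₁ * (NI d η t y * Lam d η (t + d + Z) f y)) x := by
          rw [T_const_mul π ∅ _ _ ((measurable_NI _ _).fun_mul hLm)]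
      _ ≤ _ := T_mono π ∅ _ _ hin x

end

end Q165.CP
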