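import Pool.Agent.Q165.CPPerm
import Pool.Agent.Q165.CPDefs

/-!
The asymptotics of the numbers of permutations with prescribed positions of a consecutive pattern.
-/

open MeasureTheory Set Function Filter
open scoped ENNReal

namespace Q165.CP

noncomputable section

variable {d : ℕ} {π : Equiv.Perm (Fin (d + 1))}

/-- Occurrences in a permutation and in its real word. -/
lemma occursAt_iff {n : ℕ} (w : Equiv.Perm (Fin (n + d))) (j : ℕ) :
    OccursAt π w (j + 1) ↔ j < n ∧ occ π (sq w) j := by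
  unfold OccursAt occ sq
  constructor
  · rintro ⟨-, h2, h3⟩
    refine ⟨by omega, fun a b => ?_⟩
    have ha := a.2
    have hb := b.2
    rw [dif_pos (by omega : j + (a : ℕ) < n + d), dif_pos (by omega : j + (b : ℕ) < n + d),
      Nat.cast_lt, Fin.val_fin_lt]
    exact h3 a b (by omega) (by omega)
  · rintro ⟨h1, h2⟩
    refine ⟨by omega, by omega, fun a b ha hb => ?_⟩
    have h3 := h2 a b
    have ha' := a.2
    have hb' := b.2
    rw [dif_pos (by omega : j + (a : ℕ) < n + d), dif_pos (by omega : j + (b : ℕ) < n + d),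
      Nat.cast_lt, Fin.val_fin_lt] at h3
    exact h3

lemma count_eq_cnt {I : Finset ℕ} (h0 : 0 ∉ I) {n : ℕ} (hI : ∀ i ∈ I, i ≤ n) :
    count π I (n + d) = cnt π {j | j + 1 ∈ I} n := by
  classical
  unfold count cnt
  rw [Nat.card_eq_fintype_card, Fintype.card_subtype]
  congr 1
  ext w
  simp only [Finset.mem_filter, Finset.mem_univ, true_and, Set.mem_ofPred_eq]
  constructor
  · intro h j hj
    have := h (j + 1)
    rw [occursAt_iff] at this
    simp only [hj, true_and] at this
    exact this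
  · intro h i
    rcases Nat.eq_zero_or_pos i with hi | hi
    · subst hi
      constructor
      · intro h1; exact absurd h1.1 (by norm_num)
      · intro h1; exact absurd h1 h0
    · obtain ⟨j, rfl⟩ : ∃ j, i = j + 1 := ⟨i - 1, by omega⟩
      rw [occursAt_iff]
      constructor
      · rintro ⟨h1, h2⟩
        exact (h j h1).1 h2
      · intro h1
        have h2 := hI _ h1
        exact ⟨by omega, (h j (by omega)).2 h1⟩

lemma count_zero {k : ℕ} {π : Equiv.Perm (Fin k)} {I : Finset ℕ} (h0 : 0 ∈ I) (n : ℕ) :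
    count π I n = 0 := by
  unfold count
  rw [Nat.card_eq_zero]
  left
  constructor
  rintro ⟨w, hw⟩
  have := ((hw 0).2 h0).1
  omega

/-- The complement of a permutation. -/
def cpl {n : ℕ} (w : Equiv.Perm (Fin n)) : Equiv.Perm (Fin n) := w.trans Fin.revPerm

lemma cpl_apply {n : ℕ} (w : Equiv.Perm (Fin n)) (a : Fin n) : cpl w a = (w a).rev := rfl

lemma occursAt_cpl {k n : ℕ} (π : Equiv.Perm (Fin k)) (w : Equiv.Perm (Fin n)) (i : ℕ) :
    OccursAt (cpl π) (cpl w) i ↔ OccursAt π w i := by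
  unfold OccursAt
  simp only [cpl_apply, Fin.rev_lt_rev]
  constructor
  · rintro ⟨h1, h2, h3⟩
    exact ⟨h1, h2, fun a b ha hb => h3 b a hb ha⟩
  · rintro ⟨h1, h2, h3⟩
    exact ⟨h1, h2, fun a b ha hb => h3 b a hb ha⟩

lemma count_cpl {k : ℕ} (π : Equiv.Perm (Fin k)) (I : Finset ℕ) (n : ℕ) :
    count (cpl π) I n = count π I n := by
  unfold count
  apply Nat.card_congr
  refine Equiv.subtypeEquiv ⟨cpl, cpl, ?_, ?_⟩ ?_
  · intro w; ext a; simp [cpl]
  · intro w; ext a; simp [cpl]
  · intro w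
    refine forall_congr' fun i => ?_
    simp only [Equiv.coe_fn_mk]
    rw [← occursAt_cpl π (cpl w)]
    have : cpl (cpl w) = w := by ext a; simp [cpl]
    rw [this]

lemma phi_eq_count {I : Finset ℕ} (h0 : 0 ∉ I) {n : ℕ} (hI : ∀ i ∈ I, i ≤ n) :
    phi π {j | j + 1 ∈ I} n = (count π I (n + d) : ℝ) / (n + d).factorial := by
  rw [phi_eq, count_eq_cnt h0 hI]

lemma phi_eq_count_empty (n : ℕ) :
    phi π ∅ n = (count π ∅ (n + d) : ℝ) / (n + d).factorial := by
  have := phi_eq_count (π := π) (I := ∅) (by simp) (n := n) (by simp)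
  simpa using this

/-- The asymptotics for the patterns whose last entry is not the least one. -/
lemma main_aux (hd : 2 ≤ d) (hl : π (Fin.last d) ≠ 0) :
    ∃ θ : ℝ, 0 < θ ∧ θ < 1 ∧ ∀ I : Finset ℕ, ∃ c K : ℝ, 0 ≤ c ∧
      (∀ᶠ n in atTop, |(count π I n : ℝ) - c * count π ∅ n| ≤ K * θ ^ n * (c * count π ∅ n)) ∧
      ((∃ᶠ n in atTop, count π I n ≠ 0) → 0 < c) := by
  obtain ⟨θ, hθ0, hθ1, hθ⟩ := phi_asymp hd hl
  refine ⟨θ, hθ0, hθ1, fun I => ?_⟩
  by_cases h0 : 0 ∈ I
  · refine ⟨0, 0, le_rfl, ?_, ?_⟩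
    · filter_upwards with n
      simp [count_zero h0 n]
    · intro hf
      exfalso
      apply hf
      filter_upwards with n
      simp [count_zero h0 n]
  · obtain ⟨c, K, hc, ⟨n₁, hn₁⟩, hpos⟩ := hθ (I.sup id + 1) {j | j + 1 ∈ I} (by
      intro j hj
      have : j + 1 ≤ I.sup id := Finset.le_sup (f := id) hj
      omega)
    have hI : ∀ n, I.sup id ≤ n → ∀ i ∈ I, i ≤ n := by
      intro n hn i hi
      exact (Finset.le_sup (f := id) hi).trans hn
    refine ⟨c, K / θ ^ d, hc, ?_, ?_⟩
    · filter_upwards [eventually_ge_atTop (n₁ + I.sup id + d)] with N hN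
      obtain ⟨n, rfl⟩ : ∃ n, N = n + d := ⟨N - d, by omega⟩
      have h1 := hn₁ n (by omega)
      rw [phi_eq_count h0 (hI n (by omega)), phi_eq_count_empty] at h1
      have hf : (0 : ℝ) < (n + d).factorial := by positivity
      have e1 : (count π I (n + d) : ℝ) / (n + d).factorial -
          c * ((count π ∅ (n + d) : ℝ) / (n + d).factorial) =
          ((count π I (n + d) : ℝ) - c * count π ∅ (n + d)) / (n + d).factorial := by
        field_simp
      rw [e1, abs_div, abs_of_pos hf, div_le_iff₀ hf] at h1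
      calc _ ≤ K * θ ^ n * (c * ((count π ∅ (n + d) : ℝ) / (n + d).factorial)) *
            (n + d).factorial := h1
        _ = _ := by rw [pow_add]; field_simp
    · intro hf
      apply hpos
      have hf2 := hf.and_eventually (eventually_ge_atTop (I.sup id + d))
      rw [Filter.frequently_atTop] at hf2 ⊢
      intro a
      obtain ⟨N, hN1, hN2, hN3⟩ := hf2 (a + d)
      obtain ⟨n, rfl⟩ : ∃ n, N = n + d := ⟨N - d, by omega⟩
      refine ⟨n, by omega, ?_⟩
      rw [phi_eq_count h0 (hI n (by omega))]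
      have hf : (0 : ℝ) < (n + d).factorial := by positivity
      have h2 : (0 : ℝ) < count π I (n + d) := by exact_mod_cast Nat.pos_of_ne_zero hN2
      exact (div_pos h2 hf).ne'

/-- The asymptotics for all patterns of length at least three. -/
theorem main {k : ℕ} (hk : 3 ≤ k) (π : Equiv.Perm (Fin k)) :
    ∃ θ : ℝ, 0 < θ ∧ θ < 1 ∧ ∀ I : Finset ℕ, ∃ c K : ℝ, 0 ≤ c ∧
      (∀ᶠ n in atTop, |(count π I n : ℝ) - c * count π ∅ n| ≤ K * θ ^ n * (c * count π ∅ n)) ∧
      ((∃ᶠ n in atTop, count π I n ≠ 0) → 0 < c) := by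
  obtain ⟨d, rfl⟩ : ∃ d, k = d + 1 := ⟨k - 1, by omega⟩
  by_cases hl : π (Fin.last d) = 0
  · have h1 : cpl π (Fin.last d) ≠ 0 := by
      rw [cpl_apply, hl, Fin.rev_zero]
      intro h
      have := congrArg Fin.val h
      simp at this
      omega
    have := main_aux (π := cpl π) (by omega) h1
    simpa only [count_cpl] using this
  · exact main_aux (by omega) hl

end

end Q165.CP
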