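import Pool.Agent.Q165.CPTwo

/-!
Connecting two windows with entries away from 0 and 1.
-/

open MeasureTheory Set Function
open scoped ENNReal

namespace Q165.CP

noncomputable section

variable {d : ℕ} (π : Equiv.Perm (Fin (d + 1)))

/-- The window starting at `j` violates the pattern, as seen from the keys. -/
def Good (κ : ℕ → ℕ) (j : ℕ) : Prop := ∃ a b : Fin (d + 1), κ (j + a) < κ (j + b) ∧ ¬ π a < π b

lemma good_of {κ : ℕ → ℕ} {j : ℕ} (a b : Fin (d + 1)) {m n : ℕ} (hm : (a : ℕ) = m)
    (hn : (b : ℕ) = n) (h : κ (j + m) < κ (j + n)) (hp : ¬ π a < π b) : Good π κ j := by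
  subst hm; subst hn
  exact ⟨a, b, h, hp⟩

/-- The keys of a word with the levels `lev`, between two windows of middle entries. -/
def key (d Z H : ℕ) (lev : ℕ → ℕ) (i : ℕ) : ℕ :=
  if i < d then 2 * H - 1 else if i < d + Z then 2 * lev (i - d) else 2 * H - 1

lemma key_out {d Z H : ℕ} {lev : ℕ → ℕ} {i : ℕ} (h : i < d ∨ d + Z ≤ i) :
    key d Z H lev i = 2 * H - 1 := by
  unfold key
  rcases h with h | h
  · rw [if_pos h]
  · rw [if_neg (by omega), if_neg (by omega)]

lemma key_in {d Z H : ℕ} {lev : ℕ → ℕ} {i : ℕ} (h : d ≤ i) (h' : i < d + Z) :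
    key d Z H lev i = 2 * lev (i - d) := by
  unfold key
  rw [if_neg (by omega), if_pos h']

/-- Levels: decreasing, two high ones, decreasing. -/
def levB (d : ℕ) (q : Bool) (i : ℕ) : ℕ :=
  if i < d then d - 1 - i else if i = d then (if q = true then 3 * d + 1 else 3 * d)
  else if i = d + 1 then (if q = true then 3 * d else 3 * d + 1) else 2 * d + (2 * d + 1 - i)

lemma levB_low {d : ℕ} {q : Bool} {i : ℕ} (h : i < d) : levB d q i = d - 1 - i := by
  unfold levB; rw [if_pos h]

lemma levB_high {d : ℕ} {q : Bool} {i : ℕ} (h : d + 2 ≤ i) :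
    levB d q i = 2 * d + (2 * d + 1 - i) := by
  unfold levB; rw [if_neg (by omega), if_neg (by omega), if_neg (by omega)]

lemma levB_mid {d : ℕ} {q : Bool} {i : ℕ} (h : i = d ∨ i = d + 1) :
    3 * d ≤ levB d q i ∧ levB d q i ≤ 3 * d + 1 := by
  unfold levB
  rcases h with h | h
  · rw [if_neg (by omega), if_pos h]; split_ifs <;> omega
  · rw [if_neg (by omega), if_neg (by omega), if_pos h]; split_ifs <;> omega

lemma levB_true {d : ℕ} {i i' : ℕ} (h : i = d) (h' : i' = d + 1) :
    levB d true i' < levB d true i := by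
  subst h; subst h'; unfold levB; simp

lemma levB_false {d : ℕ} {i i' : ℕ} (h : i = d) (h' : i' = d + 1) :
    levB d false i < levB d false i' := by
  subst h; subst h'; unfold levB; simp

/-- Levels: decreasing, then increasing below. -/
def levA (d : ℕ) (i : ℕ) : ℕ := if i < d then 2 * d - 1 - i else i - d

lemma levA_low {d : ℕ} {i : ℕ} (h : i < d) : levA d i = 2 * d - 1 - i := by
  unfold levA; rw [if_pos h]

lemma levA_high {d : ℕ} {i : ℕ} (h : d ≤ i) : levA d i = i - d := by
  unfold levA; rw [if_neg (by omega)]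

/-- Levels: decreasing, then increasing above. -/
def levC (d : ℕ) (i : ℕ) : ℕ := if i < d then d - 1 - i else i

lemma levC_low {d : ℕ} {i : ℕ} (h : i < d) : levC d i = d - 1 - i := by
  unfold levC; rw [if_pos h]

lemma levC_high {d : ℕ} {i : ℕ} (h : d ≤ i) : levC d i = i := by
  unfold levC; rw [if_neg (by omega)]

lemma connector_B (hd : 2 ≤ d) (hz : π 0 = 0) (j : ℕ) (hj : j < d + (2 * d + 2)) :
    Good π (key d (2 * d + 2) (2 * d)
      (levB d (decide (π ⟨1, by omega⟩ < π ⟨2, by omega⟩)))) j := by
  have hpos : ∀ b : Fin (d + 1), ¬ π b < π 0 := by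
    intro b; rw [hz]; exact not_lt.2 (Fin.zero_le _)
  set q : Bool := decide (π ⟨1, by omega⟩ < π ⟨2, by omega⟩) with hq0
  by_cases j1 : j < d
  · refine good_of π (Fin.last d) 0 (m := d) (n := 0) (by simp) (by simp) ?_ (hpos _)
    rw [key_in (by omega) (by omega), key_out (by omega), levB_low (by omega)]
    omega
  by_cases j2 : j < 2 * d - 1
  · refine good_of π ⟨1, by omega⟩ 0 (m := 1) (n := 0) (by simp) (by simp) ?_ (hpos _)
    rw [key_in (by omega) (by omega), key_in (by omega) (by omega), levB_low (by omega),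
      levB_low (by omega)]
    omega
  by_cases j3 : j = 2 * d - 1
  · by_cases h : π ⟨1, by omega⟩ < π ⟨2, by omega⟩
    · have hq : q = true := by rw [hq0]; exact decide_eq_true h
      refine good_of π ⟨2, by omega⟩ ⟨1, by omega⟩ (m := 2) (n := 1) (by simp) (by simp) ?_
        (not_lt.2 (le_of_lt h))
      rw [key_in (by omega) (by omega), key_in (by omega) (by omega), hq]
      have := levB_true (d := d) (i := j + 1 - d) (i' := j + 2 - d) (by omega) (by omega)
      omega
    · have hq : q = false := by rw [hq0]; exact decide_eq_false h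
      refine good_of π ⟨1, by omega⟩ ⟨2, by omega⟩ (m := 1) (n := 2) (by simp) (by simp) ?_ h
      rw [key_in (by omega) (by omega), key_in (by omega) (by omega), hq]
      have := levB_false (d := d) (i := j + 1 - d) (i' := j + 2 - d) (by omega) (by omega)
      omega
  by_cases j4 : j = 2 * d
  · refine good_of π ⟨2, by omega⟩ 0 (m := 2) (n := 0) (by simp) (by simp) ?_ (hpos _)
    rw [key_in (by omega) (by omega), key_in (by omega) (by omega), levB_high (by omega)]
    have := levB_mid (d := d) (q := q) (i := j + 0 - d) (by omega)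
    omega
  · refine good_of π ⟨1, by omega⟩ 0 (m := 1) (n := 0) (by simp) (by simp) ?_ (hpos _)
    by_cases j5 : j = 2 * d + 1
    · rw [key_in (by omega) (by omega), key_in (by omega) (by omega), levB_high (by omega)]
      have := levB_mid (d := d) (q := q) (i := j + 0 - d) (by omega)
      omega
    · by_cases j6 : j + 1 < d + (2 * d + 2)
      · rw [key_in (by omega) (by omega), key_in (by omega) (by omega), levB_high (by omega),
          levB_high (by omega)]
        omega
      · rw [key_out (by omega), key_in (by omega) (by omega), levB_high (by omega)]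
        omega

lemma connector_A (hl : π (Fin.last d) = Fin.last d) {b0 al : Fin (d + 1)} (hb0 : (b0 : ℕ) ≠ 0)
    (hb0' : π b0 < π 0) (haln : (al : ℕ) < d) (hal' : π al < π (Fin.last d)) (j : ℕ)
    (hj : j < d + 2 * d) : Good π (key d (2 * d) (2 * d) (levA d)) j := by
  have hb0l := b0.2
  by_cases j1 : j < d
  · refine good_of π (Fin.last d) al (m := d) (by simp) rfl ?_ (not_lt.2 hal'.le)
    rw [key_in (by omega) (by omega), levA_low (by omega)]
    by_cases j2 : j + al < d
    · rw [key_out (by omega)]; omega
    · rw [key_in (by omega) (by omega), levA_low (by omega)]; omega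
  by_cases j3 : j < 2 * d
  · refine good_of π (Fin.last d) 0 (m := d) (n := 0) (by simp) (by simp) ?_ ?_
    · rw [key_in (by omega) (by omega), key_in (by omega) (by omega), levA_high (by omega),
        levA_low (by omega)]
      omega
    · rw [hl]; exact not_lt.2 (Fin.le_last _)
  · refine good_of π 0 b0 (m := 0) (by simp) rfl ?_ (not_lt.2 hb0'.le)
    rw [key_in (by omega) (by omega), levA_high (by omega)]
    by_cases j4 : j + b0 < d + 2 * d
    · rw [key_in (by omega) (by omega), levA_high (by omega)]; omega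
    · rw [key_out (by omega)]; omega

lemma connector_C {b0 al au : Fin (d + 1)} (hb0 : (b0 : ℕ) ≠ 0)
    (hb0' : π b0 < π 0) (haln : (al : ℕ) < d) (hal' : π al < π (Fin.last d))
    (haun : (au : ℕ) < d) (hau' : π (Fin.last d) < π au) (j : ℕ)
    (hj : j < d + 2 * d) : Good π (key d (2 * d) (2 * d) (levC d)) j := by
  have hb0l := b0.2
  by_cases j1 : j < d
  · refine good_of π (Fin.last d) al (m := d) (by simp) rfl ?_ (not_lt.2 hal'.le)
    rw [key_in (by omega) (by omega), levC_low (by omega)]
    by_cases j2 : j + al < d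
    · rw [key_out (by omega)]; omega
    · rw [key_in (by omega) (by omega), levC_low (by omega)]; omega
  by_cases j3 : j < 2 * d
  · refine good_of π au (Fin.last d) (n := d) rfl (by simp) ?_ (not_lt.2 hau'.le)
    rw [key_in (by omega) (by omega), key_in (by omega) (by omega),
      levC_high (d := d) (i := j + d - d) (by omega)]
    by_cases j2 : j + au - d < d
    · rw [levC_low (by omega)]; omega
    · rw [levC_high (by omega)]; omega
  · refine good_of π 0 b0 (m := 0) (by simp) rfl ?_ (not_lt.2 hb0'.le)
    rw [key_in (by omega) (by omega), levC_high (by omega)]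
    by_cases j4 : j + b0 < d + 2 * d
    · rw [key_in (by omega) (by omega), levC_high (by omega)]; omega
    · rw [key_out (by omega)]; omega

lemma exists_connector (hd : 2 ≤ d) (h0 : π (Fin.last d) ≠ 0) :
    ∃ (Z H : ℕ) (lev : ℕ → ℕ), 1 ≤ H ∧ (∀ i < Z, lev i < 2 * H) ∧
      ∀ j < d + Z, Good π (key d Z H lev) j := by
  by_cases hz : π 0 = 0
  · refine ⟨2 * d + 2, 2 * d, levB d (decide (π ⟨1, by omega⟩ < π ⟨2, by omega⟩)), by omega, ?_,
      connector_B π hd hz⟩
    intro i hi
    by_cases h1 : i < d
    · rw [levB_low h1]; omega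
    · by_cases h2 : d + 2 ≤ i
      · rw [levB_high h2]; omega
      · have := levB_mid (d := d) (q := decide (π ⟨1, by omega⟩ < π ⟨2, by omega⟩)) (i := i)
          (by omega)
        omega
  · -- the first entry is not the least
    have hb0 : ∃ b : Fin (d + 1), b ≠ 0 ∧ π b < π 0 := by
      refine ⟨π.symm 0, ?_, ?_⟩
      · intro h
        apply hz
        conv_lhs => rw [← h]
        rw [Equiv.apply_symm_apply]
      · rw [Equiv.apply_symm_apply]
        exact Fin.pos_iff_ne_zero.2 hz
    obtain ⟨b0, hb0, hb0'⟩ := hb0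
    have hb0n : (b0 : ℕ) ≠ 0 := fun h => hb0 (Fin.ext (by simpa using h))
    have hal : ∃ a : Fin (d + 1), a ≠ Fin.last d ∧ π a < π (Fin.last d) := by
      refine ⟨π.symm 0, ?_, ?_⟩
      · intro h
        apply h0
        rw [← h, Equiv.apply_symm_apply]
      · rw [Equiv.apply_symm_apply]
        exact Fin.pos_iff_ne_zero.2 h0
    obtain ⟨al, hal, hal'⟩ := hal
    have haln : (al : ℕ) < d := by
      have h5 : (al : ℕ) ≠ d := fun h => hal (Fin.ext (by simp [h]))
      have := al.2; omega
    by_cases hl : π (Fin.last d) = Fin.last d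
    · refine ⟨2 * d, 2 * d, levA d, by omega, ?_, connector_A π hl hb0n hb0' haln hal'⟩
      intro i hi
      by_cases h1 : i < d
      · rw [levA_low h1]; omega
      · rw [levA_high (by omega)]; omega
    · have hau : ∃ a : Fin (d + 1), a ≠ Fin.last d ∧ π (Fin.last d) < π a := by
        refine ⟨π.symm (Fin.last d), ?_, ?_⟩
        · intro h
          apply hl
          conv_lhs => rw [← h]
          rw [Equiv.apply_symm_apply]
        · rw [Equiv.apply_symm_apply]
          exact Fin.lt_last_iff_ne_last.2 hl
      obtain ⟨au, hau, hau'⟩ := hau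
      have haun : (au : ℕ) < d := by
        have h5 : (au : ℕ) ≠ d := fun h => hau (Fin.ext (by simp [h]))
        have := au.2; omega
      refine ⟨2 * d, 2 * d, levC d, by omega, ?_,
        connector_C π hb0n hb0' haln hal' haun hau'⟩
      intro i hi
      by_cases h1 : i < d
      · rw [levC_low h1]; omega
      · rw [levC_high (by omega)]; omega

/-- The lower end of the interval of the level `l`. -/
def lo (η : ℝ) (H l : ℕ) : ℝ := if l < H then η / H * l else 1 - η + η / H * (l - H : ℝ)

/-- The interval of the level `l`. -/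
def box (η : ℝ) (H l : ℕ) : Set ℝ := Set.Icc (lo η H l + η / H / 4) (lo η H l + η / H / 2)

lemma lo_nonneg {η : ℝ} (h0 : 0 < η) (h1 : η < 1 / 2) {H l : ℕ} : 0 ≤ lo η H l := by
  unfold lo
  split_ifs with h
  · positivity
  · have : (H : ℝ) ≤ l := by exact_mod_cast not_lt.1 h
    have h2 : 0 ≤ η / H * (l - H : ℝ) := mul_nonneg (by positivity) (by linarith)
    linarith

lemma lo_add_le {η : ℝ} (h0 : 0 < η) (h1 : η < 1 / 2) {H l : ℕ} (hH : 1 ≤ H) (hl : l < 2 * H) :
    lo η H l + η / H ≤ 1 := by
  have hH' : (0 : ℝ) < H := by exact_mod_cast hH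
  have e : η / H * H = η := by field_simp
  unfold lo
  split_ifs with h
  · have : (l : ℝ) + 1 ≤ H := by exact_mod_cast h
    have h2 : η / H * l + η / H ≤ η / H * H := by
      have := mul_le_mul_of_nonneg_left this (by positivity : 0 ≤ η / H)
      linarith
    linarith
  · have : (l : ℝ) - H + 1 ≤ H := by
      have : (l : ℝ) + 1 ≤ 2 * H := by exact_mod_cast hl
      linarith
    have h2 := mul_le_mul_of_nonneg_left this (by positivity : 0 ≤ η / H)
    linarith

lemma lo_step {η : ℝ} (h0 : 0 < η) (h1 : η < 1 / 2) {H l l' : ℕ} (hH : 1 ≤ H) (hl : l < l') :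
    lo η H l + η / H ≤ lo η H l' := by
  have hH' : (0 : ℝ) < H := by exact_mod_cast hH
  have e : η / H * H = η := by field_simp
  have hll : (l : ℝ) + 1 ≤ l' := by exact_mod_cast hl
  have hw : 0 ≤ η / H := by positivity
  unfold lo
  split_ifs with h h' h'
  · have := mul_le_mul_of_nonneg_left hll hw
    linarith
  · have h3 : (l : ℝ) + 1 ≤ H := by exact_mod_cast h
    have h4 : (H : ℝ) ≤ l' := by exact_mod_cast not_lt.1 h'
    have h5 : 0 ≤ η / H * (l' - H : ℝ) := mul_nonneg hw (by linarith)
    have := mul_le_mul_of_nonneg_left h3 hw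
    linarith
  · omega
  · have := mul_le_mul_of_nonneg_left (a := η / H) (by linarith : (l : ℝ) - H + 1 ≤ l' - H) hw
    linarith

lemma box_lt {η : ℝ} (h0 : 0 < η) (h1 : η < 1 / 2) {H l l' : ℕ} (hH : 1 ≤ H) (hl : l < l')
    {u v : ℝ} (hu : u ∈ box η H l) (hv : v ∈ box η H l') : u < v := by
  have := lo_step h0 h1 hH hl
  have hw : 0 < η / H := by
    have : (0 : ℝ) < H := by exact_mod_cast hH
    positivity
  have := hu.2
  have := hv.1
  linarith

lemma box_lt_mid {η : ℝ} (h0 : 0 < η) {H l : ℕ} (hH : 1 ≤ H) (hl : l < H)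
    {u v : ℝ} (hu : u ∈ box η H l) (hv : η ≤ v) : u < v := by
  have hH' : (0 : ℝ) < H := by exact_mod_cast hH
  have e : η / H * H = η := by field_simp
  have hw : 0 < η / H := by positivity
  have h2 := hu.2
  unfold lo at h2
  rw [if_pos hl] at h2
  have : (l : ℝ) + 1 ≤ H := by exact_mod_cast hl
  have := mul_le_mul_of_nonneg_left this hw.le
  linarith

lemma mid_lt_box {η : ℝ} (h0 : 0 < η) {H l : ℕ} (hH : 1 ≤ H) (hl : H ≤ l)
    {u v : ℝ} (hu : u ∈ box η H l) (hv : v ≤ 1 - η) : v < u := by
  have hH' : (0 : ℝ) < H := by exact_mod_cast hH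
  have hw : 0 < η / H := by positivity
  have h2 := hu.1
  unfold lo at h2
  rw [if_neg (by omega)] at h2
  have : (H : ℝ) ≤ l := by exact_mod_cast hl
  have h5 : 0 ≤ η / H * (l - H : ℝ) := mul_nonneg hw.le (by linarith)
  linarith

lemma U_box {η : ℝ} (h0 : 0 < η) (h1 : η < 1 / 2) {H l : ℕ} (hH : 1 ≤ H) (hl : l < 2 * H) :
    U (box η H l) = ENNReal.ofReal (η / H / 4) := by
  have hH' : (0 : ℝ) < H := by exact_mod_cast hH
  have hw : 0 < η / H := by positivity
  have := lo_nonneg h0 h1 (H := H) (l := l)
  have := lo_add_le h0 h1 hH hl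
  unfold box
  rw [U_Icc (by linarith) (by linarith)]
  congr 1
  ring

/-- If every window is violated as seen from the keys, the connecting word has a probability
which is bounded from below. -/
lemma connect_lower {η : ℝ} (h0 : 0 < η) (h1 : η < 1 / 2) {Z H : ℕ} {lev : ℕ → ℕ} (hH : 1 ≤ H)
    (hlev : ∀ i < Z, lev i < 2 * H) (hgood : ∀ j < d + Z, Good π (key d Z H lev) j) (s : ℕ)
    (x : Sq) (hx : Nice η s (s + d) x) (hx' : Nice η (s + d + Z) (s + d + Z + d) x) :
    ENNReal.ofReal (η / H / 4) ^ Z ≤
      In (Finset.Ico (s + d) (s + d + Z)) (E π ∅ s (s + d + Z)) x := by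
  classical
  have hb : In (Finset.Ico (s + d) (s + d + Z)) (fun y => ∏ i ∈ Finset.Ico (s + d) (s + d + Z),
      (box η H (lev (i - (s + d)))).indicator (fun _ => (1 : ℝ≥0∞)) (y i)) x =
      ENNReal.ofReal (η / H / 4) ^ Z := by
    rw [In_box _ (fun i => box η H (lev (i - (s + d)))) (fun i => measurableSet_Icc)]
    rw [Finset.prod_congr rfl (g := fun _ => ENNReal.ofReal (η / H / 4))]
    · rw [Finset.prod_const, Nat.card_Ico]
      congr 1; omega
    · intro i hi
      rw [Finset.mem_Ico] at hi
      exact U_box h0 h1 hH (hlev _ (by omega))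
  rw [← hb]
  unfold In lmarginal
  apply lintegral_mono
  intro z
  simp only
  set y := updateFinset x (Finset.Ico (s + d) (s + d + Z)) z with hy
  have hyout : ∀ i, i ∉ Finset.Ico (s + d) (s + d + Z) → y i = x i := by
    intro i hi; rw [hy]; simp only [updateFinset, hi, dif_neg, not_false_eq_true]
  by_cases hin : ∀ i ∈ Finset.Ico (s + d) (s + d + Z), y i ∈ box η H (lev (i - (s + d)))
  · have hE : E π ∅ s (s + d + Z) y = 1 := by
      unfold E
      rw [if_pos]
      intro j hj1 hj2
      simp only [Set.mem_empty_iff_false, iff_false]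
      intro hocc
      obtain ⟨a, b, hab, hp⟩ := hgood (j - s) (by omega)
      apply hp
      rw [← hocc a b]
      have hcmp : ∀ i i', s ≤ i → i < s + d + Z + d → s ≤ i' → i' < s + d + Z + d →
          key d Z H lev (i - s) < key d Z H lev (i' - s) → y i < y i' := by
        intro i i' hi1 hi2 hi3 hi4 hk
        by_cases c1 : s + d ≤ i ∧ i < s + d + Z
        · have m1 := hin i (Finset.mem_Ico.2 c1)
          rw [key_in (i := i - s) (by omega) (by omega)] at hk
          by_cases c2 : s + d ≤ i' ∧ i' < s + d + Z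
          · have m2 := hin i' (Finset.mem_Ico.2 c2)
            rw [key_in (i := i' - s) (by omega) (by omega)] at hk
            have e1 : i - s - d = i - (s + d) := by omega
            have e2 : i' - s - d = i' - (s + d) := by omega
            rw [e1, e2] at hk
            exact box_lt h0 h1 hH (by omega) m1 m2
          · rw [key_out (i := i' - s) (by omega)] at hk
            have e1 : i - s - d = i - (s + d) := by omega
            rw [e1] at hk
            have m2 : η ≤ y i' := by
              rw [hyout i' (by rw [Finset.mem_Ico]; omega)]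
              by_cases c3 : i' < s + d
              · exact (hx i' hi3 c3).1
              · exact (hx' i' (by omega) (by omega)).1
            exact box_lt_mid h0 hH (by omega) m1 m2
        · rw [key_out (i := i - s) (by omega)] at hk
          by_cases c2 : s + d ≤ i' ∧ i' < s + d + Z
          · have m2 := hin i' (Finset.mem_Ico.2 c2)
            rw [key_in (i := i' - s) (by omega) (by omega)] at hk
            have e2 : i' - s - d = i' - (s + d) := by omega
            rw [e2] at hk
            have m1 : y i ≤ 1 - η := by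
              rw [hyout i (by rw [Finset.mem_Ico]; omega)]
              by_cases c3 : i < s + d
              · exact (hx i hi1 c3).2
              · exact (hx' i (by omega) (by omega)).2
            exact mid_lt_box h0 hH (by omega) m2 m1
          · rw [key_out (i := i' - s) (by omega)] at hk
            omega
      have ha := a.2
      have hb := b.2
      apply hcmp (j + a) (j + b) (by omega) (by omega) (by omega) (by omega)
      have e1 : j + (a : ℕ) - s = j - s + a := by omega
      have e2 : j + (b : ℕ) - s = j - s + b := by omega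
      rw [e1, e2]
      exact hab
    rw [hE]
    apply Finset.prod_le_one'
    intro i _
    simp only [Set.indicator]
    split_ifs <;> simp
  · push Not at hin
    obtain ⟨i, hi, hi'⟩ := hin
    rw [Finset.prod_eq_zero hi]
    · exact zero_le
    · simp [hi']

/-- Two windows with entries away from 0 and 1 can be connected. -/
lemma mid (hd : 2 ≤ d) (h0 : π (Fin.last d) ≠ 0) {η : ℝ} (hη : 0 < η) (hη1 : η < 1 / 2) :
    ∃ (Z : ℕ) (C : ℝ≥0∞), C ≠ 0 ∧ C ≤ 1 ∧ ∀ (s : ℕ) (x : Sq), Nice η s (s + d) x →
      Nice η (s + d + Z) (s + d + Z + d) x →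
      C ≤ In (Finset.Ico (s + d) (s + d + Z)) (E π ∅ s (s + d + Z)) x := by
  obtain ⟨Z, H, lev, hH, hlev, hgood⟩ := exists_connector π hd h0
  have hH' : (0 : ℝ) < H := by exact_mod_cast hH
  refine ⟨Z, ENNReal.ofReal (η / H / 4) ^ Z, ?_, ?_, fun s x hx hx' =>
    connect_lower π hη hη1 hH hlev hgood s x hx hx'⟩
  · apply pow_ne_zero
    rw [Ne, ENNReal.ofReal_eq_zero, not_le]
    positivity
  · apply pow_le_one' 
    rw [ENNReal.ofReal_le_one]
    have : η / H ≤ η := div_le_self hη.le (by exact_mod_cast hH)
    linarith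

end

end Q165.CP
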