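import Pool.Agent.Q165.CPGrow

/-!
The probabilities of occurrence sets of a consecutive pattern count permutations.
-/

open MeasureTheory Set Function
open scoped ENNReal

namespace Q165.CP

noncomputable section

variable {d : ℕ} {π : Equiv.Perm (Fin (d + 1))}

/-- The one-line word of a permutation, as a real sequence. -/
def sq {N : ℕ} (w : Equiv.Perm (Fin N)) (i : ℕ) : ℝ :=
  if h : i < N then ((w ⟨i, h⟩ : ℕ) : ℝ) else 0

lemma In_finset_sum {ι : Type*} (t : Finset ι) {f : ι → Sq → ℝ≥0∞} (hf : ∀ i, Measurable (f i))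
    (s : Finset ℕ) (x : Sq) : In s (fun y => ∑ i ∈ t, f i y) x = ∑ i ∈ t, In s (f i) x := by
  unfold In lmarginal
  rw [lintegral_finsetSum]
  intro i _
  exact (hf i).comp measurable_updateFinset

instance : NullSingletonClass U := by unfold U; infer_instance

lemma In_eq_zero {s : Finset ℕ} {i j : ℕ} (hi : i ∈ s) (hij : i ≠ j) (x : Sq) :
    In s (({y : Sq | y i = y j}).indicator (fun _ => 1)) x = 0 := by
  classical
  have hm : MeasurableSet {y : Sq | y i = y j} :=
    measurableSet_eq_fun (measurable_pi_apply i) (measurable_pi_apply j)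
  have hmi : Measurable (({y : Sq | y i = y j}).indicator (fun _ => (1 : ℝ≥0∞))) :=
    measurable_const.indicator hm
  have e : s = s.erase i ∪ {i} := by
    rw [Finset.union_comm, ← Finset.insert_eq, Finset.insert_erase hi]
  rw [e, In_union hmi (by simp)]
  have e2 : In {i} (({y : Sq | y i = y j}).indicator (fun _ => (1 : ℝ≥0∞))) = fun _ => 0 := by
    funext y
    rw [In_single]
    have e3 : ∀ u : ℝ, ({y : Sq | y i = y j}).indicator (fun _ => (1 : ℝ≥0∞))
        (Function.update y i u) = ({y j} : Set ℝ).indicator (fun _ => 1) u := by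
      intro u
      simp only [Set.indicator, Set.mem_ofPred_eq, upd_same, upd_ne y u (Ne.symm hij),
        Set.mem_singleton_iff]
    simp_rw [e3]
    rw [lintegral_indicator_const (measurableSet_singleton _), one_mul, measure_singleton]
  rw [e2, In_const]

/-- Two real sequences with the same comparisons have the same occurrences. -/
lemma E_order {P : Set ℕ} {n : ℕ} {x y : Sq}
    (h : ∀ i j, i < n + d → j < n + d → (x i < x j ↔ y i < y j)) :
    E π P 0 n x = E π P 0 n y := by
  unfold E
  congr 1
  apply propext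
  refine forall_congr' fun j => forall_congr' fun h1 => forall_congr' fun h2 => ?_
  have : occ π x j ↔ occ π y j := by
    unfold occ
    refine forall_congr' fun a => forall_congr' fun b => ?_
    have ha := a.2
    have hb := b.2
    rw [h (j + a) (j + b) (by omega) (by omega)]
  rw [this]

/-- The permutation of the natural numbers which extends a permutation of `Fin N`. -/
def ext {N : ℕ} (σ : Equiv.Perm (Fin N)) : Equiv.Perm ℕ where
  toFun i := if h : i < N then (σ ⟨i, h⟩ : ℕ) else i
  invFun i := if h : i < N then (σ.symm ⟨i, h⟩ : ℕ) else i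
  left_inv i := by
    by_cases h : i < N
    · simp [h]
    · simp [h]
  right_inv i := by
    by_cases h : i < N
    · simp [h]
    · simp [h]

lemma ext_lt {N : ℕ} (σ : Equiv.Perm (Fin N)) {i : ℕ} (h : i < N) :
    ext σ i = (σ ⟨i, h⟩ : ℕ) := by
  change (if h : i < N then (σ ⟨i, h⟩ : ℕ) else i) = _
  rw [dif_pos h]

lemma ext_image {N : ℕ} (σ : Equiv.Perm (Fin N)) :
    (Finset.Ico 0 N).image (ext σ) = Finset.Ico 0 N := by
  apply Finset.eq_of_subset_of_card_le
  · intro i hi
    rw [Finset.mem_image] at hi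
    obtain ⟨j, hj, rfl⟩ := hi
    rw [Finset.mem_Ico] at hj ⊢
    rw [ext_lt σ hj.2]
    exact ⟨Nat.zero_le _, (σ _).2⟩
  · rw [Finset.card_image_of_injective _ (ext σ).injective]

open Classical in
/-- The number of permutations of length `N` with a given value of `E`. -/
def cnt (π : Equiv.Perm (Fin (d + 1))) (P : Set ℕ) (n : ℕ) : ℕ :=
  (Finset.univ.filter fun w : Equiv.Perm (Fin (n + d)) =>
    ∀ j, j < n → (occ π (sq w) j ↔ j ∈ P)).card

lemma sum_E (P : Set ℕ) (n : ℕ) :
    ∑ w : Equiv.Perm (Fin (n + d)), E π P 0 n (sq w) = (cnt π P n : ℝ≥0∞) := by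
  classical
  unfold cnt
  rw [Finset.card_filter]
  push_cast
  apply Finset.sum_congr rfl
  intro w _
  unfold E
  congr 1
  apply propext
  constructor
  · intro h j hj; exact h j (Nat.zero_le _) hj
  · intro h j _ hj; exact h j hj

lemma sum_distinct (P : Set ℕ) (n : ℕ) (x : Sq)
    (hx : ∀ i j, i < n + d → j < n + d → i ≠ j → x i ≠ x j) :
    ∑ σ : Equiv.Perm (Fin (n + d)), E π P 0 n (fun i => x (ext σ i)) = (cnt π P n : ℝ≥0∞) := by
  set N := n + d with hN
  set f : Fin N → ℝ := fun i => x i with hf
  have hinj : Function.Injective f := by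
    intro i j hij
    by_contra hne
    exact hx i j i.2 j.2 (fun h => hne (Fin.ext h)) hij
  set τ := Tuple.sort f with hτ
  have hmono : StrictMono (f ∘ τ) :=
    (Tuple.monotone_sort f).strictMono_of_injective (hinj.comp τ.injective)
  rw [← sum_E]
  rw [← Equiv.sum_comp (Equiv.mulLeft τ⁻¹)
    (fun w : Equiv.Perm (Fin N) => E π P 0 n (sq w))]
  apply Finset.sum_congr rfl
  intro σ _
  apply E_order
  intro i j hi hj
  rw [ext_lt σ hi, ext_lt σ hj]
  simp only [Equiv.coe_mulLeft]
  unfold sq
  rw [dif_pos hi, dif_pos hj]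
  simp only [Equiv.Perm.mul_apply, Nat.cast_lt, Fin.val_fin_lt]
  have e : ∀ k : Fin N, x (k : ℕ) = (f ∘ τ) (τ⁻¹ k) := by
    intro k; simp [hf]
  rw [e (σ ⟨i, hi⟩), e (σ ⟨j, hj⟩), hmono.lt_iff_lt]

theorem Pr_eq_cnt (P : Set ℕ) (n : ℕ) :
    ((n + d).factorial : ℝ≥0∞) * Pr π P 0 n = (cnt π P n : ℝ≥0∞) := by
  classical
  set N := n + d with hN
  set s := Finset.Ico 0 N with hs
  have hEm := measurable_E π P 0 n
  have hcomp : ∀ σ : Equiv.Perm (Fin N), Measurable fun x : Sq => E π P 0 n (fun i => x (ext σ i)) := by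
    intro σ
    apply hEm.comp
    rw [measurable_pi_iff]
    intro i
    exact measurable_pi_apply _
  have h1 : In s (fun x => ∑ σ : Equiv.Perm (Fin N), E π P 0 n (fun i => x (ext σ i))) 0 =
      (N.factorial : ℝ≥0∞) * Pr π P 0 n := by
    rw [In_finset_sum _ hcomp]
    have : ∀ σ : Equiv.Perm (Fin N),
        In s (fun x => E π P 0 n (fun i => x (ext σ i))) 0 = Pr π P 0 n := by
      intro σ
      rw [In_perm hEm s (ext σ) (ext_image σ)]
      exact Pr_eq π P 0 n _
    simp_rw [this]
    rw [Finset.sum_const, Finset.card_univ, Fintype.card_perm, Fintype.card_fin, nsmul_eq_mul]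
  rw [← h1]
  -- the null set
  set bad : Sq → ℝ≥0∞ := fun x => ∑ i ∈ s, ∑ j ∈ s, if i = j then 0 else
    (({y : Sq | y i = y j}).indicator (fun _ => 1)) x with hbad
  have hbadm0 : ∀ i j : ℕ, Measurable fun x : Sq => if i = j then (0 : ℝ≥0∞) else
      (({y : Sq | y i = y j}).indicator (fun _ => 1)) x := by
    intro i j
    by_cases hij : i = j
    · simp only [hij, if_true]; exact measurable_const
    · simp only [hij, if_false]
      exact measurable_const.indicator
        (measurableSet_eq_fun (measurable_pi_apply i) (measurable_pi_apply j))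
  have hbad0 : In s bad 0 = 0 := by
    rw [hbad, In_finset_sum _ (fun i => Finset.measurable_sum _ fun j _ => hbadm0 i j)]
    apply Finset.sum_eq_zero
    intro i hi
    rw [In_finset_sum _ (fun j => hbadm0 i j)]
    apply Finset.sum_eq_zero
    intro j _
    by_cases hij : i = j
    · simp only [hij, if_true]; exact In_const _ _ _
    · simp only [hij, if_false]; exact In_eq_zero hi hij 0
  have hbad1 : ∀ x : Sq, (¬ ∀ i j, i < N → j < N → i ≠ j → x i ≠ x j) → 1 ≤ bad x := by
    intro x hx
    push Not at hx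
    obtain ⟨i, j, hi, hj, hij, hxij⟩ := hx
    calc (1 : ℝ≥0∞) = if i = j then 0 else (({y : Sq | y i = y j}).indicator (fun _ => 1)) x := by
          rw [if_neg hij]; simp [Set.indicator, hxij]
      _ ≤ ∑ j' ∈ s, if i = j' then 0 else
            (({y : Sq | y i = y j'}).indicator (fun _ => 1)) x :=
          Finset.single_le_sum (f := fun j' => if i = j' then (0 : ℝ≥0∞) else
            (({y : Sq | y i = y j'}).indicator (fun _ => 1)) x) (fun _ _ => zero_le)
            (by rw [hs, Finset.mem_Ico]; omega)
      _ ≤ bad x := by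
          rw [hbad]
          exact Finset.single_le_sum (f := fun i => ∑ j' ∈ s, if i = j' then (0 : ℝ≥0∞) else
            (({y : Sq | y i = y j'}).indicator (fun _ => 1)) x) (fun _ _ => zero_le)
            (by rw [hs, Finset.mem_Ico]; omega)
  have hbadm : Measurable bad :=
    Finset.measurable_sum _ fun i _ => Finset.measurable_sum _ fun j _ => hbadm0 i j
  set F : Sq → ℝ≥0∞ := fun x => ∑ σ : Equiv.Perm (Fin N), E π P 0 n (fun i => x (ext σ i)) with hF
  have hFm : Measurable F := Finset.measurable_sum _ fun σ _ => hcomp σ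
  have hFle : ∀ x, F x ≤ (N.factorial : ℝ≥0∞) := by
    intro x
    calc F x ≤ ∑ σ : Equiv.Perm (Fin N), (1 : ℝ≥0∞) :=
          Finset.sum_le_sum fun σ _ => E_le_one π P 0 n _
      _ = _ := by simp [Fintype.card_perm]
  apply le_antisymm
  · calc In s F 0 ≤ In s (fun x => (cnt π P n : ℝ≥0∞) + (N.factorial : ℝ≥0∞) * bad x) 0 := by
          apply In_mono
          intro x
          by_cases hx : ∀ i j, i < N → j < N → i ≠ j → x i ≠ x j
          · rw [hF]
            simp only
            rw [sum_distinct P n x hx]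
            exact le_self_add
          · calc F x ≤ (N.factorial : ℝ≥0∞) * 1 := by rw [mul_one]; exact hFle x
              _ ≤ (N.factorial : ℝ≥0∞) * bad x := by gcongr; exact hbad1 x hx
              _ ≤ _ := le_add_self
      _ = (cnt π P n : ℝ≥0∞) := by
          rw [In_add measurable_const, In_const_mul hbadm, hbad0, In_const]; simp
  · calc (cnt π P n : ℝ≥0∞) = In s (fun _ => (cnt π P n : ℝ≥0∞)) 0 := (In_const _ _ _).symm
      _ ≤ In s (fun x => F x + (cnt π P n : ℝ≥0∞) * bad x) 0 := by
          apply In_mono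
          intro x
          by_cases hx : ∀ i j, i < N → j < N → i ≠ j → x i ≠ x j
          · rw [hF]
            simp only
            rw [sum_distinct P n x hx]
            exact le_self_add
          · calc (cnt π P n : ℝ≥0∞) = (cnt π P n : ℝ≥0∞) * 1 := (mul_one _).symm
              _ ≤ (cnt π P n : ℝ≥0∞) * bad x := by gcongr; exact hbad1 x hx
              _ ≤ _ := le_add_self
      _ = In s F 0 := by
          rw [In_add hFm, In_const_mul hbadm, hbad0]; simp

lemma phi_eq (P : Set ℕ) (n : ℕ) : phi π P n = (cnt π P n : ℝ) / (n + d).factorial := by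
  have h := congrArg ENNReal.toReal (Pr_eq_cnt (π := π) P n)
  rw [ENNReal.toReal_mul, ENNReal.toReal_natCast, ENNReal.toReal_natCast] at h
  unfold phi
  rw [← h]
  have : ((n + d).factorial : ℝ) ≠ 0 := by positivity
  field_simp

end

end Q165.CP
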