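import Pool.Agent.Q165.CPIns3
import Pool.Agent.Q165.CPCauchy
import Pool.Agent.Q165.CPMain

/-!
The numbers of permutations with well separated occurrences of a consecutive pattern.
-/

open MeasureTheory Set Function Filter
open scoped ENNReal

namespace Q165.CP

noncomputable section

/-- The quotient for one occurrence. -/
def Rt {k : ℕ} (π : Equiv.Perm (Fin k)) (i N : ℕ) : ℝ := (count π {i} N : ℝ) / count π ∅ N

/-- The properties of the counts which are used for the separated sets. -/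
structure InsP {k : ℕ} (π : Equiv.Perm (Fin k)) (A : ℕ) (L K θ c : ℝ) : Prop where
  hL : 0 ≤ L
  hK : 0 ≤ K
  hθ0 : 0 < θ
  hθ1 : θ < 1
  hc : 0 < c
  pos : ∀ N, A ≤ N → 0 < count π ∅ N
  ins : ∀ s i N, s + A ≤ i → i + A ≤ N → ∃ a b : ℝ, 0 ≤ a ∧ a ≤ b ∧ b ≤ L ∧
    b - a ≤ K * θ ^ (i - s) ∧ ∀ I : Finset ℕ, (∀ j ∈ I, 1 ≤ j ∧ j ≤ s) →
      a * count π I N ≤ count π (insert i I) N ∧ (count π (insert i I) N : ℝ) ≤ b * count π I N
  low : ∀ i N, A ≤ i → i + A ≤ N → c ≤ Rt π i N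
  step : ∀ i N, A ≤ i → i + A ≤ N → |Rt π i (N + 1) - Rt π i N| ≤ K * θ ^ (N - i)

lemma InsP.of_cpl {k : ℕ} {π : Equiv.Perm (Fin k)} {A : ℕ} {L K θ c : ℝ}
    (h : InsP (cpl π) A L K θ c) : InsP π A L K θ c := by
  have hR : ∀ i N, Rt (cpl π) i N = Rt π i N := by
    intro i N; unfold Rt; rw [count_cpl, count_cpl]
  constructor
  · exact h.hL
  · exact h.hK
  · exact h.hθ0
  · exact h.hθ1
  · exact h.hc
  · intro N hN
    have := h.pos N hN
    rwa [count_cpl] at this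
  · intro s i N h1 h2
    obtain ⟨a, b, g1, g2, g3, g4, g5⟩ := h.ins s i N h1 h2
    refine ⟨a, b, g1, g2, g3, g4, fun I hI => ?_⟩
    have := g5 I hI
    rwa [count_cpl, count_cpl] at this
  · intro i N h1 h2
    rw [← hR]; exact h.low i N h1 h2
  · intro i N h1 h2
    rw [← hR, ← hR]; exact h.step i N h1 h2

variable {d : ℕ} {π : Equiv.Perm (Fin (d + 1))}

lemma count_eq_phi {I : Finset ℕ} (h0 : 0 ∉ I) {n : ℕ} (hI : ∀ i ∈ I, i ≤ n) :
    (count π I (n + d) : ℝ) = (n + d).factorial * phi π {j | j + 1 ∈ I} n := by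
  rw [phi_eq_count h0 hI]
  field_simp

lemma count_eq_phi_empty (n : ℕ) :
    (count π ∅ (n + d) : ℝ) = (n + d).factorial * phi π ∅ n := by
  rw [phi_eq_count_empty]
  field_simp

lemma set_single {i : ℕ} (hi : 1 ≤ i) : {j | j + 1 ∈ ({i} : Finset ℕ)} = ({i - 1} : Set ℕ) := by
  ext j
  simp only [Finset.mem_singleton, Set.mem_ofPred_eq, Set.mem_singleton_iff]
  omega

lemma set_insert {i : ℕ} (hi : 1 ≤ i) (I : Finset ℕ) :
    {j | j + 1 ∈ insert i I} = insert (i - 1) {j | j + 1 ∈ I} := by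
  ext j
  simp only [Finset.mem_insert, Set.mem_ofPred_eq, Set.mem_insert_iff]
  constructor
  · rintro (h | h)
    · left; omega
    · right; exact h
  · rintro (h | h)
    · left; omega
    · right; exact h

lemma exists_InsP_aux (hd : 2 ≤ d) (h0 : π (Fin.last d) ≠ 0) :
    ∃ (A : ℕ) (L K θ c : ℝ), InsP π A L K θ c := by
  obtain ⟨A, L, K, θ, c, l, hL, hK, hθ0, hθ1, hc, hl, hins, hlow, hgr⟩ := ins_phi hd h0
  -- a threshold for the growth
  obtain ⟨A₂, hA₂⟩ : ∃ A₂, ∀ n ≥ A₂, K * θ ^ n ≤ l / 2 := by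
    have ht : Tendsto (fun n => K * θ ^ n) atTop (nhds (K * 0)) :=
      (tendsto_pow_atTop_nhds_zero_of_lt_one hθ0.le hθ1).const_mul K
    rw [mul_zero] at ht
    obtain ⟨N, hN⟩ := eventually_atTop.1 (ht.eventually (gt_mem_nhds (by positivity : 0 < l / 2)))
    exact ⟨N, fun n hn => (hN n hn).le⟩
  have hRt : ∀ i n, 1 ≤ i → i ≤ n → Rt π i (n + d) = phi π {i - 1} n / phi π ∅ n := by
    intro i n h1 h2
    unfold Rt
    rw [count_eq_phi (by simp; omega) (by simpa using h2), count_eq_phi_empty, set_single h1]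
    have : ((n + d).factorial : ℝ) ≠ 0 := by positivity
    field_simp
  set K' : ℝ := K / θ + 2 * L / l * (K / θ ^ d) with hK'
  have hK'0 : 0 ≤ K' := by positivity
  refine ⟨A + A₂ + d + 1, L, K', θ, c, hL, hK'0, hθ0, hθ1, hc, ?_, ?_, ?_, ?_⟩
  · intro N hN
    obtain ⟨n, rfl⟩ : ∃ n, N = n + d := ⟨N - d, by omega⟩
    have h1 := count_eq_phi_empty (π := π) n
    have h2 := phi_empty_pos h0 n
    have h3 : (0 : ℝ) < count π ∅ (n + d) := by rw [h1]; positivity
    exact_mod_cast h3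
  · intro s i N hsi hiN
    obtain ⟨n, rfl⟩ : ∃ n, N = n + d := ⟨N - d, by omega⟩
    obtain ⟨a, b, g1, g2, g3, g4, g5⟩ := hins s (i - 1) n (by omega) (by omega)
    refine ⟨a, b, g1, g2, g3, ?_, ?_⟩
    · refine g4.trans ?_
      have e : i - s = (i - 1 - s) + 1 := by omega
      have h3 : K * θ ^ (i - 1 - s) = K / θ * θ ^ (i - s) := by
        rw [e, pow_succ]; field_simp
      rw [h3]
      apply mul_le_mul_of_nonneg_right _ (by positivity)
      rw [hK']
      have : 0 ≤ 2 * L / l * (K / θ ^ d) := by positivity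
      linarith
    · intro I hI
      have h1 : 0 ∉ I := fun h => by have := (hI 0 h).1; omega
      have h2 : ∀ j ∈ I, j ≤ n := fun j hj => by have := (hI j hj).2; omega
      have h3 : 0 ∉ insert i I := by
        rw [Finset.mem_insert]
        rintro (h | h)
        · omega
        · exact h1 h
      have h4 : ∀ j ∈ insert i I, j ≤ n := by
        intro j hj
        rw [Finset.mem_insert] at hj
        rcases hj with rfl | hj
        · omega
        · exact h2 j hj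
      have h5 := g5 {j | j + 1 ∈ I} (by
        intro j hj
        have := (hI (j + 1) hj).2
        omega)
      rw [count_eq_phi h1 h2, count_eq_phi h3 h4, set_insert (by omega)]
      have hf : (0 : ℝ) ≤ (n + d).factorial := by positivity
      constructor
      · calc _ = (n + d).factorial * (a * phi π {j | j + 1 ∈ I} n) := by ring
          _ ≤ _ := mul_le_mul_of_nonneg_left h5.1 hf
      · calc _ ≤ (n + d).factorial * (b * phi π {j | j + 1 ∈ I} n) :=
              mul_le_mul_of_nonneg_left h5.2 hf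
          _ = _ := by ring
  · intro i N h1 h2
    obtain ⟨n, rfl⟩ : ∃ n, N = n + d := ⟨N - d, by omega⟩
    rw [hRt i n (by omega) (by omega), le_div_iff₀ (phi_empty_pos h0 n)]
    exact hlow (i - 1) n (by omega) (by omega)
  · intro i N h1 h2
    obtain ⟨n, rfl⟩ : ∃ n, N = n + d := ⟨N - d, by omega⟩
    have e1 : n + d + 1 = (n + 1) + d := by ring
    rw [e1, hRt i n (by omega) (by omega), hRt i (n + 1) (by omega) (by omega)]
    obtain ⟨a, b, g1, g2, g3, g4, g5⟩ := hgr i n (by omega)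
    obtain ⟨a', b', k1, k2, k3, k4, k5⟩ := hins 0 (i - 1) n (by omega) (by omega)
    have p1 := g5 ∅ (by simp)
    have p2 := g5 {i - 1} (by
      intro j hj
      rw [Set.mem_singleton_iff] at hj
      omega)
    have p3 := (k5 ∅ (by simp)).2
    have e2 : insert (i - 1) (∅ : Set ℕ) = {i - 1} := by simp
    rw [e2] at p3
    have hφ := phi_empty_pos (π := π) h0 n
    have hsm := hA₂ (n - i) (by omega)
    have hq := quot_step (u := phi π {i - 1} n) (v := phi π ∅ n) (u' := phi π {i - 1} (n + 1))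
      (v' := phi π ∅ (n + 1)) (a := a) (b := b) (l := l) (L := L) hφ (phi_nonneg _ _)
      (p3.trans (mul_le_mul_of_nonneg_right k3 hφ.le)) hl (by linarith) g2 p2.1 p2.2 p1.1 p1.2
    refine hq.trans ?_
    calc 2 * L / l * (b - a) ≤ 2 * L / l * (K * θ ^ (n - i)) := by
          apply mul_le_mul_of_nonneg_left g4; positivity
      _ = (2 * L / l * (K / θ ^ d)) * θ ^ (n + d - i) := by
          have e3 : n + d - i = (n - i) + d := by omega
          rw [e3, pow_add]; field_simp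
      _ ≤ K' * θ ^ (n + d - i) := by
          apply mul_le_mul_of_nonneg_right _ (by positivity)
          rw [hK']
          have : 0 ≤ K / θ := by positivity
          linarith

theorem exists_InsP {k : ℕ} (hk : 3 ≤ k) (π : Equiv.Perm (Fin k)) :
    ∃ (A : ℕ) (L K θ c : ℝ), InsP π A L K θ c := by
  obtain ⟨d, rfl⟩ : ∃ d, k = d + 1 := ⟨k - 1, by omega⟩
  by_cases hl : π (Fin.last d) = 0
  · have h1 : cpl π (Fin.last d) ≠ 0 := by
      rw [cpl_apply, hl, Fin.rev_zero]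
      intro h
      have := congrArg Fin.val h
      simp at this
      omega
    obtain ⟨A, L, K, θ, c, h⟩ := exists_InsP_aux (π := cpl π) (by omega) h1
    exact ⟨A, L, K, θ, c, h.of_cpl⟩
  · exact exists_InsP_aux (by omega) hl

/-! ### Reversal -/

/-- The reverse of a permutation. -/
def rvp {n : ℕ} (w : Equiv.Perm (Fin n)) : Equiv.Perm (Fin n) := Fin.revPerm.trans w

lemma rvp_apply {n : ℕ} (w : Equiv.Perm (Fin n)) (a : Fin n) : rvp w a = w a.rev := rfl

lemma rvp_rvp {n : ℕ} (w : Equiv.Perm (Fin n)) : rvp (rvp w) = w := by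
  ext a; simp [rvp]

lemma occursAt_rvp_imp {k n : ℕ} (π : Equiv.Perm (Fin k)) (w : Equiv.Perm (Fin n)) {i i' : ℕ}
    (hi : 1 ≤ i) (hi' : 1 ≤ i') (h : i + i' + k = n + 2) (ho : OccursAt π w i) :
    OccursAt (rvp π) (rvp w) i' := by
  obtain ⟨h1, h2, h3⟩ := ho
  refine ⟨hi', by omega, fun a b ha hb => ?_⟩
  have ha' := a.2
  have hb' := b.2
  have e1 : (⟨i' - 1 + a, ha⟩ : Fin n).rev = ⟨i - 1 + (a.rev : ℕ), by
      rw [Fin.val_rev]; omega⟩ := by
    apply Fin.ext
    rw [Fin.val_rev]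
    simp only [Fin.val_rev]
    omega
  have e2 : (⟨i' - 1 + b, hb⟩ : Fin n).rev = ⟨i - 1 + (b.rev : ℕ), by
      rw [Fin.val_rev]; omega⟩ := by
    apply Fin.ext
    rw [Fin.val_rev]
    simp only [Fin.val_rev]
    omega
  rw [rvp_apply, rvp_apply, rvp_apply, rvp_apply, e1, e2]
  exact h3 a.rev b.rev _ _

lemma occursAt_rvp {k n : ℕ} (π : Equiv.Perm (Fin k)) (w : Equiv.Perm (Fin n)) {i i' : ℕ}
    (hi : 1 ≤ i) (hi' : 1 ≤ i') (h : i + i' + k = n + 2) :
    OccursAt (rvp π) (rvp w) i' ↔ OccursAt π w i := by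
  constructor
  · intro ho
    have := occursAt_rvp_imp (rvp π) (rvp w) hi' hi (by omega) ho
    rwa [rvp_rvp, rvp_rvp] at this
  · exact occursAt_rvp_imp π w hi hi' h

lemma count_rvp {k : ℕ} (π : Equiv.Perm (Fin k)) {I J : Finset ℕ} {n : ℕ}
    (hI : ∀ i ∈ I, 1 ≤ i ∧ i + k ≤ n + 1) (hJ : ∀ i ∈ J, 1 ≤ i ∧ i + k ≤ n + 1)
    (hIJ : ∀ i i', 1 ≤ i → 1 ≤ i' → i + i' + k = n + 2 → (i ∈ I ↔ i' ∈ J)) :
    count (rvp π) J n = count π I n := by
  unfold count
  apply Nat.card_congr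
  refine (Equiv.subtypeEquiv ⟨rvp, rvp, rvp_rvp, rvp_rvp⟩ ?_).symm
  intro w
  simp only [Equiv.coe_fn_mk]
  constructor
  · intro h i'
    by_cases h1 : 1 ≤ i' ∧ i' + k ≤ n + 1
    · rw [occursAt_rvp π w (i := n + 2 - k - i') (by omega) h1.1 (by omega), h,
        hIJ (n + 2 - k - i') i' (by omega) h1.1 (by omega)]
    · exact iff_of_false (fun h2 => h1 ⟨h2.1, h2.2.1⟩) (fun h2 => h1 (hJ i' h2))
  · intro h i
    by_cases h1 : 1 ≤ i ∧ i + k ≤ n + 1
    · rw [← occursAt_rvp π w (i := i) (i' := n + 2 - k - i) h1.1 (by omega) (by omega), h,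
        hIJ i (n + 2 - k - i) h1.1 (by omega) (by omega)]
    · exact iff_of_false (fun h2 => h1 ⟨h2.1, h2.2.1⟩) (fun h2 => h1 (hI i h2))

lemma Rt_rvp {k : ℕ} (π : Equiv.Perm (Fin k)) {i i' N : ℕ} (hi : 1 ≤ i) (hi' : 1 ≤ i')
    (h : i + i' + k = N + 2) : Rt (rvp π) i' N = Rt π i N := by
  unfold Rt
  rw [count_rvp π (I := {i}) (J := {i'}), count_rvp π (I := ∅) (J := ∅)]
  · simp
  · simp
  · simp
  · intro j hj; rw [Finset.mem_singleton] at hj; omega
  · intro j hj; rw [Finset.mem_singleton] at hj; omega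
  · intro j j' h1 h2 h3
    rw [Finset.mem_singleton, Finset.mem_singleton]
    omega

/-- The quotient for one occurrence converges. -/
theorem Rt_limit {k : ℕ} (hk : 3 ≤ k) (π : Equiv.Perm (Fin k)) :
    ∃ (A : ℕ) (C K θ : ℝ), 0 < C ∧ 0 ≤ K ∧ 0 < θ ∧ θ < 1 ∧
      ∀ i N, A ≤ i → i + A ≤ N → |Rt π i N - C| ≤ K * θ ^ (min i (N - i)) := by
  obtain ⟨A₁, L₁, K₁, θ₁, c₁, h₁⟩ := exists_InsP hk π
  obtain ⟨A₂, L₂, K₂, θ₂, c₂, h₂⟩ := exists_InsP hk (rvp π)
  set θ := max θ₁ θ₂ with hθ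
  have hθ0 : 0 < θ := lt_of_lt_of_le h₁.hθ0 (le_max_left _ _)
  have hθ1 : θ < 1 := max_lt h₁.hθ1 h₂.hθ1
  set K := max K₁ K₂ with hK
  have hK0 : 0 ≤ K := h₁.hK.trans (le_max_left _ _)
  obtain ⟨C, hC1, hC2⟩ := two_cauchy (R := Rt π) (A := A₁ + A₂ + k) hK0 hθ0 hθ1 (by
      intro i N h1 h2
      refine (h₁.step i N (by omega) (by omega)).trans ?_
      apply mul_le_mul (le_max_left _ _) _ (pow_nonneg h₁.hθ0.le _) hK0
      exact pow_le_pow_left₀ h₁.hθ0.le (le_max_left _ _) _) (by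
      intro i N h1 h2
      rw [← Rt_rvp π (i := i) (i' := N + 2 - k - i) (by omega) (by omega) (by omega),
        ← Rt_rvp π (i := i + 1) (i' := N + 2 - k - i) (N := N + 1) (by omega) (by omega)
          (by omega)]
      refine (h₂.step (N + 2 - k - i) N (by omega) (by omega)).trans ?_
      calc K₂ * θ₂ ^ (N - (N + 2 - k - i)) ≤ K₂ * θ₂ ^ i := by
            apply mul_le_mul_of_nonneg_left _ h₂.hK
            exact pow_le_pow_of_le_one h₂.hθ0.le h₂.hθ1.le (by omega)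
        _ ≤ K * θ ^ i := by
            apply mul_le_mul (le_max_right _ _) _ (pow_nonneg h₂.hθ0.le _) hK0
            exact pow_le_pow_left₀ h₂.hθ0.le (le_max_right _ _) _)
  have hCpos : 0 < C := h₁.hc.trans_le (hC2 c₁ (fun i N h1 h2 =>
    h₁.low i N (by omega) (by omega)))
  refine ⟨A₁ + A₂ + k, C, 3 * K / (1 - θ), θ, hCpos, ?_, hθ0, hθ1, hC1⟩
  have : 0 < 1 - θ := by linarith
  positivity

end

end Q165.CP
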