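import Mathlib

/-!
Separated sets of indices.
-/

namespace Q165.CP

/-- The elements of `I` are at most `n` and at least `g`, at distance at least `g` from `n`, and
at distance at least `g` from each other. -/
def Separated (g : ℝ) (n : ℕ) (I : Finset ℕ) : Prop :=
  (∀ i ∈ I, i ≤ n ∧ g ≤ i ∧ g ≤ (n : ℝ) - i) ∧ ∀ i ∈ I, ∀ j ∈ I, i < j → g ≤ (j : ℝ) - i

end Q165.CP
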