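import Pool.Agent.Q165.CPSep
import Pool.Agent.Q165.CPSepDef

/-!
The numbers of permutations with well separated occurrences of a consecutive pattern: induction
over the number of occurrences.
-/

open Filter

namespace Q165.CP

lemma Separated.mono {g g' : ℝ} {n : ℕ} {I : Finset ℕ} (h : Separated g n I) (hg : g' ≤ g) :
    Separated g' n I := by
  refine ⟨fun i hi => ?_, fun i hi j hj hij => hg.trans (h.2 i hi j hj hij)⟩
  obtain ⟨h1, h2, h3⟩ := h.1 i hi
  exact ⟨h1, hg.trans h2, hg.trans h3⟩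

lemma Separated.subset {g : ℝ} {n : ℕ} {I J : Finset ℕ} (h : Separated g n I) (hJ : J ⊆ I) :
    Separated g n J :=
  ⟨fun i hi => h.1 i (hJ hi), fun i hi j hj hij => h.2 i (hJ hi) j (hJ hj) hij⟩

theorem sep_bound {k : ℕ} (hk : 3 ≤ k) (π : Equiv.Perm (Fin k)) :
    ∃ (C θ : ℝ) (g₀ : ℕ), 0 < C ∧ 0 < θ ∧ θ < 1 ∧ ∀ a : ℕ, ∃ K : ℝ, 0 ≤ K ∧
      ∀ (g n : ℕ) (I : Finset ℕ), g₀ ≤ g → I.card = a → Separated g n I →
        |(count π I n : ℝ) - C ^ a * count π ∅ n| ≤ K * θ ^ g * count π ∅ n := by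
  obtain ⟨A₁, L, K₁, θ₁, c, h₁⟩ := exists_InsP hk π
  obtain ⟨A₂, C, K₂, θ₂, hC, hK₂, hθ₂0, hθ₂1, h₂⟩ := Rt_limit hk π
  set θ := max θ₁ θ₂ with hθ
  have hθ0 : 0 < θ := lt_of_lt_of_le h₁.hθ0 (le_max_left _ _)
  have hθ1 : θ < 1 := max_lt h₁.hθ1 hθ₂1
  have hK₁ := h₁.hK
  refine ⟨C, θ, A₁ + A₂ + 1, hC, hθ0, hθ1, fun a => ?_⟩
  induction a with
  | zero =>
    refine ⟨0, le_rfl, fun g n I _ hI _ => ?_⟩
    rw [Finset.card_eq_zero] at hI
    subst hI
    simp
  | succ a ih =>
    obtain ⟨K, hK, ih⟩ := ih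
    refine ⟨(K₁ + K₂) * (C ^ a + K) + C * K, by positivity, fun g n I hg hI hsep => ?_⟩
    have hne : I.Nonempty := by
      rw [← Finset.card_pos]; omega
    set i := I.max' hne with hi
    have hiI : i ∈ I := Finset.max'_mem I hne
    set I' := I.erase i with hI'
    have hcard : I'.card = a := by
      rw [hI', Finset.card_erase_of_mem hiI]; omega
    have hins : insert i I' = I := Finset.insert_erase hiI
    have hsub : I' ⊆ I := Finset.erase_subset _ _
    have hsep' := hsep.subset hsub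
    obtain ⟨i1, i2, i3⟩ := hsep.1 i hiI
    have i2' : g ≤ i := by exact_mod_cast i2
    have i3' : g + i ≤ n := by
      have : (g : ℝ) + i ≤ n := by linarith
      exact_mod_cast this
    -- the elements of I'
    have hlt : ∀ j ∈ I', j + g ≤ i := by
      intro j hj
      have hjI := hsub hj
      have hle : j ≤ i := Finset.le_max' I j hjI
      have hne' : j ≠ i := Finset.ne_of_mem_erase hj
      have := hsep.2 j hjI i hiI (by omega)
      have h3 : (j : ℝ) + g ≤ i := by linarith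
      exact_mod_cast h3
    set s := I'.sup id with hs
    have hsi : s + g ≤ i := by
      have : s ≤ i - g := by
        apply Finset.sup_le
        intro j hj
        have := hlt j hj
        simp only [id]
        omega
      omega
    have hIs : ∀ j ∈ I', 1 ≤ j ∧ j ≤ s := by
      intro j hj
      refine ⟨?_, Finset.le_sup (f := id) hj⟩
      have := (hsep.1 j (hsub hj)).2.1
      have h3 : g ≤ j := by exact_mod_cast this
      omega
    obtain ⟨x, y, g1, g2, g3, g4, g5⟩ := h₁.ins s i n (by omega) (by omega)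
    have hpos : (0 : ℝ) < count π ∅ n := by exact_mod_cast h₁.pos n (by omega)
    have p1 := g5 I' hIs
    rw [hins] at p1
    have p2 := g5 ∅ (by simp)
    have e2 : insert i (∅ : Finset ℕ) = {i} := by simp
    rw [e2] at p2
    have hR1 : x ≤ Rt π i n := by
      unfold Rt; rw [le_div_iff₀ hpos]; exact p2.1
    have hR2 : Rt π i n ≤ y := by
      unfold Rt; rw [div_le_iff₀ hpos]; exact p2.2
    set R := Rt π i n with hRdef
    set u : ℝ := (count π I n : ℝ) with hu
    set v : ℝ := (count π I' n : ℝ) with hv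
    set w : ℝ := (count π ∅ n : ℝ) with hw
    have hv0 : 0 ≤ v := by rw [hv]; positivity
    have hθg : 0 < θ ^ g := by positivity
    have hyx : y - x ≤ K₁ * θ ^ g := by
      refine g4.trans ?_
      apply mul_le_mul_of_nonneg_left _ hK₁
      calc θ₁ ^ (i - s) ≤ θ₁ ^ g := pow_le_pow_of_le_one h₁.hθ0.le h₁.hθ1.le (by omega)
        _ ≤ θ ^ g := pow_le_pow_left₀ h₁.hθ0.le (le_max_left _ _) _
    have hRC : |R - C| ≤ K₂ * θ ^ g := by
      refine (h₂ i n (by omega) (by omega)).trans ?_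
      apply mul_le_mul_of_nonneg_left _ hK₂
      calc θ₂ ^ (min i (n - i)) ≤ θ₂ ^ g := by
            apply pow_le_pow_of_le_one hθ₂0.le hθ₂1.le
            rw [le_min_iff]; omega
        _ ≤ θ ^ g := pow_le_pow_left₀ hθ₂0.le (le_max_right _ _) _
    have hIH := ih g n I' hg hcard hsep'
    rw [← hv, ← hw] at hIH
    have hvw : v ≤ (C ^ a + K) * w := by
      have h3 := (abs_le.1 hIH).2
      have h4 : θ ^ g ≤ 1 := pow_le_one₀ hθ0.le hθ1.le
      have h5 : K * θ ^ g * w ≤ K * 1 * w := by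
        apply mul_le_mul_of_nonneg_right _ hpos.le
        exact mul_le_mul_of_nonneg_left h4 hK
      linarith
    have t1 : |u - R * v| ≤ K₁ * θ ^ g * v := by
      have h3 : |u - R * v| ≤ (y - x) * v := by
        rw [abs_le]
        constructor
        · have : R * v ≤ y * v := mul_le_mul_of_nonneg_right hR2 hv0
          linarith [p1.1]
        · have : x * v ≤ R * v := mul_le_mul_of_nonneg_right hR1 hv0
          linarith [p1.2]
      exact h3.trans (mul_le_mul_of_nonneg_right hyx hv0)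
    have t2 : |(R - C) * v| ≤ K₂ * θ ^ g * v := by
      rw [abs_mul, abs_of_nonneg hv0]
      exact mul_le_mul_of_nonneg_right hRC hv0
    have t3 : |C * (v - C ^ a * w)| ≤ C * (K * θ ^ g * w) := by
      rw [abs_mul, abs_of_pos hC]
      exact mul_le_mul_of_nonneg_left hIH hC.le
    calc |u - C ^ (a + 1) * w| = |(u - R * v) + (R - C) * v + C * (v - C ^ a * w)| := by
          congr 1; ring
      _ ≤ |(u - R * v) + (R - C) * v| + |C * (v - C ^ a * w)| := abs_add_le _ _
      _ ≤ |u - R * v| + |(R - C) * v| + |C * (v - C ^ a * w)| := by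
          gcongr; exact abs_add_le _ _
      _ ≤ K₁ * θ ^ g * v + K₂ * θ ^ g * v + C * (K * θ ^ g * w) := by gcongr
      _ = (K₁ + K₂) * θ ^ g * v + C * (K * θ ^ g * w) := by ring
      _ ≤ (K₁ + K₂) * θ ^ g * ((C ^ a + K) * w) + C * (K * θ ^ g * w) := by gcongr
      _ = _ := by ring

/-- There is always a permutation which avoids the pattern. -/
lemma count_empty_pos {k : ℕ} (hk : 3 ≤ k) (π : Equiv.Perm (Fin k)) (n : ℕ) :
    1 ≤ count π ∅ n := by
  unfold count
  rw [Nat.succ_le_iff, Nat.card_pos_iff]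
  refine ⟨?_, inferInstance⟩
  by_cases h : π ⟨0, by omega⟩ < π ⟨1, by omega⟩
  · refine ⟨⟨Fin.revPerm, fun i => ?_⟩⟩
    simp only [Finset.notMem_empty, iff_false]
    rintro ⟨h1, h2, h3⟩
    have := (h3 ⟨0, by omega⟩ ⟨1, by omega⟩ (by simp; omega) (by simp; omega)).2 h
    rw [Fin.revPerm_apply, Fin.revPerm_apply, Fin.rev_lt_rev, Fin.lt_def] at this
    simp at this
  · refine ⟨⟨1, fun i => ?_⟩⟩
    simp only [Finset.notMem_empty, iff_false]
    rintro ⟨h1, h2, h3⟩
    apply h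
    refine (h3 ⟨0, by omega⟩ ⟨1, by omega⟩ (by simp; omega) (by simp; omega)).1 ?_
    rw [Equiv.Perm.one_apply, Equiv.Perm.one_apply, Fin.lt_def]
    simp

lemma count_le {k : ℕ} (π : Equiv.Perm (Fin k)) (I : Finset ℕ) (n : ℕ) :
    count π I n ≤ n.factorial := by
  unfold count
  calc _ ≤ Nat.card (Equiv.Perm (Fin n)) :=
        Nat.card_le_card_of_injective _ Subtype.val_injective
    _ = n.factorial := by rw [Nat.card_eq_fintype_card, Fintype.card_perm, Fintype.card_fin]

/-- `θ ^ √n` decays faster than every power of `n`. -/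
lemma sqrt_decay {θ : ℝ} (h0 : 0 < θ) (h1 : θ < 1) (m : ℕ) :
    ∃ B : ℝ, 0 ≤ B ∧ ∀ n : ℕ, θ ^ (Nat.sqrt n) * (n : ℝ) ^ m ≤ B := by
  have ht : Tendsto (fun j : ℕ => ((j : ℝ) + 1) ^ (2 * m) * θ ^ j) atTop (nhds 0) := by
    have h2 : Tendsto (fun j : ℕ => ((j + 1 : ℕ) : ℝ) ^ (2 * m) * θ ^ (j + 1)) atTop (nhds 0) :=
      (tendsto_pow_const_mul_const_pow_of_lt_one (2 * m) h0.le h1).comp (tendsto_add_atTop_nat 1)
    have h3 := h2.const_mul θ⁻¹
    rw [mul_zero] at h3
    refine h3.congr (fun j => ?_)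
    push_cast
    rw [pow_succ]
    field_simp
  obtain ⟨B, hB⟩ := ht.bddAbove_range
  refine ⟨B, ?_, fun n => ?_⟩
  · have := hB (Set.mem_range_self 0)
    simp only [Nat.cast_zero, zero_add, one_pow, pow_zero, mul_one] at this
    linarith
  · have h2 : (n : ℝ) ≤ ((Nat.sqrt n : ℝ) + 1) ^ 2 := by
      have := Nat.lt_succ_sqrt' n
      have h3 : n ≤ (Nat.sqrt n + 1) ^ 2 := this.le
      exact_mod_cast h3
    have h4 := hB (Set.mem_range_self (Nat.sqrt n))
    refine le_trans ?_ h4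
    rw [mul_comm]
    apply mul_le_mul_of_nonneg_right _ (by positivity)
    calc (n : ℝ) ^ m ≤ (((Nat.sqrt n : ℝ) + 1) ^ 2) ^ m := pow_le_pow_left₀ (by positivity) h2 m
      _ = _ := by rw [← pow_mul]

/-- The numbers for the `√n`-separated sets. -/
theorem sep_main {k : ℕ} (hk : 3 ≤ k) (π : Equiv.Perm (Fin k)) :
    ∃ (C θ : ℝ) (g₀ : ℕ), 0 < C ∧ 0 < θ ∧ θ < 1 ∧ ∀ a : ℕ,
      (∃ K : ℝ, ∀ (g n : ℕ) (I : Finset ℕ), g₀ ≤ g → I.card = a → Separated g n I →
        |(count π I n : ℝ) - C ^ a * count π ∅ n| ≤ K * θ ^ g * (C ^ a * count π ∅ n)) ∧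
      ∀ α : ℝ, ∃ K : ℝ, ∀ (n : ℕ) (I : Finset ℕ), 1 ≤ n → I.card = a →
        Separated (Real.sqrt n) n I →
        |(count π I n : ℝ) - C ^ a * count π ∅ n| ≤
          K * (n : ℝ) ^ (-α) * (C ^ a * count π ∅ n) := by
  obtain ⟨C, θ, g₀, hC, hθ0, hθ1, h⟩ := sep_bound hk π
  refine ⟨C, θ, g₀, hC, hθ0, hθ1, fun a => ?_⟩
  obtain ⟨K, hK, hKb⟩ := h a
  have hCa : 0 < C ^ a := by positivity
  refine ⟨⟨K / C ^ a, fun g n I hg hI hs => ?_⟩, fun α => ?_⟩
  · refine (hKb g n I hg hI hs).trans (le_of_eq ?_)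
    field_simp
  · obtain ⟨m, hm⟩ := exists_nat_ge α
    obtain ⟨B, hB, hBb⟩ := sqrt_decay hθ0 hθ1 m
    set N₀ := g₀ ^ 2 with hN₀
    set F : ℝ := (N₀.factorial : ℝ) / C ^ a + 1 with hF
    have hF0 : 0 ≤ F := by positivity
    refine ⟨K / C ^ a * B + F * (N₀ : ℝ) ^ m, fun n I hn hI hs => ?_⟩
    have hnpos : (0 : ℝ) < n := by exact_mod_cast hn
    have hn1 : (1 : ℝ) ≤ n := by exact_mod_cast hn
    have hw1 : (1 : ℝ) ≤ count π ∅ n := by exact_mod_cast count_empty_pos hk π n
    set w : ℝ := (count π ∅ n : ℝ) with hw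
    have hpow : ((n : ℝ) ^ m)⁻¹ ≤ (n : ℝ) ^ (-α) := by
      rw [← Real.rpow_natCast, ← Real.rpow_neg hnpos.le]
      exact Real.rpow_le_rpow_of_exponent_le hn1 (by linarith)
    have hnm : 0 < (n : ℝ) ^ m := by positivity
    have key : |(count π I n : ℝ) - C ^ a * w| ≤
        (K / C ^ a * B + F * (N₀ : ℝ) ^ m) * ((n : ℝ) ^ m)⁻¹ * (C ^ a * w) := by
      by_cases hg : g₀ ≤ Nat.sqrt n
      · have h1 := hKb (Nat.sqrt n) n I hg hI (hs.mono (by
          exact Real.nat_sqrt_le_real_sqrt))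
        rw [← hw] at h1
        have h2 := hBb n
        have h3 : θ ^ (Nat.sqrt n) ≤ B * ((n : ℝ) ^ m)⁻¹ := by
          rw [← div_eq_mul_inv, le_div_iff₀ hnm]; exact h2
        calc _ ≤ K * θ ^ (Nat.sqrt n) * w := h1
          _ ≤ K * (B * ((n : ℝ) ^ m)⁻¹) * w := by gcongr
          _ = (K / C ^ a * B) * ((n : ℝ) ^ m)⁻¹ * (C ^ a * w) := by field_simp
          _ ≤ _ := by
              gcongr
              have : 0 ≤ F * (N₀ : ℝ) ^ m := by positivity
              linarith
      · have hnN : n ≤ N₀ := by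
          push Not at hg
          have h1 := Nat.lt_succ_sqrt' n
          have h2 : (Nat.sqrt n).succ ^ 2 ≤ g₀ ^ 2 := Nat.pow_le_pow_left (by omega) 2
          omega
        have h1 : (count π I n : ℝ) ≤ N₀.factorial := by
          exact_mod_cast (count_le π I n).trans (Nat.factorial_le hnN)
        have h2 : |(count π I n : ℝ) - C ^ a * w| ≤ N₀.factorial + C ^ a * w := by
          have h3 : (0 : ℝ) ≤ count π I n := by positivity
          have h4 : 0 ≤ C ^ a * w := by positivity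
          rw [abs_le]
          constructor <;> linarith
        have h3 : (N₀.factorial : ℝ) + C ^ a * w ≤ F * (C ^ a * w) := by
          have h4 : (N₀.factorial : ℝ) ≤ (N₀.factorial : ℝ) / C ^ a * (C ^ a * w) := by
            have e : (N₀.factorial : ℝ) / C ^ a * (C ^ a * w) = N₀.factorial * w := by field_simp
            rw [e]
            exact le_mul_of_one_le_right (by positivity) hw1
          rw [hF, add_mul, one_mul]
          linarith
        have h4 : (1 : ℝ) ≤ (N₀ : ℝ) ^ m * ((n : ℝ) ^ m)⁻¹ := by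
          rw [← div_eq_mul_inv, one_le_div hnm]
          exact pow_le_pow_left₀ hnpos.le (by exact_mod_cast hnN) m
        calc _ ≤ F * (C ^ a * w) := h2.trans h3
          _ = F * 1 * (C ^ a * w) := by ring
          _ ≤ F * ((N₀ : ℝ) ^ m * ((n : ℝ) ^ m)⁻¹) * (C ^ a * w) := by gcongr
          _ = (F * (N₀ : ℝ) ^ m) * ((n : ℝ) ^ m)⁻¹ * (C ^ a * w) := by ring
          _ ≤ _ := by
              gcongr
              have : 0 ≤ K / C ^ a * B := by positivity
              linarith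
    refine key.trans ?_
    gcongr

end Q165.CP
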