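import Pool.Agent.Q165.CPDD

/-!
There is a permutation with a single double descent at a prescribed place.
-/

open Filter Topology

namespace Q165.CP

/-- The word `n-i+1, ..., n-1, n-i, 0, 1, ..., n-i-1` (zero-based values). -/
def sw (n i p : ℕ) : ℕ := if p + 1 < i then p + (n - i + 1) else if p + 1 = i then n - i else p - i

lemma sw_lt {n i : ℕ} (hi : 2 ≤ i) (hn : i + 1 ≤ n) (p : Fin n) : sw n i p < n := by
  have := p.2
  unfold sw
  split_ifs <;> omega

lemma sw_inj {n i p q : ℕ} (hi : 2 ≤ i) (hn : i + 1 ≤ n) (hp : p < n) (hq : q < n)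
    (h : sw n i p = sw n i q) : p = q := by
  unfold sw at h
  split_ifs at h <;> omega

theorem ddc_single_pos {i n : ℕ} (hi : 2 ≤ i) (hn : i + 1 ≤ n) : 0 < ddc {i} n := by
  have hb : Function.Bijective (fun p : Fin n => (⟨sw n i p, sw_lt hi hn p⟩ : Fin n)) := by
    rw [← Finite.injective_iff_bijective]
    intro p q h
    exact Fin.ext (sw_inj hi hn p.2 q.2 (Fin.mk.inj_iff.1 h))
  let w : Equiv.Perm (Fin n) := Equiv.ofBijective _ hb
  have hw : ∀ p : Fin n, (w p : ℕ) = sw n i p := fun p => rfl
  unfold ddc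
  rw [Nat.card_pos_iff]
  refine ⟨⟨⟨w, ?_⟩⟩, inferInstance⟩
  intro j
  rw [Finset.mem_singleton]
  unfold IsDD
  constructor
  · rintro ⟨h2, h3, h4, h5⟩
    rw [Fin.lt_def, hw, hw] at h4 h5
    simp only [sw] at h4 h5
    by_contra hne
    rcases Nat.lt_or_ge j i with hlt | hge
    · rw [if_pos (by omega), if_pos (by omega)] at h4
      omega
    · rw [if_neg (by omega), if_neg (by omega), if_neg (by omega)] at h5
      rw [if_neg (by omega)] at h5
      omega
  · rintro rfl
    refine ⟨hi, by omega, ?_, ?_⟩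
    · rw [Fin.lt_def, hw, hw]
      simp only [sw]
      rw [if_neg (by omega), if_pos (by omega), if_pos (by omega)]
      omega
    · rw [Fin.lt_def, hw, hw]
      simp only [sw]
      rw [if_neg (by omega), if_neg (by omega), if_neg (by omega), if_pos (by omega)]
      omega

end Q165.CP
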