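import Pool.Agent.Q165.CPForce

/-!
Two steps: from every window one reaches, with a probability comparable to the probability to
survive two steps, a window that is not forced.
-/

open MeasureTheory Set Function
open scoped ENNReal

namespace Q165.CP

noncomputable section

variable {d : ℕ} (π : Equiv.Perm (Fin (d + 1)))

/-- The pattern `d (d-1) ... 1 (d+1)`. -/
def Special : Prop :=
  (∀ a b : Fin (d + 1), a < b → b ≠ Fin.last d → π b < π a) ∧
    ∀ a, a ≠ Fin.last d → π a < π (Fin.last d)

lemma a1_eq_one_of {t : ℕ} {z : Sq} (h : ∀ u, ¬ occ π (Function.update z (t + d) u) t) :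
    a1 π t z = 1 := by
  rw [a1_eq]
  have : {u | ¬ occ π (Function.update z (t + d) u) t} = Set.univ := by
    ext u; simp [h u]
  rw [this, measure_univ]

lemma forced_low {t : ℕ} {z : Sq} (h : a1 π t z < ENNReal.ofReal (1 / 4)) {a : Fin (d + 1)}
    (ha : π a < π (Fin.last d)) : z (t + a) < 1 / 4 := by
  by_contra hc
  push Not at hc
  exact absurd (a1_ge_of_le π ha (by norm_num) hc) (not_le.2 h)

lemma forced_high {t : ℕ} {z : Sq} (h : a1 π t z < ENNReal.ofReal (1 / 4)) {a : Fin (d + 1)}
    (ha : π (Fin.last d) < π a) : 3 / 4 < z (t + a) := by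
  by_contra hc
  push Not at hc
  exact absurd (a1_ge_of_ge π (z := 1 / 4) ha (by norm_num) (by linarith)) (not_le.2 h)

lemma forced_order {t : ℕ} {z : Sq} (h : a1 π t z < ENNReal.ofReal (1 / 4)) {a b : Fin (d + 1)}
    (ha : (a : ℕ) < d) (hb : (b : ℕ) < d) : z (t + a) < z (t + b) ↔ π a < π b := by
  have h1 : ∃ u, occ π (Function.update z (t + d) u) t := by
    by_contra hc
    push Not at hc
    rw [a1_eq_one_of π hc] at h
    exact absurd h (not_lt.2 (by rw [ENNReal.ofReal_le_one]; norm_num))
  obtain ⟨u, hu⟩ := h1
  have := hu a b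
  rwa [upd_ne _ _ (by omega), upd_ne _ _ (by omega)] at this

lemma no_two (hd : 2 ≤ d) (h0 : π (Fin.last d) ≠ 0) (hS : ¬ Special π) {s : ℕ} {x : Sq} {u : ℝ}
    (h1 : a1 π s x < ENNReal.ofReal (1 / 4)) (h2 : ¬ occ π (Function.update x (s + d) u) s)
    (h3 : a1 π (s + 1) (Function.update x (s + d) u) < ENNReal.ofReal (1 / 4)) : False := by
  set y := Function.update x (s + d) u with hy
  -- shifted values
  have hsh : ∀ n : ℕ, n + 1 < d → y (s + 1 + n) = x (s + (n + 1)) := by
    intro n hn
    rw [hy, upd_ne _ _ (by omega)]
    congr 1; ring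
  let p : ℕ → Fin (d + 1) := fun n => if h : n < d + 1 then ⟨n, h⟩ else 0
  have hp : ∀ n, n < d + 1 → ((p n : Fin (d + 1)) : ℕ) = n := by
    intro n hn
    change ((if h : n < d + 1 then (⟨n, h⟩ : Fin (d + 1)) else 0 : Fin (d + 1)) : ℕ) = n
    rw [dif_pos hn]
  have hpF : ∀ a : Fin (d + 1), p a = a := by
    intro a; exact Fin.ext (hp a a.2)
  have hlast : p d = Fin.last d := by
    apply Fin.ext; rw [hp d (by omega)]; simp
  have hinj : ∀ m n, m < d + 1 → n < d + 1 → m ≠ n → π (p m) ≠ π (p n) := by
    intro m n hm hn hmn h
    apply hmn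
    have := congrArg Fin.val (π.injective h)
    rwa [hp m hm, hp n hn] at this
  -- types
  have htype : ∀ n, n + 1 < d → (π (p n) < π (Fin.last d) ↔ π (p (n + 1)) < π (Fin.last d)) := by
    intro n hn
    have hA : y (s + 1 + (p n : ℕ)) = x (s + (p (n + 1) : ℕ)) := by
      rw [hp n (by omega), hp (n + 1) (by omega), hsh n hn]
    constructor
    · intro h
      have e1 := forced_low π h3 h
      rcases lt_or_gt_of_ne (hinj (n + 1) d (by omega) (by omega) (by omega)) with h4 | h4
      · rwa [hlast] at h4
      · rw [hlast] at h4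
        have e2 := forced_high π h1 h4
        rw [hA] at e1
        linarith
    · intro h
      have e1 := forced_low π h1 h
      rcases lt_or_gt_of_ne (hinj n d (by omega) (by omega) (by omega)) with h4 | h4
      · rwa [hlast] at h4
      · rw [hlast] at h4
        have e2 := forced_high π h3 h4
        rw [hA] at e2
        linarith
  have htype0 : ∀ n, n < d → (π (p n) < π (Fin.last d) ↔ π (p 0) < π (Fin.last d)) := by
    intro n
    induction n with
    | zero => intro _; rfl
    | succ n ih =>
      intro hn
      rw [← htype n (by omega)]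
      exact ih (by omega)
  have hmax : ∀ n, n < d → π (p n) < π (Fin.last d) := by
    have hb : ∃ b : Fin (d + 1), π b < π (Fin.last d) := by
      refine ⟨π.symm 0, ?_⟩
      rw [Equiv.apply_symm_apply]
      exact Fin.pos_iff_ne_zero.2 h0
    obtain ⟨b, hb⟩ := hb
    have hbd : (b : ℕ) < d := by
      by_contra hc
      have : b = Fin.last d := Fin.ext (by have := b.2; simp; omega)
      subst this
      exact lt_irrefl _ hb
    have h00 : π (p 0) < π (Fin.last d) := by
      rw [← htype0 b hbd, hpF]; exact hb
    intro n hn
    rw [htype0 n hn]; exact h00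
  -- order
  have hord : ∀ m n, m + 1 < d → n + 1 < d → (π (p m) < π (p n) ↔ π (p (m + 1)) < π (p (n + 1))) := by
    intro m n hm hn
    have e1 := forced_order π h3 (a := p m) (b := p n) (by rw [hp m (by omega)]; omega)
      (by rw [hp n (by omega)]; omega)
    have e2 := forced_order π h1 (a := p (m + 1)) (b := p (n + 1)) (by rw [hp _ (by omega)]; omega)
      (by rw [hp _ (by omega)]; omega)
    rw [hp m (by omega), hp n (by omega), hsh m hm, hsh n hn] at e1
    rw [hp _ (by omega), hp _ (by omega)] at e2
    rw [← e1, ← e2]
  have hR : ∀ n, n + 1 < d → (π (p n) < π (p (n + 1)) ↔ π (p 0) < π (p 1)) := by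
    intro n
    induction n with
    | zero => intro _; rfl
    | succ n ih =>
      intro hn
      rw [← hord n (n + 1) (by omega) (by omega)]
      exact ih (by omega)
  by_cases h01 : π (p 0) < π (p 1)
  · -- ascending
    have hasc : ∀ m, ∀ n, n < m → m < d → π (p n) < π (p m) := by
      intro m
      induction m with
      | zero => intro n hn; omega
      | succ m ih =>
        intro n hn hm
        have e1 := (hR m hm).2 h01
        by_cases hnm : n = m
        · subst hnm; exact e1
        · exact (ih n (by omega) (by omega)).trans e1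
    have hu : x (s + (d - 1)) < u := by
      have e1 := (forced_order π h3 (a := p (d - 2)) (b := p (d - 1))
        (by rw [hp _ (by omega)]; omega) (by rw [hp _ (by omega)]; omega)).2
        (hasc (d - 1) (d - 2) (by omega) (by omega))
      rw [hp _ (by omega), hp _ (by omega), hsh (d - 2) (by omega)] at e1
      have e2 : y (s + 1 + (d - 1)) = u := by
        have : s + 1 + (d - 1) = s + d := by omega
        rw [this, hy, upd_same]
      rw [e2] at e1
      have e3 : d - 2 + 1 = d - 1 := by omega
      rwa [e3] at e1
    have hle : ∀ n, n < d → x (s + n) < u := by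
      intro n hn
      by_cases hnd : n = d - 1
      · rw [hnd]; exact hu
      · have e1 := (forced_order π h1 (a := p n) (b := p (d - 1))
          (by rw [hp _ (by omega)]; omega) (by rw [hp _ (by omega)]; omega)).2
          (hasc (d - 1) n (by omega) (by omega))
        rw [hp _ (by omega), hp _ (by omega)] at e1
        exact e1.trans hu
    apply h2
    intro a b
    by_cases ha : (a : ℕ) < d
    · by_cases hb : (b : ℕ) < d
      · rw [hy, upd_ne _ _ (by omega), upd_ne _ _ (by omega)]
        exact forced_order π h1 ha hb
      · have hb' : b = Fin.last d := Fin.ext (by have := b.2; simp; omega)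
        subst hb'
        rw [Fin.val_last, hy, upd_same, upd_ne _ _ (by omega)]
        have := hmax a ha
        rw [hpF] at this
        exact iff_of_true (hle a ha) this
    · have ha' : a = Fin.last d := Fin.ext (by have := a.2; simp; omega)
      subst ha'
      by_cases hb : (b : ℕ) < d
      · rw [Fin.val_last, hy, upd_same, upd_ne _ _ (by omega)]
        have := hmax b hb
        rw [hpF] at this
        exact iff_of_false (not_lt.2 (hle b hb).le) (not_lt.2 this.le)
      · have hb' : b = Fin.last d := Fin.ext (by have := b.2; simp; omega)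
        subst hb'
        simp
  · apply hS
    have hdesc1 : ∀ n, n + 1 < d → π (p (n + 1)) < π (p n) := by
      intro n hn
      have e1 : ¬ π (p n) < π (p (n + 1)) := fun h => h01 ((hR n hn).1 h)
      exact lt_of_le_of_ne (not_lt.1 e1) (hinj _ _ (by omega) (by omega) (by omega))
    have hdesc : ∀ m, ∀ n, n < m → m < d → π (p m) < π (p n) := by
      intro m
      induction m with
      | zero => intro n hn; omega
      | succ m ih =>
        intro n hn hm
        have e1 := hdesc1 m hm
        by_cases hnm : n = m
        · subst hnm; exact e1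
        · exact e1.trans (ih n (by omega) (by omega))
    constructor
    · intro a b hab hb
      have hbd : (b : ℕ) < d := by
        have h5 : (b : ℕ) ≠ d := fun h => hb (Fin.ext (by simp [h]))
        have := b.2; omega
      have := hdesc b a hab hbd
      rwa [hpF, hpF] at this
    · intro a ha
      have had : (a : ℕ) < d := by
        have h5 : (a : ℕ) ≠ d := fun h => ha (Fin.ext (by simp [h]))
        have := a.2; omega
      have := hmax a had
      rwa [hpF] at this

open Classical in
/-- The indicator of: the next window is not forced. -/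
def g (t : ℕ) (x : Sq) : ℝ≥0∞ := if ENNReal.ofReal (1 / 16) ≤ a1 π t x then 1 else 0

lemma measurable_g (t : ℕ) : Measurable (g π t) :=
  Measurable.ite (measurableSet_le measurable_const (measurable_a1 π _)) measurable_const
    measurable_const

/-- The probability that the next window exists and is not forced. -/
def B (t : ℕ) (x : Sq) : ℝ≥0∞ := T π ∅ t (t + 1) (g π (t + 1)) x

lemma B_ge {t : ℕ} {x : Sq} {S : Set ℝ}
    (h : ∀ u ∈ S, ¬ occ π (Function.update x (t + d) u) t ∧
      ENNReal.ofReal (1 / 16) ≤ a1 π (t + 1) (Function.update x (t + d) u)) : U S ≤ B π t x := by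
  unfold B
  rw [T_one_step]
  apply lintegral_ge_of_set
  · exact ((measurable_E π ∅ _ _).comp (measurable_update x)).mul
      ((measurable_g π _).comp (measurable_update x))
  · intro u hu
    obtain ⟨h1, h2⟩ := h u hu
    rw [E_step]
    simp only [Set.indicator, Set.mem_ofPred_eq, h1, not_false_eq_true, if_true, one_mul]
    unfold g
    rw [if_pos h2]

lemma B_unforced (hd : 1 ≤ d) {t : ℕ} {x : Sq} (h : ENNReal.ofReal (1 / 4) ≤ a1 π t x) :
    ENNReal.ofReal (1 / 8) ≤ B π t x := by
  have h1 := step_mid π (z := 1 / 4) (by norm_num) (by norm_num) h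
  have h2 : (1 : ℝ) / 4 / 2 = 1 / 8 := by norm_num
  rw [h2] at h1
  refine h1.trans (B_ge π ?_)
  rintro u ⟨hu, hu1, hu2⟩
  refine ⟨hu, ?_⟩
  apply a1_ge_mid π (i := t + d) (by omega) (by omega) (by norm_num)
  · rw [upd_same]; linarith
  · rw [upd_same]; linarith

lemma B_unforced' (hd : 1 ≤ d) {t : ℕ} {x : Sq} (h : ENNReal.ofReal (1 / 4) ≤ a1 π t x) :
    ENNReal.ofReal (1 / 8) * a1 π t x ≤ B π t x := by
  calc ENNReal.ofReal (1 / 8) * a1 π t x ≤ ENNReal.ofReal (1 / 8) * 1 := by
        gcongr; exact a1_le_one π t x
    _ ≤ _ := by rw [mul_one]; exact B_unforced π hd h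

lemma B_nonspecial (hd : 2 ≤ d) (h0 : π (Fin.last d) ≠ 0) (hS : ¬ Special π) (t : ℕ) (x : Sq) :
    ENNReal.ofReal (1 / 8) * a1 π t x ≤ B π t x := by
  by_cases h : ENNReal.ofReal (1 / 4) ≤ a1 π t x
  · exact B_unforced' π (by omega) h
  · push Not at h
    calc ENNReal.ofReal (1 / 8) * a1 π t x ≤ 1 * a1 π t x := by
          gcongr; rw [ENNReal.ofReal_le_one]; norm_num
      _ = U {u | ¬ occ π (Function.update x (t + d) u) t} := by rw [one_mul, a1_eq]
      _ ≤ _ := by
        apply B_ge
        intro u hu
        refine ⟨hu, ?_⟩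
        by_contra hc
        push Not at hc
        exact no_two π hd h0 hS h hu
          (hc.trans_le (ENNReal.ofReal_le_ofReal (by norm_num)))

/-- The first `d` entries of the window are decreasing. -/
def Dec (t : ℕ) (x : Sq) : Prop :=
  ∀ a b : Fin (d + 1), a < b → b ≠ Fin.last d → x (t + b) < x (t + a)

lemma not_Dec_of (t : ℕ) {m n : ℕ} (hmn : m < n) (hn : n < d) {x : Sq}
    (h : x (t + m) ≤ x (t + n)) : ¬ Dec (d := d) t x := by
  intro hD
  have := hD ⟨m, by omega⟩ ⟨n, by omega⟩ (by simpa using hmn) (by
    intro h; have := congrArg Fin.val h; simp at this; omega)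
  simp only at this
  linarith

variable {π}

lemma Dec_of_occ (hS : Special π) {t : ℕ} {x : Sq} {u : ℝ}
    (h : occ π (Function.update x (t + d) u) t) : Dec (d := d) t x := by
  intro a b hab hb
  have hb' : (b : ℕ) ≠ d := fun h => hb (Fin.ext (by simp [h]))
  have hbl := b.2
  have hab' : (a : ℕ) < b := hab
  have := (h b a).2 (hS.1 a b hab hb)
  rwa [upd_ne _ _ (by omega), upd_ne _ _ (by omega)] at this

lemma a1_of_not_Dec (hS : Special π) {t : ℕ} {x : Sq} (h : ¬ Dec (d := d) t x) : a1 π t x = 1 :=
  a1_eq_one_of π fun _ hu => h (Dec_of_occ hS hu)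

lemma a1_of_Dec (hS : Special π) (hd : 2 ≤ d) {t : ℕ} {x : Sq} (h : Dec (d := d) t x) :
    a1 π t x ≤ U (Set.Iic (x t)) := by
  rw [a1_eq]
  apply measure_mono
  intro u hu
  by_contra hc
  simp only [Set.mem_Iic, not_le] at hc
  apply hu
  have hlt : ∀ a : Fin (d + 1), (a : ℕ) < d → x (t + a) < u := by
    intro a ha
    by_cases ha0 : a = 0
    · subst ha0; simpa using hc
    · have h1 : (0 : Fin (d + 1)) < a := Fin.pos_iff_ne_zero.2 ha0
      have := h 0 a h1 (fun h => by rw [h] at ha; simp at ha)
      simp only [Fin.val_zero, add_zero] at this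
      exact this.trans hc
  have hiff : ∀ a b : Fin (d + 1), (a : ℕ) < d → (b : ℕ) < d →
      (x (t + a) < x (t + b) ↔ π a < π b) := by
    intro a b ha hb
    rcases lt_trichotomy a b with hab | hab | hab
    · have h1 := h a b hab (fun h => by rw [h] at hb; simp at hb)
      have h2 := hS.1 a b hab (fun h => by rw [h] at hb; simp at hb)
      exact iff_of_false (not_lt.2 h1.le) (not_lt.2 h2.le)
    · subst hab; simp
    · have h1 := h b a hab (fun h => by rw [h] at ha; simp at ha)
      have h2 := hS.1 b a hab (fun h => by rw [h] at ha; simp at ha)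
      exact iff_of_true h1 h2
  intro a b
  by_cases ha : (a : ℕ) < d
  · by_cases hb : (b : ℕ) < d
    · rw [upd_ne _ _ (by omega), upd_ne _ _ (by omega)]
      exact hiff a b ha hb
    · have hb' : b = Fin.last d := Fin.ext (by have := b.2; simp; omega)
      subst hb'
      rw [Fin.val_last, upd_same, upd_ne _ _ (by omega)]
      exact iff_of_true (hlt a ha) (hS.2 a (fun h => by rw [h] at ha; simp at ha))
  · have ha' : a = Fin.last d := Fin.ext (by have := a.2; simp; omega)
    subst ha'
    by_cases hb : (b : ℕ) < d
    · rw [Fin.val_last, upd_same, upd_ne _ _ (by omega)]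
      exact iff_of_false (not_lt.2 (hlt b hb).le)
        (not_lt.2 (hS.2 b (fun h => by rw [h] at hb; simp at hb)).le)
    · have hb' : b = Fin.last d := Fin.ext (by have := b.2; simp; omega)
      subst hb'
      simp

lemma B_of_Dec (hS : Special π) (hd : 2 ≤ d) {t : ℕ} {x : Sq} (h : Dec (d := d) t x) {z : ℝ}
    (hz : x (t + (d - 1)) ≤ z) : U (Set.Ioc z (x t)) ≤ B π t x := by
  apply B_ge
  intro u hu
  constructor
  · apply not_occ_of_le π (a := 0) (hS.2 0 (fun h => by
      have := congrArg Fin.val h; simp at this; omega))
    simpa using hu.2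
  · rw [a1_of_not_Dec hS, ENNReal.ofReal_le_one]
    · norm_num
    · apply not_Dec_of (t + 1) (m := d - 2) (n := d - 1) (by omega) (by omega)
      have e1 : t + 1 + (d - 2) = t + (d - 1) := by omega
      have e2 : t + 1 + (d - 1) = t + d := by omega
      rw [e1, e2, upd_same, upd_ne _ _ (by omega)]
      exact hz.trans hu.1.le

lemma U_Iio_ge {z : ℝ} (h0 : 0 ≤ z) (h1 : z ≤ 1) : ENNReal.ofReal z ≤ U (Set.Iio z) := by
  unfold U
  rw [Measure.restrict_apply measurableSet_Iio]
  have : Set.Ico 0 z ⊆ Set.Iio z ∩ Set.Icc 0 1 := by
    intro u hu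
    exact ⟨hu.2, hu.1, hu.2.le.trans h1⟩
  calc ENNReal.ofReal z = volume (Set.Ico 0 z) := by rw [Real.volume_Ico, sub_zero]
    _ ≤ _ := measure_mono this

lemma U_Iio_le (z : ℝ) : U (Set.Iio z) ≤ ENNReal.ofReal (min z 1) := by
  unfold U
  rw [Measure.restrict_apply measurableSet_Iio]
  have : Set.Iio z ∩ Set.Icc 0 1 ⊆ Set.Icc 0 (min z 1) := by
    rintro u ⟨hu, hu0, hu1⟩
    exact ⟨hu0, le_min (le_of_lt hu) hu1⟩
  calc _ ≤ volume (Set.Icc 0 (min z 1)) := measure_mono this
    _ = ENNReal.ofReal (min z 1) := by rw [Real.volume_Icc, sub_zero]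

lemma U_Iic_le (z : ℝ) : U (Set.Iic z) ≤ ENNReal.ofReal (min z 1) := by
  unfold U
  rw [Measure.restrict_apply measurableSet_Iic]
  have : Set.Iic z ∩ Set.Icc 0 1 ⊆ Set.Icc 0 (min z 1) := by
    rintro u ⟨hu, hu0, hu1⟩
    exact ⟨hu0, le_min hu hu1⟩
  calc _ ≤ volume (Set.Icc 0 (min z 1)) := measure_mono this
    _ = ENNReal.ofReal (min z 1) := by rw [Real.volume_Icc, sub_zero]

lemma U_Ioc_ge {a b : ℝ} (h0 : 0 ≤ a) : ENNReal.ofReal (min b 1 - a) ≤ U (Set.Ioc a b) := by
  unfold U
  rw [Measure.restrict_apply measurableSet_Ioc]
  have : Set.Ioc a (min b 1) ⊆ Set.Ioc a b ∩ Set.Icc 0 1 := by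
    intro u hu
    exact ⟨⟨hu.1, hu.2.trans (min_le_left _ _)⟩, h0.trans hu.1.le, hu.2.trans (min_le_right _ _)⟩
  calc _ = volume (Set.Ioc a (min b 1)) := by rw [Real.volume_Ioc]
    _ ≤ _ := measure_mono this

lemma special_two (hS : Special π) (hd : 2 ≤ d) (s : ℕ) (x : Sq) :
    ENNReal.ofReal (1 / 8) * T π ∅ s (s + 1) (a1 π (s + 1)) x ≤ T π ∅ s (s + 1) (B π (s + 1)) x := by
  have hmB : Measurable (B π (s + 1)) := measurable_T π ∅ _ _ (measurable_g π _)
  rw [T_one_step, T_one_step, ← lintegral_const_mul]
  swap
  · exact ((measurable_E π ∅ _ _).comp (measurable_update x)).mul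
      ((measurable_a1 π _).comp (measurable_update x))
  by_cases hT : ∃ u, Dec (d := d) (s + 1) (Function.update x (s + d) u)
  · obtain ⟨u0, hu0⟩ := hT
    set m := x (s + (d - 1)) with hm
    set c := x (s + 1) with hc
    have hfirst : ∀ u, Function.update x (s + d) u (s + 1) = c := by
      intro u; rw [upd_ne _ _ (by omega)]
    have hmc : m ≤ c := by
      by_cases hd2 : d = 2
      · subst hd2; simp [hm, hc]
      · have := hu0 ⟨0, by omega⟩ ⟨d - 2, by omega⟩ (by
          rw [Fin.lt_def]; simp only; omega) (by
          intro h; have := congrArg Fin.val h; simp at this; omega)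
        simp only [add_zero] at this
        rw [upd_ne _ _ (by omega), hfirst] at this
        have e1 : s + 1 + (d - 2) = s + (d - 1) := by omega
        rw [e1] at this
        exact this.le
    have hDlow : ∀ u, u < m → Dec (d := d) (s + 1) (Function.update x (s + d) u) := by
      intro u hu a b hab hb
      have hbl := b.2
      have hb' : (b : ℕ) ≠ d := fun h => hb (Fin.ext (by simp [h]))
      have hab' : (a : ℕ) < b := hab
      by_cases hbd : (b : ℕ) = d - 1
      · have e1 : s + 1 + (b : ℕ) = s + d := by omega
        rw [e1, upd_same, upd_ne _ _ (by omega)]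
        by_cases had : (a : ℕ) = d - 2
        · have e2 : s + 1 + (a : ℕ) = s + (d - 1) := by omega
          rw [e2]; exact hu
        · have := hu0 a ⟨d - 2, by omega⟩ (by rw [Fin.lt_def]; simp only; omega) (by
            intro h; have := congrArg Fin.val h; simp at this; omega)
          simp only at this
          rw [upd_ne _ _ (by omega), upd_ne _ _ (by omega)] at this
          have e1 : s + 1 + (d - 2) = s + (d - 1) := by omega
          rw [e1] at this
          exact hu.trans this
      · have := hu0 a b hab hb
        rw [upd_ne _ _ (by omega), upd_ne _ _ (by omega)] at this ⊢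
        exact this
    have hDhigh : ∀ u, m ≤ u → ¬ Dec (d := d) (s + 1) (Function.update x (s + d) u) := by
      intro u hu
      apply not_Dec_of (s + 1) (m := d - 2) (n := d - 1) (by omega) (by omega)
      have e1 : s + 1 + (d - 2) = s + (d - 1) := by omega
      have e2 : s + 1 + (d - 1) = s + d := by omega
      rw [e1, e2, upd_same, upd_ne _ _ (by omega)]
      exact hu
    have hE : ∀ u, u < m → E π ∅ s (s + 1) (Function.update x (s + d) u) = 1 := by
      intro u hu
      rw [E_step]
      simp only [Set.indicator, Set.mem_ofPred_eq]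
      rw [if_pos]
      by_cases hus : u ≤ x s
      · apply not_occ_of_le π (a := 0) (hS.2 0 (fun h => by
          have := congrArg Fin.val h; simp at this; omega))
        simpa using hus
      · intro hocc
        push Not at hus
        have := Dec_of_occ hS hocc ⟨0, by omega⟩ ⟨d - 1, by omega⟩ (by
          rw [Fin.lt_def]; simp only; omega) (by
          intro h; have := congrArg Fin.val h; simp at this; omega)
        simp only [add_zero] at this
        rw [← hm] at this
        linarith
    rw [← lintegral_add_compl _ (measurableSet_Iio (a := m)),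
      ← lintegral_add_compl (fun u => E π ∅ s (s + 1) (Function.update x (s + d) u) *
        B π (s + 1) (Function.update x (s + d) u)) (measurableSet_Iio (a := m))]
    apply add_le_add
    · -- the low part
      by_cases hm0 : m ≤ 0
      · have : U (Set.Iio m) = 0 := by
          apply le_antisymm _ zero_le
          refine (U_Iio_le m).trans ?_
          rw [ENNReal.ofReal_of_nonpos]
          exact (min_le_left _ _).trans hm0
        rw [setLIntegral_measure_zero _ _ this]
        exact zero_le
      · push Not at hm0
        set m' := min m 1 with hm'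
        have hm'0 : 0 < m' := lt_min hm0 one_pos
        have hm'1 : m' ≤ 1 := min_le_right _ _
        have hm'm : m' ≤ m := min_le_left _ _
        set c' := min c 1 with hc'
        have hc'm : m' ≤ c' := min_le_min_right _ hmc
        have hc'1 : c' ≤ 1 := min_le_right _ _
        have h1 : ∫⁻ u in Set.Iio m, ENNReal.ofReal (1 / 8) *
            (E π ∅ s (s + 1) (Function.update x (s + d) u) *
              a1 π (s + 1) (Function.update x (s + d) u)) ∂U ≤
            ENNReal.ofReal (1 / 8) * ENNReal.ofReal c' * ENNReal.ofReal m' := by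
          calc _ ≤ ∫⁻ u in Set.Iio m, ENNReal.ofReal (1 / 8) * ENNReal.ofReal c' ∂U := by
                apply setLIntegral_mono' measurableSet_Iio
                intro u hu
                rw [hE u hu, one_mul]
                gcongr
                refine (a1_of_Dec hS hd (hDlow u hu)).trans ?_
                rw [hfirst]
                exact U_Iic_le c
            _ = ENNReal.ofReal (1 / 8) * ENNReal.ofReal c' * U (Set.Iio m) := by
                rw [setLIntegral_const]
            _ ≤ _ := by gcongr; exact U_Iio_le m
        have h2 : ENNReal.ofReal (c' / 2) * ENNReal.ofReal (m' / 2) ≤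
            ∫⁻ u in Set.Iio m, E π ∅ s (s + 1) (Function.update x (s + d) u) *
              B π (s + 1) (Function.update x (s + d) u) ∂U := by
          calc _ ≤ ENNReal.ofReal (c' / 2) * U (Set.Iio (m' / 2)) := by
                gcongr
                exact U_Iio_ge (by linarith) (by linarith)
            _ = ∫⁻ u in Set.Iio (m' / 2), ENNReal.ofReal (c' / 2) ∂U := by
                rw [setLIntegral_const]
            _ ≤ ∫⁻ u in Set.Iio (m' / 2), E π ∅ s (s + 1) (Function.update x (s + d) u) *
                  B π (s + 1) (Function.update x (s + d) u) ∂U := by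
                apply setLIntegral_mono' measurableSet_Iio
                intro u hu
                have hu' : u < m' / 2 := hu
                rw [hE u (by linarith), one_mul]
                have h3 := B_of_Dec hS hd (hDlow u (by linarith)) (z := m' / 2) (by
                  have e2 : s + 1 + (d - 1) = s + d := by omega
                  rw [e2, upd_same]; linarith)
                rw [hfirst] at h3
                refine le_trans ?_ h3
                refine le_trans ?_ (U_Ioc_ge (by linarith))
                apply ENNReal.ofReal_le_ofReal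
                rw [← hc']
                linarith
            _ ≤ _ := by
                apply lintegral_mono_set
                intro u hu
                have hu' : u < m' / 2 := hu
                simp only [Set.mem_Iio]
                linarith
        refine h1.trans (le_trans ?_ h2)
        rw [← ENNReal.ofReal_mul (by norm_num), ← ENNReal.ofReal_mul (by nlinarith),
          ← ENNReal.ofReal_mul (by linarith)]
        apply ENNReal.ofReal_le_ofReal
        nlinarith
    · apply setLIntegral_mono' measurableSet_Iio.compl
      intro u hu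
      have hu' : m ≤ u := by simpa using hu
      have h1 : a1 π (s + 1) (Function.update x (s + d) u) = 1 := a1_of_not_Dec hS (hDhigh u hu')
      have h2 := B_unforced' π (t := s + 1) (x := Function.update x (s + d) u) (by omega) (by
        rw [h1, ENNReal.ofReal_le_one]; norm_num)
      calc _ = E π ∅ s (s + 1) (Function.update x (s + d) u) * (ENNReal.ofReal (1 / 8) *
            a1 π (s + 1) (Function.update x (s + d) u)) := by ring
        _ ≤ _ := by gcongr
  · push Not at hT
    apply lintegral_mono
    intro u
    have h1 : a1 π (s + 1) (Function.update x (s + d) u) = 1 := a1_of_not_Dec hS (hT u)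
    have h2 := B_unforced' π (t := s + 1) (x := Function.update x (s + d) u) (by omega) (by
      rw [h1, ENNReal.ofReal_le_one]; norm_num)
    simp only
    calc _ = E π ∅ s (s + 1) (Function.update x (s + d) u) * (ENNReal.ofReal (1 / 8) *
          a1 π (s + 1) (Function.update x (s + d) u)) := by ring
      _ ≤ _ := by gcongr

lemma two_steps (hd : 2 ≤ d) (h0 : π (Fin.last d) ≠ 0) (s : ℕ) (x : Sq) :
    ENNReal.ofReal (1 / 8) * T π ∅ s (s + 2) (fun _ => 1) x ≤ T π ∅ s (s + 2) (g π (s + 2)) x := by
  have e1 : T π ∅ s (s + 2) (fun _ => 1) = T π ∅ s (s + 1) (a1 π (s + 1)) := by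
    rw [T_split π ∅ (t := s + 1) (by omega) (by omega) measurable_const]
    rfl
  have e2 : T π ∅ s (s + 2) (g π (s + 2)) = T π ∅ s (s + 1) (B π (s + 1)) := by
    rw [T_split π ∅ (t := s + 1) (by omega) (by omega) (measurable_g π _)]
    rfl
  rw [e1, e2]
  by_cases hS : Special π
  · exact special_two hS hd s x
  · rw [← T_const_mul π ∅ _ _ (measurable_a1 π _)]
    exact T_mono π ∅ _ _ (fun y => B_nonspecial π hd h0 hS (s + 1) y) x

end

end Q165.CP
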