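import Pool.Agent.Q165.CPBase

/-!
Occurrences of a consecutive pattern in a real sequence, and the transfer identities.
-/

open MeasureTheory Set Function
open scoped ENNReal

namespace Q165.CP

noncomputable section

variable {d : ℕ} (π : Equiv.Perm (Fin (d + 1)))

/-- An occurrence of the consecutive pattern `π` starting at the index `j`. -/
def occ (x : Sq) (j : ℕ) : Prop :=
  ∀ a b : Fin (d + 1), x (j + a) < x (j + b) ↔ π a < π b

open Classical in
/-- The indicator of: the occurrences with start in `[s, n)` are exactly the ones in `P`. -/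
def E (P : Set ℕ) (s n : ℕ) (x : Sq) : ℝ≥0∞ :=
  if ∀ j, s ≤ j → j < n → (occ π x j ↔ j ∈ P) then 1 else 0

lemma occ_congr {x y : Sq} {j : ℕ} (h : ∀ i, j ≤ i → i ≤ j + d → x i = y i) :
    occ π x j ↔ occ π y j := by
  unfold occ
  refine forall_congr' fun a => forall_congr' fun b => ?_
  rw [h (j + a) (by omega) (by have := a.2; omega), h (j + b) (by omega) (by have := b.2; omega)]

lemma measurableSet_occ (j : ℕ) : MeasurableSet {x : Sq | occ π x j} := by
  have : {x : Sq | occ π x j} =
      ⋂ a : Fin (d + 1), ⋂ b : Fin (d + 1), {x : Sq | x (j + a) < x (j + b) ↔ π a < π b} := by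
    ext x
    simp [occ]
  rw [this]
  refine MeasurableSet.iInter fun a => MeasurableSet.iInter fun b => ?_
  have hm : MeasurableSet {x : Sq | x (j + a) < x (j + b)} :=
    measurableSet_lt (measurable_pi_apply _) (measurable_pi_apply _)
  by_cases h : π a < π b
  · simpa [h] using hm
  · simpa [h, Set.compl_ofPred] using hm.compl

lemma measurable_E (P : Set ℕ) (s n : ℕ) : Measurable (E π P s n) := by
  classical
  unfold E
  apply Measurable.ite _ measurable_const measurable_const
  have : {x : Sq | ∀ j, s ≤ j → j < n → (occ π x j ↔ j ∈ P)} =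
      ⋂ j ∈ Finset.Ico s n, {x : Sq | occ π x j ↔ j ∈ P} := by
    ext x
    simp
  rw [this]
  refine Finset.measurableSet_biInter _ fun j _ => ?_
  by_cases h : j ∈ P
  · simpa [h] using measurableSet_occ π j
  · simpa [h, Set.compl_ofPred] using (measurableSet_occ π j).compl

lemma E_dep (P : Set ℕ) (s n : ℕ) : Dep (E π P s n) {i | s ≤ i ∧ i < n + d} := by
  intro x y hxy
  unfold E
  congr 1
  apply propext
  refine forall_congr' fun j => forall_congr' fun h1 => forall_congr' fun h2 => ?_
  rw [occ_congr π (x := x) (y := y)]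
  intro i hi hi'
  exact hxy i ⟨by omega, by omega⟩

lemma E_le_one (P : Set ℕ) (s n : ℕ) (x : Sq) : E π P s n x ≤ 1 := by
  unfold E; split_ifs <;> simp

lemma E_mul (P : Set ℕ) {s t n : ℕ} (h1 : s ≤ t) (h2 : t ≤ n) (x : Sq) :
    E π P s t x * E π P t n x = E π P s n x := by
  unfold E
  by_cases ha : ∀ j, s ≤ j → j < t → (occ π x j ↔ j ∈ P)
  · rw [if_pos ha]
    by_cases hb : ∀ j, t ≤ j → j < n → (occ π x j ↔ j ∈ P)
    · rw [if_pos hb, if_pos]
      · simp
      · intro j hj1 hj2
        by_cases hjt : j < t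
        · exact ha j hj1 hjt
        · exact hb j (by omega) hj2
    · rw [if_neg hb, if_neg, mul_zero]
      intro h
      exact hb fun j hj1 hj2 => h j (by omega) hj2
  · rw [if_neg ha, zero_mul, if_neg]
    intro h
    exact ha fun j hj1 hj2 => h j hj1 (by omega)

lemma E_anti (P : Set ℕ) {s s' n n' : ℕ} (h1 : s ≤ s') (h2 : n' ≤ n) (x : Sq) :
    E π P s n x ≤ E π P s' n' x := by
  unfold E
  by_cases hb : ∀ j, s' ≤ j → j < n' → (occ π x j ↔ j ∈ P)
  · rw [if_pos hb]
    split_ifs <;> simp
  · rw [if_neg hb, if_neg]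
    intro h
    exact hb fun j hj1 hj2 => h j (by omega) (by omega)

lemma E_empty (P : Set ℕ) {s n : ℕ} (h : n ≤ s) (x : Sq) : E π P s n x = 1 := by
  unfold E
  rw [if_pos]
  intro j h1 h2
  omega

lemma E_congr {P Q : Set ℕ} {s n : ℕ} (h : ∀ j, s ≤ j → j < n → (j ∈ P ↔ j ∈ Q)) (x : Sq) :
    E π P s n x = E π Q s n x := by
  unfold E
  congr 1
  apply propext
  refine forall_congr' fun j => forall_congr' fun h1 => forall_congr' fun h2 => ?_
  rw [h j h1 h2]

/-- The transfer operator: integrate out the coordinates in `[s + d, n + d)`, with the occurrences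
with start in `[s, n)` prescribed. -/
def T (P : Set ℕ) (s n : ℕ) (f : Sq → ℝ≥0∞) : Sq → ℝ≥0∞ :=
  In (Finset.Ico (s + d) (n + d)) (fun x => E π P s n x * f x)

lemma measurable_T (P : Set ℕ) (s n : ℕ) {f : Sq → ℝ≥0∞} (hf : Measurable f) :
    Measurable (T π P s n f) :=
  measurable_In ((measurable_E π P s n).fun_mul hf) _

lemma T_split (P : Set ℕ) {s t n : ℕ} (h1 : s ≤ t) (h2 : t ≤ n) {f : Sq → ℝ≥0∞}
    (hf : Measurable f) : T π P s n f = T π P s t (T π P t n f) := by
  funext x
  unfold T
  rw [In_Ico ((measurable_E π P s n).fun_mul hf) (b := t + d) (by omega) (by omega)]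
  congr 1
  funext y
  have : (fun x => E π P s n x * f x) = fun x => E π P s t x * (E π P t n x * f x) := by
    funext z
    rw [← mul_assoc, E_mul π P h1 h2]
  rw [this, In_mul]
  · apply (E_dep π P s t).mono
    intro i hi
    simp only [Set.mem_ofPred_eq, Finset.mem_Ico] at hi ⊢
    omega
  · exact (measurable_E π P t n).fun_mul hf

lemma T_mono (P : Set ℕ) (s n : ℕ) {f g : Sq → ℝ≥0∞} (h : ∀ x, f x ≤ g x) (x : Sq) :
    T π P s n f x ≤ T π P s n g x :=
  In_mono _ (fun y => mul_le_mul_right (h y) _) x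

lemma T_const_mul (P : Set ℕ) (s n : ℕ) {f : Sq → ℝ≥0∞} (hf : Measurable f) (c : ℝ≥0∞) (x : Sq) :
    T π P s n (fun x => c * f x) x = c * T π P s n f x := by
  unfold T
  rw [← In_const_mul ((measurable_E π P s n).fun_mul hf)]
  congr 1
  funext y
  ring

lemma T_add (P : Set ℕ) (s n : ℕ) {f g : Sq → ℝ≥0∞} (hf : Measurable f) (x : Sq) :
    T π P s n (fun x => f x + g x) x = T π P s n f x + T π P s n g x := by
  unfold T
  rw [← In_add ((measurable_E π P s n).fun_mul hf)]
  congr 1
  funext y
  ring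

lemma T_dep (P : Set ℕ) (s n : ℕ) {f : Sq → ℝ≥0∞} {m : ℕ} (hf : Dep f {i | s ≤ i ∧ i < m}) :
    Dep (T π P s n f) {i | (s ≤ i ∧ i < max m (n + d)) ∧ i ∉ Finset.Ico (s + d) (n + d)} := by
  unfold T
  apply In_dep (A := {i | s ≤ i ∧ i < max m (n + d)})
  apply Dep.mul
  · apply (E_dep π P s n).mono
    intro i hi
    simp only [Set.mem_ofPred_eq] at hi ⊢
    omega
  · apply hf.mono
    intro i hi
    simp only [Set.mem_ofPred_eq] at hi ⊢
    omega

end

end Q165.CP
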