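import Mathlib

set_option autoImplicit false

/-!
# The number of cycles of a permutation and its sign
-/

namespace Q165.Cyc

open Equiv Finset

variable {α : Type*} [Fintype α] [DecidableEq α]

/-- The number of cycles of `π` (fixed points included), i.e. the number of its orbits. -/
noncomputable def numCycles (π : Perm α) : ℕ := Nat.card (Quotient (Perm.SameCycle.setoid π))

/-- A key identifying the cycle of a point. -/
def key (π : Perm α) (x : α) : Perm α ⊕ α := if π x = x then Sum.inr x else Sum.inl (π.cycleOf x)

theorem key_eq_iff (π : Perm α) (x y : α) : key π x = key π y ↔ π.SameCycle x y := by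
  unfold key
  by_cases hx : π x = x
  · by_cases hy : π y = y
    · rw [if_pos hx, if_pos hy]
      constructor
      · intro h
        rw [Sum.inr.inj h]
      · intro h
        rw [h.eq_of_left hx]
    · rw [if_pos hx, if_neg hy]
      constructor
      · intro h
        exact absurd h (by simp)
      · intro h
        exact absurd (h.apply_eq_self_iff.mp hx) hy
  · by_cases hy : π y = y
    · rw [if_neg hx, if_pos hy]
      constructor
      · intro h
        exact absurd h (by simp)
      · intro h
        exact absurd (h.apply_eq_self_iff.mpr hy) hx
    · rw [if_neg hx, if_neg hy]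
      constructor
      · intro h
        have h1 : π.cycleOf x = π.cycleOf y := Sum.inl.inj h
        have h2 : π.cycleOf x x ≠ x := by
          rw [Perm.cycleOf_apply_self]
          exact hx
        rw [h1] at h2
        by_contra hne
        apply h2
        rw [Perm.cycleOf_apply_of_not_sameCycle]
        intro h3
        exact hne h3.symm
      · intro h
        rw [h.cycleOf_eq]

theorem numCycles_eq (π : Perm α) :
    numCycles π = π.cycleFactorsFinset.card + {x | π x = x}.ncard := by
  classical
  have h1 : numCycles π = (univ.image (key π)).card := by
    unfold numCycles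
    rw [← Nat.card_eq_finsetCard]
    apply Nat.card_congr
    refine Equiv.ofBijective (Quotient.lift (fun x => (⟨key π x, mem_image_of_mem _ (mem_univ _)⟩ :
      {k // k ∈ univ.image (key π)})) ?_) ⟨?_, ?_⟩
    · intro a b hab
      apply Subtype.ext
      exact (key_eq_iff π a b).mpr hab
    · intro a b
      induction a using Quotient.inductionOn with
      | h a =>
        induction b using Quotient.inductionOn with
        | h b =>
          intro h
          apply Quotient.sound
          exact (key_eq_iff π a b).mp (congrArg Subtype.val h)
    · rintro ⟨k, hk⟩
      obtain ⟨x, -, hx⟩ := mem_image.mp hk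
      exact ⟨Quotient.mk _ x, Subtype.ext hx⟩
  have h2 : univ.image (key π) =
      (π.cycleFactorsFinset.image Sum.inl) ∪ ((univ.filter (fun x => π x = x)).image Sum.inr) := by
    ext k
    rw [mem_union, mem_image, mem_image, mem_image]
    constructor
    · rintro ⟨x, -, rfl⟩
      by_cases hx : π x = x
      · right
        refine ⟨x, by simpa using hx, ?_⟩
        rw [key, if_pos hx]
      · left
        refine ⟨π.cycleOf x, ?_, ?_⟩
        · rw [Perm.cycleOf_mem_cycleFactorsFinset_iff, Perm.mem_support]
          exact hx
        · rw [key, if_neg hx]
    · rintro (⟨c, hc, rfl⟩ | ⟨x, hx, rfl⟩)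
      · rw [Perm.mem_cycleFactorsFinset_iff] at hc
        obtain ⟨x, hx, -⟩ := hc.1
        have hxs : x ∈ c.support := Perm.mem_support.mpr hx
        have hc' : c ∈ π.cycleFactorsFinset := by
          rw [Perm.mem_cycleFactorsFinset_iff]
          exact hc
        have e := Perm.cycle_is_cycleOf hxs hc'
        refine ⟨x, mem_univ _, ?_⟩
        have hx' : π x ≠ x := by
          rw [← hc.2 x hxs]
          exact hx
        rw [key, if_neg hx', e]
      · refine ⟨x, mem_univ _, ?_⟩
        rw [key, if_pos (by simpa using hx)]
  rw [h1, h2, card_union_of_disjoint, card_image_of_injective _ Sum.inl_injective,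
    card_image_of_injective _ Sum.inr_injective]
  · congr 1
    rw [← Set.ncard_coe_finset]
    congr 1
    ext x
    simp
  · rw [Finset.disjoint_left]
    intro k hk hk'
    obtain ⟨_, _, rfl⟩ := mem_image.mp hk
    obtain ⟨_, _, h⟩ := mem_image.mp hk'
    exact absurd h (by simp)

/-- The sign of a permutation in terms of the number of its cycles. -/
theorem sign_eq (π : Perm α) : Perm.sign π = (-1) ^ (Fintype.card α + numCycles π) := by
  rw [numCycles_eq, Perm.sign_of_cycleType]
  have h1 : π.cycleType.sum = π.support.card := Perm.sum_cycleType π
  have h2 : π.cycleType.card = π.cycleFactorsFinset.card := by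
    rw [Perm.cycleType_def]
    simp
  have h3 : {x | π x = x}.ncard + π.support.card = Fintype.card α := by
    have : {x | π x = x}.ncard = (univ.filter (fun x => π x = x)).card := by
      rw [← Set.ncard_coe_finset]
      congr 1
      ext x
      simp
    rw [this, ← Finset.card_univ, ← Finset.card_filter_add_card_filter_not (s := univ)
      (fun x => π x = x)]
    rfl
  rw [h1, h2, ← h3]
  have e : {x | π x = x}.ncard + π.support.card +
      (π.cycleFactorsFinset.card + {x | π x = x}.ncard) =
      (π.support.card + π.cycleFactorsFinset.card) + 2 * {x | π x = x}.ncard := by ring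
  rw [e, pow_add _ (π.support.card + π.cycleFactorsFinset.card), pow_mul]
  simp

end Q165.Cyc
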