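import Mathlib

set_option autoImplicit false

/-!
# Cyclic words by the number of boundaries
-/

namespace Q165.CycWords

open Finset Polynomial

variable {α : Type*} [Fintype α] [DecidableEq α]

/-- The number of places `i` of the cyclic word `w` with `w (i + 1) ≠ w i`. -/
def bd {N : ℕ} (w : Fin (N + 1) → α) : ℕ :=
  (univ.filter (fun i : Fin (N + 1) => w (i + 1) ≠ w i)).card

/-- Weight of a step. -/
noncomputable def D (a b : α) : ℤ[X] := if a = b then 1 else X

/-- Sum of the weights of the words from `a` to `b`. -/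
noncomputable def P (N : ℕ) (a b : α) : ℤ[X] :=
  ∑ w : Fin (N + 1) → α, if w 0 = a ∧ w (Fin.last N) = b then
    ∏ i : Fin N, D (w i.castSucc) (w i.succ) else 0

theorem P_zero (a b : α) : P 0 a b = if a = b then 1 else 0 := by
  unfold P
  rw [← (Equiv.funUnique (Fin 1) α).symm.sum_comp]
  simp only [Equiv.funUnique_symm_apply, Finset.univ_eq_empty, Finset.prod_empty]
  by_cases h : a = b
  · subst h
    rw [if_pos rfl, Finset.sum_eq_single a]
    · simp
    · intro c _ hc
      rw [if_neg]
      rintro ⟨h1, -⟩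
      exact hc h1
    · intro h
      exact absurd (mem_univ _) h
  · rw [if_neg h]
    apply Finset.sum_eq_zero
    intro c _
    rw [if_neg]
    rintro ⟨h1, h2⟩
    exact h (h1.symm.trans h2)

theorem P_succ (N : ℕ) (a b : α) : P (N + 1) a b = ∑ c, D a c * P N c b := by
  unfold P
  rw [← (Fin.consEquiv (fun _ : Fin (N + 2) => α)).sum_comp, Fintype.sum_prod_type]
  rw [Finset.sum_eq_single a]
  · simp only [Finset.mul_sum]
    rw [Finset.sum_comm]
    apply Finset.sum_congr rfl
    intro v _
    rw [Finset.sum_eq_single (v 0)]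
    · have e1 : (Fin.consEquiv (fun _ : Fin (N + 2) => α)) (a, v) 0 = a := rfl
      have e2 : (Fin.consEquiv (fun _ : Fin (N + 2) => α)) (a, v) (Fin.last (N + 1)) =
          v (Fin.last N) := rfl
      rw [e1, e2, Fin.prod_univ_succ]
      by_cases h : v (Fin.last N) = b
      · rw [if_pos ⟨rfl, h⟩, if_pos ⟨rfl, h⟩]
        rfl
      · rw [if_neg (fun h' => h h'.2), if_neg (fun h' => h h'.2), mul_zero]
    · intro c _ hc
      rw [if_neg (fun h' => hc h'.1.symm), mul_zero]
    · intro h
      exact absurd (mem_univ _) h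
  · intro c _ hc
    apply Finset.sum_eq_zero
    intro v _
    rw [if_neg]
    intro h'
    exact hc h'.1
  · intro h
    exact absurd (mem_univ _) h

theorem D_eq (a b : α) : D a b = X + (1 - X) * (if a = b then 1 else 0) := by
  unfold D
  split_ifs <;> ring

theorem P_closed (N : ℕ) (a b : α) :
    (Fintype.card α : ℤ[X]) * P N a b = (1 + ((Fintype.card α : ℤ[X]) - 1) * X) ^ N - (1 - X) ^ N
      + (Fintype.card α : ℤ[X]) * (1 - X) ^ N * (if a = b then 1 else 0) := by
  induction N generalizing a with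
  | zero =>
    rw [P_zero]
    ring
  | succ N ih =>
    rw [P_succ, Finset.mul_sum]
    have h1 : ∀ c, (Fintype.card α : ℤ[X]) * (D a c * P N c b) =
        X * ((1 + ((Fintype.card α : ℤ[X]) - 1) * X) ^ N - (1 - X) ^ N)
        + X * (Fintype.card α : ℤ[X]) * (1 - X) ^ N * (if c = b then 1 else 0)
        + (1 - X) * ((Fintype.card α : ℤ[X]) * P N c b) * (if a = c then 1 else 0) := by
      intro c
      rw [D_eq]
      have := ih c
      linear_combination X * this
    rw [Finset.sum_congr rfl (fun c _ => h1 c), Finset.sum_add_distrib, Finset.sum_add_distrib]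
    have h2 : ∑ c : α, X * (Fintype.card α : ℤ[X]) * (1 - X) ^ N * (if c = b then 1 else 0) =
        X * (Fintype.card α : ℤ[X]) * (1 - X) ^ N := by
      rw [← Finset.mul_sum, Finset.sum_ite_eq' univ b, if_pos (mem_univ _), mul_one]
    have h3 : ∑ c : α, (1 - X) * ((Fintype.card α : ℤ[X]) * P N c b) * (if a = c then 1 else 0) =
        (1 - X) * ((Fintype.card α : ℤ[X]) * P N a b) := by
      rw [Finset.sum_eq_single a]
      · rw [if_pos rfl, mul_one]
      · intro c _ hc
        rw [if_neg (Ne.symm hc), mul_zero]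
      · intro h
        exact absurd (mem_univ _) h
    rw [h2, h3, ih a, Finset.sum_const, card_univ, nsmul_eq_mul]
    ring

theorem bd_weight {N : ℕ} (w : Fin (N + 1) → α) :
    (X : ℤ[X]) ^ bd w = D (w 0) (w (Fin.last N)) * ∏ i : Fin N, D (w i.castSucc) (w i.succ) := by
  have h1 : (X : ℤ[X]) ^ bd w = ∏ i : Fin (N + 1), D (w i) (w (i + 1)) := by
    unfold bd D
    rw [Finset.prod_ite, Finset.prod_const_one, Finset.prod_const, one_mul]
    congr 2
    ext i
    simp only [mem_filter, mem_univ, true_and, ne_eq]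
    exact not_congr eq_comm
  rw [h1, Fin.prod_univ_castSucc, mul_comm]
  congr 1
  · have : Fin.last N + 1 = 0 := by
      exact Fin.last_add_one N
    rw [this]
    unfold D
    exact if_congr eq_comm rfl rfl
  · apply Finset.prod_congr rfl
    intro i _
    rw [Fin.coeSucc_eq_succ]

theorem sum_bd {N : ℕ} :
    ∑ w : Fin (N + 1) → α, (X : ℤ[X]) ^ bd w = ∑ a : α, ∑ b : α, D a b * P N a b := by
  unfold P
  simp only [Finset.mul_sum]
  have h1 : ∑ a : α, ∑ b : α, ∑ w : Fin (N + 1) → α,
      D a b * (if w 0 = a ∧ w (Fin.last N) = b then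
        ∏ i : Fin N, D (w i.castSucc) (w i.succ) else 0) =
      ∑ a : α, ∑ w : Fin (N + 1) → α, ∑ b : α, D a b * (if w 0 = a ∧ w (Fin.last N) = b then
        ∏ i : Fin N, D (w i.castSucc) (w i.succ) else 0) := by
    apply Finset.sum_congr rfl
    intro a _
    exact Finset.sum_comm
  rw [h1, Finset.sum_comm]
  apply Finset.sum_congr rfl
  intro w _
  rw [Finset.sum_eq_single (w 0), Finset.sum_eq_single (w (Fin.last N))]
  · rw [if_pos ⟨rfl, rfl⟩, bd_weight]
  · intro b _ hb
    rw [if_neg (fun h => hb h.2.symm), mul_zero]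
  · intro h
    exact absurd (mem_univ _) h
  · intro a _ ha
    apply Finset.sum_eq_zero
    intro b _
    rw [if_neg (fun h => ha h.1.symm), mul_zero]
  · intro h
    exact absurd (mem_univ _) h

theorem sum_bd_closed {N : ℕ} [Nonempty α] :
    ∑ w : Fin (N + 1) → α, (X : ℤ[X]) ^ bd w =
      (1 + ((Fintype.card α : ℤ[X]) - 1) * X) ^ (N + 1) +
        ((Fintype.card α : ℤ[X]) - 1) * (1 - X) ^ (N + 1) := by
  have hq : (Fintype.card α : ℤ[X]) ≠ 0 := by
    exact_mod_cast Fintype.card_ne_zero
  apply mul_left_cancel₀ hq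
  rw [sum_bd, Finset.mul_sum]
  have h1 : ∀ a : α, (Fintype.card α : ℤ[X]) * ∑ b : α, D a b * P N a b =
      (Fintype.card α : ℤ[X]) * X *
        ((1 + ((Fintype.card α : ℤ[X]) - 1) * X) ^ N - (1 - X) ^ N) +
      X * (Fintype.card α : ℤ[X]) * (1 - X) ^ N +
      (1 - X) * ((1 + ((Fintype.card α : ℤ[X]) - 1) * X) ^ N - (1 - X) ^ N
      + (Fintype.card α : ℤ[X]) * (1 - X) ^ N) := by
    intro a
    rw [Finset.mul_sum]
    have h2 : ∀ b : α, (Fintype.card α : ℤ[X]) * (D a b * P N a b) =
        X * ((1 + ((Fintype.card α : ℤ[X]) - 1) * X) ^ N - (1 - X) ^ N) +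
        (X * (Fintype.card α : ℤ[X]) * (1 - X) ^ N +
        (1 - X) * ((1 + ((Fintype.card α : ℤ[X]) - 1) * X) ^ N - (1 - X) ^ N
      + (Fintype.card α : ℤ[X]) * (1 - X) ^ N)) * (if a = b then 1 else 0) := by
      intro b
      have h3 := P_closed N a b
      rw [D_eq]
      by_cases h : a = b
      · rw [if_pos h] at h3 ⊢
        linear_combination (X + (1 - X)) * h3
      · rw [if_neg h] at h3 ⊢
        linear_combination X * h3
    rw [Finset.sum_congr rfl (fun b _ => h2 b), Finset.sum_add_distrib, Finset.sum_const,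
      card_univ, nsmul_eq_mul, ← Finset.mul_sum, Finset.sum_ite_eq univ a, if_pos (mem_univ _)]
    ring
  rw [Finset.sum_congr rfl (fun a _ => h1 a), Finset.sum_const, card_univ, nsmul_eq_mul]
  ring

theorem coeff_one_add (n m : ℕ) (c : ℤ) :
    ((1 + (C c : ℤ[X]) * X) ^ n).coeff m = (n.choose m : ℤ) * c ^ m := by
  rw [add_comm, add_pow, finset_sum_coeff]
  simp only [one_pow, mul_one, mul_pow, ← C_pow]
  by_cases h : m ∈ range (n + 1)
  · rw [Finset.sum_eq_single_of_mem m h]
    · rw [← C_eq_natCast, mul_comm, coeff_C_mul, coeff_C_mul, coeff_X_pow_self]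
      simp
    · intro k _ hk
      rw [← C_eq_natCast, mul_comm, coeff_C_mul, coeff_C_mul, coeff_X_pow, if_neg (Ne.symm hk)]
      simp
  · rw [Finset.sum_eq_zero]
    · have : n < m := by
        simpa using h
      rw [Nat.choose_eq_zero_of_lt this]
      simp
    · intro k hk
      have hk' : k ≠ m := fun e => h (e ▸ hk)
      rw [← C_eq_natCast, mul_comm, coeff_C_mul, coeff_C_mul, coeff_X_pow, if_neg (Ne.symm hk')]
      simp

/-- The number of cyclic words with `m` boundaries. -/
theorem card_bd_eq (N m : ℕ) [Nonempty α] :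
    (((univ.filter (fun w : Fin (N + 1) → α => bd w = m)).card : ℕ) : ℤ) =
      ((N + 1).choose m : ℤ) * (((Fintype.card α : ℤ) - 1) ^ m +
        ((Fintype.card α : ℤ) - 1) * (-1) ^ m) := by
  have h := congrArg (fun p : ℤ[X] => p.coeff m) (sum_bd_closed (α := α) (N := N))
  simp only [finset_sum_coeff, coeff_X_pow, coeff_add] at h
  have e1 : ((Fintype.card α : ℤ[X]) - 1) = C ((Fintype.card α : ℤ) - 1) := by
    simp
  have e2 : (1 - X : ℤ[X]) = 1 + C (-1) * X := by
    simp
    ring
  rw [e1, e2, coeff_C_mul, coeff_one_add, coeff_one_add] at h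
  rw [Finset.card_filter]
  push_cast
  have h3 : ∀ w : Fin (N + 1) → α, (if bd w = m then (1 : ℤ) else 0) = if m = bd w then 1 else 0 :=
    fun w => if_congr eq_comm rfl rfl
  rw [Finset.sum_congr rfl (fun w _ => h3 w), h]
  ring

end Q165.CycWords
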