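import Mathlib

set_option autoImplicit false

/-!
# Counting permutations by double descent set, adding the last entry
-/

namespace Q165.DDCount

open Equiv Finset

/-- The entry at the position `i` (positions and entries start at `0`). -/
def ent {n : ℕ} (w : Perm (Fin n)) (i : ℕ) : ℕ := if h : i < n then w ⟨i, h⟩ else 0

/-- `i` is a double descent of `w`: `2 ≤ i ≤ n - 1` and `w_(i-1) > w_i > w_(i+1)` for the entries
`w_1, ..., w_n` (so `w_j` is `ent w (j - 1)`). -/
def isDD {n : ℕ} (w : Perm (Fin n)) (i : ℕ) : Prop :=
  2 ≤ i ∧ i ≤ n - 1 ∧ ent w (i - 1) < ent w (i - 2) ∧ ent w i < ent w (i - 1)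

/-- The number of permutations of `n` letters whose double descent set is `I`. -/
noncomputable def dd (I : Finset ℕ) (n : ℕ) : ℕ :=
  Nat.card {w : Perm (Fin n) // ∀ i, isDD w i ↔ i ∈ I}

/-- The permutation of `n + 1` letters with `v` at the place `q` and the rest as in `τ`. -/
def ins {n : ℕ} (q v : Fin (n + 1)) (τ : Perm (Fin n)) : Perm (Fin (n + 1)) :=
  (finSuccEquiv' q).trans ((Equiv.optionCongr τ).trans (finSuccEquiv' v).symm)

theorem ins_succAbove {n : ℕ} (q v : Fin (n + 1)) (τ : Perm (Fin n)) (i : Fin n) :
    ins q v τ (q.succAbove i) = v.succAbove (τ i) := by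
  simp [ins]

/-- The permutation with last entry `v` and the rest as in `τ`. -/
def app {n : ℕ} (v : Fin (n + 1)) (τ : Perm (Fin n)) : Perm (Fin (n + 1)) :=
  ins (Fin.last n) v τ

theorem app_last {n : ℕ} (v : Fin (n + 1)) (τ : Perm (Fin n)) : app v τ (Fin.last n) = v := by
  simp [app, ins]

theorem app_castSucc {n : ℕ} (v : Fin (n + 1)) (τ : Perm (Fin n)) (i : Fin n) :
    app v τ i.castSucc = v.succAbove (τ i) := by
  rw [← Fin.succAbove_last_apply]
  exact ins_succAbove _ v τ i

theorem app_bijective (n : ℕ) :
    Function.Bijective (fun x : Fin (n + 1) × Perm (Fin n) => app x.1 x.2) := by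
  classical
  rw [Fintype.bijective_iff_injective_and_card]
  constructor
  · rintro ⟨v, τ⟩ ⟨v', τ'⟩ h
    simp only at h
    have h1 : v = v' := by
      rw [← app_last v τ, h, app_last]
    subst h1
    have h2 : τ = τ' := by
      ext1 i
      have h3 := app_castSucc v τ i
      rw [h, app_castSucc] at h3
      exact (Fin.succAbove_right_injective h3).symm
    rw [h2]
  · rw [Fintype.card_prod, Fintype.card_perm, Fintype.card_perm, Fintype.card_fin,
      Fintype.card_fin, Nat.factorial_succ]

/-- Raising the values from `v` on. -/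
def up (v x : ℕ) : ℕ := if x < v then x else x + 1

theorem up_lt (v x y : ℕ) : up v x < up v y ↔ x < y := by
  unfold up
  split_ifs <;> omega

theorem succAbove_val {n : ℕ} (v : Fin (n + 1)) (i : Fin n) : (v.succAbove i : ℕ) = up v i := by
  unfold up
  split_ifs with h
  · rw [Fin.succAbove_of_castSucc_lt _ _ (by rw [Fin.lt_def]; exact h)]
    rfl
  · rw [Fin.succAbove_of_le_castSucc _ _ (by rw [Fin.le_def]; exact not_lt.mp h)]
    rfl

theorem ent_lt {n : ℕ} (w : Perm (Fin n)) {i : ℕ} (h : i < n) : ent w i = w ⟨i, h⟩ := dif_pos h

theorem ent_app {n : ℕ} (v : Fin (n + 1)) (τ : Perm (Fin n)) (i : ℕ) (hi : i < n) :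
    ent (app v τ) i = up v (ent τ i) := by
  rw [ent_lt _ (by omega : i < n + 1), ent_lt τ hi]
  have h1 : (⟨i, by omega⟩ : Fin (n + 1)) = (⟨i, hi⟩ : Fin n).castSucc := rfl
  rw [h1, app_castSucc, succAbove_val]

theorem ent_app_last {n : ℕ} (v : Fin (n + 1)) (τ : Perm (Fin n)) : ent (app v τ) n = v := by
  rw [ent_lt _ (by omega : n < n + 1)]
  have h1 : (⟨n, by omega⟩ : Fin (n + 1)) = Fin.last n := rfl
  rw [h1, app_last]

/-- The last step is a descent. -/
def De {n : ℕ} (w : Perm (Fin (n + 1))) : Prop := 1 ≤ n ∧ ent w n < ent w (n - 1)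

theorem De_app {n : ℕ} (v : Fin (n + 2)) (τ : Perm (Fin (n + 1))) :
    De (app v τ) ↔ (v : ℕ) ≤ ent τ n := by
  unfold De
  rw [ent_app_last, Nat.add_sub_cancel, ent_app v τ n (by omega)]
  unfold up
  constructor
  · rintro ⟨-, h⟩
    split_ifs at h <;> omega
  · intro h
    refine ⟨by omega, ?_⟩
    rw [if_neg (by omega)]
    omega

theorem isDD_app {n : ℕ} (v : Fin (n + 2)) (τ : Perm (Fin (n + 1))) (i : ℕ) (hi : i ≤ n) :
    isDD (app v τ) i ↔ isDD τ i := by
  unfold isDD
  constructor
  · rintro ⟨h1, h2, h3, h4⟩
    rw [ent_app v τ _ (by omega), ent_app v τ _ (by omega), up_lt] at h3 h4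
    exact ⟨h1, by omega, h3, h4⟩
  · rintro ⟨h1, h2, h3, h4⟩
    refine ⟨h1, by omega, ?_, ?_⟩
    · rw [ent_app v τ _ (by omega), ent_app v τ _ (by omega), up_lt]
      exact h3
    · rw [ent_app v τ _ (by omega), ent_app v τ _ (by omega), up_lt]
      exact h4

theorem isDD_app_last {n : ℕ} (v : Fin (n + 2)) (τ : Perm (Fin (n + 1))) :
    isDD (app v τ) (n + 1) ↔ De τ ∧ De (app v τ) := by
  unfold isDD
  have e1 : n + 1 - 1 = n := by omega
  have e2 : n + 1 - 2 = n - 1 := by omega
  constructor
  · rintro ⟨h1, h2, h3, h4⟩
    rw [e1, e2, ent_app v τ _ (by omega), ent_app v τ _ (by omega), up_lt] at h3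
    refine ⟨⟨by omega, h3⟩, ⟨by omega, ?_⟩⟩
    rw [Nat.add_sub_cancel]
    rwa [e1] at h4
  · rintro ⟨⟨h1, h2⟩, ⟨h3, h4⟩⟩
    refine ⟨by omega, by omega, ?_, ?_⟩
    · rw [e1, e2, ent_app v τ _ (by omega), ent_app v τ _ (by omega), up_lt]
      exact h2
    · rwa [Nat.add_sub_cancel] at h4

/-- The permutations with double descent set `I`, last entry `v` and last step `b`. -/
def T (I : Finset ℕ) (n v : ℕ) (b : Bool) : Set (Perm (Fin (n + 1))) :=
  {w | (∀ i ≤ n, (isDD w i ↔ i ∈ I)) ∧ ent w n = v ∧ (De w ↔ b = true)}

/-- Their number, by recursion. -/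
def cnt (I : Finset ℕ) : ℕ → ℕ → Bool → ℕ
  | 0, v, b => if 0 ∉ I ∧ v = 0 ∧ b = false then 1 else 0
  | n + 1, v, true => if v ≤ n + 1 then
      ∑ x ∈ range (n + 1), if v ≤ x then cnt I n x (decide (n + 1 ∈ I)) else 0 else 0
  | n + 1, v, false => if v ≤ n + 1 ∧ n + 1 ∉ I then
      ∑ x ∈ range (n + 1), if x < v then cnt I n x true + cnt I n x false else 0 else 0

theorem ent_le {n : ℕ} (w : Perm (Fin (n + 1))) : ent w n ≤ n := by
  rw [ent_lt _ (by omega : n < n + 1)]
  have := (w ⟨n, by omega⟩).isLt
  omega

theorem ncard_split {n : ℕ} (P : Perm (Fin (n + 1)) → Prop) :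
    {w : Perm (Fin (n + 1)) | P w}.ncard =
      ∑ x ∈ range (n + 1), {w : Perm (Fin (n + 1)) | P w ∧ ent w n = x}.ncard := by
  classical
  have h0 : ∀ Q : Perm (Fin (n + 1)) → Prop, {w : Perm (Fin (n + 1)) | Q w}.ncard =
      (univ.filter (fun w => Q w)).card := by
    intro Q
    rw [← Set.ncard_coe_finset]
    congr 1
    ext w
    simp
  rw [h0, Finset.card_eq_sum_card_fiberwise (f := fun w => ent w n) (t := range (n + 1))]
  · apply Finset.sum_congr rfl
    intro x _
    rw [h0]
    congr 1
    ext w
    simp
  · intro w _
    rw [mem_coe, mem_range]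
    have := ent_le w
    show ent w n < n + 1
    omega

theorem T_card (I : Finset ℕ) (n v : ℕ) (b : Bool) : (T I n v b).ncard = cnt I n v b := by
  classical
  induction n generalizing v b with
  | zero =>
    have huniq : ∀ w : Perm (Fin 1), w = 1 := fun w => Subsingleton.elim _ _
    have hent : ent (1 : Perm (Fin 1)) 0 = 0 := rfl
    have hDe : ¬ De (1 : Perm (Fin 1)) := fun h => by
      have := h.1
      omega
    have hDD : ¬ isDD (1 : Perm (Fin 1)) 0 := fun h => by
      have := h.1
      omega
    unfold cnt
    split_ifs with h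
    · obtain ⟨h1, h2, h3⟩ := h
      have : T I 0 v b = {1} := by
        ext w
        rw [Set.mem_singleton_iff]
        constructor
        · intro _
          exact huniq w
        · rintro rfl
          refine ⟨?_, ?_, ?_⟩
          · intro i hi
            have : i = 0 := by omega
            subst this
            exact ⟨fun h => absurd h hDD, fun h => absurd h h1⟩
          · rw [hent, h2]
          · rw [h3]
            exact ⟨fun h => absurd h hDe, fun h => by simp at h⟩
      rw [this, Set.ncard_singleton]
    · rw [Set.ncard_eq_zero (Set.toFinite _)]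
      ext w
      rw [Set.mem_empty_iff_false, iff_false]
      rintro ⟨h1, h2, h3⟩
      rw [huniq w] at h1 h2 h3
      apply h
      refine ⟨?_, ?_, ?_⟩
      · intro h4
        exact hDD ((h1 0 (le_refl 0)).mpr h4)
      · rw [← h2, hent]
      · cases b
        · rfl
        · exact absurd (h3.mpr rfl) hDe
  | succ n ih =>
    by_cases hv : v ≤ n + 1
    · -- parametrise by the rest
      have himg : ∀ b, (T I (n + 1) v b).ncard = {τ : Perm (Fin (n + 1)) |
          app ⟨v, by omega⟩ τ ∈ T I (n + 1) v b}.ncard := by
        intro b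
        have hinj : Function.Injective (fun τ : Perm (Fin (n + 1)) =>
            app (⟨v, by omega⟩ : Fin (n + 1 + 1)) τ) := by
          intro τ τ' h
          have := (app_bijective (n + 1)).1 (show (fun x : Fin (n + 1 + 1) × Perm (Fin (n + 1)) =>
            app x.1 x.2) (⟨v, by omega⟩, τ) = (fun x : Fin (n + 1 + 1) × Perm (Fin (n + 1)) =>
            app x.1 x.2) (⟨v, by omega⟩, τ') from h)
          exact congrArg Prod.snd this
        rw [← Set.ncard_image_of_injective _ hinj]
        congr 1
        ext w
        constructor
        · intro hw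
          obtain ⟨⟨v', τ⟩, rfl⟩ := (app_bijective (n + 1)).2 w
          simp only at hw
          have h1 : (v' : ℕ) = v := by
            rw [← ent_app_last v' τ]
            exact hw.2.1
          subst h1
          exact ⟨τ, hw, rfl⟩
        · rintro ⟨τ, hτ, rfl⟩
          exact hτ
      rw [himg]
      have hDe : ∀ τ : Perm (Fin (n + 1)),
          De (app (⟨v, by omega⟩ : Fin (n + 1 + 1)) τ) ↔ v ≤ ent τ n := fun τ => De_app _ τ
      cases b with
      | true =>
        unfold cnt
        rw [if_pos hv, ncard_split]
        apply Finset.sum_congr rfl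
        intro x _
        split_ifs with hx
        · rw [← ih]
          congr 1
          ext τ
          constructor
          · rintro ⟨⟨h1, -, h3⟩, h4⟩
            refine ⟨?_, h4, ?_⟩
            · intro i hi
              rw [← isDD_app ⟨v, by omega⟩ τ i hi]
              exact h1 i (by omega)
            · have h5 := h1 (n + 1) (le_refl _)
              rw [isDD_app_last] at h5
              rw [decide_eq_true_iff, ← h5]
              constructor
              · intro h6
                exact ⟨h6, h3.mpr rfl⟩
              · intro h6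
                exact h6.1
          · rintro ⟨h1, h2, h3⟩
            have h6 : De (app (⟨v, by omega⟩ : Fin (n + 1 + 1)) τ) := by
              rw [hDe, h2]
              exact hx
            refine ⟨⟨?_, ent_app_last _ τ, ?_⟩, h2⟩
            · intro i hi
              rcases Nat.lt_or_ge n i with h4 | h4
              · have : i = n + 1 := by omega
                subst this
                rw [isDD_app_last]
                rw [decide_eq_true_iff] at h3
                rw [← h3]
                exact ⟨fun h => h.1, fun h => ⟨h, h6⟩⟩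
              · rw [isDD_app _ τ i h4]
                exact h1 i h4
            · exact ⟨fun _ => rfl, fun _ => h6⟩
        · rw [Set.ncard_eq_zero (Set.toFinite _)]
          ext τ
          rw [Set.mem_empty_iff_false, iff_false]
          rintro ⟨⟨-, -, h3⟩, h4⟩
          apply hx
          rw [← h4, ← hDe]
          exact h3.mpr rfl
      | false =>
        unfold cnt
        by_cases hI : n + 1 ∈ I
        · rw [if_neg (fun h => h.2 hI), Set.ncard_eq_zero (Set.toFinite _)]
          ext τ
          rw [Set.mem_empty_iff_false, iff_false]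
          rintro ⟨h1, -, h3⟩
          have h5 := (h1 (n + 1) (le_refl _)).mpr hI
          rw [isDD_app_last] at h5
          have := h3.mp h5.2
          simp at this
        · rw [if_pos ⟨hv, hI⟩, ncard_split]
          apply Finset.sum_congr rfl
          intro x _
          split_ifs with hx
          · rw [← ih, ← ih, ← Set.ncard_union_eq _ (Set.toFinite _) (Set.toFinite _)]
            · congr 1
              ext τ
              constructor
              · rintro ⟨⟨h1, -, h3⟩, h4⟩
                have h5 : ∀ i ≤ n, (isDD τ i ↔ i ∈ I) := by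
                  intro i hi
                  rw [← isDD_app ⟨v, by omega⟩ τ i hi]
                  exact h1 i (by omega)
                by_cases h6 : De τ
                · exact Or.inl ⟨h5, h4, fun _ => rfl, fun _ => h6⟩
                · exact Or.inr ⟨h5, h4, fun h => absurd h h6, fun h => by simp at h⟩
              · have key : ∀ τ : Perm (Fin (n + 1)), (∀ i ≤ n, (isDD τ i ↔ i ∈ I)) →
                    ent τ n = x → app (⟨v, by omega⟩ : Fin (n + 1 + 1)) τ ∈ T I (n + 1) v false := by
                  intro τ h1 h2
                  have h6 : ¬ De (app (⟨v, by omega⟩ : Fin (n + 1 + 1)) τ) := by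
                    rw [hDe, h2]
                    omega
                  refine ⟨?_, ent_app_last _ τ, ?_⟩
                  · intro i hi
                    rcases Nat.lt_or_ge n i with h4 | h4
                    · have : i = n + 1 := by omega
                      subst this
                      rw [isDD_app_last]
                      exact ⟨fun h => absurd h.2 h6, fun h => absurd h hI⟩
                    · rw [isDD_app _ τ i h4]
                      exact h1 i h4
                  · exact ⟨fun h => absurd h h6, fun h => by simp at h⟩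
                rintro (⟨h1, h2, -⟩ | ⟨h1, h2, -⟩)
                · exact ⟨key τ h1 h2, h2⟩
                · exact ⟨key τ h1 h2, h2⟩
            · rw [Set.disjoint_left]
              rintro τ ⟨-, -, h3⟩ ⟨-, -, h6⟩
              have := h6.mp (h3.mpr rfl)
              simp at this
          · rw [Set.ncard_eq_zero (Set.toFinite _)]
            ext τ
            rw [Set.mem_empty_iff_false, iff_false]
            rintro ⟨⟨-, -, h3⟩, h4⟩
            have := h3.mp ((hDe τ).mpr (by omega))
            simp at this
    · have h1 : T I (n + 1) v b = ∅ := by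
        ext w
        rw [Set.mem_empty_iff_false, iff_false]
        rintro ⟨-, h2, -⟩
        have := ent_le w
        omega
      rw [h1, Set.ncard_empty]
      cases b with
      | true =>
        unfold cnt
        rw [if_neg hv]
      | false =>
        unfold cnt
        rw [if_neg (fun h => hv h.1)]

/-- The number of permutations with a given double descent set, computed. -/
theorem dd_eq (I : Finset ℕ) (n : ℕ) (hI : ∀ i ∈ I, i ≤ n) :
    dd I (n + 1) = ∑ x ∈ range (n + 1), (cnt I n x true + cnt I n x false) := by
  classical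
  have h1 : dd I (n + 1) = {w : Perm (Fin (n + 1)) | ∀ i ≤ n, (isDD w i ↔ i ∈ I)}.ncard := by
    unfold dd
    rw [← Nat.card_coe_set_eq]
    apply Nat.card_congr
    apply Equiv.subtypeEquivRight
    intro w
    constructor
    · intro h i _
      exact h i
    · intro h i
      rcases Nat.lt_or_ge n i with hi | hi
      · constructor
        · intro h1
          have := h1.2.1
          omega
        · intro h1
          have := hI i h1
          omega
      · exact h i hi
  rw [h1, ncard_split]
  apply Finset.sum_congr rfl
  intro x _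
  rw [← T_card, ← T_card, ← Set.ncard_union_eq _ (Set.toFinite _) (Set.toFinite _)]
  · congr 1
    ext w
    constructor
    · rintro ⟨h2, h3⟩
      by_cases h6 : De w
      · exact Or.inl ⟨h2, h3, fun _ => rfl, fun _ => h6⟩
      · exact Or.inr ⟨h2, h3, fun h => absurd h h6, fun h => by simp at h⟩
    · rintro (⟨h2, h3, -⟩ | ⟨h2, h3, -⟩)
      · exact ⟨h2, h3⟩
      · exact ⟨h2, h3⟩
  · rw [Set.disjoint_left]
    rintro τ ⟨-, -, h3⟩ ⟨-, -, h6⟩
    have := h6.mp (h3.mpr rfl)
    simp at this

end Q165.DDCount
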