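import Pool.Agent.Q165.EN3Def

/-!
# The 2143-avoiding linear extensions of a rectangle with three columns

A linear extension avoids `2143` iff block `j` is entirely before block `j'` whenever `j ≥ j' + 2`;
two adjacent blocks are merged in one of five ways.
-/

set_option autoImplicit false
set_option linter.unusedSimpArgs false

namespace Q165.EN3

open Finset Polynomial

/-- the three bits of a type -/
def c1 : Fin 5 → ℕ := ![0, 0, 1, 0, 1]
def c2 : Fin 5 → ℕ := ![0, 1, 1, 1, 1]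
def c3 : Fin 5 → ℕ := ![0, 0, 0, 1, 1]

theorem bnd (t : Fin 5) : c1 t ≤ c2 t ∧ c3 t ≤ c2 t ∧ c2 t ≤ 1 := by
  fin_cases t <;> decide

theorem c_inj {t u : Fin 5} (h1 : c1 t = c1 u) (h2 : c2 t = c2 u) (h3 : c3 t = c3 u) : t = u := by
  revert h1 h2 h3
  fin_cases t <;> fin_cases u <;> decide

/-- consecutive types, `x` for the blocks `(i+1, i)` and `y` for `(i, i-1)` -/
def Ok (x y : Fin 5) : Prop := c2 x + c3 x + c1 y + c2 y ≤ 3

instance (x y : Fin 5) : Decidable (Ok x y) := by unfold Ok; infer_instance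

/-- the number of letters of the lower block before the letter `m` of the upper block -/
def dd (t : Fin 5) (m : ℕ) : ℕ := if m = 0 then 0 else if m = 1 then c1 t else c2 t + c3 t

/-- the number of letters of the upper block after the letter `m` of the lower block -/
def uu (t : Fin 5) (m : ℕ) : ℕ := if m = 0 then c1 t + c2 t else if m = 1 then c3 t else 0

theorem dd0 (t : Fin 5) : dd t 0 = 0 := rfl
theorem dd1 (t : Fin 5) : dd t 1 = c1 t := rfl
theorem dd2 (t : Fin 5) : dd t 2 = c2 t + c3 t := rfl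
theorem uu0 (t : Fin 5) : uu t 0 = c1 t + c2 t := rfl
theorem uu1 (t : Fin 5) : uu t 1 = c3 t := rfl
theorem uu2 (t : Fin 5) : uu t 2 = 0 := rfl

/-- the position of the value `v` -/
def pos (s : ℕ) (g : ℕ → Fin 5) (v : ℕ) : ℕ :=
  3 * (s - 1 - v / 3) + v % 3 + dd (g (v / 3)) (v % 3) - uu (g (v / 3 + 1)) (v % 3)

/-- the conditions on a sequence of types -/
structure Good (s : ℕ) (g : ℕ → Fin 5) : Prop where
  z0 : g 0 = 0
  zs : g s = 0
  ok : ∀ i, Ok (g (i + 1)) (g i)

theorem mod3 (v : ℕ) : v % 3 = 0 ∨ v % 3 = 1 ∨ v % 3 = 2 := by omega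

theorem pos_spec {s : ℕ} {g : ℕ → Fin 5} (hg : Good s g) {v : ℕ} (hv : v < s * 3) :
    pos s g v + uu (g (v / 3 + 1)) (v % 3) =
      3 * (s - 1 - v / 3) + v % 3 + dd (g (v / 3)) (v % 3) := by
  unfold pos
  apply Nat.sub_add_cancel
  by_cases h : v / 3 + 1 = s
  · rw [h, hg.zs]
    rcases mod3 v with h3 | h3 | h3 <;> rw [h3] <;> simp [uu, c1, c2, c3]
  · have b := bnd (g (v / 3 + 1))
    rcases mod3 v with h3 | h3 | h3 <;> rw [h3]
    · rw [uu0]; omega
    · rw [uu1]; omega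
    · rw [uu2]; omega

theorem pos_lt {s : ℕ} {g : ℕ → Fin 5} (hg : Good s g) {v : ℕ} (hv : v < s * 3) :
    pos s g v < s * 3 := by
  have h := pos_spec hg hv
  by_cases h0 : v / 3 = 0
  · rw [h0] at h
    rw [hg.z0] at h
    rcases mod3 v with h3 | h3 | h3 <;> rw [h3] at h <;> simp [dd, c1, c2, c3] at h <;> omega
  · have b := bnd (g (v / 3))
    rcases mod3 v with h3 | h3 | h3 <;> rw [h3] at h
    · rw [dd0] at h; omega
    · rw [dd1] at h; omega
    · rw [dd2] at h; omega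

/-- the comparison of two positions -/
def Rel (g : ℕ → Fin 5) (x y : ℕ) : Prop :=
  (x / 3 = y / 3 ∧ x % 3 < y % 3) ∨ y / 3 + 2 ≤ x / 3 ∨
    (x / 3 = y / 3 + 1 ∧ x % 3 + uu (g (x / 3)) (y % 3) < 3) ∨
    (y / 3 = x / 3 + 1 ∧ 3 ≤ y % 3 + uu (g (y / 3)) (x % 3))

theorem pos_lt_pos {s : ℕ} {g : ℕ → Fin 5} (hg : Good s g) {x y : ℕ} (hx : x < s * 3)
    (hy : y < s * 3) : pos s g x < pos s g y ↔ Rel g x y := by
  have h1 := pos_spec hg hx
  have h2 := pos_spec hg hy
  have b1 := bnd (g (x / 3))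
  have b2 := bnd (g (x / 3 + 1))
  have b3 := bnd (g (y / 3))
  have b4 := bnd (g (y / 3 + 1))
  have o1 := hg.ok (x / 3)
  have o2 := hg.ok (y / 3)
  have o3 := hg.ok (x / 3 + 1)
  have o4 := hg.ok (y / 3 + 1)
  unfold Ok at o1 o2 o3 o4
  unfold Rel
  rcases lt_trichotomy (x / 3) (y / 3) with hc | hc | hc
  · by_cases hc1 : y / 3 = x / 3 + 1
    · rw [hc1] at h2 ⊢
      rw [hc1] at b3 b4
      rcases mod3 x with h | h | h <;> rcases mod3 y with h' | h' | h' <;> rw [h] at h1 <;>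
        rw [h'] at h2 <;> rw [h, h'] <;> simp only [dd0, dd1, dd2, uu0, uu1, uu2, true_and] at h1 h2 ⊢ <;>
        omega
    · by_cases hc2 : y / 3 = x / 3 + 1 + 1
      · rw [hc2] at h2 ⊢
        rw [hc2] at b3 b4
        rcases mod3 x with h | h | h <;> rcases mod3 y with h' | h' | h' <;> rw [h] at h1 <;>
          rw [h'] at h2 <;> rw [h, h'] <;> simp only [dd0, dd1, dd2, uu0, uu1, uu2, true_and] at h1 h2 ⊢ <;>
          omega
      · rcases mod3 x with h | h | h <;> rcases mod3 y with h' | h' | h' <;> rw [h] at h1 <;>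
          rw [h'] at h2 <;> rw [h, h'] <;> simp only [dd0, dd1, dd2, uu0, uu1, uu2, true_and] at h1 h2 ⊢ <;>
          omega
  · rw [hc] at h1 ⊢
    rcases mod3 x with h | h | h <;> rcases mod3 y with h' | h' | h' <;> rw [h] at h1 <;>
      rw [h'] at h2 <;> rw [h, h'] <;> simp only [dd0, dd1, dd2, uu0, uu1, uu2, true_and] at h1 h2 ⊢ <;>
      omega
  · by_cases hc1 : x / 3 = y / 3 + 1
    · rw [hc1] at h1 ⊢
      rw [hc1] at b1 b2
      rcases mod3 x with h | h | h <;> rcases mod3 y with h' | h' | h' <;> rw [h] at h1 <;>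
        rw [h'] at h2 <;> rw [h, h'] <;> simp only [dd0, dd1, dd2, uu0, uu1, uu2, true_and] at h1 h2 ⊢ <;>
        omega
    · by_cases hc2 : x / 3 = y / 3 + 1 + 1
      · rw [hc2] at h1 ⊢
        rw [hc2] at b1 b2
        rcases mod3 x with h | h | h <;> rcases mod3 y with h' | h' | h' <;> rw [h] at h1 <;>
          rw [h'] at h2 <;> rw [h, h'] <;> simp only [dd0, dd1, dd2, uu0, uu1, uu2, true_and] at h1 h2 ⊢ <;>
          omega
      · rcases mod3 x with h | h | h <;> rcases mod3 y with h' | h' | h' <;> rw [h] at h1 <;>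
          rw [h'] at h2 <;> rw [h, h'] <;> simp only [dd0, dd1, dd2, uu0, uu1, uu2, true_and] at h1 h2 ⊢ <;>
          omega

theorem rel_total {g : ℕ → Fin 5} {x y : ℕ} (h : x ≠ y) : Rel g x y ∨ Rel g y x := by
  unfold Rel
  omega

theorem rel_asymm {g : ℕ → Fin 5} {x y : ℕ} (h : Rel g x y) : ¬ Rel g y x := by
  unfold Rel at h ⊢
  rintro (h' | h' | h' | h') <;> rcases h with h | h | h | h <;> omega

theorem pos_inj {s : ℕ} {g : ℕ → Fin 5} (hg : Good s g) {x y : ℕ} (hx : x < s * 3)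
    (hy : y < s * 3) (h : pos s g x = pos s g y) : x = y := by
  by_contra hne
  rcases rel_total (g := g) hne with h1 | h1
  · rw [← pos_lt_pos hg hx hy] at h1
    omega
  · rw [← pos_lt_pos hg hy hx] at h1
    omega

/-- the permutation of a sequence of types, from values to positions -/
noncomputable def sig {s : ℕ} {g : ℕ → Fin 5} (hg : Good s g) : Equiv.Perm (Fin (s * 3)) :=
  Equiv.ofBijective (fun v => ⟨pos s g v, pos_lt hg v.2⟩)
    (Finite.injective_iff_bijective.1 (fun x y h => by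
      rw [Fin.mk.injEq] at h
      exact Fin.ext (pos_inj hg x.2 y.2 h)))

theorem sig_lt {s : ℕ} {g : ℕ → Fin 5} (hg : Good s g) {x y : Fin (s * 3)} :
    sig hg x < sig hg y ↔ Rel g x y := by
  rw [← pos_lt_pos hg x.2 y.2]
  exact Iff.rfl

theorem Ok_boundary {s : ℕ} {g : ℕ → Fin 5} (hg : Good s g) (i : ℕ) :
    c2 (g (i + 1)) + c3 (g (i + 1)) + c1 (g i) + c2 (g i) ≤ 3 := hg.ok i

theorem mem_EN_sig {s : ℕ} {g : ℕ → Fin 5} (hg : Good s g) : (sig hg).symm ∈ EN s 3 := by
  classical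
  unfold EN
  rw [mem_filter]
  refine ⟨mem_univ _, ?_, ?_⟩
  · rintro i j ⟨h1, h2⟩
    obtain ⟨x, rfl⟩ := (sig hg).surjective i
    obtain ⟨y, rfl⟩ := (sig hg).surjective j
    rw [Equiv.symm_apply_apply, Equiv.symm_apply_apply] at h1 h2
    by_cases hxy : x = y
    · rw [hxy]
    · apply le_of_lt
      rw [sig_lt]
      have hne : (x : ℕ) ≠ y := fun h => hxy (Fin.ext h)
      have b := bnd (g ((x : ℕ) / 3))
      unfold Rel
      rcases mod3 (x : ℕ) with h | h | h <;> rcases mod3 (y : ℕ) with h' | h' | h' <;>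
        rw [h, h'] at h2 ⊢ <;> simp only [uu0, uu1, uu2] <;> omega
  · rintro ⟨i, j, k, l, h1, h2, h3, h4, h5, h6⟩
    obtain ⟨b, rfl⟩ := (sig hg).surjective i
    obtain ⟨a, rfl⟩ := (sig hg).surjective j
    obtain ⟨d, rfl⟩ := (sig hg).surjective k
    obtain ⟨c, rfl⟩ := (sig hg).surjective l
    simp only [Equiv.symm_apply_apply] at h4 h5 h6
    rw [sig_lt] at h1 h2 h3
    unfold Rel at h1 h2 h3
    rw [Fin.lt_def] at h4 h5 h6
    have e1 : (d : ℕ) / 3 ≤ (a : ℕ) / 3 + 1 := by omega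
    have e2 : (c : ℕ) / 3 < (d : ℕ) / 3 := by omega
    have e3 : (b : ℕ) / 3 = (a : ℕ) / 3 := by omega
    omega

/-! ### the types of an element of `EN` -/

/-- the comparisons forced by the poset -/
theorem sym_lt {s : ℕ} {π : Equiv.Perm (Fin (s * 3))} (h : IsLinExt s 3 π)
    {x y : Fin (s * 3)} (hr : (x : ℕ) % 3 ≤ (y : ℕ) % 3) (hq : (y : ℕ) / 3 ≤ (x : ℕ) / 3)
    (hne : (x : ℕ) ≠ y) : π.symm x < π.symm y := by
  have h1 := h (π.symm x) (π.symm y) (by simpa using ⟨hq, hr⟩)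
  refine lt_of_le_of_ne h1 (fun he => hne ?_)
  have := π.symm.injective he
  rw [this]

theorem sym_lt' {s : ℕ} {π : Equiv.Perm (Fin (s * 3))} (h : IsLinExt s 3 π)
    (h' : ¬ Contains2143 π) {x y : Fin (s * 3)} (hxy : (y : ℕ) / 3 + 2 ≤ (x : ℕ) / 3) :
    π.symm x < π.symm y := by
  rcases Nat.lt_or_ge ((y : ℕ) % 3) ((x : ℕ) % 3) with hr | hr
  · by_contra hc
    push Not at hc
    have hne : π.symm y ≠ π.symm x := fun he => by
      have := π.symm.injective he
      rw [this] at hxy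
      omega
    have hlt := lt_of_le_of_ne hc hne
    have hx2 := x.2
    have hy2 := y.2
    apply h'
    refine ⟨π.symm ⟨3 * ((x : ℕ) / 3 - 1) + (y : ℕ) % 3, by omega⟩, π.symm y, π.symm x,
      π.symm ⟨3 * ((x : ℕ) / 3 - 1) + (x : ℕ) % 3, by omega⟩, ?_, hlt, ?_, ?_, ?_, ?_⟩
    · apply sym_lt h <;> simp only <;> omega
    · apply sym_lt h <;> simp only <;> omega
    · rw [Equiv.apply_symm_apply, Equiv.apply_symm_apply, Fin.lt_def]; simp only; omega
    · rw [Equiv.apply_symm_apply, Equiv.apply_symm_apply, Fin.lt_def]; simp only; omega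
    · rw [Equiv.apply_symm_apply, Equiv.apply_symm_apply, Fin.lt_def]; simp only; omega
  · exact sym_lt h hr (by omega) (by omega)

/-- `x` is before `y` -/
def Bef {s : ℕ} (π : Equiv.Perm (Fin (s * 3))) (x y : ℕ) : Prop :=
  ∃ (hx : x < s * 3) (hy : y < s * 3), π.symm ⟨x, hx⟩ < π.symm ⟨y, hy⟩

theorem Bef.trans {s : ℕ} {π : Equiv.Perm (Fin (s * 3))} {x y z : ℕ} (h1 : Bef π x y)
    (h2 : Bef π y z) : Bef π x z := by
  obtain ⟨a, b, h⟩ := h1
  obtain ⟨c, d, h'⟩ := h2
  exact ⟨a, d, h.trans h'⟩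

theorem Bef.asymm {s : ℕ} {π : Equiv.Perm (Fin (s * 3))} {x y : ℕ} (h1 : Bef π x y) :
    ¬ Bef π y x := by
  rintro ⟨c, d, h'⟩
  obtain ⟨a, b, h⟩ := h1
  exact absurd (h.trans h') (lt_irrefl _)

theorem Bef.total {s : ℕ} {π : Equiv.Perm (Fin (s * 3))} {x y : ℕ} (hx : x < s * 3)
    (hy : y < s * 3) (hne : x ≠ y) (h : ¬ Bef π x y) : Bef π y x := by
  refine ⟨hy, hx, ?_⟩
  by_contra hc
  rcases lt_or_eq_of_le (not_lt.1 hc) with h1 | h1
  · exact h ⟨hx, hy, h1⟩
  · have := π.symm.injective h1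
    rw [Fin.mk.injEq] at this
    exact hne this

/-- the type with the given bits -/
def mk (b1 b2 b3 : Bool) : Fin 5 :=
  if b3 then (if b1 then 4 else 3) else (if b1 then 2 else (if b2 then 1 else 0))

theorem mk_bits (b1 b2 b3 : Bool) (h1 : b1 = true → b2 = true) (h3 : b3 = true → b2 = true) :
    c1 (mk b1 b2 b3) = b1.toNat ∧ c2 (mk b1 b2 b3) = b2.toNat ∧ c3 (mk b1 b2 b3) = b3.toNat := by
  revert b1 b2 b3
  decide

open Classical in
/-- the types of `π` -/
noncomputable def ty (s : ℕ) (π : Equiv.Perm (Fin (s * 3))) (i : ℕ) : Fin 5 :=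
  if i = 0 then 0 else
    mk (decide (Bef π (3 * (i - 1)) (3 * i + 1))) (decide (Bef π (3 * (i - 1)) (3 * i + 2)))
      (decide (Bef π (3 * (i - 1) + 1) (3 * i + 2)))

theorem bef_of_lin {s : ℕ} {π : Equiv.Perm (Fin (s * 3))} (h : IsLinExt s 3 π) {x y : ℕ}
    (hx : x < s * 3) (hy : y < s * 3) (hr : x % 3 ≤ y % 3) (hq : y / 3 ≤ x / 3) (hne : x ≠ y) :
    Bef π x y := ⟨hx, hy, sym_lt h hr hq hne⟩

theorem ty_bits {s : ℕ} {π : Equiv.Perm (Fin (s * 3))} (h : IsLinExt s 3 π) {i : ℕ}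
    (hi : 1 ≤ i) :
    (c1 (ty s π i) = 1 ↔ Bef π (3 * (i - 1)) (3 * i + 1)) ∧
    (c2 (ty s π i) = 1 ↔ Bef π (3 * (i - 1)) (3 * i + 2)) ∧
    (c3 (ty s π i) = 1 ↔ Bef π (3 * (i - 1) + 1) (3 * i + 2)) := by
  classical
  unfold ty
  rw [if_neg (by omega)]
  have hh := mk_bits (decide (Bef π (3 * (i - 1)) (3 * i + 1)))
    (decide (Bef π (3 * (i - 1)) (3 * i + 2))) (decide (Bef π (3 * (i - 1) + 1) (3 * i + 2)))
    (by
      rw [decide_eq_true_iff, decide_eq_true_iff]
      intro h1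
      by_cases hl : 3 * i + 2 < s * 3
      · exact h1.trans (bef_of_lin h (by omega) hl (by omega) (by omega) (by omega))
      · obtain ⟨_, h2, _⟩ := h1
        omega)
    (by
      rw [decide_eq_true_iff, decide_eq_true_iff]
      intro h1
      obtain ⟨h2, h3, h4⟩ := h1
      exact (bef_of_lin h (by omega) h2 (by omega) (by omega) (by omega)).trans ⟨h2, h3, h4⟩)
  obtain ⟨e1, e2, e3⟩ := hh
  rw [e1, e2, e3]
  have hN : ∀ b : Bool, b.toNat = 1 ↔ b = true := by decide
  refine ⟨?_, ?_, ?_⟩ <;> rw [hN, decide_eq_true_iff]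

theorem good_ty {s : ℕ} {π : Equiv.Perm (Fin (s * 3))} (h : IsLinExt s 3 π)
    (h' : ¬ Contains2143 π) : Good s (ty s π) := by
  have hz : ty s π 0 = 0 := by unfold ty; rw [if_pos rfl]
  refine ⟨hz, ?_, ?_⟩
  · rcases Nat.eq_zero_or_pos s with h0 | h0
    · unfold ty
      rw [if_pos h0]
    · have hb := ty_bits h h0
      have b := bnd (ty s π s)
      have n1 : ¬ Bef π (3 * (s - 1)) (3 * s + 1) := by rintro ⟨_, h2, _⟩; omega
      have n2 : ¬ Bef π (3 * (s - 1)) (3 * s + 2) := by rintro ⟨_, h2, _⟩; omega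
      have n3 : ¬ Bef π (3 * (s - 1) + 1) (3 * s + 2) := by rintro ⟨_, h2, _⟩; omega
      have m1 : ¬ c1 (ty s π s) = 1 := fun h1 => n1 (hb.1.1 h1)
      have m2 : ¬ c2 (ty s π s) = 1 := fun h1 => n2 (hb.2.1.1 h1)
      have m3 : ¬ c3 (ty s π s) = 1 := fun h1 => n3 (hb.2.2.1 h1)
      apply c_inj
      · have : c1 (ty s π s) = 0 := by omega
        simpa [c1] using this
      · have : c2 (ty s π s) = 0 := by omega
        simpa [c2] using this
      · have : c3 (ty s π s) = 0 := by omega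
        simpa [c3] using this
  · intro i
    unfold Ok
    have b1 := bnd (ty s π (i + 1))
    have b2 := bnd (ty s π i)
    by_contra hc
    rcases Nat.eq_zero_or_pos i with h0 | h0
    · rw [h0, hz] at hc
      rw [h0] at b1
      simp [c1, c2] at hc
      simp [c1, c2] at b1
      omega
    · have hb1 := ty_bits h (show 1 ≤ i + 1 by omega)
      have hb2 := ty_bits h h0
      have k1 := hb1.2.2.1 (by omega)
      have k2 := hb2.1.1 (by omega)
      rw [show 3 * (i + 1 - 1) + 1 = 3 * i + 1 by omega] at k1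
      have k3 := k2.trans k1
      apply k3.asymm
      obtain ⟨p1, p2, _⟩ := k3
      exact ⟨p2, p1, sym_lt' h h' (by simp only; omega)⟩

theorem bef_of_rel {s : ℕ} {π : Equiv.Perm (Fin (s * 3))} (h : IsLinExt s 3 π)
    (h' : ¬ Contains2143 π) {x y : ℕ} (hx : x < s * 3) (hy : y < s * 3)
    (hr : Rel (ty s π) x y) : Bef π x y := by
  rcases hr with ⟨h1, h2⟩ | h1 | ⟨h1, h2⟩ | ⟨h1, h2⟩
  · exact bef_of_lin h hx hy (by omega) (by omega) (by omega)
  · exact ⟨hx, hy, sym_lt' h h' h1⟩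
  · by_cases hxy : x % 3 ≤ y % 3
    · exact bef_of_lin h hx hy hxy (by omega) (by omega)
    · have hb := ty_bits h (show 1 ≤ x / 3 by omega)
      have b := bnd (ty s π (x / 3))
      apply Bef.total hy hx (by omega)
      intro hc
      rcases mod3 x with h3 | h3 | h3 <;> rcases mod3 y with h4 | h4 | h4 <;> rw [h3, h4] at h2 <;>
        simp only [uu0, uu1, uu2] at h2 <;> try omega
      · have := hb.1.2 (by
          rw [show 3 * (x / 3 - 1) = y by omega, show 3 * (x / 3) + 1 = x by omega]; exact hc)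
        omega
      · have := hb.2.1.2 (by
          rw [show 3 * (x / 3 - 1) = y by omega, show 3 * (x / 3) + 2 = x by omega]; exact hc)
        omega
      · have := hb.2.2.2 (by
          rw [show 3 * (x / 3 - 1) + 1 = y by omega, show 3 * (x / 3) + 2 = x by omega]; exact hc)
        omega
  · have hb := ty_bits h (show 1 ≤ y / 3 by omega)
    have b := bnd (ty s π (y / 3))
    rcases mod3 x with h3 | h3 | h3 <;> rcases mod3 y with h4 | h4 | h4 <;> rw [h3, h4] at h2 <;>
      simp only [uu0, uu1, uu2] at h2 <;> try omega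
    · have := hb.1.1 (by omega)
      rw [show 3 * (y / 3 - 1) = x by omega, show 3 * (y / 3) + 1 = y by omega] at this
      exact this
    · have := hb.2.1.1 (by omega)
      rw [show 3 * (y / 3 - 1) = x by omega, show 3 * (y / 3) + 2 = y by omega] at this
      exact this
    · have := hb.2.2.1 (by omega)
      rw [show 3 * (y / 3 - 1) + 1 = x by omega, show 3 * (y / 3) + 2 = y by omega] at this
      exact this

theorem sig_ty {s : ℕ} {π : Equiv.Perm (Fin (s * 3))} (h : IsLinExt s 3 π)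
    (h' : ¬ Contains2143 π) : (sig (good_ty h h')).symm = π := by
  have key : ∀ x y : Fin (s * 3), sig (good_ty h h') x < sig (good_ty h h') y →
      π.symm x < π.symm y := by
    intro x y hxy
    rw [sig_lt] at hxy
    obtain ⟨_, _, h3⟩ := bef_of_rel h h' x.2 y.2 hxy
    exact h3
  have hmono : StrictMono (fun i => π.symm ((sig (good_ty h h')).symm i)) := by
    intro i j hij
    apply key
    simpa using hij
  have h1 : (fun i => π.symm ((sig (good_ty h h')).symm i)) = id := by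
    apply (hmono.range_inj strictMono_id).1
    rw [Set.range_id]
    exact (π.symm.surjective.comp (sig (good_ty h h')).symm.surjective).range_eq
  ext i
  have h2 := congrFun h1 i
  simp only [id] at h2
  rw [Equiv.symm_apply_eq] at h2
  rw [h2]

theorem rel_of_bef_sig {s : ℕ} {g : ℕ → Fin 5} (hg : Good s g) {x y : ℕ} :
    Bef (sig hg).symm x y ↔ x < s * 3 ∧ y < s * 3 ∧ Rel g x y := by
  unfold Bef
  rw [Equiv.symm_symm]
  constructor
  · rintro ⟨h1, h2, h3⟩
    rw [sig_lt] at h3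
    exact ⟨h1, h2, h3⟩
  · rintro ⟨h1, h2, h3⟩
    refine ⟨h1, h2, ?_⟩
    rw [sig_lt]
    exact h3

theorem good_zero {s : ℕ} {g : ℕ → Fin 5} (hg : Good s g) {i : ℕ} (hi : i = 0 ∨ i = s) :
    g i = 0 := by
  rcases hi with h | h
  · rw [h, hg.z0]
  · rw [h, hg.zs]

/-- the types of the permutation of a sequence of types -/
theorem ty_sig {s : ℕ} {g : ℕ → Fin 5} (hg : Good s g) {i : ℕ} (hi : i ≤ s) :
    ty s (sig hg).symm i = g i := by
  classical
  have hmem := mem_EN_sig hg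
  unfold EN at hmem
  rw [mem_filter] at hmem
  have hL := hmem.2.1
  have hG := good_ty hmem.2.1 hmem.2.2
  by_cases h0 : i = 0 ∨ i = s
  · rw [good_zero hg h0, good_zero hG h0]
  · push Not at h0
    have hb := ty_bits hL (show 1 ≤ i by omega)
    rw [rel_of_bef_sig, rel_of_bef_sig, rel_of_bef_sig] at hb
    have b1 := bnd (g i)
    have b2 := bnd (ty s (sig hg).symm i)
    obtain ⟨e1, e2, e3⟩ := hb
    unfold Rel at e1 e2 e3
    rw [show (3 * (i - 1)) % 3 = 0 by omega, show (3 * i + 1) % 3 = 1 by omega,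
      show (3 * i + 1) / 3 = i by omega, show (3 * (i - 1)) / 3 = i - 1 by omega] at e1
    rw [show (3 * (i - 1)) % 3 = 0 by omega, show (3 * i + 2) % 3 = 2 by omega,
      show (3 * i + 2) / 3 = i by omega, show (3 * (i - 1)) / 3 = i - 1 by omega] at e2
    rw [show (3 * (i - 1) + 1) % 3 = 1 by omega, show (3 * i + 2) % 3 = 2 by omega,
      show (3 * i + 2) / 3 = i by omega, show (3 * (i - 1) + 1) / 3 = i - 1 by omega] at e3
    simp only [uu0, uu1, uu2] at e1 e2 e3
    apply c_inj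
    · omega
    · omega
    · omega

end Q165.EN3
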