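import Mathlib

/-!
# Definitions: 2143-avoiding linear extensions of the rectangular poset `EN_{s,t}`
-/

set_option autoImplicit false

namespace Q165.EN3

open Finset Polynomial

/-- a linear extension of the poset `EN_{s,t}`, in one-line notation. Positions and values are
counted from `0`: the value `x` is the label `(j, m) = (x / t + 1, x % t + 1)`, and the label of
`x` is below the label of `y` iff `x / t ≥ y / t` and `x % t ≤ y % t` -/
def IsLinExt (s t : ℕ) (π : Equiv.Perm (Fin (s * t))) : Prop :=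
  ∀ i j, ((π j : ℕ) / t ≤ (π i : ℕ) / t ∧ (π i : ℕ) % t ≤ (π j : ℕ) % t) → i ≤ j

/-- `π` contains the pattern `2143` -/
def Contains2143 {n : ℕ} (π : Equiv.Perm (Fin n)) : Prop :=
  ∃ i j k l, i < j ∧ j < k ∧ k < l ∧ π j < π i ∧ π i < π l ∧ π l < π k

/-- the number of inversions -/
def inv {n : ℕ} (π : Equiv.Perm (Fin n)) : ℕ :=
  ((univ : Finset (Fin n × Fin n)).filter (fun p => p.1 < p.2 ∧ π p.2 < π p.1)).card

open Classical in
/-- `EN_{s,t}(2143)` -/
noncomputable def EN (s t : ℕ) : Finset (Equiv.Perm (Fin (s * t))) :=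
  univ.filter (fun π => IsLinExt s t π ∧ ¬ Contains2143 π)

/-- the polynomials `F_0 = F_1 = 1`, `F_s = (1 + q + 2 q^2) F_{s-1} + q^3 F_{s-2}` -/
noncomputable def F : ℕ → ℤ[X]
  | 0 => 1
  | 1 => 1
  | (s + 2) => (1 + X + 2 * X ^ 2) * F (s + 1) + X ^ 3 * F s

end Q165.EN3
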