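import Pool.Agent.Q165.EN3

/-!
# The inversions, and the sum over the words of types
-/

set_option autoImplicit false
set_option linter.unusedSimpArgs false

namespace Q165.EN3

open Finset Polynomial

/-- the number of noninversions between two adjacent blocks -/
def w (t : Fin 5) : ℕ := c1 t + c2 t + c3 t

theorem card_lt (n : ℕ) :
    ((univ : Finset (Fin n × Fin n)).filter (fun p => p.1 < p.2)).card * 2 = n * (n - 1) := by
  have h1 : ((univ : Finset (Fin n × Fin n)).filter (fun p => p.1 < p.2)).card =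
      ∑ y : Fin n, (y : ℕ) := by
    rw [card_filter, Fintype.sum_prod_type_right]
    refine sum_congr rfl (fun y _ => ?_)
    rw [← card_filter, ← Fin.card_Iio y]
    congr 1
    ext x
    simp
  rw [h1, Fin.sum_univ_eq_sum_range (fun i => i) n, sum_range_id_mul_two]

theorem sum_three (f : ℕ → ℕ) (s : ℕ) :
    ∑ y ∈ range (s * 3), f y = ∑ j ∈ range s, (f (3 * j) + f (3 * j + 1) + f (3 * j + 2)) := by
  induction s with
  | zero => simp
  | succ s ih =>
    rw [show (s + 1) * 3 = s * 3 + 1 + 1 + 1 by ring, sum_range_succ, sum_range_succ,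
      sum_range_succ, ih, sum_range_succ, show s * 3 = 3 * s by ring]
    ring

open Classical in
theorem card_rel {s : ℕ} {g : ℕ → Fin 5} (hg : Good s g) (y : Fin (s * 3)) :
    ((univ : Finset (Fin (s * 3))).filter (fun x => x < y ∧ Rel g x y)).card =
      (y : ℕ) % 3 + dd (g ((y : ℕ) / 3)) ((y : ℕ) % 3) := by
  have hy := y.2
  have b := bnd (g ((y : ℕ) / 3))
  have hd : dd (g ((y : ℕ) / 3)) ((y : ℕ) % 3) ≤ 2 := by
    rcases mod3 (y : ℕ) with h | h | h <;> rw [h] <;> simp only [dd0, dd1, dd2] <;> omega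
  have hd0 : (y : ℕ) / 3 = 0 → dd (g ((y : ℕ) / 3)) ((y : ℕ) % 3) = 0 := by
    intro h0
    rw [h0, hg.z0]
    rcases mod3 (y : ℕ) with h | h | h <;> rw [h] <;> simp [dd, c1, c2, c3]
  have h1 : ((univ : Finset (Fin (s * 3))).filter (fun x => x < y ∧ Rel g x y)).card =
      (Ico (3 * ((y : ℕ) / 3)) (y : ℕ) ∪ Ico (3 * ((y : ℕ) / 3 - 1))
        (3 * ((y : ℕ) / 3 - 1) + dd (g ((y : ℕ) / 3)) ((y : ℕ) % 3))).card := by
    apply card_nbij (fun x : Fin (s * 3) => (x : ℕ))
    · intro x hx
      rw [mem_coe, mem_filter] at hx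
      obtain ⟨_, hlt, hr⟩ := hx
      rw [Fin.lt_def] at hlt
      simp only
      rw [mem_coe, mem_union, mem_Ico, mem_Ico]
      rcases hr with hr | hr | hr | hr
      · left; omega
      · omega
      · omega
      · right
        obtain ⟨h2, h3⟩ := hr
        refine ⟨by omega, ?_⟩
        rcases mod3 (y : ℕ) with h | h | h <;> rcases mod3 (x : ℕ) with h' | h' | h' <;>
          rw [h, h'] at h3 <;> rw [h] <;> simp only [dd0, dd1, dd2, uu0, uu1, uu2] at h3 ⊢ <;>
          omega
    · intro x _ x' _ h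
      exact Fin.ext h
    · intro x hx
      rw [mem_coe, mem_union, mem_Ico, mem_Ico] at hx
      have hxs : x < s * 3 := by
        rcases hx with hx | hx <;> omega
      refine ⟨⟨x, hxs⟩, ?_, rfl⟩
      rw [mem_coe, mem_filter]
      refine ⟨mem_univ _, ?_, ?_⟩
      · rw [Fin.lt_def]
        simp only
        rcases hx with hx | hx
        · exact hx.2
        · by_cases h0 : (y : ℕ) / 3 = 0
          · have := hd0 h0
            omega
          · omega
      · simp only
        rcases hx with hx | hx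
        · left; omega
        · by_cases h0 : (y : ℕ) / 3 = 0
          · have := hd0 h0
            omega
          · right; right; right
            obtain ⟨h2, h3⟩ := hx
            refine ⟨by omega, ?_⟩
            have hxm : x % 3 = 0 ∨ x % 3 = 1 := by omega
            rcases mod3 (y : ℕ) with h | h | h <;> rcases hxm with h' | h' <;>
              rw [h] at h3 ⊢ <;> rw [h'] <;>
              simp only [dd0, dd1, dd2, uu0, uu1, uu2] at h3 ⊢ <;> omega
  rw [h1, card_union_of_disjoint, Nat.card_Ico, Nat.card_Ico]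
  · omega
  · rw [disjoint_left]
    intro x hx hx'
    rw [mem_Ico] at hx hx'
    by_cases h0 : (y : ℕ) / 3 = 0
    · have := hd0 h0
      omega
    · omega

theorem inv_sig {s : ℕ} {g : ℕ → Fin 5} (hg : Good s g) :
    inv (sig hg).symm + ∑ i ∈ range s, w (g i) = 9 * s.choose 2 := by
  classical
  have h1 : inv (sig hg).symm =
      ((univ : Finset (Fin (s * 3) × Fin (s * 3))).filter
        (fun p => p.1 < p.2 ∧ sig hg p.2 < sig hg p.1)).card := by
    unfold inv
    apply card_nbij' (fun p => ((sig hg).symm p.2, (sig hg).symm p.1))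
      (fun p => (sig hg p.2, sig hg p.1))
    · rintro ⟨i, j⟩ hp
      rw [mem_coe, mem_filter] at hp ⊢
      simp only [Equiv.apply_symm_apply, mem_univ, true_and] at hp ⊢
      exact ⟨hp.2, hp.1⟩
    · rintro ⟨i, j⟩ hp
      rw [mem_coe, mem_filter] at hp ⊢
      simp only [Equiv.symm_apply_apply, mem_univ, true_and] at hp ⊢
      exact ⟨hp.2, hp.1⟩
    · rintro ⟨i, j⟩ _; simp
    · rintro ⟨i, j⟩ _; simp
  have h2 : ((univ : Finset (Fin (s * 3) × Fin (s * 3))).filter (fun p => p.1 < p.2)).card =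
      ((univ : Finset (Fin (s * 3) × Fin (s * 3))).filter
        (fun p => p.1 < p.2 ∧ sig hg p.2 < sig hg p.1)).card +
      ((univ : Finset (Fin (s * 3) × Fin (s * 3))).filter
        (fun p => p.1 < p.2 ∧ Rel g p.1 p.2)).card := by
    rw [← card_union_of_disjoint]
    · congr 1
      ext p
      simp only [mem_filter, mem_univ, true_and, mem_union, ← sig_lt hg]
      constructor
      · intro h
        rcases lt_trichotomy (sig hg p.1) (sig hg p.2) with h3 | h3 | h3
        · exact Or.inr ⟨h, h3⟩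
        · exact absurd ((sig hg).injective h3) h.ne
        · exact Or.inl ⟨h, h3⟩
      · rintro (h | h) <;> exact h.1
    · rw [disjoint_left]
      intro p h3 h4
      rw [mem_filter] at h3 h4
      rw [← sig_lt hg] at h4
      exact absurd (h3.2.2.trans h4.2.2) (lt_irrefl _)
  have h3 : ((univ : Finset (Fin (s * 3) × Fin (s * 3))).filter
        (fun p => p.1 < p.2 ∧ Rel g p.1 p.2)).card = s * 3 + ∑ i ∈ range s, w (g i) := by
    rw [card_filter, Fintype.sum_prod_type_right]
    have e : ∀ y : Fin (s * 3), (∑ x : Fin (s * 3), if x < y ∧ Rel g x y then 1 else 0) =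
        (y : ℕ) % 3 + dd (g ((y : ℕ) / 3)) ((y : ℕ) % 3) := by
      intro y
      rw [← card_rel hg y, card_filter]
    rw [sum_congr rfl (fun y _ => e y),
      Fin.sum_univ_eq_sum_range (fun y => y % 3 + dd (g (y / 3)) (y % 3)) (s * 3), sum_three]
    have e2 : ∀ j ∈ range s, ((3 * j) % 3 + dd (g (3 * j / 3)) ((3 * j) % 3) +
        ((3 * j + 1) % 3 + dd (g ((3 * j + 1) / 3)) ((3 * j + 1) % 3)) +
        ((3 * j + 2) % 3 + dd (g ((3 * j + 2) / 3)) ((3 * j + 2) % 3))) = 3 + w (g j) := by
      intro j _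
      rw [show (3 * j) % 3 = 0 by omega, show 3 * j / 3 = j by omega,
        show (3 * j + 1) % 3 = 1 by omega, show (3 * j + 1) / 3 = j by omega,
        show (3 * j + 2) % 3 = 2 by omega, show (3 * j + 2) / 3 = j by omega, dd0, dd1, dd2]
      unfold w
      ring
    rw [sum_congr rfl e2, sum_add_distrib, sum_const, card_range, smul_eq_mul]
  have h4 := card_lt (s * 3)
  have h5 : s.choose 2 * 2 = s * (s - 1) := by
    rw [Nat.choose_two_right]
    exact Nat.div_mul_cancel (Nat.even_mul_pred_self s).two_dvd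
  rw [h1]
  rw [h2, h3] at h4
  rcases Nat.eq_zero_or_pos s with h0 | h0
  · subst h0
    simp at h4 ⊢
  · obtain ⟨m, rfl⟩ : ∃ m, s = m + 1 := ⟨s - 1, by omega⟩
    have e1 : (m + 1) * 3 - 1 = 3 * m + 2 := by omega
    rw [e1] at h4
    rw [Nat.add_sub_cancel] at h5
    nlinarith

/-! ### words of types -/

/-- the sequence of types of a word, with first letter `t` -/
def ext {n : ℕ} (t : Fin 5) (f : Fin n → Fin 5) (i : ℕ) : Fin 5 :=
  if i = 0 then t else if h : i - 1 < n then f ⟨i - 1, h⟩ else 0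

theorem ext_zero {n : ℕ} (t : Fin 5) (f : Fin n → Fin 5) : ext t f 0 = t := rfl

theorem ext_succ {n : ℕ} (t : Fin 5) (f : Fin n → Fin 5) (i : ℕ) :
    ext t f (i + 1) = if h : i < n then f ⟨i, h⟩ else 0 := by
  unfold ext
  rw [if_neg (by omega)]
  rfl

theorem ext_cons {n : ℕ} (t u : Fin 5) (f : Fin n → Fin 5) (i : ℕ) :
    ext t (Fin.cons u f : Fin (n + 1) → Fin 5) (i + 1) = ext u f i := by
  rw [ext_succ]
  rcases Nat.eq_zero_or_pos i with h | h
  · subst h
    rw [dif_pos (Nat.succ_pos n), ext_zero]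
    rfl
  · obtain ⟨k, rfl⟩ : ∃ k, i = k + 1 := ⟨i - 1, by omega⟩
    rw [ext_succ]
    by_cases hk : k < n
    · rw [dif_pos (by omega), dif_pos hk]
      rfl
    · rw [dif_neg (by omega), dif_neg hk]

/-- the valid words -/
def Val {n : ℕ} (t : Fin 5) (f : Fin n → Fin 5) : Prop :=
  ∀ i, Ok (ext t f (i + 1)) (ext t f i)

theorem val_cons {n : ℕ} (t u : Fin 5) (f : Fin n → Fin 5) :
    Val t (Fin.cons u f : Fin (n + 1) → Fin 5) ↔ Ok u t ∧ Val u f := by
  unfold Val
  constructor
  · intro h
    refine ⟨?_, fun i => ?_⟩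
    · have := h 0
      rw [ext_cons, ext_zero, ext_zero] at this
      exact this
    · have := h (i + 1)
      rw [ext_cons, ext_cons] at this
      exact this
  · rintro ⟨h1, h2⟩ i
    rcases Nat.eq_zero_or_pos i with h | h
    · subst h
      rw [ext_cons, ext_zero, ext_zero]
      exact h1
    · obtain ⟨k, rfl⟩ : ∃ k, i = k + 1 := ⟨i - 1, by omega⟩
      rw [ext_cons, ext_cons]
      exact h2 k

theorem val_zero (t : Fin 5) (f : Fin 0 → Fin 5) : Val t f := by
  intro i
  rw [ext_succ, dif_neg (by omega)]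
  rcases Nat.eq_zero_or_pos i with h | h
  · subst h
    rw [ext_zero]
    revert t
    decide
  · obtain ⟨k, rfl⟩ : ∃ k, i = k + 1 := ⟨i - 1, by omega⟩
    rw [ext_succ, dif_neg (by omega)]
    decide

theorem good_ext {n : ℕ} {f : Fin n → Fin 5} (h : Val 0 f) : Good (n + 1) (ext 0 f) := by
  refine ⟨rfl, ?_, h⟩
  rw [ext_succ, dif_neg (by omega)]

section sums

variable {K : Type*} [Field K]

open Classical in
/-- the weighted number of the words -/
noncomputable def S (y : K) (n : ℕ) (t : Fin 5) : K :=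
  ∑ f : Fin n → Fin 5, if Val t f then ∏ i, y ^ w (f i) else 0

theorem S_zero (y : K) (t : Fin 5) : S y 0 t = 1 := by
  classical
  unfold S
  rw [Fintype.sum_unique, if_pos (val_zero t _)]
  simp

theorem S_succ (y : K) (n : ℕ) (t : Fin 5) :
    S y (n + 1) t = ∑ u : Fin 5, if Ok u t then y ^ w u * S y n u else 0 := by
  classical
  unfold S
  rw [← (Fin.consEquiv (fun _ : Fin (n + 1) => Fin 5)).sum_comp, Fintype.sum_prod_type]
  refine sum_congr rfl (fun u _ => ?_)
  have e : ∀ f : Fin n → Fin 5, (Fin.consEquiv (fun _ : Fin (n + 1) => Fin 5)) (u, f) =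
      (Fin.cons u f : Fin (n + 1) → Fin 5) := fun f => rfl
  by_cases h : Ok u t
  · rw [if_pos h, mul_sum]
    refine sum_congr rfl (fun f _ => ?_)
    rw [e]
    by_cases hf : Val u f
    · rw [if_pos hf, if_pos ((val_cons t u f).2 ⟨h, hf⟩), Fin.prod_univ_succ]
      simp
    · rw [if_neg hf, if_neg (fun hh => hf ((val_cons t u f).1 hh).2), mul_zero]
  · rw [if_neg h]
    apply sum_eq_zero
    intro f _
    rw [e, if_neg (fun hh => h ((val_cons t u f).1 hh).1)]

theorem S_class (y : K) (n : ℕ) {t t' : Fin 5} (h : ∀ u, Ok u t ↔ Ok u t') :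
    S y n t = S y n t' := by
  rcases n with _ | n
  · rw [S_zero, S_zero]
  · rw [S_succ, S_succ]
    refine sum_congr rfl (fun u _ => ?_)
    by_cases h1 : Ok u t
    · rw [if_pos h1, if_pos ((h u).1 h1)]
    · rw [if_neg h1, if_neg (fun h2 => h1 ((h u).2 h2))]

theorem S_rec0 (y : K) (n : ℕ) :
    S y (n + 1) 0 = (1 + y + y ^ 2) * S y n 0 + (y ^ 2 + y ^ 3) * S y n 2 := by
  rw [S_succ, Fin.sum_univ_five, if_pos (by decide), if_pos (by decide), if_pos (by decide),
    if_pos (by decide), if_pos (by decide), S_class y n (t := 1) (t' := 0) (by decide),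
    S_class y n (t := 3) (t' := 0) (by decide), S_class y n (t := 4) (t' := 2) (by decide)]
  rw [show w 0 = 0 from rfl, show w 1 = 1 from rfl, show w 2 = 2 from rfl,
    show w 3 = 2 from rfl, show w 4 = 3 from rfl]
  ring

theorem S_rec2 (y : K) (n : ℕ) :
    S y (n + 1) 2 = (1 + y) * S y n 0 + y ^ 2 * S y n 2 := by
  rw [S_succ, Fin.sum_univ_five, if_pos (by decide), if_pos (by decide), if_pos (by decide),
    if_neg (by decide), if_neg (by decide), S_class y n (t := 1) (t' := 0) (by decide)]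
  rw [show w 0 = 0 from rfl, show w 1 = 1 from rfl, show w 2 = 2 from rfl]
  ring

theorem S_eq (y : K) (n : ℕ) : S y n 0 = aeval y (F (n + 1)) ∧
    S y (n + 1) 0 = aeval y (F (n + 2)) := by
  induction n with
  | zero =>
    refine ⟨?_, ?_⟩
    · rw [S_zero]; simp [F]
    · rw [S_rec0, S_zero, S_zero]
      simp only [F, map_add, map_mul, map_pow, aeval_X, map_one, map_ofNat]
      ring
  | succ n ih =>
    refine ⟨ih.2, ?_⟩
    have h1 := S_rec0 y (n + 1)
    have h2 := S_rec2 y n
    have h3 := S_rec0 y n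
    have h4 : aeval y (F (n + 1 + 2)) =
        (1 + y + 2 * y ^ 2) * aeval y (F (n + 2)) + y ^ 3 * aeval y (F (n + 1)) := by
      simp only [F, map_add, map_mul, map_pow, aeval_X, map_one, map_ofNat]
    rw [h4, ← ih.1, ← ih.2]
    rw [h2] at h1
    linear_combination h1 - y ^ 2 * h3

end sums

/-! ### the sum over the permutations -/

theorem ty_ge {s : ℕ} (π : Equiv.Perm (Fin (s * 3))) {i : ℕ} (hi : s ≤ i) : ty s π i = 0 := by
  classical
  unfold ty
  by_cases h : i = 0
  · rw [if_pos h]
  · rw [if_neg h]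
    have n1 : ¬ Bef π (3 * (i - 1)) (3 * i + 1) := by rintro ⟨_, h2, _⟩; omega
    have n2 : ¬ Bef π (3 * (i - 1)) (3 * i + 2) := by rintro ⟨_, h2, _⟩; omega
    have n3 : ¬ Bef π (3 * (i - 1) + 1) (3 * i + 2) := by rintro ⟨_, h2, _⟩; omega
    rw [decide_eq_false n1, decide_eq_false n2, decide_eq_false n3]
    rfl

/-- the word of a permutation -/
noncomputable def word (n : ℕ) (π : Equiv.Perm (Fin ((n + 1) * 3))) : Fin n → Fin 5 :=
  fun i => ty (n + 1) π (i + 1)

theorem ext_word {n : ℕ} (π : Equiv.Perm (Fin ((n + 1) * 3))) :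
    ext 0 (word n π) = ty (n + 1) π := by
  funext i
  rcases Nat.eq_zero_or_pos i with h | h
  · subst h
    rw [ext_zero]
    unfold ty
    rw [if_pos rfl]
  · obtain ⟨k, rfl⟩ : ∃ k, i = k + 1 := ⟨i - 1, by omega⟩
    rw [ext_succ]
    by_cases hk : k < n
    · rw [dif_pos hk]
      rfl
    · rw [dif_neg hk, ty_ge π (by omega)]

theorem sig_congr {s : ℕ} {g g' : ℕ → Fin 5} (hg : Good s g) (hg' : Good s g') (h : g = g') :
    sig hg = sig hg' := by
  subst h
  rfl

open Classical in
/-- the permutation of a word -/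
noncomputable def permOf {n : ℕ} (f : Fin n → Fin 5) : Equiv.Perm (Fin ((n + 1) * 3)) :=
  if h : Val 0 f then (sig (good_ext h)).symm else 1

theorem permOf_pos {n : ℕ} {f : Fin n → Fin 5} (h : Val 0 f) :
    permOf f = (sig (good_ext h)).symm := by
  unfold permOf
  rw [dif_pos h]

theorem sum_EN {K : Type*} [Field K] {q : K} (hq : q ≠ 0) (n : ℕ) :
    ∑ π ∈ EN (n + 1) 3, q ^ inv π = q ^ (9 * (n + 1).choose 2) * S q⁻¹ n 0 := by
  classical
  unfold S
  rw [← sum_filter, mul_sum]
  symm
  apply sum_nbij' (fun f => permOf f) (fun π => word n π)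
  · intro f hf
    rw [mem_filter] at hf
    rw [permOf_pos hf.2]
    exact mem_EN_sig _
  · intro π hπ
    unfold EN at hπ
    rw [mem_filter] at hπ
    rw [mem_filter]
    refine ⟨mem_univ _, ?_⟩
    unfold Val
    rw [ext_word]
    exact (good_ty hπ.2.1 hπ.2.2).ok
  · intro f hf
    rw [mem_filter] at hf
    rw [permOf_pos hf.2]
    funext i
    unfold word
    rw [ty_sig _ (by omega), ext_succ, dif_pos i.2]
  · intro π hπ
    unfold EN at hπ
    rw [mem_filter] at hπ
    have hG := good_ty hπ.2.1 hπ.2.2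
    have hV : Val 0 (word n π) := by
      unfold Val
      rw [ext_word]
      exact hG.ok
    rw [permOf_pos hV, sig_congr (good_ext hV) hG (ext_word π)]
    exact sig_ty hπ.2.1 hπ.2.2
  · intro f hf
    rw [mem_filter] at hf
    rw [permOf_pos hf.2, ← inv_sig (good_ext hf.2)]
    have e : ∑ i ∈ range (n + 1), w (ext 0 f i) = ∑ i : Fin n, w (f i) := by
      rw [sum_range_succ', ext_zero, show w 0 = 0 from rfl, add_zero,
        ← Fin.sum_univ_eq_sum_range (fun i => w (ext 0 f (i + 1))) n]
      refine sum_congr rfl (fun i _ => ?_)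
      rw [ext_succ, dif_pos i.2]
    rw [e, prod_pow_eq_pow_sum, pow_add, inv_pow, mul_assoc,
      mul_inv_cancel₀ (pow_ne_zero _ hq), mul_one]

end Q165.EN3
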