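import Pool.Agent.Q109.FV.Stm2

set_option autoImplicit false

/-! # Job NUM of project FV (helper109): rough numerical bounds for the limit -/

namespace Q109.FV.Q165
open SimpleGraph Filter Topology

variable {s : ℕ}

theorem aut_pos (t : SimpleGraph (Fin s)) (r : Fin s) : 1 ≤ aut t r := by
  unfold aut
  have : Finite (t ≃g t) := Finite.of_injective (fun e : t ≃g t => (e : Fin s → Fin s)) DFunLike.coe_injective
  have : Nonempty {σ : t ≃g t // σ r = r} := ⟨⟨RelIso.refl _, rfl⟩⟩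
  exact Nat.card_pos

theorem rfix_le (t : SimpleGraph (Fin s)) (r : Fin s) : rfix t r ≤ s := by
  unfold rfix
  calc _ ≤ Nat.card (Fin s) := Nat.card_le_card_of_injective _ Subtype.val_injective
    _ = s := by simp

theorem id_of_le_two (hs : s ≤ 2) (t : SimpleGraph (Fin s)) (r : Fin s) (σ : t ≃g t) (h : σ r = r)
    (v : Fin s) : σ v = v := by
  by_cases hv : v = r
  · rw [hv, h]
  · have h1 : σ v ≠ r := fun h' => hv (σ.injective (h'.trans h.symm))
    have a := v.2
    have b := r.2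
    have c := (σ v).2
    have d : (σ v : ℕ) ≠ r := fun h' => h1 (Fin.ext h')
    have e : (v : ℕ) ≠ r := fun h' => hv (Fin.ext h')
    apply Fin.ext
    omega

theorem aut_eq (hs : s ≤ 2) (t : SimpleGraph (Fin s)) (r : Fin s) : aut t r = 1 := by
  unfold aut
  rw [Nat.card_eq_one_iff_unique]
  refine ⟨⟨fun a b => ?_⟩, ⟨⟨RelIso.refl _, rfl⟩⟩⟩
  apply Subtype.ext
  apply RelIso.ext
  intro v
  rw [id_of_le_two hs t r a.1 a.2 v, id_of_le_two hs t r b.1 b.2 v]

theorem rfix_eq (hs : s ≤ 2) (t : SimpleGraph (Fin s)) (r : Fin s) : rfix t r = s := by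
  unfold rfix
  rw [Nat.card_congr (Equiv.subtypeUnivEquiv fun v => fun σ h => id_of_le_two hs t r σ h v)]
  simp

theorem factor_nonneg (t : SimpleGraph (Fin s)) (r : Fin s) :
    0 ≤ (rfix t r : ℝ) * (1 - Real.exp (-(Real.exp (-(s : ℝ)) / aut t r))) := by
  apply mul_nonneg (by positivity)
  have : Real.exp (-(Real.exp (-(s : ℝ)) / aut t r)) ≤ 1 := by
    apply Real.exp_le_one_iff.2
    have : 0 ≤ Real.exp (-(s : ℝ)) / aut t r := by positivity
    linarith
  linarith

theorem factor_le (t : SimpleGraph (Fin s)) (r : Fin s) :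
    (rfix t r : ℝ) * (1 - Real.exp (-(Real.exp (-(s : ℝ)) / aut t r))) ≤ s * Real.exp (-(s : ℝ)) := by
  have h1 : (rfix t r : ℝ) ≤ s := by exact_mod_cast rfix_le t r
  have h2 : (1 : ℝ) ≤ aut t r := by exact_mod_cast aut_pos t r
  have h3 : 1 - Real.exp (-(Real.exp (-(s : ℝ)) / aut t r)) ≤ Real.exp (-(s : ℝ)) := by
    have := Real.add_one_le_exp (-(Real.exp (-(s : ℝ)) / aut t r))
    have h4 : Real.exp (-(s : ℝ)) / aut t r ≤ Real.exp (-(s : ℝ)) :=
      div_le_self (Real.exp_nonneg _) h2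
    linarith
  calc _ ≤ (rfix t r : ℝ) * Real.exp (-(s : ℝ)) := mul_le_mul_of_nonneg_left h3 (by positivity)
    _ ≤ _ := mul_le_mul_of_nonneg_right h1 (Real.exp_nonneg _)

theorem term_nonneg (s : ℕ) : 0 ≤ term s := by
  unfold term
  apply mul_nonneg (by positivity)
  exact Finset.sum_nonneg fun t _ => Finset.sum_nonneg fun r _ => factor_nonneg t r

theorem term_le (hC : ∀ n, 1 ≤ n → (trees n).card = n ^ (n - 2)) {s : ℕ} (hs : 1 ≤ s) :
    term s ≤ (s : ℝ) ^ s / s.factorial * (Real.exp (-(s : ℝ)) * Real.exp (-(s : ℝ))) := by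
  unfold term
  have h1 : ∑ t ∈ trees s, ∑ r : Fin s,
      (rfix t r : ℝ) * (1 - Real.exp (-(Real.exp (-(s : ℝ)) / aut t r))) ≤
      (trees s).card * (s * (s * Real.exp (-(s : ℝ)))) := by
    rw [← nsmul_eq_mul]
    apply Finset.sum_le_card_nsmul
    intro t _
    calc _ ≤ ∑ r : Fin s, s * Real.exp (-(s : ℝ)) := Finset.sum_le_sum fun r _ => factor_le t r
      _ = _ := by simp
  rw [hC s hs] at h1
  have h2 : ((s ^ (s - 2) : ℕ) : ℝ) * (s * (s * Real.exp (-(s : ℝ)))) = (s : ℝ) ^ s * Real.exp (-(s : ℝ)) := by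
    rcases Nat.lt_or_ge s 2 with h | h
    · have : s = 1 := by omega
      subst this
      simp
    · obtain ⟨k, rfl⟩ := Nat.exists_eq_add_of_le h
      rw [show 2 + k - 2 = k by omega]
      push_cast
      ring
  rw [h2] at h1
  calc _ ≤ Real.exp (-(s : ℝ)) / s.factorial * ((s : ℝ) ^ s * Real.exp (-(s : ℝ))) :=
        mul_le_mul_of_nonneg_left h1 (by positivity)
    _ = _ := by ring

theorem term_small (hC : ∀ n, 1 ≤ n → (trees n).card = n ^ (n - 2)) {s : ℕ} (h1 : 1 ≤ s)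
    (hs : s ≤ 2) : term s = (s : ℝ) ^ s / s.factorial * (Real.exp (-(s : ℝ)) *
      (1 - Real.exp (-(Real.exp (-(s : ℝ)))))) := by
  unfold term
  have h : ∑ t ∈ trees s, ∑ r : Fin s,
      (rfix t r : ℝ) * (1 - Real.exp (-(Real.exp (-(s : ℝ)) / aut t r))) =
      ∑ t ∈ trees s, ((s : ℝ) * (s * (1 - Real.exp (-(Real.exp (-(s : ℝ))))))) := by
    apply Finset.sum_congr rfl
    intro t _
    rw [Finset.sum_congr rfl (g := fun _ => (s * (1 - Real.exp (-(Real.exp (-(s : ℝ)))))))]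
    · simp
    · intro r _
      rw [aut_eq hs, rfix_eq hs]
      simp
  rw [h, Finset.sum_const, nsmul_eq_mul, hC s h1]
  have : s = 1 ∨ s = 2 := by omega
  rcases this with rfl | rfl
  · simp
  · norm_num
    ring

theorem term_zero : term 0 = 0 := by
  unfold term
  simp

theorem low (y : ℝ) (hy : 0 ≤ y) : 1 - 1 / (1 + y + y ^ 2 / 2) ≤ 1 - Real.exp (-y) := by
  have h := Real.quadratic_le_exp_of_nonneg hy
  rw [Real.exp_neg, ← one_div]
  have : 1 / Real.exp y ≤ 1 / (1 + y + y ^ 2 / 2) :=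
    one_div_le_one_div_of_le (by positivity) h
  linarith

theorem upp (y : ℝ) (hy : 0 ≤ y) (hy1 : y ≤ 1) :
    1 - Real.exp (-y) ≤ 1 - 1 / (1 + y + y ^ 2 / 2 + y ^ 3 / 6 + y ^ 4 * (5 / 96)) := by
  have h := Real.exp_bound' hy hy1 (n := 4) (by norm_num)
  simp only [Finset.sum_range_succ, Finset.sum_range_zero] at h
  norm_num [Nat.factorial] at h
  have h' : Real.exp y ≤ 1 + y + y ^ 2 / 2 + y ^ 3 / 6 + y ^ 4 * (5 / 96) := by
    linarith
  rw [Real.exp_neg, ← one_div]
  have : 1 / (1 + y + y ^ 2 / 2 + y ^ 3 / 6 + y ^ 4 * (5 / 96)) ≤ 1 / Real.exp y :=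
    one_div_le_one_div_of_le (Real.exp_pos _) h'
  linarith

theorem low' {y c d : ℝ} (hc : 0 ≤ c) (h : c ≤ y) (hd : d * (1 + c + c ^ 2 / 2) ≤ c + c ^ 2 / 2) :
    d ≤ 1 - Real.exp (-y) := by
  have h1 := low c hc
  have h2 : Real.exp (-y) ≤ Real.exp (-c) := Real.exp_le_exp.2 (by linarith)
  have h3 : d ≤ 1 - 1 / (1 + c + c ^ 2 / 2) := by
    have h4 : 0 < 1 + c + c ^ 2 / 2 := by positivity
    rw [le_sub_iff_add_le, ← le_sub_iff_add_le', div_le_iff₀ h4]
    linarith
  linarith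

theorem upp' {y c d : ℝ} (hc : 0 ≤ c) (hc1 : c ≤ 1) (h : y ≤ c)
    (hd : c + c ^ 2 / 2 + c ^ 3 / 6 + c ^ 4 * (5 / 96) ≤
      d * (1 + c + c ^ 2 / 2 + c ^ 3 / 6 + c ^ 4 * (5 / 96))) :
    1 - Real.exp (-y) ≤ d := by
  have h1 := upp c hc hc1
  have h2 : Real.exp (-c) ≤ Real.exp (-y) := Real.exp_le_exp.2 (by linarith)
  have h3 : 1 - 1 / (1 + c + c ^ 2 / 2 + c ^ 3 / 6 + c ^ 4 * (5 / 96)) ≤ d := by
    have h4 : 0 < 1 + c + c ^ 2 / 2 + c ^ 3 / 6 + c ^ 4 * (5 / 96) := by positivity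
    rw [sub_le_comm, le_div_iff₀ h4]
    linarith
  linarith

theorem num : S_NUM := by
  intro hC hS
  have e1 := Real.exp_one_gt_d9
  have e2 := Real.exp_one_lt_d9
  obtain ⟨a, ha⟩ : ∃ a, a = Real.exp (-1) := ⟨_, rfl⟩
  have ha1 : a * Real.exp 1 = 1 := by rw [ha, ← Real.exp_add]; simp
  have ha0 : 0 < a := by rw [ha]; exact Real.exp_pos _
  have alo : 0.36787 < a := by nlinarith
  have ahi : a < 0.36788 := by nlinarith
  have ea : ∀ n : ℕ, Real.exp (-(n : ℝ)) = a ^ n := by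
    intro n
    rw [ha, ← Real.exp_nat_mul]
    ring_nf
  have t1 : term 1 = a * (1 - Real.exp (-a)) := by
    rw [term_small hC le_rfl (by norm_num)]
    norm_num [ha]
  have t2 : term 2 = 2 * a ^ 2 * (1 - Real.exp (-a ^ 2)) := by
    rw [term_small hC (by norm_num) le_rfl, ea 2]
    norm_num
    ring
  have t3 : term 3 ≤ 9 / 2 * a ^ 6 := by
    have := term_le hC (s := 3) (by norm_num)
    rw [ea 3] at this
    norm_num [Nat.factorial] at this
    linarith
  have pl : ∀ k : ℕ, (0.36787 : ℝ) ^ k ≤ a ^ k := fun k => pow_le_pow_left₀ (by norm_num) alo.le k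
  have ph : ∀ k : ℕ, a ^ k ≤ (0.36788 : ℝ) ^ k := fun k => pow_le_pow_left₀ ha0.le ahi.le k
  have a2lo : 0.1353 ≤ a ^ 2 := le_trans (by norm_num) (pl 2)
  have a2hi : a ^ 2 ≤ 0.1354 := le_trans (ph 2) (by norm_num)
  have a4 : a ^ 4 ≤ 0.01832 := le_trans (ph 4) (by norm_num)
  have a6 : a ^ 6 ≤ 0.00249 := le_trans (ph 6) (by norm_num)
  have b1 : 0.3033 ≤ 1 - Real.exp (-a) := low' (by norm_num) alo.le (by norm_num)
  have b2 : 0.126 ≤ 1 - Real.exp (-a ^ 2) := low' (by norm_num) a2lo (by norm_num)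
  have c1 : 1 - Real.exp (-a) ≤ 0.309 := upp' (by norm_num) (by norm_num) ahi.le (by norm_num)
  have c2 : 1 - Real.exp (-a ^ 2) ≤ 0.127 := upp' (by norm_num) (by norm_num) a2hi (by norm_num)
  -- tail
  have tail : ∑' i, term (i + 4) ≤ a ^ 4 * (1 - a)⁻¹ := by
    have hg : Summable fun i : ℕ => a ^ 4 * a ^ i :=
      (summable_geometric_of_lt_one ha0.le (by linarith)).mul_left _
    calc ∑' i, term (i + 4) ≤ ∑' i : ℕ, a ^ 4 * a ^ i := by
          apply Summable.tsum_le_tsum _ ((summable_nat_add_iff 4).2 hS) hg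
          intro i
          have h1 := term_le hC (s := i + 4) (by omega)
          have h2 := Real.pow_div_factorial_le_exp ((i + 4 : ℕ) : ℝ) (by positivity) (i + 4)
          rw [ea (i + 4)] at h1
          have h3 : Real.exp ((i + 4 : ℕ) : ℝ) * a ^ (i + 4) = 1 := by
            rw [← ea (i + 4), ← Real.exp_add]
            simp
          have h4 : 0 < a ^ (i + 4) := by positivity
          calc term (i + 4) ≤ _ := h1
            _ ≤ Real.exp ((i + 4 : ℕ) : ℝ) * (a ^ (i + 4) * a ^ (i + 4)) :=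
              mul_le_mul_of_nonneg_right h2 (by positivity)
            _ = a ^ 4 * a ^ i := by
              rw [← mul_assoc, h3]
              ring
      _ = a ^ 4 * (1 - a)⁻¹ := by
        rw [tsum_mul_left, tsum_geometric_of_lt_one ha0.le (by linarith)]
  have inv : (1 - a)⁻¹ ≤ 1.5821 := by
    rw [inv_le_comm₀ (by linarith) (by norm_num)]
    norm_num
    linarith
  have split := Summable.sum_add_tsum_nat_add 4 hS
  have low3 := Summable.sum_le_tsum (Finset.range 3) (fun i _ => term_nonneg i) hS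
  simp only [Finset.sum_range_succ, Finset.sum_range_zero, term_zero] at split low3
  have tl : a ^ 4 * (1 - a)⁻¹ ≤ 0.01832 * 1.5821 := by
    apply mul_le_mul a4 inv _ (by norm_num)
    exact inv_nonneg.2 (by linarith)
  constructor
  · have h1 : term 1 ≤ 0.36788 * 0.309 := by
      rw [t1]
      exact mul_le_mul ahi.le c1 (by linarith) (by norm_num)
    have h2 : term 2 ≤ 2 * 0.1354 * 0.127 := by
      rw [t2]
      exact mul_le_mul (by linarith) c2 (by linarith) (by norm_num)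
    linarith
  · have h1 : 0.36787 * 0.3033 ≤ term 1 := by
      rw [t1]
      exact mul_le_mul alo.le b1 (by norm_num) ha0.le
    have h2 : 2 * 0.1353 * 0.126 ≤ term 2 := by
      rw [t2]
      exact mul_le_mul (by linarith) b2 (by norm_num) (by positivity)
    linarith

end Q109.FV.Q165
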