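import Pool.Agent.Q165.Cyc

set_option autoImplicit false

/-!
# The genus of a partition of a cycle into three blocks
-/

namespace Q165.Genus3

open Equiv Finset Q165.Cyc

/-- `τ` permutes every class of `r` cyclically in increasing order: `τ a` is the least element of
the class of `a` above `a`, or `a` is the largest element of its class and `τ a` the smallest. -/
def IsBlockPerm {n : ℕ} (r : Setoid (Fin n)) (τ : Perm (Fin n)) : Prop :=
  ∀ a, r a (τ a) ∧ ((a < τ a ∧ ∀ b, r a b → a < b → τ a ≤ b) ∨ ∀ b, r a b → τ a ≤ b ∧ b ≤ a)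

theorem exists_blockPerm {n : ℕ} (r : Setoid (Fin n)) : ∃ τ : Perm (Fin n), IsBlockPerm r τ := by
  classical
  have hex : ∀ a : Fin n, ∃ c, r a c ∧
      ((a < c ∧ ∀ b, r a b → a < b → c ≤ b) ∨ ∀ b, r a b → c ≤ b ∧ b ≤ a) := by
    intro a
    by_cases h : ∃ b, r a b ∧ a < b
    · let S := univ.filter (fun b => r a b ∧ a < b)
      have hS : S.Nonempty := by
        obtain ⟨b, hb⟩ := h
        exact ⟨b, mem_filter.mpr ⟨mem_univ _, hb⟩⟩
      have h1 := S.min'_mem hS
      rw [mem_filter] at h1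
      refine ⟨S.min' hS, h1.2.1, Or.inl ⟨h1.2.2, ?_⟩⟩
      intro b hb hab
      exact S.min'_le b (mem_filter.mpr ⟨mem_univ _, hb, hab⟩)
    · push Not at h
      let S := univ.filter (fun b => r a b)
      have hS : S.Nonempty := ⟨a, mem_filter.mpr ⟨mem_univ _, r.refl' a⟩⟩
      have h1 := S.min'_mem hS
      rw [mem_filter] at h1
      refine ⟨S.min' hS, h1.2, Or.inr ?_⟩
      intro b hb
      exact ⟨S.min'_le b (mem_filter.mpr ⟨mem_univ _, hb⟩), h b hb⟩
  choose f hf1 hf2 using hex
  have hinj : Function.Injective f := by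
    intro a b hab
    have hrab : r a b := r.trans' (hf1 a) (by rw [hab]; exact r.symm' (hf1 b))
    have hrba : r b a := r.symm' hrab
    rcases hf2 a with ⟨ha1, ha2⟩ | ha <;> rcases hf2 b with ⟨hb1, hb2⟩ | hb
    · rcases lt_trichotomy a b with h | h | h
      · have := ha2 b hrab h
        rw [hab] at this
        exact absurd hb1 (not_lt.mpr this)
      · exact h
      · have := hb2 a hrba h
        rw [← hab] at this
        exact absurd ha1 (not_lt.mpr this)
    · have h1 := (hb a hrba).1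
      rw [← hab] at h1
      exact absurd ha1 (not_lt.mpr h1)
    · have h1 := (ha b hrab).1
      rw [hab] at h1
      exact absurd hb1 (not_lt.mpr h1)
    · exact le_antisymm (hb a hrba).2 (ha b hrab).2
  refine ⟨Equiv.ofBijective f (Finite.injective_iff_bijective.mp hinj), ?_⟩
  intro a
  exact ⟨hf1 a, hf2 a⟩

theorem blockPerm_unique {n : ℕ} (r : Setoid (Fin n)) (τ τ' : Perm (Fin n))
    (h : IsBlockPerm r τ) (h' : IsBlockPerm r τ') : τ = τ' := by
  ext1 a
  obtain ⟨h1, h2⟩ := h a
  obtain ⟨h1', h2'⟩ := h' a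
  rcases h2 with ⟨h3, h4⟩ | h2 <;> rcases h2' with ⟨h3', h4'⟩ | h2'
  · exact le_antisymm (h4 _ h1' h3') (h4' _ h1 h3)
  · exact absurd h3 (not_lt.mpr (h2' _ h1).2)
  · exact absurd h3' (not_lt.mpr (h2 _ h1').2)
  · exact le_antisymm (h2 _ h1').1 (h2' _ h1).1

theorem sameCycle_iff {n : ℕ} (r : Setoid (Fin n)) (τ : Perm (Fin n)) (h : IsBlockPerm r τ)
    (a b : Fin n) : τ.SameCycle a b ↔ r a b := by
  constructor
  · intro hab
    obtain ⟨k, hk⟩ := Perm.SameCycle.exists_nat_pow_eq hab
    have : ∀ k : ℕ, r a ((τ ^ k) a) := by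
      intro k
      induction k with
      | zero => exact r.refl' a
      | succ k ih =>
        rw [pow_succ', Perm.mul_apply]
        exact r.trans' ih (h _).1
    rw [← hk]
    exact this k
  · -- upward chain
    have up : ∀ (d : ℕ) (a b : Fin n), (b : ℕ) - a = d → a ≤ b → r a b → τ.SameCycle a b := by
      intro d
      induction d using Nat.strong_induction_on with
      | _ d ih =>
        intro a b hd hab hr
        rcases hab.eq_or_lt with rfl | hlt
        · exact Perm.SameCycle.refl _ _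
        · obtain ⟨h1, h2⟩ := h a
          rcases h2 with ⟨h3, h4⟩ | h2
          · have h5 := h4 b hr hlt
            have h6 : (b : ℕ) - (τ a : ℕ) < d := by
              have e1 : (a : ℕ) < (τ a : ℕ) := h3
              have e2 : (τ a : ℕ) ≤ b := h5
              omega
            have h7 := ih _ h6 (τ a) b rfl h5 (r.trans' (r.symm' h1) hr)
            exact (Perm.sameCycle_apply_left.mp h7)
          · exact absurd hlt (not_lt.mpr (h2 b hr).2)
    intro hr
    rcases le_total a b with hab | hab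
    · exact up _ a b rfl hab hr
    · exact (up _ b a rfl hab (r.symm' hr)).symm

theorem numCycles_blockPerm {n : ℕ} (r : Setoid (Fin n)) (τ : Perm (Fin n))
    (h : IsBlockPerm r τ) : numCycles τ = Nat.card (Quotient r) := by
  unfold numCycles
  have : Perm.SameCycle.setoid τ = r := by
    ext a b
    exact sameCycle_iff r τ h a b
  rw [this]

section Words

variable {N : ℕ} (w : Fin (N + 1) → ZMod 3)

/-- The word, extended cyclically to all natural numbers. -/
def W (k : ℕ) : ZMod 3 := w (Fin.ofNat (N + 1) k)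

/-- The steps of the word. -/
def e (k : ℕ) : ZMod 3 := W w (k + 1) - W w k

/-- The number of boundaries before `k`. -/
def bm (k : ℕ) : ℕ := ((range k).filter (fun q => e w q ≠ 0)).card

/-- The colour of `k`. -/
def kap (k : ℕ) : ZMod 3 := (-1) ^ bm w k * e w k

theorem W_val (i : Fin (N + 1)) : W w i = w i := by
  unfold W
  congr 1
  apply Fin.ext
  simp [Nat.mod_eq_of_lt i.isLt]

theorem W_succ (i : Fin (N + 1)) : W w (i + 1) = w (i + 1) := by
  unfold W
  congr 1
  apply Fin.ext
  simp [Fin.val_add]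

theorem bm_succ_of_eq {k : ℕ} (h : e w k = 0) : bm w (k + 1) = bm w k := by
  unfold bm
  rw [range_add_one, filter_insert, if_neg (by simpa using h)]

theorem bm_succ_of_ne {k : ℕ} (h : e w k ≠ 0) : bm w (k + 1) = bm w k + 1 := by
  unfold bm
  rw [range_add_one, filter_insert, if_pos h, card_insert_of_notMem (by simp)]

theorem sq_one (m : ℕ) : ((-1 : ZMod 3) ^ m) * (-1) ^ m = 1 := by
  rw [← mul_pow]
  simp

theorem e_eq (k : ℕ) : e w k = (-1) ^ bm w k * kap w k := by
  unfold kap
  rw [← mul_assoc, sq_one, one_mul]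

theorem kap_ne {k : ℕ} (h : e w k ≠ 0) : kap w k ≠ 0 := by
  intro h0
  apply h
  rw [e_eq, h0, mul_zero]

theorem neg_of_ne : ∀ a b : ZMod 3, a ≠ 0 → b ≠ 0 → a ≠ b → a = -b := by decide

/-- Walking back from the boundary `i`. -/
theorem walk {i j : ℕ} (hi : e w i ≠ 0) (hbetween : ∀ p, j < p → p < i → e w p ≠ 0 →
    kap w p ≠ kap w i) :
    ∀ d p, i = p + d → j < p → W w (i + 1) - W w p = (-1) ^ bm w p * kap w i := by
  intro d
  induction d with
  | zero =>
    intro p hp _
    rw [add_zero] at hp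
    subst hp
    rw [← e_eq]
    rfl
  | succ d ih =>
    intro p hp hjp
    have h1 := ih (p + 1) (by omega) (by omega)
    have h2 : W w (i + 1) - W w p = (W w (i + 1) - W w (p + 1)) + e w p := by
      unfold e
      ring
    rw [h2, h1]
    by_cases h0 : e w p = 0
    · rw [h0, bm_succ_of_eq w h0, add_zero]
    · have h3 := neg_of_ne _ _ (kap_ne w h0) (kap_ne w hi) (hbetween p hjp (by omega) h0)
      rw [bm_succ_of_ne w h0, e_eq w p, h3]
      have h4 : (3 : ZMod 3) = 0 := rfl
      linear_combination (-(-1) ^ bm w p * kap w i) * h4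

theorem walk_end {i j : ℕ} (hji : j < i) (hi : e w i ≠ 0) (hj : e w j ≠ 0)
    (hk : kap w j = kap w i)
    (hbetween : ∀ p, j < p → p < i → e w p ≠ 0 → kap w p ≠ kap w i) :
    W w j = W w (i + 1) ∧ ∀ p, j < p → p ≤ i → W w p ≠ W w (i + 1) := by
  constructor
  · have h1 := walk w hi hbetween (i - (j + 1)) (j + 1) (by omega) (by omega)
    have h2 : W w (i + 1) - W w j = (W w (i + 1) - W w (j + 1)) + e w j := by
      unfold e
      ring
    rw [h1, bm_succ_of_ne w hj, e_eq w j, hk] at h2
    have h3 : W w (i + 1) - W w j = 0 := by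
      rw [h2]
      ring
    exact (sub_eq_zero.mp h3).symm
  · intro p hjp hpi heq
    have h1 := walk w hi hbetween (i - p) p (by omega) hjp
    rw [heq, sub_self] at h1
    have h2 := kap_ne w hi
    have h3 : ((-1 : ZMod 3) ^ bm w p) ≠ 0 := by
      intro h0
      have := sq_one (bm w p)
      rw [h0, zero_mul] at this
      exact absurd this (by decide)
    exact (mul_ne_zero h3 h2) h1.symm

variable {w}

theorem ker_iff {a b : Fin (N + 1)} : (Setoid.ker w) a b ↔ w a = w b := Iff.rfl

/-- The block permutation jumps from a boundary to just after the next boundary of the same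
colour. -/
theorem tau_eq (τ : Perm (Fin (N + 1))) (hτ : IsBlockPerm (Setoid.ker w) τ) {i j : Fin (N + 1)}
    (hji : j < i) (hi : e w i ≠ 0) (hj : e w j ≠ 0) (hk : kap w j = kap w i)
    (hbetween : ∀ p : Fin (N + 1), j < p → p < i → e w p ≠ 0 → kap w p ≠ kap w i) :
    τ j = i + 1 := by
  have hb' : ∀ p : ℕ, (j : ℕ) < p → p < i → e w p ≠ 0 → kap w p ≠ kap w i := by
    intro p h1 h2 h3
    exact hbetween ⟨p, by omega⟩ h1 h2 h3
  obtain ⟨h1, h2⟩ := walk_end w hji hi hj hk hb'
  rw [W_val, W_succ] at h1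
  rw [W_succ] at h2
  have h2' : ∀ p : Fin (N + 1), j < p → p ≤ i → w p ≠ w (i + 1) := by
    intro p h3 h4
    have := h2 p h3 h4
    rwa [W_val] at this
  obtain ⟨h3, h4⟩ := hτ j
  have h3' : w (τ j) = w (i + 1) := by
    rw [← h1]
    exact (ker_iff.mp h3).symm
  rcases Nat.lt_or_ge (i : ℕ) N with hiN | hiN
  · have hval : ((i + 1 : Fin (N + 1)) : ℕ) = i + 1 := by
      rw [Fin.val_add, Fin.val_one', Nat.mod_eq_of_lt (by omega : 1 < N + 1),
        Nat.mod_eq_of_lt (by omega)]
    have hlt : j < i + 1 := by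
      rw [Fin.lt_def, hval]
      have : (j : ℕ) < i := hji
      omega
    rcases h4 with ⟨h5, h6⟩ | h4
    · have h7 := h6 (i + 1) (ker_iff.mpr h1) hlt
      rcases h7.lt_or_eq with h8 | h8
      · exfalso
        apply h2' (τ j) h5 _ h3'
        rw [Fin.lt_def, hval] at h8
        rw [Fin.le_def]
        omega
      · exact h8
    · exact absurd hlt (not_lt.mpr (h4 (i + 1) (ker_iff.mpr h1)).2)
  · have hiN' : (i : ℕ) = N := by omega
    have hval : (i + 1 : Fin (N + 1)) = 0 := by
      apply Fin.ext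
      rw [Fin.val_add, hiN', Fin.val_zero]
      rcases Nat.eq_zero_or_pos N with h0 | h0
      · subst h0
        simp
      · rw [Fin.val_one', Nat.mod_eq_of_lt (by omega : 1 < N + 1), Nat.mod_self]
    rcases h4 with ⟨h5, h6⟩ | h4
    · exfalso
      apply h2' (τ j) h5 _ h3'
      rw [Fin.le_def]
      omega
    · have h5 := (h4 (i + 1) (ker_iff.mpr h1)).1
      rw [hval] at h5 ⊢
      exact le_antisymm h5 (Fin.zero_le _)

theorem fixed_iff (τ : Perm (Fin (N + 1))) (hτ : IsBlockPerm (Setoid.ker w) τ)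
    (i : Fin (N + 1)) : (τ⁻¹ * finRotate (N + 1)) i = i ↔ e w i = 0 := by
  have h0 : (τ⁻¹ * finRotate (N + 1)) i = i ↔ τ i = i + 1 := by
    rw [Perm.mul_apply, Perm.inv_eq_iff_eq, finRotate_succ_apply]
    exact eq_comm
  have h1 : e w i = w (i + 1) - w i := by
    unfold e
    rw [W_succ, W_val]
  rw [h0, h1, sub_eq_zero]
  obtain ⟨h3, h4⟩ := hτ i
  constructor
  · intro h
    rw [h] at h3
    exact (ker_iff.mp h3).symm
  · intro h
    have hr : (Setoid.ker w) i (i + 1) := ker_iff.mpr h.symm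
    rcases Nat.lt_or_ge (i : ℕ) N with hiN | hiN
    · have hval : ((i + 1 : Fin (N + 1)) : ℕ) = i + 1 := by
        rw [Fin.val_add, Fin.val_one', Nat.mod_eq_of_lt (by omega : 1 < N + 1),
          Nat.mod_eq_of_lt (by omega)]
      have hlt : i < i + 1 := by
        rw [Fin.lt_def, hval]
        omega
      rcases h4 with ⟨h5, h6⟩ | h4
      · apply le_antisymm (h6 _ hr hlt)
        rw [Fin.le_def, hval]
        exact h5
      · exact absurd hlt (not_lt.mpr (h4 _ hr).2)
    · have hiN' : (i : ℕ) = N := by omega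
      have hval : (i + 1 : Fin (N + 1)) = 0 := by
        apply Fin.ext
        rw [Fin.val_add, hiN', Fin.val_zero]
        rcases Nat.eq_zero_or_pos N with h0 | h0
        · subst h0
          simp
        · rw [Fin.val_one', Nat.mod_eq_of_lt (by omega : 1 < N + 1), Nat.mod_self]
      rcases h4 with ⟨h5, h6⟩ | h4
      · exfalso
        rw [Fin.lt_def] at h5
        omega
      · have h5 := (h4 (i + 1) hr).1
        rw [hval] at h5 ⊢
        exact le_antisymm h5 (Fin.zero_le _)

/-- Boundaries of the same colour lie on the same cycle. -/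
theorem sameCycle_of_kap (τ : Perm (Fin (N + 1))) (hτ : IsBlockPerm (Setoid.ker w) τ) :
    ∀ (m : ℕ) (i j : Fin (N + 1)), (i : ℕ) = m → j < i → e w i ≠ 0 → e w j ≠ 0 →
      kap w j = kap w i → (τ⁻¹ * finRotate (N + 1)).SameCycle i j := by
  classical
  intro m
  induction m using Nat.strong_induction_on with
  | _ m ih =>
    intro i j him hji hi hj hk
    let S := univ.filter (fun q : Fin (N + 1) => q < i ∧ e w q ≠ 0 ∧ kap w q = kap w i)
    have hS : S.Nonempty := ⟨j, mem_filter.mpr ⟨mem_univ _, hji, hj, hk⟩⟩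
    obtain ⟨p, hp⟩ : ∃ p, p = S.max' hS := ⟨_, rfl⟩
    have hpS : p ∈ S := by rw [hp]; exact S.max'_mem hS
    rw [mem_filter] at hpS
    obtain ⟨-, hpi, hpe, hpk⟩ := hpS
    have hmax : ∀ q : Fin (N + 1), p < q → q < i → e w q ≠ 0 → kap w q ≠ kap w i := by
      intro q h1 h2 h3 h4
      have := S.le_max' q (mem_filter.mpr ⟨mem_univ _, h2, h3, h4⟩)
      rw [← hp] at this
      exact absurd h1 (not_lt.mpr this)
    have hτp := tau_eq τ hτ hpi hi hpe hpk hmax
    have hφ : (τ⁻¹ * finRotate (N + 1)) i = p := by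
      rw [Perm.mul_apply, Perm.inv_eq_iff_eq, finRotate_succ_apply, hτp]
    have hip : (τ⁻¹ * finRotate (N + 1)).SameCycle i p := by
      rw [← hφ]
      exact Perm.sameCycle_apply_right.mpr (Perm.SameCycle.refl _ _)
    have hjp : j ≤ p := by
      rw [hp]
      exact S.le_max' j (mem_filter.mpr ⟨mem_univ _, hji, hj, hk⟩)
    rcases hjp.eq_or_lt with h | h
    · rw [h]
      exact hip
    · refine hip.trans (ih p ?_ p j rfl h hpe hj (by rw [hk, hpk]))
      rw [← him]
      exact hpi

theorem sameCycle_of_kap' (τ : Perm (Fin (N + 1))) (hτ : IsBlockPerm (Setoid.ker w) τ)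
    (i j : Fin (N + 1)) (hi : e w i ≠ 0) (hj : e w j ≠ 0) (hk : kap w j = kap w i) :
    (τ⁻¹ * finRotate (N + 1)).SameCycle i j := by
  rcases lt_trichotomy i j with h | h | h
  · exact (sameCycle_of_kap τ hτ _ j i rfl h hj hi hk.symm).symm
  · rw [h]
  · exact sameCycle_of_kap τ hτ _ i j rfl h hi hj hk

/-- The number of boundaries. -/
def ell (w : Fin (N + 1) → ZMod 3) : ℕ := (univ.filter (fun i : Fin (N + 1) => w (i + 1) ≠ w i)).card

theorem e_ne_iff (i : Fin (N + 1)) : e w i ≠ 0 ↔ w (i + 1) ≠ w i := by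
  unfold e
  rw [W_succ, W_val, sub_ne_zero]

/-- The number of nontrivial cycles is `1` or `2`. -/
theorem cycles_le (τ : Perm (Fin (N + 1))) (hτ : IsBlockPerm (Setoid.ker w) τ) :
    (τ⁻¹ * finRotate (N + 1)).cycleFactorsFinset.card ≤ 2 := by
  classical
  set φ := τ⁻¹ * finRotate (N + 1) with hφ
  have hex : ∀ c : Perm (Fin (N + 1)), ∃ x, c ∈ φ.cycleFactorsFinset → x ∈ c.support := by
    intro c
    by_cases hc : c ∈ φ.cycleFactorsFinset
    · rw [Perm.mem_cycleFactorsFinset_iff] at hc
      obtain ⟨x, hx, -⟩ := hc.1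
      exact ⟨x, fun _ => Perm.mem_support.mpr hx⟩
    · exact ⟨0, fun h => absurd h hc⟩
  choose x hx using hex
  have hne : ∀ c ∈ φ.cycleFactorsFinset, e w (x c) ≠ 0 := by
    intro c hc h0
    have h1 := (fixed_iff τ hτ (x c)).mpr h0
    have h2 := hx c hc
    rw [Perm.mem_support] at h2
    rw [Perm.mem_cycleFactorsFinset_iff] at hc
    apply h2
    rw [hc.2 _ (Perm.mem_support.mpr h2)]
    exact h1
  have hcard : (({1, 2} : Finset (ZMod 3))).card = 2 := by decide
  rw [← hcard]
  apply Finset.card_le_card_of_injOn (fun c => kap w (x c))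
  · intro c hc
    have h1 := kap_ne w (hne c hc)
    have : ∀ a : ZMod 3, a ≠ 0 → a ∈ ({1, 2} : Finset (ZMod 3)) := by decide
    exact this _ h1
  · intro c hc d hd hcd
    have h1 := sameCycle_of_kap' τ hτ (x c) (x d) (hne c hc) (hne d hd) hcd.symm
    rw [Perm.cycle_is_cycleOf (hx c hc) hc, Perm.cycle_is_cycleOf (hx d hd) hd]
    exact h1.cycleOf_eq

theorem cycles_pos (τ : Perm (Fin (N + 1))) (hτ : IsBlockPerm (Setoid.ker w) τ)
    (hℓ : 0 < ell w) : 0 < (τ⁻¹ * finRotate (N + 1)).cycleFactorsFinset.card := by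
  classical
  obtain ⟨i, hi⟩ := Finset.card_pos.mp hℓ
  rw [mem_filter, ← e_ne_iff] at hi
  apply Finset.card_pos.mpr
  refine ⟨(τ⁻¹ * finRotate (N + 1)).cycleOf i, ?_⟩
  rw [Perm.cycleOf_mem_cycleFactorsFinset_iff, Perm.mem_support]
  intro h
  exact hi.2 ((fixed_iff τ hτ i).mp h)

theorem fixed_card (τ : Perm (Fin (N + 1))) (hτ : IsBlockPerm (Setoid.ker w) τ) :
    {x | (τ⁻¹ * finRotate (N + 1)) x = x}.ncard + ell w = N + 1 := by
  classical
  have h1 : {x | (τ⁻¹ * finRotate (N + 1)) x = x}.ncard =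
      (univ.filter (fun i : Fin (N + 1) => ¬ w (i + 1) ≠ w i)).card := by
    rw [← Set.ncard_coe_finset]
    congr 1
    ext i
    rw [Set.mem_setOf_eq, fixed_iff τ hτ, mem_coe, mem_filter, ← e_ne_iff]
    simp
  rw [h1]
  unfold ell
  have := Finset.card_filter_add_card_filter_not (s := (univ : Finset (Fin (N + 1))))
    (fun i => w (i + 1) ≠ w i)
  rw [card_univ, Fintype.card_fin] at this
  omega

/-- The number of cycles of `τ⁻¹ σ` for a word using all three letters. -/
theorem numCycles_word (τ : Perm (Fin (N + 1))) (hτ : IsBlockPerm (Setoid.ker w) τ)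
    (hsurj : Function.Surjective w) (hℓ : 0 < ell w) :
    numCycles (τ⁻¹ * finRotate (N + 1)) + ell w = N + 1 + (if Even (ell w) then 2 else 1) := by
  classical
  have h3 : numCycles τ = 3 := by
    rw [numCycles_blockPerm _ τ hτ]
    rw [Nat.card_congr (Setoid.quotientKerEquivOfSurjective w hsurj)]
    simp
  have hs1 := sign_eq (τ⁻¹ * finRotate (N + 1))
  have hs2 := sign_eq τ
  rw [h3] at hs2
  rw [map_mul, map_inv, hs2, sign_finRotate, Fintype.card_fin] at hs1
  have hpar : Even (numCycles (τ⁻¹ * finRotate (N + 1)) + (N + 1)) := by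
    have h4 : ((-1 : ℤˣ) ^ (N + 1 + 3))⁻¹ * (-1) ^ (N + 1 - 1) = 1 := by
      have e1 : N + 1 - 1 = N := by omega
      rw [e1]
      have e2 : ((-1 : ℤˣ) ^ (N + 1 + 3)) = (-1) ^ N := by
        have : N + 1 + 3 = N + 2 * 2 := by ring
        rw [this, pow_add, pow_mul]
        simp
      rw [e2]
      simp
    rw [h4] at hs1
    by_contra hodd
    rw [Nat.not_even_iff_odd, add_comm] at hodd
    rw [hodd.neg_one_pow] at hs1
    exact absurd hs1 (by decide)
  have hn := numCycles_eq (τ⁻¹ * finRotate (N + 1))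
  have hf := fixed_card τ hτ
  have hle := cycles_le τ hτ
  have hpos := cycles_pos τ hτ hℓ
  rw [Nat.even_iff] at hpar
  split_ifs with hev
  · rw [Nat.even_iff] at hev
    omega
  · rw [Nat.even_iff] at hev
    omega

end Words

end Q165.Genus3
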