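import Pool.Agent.Q165.Genus3
import Pool.Agent.Q165.CycWords

set_option autoImplicit false

/-!
# Counting partitions of a cycle into three blocks by boundaries
-/

namespace Q165.Genus3

open Equiv Finset Q165.Cyc Q165.CycWords

theorem ell_eq_bd {N : ℕ} (w : Fin (N + 1) → ZMod 3) : ell w = bd w := rfl

/-- If there is no boundary the word is constant. -/
theorem const_of_bd {N : ℕ} {α : Type*} [DecidableEq α] (w : Fin (N + 1) → α) (h : bd w = 0) :
    ∀ i, w i = w 0 := by
  unfold bd at h
  rw [Finset.card_eq_zero, Finset.filter_eq_empty_iff] at h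
  have h1 : ∀ i : Fin (N + 1), w (i + 1) = w i := by
    intro i
    have := h (mem_univ i)
    push Not at this
    exact this
  intro i
  induction i using Fin.induction with
  | zero => rfl
  | succ i ih =>
    rw [← Fin.coeSucc_eq_succ, h1, ih]

/-- The number of `i` such that `i` and `i + 1` are in different classes. -/
noncomputable def bdS {N : ℕ} (r : Setoid (Fin (N + 1))) : ℕ :=
  Nat.card {i : Fin (N + 1) // ¬ r (i + 1) i}

theorem bdS_ker {N : ℕ} {α : Type*} [DecidableEq α] (w : Fin (N + 1) → α) :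
    bdS (Setoid.ker w) = bd w := by
  unfold bdS bd
  rw [Nat.card_eq_fintype_card, Fintype.card_subtype]
  rfl

/-- `r` has genus `g`. -/
def HasGenus {n : ℕ} (r : Setoid (Fin n)) (g : ℕ) : Prop :=
  ∃ τ : Perm (Fin n), IsBlockPerm r τ ∧
    Nat.card (Quotient r) + numCycles (τ⁻¹ * finRotate n) + 2 * g = n + 1

theorem exists_word {N : ℕ} (r : Setoid (Fin (N + 1))) (h3 : Nat.card (Quotient r) = 3) :
    ∃ w : Fin (N + 1) → ZMod 3, Function.Surjective w ∧ Setoid.ker w = r := by
  classical
  have h4 : Fintype.card (Quotient r) = Fintype.card (ZMod 3) := by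
    rw [← Nat.card_eq_fintype_card, h3]
    rfl
  obtain ⟨φ⟩ := Fintype.card_eq.mp h4
  refine ⟨fun i => φ (Quotient.mk r i), ?_, ?_⟩
  · intro c
    obtain ⟨i, hi⟩ := Quotient.exists_rep (φ.symm c)
    refine ⟨i, ?_⟩
    show φ (Quotient.mk r i) = c
    have : Quotient.mk r i = φ.symm c := hi
    rw [this, Equiv.apply_symm_apply]
  · ext a b
    rw [Setoid.ker_def]
    constructor
    · intro h
      exact Quotient.exact (φ.injective h)
    · intro h
      exact congrArg φ (Quotient.sound h)

theorem hasGenus_iff {N : ℕ} (r : Setoid (Fin (N + 1))) (h3 : Nat.card (Quotient r) = 3) (g : ℕ) :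
    HasGenus r g ↔ bdS r = 2 * g + 3 ∨ bdS r = 2 * g + 4 := by
  classical
  obtain ⟨w, hw, rfl⟩ := exists_word r h3
  have hpos : 0 < ell w := by
    rw [ell_eq_bd]
    rcases Nat.eq_zero_or_pos (bd w) with h0 | h0
    · exfalso
      have := const_of_bd w h0
      obtain ⟨i, hi⟩ := hw (w 0 + 1)
      rw [this i] at hi
      have h5 : ∀ a : ZMod 3, a ≠ a + 1 := by decide
      exact h5 _ hi
    · exact h0
  have key : ∀ τ, IsBlockPerm (Setoid.ker w) τ →
      numCycles (τ⁻¹ * finRotate (N + 1)) + ell w = N + 1 + (if Even (ell w) then 2 else 1) :=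
    fun τ hτ => numCycles_word τ hτ hw hpos
  rw [bdS_ker, ← ell_eq_bd]
  constructor
  · rintro ⟨τ, hτ, h⟩
    have h1 := key τ hτ
    rw [h3] at h
    split_ifs at h1 with he
    · right
      omega
    · left
      omega
  · intro h
    obtain ⟨τ, hτ⟩ := exists_blockPerm (Setoid.ker w)
    refine ⟨τ, hτ, ?_⟩
    have h1 := key τ hτ
    rw [h3]
    rcases h with h | h
    · have he : ¬ Even (ell w) := by
        rw [h, Nat.not_even_iff_odd]
        exact ⟨g + 1, by ring⟩
      rw [if_neg he] at h1
      omega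
    · have he : Even (ell w) := by
        rw [h]
        exact ⟨g + 2, by ring⟩
      rw [if_pos he] at h1
      omega

/-- Words with kernel `r`. -/
theorem card_ker {N : ℕ} (r : Setoid (Fin (N + 1))) (h3 : Nat.card (Quotient r) = 3) :
    Nat.card {w : Fin (N + 1) → ZMod 3 // Setoid.ker w = r} = 6 := by
  classical
  have e : {w : Fin (N + 1) → ZMod 3 // Setoid.ker w = r} ≃ (Quotient r ↪ ZMod 3) :=
    { toFun := fun w => ⟨fun q => Quotient.lift w.1 (fun a b hab => by
        have h1 : r a b := hab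
        rw [← w.2] at h1
        exact h1) q, by
          intro p q
          induction p using Quotient.inductionOn with
          | h a =>
            induction q using Quotient.inductionOn with
            | h b =>
              intro h
              apply Quotient.sound
              show r a b
              rw [← w.2]
              exact h⟩
      invFun := fun f => ⟨fun i => f (Quotient.mk r i), by
        ext a b
        rw [Setoid.ker_def]
        constructor
        · intro h
          exact Quotient.exact (f.injective h)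
        · intro h
          exact congrArg f (Quotient.sound h)⟩
      left_inv := fun w => rfl
      right_inv := fun f => by
        ext q
        induction q using Quotient.inductionOn with
        | h a => rfl }
  rw [Nat.card_congr e, Nat.card_eq_fintype_card, Fintype.card_embedding_eq, ZMod.card,
    ← Nat.card_eq_fintype_card, h3]
  rfl

instance finiteSetoid (n : ℕ) : Finite (Setoid (Fin n)) := by
  apply Finite.of_injective (fun r : Setoid (Fin n) => fun a b => r a b)
  intro r s h
  ext a b
  exact iff_of_eq (congrFun (congrFun h a) b)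

/-- The number of partitions into three blocks with `m` boundaries. -/
noncomputable def U (N m : ℕ) : ℕ :=
  Nat.card {r : Setoid (Fin (N + 1)) // Nat.card (Quotient r) = 3 ∧ bdS r = m}

/-- The number of words using all letters with `m` boundaries. -/
def T (N m : ℕ) : ℕ :=
  (univ.filter (fun w : Fin (N + 1) → ZMod 3 => Function.Surjective w ∧ bd w = m)).card

theorem T_eq_U (N m : ℕ) : T N m = 6 * U N m := by
  classical
  haveI : Fintype {r : Setoid (Fin (N + 1)) // Nat.card (Quotient r) = 3 ∧ bdS r = m} :=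
    Fintype.ofFinite _
  have e : {w : Fin (N + 1) → ZMod 3 // Function.Surjective w ∧ bd w = m} ≃
      Σ r : {r : Setoid (Fin (N + 1)) // Nat.card (Quotient r) = 3 ∧ bdS r = m},
        {w : Fin (N + 1) → ZMod 3 // Setoid.ker w = r.1} :=
    { toFun := fun w => ⟨⟨Setoid.ker w.1, by
        refine ⟨?_, ?_⟩
        · rw [Nat.card_congr (Setoid.quotientKerEquivOfSurjective w.1 w.2.1)]
          simp
        · rw [bdS_ker, w.2.2]⟩, ⟨w.1, rfl⟩⟩
      invFun := fun x => ⟨x.2.1, by
        obtain ⟨⟨r, h3, hm⟩, w, hw⟩ := x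
        dsimp only at hw
        subst hw
        refine ⟨?_, ?_⟩
        · have h4 : Nat.card (Set.range w) = 3 :=
            (Nat.card_congr (Setoid.quotientKerEquivRange w)).symm.trans h3
          have h5 : Set.range w = Set.univ := by
            apply Set.eq_of_subset_of_ncard_le (Set.subset_univ _)
            rw [Set.ncard_univ, ← Nat.card_coe_set_eq, h4]
            simp
          exact Set.range_eq_univ.mp h5
        · show bd w = m
          rw [← bdS_ker, hm]⟩
      left_inv := fun w => rfl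
      right_inv := fun x => by
        obtain ⟨⟨r, h3, hm⟩, w, hw⟩ := x
        dsimp only at hw
        subst hw
        rfl }
  have h1 : T N m = Nat.card {w : Fin (N + 1) → ZMod 3 // Function.Surjective w ∧ bd w = m} := by
    rw [Nat.card_eq_fintype_card, Fintype.card_subtype]
    rfl
  rw [h1, Nat.card_congr e, Nat.card_sigma]
  rw [Finset.sum_congr rfl (fun r _ => card_ker r.1 r.2.1)]
  rw [Finset.sum_const, card_univ, smul_eq_mul, mul_comm]
  unfold U
  rw [Nat.card_eq_fintype_card]

theorem card_avoid (N m : ℕ) (c : ZMod 3) :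
    (((univ.filter (fun w : Fin (N + 1) → ZMod 3 => (∀ i, w i ≠ c) ∧ bd w = m)).card : ℕ) : ℤ) =
      ((N + 1).choose m : ℤ) * (1 + (-1) ^ m) := by
  classical
  have hc : Fintype.card {x : ZMod 3 // x ≠ c} = 2 := by
    rw [Fintype.card_subtype_compl, ZMod.card, Fintype.card_unique]
  haveI : Nonempty {x : ZMod 3 // x ≠ c} := by
    rw [← Fintype.card_pos_iff, hc]
    norm_num
  have h := card_bd_eq (α := {x : ZMod 3 // x ≠ c}) N m
  rw [hc] at h
  have h1 : (((2 : ℕ) : ℤ) - 1) ^ m + (((2 : ℕ) : ℤ) - 1) * (-1) ^ m = 1 + (-1) ^ m := by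
    norm_num
  rw [h1] at h
  rw [← h]
  congr 1
  symm
  apply Finset.card_bij (fun v _ => fun i => (v i).1)
  · intro v hv
    rw [mem_filter] at hv ⊢
    refine ⟨mem_univ _, fun i => (v i).2, ?_⟩
    rw [← hv.2]
    unfold bd
    congr 1
    ext i
    simp only [mem_filter, mem_univ, true_and, ne_eq]
    exact not_congr Subtype.ext_iff.symm
  · intro v _ v' _ h
    funext i
    exact Subtype.ext (congrFun h i)
  · intro w hw
    rw [mem_filter] at hw
    refine ⟨fun i => ⟨w i, hw.2.1 i⟩, ?_, rfl⟩
    rw [mem_filter]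
    refine ⟨mem_univ _, Eq.trans ?_ hw.2.2⟩
    unfold bd
    congr 1
    ext i
    simp only [mem_filter, mem_univ, true_and, ne_eq]
    exact not_congr Subtype.ext_iff

theorem T_closed (N m : ℕ) (hm : 0 < m) :
    (T N m : ℤ) = ((N + 1).choose m : ℤ) * (2 ^ m - 3 - (-1) ^ m) := by
  classical
  have hall := card_bd_eq (α := ZMod 3) N m
  rw [ZMod.card] at hall
  have hdec : univ.filter (fun w : Fin (N + 1) → ZMod 3 => bd w = m) =
      univ.filter (fun w : Fin (N + 1) → ZMod 3 => Function.Surjective w ∧ bd w = m) ∪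
        (univ : Finset (ZMod 3)).biUnion
          (fun c => univ.filter (fun w : Fin (N + 1) → ZMod 3 => (∀ i, w i ≠ c) ∧ bd w = m)) := by
    ext w
    simp only [mem_filter, mem_univ, true_and, mem_union, mem_biUnion]
    constructor
    · intro h
      by_cases hs : Function.Surjective w
      · exact Or.inl ⟨hs, h⟩
      · right
        unfold Function.Surjective at hs
        push Not at hs
        obtain ⟨c, hc⟩ := hs
        exact ⟨c, hc, h⟩
    · rintro (⟨-, h⟩ | ⟨c, -, h⟩)
      · exact h
      · exact h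
  have hdisj : Disjoint
      (univ.filter (fun w : Fin (N + 1) → ZMod 3 => Function.Surjective w ∧ bd w = m))
        ((univ : Finset (ZMod 3)).biUnion
          (fun c => univ.filter (fun w : Fin (N + 1) → ZMod 3 => (∀ i, w i ≠ c) ∧ bd w = m))) := by
    rw [Finset.disjoint_left]
    intro w hw hw'
    simp only [mem_filter, mem_univ, true_and, mem_biUnion] at hw hw'
    obtain ⟨c, hc, -⟩ := hw'
    obtain ⟨i, hi⟩ := hw.1 c
    exact hc i hi
  have hpd : ((univ : Finset (ZMod 3)) : Set (ZMod 3)).PairwiseDisjoint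
      (fun c => univ.filter (fun w : Fin (N + 1) → ZMod 3 => (∀ i, w i ≠ c) ∧ bd w = m)) := by
    intro c _ d _ hcd
    rw [Function.onFun, Finset.disjoint_left]
    intro w hw hw'
    simp only [mem_filter, mem_univ, true_and] at hw hw'
    -- the word avoids two letters, so it is constant
    have h1 : ∀ x y c d : ZMod 3, c ≠ d → x ≠ c → x ≠ d → y ≠ c → y ≠ d → x = y := by decide
    have h2 : bd w = 0 := by
      unfold bd
      rw [Finset.card_eq_zero, Finset.filter_eq_empty_iff]
      intro i _
      push Not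
      exact h1 _ _ c d hcd (hw.1 _) (hw'.1 _) (hw.1 _) (hw'.1 _)
    rw [hw.2] at h2
    omega
  rw [hdec, Finset.card_union_of_disjoint hdisj, Finset.card_biUnion hpd] at hall
  push_cast at hall
  rw [Finset.sum_congr rfl (fun c _ => card_avoid N m c), Finset.sum_const, card_univ,
    ZMod.card] at hall
  unfold T
  simp only [nsmul_eq_mul] at hall
  push_cast at hall
  linarith

/-- The number of genus `g` partitions of `Fin n` into three blocks. -/
noncomputable def S (n g : ℕ) : ℕ :=
  Nat.card {r : Setoid (Fin n) // Nat.card (Quotient r) = 3 ∧ HasGenus r g}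

theorem S_eq (N g : ℕ) : S (N + 1) g = U N (2 * g + 3) + U N (2 * g + 4) := by
  have h1 : S (N + 1) g =
      {r : Setoid (Fin (N + 1)) | Nat.card (Quotient r) = 3 ∧ HasGenus r g}.ncard := rfl
  have h2 : ∀ m, U N m =
      {r : Setoid (Fin (N + 1)) | Nat.card (Quotient r) = 3 ∧ bdS r = m}.ncard := fun m => rfl
  rw [h1, h2, h2, ← Set.ncard_union_eq]
  · congr 1
    ext r
    constructor
    · rintro ⟨h3, h4⟩
      rcases (hasGenus_iff r h3 g).mp h4 with h4 | h4
      · exact Or.inl ⟨h3, h4⟩
      · exact Or.inr ⟨h3, h4⟩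
    · rintro (⟨h3, h4⟩ | ⟨h3, h4⟩)
      · exact ⟨h3, (hasGenus_iff r h3 g).mpr (Or.inl h4)⟩
      · exact ⟨h3, (hasGenus_iff r h3 g).mpr (Or.inr h4)⟩
  · rw [Set.disjoint_left]
    rintro r ⟨-, h3⟩ ⟨-, h4⟩
    omega

theorem S_closed (n g : ℕ) (hn : 1 ≤ n) :
    (S n g : ℚ) = (4 ^ (g + 1) - 1) * ((n : ℚ) - g - 1) / (3 * (g + 2)) *
      (n.choose (2 * g + 3) : ℚ) := by
  obtain ⟨N, rfl⟩ : ∃ N, n = N + 1 := ⟨n - 1, by omega⟩
  have h1 := T_closed N (2 * g + 3) (by omega)
  have h2 := T_closed N (2 * g + 4) (by omega)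
  rw [T_eq_U] at h1 h2
  have p1 : (-1 : ℤ) ^ (2 * g + 3) = -1 := Odd.neg_one_pow ⟨g + 1, by ring⟩
  have p2 : (-1 : ℤ) ^ (2 * g + 4) = 1 := Even.neg_one_pow ⟨g + 2, by ring⟩
  rw [p1] at h1
  rw [p2] at h2
  have q1 : (2 : ℤ) ^ (2 * g + 3) = 2 * 4 ^ (g + 1) := by
    have : (4 : ℤ) = 2 ^ 2 := by norm_num
    rw [this, ← pow_mul]
    ring
  have q2 : (2 : ℤ) ^ (2 * g + 4) = 4 * 4 ^ (g + 1) := by
    have : (4 : ℤ) = 2 ^ 2 := by norm_num
    rw [this, ← pow_mul]
    ring
  rw [q1] at h1
  rw [q2] at h2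
  have r1 : (6 : ℚ) * U N (2 * g + 3) = ((N + 1).choose (2 * g + 3) : ℚ) * (2 * 4 ^ (g + 1) - 3 - -1) := by
    exact_mod_cast h1
  have r2 : (6 : ℚ) * U N (2 * g + 4) = ((N + 1).choose (2 * g + 4) : ℚ) * (4 * 4 ^ (g + 1) - 3 - 1) := by
    exact_mod_cast h2
  have r3 : ((N + 1).choose (2 * g + 4) : ℚ) * (2 * g + 4) =
      ((N + 1).choose (2 * g + 3) : ℚ) * ((N : ℚ) + 1 - (2 * g + 3)) := by
    rcases Nat.lt_or_ge (N + 1) (2 * g + 3) with h | h
    · rw [Nat.choose_eq_zero_of_lt h, Nat.choose_eq_zero_of_lt (by omega)]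
      simp
    · have := Nat.choose_succ_right_eq (N + 1) (2 * g + 3)
      have h' : (((N + 1).choose (2 * g + 3 + 1) * (2 * g + 3 + 1) : ℕ) : ℚ) =
          (((N + 1).choose (2 * g + 3) * (N + 1 - (2 * g + 3)) : ℕ) : ℚ) := by
        rw [this]
      rw [Nat.cast_mul, Nat.cast_mul, Nat.cast_sub h] at h'
      push_cast at h'
      have e1 : 2 * g + 3 + 1 = 2 * g + 4 := by ring
      rw [e1] at h'
      linear_combination h'
  have hg : (0 : ℚ) < (g : ℚ) + 2 := by positivity
  rw [S_eq]
  push_cast
  have hne : (3 : ℚ) * ((g : ℚ) + 2) ≠ 0 := by positivity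
  rw [div_mul_eq_mul_div, eq_div_iff hne]
  linear_combination ((g : ℚ) + 2) / 2 * r1 + ((g : ℚ) + 2) / 2 * r2 + (4 ^ (g + 1) - 1) * r3

end Q165.Genus3
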