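import Mathlib

set_option autoImplicit false

/-!
# Homogeneous latin squares: definitions
-/

namespace Q165.HomLS

/-- `L` is a latin square of order `n` (symbols `Fin n`): every symbol occurs exactly once in
every row and exactly once in every column. -/
def IsLatin {n : ℕ} (L : Fin n → Fin n → Fin n) : Prop :=
  (∀ r, Function.Bijective (L r)) ∧ (∀ c, Function.Bijective fun r => L r c)

/-- The latin squares `L` and `M` are orthogonal: the `n ^ 2` ordered pairs are distinct. -/
def Orthogonal {n : ℕ} (L M : Fin n → Fin n → Fin n) : Prop :=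
  Function.Injective fun p : Fin n × Fin n => (L p.1 p.2, M p.1 p.2)

/-- Rows `r ≠ r'` and columns `c ≠ c'` form a `2 × 2` latin subsquare of `L`. -/
def IsIntercalate {n : ℕ} (L : Fin n → Fin n → Fin n) (r r' c c' : Fin n) : Prop :=
  r ≠ r' ∧ c ≠ c' ∧ L r c = L r' c' ∧ L r c' = L r' c

/-- The intercalates of `L`, each given as its set of four cells. -/
def intercalates {n : ℕ} (L : Fin n → Fin n → Fin n) : Set (Finset (Fin n × Fin n)) :=
  {S | ∃ r r' c c', IsIntercalate L r r' c c' ∧ S = {(r, c), (r, c'), (r', c), (r', c')}}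

/-- Every cell of `L` lies in exactly `h` intercalates. -/
def IsHomogeneous {n : ℕ} (L : Fin n → Fin n → Fin n) (h : ℕ) : Prop :=
  ∀ cell : Fin n × Fin n, {S | S ∈ intercalates L ∧ cell ∈ S}.ncard = h

/-- The set `H` of all `h` for which there are two orthogonal latin squares of some order `n ≥ 1`
that are both `h`-homogeneous. -/
def pairSet : Set ℕ :=
  {h | ∃ (n : ℕ) (L M : Fin n → Fin n → Fin n), 1 ≤ n ∧ IsLatin L ∧ IsLatin M ∧
    Orthogonal L M ∧ IsHomogeneous L h ∧ IsHomogeneous M h}

end Q165.HomLS
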