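import Mathlib
import Pool.Agent.Q165.HomDef

set_option autoImplicit false

namespace Q165.HomLS

/-- All pairs completing the cell to an intercalate, with the trivial pair added. -/
noncomputable def ecount {A : Type} (L : A → A → A) (r c : A) : ℕ :=
  Nat.card {p : A × A // L r c = L p.1 p.2 ∧ L r p.2 = L p.1 c}

def LatinT {A : Type} (L : A → A → A) : Prop :=
  (∀ r, Function.Bijective (L r)) ∧ (∀ c, Function.Bijective fun r => L r c)

def OrthT {A : Type} (L M : A → A → A) : Prop :=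
  Function.Injective fun p : A × A => (L p.1 p.2, M p.1 p.2)

/-- A pair of orthogonal `h`-homogeneous squares on the type `A`. -/
def HasPair (A : Type) (h : ℕ) : Prop :=
  ∃ L M : A → A → A, LatinT L ∧ LatinT M ∧ OrthT L M ∧ (∀ r c, ecount L r c = h + 1) ∧
    (∀ r c, ecount M r c = h + 1)

/-! ### From cells sets to pairs -/

lemma ncard_intercalates {n : ℕ} (L : Fin n → Fin n → Fin n) (r c : Fin n) :
    {S | S ∈ intercalates L ∧ (r, c) ∈ S}.ncard =
      {p : Fin n × Fin n | IsIntercalate L r p.1 c p.2}.ncard := by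
  symm
  apply Set.ncard_congr
    (fun (p : Fin n × Fin n) _ => ({(r, c), (r, p.2), (p.1, c), (p.1, p.2)} : Finset (Fin n × Fin n)))
  · intro p hp
    refine ⟨⟨r, p.1, c, p.2, hp, rfl⟩, ?_⟩
    simp
  · intro p q hp hq h
    obtain ⟨h1, h2, -, -⟩ := hp
    have hmem : (p.1, p.2) ∈ ({(r, c), (r, q.2), (q.1, c), (q.1, q.2)} : Finset (Fin n × Fin n)) := by
      rw [← h]; simp
    simp only [Finset.mem_insert, Finset.mem_singleton, Prod.mk.injEq] at hmem
    rcases hmem with ⟨e1, -⟩ | ⟨e1, -⟩ | ⟨-, e2⟩ | ⟨e1, e2⟩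
    · exact absurd e1.symm h1
    · exact absurd e1.symm h1
    · exact absurd e2.symm h2
    · exact Prod.ext e1 e2
  · rintro S ⟨⟨r1, r2, c1, c2, ⟨h1, h2, h3, h4⟩, rfl⟩, hmem⟩
    simp only [Finset.mem_insert, Finset.mem_singleton, Prod.mk.injEq] at hmem
    rcases hmem with ⟨rfl, rfl⟩ | ⟨rfl, rfl⟩ | ⟨rfl, rfl⟩ | ⟨rfl, rfl⟩
    · exact ⟨(r2, c2), ⟨h1, h2, h3, h4⟩, rfl⟩
    · refine ⟨(r2, c1), ⟨h1, h2.symm, h4, h3⟩, ?_⟩
      ext x; simp only [Finset.mem_insert, Finset.mem_singleton]; tauto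
    · refine ⟨(r1, c2), ⟨h1.symm, h2, h4.symm, h3.symm⟩, ?_⟩
      ext x; simp only [Finset.mem_insert, Finset.mem_singleton]; tauto
    · refine ⟨(r1, c1), ⟨h1.symm, h2.symm, h3.symm, h4.symm⟩, ?_⟩
      ext x; simp only [Finset.mem_insert, Finset.mem_singleton]; tauto

lemma homogeneous_of_ecount {n : ℕ} {L : Fin n → Fin n → Fin n} (hL : IsLatin L) {h : ℕ}
    (he : ∀ r c, ecount L r c = h + 1) : IsHomogeneous L h := by
  rintro ⟨r, c⟩
  rw [ncard_intercalates]
  have h1 : {p : Fin n × Fin n | L r c = L p.1 p.2 ∧ L r p.2 = L p.1 c} =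
      insert (r, c) {p : Fin n × Fin n | IsIntercalate L r p.1 c p.2} := by
    ext ⟨r', c'⟩
    simp only [Set.mem_ofPred_eq, Set.mem_insert_iff, Prod.mk.injEq, IsIntercalate]
    constructor
    · rintro ⟨a, b⟩
      by_cases hr : r = r'
      · subst hr
        exact Or.inl ⟨rfl, ((hL.1 r).1 a).symm⟩
      · by_cases hc : c = c'
        · subst hc
          exact Or.inl ⟨((hL.2 c).1 a).symm, rfl⟩
        · exact Or.inr ⟨hr, hc, a, b⟩
    · rintro (⟨rfl, rfl⟩ | ⟨-, -, a, b⟩)
      · exact ⟨rfl, rfl⟩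
      · exact ⟨a, b⟩
  have h2 := he r c
  unfold ecount at h2
  have h3 : Nat.card {p : Fin n × Fin n // L r c = L p.1 p.2 ∧ L r p.2 = L p.1 c} =
      {p : Fin n × Fin n | L r c = L p.1 p.2 ∧ L r p.2 = L p.1 c}.ncard := rfl
  rw [h3, h1, Set.ncard_insert_of_notMem (by simp [IsIntercalate]) (Set.toFinite _)] at h2
  omega

lemma mem_of_hasPair {A : Type} [Fintype A] [Nonempty A] {h : ℕ} (hA : HasPair A h) :
    h ∈ pairSet := by
  obtain ⟨L, M, hL, hM, hO, heL, heM⟩ := hA
  let e := Fintype.equivFin A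
  have latin : ∀ N : A → A → A, LatinT N → IsLatin (fun i j => e (N (e.symm i) (e.symm j))) := by
    intro N hN
    constructor
    · intro r
      exact e.bijective.comp ((hN.1 _).comp e.symm.bijective)
    · intro c
      exact e.bijective.comp ((hN.2 _).comp e.symm.bijective)
  have hcount : ∀ N : A → A → A, (∀ r c, ecount N r c = h + 1) →
      ∀ r c, ecount (fun i j => e (N (e.symm i) (e.symm j))) r c = h + 1 := by
    intro N hN r c
    rw [← hN (e.symm r) (e.symm c)]
    unfold ecount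
    refine Nat.card_congr ((e.symm.prodCongr e.symm).subtypeEquiv ?_)
    intro p
    simp [e.injective.eq_iff]
  refine ⟨Fintype.card A, _, _, Fintype.card_pos, latin L hL, latin M hM, ?_,
    homogeneous_of_ecount (latin L hL) (hcount L heL),
    homogeneous_of_ecount (latin M hM) (hcount M heM)⟩
  intro p q hpq
  simp only [Prod.mk.injEq, e.injective.eq_iff] at hpq
  have := @hO (e.symm p.1, e.symm p.2) (e.symm q.1, e.symm q.2) (Prod.ext hpq.1 hpq.2)
  simp only [Prod.mk.injEq, e.symm.injective.eq_iff] at this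
  exact Prod.ext this.1 this.2

/-! ### Products -/

lemma ecount_prod {A B : Type} (L : A → A → A) (M : B → B → B) (r c : A × B) :
    ecount (fun p q : A × B => (L p.1 q.1, M p.2 q.2)) r c =
      ecount L r.1 c.1 * ecount M r.2 c.2 := by
  unfold ecount
  rw [← Nat.card_prod]
  refine Nat.card_congr
    { toFun := fun p => (⟨(p.1.1.1, p.1.2.1), ?_⟩, ⟨(p.1.1.2, p.1.2.2), ?_⟩)
      invFun := fun p => ⟨((p.1.1.1, p.2.1.1), (p.1.1.2, p.2.1.2)), ?_⟩
      left_inv := fun p => rfl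
      right_inv := fun p => rfl }
  · have h1 := congrArg Prod.fst p.2.1
    have h2 := congrArg Prod.fst p.2.2
    exact ⟨h1, h2⟩
  · have h1 := congrArg Prod.snd p.2.1
    have h2 := congrArg Prod.snd p.2.2
    exact ⟨h1, h2⟩
  · exact ⟨Prod.ext p.1.2.1 p.2.2.1, Prod.ext p.1.2.2 p.2.2.2⟩

lemma latin_prod {A B : Type} {L : A → A → A} {M : B → B → B} (hL : LatinT L) (hM : LatinT M) :
    LatinT (fun p q : A × B => (L p.1 q.1, M p.2 q.2)) :=
  ⟨fun r => (hL.1 r.1).prodMap (hM.1 r.2), fun c => (hL.2 c.1).prodMap (hM.2 c.2)⟩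

lemma hasPair_prod {A B : Type} {h k : ℕ} (hA : HasPair A h) (hB : HasPair B k) :
    HasPair (A × B) ((h + 1) * (k + 1) - 1) := by
  obtain ⟨L, M, hL, hM, hO, heL, heM⟩ := hA
  obtain ⟨L', M', hL', hM', hO', heL', heM'⟩ := hB
  have hpos : (h + 1) * (k + 1) - 1 + 1 = (h + 1) * (k + 1) := by
    have : 0 < (h + 1) * (k + 1) := by positivity
    omega
  refine ⟨_, _, latin_prod hL hL', latin_prod hM hM', ?_, ?_, ?_⟩
  · intro p q hpq
    simp only [Prod.mk.injEq] at hpq
    obtain ⟨⟨a1, a2⟩, b1, b2⟩ := hpq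
    have e1 := @hO (p.1.1, p.2.1) (q.1.1, q.2.1) (Prod.ext a1 b1)
    have e2 := @hO' (p.1.2, p.2.2) (q.1.2, q.2.2) (Prod.ext a2 b2)
    simp only [Prod.mk.injEq] at e1 e2
    exact Prod.ext (Prod.ext e1.1 e2.1) (Prod.ext e1.2 e2.2)
  · intro r c
    rw [ecount_prod, heL, heL', hpos]
  · intro r c
    rw [ecount_prod, heM, heM', hpos]

/-! ### The basic construction -/

/-- The Klein four-group. -/
abbrev K := ZMod 2 × ZMod 2

/-- The square `(x, a), (y, b) ↦ (x + y, a + β_x b + γ_{x,y})` on `K × ZMod m`. -/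
def sq (m : ℕ) (bt : K → ℤ) (g : K → K → ℤ) (p q : K × ZMod m) : K × ZMod m :=
  (p.1 + q.1, p.2 + (bt p.1 : ZMod m) * q.2 + (g p.1 q.1 : ZMod m))

/-- The permutation of the columns that gives the orthogonal mate. -/
def perm (m : ℕ) (q : K × ZMod m) : K × ZMod m := ((q.1.2, q.1.1 + q.1.2), 2 * q.2)

lemma char_two (x : K) : x + x = 0 := by
  revert x; decide

lemma two_unit {m : ℕ} (hm : Odd m) : IsUnit (2 : ZMod m) := by
  have := (ZMod.unitOfCoprime 2 (Nat.coprime_two_left.mpr hm)).isUnit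
  simpa using this

lemma perm_injective {m : ℕ} (hm : Odd m) : Function.Injective (perm m) := by
  rintro ⟨⟨u, v⟩, b⟩ ⟨⟨u', v'⟩, b'⟩ h
  simp only [perm, Prod.mk.injEq] at h
  obtain ⟨⟨h1, h2⟩, h3⟩ := h
  subst h1
  have h4 : u = u' := add_right_cancel h2
  subst h4
  have h5 := (two_unit hm).mul_left_cancel h3
  subst h5
  rfl

lemma sq_latin {m : ℕ} [NeZero m] (bt : K → ℤ) (g : K → K → ℤ)
    (hu : ∀ x, IsUnit (bt x : ZMod m)) : LatinT (sq m bt g) := by
  constructor
  · rintro ⟨x, a⟩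
    apply Function.Injective.bijective_of_finite
    rintro ⟨y, b⟩ ⟨y', b'⟩ h
    simp only [sq, Prod.mk.injEq] at h
    obtain ⟨h1, h2⟩ := h
    have h3 := add_left_cancel h1
    subst h3
    have h4 := (hu x).mul_left_cancel (add_left_cancel (add_right_cancel h2))
    subst h4
    rfl
  · rintro ⟨y, b⟩
    apply Function.Injective.bijective_of_finite
    rintro ⟨x, a⟩ ⟨x', a'⟩ h
    simp only [sq, Prod.mk.injEq] at h
    obtain ⟨h1, h2⟩ := h
    have h3 := add_right_cancel h1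
    subst h3
    have h4 := add_right_cancel (add_right_cancel h2)
    subst h4
    rfl

lemma mate_latin {m : ℕ} [NeZero m] (hm : Odd m) (bt : K → ℤ) (g : K → K → ℤ)
    (hu : ∀ x, IsUnit (bt x : ZMod m)) : LatinT (fun p q => sq m bt g p (perm m q)) := by
  have h := sq_latin bt g hu
  constructor
  · intro r
    exact (h.1 r).comp (perm_injective hm).bijective_of_finite
  · intro c
    exact h.2 (perm m c)

lemma sq_orth {m : ℕ} [NeZero m] (bt : K → ℤ) (g : K → K → ℤ)
    (hu : ∀ x, IsUnit (bt x : ZMod m)) :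
    OrthT (sq m bt g) (fun p q => sq m bt g p (perm m q)) := by
  rintro ⟨⟨x, a⟩, ⟨⟨u, v⟩, b⟩⟩ ⟨⟨x', a'⟩, ⟨⟨u', v'⟩, b'⟩⟩ h
  simp only [sq, perm, Prod.mk.injEq] at h
  obtain ⟨⟨h1, h2⟩, h3, h4⟩ := h
  have key : ∀ x x' : K, ∀ u v u' v' : ZMod 2, x + (u, v) = x' + (u', v') →
      x + (v, u + v) = x' + (v', u' + v') → x = x' ∧ u = u' ∧ v = v' := by decide
  obtain ⟨e1, e2, e3⟩ := key x x' u v u' v' h1 h3
  subst e1; subst e2; subst e3
  have h5 : a + (bt x : ZMod m) * b = a' + (bt x : ZMod m) * b' := add_right_cancel h2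
  have h6 : a + (bt x : ZMod m) * (2 * b) = a' + (bt x : ZMod m) * (2 * b') := add_right_cancel h4
  have h7 : (bt x : ZMod m) * b = (bt x : ZMod m) * b' := by linear_combination h6 - h5
  have h8 := (hu x).mul_left_cancel h7
  subst h8
  have h9 := add_right_cancel h5
  subst h9
  rfl

/-- The number of lifts of the base intercalate in the direction `d`. -/
noncomputable def lifts (m : ℕ) (bt : K → ℤ) (g : K → K → ℤ) (x y d : K) (b : ZMod m) : ℕ :=
  Nat.card {b' : ZMod m // ((bt x + bt (x + d) : ℤ) : ZMod m) * (b' - b) =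
    ((g x y + g (x + d) y - g x (y + d) - g (x + d) (y + d) : ℤ) : ZMod m)}

lemma ecount_sq {m : ℕ} [NeZero m] (bt : K → ℤ) (g : K → K → ℤ) (x y : K) (a b : ZMod m) :
    ecount (sq m bt g) (x, a) (y, b) = ∑ d : K, lifts m bt g x y d b := by
  unfold ecount lifts
  rw [← Nat.card_sigma]
  have hK : ∀ x y x' y' : K, x + y = x' + y' → y' = y + (x + x') := by decide
  have hK2 : ∀ x x' : K, x + (x + x') = x' := by decide
  have hK3 : ∀ x y d : K, x + y = (x + d) + (y + d) := by decide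
  have hK4 : ∀ x y d : K, x + (y + d) = x + d + y := by decide
  have hK5 : ∀ x d : K, x + (x + d) = d := by decide
  refine Nat.card_congr
    { toFun := fun p => ⟨x + p.1.1.1, ⟨p.1.2.2, ?_⟩⟩
      invFun := fun s => ⟨((x + s.1, a + (bt x : ZMod m) * b + (g x y : ZMod m) -
        (bt (x + s.1) : ZMod m) * s.2.1 - (g (x + s.1) (y + s.1) : ZMod m)), (y + s.1, s.2.1)), ?_⟩
      left_inv := ?_
      right_inv := ?_ }
  · obtain ⟨⟨⟨x', a'⟩, ⟨y', b'⟩⟩, h1, h2⟩ := p
    simp only [sq, Prod.mk.injEq] at h1 h2 ⊢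
    obtain ⟨h1a, h1b⟩ := h1
    obtain ⟨h2a, h2b⟩ := h2
    have hy := hK x y x' y' h1a
    rw [hK2, ← hy]
    push_cast
    linear_combination h2b - h1b
  · obtain ⟨d, ⟨b', hb'⟩⟩ := s
    simp only [sq, Prod.mk.injEq]
    push_cast at hb'
    refine ⟨⟨hK3 x y d, ?_⟩, hK4 x y d, ?_⟩
    · ring
    · linear_combination hb'
  · rintro ⟨⟨⟨x', a'⟩, ⟨y', b'⟩⟩, h1, h2⟩
    simp only [sq, Prod.mk.injEq] at h1 h2
    obtain ⟨h1a, h1b⟩ := h1
    have hy := hK x y x' y' h1a
    apply Subtype.ext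
    simp only [Prod.mk.injEq]
    rw [hK2, ← hy]
    refine ⟨⟨rfl, ?_⟩, rfl, trivial⟩
    linear_combination h1b
  · rintro ⟨d, ⟨b', hb'⟩⟩
    have e := hK5 x d
    simp only
    apply Sigma.ext
    · exact e
    · simp only
      have : ∀ d' : K, d' = d → ∀ (h' : ((bt x + bt (x + d') : ℤ) : ZMod m) * (b' - b) =
          ((g x y + g (x + d') y - g x (y + d') - g (x + d') (y + d') : ℤ) : ZMod m)),
          HEq (⟨b', h'⟩ : {b' : ZMod m // ((bt x + bt (x + d') : ℤ) : ZMod m) * (b' - b) =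
          ((g x y + g (x + d') y - g x (y + d') - g (x + d') (y + d') : ℤ) : ZMod m)})
          (⟨b', hb'⟩ : {b' : ZMod m // ((bt x + bt (x + d) : ℤ) : ZMod m) * (b' - b) =
          ((g x y + g (x + d) y - g x (y + d) - g (x + d) (y + d) : ℤ) : ZMod m)}) := by
        intro d' hd' h'
        subst hd'
        rfl
      exact this _ e _

lemma ecount_mate {m : ℕ} [NeZero m] (hm : Odd m) (bt : K → ℤ) (g : K → K → ℤ)
    (r c : K × ZMod m) :
    ecount (fun p q => sq m bt g p (perm m q)) r c = ecount (sq m bt g) r (perm m c) := by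
  unfold ecount
  refine Nat.card_congr (((Equiv.refl _).prodCongr
    (Equiv.ofBijective _ (perm_injective hm).bijective_of_finite)).subtypeEquiv ?_)
  intro p
  rfl

lemma hasPair_sq {m : ℕ} [NeZero m] (hm : Odd m) (bt : K → ℤ) (g : K → K → ℤ)
    (hu : ∀ x, IsUnit (bt x : ZMod m)) {h : ℕ}
    (hc : ∀ x y b, ∑ d : K, lifts m bt g x y d b = h + 1) : HasPair (K × ZMod m) h := by
  refine ⟨_, _, sq_latin bt g hu, mate_latin hm bt g hu, sq_orth bt g hu, ?_, ?_⟩
  · rintro ⟨x, a⟩ ⟨y, b⟩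
    rw [ecount_sq, hc]
  · intro r c
    rw [ecount_mate hm]
    obtain ⟨x, a⟩ := r
    rw [show perm m c = ((perm m c).1, (perm m c).2) from rfl, ecount_sq, hc]

/-! ### Counting lifts -/

lemma lifts_unit {m : ℕ} {bt : K → ℤ} {g : K → K → ℤ} {x y d : K} {b : ZMod m}
    (h : IsUnit ((bt x + bt (x + d) : ℤ) : ZMod m)) : lifts m bt g x y d b = 1 := by
  unfold lifts
  obtain ⟨u, hu⟩ := h
  rw [Nat.card_eq_one_iff_unique]
  rw [← hu]
  constructor
  · constructor
    rintro ⟨b1, h1⟩ ⟨b2, h2⟩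
    apply Subtype.ext
    have h3 := u.isUnit.mul_left_cancel (h1.trans h2.symm)
    exact sub_left_injective h3
  · refine ⟨⟨b + (u⁻¹ : (ZMod m)ˣ) *
      ((g x y + g (x + d) y - g x (y + d) - g (x + d) (y + d) : ℤ) : ZMod m), ?_⟩⟩
    rw [add_sub_cancel_left, ← mul_assoc, Units.mul_inv, one_mul]

lemma lifts_all {m : ℕ} [NeZero m] {bt : K → ℤ} {g : K → K → ℤ} {x y d : K} {b : ZMod m}
    (h : bt x + bt (x + d) = 0)
    (h2 : g x y + g (x + d) y - g x (y + d) - g (x + d) (y + d) = 0) :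
    lifts m bt g x y d b = m := by
  unfold lifts
  rw [h, h2]
  simp

lemma lifts_none {m : ℕ} [Fact (1 < m)] {bt : K → ℤ} {g : K → K → ℤ} {x y d : K} {b : ZMod m}
    (h : bt x + bt (x + d) = 0)
    (h2 : g x y + g (x + d) y - g x (y + d) - g (x + d) (y + d) = 1 ∨
      g x y + g (x + d) y - g x (y + d) - g (x + d) (y + d) = -1) :
    lifts m bt g x y d b = 0 := by
  unfold lifts
  rw [h]
  have : IsEmpty {b' : ZMod m // ((0 : ℤ) : ZMod m) * (b' - b) =
      ((g x y + g (x + d) y - g x (y + d) - g (x + d) (y + d) : ℤ) : ZMod m)} := by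
    constructor
    rintro ⟨b', hb'⟩
    rw [Int.cast_zero, zero_mul] at hb'
    rcases h2 with h2 | h2
    · rw [h2, Int.cast_one] at hb'
      exact zero_ne_one hb'
    · rw [h2, Int.cast_neg, Int.cast_one] at hb'
      exact zero_ne_one (neg_eq_zero.mp hb'.symm).symm
  exact Nat.card_of_isEmpty

/-- Signs depending on the first coordinate. -/
def btA (x : K) : ℤ := if x.1 = 0 then 1 else -1

/-- The multipliers `1, 2, -2, -1`. -/
def btB (x : K) : ℤ :=
  if x = (0, 0) then 1 else if x = (0, 1) then 2 else if x = (1, 0) then -2 else -1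

def gA (x y : K) : ℤ := if x.1 = 0 ∧ y.2 = 1 then 1 else 0

def gB (x y : K) : ℤ := if x.1 = 0 ∧ y.1 = 1 then 1 else 0

lemma sum_K (f : K → ℕ) : ∑ d : K, f d = f (0, 0) + f (0, 1) + f (1, 0) + f (1, 1) := by
  have : (Finset.univ : Finset K) = {(0, 0), (0, 1), (1, 0), (1, 1)} := by decide
  rw [this]
  rw [Finset.sum_insert (by decide), Finset.sum_insert (by decide), Finset.sum_insert (by decide),
    Finset.sum_singleton]
  ring

lemma unit_two {m : ℕ} (hm : Odd m) {z : ℤ} (hz : z = 2 ∨ z = -2) : IsUnit (z : ZMod m) := by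
  have := two_unit hm
  rcases hz with rfl | rfl
  · simpa using this
  · simpa using this.neg

/-- Even `h ≥ 4`. -/
lemma hasPair_even {m : ℕ} (hm : Odd m) (h1 : 1 < m) : HasPair (K × ZMod m) (m + 1) := by
  have : NeZero m := ⟨by omega⟩
  have : Fact (1 < m) := ⟨h1⟩
  apply hasPair_sq hm btA gA
  · intro x
    have : btA x = 1 ∨ btA x = -1 := by revert x; decide
    rcases this with h | h <;> rw [h] <;> simp
  · intro x y b
    rw [sum_K]
    have a0 : btA x + btA (x + (0, 0)) = 2 ∨ btA x + btA (x + (0, 0)) = -2 := by revert x; decide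
    have a1 : btA x + btA (x + (0, 1)) = 2 ∨ btA x + btA (x + (0, 1)) = -2 := by revert x; decide
    have a2 : btA x + btA (x + (1, 0)) = 0 := by revert x; decide
    have a3 : btA x + btA (x + (1, 1)) = 0 := by revert x; decide
    have b2 : gA x y + gA (x + (1, 0)) y - gA x (y + (1, 0)) - gA (x + (1, 0)) (y + (1, 0)) = 0 := by
      revert x y; decide
    have b3 : gA x y + gA (x + (1, 1)) y - gA x (y + (1, 1)) - gA (x + (1, 1)) (y + (1, 1)) = 1 ∨
        gA x y + gA (x + (1, 1)) y - gA x (y + (1, 1)) - gA (x + (1, 1)) (y + (1, 1)) = -1 := by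
      revert x y; decide
    rw [lifts_unit (unit_two hm a0), lifts_unit (unit_two hm a1), lifts_all a2 b2,
      lifts_none a3 b3]
    omega

lemma hasPair_one : HasPair (K × ZMod 3) 1 := by
  have hm : Odd 3 := by decide
  have : Fact (1 < 3) := ⟨by norm_num⟩
  apply hasPair_sq hm btA gB
  · intro x
    have : btA x = 1 ∨ btA x = -1 := by revert x; decide
    rcases this with h | h <;> rw [h] <;> simp
  · intro x y b
    rw [sum_K]
    have a0 : btA x + btA (x + (0, 0)) = 2 ∨ btA x + btA (x + (0, 0)) = -2 := by revert x; decide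
    have a1 : btA x + btA (x + (0, 1)) = 2 ∨ btA x + btA (x + (0, 1)) = -2 := by revert x; decide
    have a2 : btA x + btA (x + (1, 0)) = 0 := by revert x; decide
    have a3 : btA x + btA (x + (1, 1)) = 0 := by revert x; decide
    have b2 : gB x y + gB (x + (1, 0)) y - gB x (y + (1, 0)) - gB (x + (1, 0)) (y + (1, 0)) = 1 ∨
        gB x y + gB (x + (1, 0)) y - gB x (y + (1, 0)) - gB (x + (1, 0)) (y + (1, 0)) = -1 := by
      revert x y; decide
    have b3 : gB x y + gB (x + (1, 1)) y - gB x (y + (1, 1)) - gB (x + (1, 1)) (y + (1, 1)) = 1 ∨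
        gB x y + gB (x + (1, 1)) y - gB x (y + (1, 1)) - gB (x + (1, 1)) (y + (1, 1)) = -1 := by
      revert x y; decide
    rw [lifts_unit (unit_two hm a0), lifts_unit (unit_two hm a1), lifts_none a2 b2,
      lifts_none a3 b3]

lemma unit_five {z : ℤ} (hz : z = 1 ∨ z = -1 ∨ z = 2 ∨ z = -2 ∨ z = 3 ∨ z = -3 ∨ z = 4 ∨ z = -4) :
    IsUnit (z : ZMod 5) := by
  have key : ∀ w : ZMod 5, w ≠ 0 → ∃ v, w * v = 1 := by decide
  have hw : (z : ZMod 5) ≠ 0 := by
    rcases hz with rfl | rfl | rfl | rfl | rfl | rfl | rfl | rfl <;> decide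
  obtain ⟨v, hv⟩ := key _ hw
  exact IsUnit.of_mul_eq_one v hv

lemma hasPair_two : HasPair (K × ZMod 5) 2 := by
  have hm : Odd 5 := by decide
  have : Fact (1 < 5) := ⟨by norm_num⟩
  apply hasPair_sq hm btB gB
  · intro x
    apply unit_five
    revert x; decide
  · intro x y b
    rw [sum_K]
    have a0 : IsUnit ((btB x + btB (x + (0, 0)) : ℤ) : ZMod 5) := by
      apply unit_five; revert x; decide
    have a1 : IsUnit ((btB x + btB (x + (0, 1)) : ℤ) : ZMod 5) := by
      apply unit_five; revert x; decide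
    have a2 : IsUnit ((btB x + btB (x + (1, 0)) : ℤ) : ZMod 5) := by
      apply unit_five; revert x; decide
    have a3 : btB x + btB (x + (1, 1)) = 0 := by revert x; decide
    have b3 : gB x y + gB (x + (1, 1)) y - gB x (y + (1, 1)) - gB (x + (1, 1)) (y + (1, 1)) = 1 ∨
        gB x y + gB (x + (1, 1)) y - gB x (y + (1, 1)) - gB (x + (1, 1)) (y + (1, 1)) = -1 := by
      revert x y; decide
    rw [lifts_unit a0, lifts_unit a1, lifts_unit a2, lifts_none a3 b3]

lemma hasPair_zero : HasPair Unit 0 := by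
  have hl : LatinT (fun _ _ : Unit => ()) :=
    ⟨fun _ => ⟨fun _ _ _ => rfl, fun _ => ⟨(), rfl⟩⟩, fun _ => ⟨fun _ _ _ => rfl, fun _ => ⟨(), rfl⟩⟩⟩
  have he : ∀ r c, ecount (fun _ _ : Unit => ()) r c = 0 + 1 := by
    intro r c
    unfold ecount
    rw [Nat.card_eq_one_iff_unique]
    exact ⟨⟨fun a b => Subtype.ext (Subsingleton.elim _ _)⟩, ⟨⟨((), ()), rfl, rfl⟩⟩⟩
  exact ⟨_, _, hl, hl, fun a b _ => Subsingleton.elim _ _, he, he⟩

/-- A finite nonempty type with a pair for each `h`. -/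
theorem exists_pair (h : ℕ) : ∃ (A : Type) (_ : Fintype A) (_ : Nonempty A), HasPair A h := by
  induction h using Nat.strong_induction_on with
  | _ h ih =>
    rcases Nat.even_or_odd h with he | ho
    · rcases Nat.lt_or_ge h 4 with hlt | hge
      · have : h = 0 ∨ h = 2 := by
          rw [Nat.even_iff] at he; omega
        rcases this with rfl | rfl
        · exact ⟨Unit, inferInstance, inferInstance, hasPair_zero⟩
        · exact ⟨K × ZMod 5, inferInstance, inferInstance, hasPair_two⟩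
      · obtain ⟨m, rfl⟩ : ∃ m, h = m + 1 := ⟨h - 1, by omega⟩
        have hm : Odd m := by
          rw [Nat.even_iff] at he; rw [Nat.odd_iff]; omega
        have : NeZero m := ⟨by omega⟩
        exact ⟨K × ZMod m, inferInstance, inferInstance, hasPair_even hm (by omega)⟩
    · obtain ⟨k, rfl⟩ := ho
      obtain ⟨A, hA1, hA2, hA⟩ := ih k (by omega)
      have := hasPair_prod hasPair_one hA
      refine ⟨(K × ZMod 3) × A, inferInstance, inferInstance, ?_⟩
      have e : (1 + 1) * (k + 1) - 1 = 2 * k + 1 := by omega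
      rw [e] at this
      exact this

theorem pairSet_eq : pairSet = Set.univ := by
  apply Set.eq_univ_of_forall
  intro h
  obtain ⟨A, hA1, hA2, hA⟩ := exists_pair h
  exact mem_of_hasPair hA

end Q165.HomLS
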