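import Mathlib

set_option autoImplicit false

namespace Q165.JacMat

open ZMod Complex

lemma normSq_diff (ρ ζ : ℂ) (h1 : ‖ρ‖ = 1) (h2 : ‖ζ‖ = 1) :
    ‖1 - ρ * ζ‖ ^ 2 - ‖ρ - ζ‖ ^ 2 = 4 * ζ.im * ρ.im := by
  have e1 : ρ.re ^ 2 + ρ.im ^ 2 = 1 := by
    have := Complex.sq_norm ρ
    rw [h1, Complex.normSq_apply] at this
    nlinarith [this]
  have e2 : ζ.re ^ 2 + ζ.im ^ 2 = 1 := by
    have := Complex.sq_norm ζ
    rw [h2, Complex.normSq_apply] at this
    nlinarith [this]
  rw [Complex.sq_norm, Complex.sq_norm, Complex.normSq_apply, Complex.normSq_apply]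
  simp only [Complex.sub_re, Complex.sub_im, Complex.mul_re, Complex.mul_im, Complex.one_re,
    Complex.one_im]
  have e3 : (ρ.re ^ 2 + ρ.im ^ 2) * (ζ.re ^ 2 + ζ.im ^ 2) = 1 := by rw [e1, e2]; norm_num
  nlinarith [e1, e2, e3]

lemma sq_eq_one_iff_of_side' {a : ℝ} (h : a ^ 2 = 1) : a = 1 ∨ a = -1 := by
  have : (a - 1) * (a + 1) = 0 := by linear_combination h
  rcases mul_eq_zero.mp this with h | h
  · left; linarith
  · right; linarith

lemma mode_zero {p : ℕ} [NeZero p] (hp : Odd p) (ρ : ZMod p → ℂ) (hρ1 : ∀ i, ‖ρ i‖ = 1)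
    (hρ : ∀ i, 0 < (ρ i).im) (ζ : ℂ) (hζ : ‖ζ‖ = 1) (hζ' : ζ ≠ -1) (z : ZMod p → ℂ)
    (h : ∀ i, z i + ζ * z (i + 1) = ρ i * (ζ * z i + z (i + 1))) : ∀ i, z i = 0 := by
  have h' : ∀ i, (1 - ρ i * ζ) * z i = (ρ i - ζ) * z (i + 1) := by
    intro i
    linear_combination h i
  have hn : ∀ i, ‖1 - ρ i * ζ‖ * ‖z i‖ = ‖ρ i - ζ‖ * ‖z (i + 1)‖ := by
    intro i
    rw [← norm_mul, ← norm_mul, h' i]
  obtain ⟨i0, hi0⟩ := Finite.exists_max (fun i => ‖z i‖)
  rcases lt_trichotomy ζ.im 0 with hneg | hzero | hpos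
  · -- negative imaginary part
    have hlt : ‖1 - ρ (i0 - 1) * ζ‖ < ‖ρ (i0 - 1) - ζ‖ := by
      have hd := normSq_diff (ρ (i0 - 1)) ζ (hρ1 _) hζ
      have : 4 * ζ.im * (ρ (i0 - 1)).im < 0 := by
        have := hρ (i0 - 1)
        nlinarith
      apply lt_of_pow_lt_pow_left₀ 2 (norm_nonneg _)
      linarith
    have e := hn (i0 - 1)
    rw [sub_add_cancel] at e
    have hle := hi0 (i0 - 1)
    have h0 : ‖z i0‖ = 0 := by
      by_contra hne
      have hposz : 0 < ‖z i0‖ := lt_of_le_of_ne (norm_nonneg _) (Ne.symm hne)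
      have : ‖1 - ρ (i0 - 1) * ζ‖ * ‖z (i0 - 1)‖ ≤ ‖1 - ρ (i0 - 1) * ζ‖ * ‖z i0‖ :=
        mul_le_mul_of_nonneg_left hle (norm_nonneg _)
      have h3 : ‖1 - ρ (i0 - 1) * ζ‖ * ‖z i0‖ < ‖ρ (i0 - 1) - ζ‖ * ‖z i0‖ :=
        mul_lt_mul_of_pos_right hlt hposz
      linarith
    intro i
    have := hi0 i
    rw [h0] at this
    exact norm_le_zero_iff.mp this
  · -- zero imaginary part
    have hre : ζ.re ^ 2 = 1 := by
      have := Complex.sq_norm ζ
      rw [hζ, Complex.normSq_apply, hzero] at this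
      nlinarith [this]
    have hζ1 : ζ = 1 := by
      rcases (sq_eq_one_iff_of_side' hre) with hh | hh
      · apply Complex.ext <;> simp [hh, hzero]
      · exfalso
        apply hζ'
        apply Complex.ext <;> simp [hh, hzero]
    subst hζ1
    have hs : ∀ i, z (i + 1) = - z i := by
      intro i
      have e := h i
      have e2 : (1 - ρ i) * (z i + z (i + 1)) = 0 := by linear_combination e
      rcases mul_eq_zero.mp e2 with e3 | e3
      · exfalso
        have := hρ i
        have e4 : ρ i = 1 := by linear_combination -e3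
        rw [e4] at this
        simp at this
      · linear_combination e3
    have hs2 : ∀ (k : ℕ) (i : ZMod p), z (i + (k : ZMod p)) = (-1) ^ k * z i := by
      intro k
      induction k with
      | zero => intro i; simp
      | succ k ih =>
        intro i
        have : i + ((k + 1 : ℕ) : ZMod p) = (i + (k : ZMod p)) + 1 := by push_cast; ring
        rw [this, hs, ih]
        ring
    intro i
    have e := hs2 p i
    rw [ZMod.natCast_self, add_zero, Odd.neg_one_pow hp] at e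
    linear_combination e / 2
  · have hlt : ‖ρ i0 - ζ‖ < ‖1 - ρ i0 * ζ‖ := by
      have hd := normSq_diff (ρ i0) ζ (hρ1 _) hζ
      have : 0 < 4 * ζ.im * (ρ i0).im := by
        have := hρ i0
        positivity
      apply lt_of_pow_lt_pow_left₀ 2 (norm_nonneg _)
      linarith
    have e := hn i0
    have hle := hi0 (i0 + 1)
    have h0 : ‖z i0‖ = 0 := by
      by_contra hne
      have hposz : 0 < ‖z i0‖ := lt_of_le_of_ne (norm_nonneg _) (Ne.symm hne)
      have : ‖ρ i0 - ζ‖ * ‖z (i0 + 1)‖ ≤ ‖ρ i0 - ζ‖ * ‖z i0‖ :=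
        mul_le_mul_of_nonneg_left hle (norm_nonneg _)
      have h3 : ‖ρ i0 - ζ‖ * ‖z i0‖ < ‖1 - ρ i0 * ζ‖ * ‖z i0‖ :=
        mul_lt_mul_of_pos_right hlt hposz
      linarith
    intro i
    have := hi0 i
    rw [h0] at this
    exact norm_le_zero_iff.mp this

lemma step_bounds {p q v : ℕ} (hp : 3 ≤ p) (hpq : p ≤ q) (hq : Odd q) :
    1 ≤ ((v + 1) * q) / p - (v * q) / p ∧ (v * q) / p ≤ ((v + 1) * q) / p ∧
      2 * (((v + 1) * q) / p - (v * q) / p) < q := by
  obtain ⟨t, ht⟩ := hq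
  set a := (v * q) / p with ha
  set b := ((v + 1) * q) / p with hb
  have hp0 : 0 < p := by omega
  have hab : a + 1 ≤ b := by
    rw [hb, Nat.le_div_iff_mul_le hp0]
    have h1 : a * p ≤ v * q := Nat.div_mul_le_self _ _
    nlinarith
  have h2 : b * p ≤ (v + 1) * q := Nat.div_mul_le_self _ _
  have h3 : v * q < (a + 1) * p := by
    have := Nat.lt_div_mul_add (a := v * q) hp0
    rw [← ha] at this
    nlinarith
  refine ⟨by omega, by omega, ?_⟩
  obtain ⟨d, hd⟩ : ∃ d, b = a + d := ⟨b - a, by omega⟩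
  rw [hd] at h2 ⊢
  have h4 : d * p < q + p := by nlinarith
  have h5 : a + d - a = d := by omega
  rw [h5]
  by_contra hcon
  push Not at hcon
  have h6 : t + 1 ≤ d := by omega
  have h7 : (t + 1) * p ≤ d * p := Nat.mul_le_mul_right p h6
  have h8 : (t + 1) * p < 2 * t + 1 + p := by omega
  have ht1 : 1 ≤ t := by omega
  nlinarith

lemma exists_exponents {p q : ℕ} [NeZero p] [NeZero q] (hp : 3 ≤ p) (hpq : p ≤ q) (hq : Odd q) :
    ∃ n : ZMod p → ZMod q, ∀ i, 0 < (stdAddChar (n i - n (i + 1)) : ℂ).im := by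
  have key : ∀ i : ZMod p, ∃ d : ℕ, 1 ≤ d ∧ 2 * d < q ∧
      -(((i.val * q) / p : ℕ) : ZMod q) - (-((((i + 1).val * q) / p : ℕ) : ZMod q)) =
        (d : ZMod q) := by
    intro i
    obtain ⟨h1, h2, h3⟩ := step_bounds (v := i.val) hp hpq hq
    refine ⟨_, h1, h3, ?_⟩
    rw [Nat.cast_sub h2]
    have hlt := ZMod.val_lt i
    by_cases hi : i.val + 1 < p
    · have : (i + 1).val = i.val + 1 := by
        have h1v : (1 : ZMod p).val = 1 := by
          rw [ZMod.val_one_eq_one_mod]; exact Nat.mod_eq_of_lt (by omega)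
        rw [ZMod.val_add_of_lt]
        · rw [h1v]
        · rw [h1v]; exact hi
      rw [this]
      ring
    · have hiv : i.val = p - 1 := by omega
      have h0 : i + 1 = 0 := by
        have : ((i.val + 1 : ℕ) : ZMod p) = 0 := by
          rw [hiv]
          have : p - 1 + 1 = p := by omega
          rw [this, ZMod.natCast_self]
        rw [Nat.cast_add, ZMod.natCast_zmod_val, Nat.cast_one] at this
        exact this
      rw [h0, ZMod.val_zero]
      have hpp : i.val + 1 = p := by omega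
      have : (i.val + 1) * q / p = q := by
        rw [hpp]; exact Nat.mul_div_cancel_left q (by omega)
      rw [this]
      simp
  refine ⟨fun i => -(((i.val * q) / p : ℕ) : ZMod q), fun i => ?_⟩
  obtain ⟨d, h1, h2, h3⟩ := key i
  simp only
  rw [h3]
  have h4 : ((d : ℕ) : ZMod q) = ((d : ℤ) : ZMod q) := by push_cast; rfl
  rw [h4, ZMod.stdAddChar_coe]
  have h5 : (2 * (Real.pi : ℂ) * I * ((d : ℤ) : ℂ) / (q : ℂ)) = ((2 * Real.pi * d / q : ℝ) : ℂ) * I := by
    push_cast; ring
  rw [h5, Complex.exp_ofReal_mul_I_im]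
  have hq0 : (0 : ℝ) < q := by
    have : 0 < q := by omega
    exact_mod_cast this
  apply Real.sin_pos_of_pos_of_lt_pi
  · have : (0 : ℝ) < d := by exact_mod_cast h1
    positivity
  · rw [div_lt_iff₀ hq0]
    have : (2 * d : ℝ) < q := by exact_mod_cast h2
    nlinarith [Real.pi_pos]

/-- The polarised minors of adjacent rows and columns. -/
def cell {R : Type*} [CommRing R] {A B : Type*} (X y : A → B → R) (i j : A) (k l : B) : R :=
  X i k * y j l + y i k * X j l - X i l * y j k - y i l * X j k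

lemma core_le {p q : ℕ} [NeZero p] [NeZero q] (hp : Odd p) (hq : Odd q) (hp3 : 3 ≤ p)
    (hpq : p ≤ q) :
    ∃ X : ZMod p → ZMod q → ℂ, ∀ y : ZMod p → ZMod q → ℂ,
      (∀ i k, cell X y i (i + 1) k (k + 1) = 0) → ∀ i k, y i k = 0 := by
  obtain ⟨n, hn⟩ := exists_exponents hp3 hpq hq
  let e : ZMod q → ℂ := fun k => stdAddChar k
  have eadd : ∀ a b, e (a + b) = e a * e b := fun a b => AddChar.map_add_eq_mul _ a b
  have e0 : e 0 = 1 := AddChar.map_zero_eq_one _
  have ene : ∀ a, e a ≠ 0 := by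
    intro a ha
    have := eadd a (-a)
    rw [add_neg_cancel, e0, ha, zero_mul] at this
    exact one_ne_zero this
  have enorm : ∀ a, ‖e a‖ = 1 := fun a => by
    show ‖(stdAddChar a : ℂ)‖ = 1
    rw [stdAddChar_apply]
    exact Circle.norm_coe _
  refine ⟨fun i k => e (n i * k), fun y hy => ?_⟩
  let z : ZMod p → ZMod q → ℂ := fun i k => y i k / e (n i * k)
  have hyz : ∀ i k, y i k = e (n i * k) * z i k := fun i k => by
    simp only [z]; rw [mul_div_cancel₀ _ (ene _)]
  have hz : ∀ i k, z i k + z (i + 1) (k + 1) =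
      e (n i - n (i + 1)) * (z (i + 1) k + z i (k + 1)) := by
    intro i k
    have h := hy i k
    simp only [cell, hyz] at h
    have a1 : e (n i * (k + 1)) = e (n i * k) * e (n i) := by rw [mul_add, mul_one, eadd]
    have a2 : e (n (i + 1) * (k + 1)) = e (n (i + 1) * k) * e (n (i + 1)) := by
      rw [mul_add, mul_one, eadd]
    have a3 : e (n i) = e (n i - n (i + 1)) * e (n (i + 1)) := by
      rw [← eadd, sub_add_cancel]
    rw [a1, a2, a3] at h
    have h2 : (e (n i * k) * e (n (i + 1) * k) * e (n (i + 1))) *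
        ((z i k + z (i + 1) (k + 1)) - e (n i - n (i + 1)) * (z (i + 1) k + z i (k + 1))) = 0 := by
      linear_combination h
    rcases mul_eq_zero.mp h2 with h3 | h3
    · exact absurd h3 (mul_ne_zero (mul_ne_zero (ene _) (ene _)) (ene _))
    · linear_combination h3
  have hmode : ∀ ξ : ZMod q, ∀ i, dft (z i) ξ = 0 := by
    intro ξ
    have hζ1 : e ξ ≠ -1 := by
      intro hh
      have hpow : (e ξ) ^ q = 1 := by
        show (stdAddChar ξ : ℂ) ^ q = 1
        rw [← AddChar.map_nsmul_eq_pow]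
        simp
      rw [hh, Odd.neg_one_pow hq] at hpow
      norm_num at hpow
    apply mode_zero hp (fun i => e (n i - n (i + 1))) (fun i => enorm _) (fun i => hn i) (e ξ)
      (enorm _) hζ1
    intro i
    have shift : ∀ f : ZMod q → ℂ, ∑ k, e (-(k * ξ)) * f (k + 1) = e ξ * dft f ξ := by
      intro f
      rw [dft_apply, Finset.mul_sum]
      rw [← Equiv.sum_comp (Equiv.addRight (1 : ZMod q)) (fun k => e ξ * (stdAddChar (-(k * ξ)) • f k))]
      apply Finset.sum_congr rfl
      intro k _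
      simp only [Equiv.coe_addRight, smul_eq_mul]
      show e (-(k * ξ)) * f (k + 1) = e ξ * (e (-((k + 1) * ξ)) * f (k + 1))
      have : -(k * ξ) = ξ + -((k + 1) * ξ) := by ring
      rw [this, eadd]
      ring
    have e1 : dft (z i) ξ = ∑ k, e (-(k * ξ)) * z i k := by
      rw [dft_apply]; rfl
    have e2 : dft (z (i + 1)) ξ = ∑ k, e (-(k * ξ)) * z (i + 1) k := by
      rw [dft_apply]; rfl
    have hsum : ∑ k, e (-(k * ξ)) * (z i k + z (i + 1) (k + 1)) =
        ∑ k, e (-(k * ξ)) * (e (n i - n (i + 1)) * (z (i + 1) k + z i (k + 1))) :=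
      Finset.sum_congr rfl fun k _ => by rw [hz i k]
    have l1 : ∑ k, e (-(k * ξ)) * (z i k + z (i + 1) (k + 1)) =
        dft (z i) ξ + e ξ * dft (z (i + 1)) ξ := by
      rw [← shift (z (i + 1)), e1, ← Finset.sum_add_distrib]
      exact Finset.sum_congr rfl fun k _ => by ring
    have l2 : ∑ k, e (-(k * ξ)) * (e (n i - n (i + 1)) * (z (i + 1) k + z i (k + 1))) =
        e (n i - n (i + 1)) * (e ξ * dft (z i) ξ + dft (z (i + 1)) ξ) := by
      rw [← shift (z i), e2, mul_add, Finset.mul_sum, Finset.mul_sum, ← Finset.sum_add_distrib]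
      exact Finset.sum_congr rfl fun k _ => by ring
    rw [l1, l2] at hsum
    exact hsum
  intro i k
  have hz0 : z i = 0 := by
    apply dft.injective
    rw [map_zero]
    funext ξ
    rw [hmode ξ i]
    rfl
  rw [hyz, hz0]
  simp

theorem core {p q : ℕ} [NeZero p] [NeZero q] (hp : Odd p) (hq : Odd q) (hp3 : 3 ≤ p)
    (hq3 : 3 ≤ q) :
    ∃ X : ZMod p → ZMod q → ℂ, ∀ y : ZMod p → ZMod q → ℂ,
      (∀ i k, cell X y i (i + 1) k (k + 1) = 0) → ∀ i k, y i k = 0 := by
  rcases le_total p q with h | h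
  · exact core_le hp hq hp3 h
  · obtain ⟨X, hX⟩ := core_le hq hp hq3 h
    refine ⟨fun i k => X k i, fun y hy i k => ?_⟩
    refine hX (fun k i => y i k) (fun k i => ?_) k i
    have := hy i k
    simp only [cell] at this ⊢
    linear_combination this

end Q165.JacMat
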