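import Mathlib

set_option autoImplicit false

/-!
# The Jacobian matrix of the ideal of a pair of graphs

`jacobian F G H` is the Jacobian matrix of the generators
`x_{i,k} x_{j,l} - x_{i,l} x_{j,k}` (`{i,j}` an edge of `G` with `i < j`, `{k,l}` an edge of `H`
with `k < l`), over the field of fractions of `F[x_{a,b}]`.
-/

namespace Q165.JacMat

open MvPolynomial

universe u

/-- The binomial `x_{i,k} x_{j,l} - x_{i,l} x_{j,k}` in `F[x_{a,b} : a ∈ [n], b ∈ [m]]`. -/
noncomputable def binomialGen (F : Type u) [Field F] {n m : ℕ} (i j : Fin n) (k l : Fin m) :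
    MvPolynomial (Fin n × Fin m) F :=
  X (i, k) * X (j, l) - X (i, l) * X (j, k)

/-- The edges `{i, j}` of a graph on `Fin n`, written as pairs `(i, j)` with `i < j`. -/
def EdgeIdx {n : ℕ} (G : SimpleGraph (Fin n)) : Type :=
  {e : Fin n × Fin n // e.1 < e.2 ∧ G.Adj e.1 e.2}

/-- The field `F(x_{a,b})` of rational functions. -/
abbrev FunField (F : Type u) [Field F] (n m : ℕ) : Type u :=
  FractionRing (MvPolynomial (Fin n × Fin m) F)

/-- The Jacobian matrix of the generators, with rows indexed by `E(G) × E(H)` and columns by
`[n] × [m]`; the entry is the partial derivative of the generator, seen in `F(x_{a,b})`. -/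
noncomputable def jacobian (F : Type u) [Field F] {n m : ℕ} (G : SimpleGraph (Fin n))
    (H : SimpleGraph (Fin m)) : Matrix (EdgeIdx G × EdgeIdx H) (Fin n × Fin m) (FunField F n m) :=
  fun r v => algebraMap (MvPolynomial (Fin n × Fin m) F) (FunField F n m)
    (pderiv v (binomialGen F r.1.1.1 r.1.1.2 r.2.1.1 r.2.1.2))

/-- `(G, H)` has the basis property: the rows of its Jacobian matrix are linearly independent over
`F(x_{a,b})` and span the row space of the Jacobian matrix of the pair of complete graphs. -/
def BasisProperty (F : Type u) [Field F] {n m : ℕ} (G : SimpleGraph (Fin n))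
    (H : SimpleGraph (Fin m)) : Prop :=
  LinearIndependent (FunField F n m) (jacobian F G H).row ∧
    Submodule.span (FunField F n m) (Set.range (jacobian F G H).row) =
      Submodule.span (FunField F n m)
        (Set.range (jacobian F (⊤ : SimpleGraph (Fin n)) (⊤ : SimpleGraph (Fin m))).row)

/-- Every connected component of `G` is a cycle of odd length, that is, `G` is a vertex-disjoint
union of odd cycles (all of its vertices being covered). -/
def IsUnionOfOddCycles {V : Type} (G : SimpleGraph V) : Prop :=
  ∀ c : G.ConnectedComponent, ∃ k : ℕ, 3 ≤ k ∧ Odd k ∧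
    Nonempty (c.toSimpleGraph ≃g SimpleGraph.cycleGraph k)

end Q165.JacMat
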