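import Mathlib
import Pool.Agent.Q165.JacCore

set_option autoImplicit false

namespace Q165.JacMat

open MvPolynomial

/-- The matrix of the linear system attached to the pair of cycles, for given values. -/
def sysMat {S : Type*} [CommRing S] (p q : ℕ) (x : ZMod p × ZMod q → S) :
    Matrix (ZMod p × ZMod q) (ZMod p × ZMod q) S :=
  fun c v => (if v = (c.1 + 1, c.2 + 1) then x (c.1, c.2) else 0) +
    (if v = (c.1, c.2) then x (c.1 + 1, c.2 + 1) else 0) -
    (if v = (c.1 + 1, c.2) then x (c.1, c.2 + 1) else 0) -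
    (if v = (c.1, c.2 + 1) then x (c.1 + 1, c.2) else 0)

lemma sysMat_mulVec {S : Type*} [CommRing S] (p q : ℕ) [NeZero p] [NeZero q]
    (x : ZMod p × ZMod q → S) (y : ZMod p × ZMod q → S) (c : ZMod p × ZMod q) :
    (sysMat p q x).mulVec y c =
      cell (fun a b => x (a, b)) (fun a b => y (a, b)) c.1 (c.1 + 1) c.2 (c.2 + 1) := by
  simp only [Matrix.mulVec, dotProduct, sysMat, sub_mul, add_mul, ite_mul, zero_mul,
    Finset.sum_sub_distrib, Finset.sum_add_distrib, Finset.sum_ite_eq', Finset.mem_univ, if_true,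
    cell]
  ring

lemma sysMat_map {S T : Type*} [CommRing S] [CommRing T] (p q : ℕ) (x : ZMod p × ZMod q → S)
    (φ : S →+* T) : (sysMat p q x).map φ = sysMat p q (fun v => φ (x v)) := by
  ext c v
  simp only [Matrix.map_apply, sysMat, map_sub, map_add]
  congr 1
  · congr 1
    · congr 1
      · split_ifs <;> simp
      · split_ifs <;> simp
    · split_ifs <;> simp
  · split_ifs <;> simp

/-- The determinant of the system, as an integer polynomial. -/
noncomputable def intDet (p q : ℕ) [NeZero p] [NeZero q] : MvPolynomial (ZMod p × ZMod q) ℤ :=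
  (sysMat p q (fun v => (X v : MvPolynomial (ZMod p × ZMod q) ℤ))).det

lemma intDet_map {T : Type*} [CommRing T] (p q : ℕ) [NeZero p] [NeZero q]
    (φ : MvPolynomial (ZMod p × ZMod q) ℤ →+* T) :
    φ (intDet p q) = (sysMat p q (fun v => φ (X v))).det := by
  rw [intDet, RingHom.map_det, RingHom.mapMatrix_apply, sysMat_map]

lemma intDet_ne_zero {p q : ℕ} [NeZero p] [NeZero q] (hp : Odd p) (hq : Odd q) (hp3 : 3 ≤ p)
    (hq3 : 3 ≤ q) : intDet p q ≠ 0 := by
  obtain ⟨x, hx⟩ := core hp hq hp3 hq3
  intro h0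
  have h1 := intDet_map p q (eval₂Hom (Int.castRingHom ℂ) (fun v : ZMod p × ZMod q => x v.1 v.2))
  rw [h0, map_zero] at h1
  obtain ⟨y, hy, hy2⟩ := Matrix.exists_mulVec_eq_zero_iff.mpr h1.symm
  apply hy
  funext v
  refine hx (fun a b => y (a, b)) (fun i k => ?_) v.1 v.2
  have h2 := congrFun hy2 (i, k)
  rw [sysMat_mulVec] at h2
  simpa [cell] using h2

/-- A bound for the characteristics in which the determinant can vanish. -/
lemma exists_bound {p q : ℕ} [NeZero p] [NeZero q] (hp : Odd p) (hq : Odd q) (hp3 : 3 ≤ p)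
    (hq3 : 3 ≤ q) : ∃ N : ℕ, ∀ (F : Type*) [Field F] (r : ℕ) [CharP F r], (r = 0 ∨ N < r) →
      MvPolynomial.map (Int.castRingHom F) (intDet p q) ≠ 0 := by
  obtain ⟨s, hs⟩ := MvPolynomial.ne_zero_iff.mp (intDet_ne_zero hp hq hp3 hq3)
  refine ⟨(coeff s (intDet p q)).natAbs, ?_⟩
  intro F _ r _ hr h0
  have h1 : coeff s (MvPolynomial.map (Int.castRingHom F) (intDet p q)) = 0 := by
    rw [h0]; simp
  rw [coeff_map, eq_intCast, CharP.intCast_eq_zero_iff F r] at h1
  rcases hr with hr | hr
  · subst hr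
    simp only [Nat.cast_zero, zero_dvd_iff] at h1
    exact hs h1
  · have h2 := Int.natAbs_dvd_natAbs.mpr h1
    rw [Int.natAbs_natCast] at h2
    have h3 := Nat.le_of_dvd (Int.natAbs_pos.mpr hs) h2
    omega

/-- Over the function field the system of the pair of odd cycles has only the zero solution. -/
lemma cycle_kernel {F : Type*} [Field F] {p q n m : ℕ} [NeZero p] [NeZero q]
    (hdet : MvPolynomial.map (Int.castRingHom F) (intDet p q) ≠ 0)
    (ι : ZMod p × ZMod q → Fin n × Fin m) (hι : Function.Injective ι)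
    (y : ZMod p → ZMod q → FractionRing (MvPolynomial (Fin n × Fin m) F))
    (hy : ∀ i k, cell (fun a b => algebraMap (MvPolynomial (Fin n × Fin m) F)
      (FractionRing (MvPolynomial (Fin n × Fin m) F)) (X (ι (a, b)))) y i (i + 1) k (k + 1) = 0) :
    ∀ i k, y i k = 0 := by
  let φ : MvPolynomial (ZMod p × ZMod q) ℤ →+* FractionRing (MvPolynomial (Fin n × Fin m) F) :=
    (algebraMap (MvPolynomial (Fin n × Fin m) F)
      (FractionRing (MvPolynomial (Fin n × Fin m) F))).comp
      ((rename ι : MvPolynomial (ZMod p × ZMod q) F →ₐ[F] _).toRingHom.comp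
        (MvPolynomial.map (Int.castRingHom F)))
  have hφ : φ (intDet p q) ≠ 0 := by
    intro h
    apply hdet
    have h1 : (rename ι (MvPolynomial.map (Int.castRingHom F) (intDet p q))) = 0 := by
      apply IsFractionRing.injective (MvPolynomial (Fin n × Fin m) F)
        (FractionRing (MvPolynomial (Fin n × Fin m) F))
      rw [map_zero]
      exact h
    apply rename_injective ι hι
    rw [h1, map_zero]
  have hX : ∀ v, φ (X v) = algebraMap (MvPolynomial (Fin n × Fin m) F)
      (FractionRing (MvPolynomial (Fin n × Fin m) F)) (X (ι v)) := by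
    intro v
    show algebraMap _ _ (rename ι (MvPolynomial.map (Int.castRingHom F) (X v))) = _
    rw [map_X, rename_X]
  rw [intDet_map] at hφ
  intro i k
  by_contra hne
  apply hφ
  apply Matrix.exists_mulVec_eq_zero_iff.mp
  refine ⟨fun v => y v.1 v.2, ?_, ?_⟩
  · intro h
    exact hne (congrFun h (i, k))
  · funext c
    rw [sysMat_mulVec]
    have := hy c.1 c.2
    simp only [hX]
    exact this

end Q165.JacMat
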