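import Mathlib
import Pool.Agent.Q165.JacDef
import Pool.Agent.Q165.JacDet
import Pool.Agent.Helper431.CycleIso

set_option autoImplicit false

namespace Q165.JacMat

open MvPolynomial

universe u

/-! ### Generic linear algebra -/

lemma span_top_iff {K R ι : Type*} [Field K] [Fintype ι] [DecidableEq ι] (M : R → ι → K) :
    Submodule.span K (Set.range M) = ⊤ ↔ ∀ y : ι → K, (∀ r, M r ⬝ᵥ y = 0) → y = 0 := by
  constructor
  · intro h y hy
    let f : (ι → K) →ₗ[K] K :=
      { toFun := fun v => v ⬝ᵥ y
        map_add' := fun a b => add_dotProduct a b y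
        map_smul' := fun c a => smul_dotProduct c a y }
    have hle : Submodule.span K (Set.range M) ≤ LinearMap.ker f := by
      rw [Submodule.span_le]
      rintro _ ⟨r, rfl⟩
      exact hy r
    rw [h] at hle
    funext i
    have : f (Pi.single i 1) = 0 := hle Submodule.mem_top
    have e : f (Pi.single i 1) = y i := by
      show (Pi.single i 1 : ι → K) ⬝ᵥ y = y i
      simp
    rw [← e, this]
    rfl
  · intro h
    by_contra hne
    obtain ⟨f, hf0, hf⟩ := Submodule.exists_le_ker_of_lt_top _ (lt_top_iff_ne_top.mpr hne)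
    apply hf0
    have hy : (fun i => f (Pi.single i 1)) = 0 := by
      apply h
      intro r
      have h1 : f (M r) = 0 := hf (Submodule.subset_span ⟨r, rfl⟩)
      rw [LinearMap.pi_apply_eq_sum_univ f (M r)] at h1
      rw [← h1]
      simp only [dotProduct, smul_eq_mul]
      refine Finset.sum_congr rfl fun i _ => ?_
      congr 2
      funext j
      by_cases hij : i = j
      · subst hij; simp
      · simp [hij, Ne.symm hij]
    ext i
    simpa using congrFun hy i

/-! ### The kernel -/

/-- The system of a pair of graphs has only the zero solution. -/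
def KerTrivial {K A B : Type*} [Field K] (x : A → B → K) (G : SimpleGraph A) (H : SimpleGraph B) :
    Prop :=
  ∀ y : A → B → K, (∀ i j, G.Adj i j → ∀ k l, H.Adj k l → cell x y i j k l = 0) → y = 0

lemma KerTrivial.swap {K A B : Type*} [Field K] {x : A → B → K} {G : SimpleGraph A}
    {H : SimpleGraph B} (h : KerTrivial x G H) : KerTrivial (fun b a => x a b) H G := by
  intro y hy
  have := h (fun a b => y b a) (by
    intro i j hij k l hkl
    have := hy k l hkl i j hij
    simp only [cell] at this ⊢
    linear_combination this)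
  funext b a
  exact congrFun (congrFun this a) b

lemma KerTrivial.no_leaf {K A B : Type*} [Field K] [Nonempty B] {x : A → B → K}
    (hx : ∀ a b, x a b ≠ 0) {G : SimpleGraph A}
    {H : SimpleGraph B} (h : KerTrivial x G H) (v w : A) (hvw : G.Adj v w) :
    ∃ w', w' ≠ w ∧ G.Adj v w' := by
  classical
  by_contra hcon
  push Not at hcon
  have huniq : ∀ j, G.Adj v j → j = w := fun j hj => by
    by_contra hne
    exact hcon j hne hj
  have := h (fun a b => if a = v then x w b else 0) (by
    intro i j hij k l _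
    by_cases hi : i = v
    · subst hi
      have hj := huniq j hij
      subst hj
      have hne : j ≠ i := hij.ne'
      simp only [cell, if_true, if_neg hne]
      ring
    · by_cases hj : j = v
      · subst hj
        have hi2 := huniq i hij.symm
        subst hi2
        simp only [cell, if_true, if_neg hi]
        ring
      · simp [cell, hi, hj])
  obtain ⟨b⟩ := ‹Nonempty B›
  have h2 := congrFun (congrFun this v) b
  simp only [if_true, Pi.zero_apply] at h2
  exact hx w b h2

lemma KerTrivial.no_sign {K A B : Type*} [Field K] [Nonempty B] {x : A → B → K}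
    (hx : ∀ a b, x a b ≠ 0) {G : SimpleGraph A}
    {H : SimpleGraph B} (h : KerTrivial x G H) (ε : A → K)
    (hε : ∀ i j, G.Adj i j → ε i + ε j = 0) : ∀ a, ε a = 0 := by
  have := h (fun a b => ε a * x a b) (by
    intro i j hij k l _
    have e := hε i j hij
    simp only [cell]
    linear_combination (x i k * x j l - x i l * x j k) * e)
  intro a
  obtain ⟨b⟩ := ‹Nonempty B›
  have h2 := congrFun (congrFun this a) b
  simp only [Pi.zero_apply] at h2
  exact (mul_eq_zero.mp h2).resolve_right (hx a b)

/-! ### The Jacobian matrix and the kernel -/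

/-- The variables in the function field. -/
noncomputable def xv (F : Type u) [Field F] (n m : ℕ) (a : Fin n) (b : Fin m) : FunField F n m :=
  algebraMap (MvPolynomial (Fin n × Fin m) F) (FunField F n m) (X (a, b))

lemma xv_ne_zero (F : Type u) [Field F] (n m : ℕ) (a : Fin n) (b : Fin m) : xv F n m a b ≠ 0 := by
  unfold xv
  intro h
  have : (X (a, b) : MvPolynomial (Fin n × Fin m) F) = 0 := by
    apply IsFractionRing.injective (MvPolynomial (Fin n × Fin m) F) (FunField F n m)
    rw [h, map_zero]
  exact X_ne_zero _ this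

lemma jacobian_dot (F : Type u) [Field F] {n m : ℕ} (G : SimpleGraph (Fin n))
    (H : SimpleGraph (Fin m)) (r : EdgeIdx G × EdgeIdx H) (y : Fin n × Fin m → FunField F n m) :
    jacobian F G H r ⬝ᵥ y =
      cell (xv F n m) (fun a b => y (a, b)) r.1.1.1 r.1.1.2 r.2.1.1 r.2.1.2 := by
  classical
  have h1 : ∀ v w : Fin n × Fin m,
      algebraMap (MvPolynomial (Fin n × Fin m) F) (FunField F n m)
        ((Pi.single v 1 : Fin n × Fin m → MvPolynomial (Fin n × Fin m) F) w) =
      if w = v then 1 else 0 := by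
    intro v w
    rw [Pi.single_apply]
    split_ifs <;> simp
  simp only [dotProduct, jacobian, binomialGen, map_sub, pderiv_mul, pderiv_X, map_add, map_mul,
    h1]
  simp only [sub_mul, add_mul, mul_ite, ite_mul, mul_one, mul_zero, one_mul, zero_mul,
    Finset.sum_sub_distrib, Finset.sum_add_distrib, Finset.sum_ite_eq, Finset.mem_univ, if_true]
  simp only [cell, xv]
  ring

lemma cell_anti1 {K A B : Type*} [Field K] (x y : A → B → K) (i j : A) (k l : B) :
    cell x y j i k l = - cell x y i j k l := by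
  simp only [cell]; ring

lemma cell_anti2 {K A B : Type*} [Field K] (x y : A → B → K) (i j : A) (k l : B) :
    cell x y i j l k = - cell x y i j k l := by
  simp only [cell]; ring

lemma span_iff_ker (F : Type u) [Field F] {n m : ℕ} (G : SimpleGraph (Fin n))
    (H : SimpleGraph (Fin m)) :
    Submodule.span (FunField F n m) (Set.range (jacobian F G H).row) = ⊤ ↔
      KerTrivial (xv F n m) G H := by
  classical
  have hrow : (jacobian F G H).row = fun r => jacobian F G H r := rfl
  rw [hrow, span_top_iff]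
  constructor
  · intro h y hy
    have := h (fun v => y v.1 v.2) (by
      intro r
      rw [jacobian_dot]
      exact hy _ _ r.1.2.2 _ _ r.2.2.2)
    funext a b
    exact congrFun this (a, b)
  · intro h y hy
    have hall : ∀ i j, G.Adj i j → ∀ k l, H.Adj k l →
        cell (xv F n m) (fun a b => y (a, b)) i j k l = 0 := by
      have h1 : ∀ i j, G.Adj i j → i < j → ∀ k l, H.Adj k l → k < l →
          cell (xv F n m) (fun a b => y (a, b)) i j k l = 0 := by
        intro i j hij hlt k l hkl hlt2
        have := hy (⟨(i, j), hlt, hij⟩, ⟨(k, l), hlt2, hkl⟩)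
        rw [jacobian_dot] at this
        exact this
      have h2 : ∀ i j, G.Adj i j → i < j → ∀ k l, H.Adj k l →
          cell (xv F n m) (fun a b => y (a, b)) i j k l = 0 := by
        intro i j hij hlt k l hkl
        rcases lt_or_gt_of_ne hkl.ne with h3 | h3
        · exact h1 i j hij hlt k l hkl h3
        · rw [cell_anti2, h1 i j hij hlt l k hkl.symm h3, neg_zero]
      intro i j hij k l hkl
      rcases lt_or_gt_of_ne hij.ne with h3 | h3
      · exact h2 i j hij h3 k l hkl
      · rw [cell_anti1, h2 j i hij.symm h3 k l hkl, neg_zero]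
    have := h (fun a b => y (a, b)) hall
    funext v
    exact congrFun (congrFun this v.1) v.2

/-! ### Vertices on odd cycles -/

/-- The vertex `a` lies on a cycle of odd length of `G`. -/
def OnOddCycle {n : ℕ} (G : SimpleGraph (Fin n)) (a : Fin n) : Prop :=
  ∃ p : ℕ, Odd p ∧ 3 ≤ p ∧ p ≤ n ∧ ∃ σ : ZMod p → Fin n, Function.Injective σ ∧
    (∀ s, G.Adj (σ s) (σ (s + 1))) ∧ ∃ s, σ s = a

lemma onOddCycle_top {n : ℕ} (hn : 3 ≤ n) (a : Fin n) : OnOddCycle (⊤ : SimpleGraph (Fin n)) a := by
  let e : Fin 3 → Fin n := Fin.castLE hn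
  have he : Function.Injective e := Fin.castLE_injective hn
  let σ : ZMod 3 → Fin n := fun s => Equiv.swap (e 0) a (e s)
  have hσ : Function.Injective σ := fun s t h => he ((Equiv.swap (e 0) a).injective h)
  refine ⟨3, by decide, le_refl 3, hn, σ, hσ, ?_, 0, ?_⟩
  · intro s
    rw [SimpleGraph.top_adj]
    intro h
    have h1 := hσ h
    have h2 : (1 : ZMod 3) = 0 := by
      calc (1 : ZMod 3) = (s + 1) - s := by ring
        _ = 0 := by rw [← h1]; ring
    exact absurd h2 (by decide)
  · exact Equiv.swap_apply_left _ _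

lemma cyc_adj (k : ℕ) (s : Fin (k + 3)) : (SimpleGraph.cycleGraph (k + 3)).Adj s (s + 1) := by
  rw [SimpleGraph.cycleGraph_adj (n := k + 1)]
  right
  abel

lemma onOddCycle_union {n : ℕ} {G : SimpleGraph (Fin n)} (h : IsUnionOfOddCycles G) (a : Fin n) :
    OnOddCycle G a := by
  obtain ⟨k, hk3, hodd, ⟨φ⟩⟩ := h (G.connectedComponentMk a)
  obtain ⟨k', rfl⟩ : ∃ k', k = k' + 3 := ⟨k - 3, by omega⟩
  let σ : ZMod (k' + 3) → Fin n := fun s => (φ.symm (s : Fin (k' + 3))).1
  have hσ : Function.Injective σ := by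
    intro s t hst
    exact φ.symm.injective (Subtype.ext hst)
  refine ⟨k' + 3, hodd, hk3, ?_, σ, hσ, ?_, ?_⟩
  · have := Fintype.card_le_of_injective σ hσ
    rw [ZMod.card, Fintype.card_fin] at this
    exact this
  · have hadj : ∀ s : Fin (k' + 3), G.Adj (φ.symm s).1 (φ.symm (s + 1)).1 := fun s =>
      φ.symm.map_rel_iff.mpr (cyc_adj k' s)
    exact fun s => hadj s
  · refine ⟨φ ⟨a, rfl⟩, ?_⟩
    show (φ.symm (φ ⟨a, rfl⟩)).1 = a
    rw [RelIso.symm_apply_apply]

/-- The field `F` has characteristic good for all pairs of odd cycles on at most `n`, `m`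
vertices. -/
def GoodField (F : Type u) [Field F] (n m : ℕ) : Prop :=
  ∀ (p q : ℕ) [NeZero p] [NeZero q], Odd p → Odd q → 3 ≤ p → 3 ≤ q → p ≤ n → q ≤ m →
    MvPolynomial.map (Int.castRingHom F) (intDet p q) ≠ 0

lemma kerTrivial_of_odd (F : Type u) [Field F] {n m : ℕ} (hF : GoodField F n m)
    (G : SimpleGraph (Fin n)) (H : SimpleGraph (Fin m)) (hG : ∀ a, OnOddCycle G a)
    (hH : ∀ b, OnOddCycle H b) : KerTrivial (xv F n m) G H := by
  intro y hy
  funext a b
  obtain ⟨p, hp, hp3, hpn, σ, hσ, hσa, s, rfl⟩ := hG a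
  obtain ⟨q, hq, hq3, hqm, τ, hτ, hτa, t, rfl⟩ := hH b
  have : NeZero p := ⟨by omega⟩
  have : NeZero q := ⟨by omega⟩
  have := cycle_kernel (hF p q hp hq hp3 hq3 hpn hqm) (fun v => (σ v.1, τ v.2))
    (fun v w h => by
      simp only [Prod.mk.injEq] at h
      exact Prod.ext (hσ h.1) (hτ h.2)) (fun i k => y (σ i) (τ k)) (fun i k => by
      have := hy _ _ (hσa i) _ _ (hτa k)
      simpa only [cell, xv] using this) s t
  exact this

lemma goodField_exists (n m : ℕ) : ∃ N : ℕ, ∀ (F : Type u) [Field F] (r : ℕ) [CharP F r],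
    (r = 0 ∨ N < r) → GoodField F n m := by
  classical
  have h : ∀ p q : ℕ, ∃ N : ℕ, ∀ (F : Type u) [Field F] (r : ℕ) [CharP F r], (r = 0 ∨ N < r) →
      ∀ [NeZero p] [NeZero q], Odd p → Odd q → 3 ≤ p → 3 ≤ q →
        MvPolynomial.map (Int.castRingHom F) (intDet p q) ≠ 0 := by
    intro p q
    by_cases hh : Odd p ∧ Odd q ∧ 3 ≤ p ∧ 3 ≤ q
    · obtain ⟨hp, hq, hp3, hq3⟩ := hh
      have : NeZero p := ⟨by omega⟩
      have : NeZero q := ⟨by omega⟩
      obtain ⟨N, hN⟩ := exists_bound.{u} hp hq hp3 hq3
      exact ⟨N, fun F _ r _ hr _ _ _ _ _ _ => hN F r hr⟩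
    · exact ⟨0, fun F _ r _ _ _ _ hp hq hp3 hq3 => absurd ⟨hp, hq, hp3, hq3⟩ hh⟩
  choose N hN using h
  refine ⟨(Finset.range (n + 1) ×ˢ Finset.range (m + 1)).sup (fun v => N v.1 v.2), ?_⟩
  intro F _ r _ hr p q _ _ hp hq hp3 hq3 hpn hqm
  refine hN p q F r ?_ hp hq hp3 hq3
  rcases hr with hr | hr
  · exact Or.inl hr
  · right
    refine lt_of_le_of_lt ?_ hr
    exact Finset.le_sup (f := fun v : ℕ × ℕ => N v.1 v.2)
      (Finset.mem_product.mpr ⟨Finset.mem_range.mpr (by show p < n + 1; omega),
        Finset.mem_range.mpr (by show q < m + 1; omega)⟩ : ((p, q) : ℕ × ℕ) ∈ _)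

end Q165.JacMat
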