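import Mathlib
import Pool.Agent.Q165.JacKer

set_option autoImplicit false

namespace Q165.JacMat

open MvPolynomial

universe u

/-! ### Counting edges -/

noncomputable def edgeEquiv {n : ℕ} (G : SimpleGraph (Fin n)) : EdgeIdx G ≃ G.edgeSet := by
  refine Equiv.ofBijective (fun e => ⟨s(e.1.1, e.1.2), e.2.2⟩) ⟨?_, ?_⟩
  · intro e f h
    have h1 : s(e.1.1, e.1.2) = s(f.1.1, f.1.2) := congrArg Subtype.val h
    rw [Sym2.eq_iff] at h1
    apply Subtype.ext
    rcases h1 with ⟨h2, h3⟩ | ⟨h2, h3⟩
    · exact Prod.ext h2 h3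
    · exfalso
      have a := e.2.1
      have b := f.2.1
      rw [h2, h3] at a
      exact absurd a (not_lt.mpr b.le)
  · rintro ⟨e, he⟩
    induction e using Sym2.ind with
    | _ i j =>
      have hij : G.Adj i j := he
      rcases lt_or_gt_of_ne hij.ne with h | h
      · exact ⟨⟨(i, j), h, hij⟩, rfl⟩
      · exact ⟨⟨(j, i), h, hij.symm⟩, Subtype.ext Sym2.eq_swap⟩

noncomputable instance {n : ℕ} (G : SimpleGraph (Fin n)) : Fintype (EdgeIdx G) := by
  classical
  exact Fintype.ofEquiv _ (edgeEquiv G).symm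

lemma sum_degrees {n : ℕ} (G : SimpleGraph (Fin n)) [DecidableRel G.Adj] :
    ∑ v, G.degree v = 2 * Fintype.card (EdgeIdx G) := by
  classical
  rw [G.sum_degrees_eq_twice_card_edges, Fintype.card_congr (edgeEquiv G),
    SimpleGraph.edgeFinset_card]

lemma card_of_degrees_two {n : ℕ} (G : SimpleGraph (Fin n)) [DecidableRel G.Adj]
    (h : ∀ v, G.degree v = 2) : Fintype.card (EdgeIdx G) = n := by
  have h1 := sum_degrees G
  simp only [h, Finset.sum_const, Finset.card_univ, Fintype.card_fin, smul_eq_mul] at h1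
  omega

lemma le_card_of_two_le {n : ℕ} (G : SimpleGraph (Fin n)) [DecidableRel G.Adj]
    (h : ∀ v, 2 ≤ G.degree v) : n ≤ Fintype.card (EdgeIdx G) := by
  have h1 := sum_degrees G
  have h2 : ∑ v : Fin n, 2 ≤ ∑ v, G.degree v := Finset.sum_le_sum fun v _ => h v
  simp only [Finset.sum_const, Finset.card_univ, Fintype.card_fin, smul_eq_mul] at h2
  omega

lemma degrees_two_of_card {n : ℕ} (G : SimpleGraph (Fin n)) [DecidableRel G.Adj]
    (h : ∀ v, 2 ≤ G.degree v) (hc : Fintype.card (EdgeIdx G) = n) : ∀ v, G.degree v = 2 := by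
  have h1 := sum_degrees G
  rw [hc] at h1
  have h2 : ∑ v : Fin n, 2 = ∑ v, G.degree v := by
    rw [h1]; simp [mul_comm]
  intro v
  have := (Finset.sum_eq_sum_iff_of_le (fun v _ => h v)).mp h2 v (Finset.mem_univ v)
  exact this.symm

/-! ### From the kernel to the shape of the graph -/

lemma two_le_degree {K B : Type*} [Field K] [Nonempty B] {n : ℕ} {x : Fin n → B → K}
    (hx : ∀ a b, x a b ≠ 0) {G : SimpleGraph (Fin n)} [DecidableRel G.Adj]
    {H : SimpleGraph B} (h : KerTrivial x G H) (hiso : ∀ v, ∃ w, G.Adj v w) (v : Fin n) :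
    2 ≤ G.degree v := by
  classical
  obtain ⟨w, hw⟩ := hiso v
  obtain ⟨w', hne, hw'⟩ := h.no_leaf hx v w hw
  have hsub : ({w, w'} : Finset (Fin n)) ⊆ G.neighborFinset v := by
    intro z hz
    rw [Finset.mem_insert, Finset.mem_singleton] at hz
    rw [SimpleGraph.mem_neighborFinset]
    rcases hz with rfl | rfl
    · exact hw
    · exact hw'
  have := Finset.card_le_card hsub
  rw [Finset.card_pair (Ne.symm hne), SimpleGraph.card_neighborFinset_eq_degree] at this
  exact this

lemma cycle_parity {k : ℕ} (hk : Even k) (s t : Fin k) (h : (SimpleGraph.cycleGraph k).Adj s t) :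
    (s.val + t.val) % 2 = 1 := by
  have aux : ∀ a b : Fin k, (a - b).val = 1 → (a.val + b.val) % 2 = 1 := by
    intro a b hab
    rw [Fin.val_sub] at hab
    obtain ⟨c, hc⟩ := hk
    have h1 : ((k - b.val + a.val) % k) % 2 = (k - b.val + a.val) % 2 :=
      Nat.mod_mod_of_dvd _ ⟨c, by omega⟩
    rw [hab] at h1
    have := b.2
    omega
  rw [SimpleGraph.cycleGraph_adj'] at h
  rcases h with h | h
  · exact aux s t h
  · have := aux t s h
    omega

lemma component_degree {n : ℕ} {G : SimpleGraph (Fin n)} (c : G.ConnectedComponent)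
    [DecidableRel G.Adj] [Fintype c] [DecidableRel c.toSimpleGraph.Adj] (v : c) :
    c.toSimpleGraph.degree v = G.degree v.1 := by
  classical
  rw [← SimpleGraph.card_neighborFinset_eq_degree, ← SimpleGraph.card_neighborFinset_eq_degree]
  apply Finset.card_bij (fun w _ => w.1)
  · intro w hw
    rw [SimpleGraph.mem_neighborFinset] at hw ⊢
    exact hw
  · intro a _ b _ h
    exact Subtype.ext h
  · intro w hw
    rw [SimpleGraph.mem_neighborFinset] at hw
    refine ⟨⟨w, ?_⟩, ?_, rfl⟩
    · have hv : v.1 ∈ c.supp := v.2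
      exact (SimpleGraph.ConnectedComponent.mem_supp_congr_adj c hw).mp hv
    · rw [SimpleGraph.mem_neighborFinset]
      exact hw

lemma union_of_kernel {K B : Type*} [Field K] [Nonempty B] {n : ℕ} {x : Fin n → B → K}
    (hx : ∀ a b, x a b ≠ 0) {G : SimpleGraph (Fin n)} [DecidableRel G.Adj]
    {H : SimpleGraph B} (h : KerTrivial x G H) (hdeg : ∀ v, G.degree v = 2) :
    IsUnionOfOddCycles G := by
  classical
  intro c
  have hcdeg : ∀ v : c, c.toSimpleGraph.degree v = 2 := fun v => by
    rw [component_degree, hdeg]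
  obtain ⟨k, ⟨φ⟩⟩ := Pool.Agent.Helper431.exists_iso_cycleGraph c.connected_toSimpleGraph
    (fun v => (hcdeg v).ge) (fun v => (hcdeg v).le)
  obtain ⟨v0, hv0⟩ : ∃ v : Fin n, v ∈ c.supp := c.nonempty_supp
  have hk3 : 3 ≤ k := by
    by_contra hlt
    have h2 := hcdeg ⟨v0, hv0⟩
    have h3 : (SimpleGraph.cycleGraph k).degree (φ ⟨v0, hv0⟩) = 2 := by
      rw [← h2]
      exact SimpleGraph.Iso.degree_eq φ _
    have h4 := (SimpleGraph.cycleGraph k).degree_lt_card_verts (φ ⟨v0, hv0⟩)
    rw [Fintype.card_fin] at h4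
    omega
  refine ⟨k, hk3, ?_, ⟨φ⟩⟩
  by_contra hodd
  rw [Nat.not_odd_iff_even] at hodd
  let ε : Fin n → K := fun a => if ha : a ∈ c.supp then (-1) ^ (φ ⟨a, ha⟩).val else 0
  have hε : ∀ i j, G.Adj i j → ε i + ε j = 0 := by
    intro i j hij
    have hiff := SimpleGraph.ConnectedComponent.mem_supp_congr_adj c hij
    by_cases hi : i ∈ c.supp
    · have hj : j ∈ c.supp := hiff.mp hi
      have hadj : c.toSimpleGraph.Adj ⟨i, hi⟩ ⟨j, hj⟩ := hij
      have h1 := cycle_parity hodd _ _ (φ.map_rel_iff.mpr hadj)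
      simp only [ε, dif_pos hi, dif_pos hj]
      set s := (φ ⟨i, hi⟩).val
      set t := (φ ⟨j, hj⟩).val
      rcases Nat.even_or_odd s with hs | hs
      · have ht : Odd t := by
          rw [Nat.odd_iff]; rw [Nat.even_iff] at hs; omega
        rw [hs.neg_one_pow, ht.neg_one_pow]; ring
      · have ht : Even t := by
          rw [Nat.even_iff]; rw [Nat.odd_iff] at hs; omega
        rw [hs.neg_one_pow, ht.neg_one_pow]; ring
    · have hj : j ∉ c.supp := fun hj => hi (hiff.mpr hj)
      simp only [ε, dif_neg hi, dif_neg hj, add_zero]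
  have h0 := h.no_sign hx ε hε v0
  simp only [ε, dif_pos hv0] at h0
  exact absurd h0 (pow_ne_zero _ (by norm_num))

lemma degree_of_union {n : ℕ} {G : SimpleGraph (Fin n)} [DecidableRel G.Adj]
    (h : IsUnionOfOddCycles G) (v : Fin n) : G.degree v = 2 := by
  classical
  obtain ⟨k, hk3, -, ⟨φ⟩⟩ := h (G.connectedComponentMk v)
  have h1 := component_degree (G.connectedComponentMk v) ⟨v, rfl⟩
  rw [← h1]
  obtain ⟨k', rfl⟩ : ∃ k', k = k' + 3 := ⟨k - 3, by omega⟩
  rw [← SimpleGraph.Iso.degree_eq φ]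
  exact SimpleGraph.cycleGraph_degree_three_le

/-! ### The main equivalence -/

theorem basisProperty_iff (F : Type u) [Field F] {n m : ℕ} (hn : 3 ≤ n) (hm : 3 ≤ m)
    (hF : GoodField F n m) (G : SimpleGraph (Fin n)) (H : SimpleGraph (Fin m))
    (hG : ∀ v, ∃ w, G.Adj v w) (hH : ∀ v, ∃ w, H.Adj v w) :
    BasisProperty F G H ↔ IsUnionOfOddCycles G ∧ IsUnionOfOddCycles H := by
  classical
  have : Nonempty (Fin n) := ⟨⟨0, by omega⟩⟩
  have : Nonempty (Fin m) := ⟨⟨0, by omega⟩⟩
  have htop : Submodule.span (FunField F n m)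
      (Set.range (jacobian F (⊤ : SimpleGraph (Fin n)) (⊤ : SimpleGraph (Fin m))).row) = ⊤ := by
    rw [span_iff_ker]
    exact kerTrivial_of_odd F hF _ _ (onOddCycle_top hn) (onOddCycle_top hm)
  have hfr : Module.finrank (FunField F n m) (Fin n × Fin m → FunField F n m) = n * m := by
    rw [Module.finrank_fintype_fun_eq_card, Fintype.card_prod, Fintype.card_fin, Fintype.card_fin]
  unfold BasisProperty
  rw [htop]
  constructor
  · rintro ⟨hli, hspan⟩
    have hker := (span_iff_ker F G H).mp hspan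
    have hker' := hker.swap
    have hx := xv_ne_zero F n m
    have dG : ∀ v, 2 ≤ G.degree v := two_le_degree hx hker hG
    have dH : ∀ v, 2 ≤ H.degree v := two_le_degree (fun b a => hx a b) hker' hH
    have hcard : Fintype.card (EdgeIdx G) * Fintype.card (EdgeIdx H) = n * m := by
      rw [← hfr, ← Fintype.card_prod]
      exact (Module.finrank_eq_card_basis (Module.Basis.mk hli hspan.ge)).symm
    have cG := le_card_of_two_le G dG
    have cH := le_card_of_two_le H dH
    have eG : Fintype.card (EdgeIdx G) = n := by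
      by_contra hne
      have : n + 1 ≤ Fintype.card (EdgeIdx G) := by omega
      have := Nat.mul_le_mul this cH
      nlinarith
    have eH : Fintype.card (EdgeIdx H) = m := by
      rw [eG] at hcard
      exact Nat.eq_of_mul_eq_mul_left (by omega) hcard
    exact ⟨union_of_kernel hx hker (degrees_two_of_card G dG eG),
      union_of_kernel (fun b a => hx a b) hker' (degrees_two_of_card H dH eH)⟩
  · rintro ⟨hGu, hHu⟩
    have hspan : Submodule.span (FunField F n m) (Set.range (jacobian F G H).row) = ⊤ := by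
      rw [span_iff_ker]
      exact kerTrivial_of_odd F hF _ _ (onOddCycle_union hGu) (onOddCycle_union hHu)
    refine ⟨?_, hspan⟩
    apply linearIndependent_of_top_le_span_of_card_eq_finrank hspan.ge
    rw [hfr, Fintype.card_prod, card_of_degrees_two G (degree_of_union hGu),
      card_of_degrees_two H (degree_of_union hHu)]

end Q165.JacMat
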