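import Mathlib

set_option autoImplicit false

/-!
# Permutations on layered digraphs
-/

namespace Q165.Layer

open Equiv Finset

/-- Permutations `σ` with `σ v = v` or `v → σ v`. -/
def IsPerm {V : Type} (E : V → V → Prop) (σ : Perm V) : Prop := ∀ v, σ v = v ∨ E v (σ v)

/-- Derangements: `v → σ v` for all `v`. -/
def IsDer {V : Type} (E : V → V → Prop) (σ : Perm V) : Prop := ∀ v, E v (σ v)

section

variable {ι : Type} [Fintype ι] [DecidableEq ι] (s : Perm ι) {k : ℕ}
  (B : ι → Fin k → Fin k → Prop)

/-- The layered digraph. -/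
def Arc (u v : ι × Fin k) : Prop := v.1 = s u.1 ∧ B u.1 u.2 v.2

/-- The points moved by `σ` in the layer `i`. -/
noncomputable def dom (σ : Perm (ι × Fin k)) (i : ι) : Finset (Fin k) :=
  univ.filter (fun x => σ (i, x) ≠ (i, x))

/-- Bijections between `S` and `T` within the board `b`. -/
def BEquiv (b : Fin k → Fin k → Prop) (S T : Finset (Fin k)) : Type :=
  {e : S ≃ T // ∀ x : S, b x (e x)}

noncomputable instance (b : Fin k → Fin k → Prop) (S T : Finset (Fin k)) :
    Fintype (BEquiv b S T) := by
  classical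
  unfold BEquiv
  infer_instance

/-- Glue bijections to a map. -/
noncomputable def glue (D : ι → Finset (Fin k)) (e : ∀ i, BEquiv (B i) (D i) (D (s i)))
    (v : ι × Fin k) : ι × Fin k :=
  if h : v.2 ∈ D v.1 then (s v.1, (e v.1).1 ⟨v.2, h⟩) else v

variable {s} (hs : ∀ i, s i ≠ i)

include hs in
theorem glue_injective (D : ι → Finset (Fin k)) (e : ∀ i, BEquiv (B i) (D i) (D (s i))) :
    Function.Injective (glue s B D e) := by
  rintro ⟨i, x⟩ ⟨j, y⟩ h
  unfold glue at h
  simp only at h
  split_ifs at h with h1 h2 h2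
  · have h3 : s i = s j := congrArg Prod.fst h
    have h4 : i = j := s.injective h3
    subst h4
    have h5 := congrArg Prod.snd h
    simp only at h5
    have h6 := (e i).1.injective (Subtype.ext h5)
    have h7 := congrArg Subtype.val h6
    simp only at h7
    rw [h7]
  · exfalso
    have h3 : s i = j := congrArg Prod.fst h
    have h5 := congrArg Prod.snd h
    simp only at h5
    subst h3
    apply h2
    rw [← h5]
    exact ((e i).1 ⟨x, h1⟩).2
  · exfalso
    have h3 : i = s j := congrArg Prod.fst h
    have h5 := congrArg Prod.snd h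
    simp only at h5
    subst h3
    apply h1
    rw [h5]
    exact ((e j).1 ⟨y, h2⟩).2
  · exact h

/-- The permutation glued from bijections. -/
noncomputable def glueP (D : ι → Finset (Fin k)) (e : ∀ i, BEquiv (B i) (D i) (D (s i))) :
    Perm (ι × Fin k) :=
  Equiv.ofBijective _ (Finite.injective_iff_bijective.mp (glue_injective B hs D e))

theorem glueP_mem (D : ι → Finset (Fin k)) (e : ∀ i, BEquiv (B i) (D i) (D (s i))) {i : ι}
    {x : Fin k} (h : x ∈ D i) : glueP B hs D e (i, x) = (s i, ((e i).1 ⟨x, h⟩ : Fin k)) := by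
  show glue s B D e (i, x) = _
  unfold glue
  rw [dif_pos h]

theorem glueP_notMem (D : ι → Finset (Fin k)) (e : ∀ i, BEquiv (B i) (D i) (D (s i))) {i : ι}
    {x : Fin k} (h : x ∉ D i) : glueP B hs D e (i, x) = (i, x) := by
  show glue s B D e (i, x) = _
  unfold glue
  rw [dif_neg h]

theorem glueP_isPerm (D : ι → Finset (Fin k)) (e : ∀ i, BEquiv (B i) (D i) (D (s i))) :
    IsPerm (Arc s B) (glueP B hs D e) := by
  rintro ⟨i, x⟩
  by_cases h : x ∈ D i
  · right
    rw [glueP_mem B hs D e h]
    exact ⟨rfl, (e i).2 ⟨x, h⟩⟩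
  · left
    exact glueP_notMem B hs D e h

theorem dom_glueP (D : ι → Finset (Fin k)) (e : ∀ i, BEquiv (B i) (D i) (D (s i))) (i : ι) :
    dom (glueP B hs D e) i = D i := by
  ext x
  unfold dom
  rw [mem_filter]
  constructor
  · rintro ⟨-, h⟩
    by_contra hx
    exact h (glueP_notMem B hs D e hx)
  · intro h
    refine ⟨mem_univ _, ?_⟩
    rw [glueP_mem B hs D e h]
    intro hc
    exact hs i (congrArg Prod.fst hc)

include hs in
/-- Every permutation is glued. -/
theorem exists_glue (σ : Perm (ι × Fin k)) (hσ : IsPerm (Arc s B) σ) :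
    ∃ e : ∀ i, BEquiv (B i) (dom σ i) (dom σ (s i)), glueP B hs (dom σ) e = σ := by
  have hmove : ∀ i x, x ∈ dom σ i → (σ (i, x)).1 = s i ∧ B i x (σ (i, x)).2 := by
    intro i x hx
    unfold dom at hx
    rw [mem_filter] at hx
    rcases hσ (i, x) with h | h
    · exact absurd h hx.2
    · exact h
  have hfix : ∀ i x, x ∉ dom σ i → σ (i, x) = (i, x) := by
    intro i x hx
    unfold dom at hx
    rw [mem_filter] at hx
    by_contra hc
    exact hx ⟨mem_univ _, hc⟩
  have hmem : ∀ i x, x ∈ dom σ i → (σ (i, x)).2 ∈ dom σ (s i) := by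
    intro i x hx
    by_contra hc
    have h1 := hfix _ _ hc
    have h2 : (s i, (σ (i, x)).2) = σ (i, x) := by
      rw [← (hmove i x hx).1]
    rw [h2] at h1
    have h3 := σ.injective h1
    have h4 := congrArg Prod.fst h3
    rw [(hmove i x hx).1] at h4
    exact hs i h4
  let g : ∀ i, dom σ i → dom σ (s i) := fun i x => ⟨(σ (i, x)).2, hmem i x x.2⟩
  have hg : ∀ i, Function.Bijective (g i) := by
    intro i
    constructor
    · rintro ⟨x, hx⟩ ⟨y, hy⟩ h
      have h1 : (σ (i, x)).2 = (σ (i, y)).2 := congrArg Subtype.val h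
      have h2 : σ (i, x) = σ (i, y) := by
        apply Prod.ext
        · rw [(hmove i x hx).1, (hmove i y hy).1]
        · exact h1
      have h3 := congrArg Prod.snd (σ.injective h2)
      exact Subtype.ext h3
    · rintro ⟨y, hy⟩
      obtain ⟨⟨j, x⟩, hjx⟩ := σ.surjective (s i, y)
      have hx : x ∈ dom σ j := by
        by_contra hc
        rw [hfix j x hc] at hjx
        have h1 : j = s i := congrArg Prod.fst hjx
        have h2 : x = y := congrArg Prod.snd hjx
        rw [h1, h2] at hc
        exact hc hy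
      have h1 := (hmove j x hx).1
      rw [hjx] at h1
      have h2 : i = j := s.injective h1
      subst h2
      refine ⟨⟨x, hx⟩, ?_⟩
      apply Subtype.ext
      show (σ (i, x)).2 = y
      rw [hjx]
  obtain ⟨e, he⟩ : ∃ e : ∀ i, BEquiv (B i) (dom σ i) (dom σ (s i)),
      ∀ i (x : dom σ i), ((e i).1 x : Fin k) = (σ (i, x)).2 :=
    ⟨fun i => ⟨Equiv.ofBijective (g i) (hg i), fun x => by
      rw [Equiv.ofBijective_apply]
      exact (hmove i x x.2).2⟩, fun i x => by rw [Equiv.ofBijective_apply]⟩
  refine ⟨e, ?_⟩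
  ext1 ⟨i, x⟩
  by_cases h : x ∈ dom σ i
  · rw [glueP_mem B hs (dom σ) e h]
    apply Prod.ext
    · exact (hmove i x h).1.symm
    · exact he i ⟨x, h⟩
  · rw [glueP_notMem B hs (dom σ) e h, hfix i x h]

include hs in
/-- The number of permutations with prescribed moved points. -/
theorem card_fibre (D : ι → Finset (Fin k)) :
    Nat.card {σ : Perm (ι × Fin k) // IsPerm (Arc s B) σ ∧ dom σ = D} =
      ∏ i, Fintype.card (BEquiv (B i) (D i) (D (s i))) := by
  classical
  rw [← Fintype.card_pi, ← Nat.card_eq_fintype_card]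
  symm
  apply Nat.card_eq_of_bijective (fun e : (∀ i, BEquiv (B i) (D i) (D (s i))) =>
    (⟨glueP B hs D e, glueP_isPerm B hs D e, funext (dom_glueP B hs D e)⟩ :
      {σ : Perm (ι × Fin k) // IsPerm (Arc s B) σ ∧ dom σ = D}))
  constructor
  · intro e e' h
    have h1 := congrArg Subtype.val h
    simp only at h1
    funext i
    apply Subtype.ext
    ext ⟨x, hx⟩
    have h2 := glueP_mem B hs D e hx
    rw [h1, glueP_mem B hs D e' hx] at h2
    have h3 := congrArg Prod.snd h2
    simp only at h3
    rw [h3]
  · rintro ⟨σ, hσ, hD⟩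
    subst hD
    obtain ⟨e, he⟩ := exists_glue B hs σ hσ
    exact ⟨e, Subtype.ext he⟩

include hs in
/-- The number of permutations. -/
theorem card_perms :
    Nat.card {σ : Perm (ι × Fin k) // IsPerm (Arc s B) σ} =
      ∑ D : ι → Finset (Fin k), ∏ i, Fintype.card (BEquiv (B i) (D i) (D (s i))) := by
  classical
  rw [Finset.sum_congr rfl (fun D _ => (card_fibre B hs D).symm)]
  rw [Nat.card_eq_fintype_card, Fintype.card_subtype]
  rw [Finset.card_eq_sum_card_fiberwise (f := fun σ => dom σ) (t := univ)
    (fun _ _ => mem_univ _)]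
  apply Finset.sum_congr rfl
  intro D _
  rw [Nat.card_eq_fintype_card, Fintype.card_subtype]
  congr 1
  ext σ
  simp only [mem_filter, mem_univ, true_and]

include hs in
/-- The number of derangements. -/
theorem card_ders :
    Nat.card {σ : Perm (ι × Fin k) // IsDer (Arc s B) σ} =
      ∏ i, Fintype.card (BEquiv (B i) univ univ) := by
  classical
  have h1 := card_fibre B hs (fun _ => univ)
  rw [← h1]
  apply Nat.card_congr
  apply Equiv.subtypeEquivRight
  intro σ
  constructor
  · intro h
    refine ⟨fun v => Or.inr (h v), ?_⟩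
    funext i
    ext x
    simp only [dom, mem_filter, mem_univ, true_and, iff_true]
    intro hc
    have h2 := (h (i, x)).1
    rw [hc] at h2
    exact hs i h2.symm
  · rintro ⟨h2, h3⟩ ⟨i, x⟩
    rcases h2 (i, x) with h4 | h4
    · exfalso
      have h5 := congrFun h3 i
      have h6 : x ∈ dom σ i := by
        rw [h5]
        exact mem_univ _
      unfold dom at h6
      rw [mem_filter] at h6
      exact h6.2 h4
    · exact h4

end

/-- The whole board. -/
theorem card_full {k : ℕ} (S T : Finset (Fin k)) :
    Fintype.card (BEquiv (fun _ _ => True) S T) =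
      if S.card = T.card then S.card.factorial else 0 := by
  classical
  have h1 : Fintype.card (BEquiv (fun _ _ => True) S T) = Fintype.card (S ≃ T) := by
    apply Fintype.card_congr
    exact Equiv.subtypeUnivEquiv (fun _ _ => trivial)
  rw [h1]
  split_ifs with h
  · have h2 : Fintype.card S = Fintype.card T := by
      rw [Fintype.card_coe, Fintype.card_coe, h]
    rw [Fintype.card_equiv (Fintype.equivOfCardEq h2), Fintype.card_coe]
  · rw [Fintype.card_eq_zero_iff]
    constructor
    intro e
    apply h
    have := Fintype.card_congr e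
    rwa [Fintype.card_coe, Fintype.card_coe] at this

end Q165.Layer
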