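import Pool.Agent.Q165.LayerCount

set_option autoImplicit false

/-!
# The board without a rectangle
-/

namespace Q165.Layer

open Equiv Finset Filter Topology

variable {k : ℕ}

/-- Partial bijections of size `k`. -/
theorem M_top_perm (b : Fin k → Fin k → Prop) :
    M b k = Nat.card {π : Perm (Fin k) // ∀ x, b x (π x)} := by
  classical
  rw [M_top, ← Nat.card_eq_fintype_card]
  unfold BEquiv
  let f : ((univ : Finset (Fin k)) : Type) ≃ Fin k := Equiv.subtypeUnivEquiv (fun x => mem_univ x)
  apply Nat.card_congr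
  refine ((Equiv.equivCongr f f).subtypeEquiv ?_)
  intro e
  constructor
  · intro h x
    exact h ⟨x, mem_univ x⟩
  · intro h x
    exact h x

theorem card_sub_one (S : Finset (Fin k)) (hk : 1 ≤ k) (hS : S.card = k - 1) :
    ∃ x, S = univ.erase x := by
  classical
  have h1 : Sᶜ.card = 1 := by
    rw [Finset.card_compl, Fintype.card_fin, hS]
    omega
  obtain ⟨x, hx⟩ := Finset.card_eq_one.mp h1
  refine ⟨x, ?_⟩
  rw [← compl_compl S, hx]
  ext y
  simp

/-- Partial bijections missing `x` and `x'` are permutations taking `x` to `x'`. -/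
theorem card_erase (b : Fin k → Fin k → Prop) (x x' : Fin k) :
    Fintype.card (BEquiv b (univ.erase x) (univ.erase x')) =
      Nat.card {π : Perm (Fin k) // π x = x' ∧ ∀ y, y ≠ x → b y (π y)} := by
  classical
  rw [← Nat.card_eq_fintype_card]
  symm
  apply Nat.card_eq_of_bijective (fun π : {π : Perm (Fin k) // π x = x' ∧
      ∀ y, y ≠ x → b y (π y)} =>
    (⟨π.1.subtypeEquiv (fun a => by
      rw [Finset.mem_erase, Finset.mem_erase]
      have h0 : π.1 a ≠ x' ↔ a ≠ x := by
        constructor
        · rintro h rfl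
          exact h π.2.1
        · intro h hc
          exact h (π.1.injective (hc.trans π.2.1.symm))
      simp [h0]), fun y => π.2.2 y (Finset.ne_of_mem_erase y.2)⟩ :
        BEquiv b (univ.erase x) (univ.erase x')))
  constructor
  · rintro ⟨π, h1, h2⟩ ⟨ρ, h3, h4⟩ h
    apply Subtype.ext
    ext1 y
    by_cases hy : y = x
    · subst hy
      show π y = ρ y
      rw [h1, h3]
    · have h5 := congrArg (fun e : BEquiv b (univ.erase x) (univ.erase x') =>
        (e.1 ⟨y, Finset.mem_erase.mpr ⟨hy, mem_univ y⟩⟩ : Fin k)) h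
      exact h5
  · rintro ⟨e, he⟩
    let g : Fin k → Fin k := fun y => if h : y = x then x' else
      (e ⟨y, Finset.mem_erase.mpr ⟨h, mem_univ y⟩⟩ : Fin k)
    have hgx : g x = x' := dif_pos rfl
    have hgy : ∀ y (h : y ≠ x), g y = (e ⟨y, Finset.mem_erase.mpr ⟨h, mem_univ y⟩⟩ : Fin k) :=
      fun y h => dif_neg h
    have hg : Function.Injective g := by
      intro y z h
      by_cases hy : y = x <;> by_cases hz : z = x
      · rw [hy, hz]
      · rw [hy, hgx, hgy z hz] at h
        exact absurd h.symm (Finset.ne_of_mem_erase (e _).2)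
      · rw [hz, hgx, hgy y hy] at h
        exact absurd h (Finset.ne_of_mem_erase (e _).2)
      · rw [hgy y hy, hgy z hz] at h
        have := e.injective (Subtype.ext h)
        exact congrArg Subtype.val this
    refine ⟨⟨Equiv.ofBijective g (Finite.injective_iff_bijective.mp hg), hgx, ?_⟩, ?_⟩
    · intro y hy
      rw [Equiv.ofBijective_apply, hgy y hy]
      exact he ⟨y, _⟩
    · apply Subtype.ext
      ext1 ⟨y, hy⟩
      apply Subtype.ext
      have := hgy y (Finset.ne_of_mem_erase hy)
      exact this

/-- Partial bijections of size `k - 1`. -/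
theorem M_pred_perm (b : Fin k → Fin k → Prop) (hk : 1 ≤ k) :
    M b (k - 1) = Nat.card {p : Fin k × Perm (Fin k) // ∀ y, y ≠ p.1 → b y (p.2 y)} := by
  classical
  unfold M
  have herase : ∀ x : Fin k, (univ.erase x).card = k - 1 := by
    intro x
    rw [Finset.card_erase_of_mem (mem_univ x), card_univ, Fintype.card_fin]
  have hinj : Function.Injective (fun x : Fin k => (univ : Finset (Fin k)).erase x) := by
    intro x y h
    by_contra hne
    have h1 : x ∈ (univ : Finset (Fin k)).erase y := Finset.mem_erase.mpr ⟨hne, mem_univ x⟩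
    have h2 : (univ : Finset (Fin k)).erase x = univ.erase y := h
    rw [← h2] at h1
    exact absurd rfl (Finset.ne_of_mem_erase h1)
  have h1 : ∀ g : Finset (Fin k) → ℕ, ∑ S : Finset (Fin k), (if S.card = k - 1 then g S else 0) =
      ∑ x : Fin k, g (univ.erase x) := by
    intro g
    rw [← Finset.sum_filter]
    symm
    apply Finset.sum_bij (fun x _ => univ.erase x)
    · intro x _
      rw [mem_filter]
      exact ⟨mem_univ _, herase x⟩
    · intro x _ y _ h
      exact hinj h
    · intro S hS
      rw [mem_filter] at hS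
      obtain ⟨x, hx⟩ := card_sub_one S hk hS.2
      exact ⟨x, mem_univ _, hx.symm⟩
    · intro x _
      rfl
  have h2 : ∑ S : Finset (Fin k), ∑ T : Finset (Fin k),
      (if S.card = k - 1 ∧ T.card = k - 1 then Fintype.card (BEquiv b S T) else 0) =
      ∑ S : Finset (Fin k), (if S.card = k - 1 then ∑ T : Finset (Fin k),
        (if T.card = k - 1 then Fintype.card (BEquiv b S T) else 0) else 0) := by
    apply Finset.sum_congr rfl
    intro S _
    split_ifs with h
    · apply Finset.sum_congr rfl
      intro T _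
      exact if_congr (and_iff_right h) rfl rfl
    · apply Finset.sum_eq_zero
      intro T _
      rw [if_neg (fun h' => h h'.1)]
  rw [h2, h1]
  have h3 : ∀ x : Fin k, ∑ T : Finset (Fin k),
      (if T.card = k - 1 then Fintype.card (BEquiv b (univ.erase x) T) else 0) =
      Nat.card {π : Perm (Fin k) // ∀ y, y ≠ x → b y (π y)} := by
    intro x
    rw [h1 (fun T => Fintype.card (BEquiv b (univ.erase x) T)),
      Finset.sum_congr rfl (fun x' _ => card_erase b x x')]
    rw [Nat.card_eq_fintype_card, Fintype.card_subtype,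
      Finset.card_eq_sum_card_fiberwise (f := fun π : Perm (Fin k) => π x) (t := univ)
        (fun _ _ => mem_univ _)]
    apply Finset.sum_congr rfl
    intro x' _
    rw [Nat.card_eq_fintype_card, Fintype.card_subtype]
    congr 1
    ext π
    simp only [mem_filter, mem_univ, true_and]
    exact and_comm
  rw [Finset.sum_congr rfl (fun x _ => h3 x)]
  have e : {p : Fin k × Perm (Fin k) // ∀ y, y ≠ p.1 → b y (p.2 y)} ≃
      Σ x : Fin k, {π : Perm (Fin k) // ∀ y, y ≠ x → b y (π y)} :=
    { toFun := fun p => ⟨p.1.1, p.1.2, p.2⟩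
      invFun := fun q => ⟨(q.1, q.2.1), q.2.2⟩
      left_inv := fun _ => rfl
      right_inv := fun _ => rfl }
  rw [Nat.card_congr e, Nat.card_sigma]

/-- The board without the rectangle `A × Z`. -/
def rect (A Z : Finset (Fin k)) (x y : Fin k) : Prop := ¬ (x ∈ A ∧ y ∈ Z)

/-- Permutations with no entry in the rectangle. -/
def P0 (A Z : Finset (Fin k)) : Finset (Perm (Fin k)) :=
  univ.filter (fun π => ∀ x ∈ A, π x ∉ Z)

/-- Permutations with exactly one entry in the rectangle, at `y`. -/
def P1 (A Z : Finset (Fin k)) : Finset (Fin k × Perm (Fin k)) :=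
  univ.filter (fun p => p.1 ∈ A ∧ p.2 p.1 ∈ Z ∧ ∀ x ∈ A, x ≠ p.1 → p.2 x ∉ Z)

theorem M_top_rect (A Z : Finset (Fin k)) : M (rect A Z) k = (P0 A Z).card := by
  classical
  rw [M_top_perm, Nat.card_eq_fintype_card, Fintype.card_subtype]
  unfold P0 rect
  congr 1
  ext π
  simp only [mem_filter, mem_univ, true_and, not_and]

theorem M_pred_rect (A Z : Finset (Fin k)) (hk : 1 ≤ k) :
    M (rect A Z) (k - 1) = k * (P0 A Z).card + (P1 A Z).card := by
  classical
  rw [M_pred_perm _ hk, Nat.card_eq_fintype_card, Fintype.card_subtype]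
  have h1 : (univ.filter (fun p : Fin k × Perm (Fin k) => ∀ y, y ≠ p.1 → rect A Z y (p.2 y))) =
      ((univ : Finset (Fin k)) ×ˢ P0 A Z) ∪ P1 A Z := by
    ext ⟨x, π⟩
    simp only [mem_filter, mem_univ, true_and, mem_union, Finset.mem_product, P0, P1, rect, not_and]
    constructor
    · intro h
      by_cases hx : x ∈ A ∧ π x ∈ Z
      · exact Or.inr ⟨hx.1, hx.2, fun y hy hyx => h y hyx hy⟩
      · left
        intro y hy hyZ
        by_cases hyx : y = x
        · subst hyx
          exact hx ⟨hy, hyZ⟩
        · exact h y hyx hy hyZ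
    · rintro (h | ⟨h1, h2, h3⟩) y hyx hy
      · exact h y hy
      · exact h3 y hy hyx
  have h2 : Disjoint ((univ : Finset (Fin k)) ×ˢ P0 A Z) (P1 A Z) := by
    rw [Finset.disjoint_left]
    rintro ⟨x, π⟩ h3 h4
    simp only [mem_filter, mem_univ, true_and, Finset.mem_product, P0, P1] at h3 h4
    exact h3 x h4.1 h4.2.1
  rw [h1, Finset.card_union_of_disjoint h2, Finset.card_product, card_univ, Fintype.card_fin]

/-- Double counting. -/
theorem P1_mul (A Z : Finset (Fin k)) (r : ℕ) (hr : A.card + Z.card + r = k + 1) :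
    (P1 A Z).card * r = (P0 A Z).card * (A.card * Z.card) := by
  classical
  -- the set `X` of triples `((y, π), w)`
  let X : Finset ((Fin k × Perm (Fin k)) × Fin k) :=
    univ.filter (fun q => q.1 ∈ P1 A Z ∧ q.2 ∉ A ∧ q.1.2 q.2 ∉ Z)
  let Y : Finset (Perm (Fin k) × (Fin k × Fin k)) :=
    univ.filter (fun q => q.1 ∈ P0 A Z ∧ q.2.1 ∈ A ∧ q.1 q.2.2 ∈ Z)
  have hX : X.card = (P1 A Z).card * r := by
    have h1 : X.card = ∑ q ∈ P1 A Z, (univ.filter (fun w => w ∉ A ∧ q.2 w ∉ Z)).card := by
      rw [Finset.card_eq_sum_card_fiberwise (f := Prod.fst) (t := P1 A Z)]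
      · apply Finset.sum_congr rfl
        intro q hq
        refine Finset.card_bij' (fun p _ => p.2) (fun w _ => (q, w)) ?_ ?_ ?_ ?_
        · intro p hp
          simp only [X, mem_filter, mem_univ, true_and] at hp ⊢
          rw [hp.2] at hp
          exact hp.1.2
        · intro w hw
          simp only [X, mem_filter, mem_univ, true_and] at hw ⊢
          exact ⟨⟨hq, hw⟩, trivial⟩
        · rintro ⟨p1, p2⟩ hp
          simp only [X, mem_filter, mem_univ, true_and] at hp ⊢
          rw [hp.2]
        · intro w _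
          rfl
      · intro q hq
        simp only [X, coe_filter, mem_univ, true_and, Set.mem_ofPred_eq] at hq
        exact hq.1
    rw [h1, Finset.sum_const_nat (m := r)]
    rintro ⟨y, π⟩ hq
    simp only [P1, mem_filter, mem_univ, true_and] at hq
    obtain ⟨hy, hyZ, hrest⟩ := hq
    have h2 : (univ.filter (fun w => π w ∈ Z)).card = Z.card := by
      apply Finset.card_bij (fun w _ => π w)
      · intro w hw
        exact (mem_filter.mp hw).2
      · intro _ _ _ _ h
        exact π.injective h
      · intro z hz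
        exact ⟨π.symm z, by simp [hz], by simp⟩
    -- complement of the wanted set is `A ∪ π⁻¹ Z`, which meet in `y`
    have h3 : univ.filter (fun w => w ∉ A ∧ π w ∉ Z) = (A ∪ univ.filter (fun w => π w ∈ Z))ᶜ := by
      ext w
      simp only [mem_filter, mem_univ, true_and, mem_compl, mem_union, not_or]
    have h4 : A ∩ univ.filter (fun w => π w ∈ Z) = {y} := by
      ext w
      simp only [mem_inter, mem_filter, mem_univ, true_and, mem_singleton]
      constructor
      · rintro ⟨h5, h6⟩
        by_contra hne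
        exact hrest w h5 hne h6
      · rintro rfl
        exact ⟨hy, hyZ⟩
    have h5 := Finset.card_union_add_card_inter A (univ.filter (fun w => π w ∈ Z))
    rw [h4, Finset.card_singleton, h2] at h5
    show (univ.filter (fun w => w ∉ A ∧ π w ∉ Z)).card = r
    rw [h3, Finset.card_compl, Fintype.card_fin]
    omega
  have hY : Y.card = (P0 A Z).card * (A.card * Z.card) := by
    have h1 : Y.card = ∑ π ∈ P0 A Z,
        (univ.filter (fun q : Fin k × Fin k => q.1 ∈ A ∧ π q.2 ∈ Z)).card := by
      rw [Finset.card_eq_sum_card_fiberwise (f := Prod.fst) (t := P0 A Z)]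
      · apply Finset.sum_congr rfl
        intro π hπ
        refine Finset.card_bij' (fun p _ => p.2) (fun w _ => (π, w)) ?_ ?_ ?_ ?_
        · intro p hp
          simp only [Y, mem_filter, mem_univ, true_and] at hp ⊢
          rw [hp.2] at hp
          exact hp.1.2
        · intro w hw
          simp only [Y, mem_filter, mem_univ, true_and] at hw ⊢
          exact ⟨⟨hπ, hw⟩, trivial⟩
        · rintro ⟨p1, p2⟩ hp
          simp only [Y, mem_filter, mem_univ, true_and] at hp ⊢
          rw [hp.2]
        · intro w _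
          rfl
      · intro q hq
        simp only [Y, coe_filter, mem_univ, true_and, Set.mem_ofPred_eq] at hq
        exact hq.1
    rw [h1, Finset.sum_const_nat (m := A.card * Z.card)]
    intro π _
    have h2 : (univ.filter (fun w => π w ∈ Z)).card = Z.card := by
      apply Finset.card_bij (fun w _ => π w)
      · intro w hw
        exact (mem_filter.mp hw).2
      · intro _ _ _ _ h
        exact π.injective h
      · intro z hz
        exact ⟨π.symm z, by simp [hz], by simp⟩
    have h3 : univ.filter (fun q : Fin k × Fin k => q.1 ∈ A ∧ π q.2 ∈ Z) =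
        A ×ˢ univ.filter (fun w => π w ∈ Z) := by
      ext q
      simp only [mem_filter, mem_univ, true_and, Finset.mem_product]
    rw [h3, Finset.card_product, h2]
  rw [← hX, ← hY]
  refine Finset.card_bij' (fun q _ => (q.1.2 * swap q.1.1 q.2, (q.1.1, q.2)))
    (fun q _ => ((q.2.1, q.1 * swap q.2.1 q.2.2), q.2.2)) ?_ ?_ ?_ ?_
  · rintro ⟨⟨y, π⟩, w⟩ hq
    simp only [X, Y, P0, P1, mem_filter, mem_univ, true_and] at hq ⊢
    obtain ⟨⟨hy, hyZ, hrest⟩, hw, hwZ⟩ := hq
    refine ⟨?_, hy, ?_⟩
    · intro x hx
      rw [Perm.mul_apply]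
      by_cases hxy : x = y
      · rw [hxy, swap_apply_left]
        exact hwZ
      · have hxw : x ≠ w := fun h => hw (h ▸ hx)
        rw [swap_apply_of_ne_of_ne hxy hxw]
        exact hrest x hx hxy
    · rw [Perm.mul_apply, swap_apply_right]
      exact hyZ
  · rintro ⟨π, ⟨y, w⟩⟩ hq
    simp only [X, Y, P0, P1, mem_filter, mem_univ, true_and] at hq ⊢
    obtain ⟨h0, hy, hwZ⟩ := hq
    have hwA : w ∉ A := fun h => h0 w h hwZ
    refine ⟨⟨hy, ?_, ?_⟩, hwA, ?_⟩
    · rw [Perm.mul_apply, swap_apply_left]
      exact hwZ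
    · intro x hx hxy
      have hxw : x ≠ w := fun h => hwA (h ▸ hx)
      rw [Perm.mul_apply, swap_apply_of_ne_of_ne hxy hxw]
      exact h0 x hx
    · rw [Perm.mul_apply, swap_apply_right]
      exact h0 y hy
  · rintro ⟨⟨y, π⟩, w⟩ _
    simp only [mul_assoc, swap_mul_self, mul_one]
  · rintro ⟨π, ⟨y, w⟩⟩ _
    simp only [mul_assoc, swap_mul_self, mul_one]

end Q165.Layer
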