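import Pool.Agent.Q165.Layer

set_option autoImplicit false

/-!
# Counting on layered digraphs with one special board
-/

namespace Q165.Layer

open Equiv Finset Filter Topology

/-- The boards: `b` between the layers `0` and `1`, everything elsewhere. -/
def boards (L : ℕ) {k : ℕ} (b : Fin k → Fin k → Prop) (i : Fin (L + 2)) :
    Fin k → Fin k → Prop := if i = 0 then b else fun _ _ => True

theorem rotate_ne (L : ℕ) (i : Fin (L + 2)) : finRotate (L + 2) i ≠ i := by
  rw [finRotate_apply]
  intro h
  have h1 : (1 : Fin (L + 2)) = 0 := by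
    have := congrArg (fun x => x - i) h
    simp at this
  have := congrArg Fin.val h1
  simp at this

variable {k : ℕ} (b : Fin k → Fin k → Prop)

/-- The number of partial bijections of size `j` in the board. -/
noncomputable def M (j : ℕ) : ℕ :=
  ∑ S : Finset (Fin k), ∑ T : Finset (Fin k),
    if S.card = j ∧ T.card = j then Fintype.card (BEquiv b S T) else 0

theorem card_BEquiv_ne {S T : Finset (Fin k)} (h : Fintype.card (BEquiv b S T) ≠ 0) :
    S.card = T.card := by
  have h1 : Nonempty (BEquiv b S T) := Fintype.card_pos_iff.mp (Nat.pos_of_ne_zero h)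
  obtain ⟨e, -⟩ := h1
  have := Fintype.card_congr e
  rwa [Fintype.card_coe, Fintype.card_coe] at this

theorem prod_eq (L : ℕ) (D : Fin (L + 2) → Finset (Fin k)) :
    ∏ i, Fintype.card (BEquiv (boards L b i) (D i) (D (finRotate (L + 2) i))) =
      ∑ j ∈ range (k + 1), if ∀ i, (D i).card = j then
        j.factorial ^ (L + 1) * Fintype.card (BEquiv b (D 0) (D 1)) else 0 := by
  classical
  have h01 : finRotate (L + 2) 0 = 1 := by
    rw [finRotate_apply, zero_add]
  have hcard : ∀ i, (D i).card < k + 1 := by
    intro i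
    have := Finset.card_le_univ (D i)
    rw [Fintype.card_fin] at this
    omega
  by_cases hD : ∀ i, (D i).card = (D 0).card
  · rw [Finset.sum_eq_single_of_mem (D 0).card (mem_range.mpr (hcard 0))]
    · rw [if_pos hD, Fin.prod_univ_succ]
      have h1 : boards L b 0 = b := if_pos rfl
      rw [h1, h01, mul_comm]
      congr 1
      have h2 : ∀ i : Fin (L + 1), Fintype.card (BEquiv (boards L b i.succ) (D i.succ)
          (D (finRotate (L + 2) i.succ))) = (D 0).card.factorial := by
        intro i
        have h3 : boards L b i.succ = fun _ _ => True := if_neg (Fin.succ_ne_zero i)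
        rw [h3, card_full, if_pos (by rw [hD, hD (finRotate (L + 2) i.succ)]), hD]
      rw [Finset.prod_congr rfl (fun i _ => h2 i), Finset.prod_const, card_univ, Fintype.card_fin]
    · intro j _ hj
      rw [if_neg]
      intro h
      exact hj (h 0).symm
  · have hzero : ∀ j ∈ range (k + 1), (if ∀ i, (D i).card = j then
        j.factorial ^ (L + 1) * Fintype.card (BEquiv b (D 0) (D 1)) else 0) = 0 := by
      intro j _
      rw [if_neg]
      intro h
      apply hD
      intro i
      rw [h i, h 0]
    rw [Finset.sum_eq_zero hzero]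
    by_contra hne
    have hne' := Finset.prod_ne_zero_iff.mp hne
    apply hD
    have hstep : ∀ i : Fin (L + 2), (D i).card = (D (i + 1)).card := by
      intro i
      have h1 := hne' i (mem_univ _)
      rw [finRotate_apply] at h1
      exact card_BEquiv_ne _ h1
    intro i
    induction i using Fin.induction with
    | zero => rfl
    | succ i ih =>
      rw [← Fin.coeSucc_eq_succ, ← hstep, ih]

theorem sum_const (L : ℕ) (j : ℕ) (g : Finset (Fin k) → Finset (Fin k) → ℕ) :
    ∑ D : Fin (L + 2) → Finset (Fin k), (if ∀ i, (D i).card = j then g (D 0) (D 1) else 0) =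
      (k.choose j) ^ L * ∑ S : Finset (Fin k), ∑ T : Finset (Fin k),
        if S.card = j ∧ T.card = j then g S T else 0 := by
  classical
  rw [← (Fin.consEquiv (fun _ : Fin (L + 2) => Finset (Fin k))).sum_comp, Fintype.sum_prod_type,
    Finset.mul_sum]
  apply Finset.sum_congr rfl
  intro S _
  rw [← (Fin.consEquiv (fun _ : Fin (L + 1) => Finset (Fin k))).sum_comp, Fintype.sum_prod_type,
    Finset.mul_sum]
  apply Finset.sum_congr rfl
  intro T _
  have h1 : ∀ D : Fin L → Finset (Fin k),
      (if ∀ i, ((Fin.consEquiv (fun _ : Fin (L + 2) => Finset (Fin k)))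
        (S, (Fin.consEquiv (fun _ : Fin (L + 1) => Finset (Fin k))) (T, D)) i).card = j then
        g ((Fin.consEquiv (fun _ : Fin (L + 2) => Finset (Fin k)))
        (S, (Fin.consEquiv (fun _ : Fin (L + 1) => Finset (Fin k))) (T, D)) 0)
        ((Fin.consEquiv (fun _ : Fin (L + 2) => Finset (Fin k)))
        (S, (Fin.consEquiv (fun _ : Fin (L + 1) => Finset (Fin k))) (T, D)) 1) else 0) =
      (if S.card = j ∧ T.card = j then g S T else 0) * (if ∀ i, (D i).card = j then 1 else 0) := by
    intro D
    have e0 : (Fin.consEquiv (fun _ : Fin (L + 2) => Finset (Fin k)))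
        (S, (Fin.consEquiv (fun _ : Fin (L + 1) => Finset (Fin k))) (T, D)) 0 = S := rfl
    have e1 : (Fin.consEquiv (fun _ : Fin (L + 2) => Finset (Fin k)))
        (S, (Fin.consEquiv (fun _ : Fin (L + 1) => Finset (Fin k))) (T, D)) 1 = T := rfl
    have e2 : (∀ i, ((Fin.consEquiv (fun _ : Fin (L + 2) => Finset (Fin k)))
        (S, (Fin.consEquiv (fun _ : Fin (L + 1) => Finset (Fin k))) (T, D)) i).card = j) ↔
        (S.card = j ∧ T.card = j) ∧ ∀ i, (D i).card = j := by
      rw [Fin.forall_fin_succ, Fin.forall_fin_succ]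
      constructor
      · rintro ⟨h1, h2, h3⟩
        exact ⟨⟨h1, h2⟩, h3⟩
      · rintro ⟨⟨h1, h2⟩, h3⟩
        exact ⟨h1, h2, h3⟩
    rw [e0, e1]
    by_cases hST : S.card = j ∧ T.card = j <;> by_cases hDj : ∀ i, (D i).card = j
    · rw [if_pos (e2.mpr ⟨hST, hDj⟩), if_pos hST, if_pos hDj, mul_one]
    · rw [if_neg (fun h => hDj (e2.mp h).2), if_neg hDj, mul_zero]
    · rw [if_neg (fun h => hST (e2.mp h).1), if_neg hST, zero_mul]
    · rw [if_neg (fun h => hST (e2.mp h).1), if_neg hST, zero_mul]
  rw [Finset.sum_congr rfl (fun D _ => h1 D), ← Finset.mul_sum, mul_comm]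
  congr 1
  have h2 : ∑ D : Fin L → Finset (Fin k), (if ∀ i, (D i).card = j then 1 else 0) =
      (Fintype.piFinset (fun _ : Fin L => Finset.powersetCard j (univ : Finset (Fin k)))).card := by
    rw [Finset.sum_boole, Nat.cast_id]
    congr 1
    ext D
    simp [Fintype.mem_piFinset, Finset.mem_powersetCard]
  rw [h2, Fintype.card_piFinset, Finset.prod_const, card_univ, Fintype.card_fin,
    Finset.card_powersetCard, card_univ, Fintype.card_fin]

/-- The number of permutations of the layered digraph. -/
theorem perms_eq (L : ℕ) :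
    Nat.card {σ : Perm (Fin (L + 2) × Fin k) // IsPerm (Arc (finRotate (L + 2)) (boards L b)) σ} =
      ∑ j ∈ range (k + 1), j.factorial ^ (L + 1) * ((k.choose j) ^ L * M b j) := by
  classical
  rw [card_perms (boards L b) (rotate_ne L), Finset.sum_congr rfl (fun D _ => prod_eq b L D),
    Finset.sum_comm]
  apply Finset.sum_congr rfl
  intro j _
  have h1 := sum_const (k := k) L j (fun S T => j.factorial ^ (L + 1) * Fintype.card (BEquiv b S T))
  rw [h1]
  unfold M
  rw [Finset.mul_sum, Finset.mul_sum, Finset.mul_sum]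
  apply Finset.sum_congr rfl
  intro S _
  rw [Finset.mul_sum, Finset.mul_sum, Finset.mul_sum]
  apply Finset.sum_congr rfl
  intro T _
  split_ifs
  · ring
  · simp

theorem M_top : M b k = Fintype.card (BEquiv b univ univ) := by
  classical
  unfold M
  have h1 : ∀ S : Finset (Fin k), S.card = k ↔ S = univ := by
    intro S
    rw [← Finset.card_eq_iff_eq_univ, Fintype.card_fin]
  rw [Finset.sum_eq_single univ, Finset.sum_eq_single univ]
  · rw [if_pos ⟨(h1 _).mpr rfl, (h1 _).mpr rfl⟩]
  · intro T _ hT
    rw [if_neg]
    rintro ⟨-, h2⟩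
    exact hT ((h1 _).mp h2)
  · intro h
    exact absurd (mem_univ _) h
  · intro S _ hS
    apply Finset.sum_eq_zero
    intro T _
    rw [if_neg]
    rintro ⟨h2, -⟩
    exact hS ((h1 _).mp h2)
  · intro h
    exact absurd (mem_univ _) h

/-- The number of derangements of the layered digraph. -/
theorem ders_eq (L : ℕ) :
    Nat.card {σ : Perm (Fin (L + 2) × Fin k) // IsDer (Arc (finRotate (L + 2)) (boards L b)) σ} =
      k.factorial ^ (L + 1) * M b k := by
  classical
  rw [card_ders (boards L b) (rotate_ne L), Fin.prod_univ_succ, M_top]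
  have h1 : boards L b 0 = b := if_pos rfl
  rw [h1, mul_comm]
  congr 1
  have h2 : ∀ i : Fin (L + 1), Fintype.card (BEquiv (boards L b i.succ)
      (univ : Finset (Fin k)) univ) = k.factorial := by
    intro i
    have h3 : boards L b i.succ = fun _ _ => True := if_neg (Fin.succ_ne_zero i)
    rw [h3, card_full, if_pos rfl, card_univ, Fintype.card_fin]
  rw [Finset.prod_congr rfl (fun i _ => h2 i), Finset.prod_const, card_univ, Fintype.card_fin]

/-- The ratio of permutations to derangements converges as the number of layers grows. -/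
theorem ratio_tendsto (hk : 1 ≤ k) (hm : 0 < M b k) :
    Tendsto (fun L : ℕ =>
      (Nat.card {σ : Perm (Fin (L + 2) × Fin k) //
        IsPerm (Arc (finRotate (L + 2)) (boards L b)) σ} : ℝ) /
      (Nat.card {σ : Perm (Fin (L + 2) × Fin k) //
        IsDer (Arc (finRotate (L + 2)) (boards L b)) σ} : ℝ)) atTop
      (𝓝 (1 + (M b (k - 1) : ℝ) / (k * M b k))) := by
  have hm' : (0 : ℝ) < M b k := by exact_mod_cast hm
  have hkf : (0 : ℝ) < k.factorial := by exact_mod_cast Nat.factorial_pos k
  have hk0 : (0 : ℝ) < k := by exact_mod_cast hk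
  have h1 : ∀ L : ℕ, (Nat.card {σ : Perm (Fin (L + 2) × Fin k) //
        IsPerm (Arc (finRotate (L + 2)) (boards L b)) σ} : ℝ) /
      (Nat.card {σ : Perm (Fin (L + 2) × Fin k) //
        IsDer (Arc (finRotate (L + 2)) (boards L b)) σ} : ℝ) =
      ∑ j ∈ range (k + 1), (1 / ((k - j).factorial : ℝ)) ^ L *
        (j.factorial * M b j / (k.factorial * M b k)) := by
    intro L
    rw [perms_eq, ders_eq]
    push_cast
    rw [Finset.sum_div]
    apply Finset.sum_congr rfl
    intro j hj
    rw [mem_range] at hj
    have hjk : j ≤ k := by omega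
    have h2 : (k.choose j : ℝ) * j.factorial * (k - j).factorial = k.factorial := by
      exact_mod_cast Nat.choose_mul_factorial_mul_factorial hjk
    have h3 : (0 : ℝ) < (k - j).factorial := by exact_mod_cast Nat.factorial_pos _
    have h4 : (j.factorial : ℝ) * k.choose j = k.factorial / (k - j).factorial := by
      rw [eq_div_iff h3.ne']
      linarith
    have h5 : (j.factorial : ℝ) ^ (L + 1) * ((k.choose j : ℝ) ^ L * (M b j : ℝ)) =
        (k.factorial / (k - j).factorial) ^ L * (j.factorial * M b j) := by
      rw [← h4, mul_pow, pow_succ]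
      ring
    rw [h5, div_pow, one_div_pow, pow_succ]
    field_simp
  simp_rw [h1]
  have hlim : ∀ j ∈ range (k + 1), Tendsto (fun L : ℕ => (1 / ((k - j).factorial : ℝ)) ^ L *
        ((j.factorial : ℝ) * M b j / (k.factorial * M b k))) atTop
        (𝓝 ((if k ≤ j + 1 then 1 else 0) *
          ((j.factorial : ℝ) * M b j / (k.factorial * M b k)))) := by
    intro j hj
    apply Tendsto.mul_const
    split_ifs with h
    · have h2 : (k - j).factorial = 1 := by
        rw [Nat.factorial_eq_one]
        omega
      refine tendsto_const_nhds.congr ?_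
      intro L
      rw [h2]
      simp
    · apply tendsto_pow_atTop_nhds_zero_of_lt_one (by positivity)
      have h3 : 1 < (k - j).factorial := by
        rw [Nat.one_lt_factorial]
        omega
      rw [div_lt_one (by positivity)]
      exact_mod_cast h3
  have h6 := tendsto_finsetSum (range (k + 1)) hlim
  have h7 : ∑ j ∈ range (k + 1), (if k ≤ j + 1 then (1 : ℝ) else 0) *
      ((j.factorial : ℝ) * M b j / (k.factorial * M b k)) =
      1 + (M b (k - 1) : ℝ) / (k * M b k) := by
    obtain ⟨q, rfl⟩ : ∃ q, k = q + 1 := ⟨k - 1, by omega⟩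
    rw [Finset.sum_range_succ, Finset.sum_range_succ]
    have h8 : ∑ j ∈ range q, (if q + 1 ≤ j + 1 then (1 : ℝ) else 0) *
        ((j.factorial : ℝ) * M b j / ((q + 1).factorial * M b (q + 1))) = 0 := by
      apply Finset.sum_eq_zero
      intro j hj
      rw [mem_range] at hj
      rw [if_neg (by omega), zero_mul]
    rw [h8, if_pos (le_refl _), if_pos (by omega), Nat.add_sub_cancel]
    have h9 : ((q + 1).factorial : ℝ) = (q + 1) * q.factorial := by
      rw [Nat.factorial_succ]
      push_cast
      ring
    have h10 : (0 : ℝ) < q.factorial := by exact_mod_cast Nat.factorial_pos q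
    rw [h9]
    push_cast
    field_simp
    ring
  rw [h7] at h6
  exact h6

end Q165.Layer
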