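import Pool.Agent.Q165.PatMoment

set_option autoImplicit false

/-!
# Minimal overlapping permutations with a prescribed first entry
-/

namespace Q165.MinOv

open Equiv Finset Filter Topology

/-- The entry at the position `i` (positions and entries start at `0`; it is `0` outside). -/
def ent {n : ℕ} (τ : Perm (Fin n)) (i : ℕ) : ℕ := if h : i < n then τ ⟨i, h⟩ else 0

/-- The windows `[0, k)` and `[c, c + k)` have the same relative order. -/
def Same {n : ℕ} (τ : Perm (Fin n)) (k c : ℕ) : Prop :=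
  ∀ i < k, ∀ j < k, (ent τ i < ent τ j ↔ ent τ (c + i) < ent τ (c + j))

/-- `τ` is minimal overlapping. -/
def MinOverlap {n : ℕ} (τ : Perm (Fin n)) : Prop :=
  ∀ k, 2 ≤ k → k < n → ¬ Same τ k (n - k)

/-- No overlap of size between `2` and `K`. -/
def NoShort {n : ℕ} (K : ℕ) (τ : Perm (Fin n)) : Prop :=
  ∀ k, 2 ≤ k → k ≤ K → ¬ Same τ k (n - k)

theorem ent_lt {n : ℕ} (τ : Perm (Fin n)) {i : ℕ} (h : i < n) : ent τ i = τ ⟨i, h⟩ := dif_pos h

theorem perm_eq_one {k : ℕ} (g : Fin k → ℕ) (hg : Function.Injective g) (δ : Perm (Fin k))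
    (h : ∀ i j, g i < g j ↔ g (δ i) < g (δ j)) : δ = 1 := by
  by_contra hne
  have hex : ∃ x, ∃ i, g i = x ∧ δ i ≠ i := by
    by_contra hc
    push Not at hc
    apply hne
    ext1 i
    exact hc (g i) i rfl
  classical
  obtain ⟨i, hi1, hi2⟩ := Nat.find_spec hex
  have hmin : ∀ j, g j < g i → δ j = j := by
    intro j hj
    by_contra hjn
    exact Nat.find_min hex (by rw [← hi1]; exact hj) ⟨j, rfl, hjn⟩
  rcases lt_trichotomy (g (δ i)) (g i) with h1 | h1 | h1
  · exact hi2 (δ.injective (hmin _ h1))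
  · exact hi2 (hg h1)
  · have h2 : g (δ.symm i) < g i := by
      rw [h (δ.symm i) i, Equiv.apply_symm_apply]
      exact h1
    have h3 := hmin _ h2
    rw [Equiv.apply_symm_apply] at h3
    rw [← h3] at h2
    exact lt_irrefl _ h2

/-- Few permutations have two disjoint windows with the same relative order. -/
theorem window_bound {N k c : ℕ} (a : Fin (N + 1)) (hk : 1 ≤ k) (hkc : k ≤ c)
    (hc : c + k ≤ N + 1) :
    {τ : Perm (Fin (N + 1)) | τ 0 = a ∧ Same τ k c}.ncard * k.factorial ≤ N.factorial := by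
  classical
  let e : Fin k ↪ Fin (N + 1) := ⟨fun i => ⟨c + i, by omega⟩, by
    intro i j h
    have := congrArg Fin.val h
    simp only at this
    apply Fin.ext
    omega⟩
  have he : ∀ i : Fin k, ((e i : Fin (N + 1)) : ℕ) = c + i := fun i => rfl
  let A : Finset (Perm (Fin (N + 1))) := univ.filter (fun τ => τ 0 = a ∧ Same τ k c)
  let T : Finset (Perm (Fin (N + 1))) :=
    univ.filter (fun τ => (fun u : ({0} : Finset (Fin (N + 1))) => τ u) = fun _ => a)
  have hA : {τ : Perm (Fin (N + 1)) | τ 0 = a ∧ Same τ k c}.ncard = A.card := by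
    rw [← Set.ncard_coe_finset]
    congr 1
    ext τ
    simp [A]
  have hT : T.card ≤ N.factorial := by
    have := Q165.PatClass.card_fixed ({0} : Finset (Fin (N + 1))) (fun _ => a)
    rw [Finset.card_singleton] at this
    exact this
  have hcard : (A ×ˢ (univ : Finset (Perm (Fin k)))).card = A.card * k.factorial := by
    rw [Finset.card_product, card_univ, Fintype.card_perm, Fintype.card_fin]
  rw [hA, ← hcard]
  refine le_trans ?_ hT
  have hfix : ∀ (ρ : Perm (Fin k)) (i : Fin (N + 1)), (i : ℕ) < c → ρ.viaFintypeEmbedding e i = i := by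
    intro ρ i hi
    apply Equiv.Perm.viaFintypeEmbedding_apply_notMem_range
    rintro ⟨j, hj⟩
    have := congrArg Fin.val hj
    rw [he] at this
    omega
  apply Finset.card_le_card_of_injOn (fun x => x.1 * x.2.viaFintypeEmbedding e)
  · rintro ⟨τ, ρ⟩ hx
    simp only [Finset.coe_product, Set.mem_prod, mem_coe, A, mem_filter] at hx
    simp only [T, mem_coe, mem_filter, mem_univ, true_and]
    funext ⟨u, hu⟩
    rw [Finset.mem_singleton] at hu
    subst hu
    simp only [Perm.mul_apply]
    rw [hfix ρ 0 (by simp only [Fin.val_zero]; omega)]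
    exact hx.1.2.1
  · rintro ⟨τ, ρ⟩ hx ⟨τ', ρ'⟩ hx' h
    simp only [Finset.coe_product, Set.mem_prod, mem_coe, A, mem_filter] at hx hx'
    simp only at h
    have hlow : ∀ i : Fin (N + 1), (i : ℕ) < c → τ i = τ' i := by
      intro i hi
      have h1 := congrArg (fun f : Perm (Fin (N + 1)) => f i) h
      simp only [Perm.mul_apply] at h1
      rwa [hfix ρ i hi, hfix ρ' i hi] at h1
    have hmid : ∀ j : Fin k, τ (e (ρ j)) = τ' (e (ρ' j)) := by
      intro j
      have h1 := congrArg (fun f : Perm (Fin (N + 1)) => f (e j)) h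
      simp only [Perm.mul_apply] at h1
      rwa [Equiv.Perm.viaFintypeEmbedding_apply_image,
        Equiv.Perm.viaFintypeEmbedding_apply_image] at h1
    have hentlow : ∀ i < c, ent τ i = ent τ' i := by
      intro i hi
      rw [ent_lt τ (by omega : i < N + 1), ent_lt τ' (by omega : i < N + 1),
        hlow ⟨i, by omega⟩ hi]
    have hent : ∀ (π : Perm (Fin (N + 1))) (j : Fin k), ent π (c + j) = π (e j) := by
      intro π j
      rw [ent_lt π (by omega : c + (j : ℕ) < N + 1)]
      rfl
    -- the relative orders agree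
    have hord : ∀ i j : Fin k, (τ (e i) : ℕ) < τ (e j) ↔ (τ' (e i) : ℕ) < τ' (e j) := by
      intro i j
      have h1 := hx.1.2.2 i i.isLt j j.isLt
      have h2 := hx'.1.2.2 i i.isLt j j.isLt
      rw [hent, hent] at h1 h2
      rw [← h1, ← h2, hentlow i (by omega), hentlow j (by omega)]
    let δ : Perm (Fin k) := ρ * ρ'⁻¹
    have hδ : ∀ j : Fin k, τ' (e j) = τ (e (δ j)) := by
      intro j
      have h1 := hmid (ρ'⁻¹ j)
      have h2 : ρ' (ρ'⁻¹ j) = j := by
        rw [← Perm.mul_apply, mul_inv_cancel, Perm.one_apply]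
      rw [h2] at h1
      rw [← h1]
      rfl
    have hδ1 : δ = 1 := by
      apply perm_eq_one (fun i => (τ (e i) : ℕ))
      · intro i j hij
        exact e.injective (τ.injective (Fin.ext hij))
      · intro i j
        rw [hord i j, hδ, hδ]
    have hρ : ρ = ρ' := by
      have : ρ * ρ'⁻¹ = 1 := hδ1
      exact mul_inv_eq_one.mp this
    subst hρ
    have := mul_right_cancel h
    rw [this]

theorem same_iter {n k : ℕ} (τ : Perm (Fin n)) (hk : k < n) (h : Same τ k (n - k)) (j : ℕ)
    (hj1 : 1 ≤ j) (hj : j * (n - k) < n) : Same τ (n - j * (n - k)) (j * (n - k)) := by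
  induction j, hj1 using Nat.le_induction with
  | base =>
    rw [one_mul]
    have : n - (n - k) = k := by omega
    rw [this]
    exact h
  | succ j hj1 ih =>
    have e1 : (j + 1) * (n - k) = j * (n - k) + (n - k) := by ring
    rw [e1] at hj ⊢
    have ih' := ih (by omega)
    intro i hi i' hi'
    rw [ih' i (by omega) i' (by omega)]
    have h1 := h (j * (n - k) + i) (by omega) (j * (n - k) + i') (by omega)
    rw [h1]
    have e2 : n - k + (j * (n - k) + i) = j * (n - k) + (n - k) + i := by omega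
    have e3 : n - k + (j * (n - k) + i') = j * (n - k) + (n - k) + i' := by omega
    rw [e2, e3]

/-- A long overlap gives a moderately long one. -/
theorem long_overlap {n K : ℕ} (τ : Perm (Fin n)) (hno : NoShort K τ) (hn : ¬ MinOverlap τ) :
    (∃ k, K < k ∧ 2 ≤ k ∧ 2 * k ≤ n ∧ Same τ k (n - k)) ∨ Same τ (n / 2) (n / 2) := by
  unfold MinOverlap at hn
  push Not at hn
  obtain ⟨k, hk2, hkn, hsame⟩ := hn
  have hkK : K < k := by
    by_contra hc
    exact hno k hk2 (not_lt.mp hc) hsame
  rcases Nat.lt_or_ge n (2 * k) with hlong | hshort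
  · -- long overlap
    set s := n - k with hs
    have hs1 : 1 ≤ s := by omega
    have h2s : 2 * s < n := by omega
    have hex : ∃ j, n ≤ 2 * (j * s) := ⟨n, by nlinarith⟩
    classical
    obtain ⟨j, hj⟩ : ∃ j, j = Nat.find hex := ⟨_, rfl⟩
    have hj1 : n ≤ 2 * (j * s) := by rw [hj]; exact Nat.find_spec hex
    have hj0 : 1 ≤ j := by
      rcases Nat.eq_zero_or_pos j with h0 | h0
      · rw [h0] at hj1
        omega
      · exact h0
    have hj2 : 2 * ((j - 1) * s) < n := by
      have := Nat.find_min hex (m := j - 1) (by omega)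
      omega
    have e1 : (j - 1) * s + s = j * s := by
      obtain ⟨j', rfl⟩ : ∃ j', j = j' + 1 := ⟨j - 1, by omega⟩
      rw [Nat.add_sub_cancel]
      ring
    have hjs : j * s < n := by omega
    have hit := same_iter τ hkn hsame j hj0 (by rw [← hs]; exact hjs)
    rw [← hs] at hit
    rcases Nat.lt_or_ge (n - j * s) 2 with h1 | h1
    · right
      have h3 : n = 2 * s + 1 := by omega
      have h4 : n / 2 = s := by omega
      rw [h4]
      intro i hi i' hi'
      have := hsame i (by omega) i' (by omega)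
      exact this
    · left
      have e2 : n - (n - j * s) = j * s := by omega
      refine ⟨n - j * s, ?_, h1, by omega, by rw [e2]; exact hit⟩
      by_contra hc
      exact hno (n - j * s) h1 (not_lt.mp hc) (by rw [e2]; exact hit)
  · left
    exact ⟨k, hkK, hk2, hshort, hsame⟩

theorem two_pow_le (k : ℕ) : 2 ^ k ≤ (k + 1).factorial := by
  induction k with
  | zero => simp
  | succ k ih =>
    rw [Nat.factorial_succ, pow_succ, mul_comm]
    exact Nat.mul_le_mul (by omega) ih

theorem fact_inv_le (k : ℕ) (hk : 1 ≤ k) : (1 : ℝ) / k.factorial ≤ 2 * (1 / 2) ^ k := by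
  have h1 : (2 : ℝ) ^ (k - 1) ≤ k.factorial := by
    have := two_pow_le (k - 1)
    rw [Nat.sub_add_cancel hk] at this
    exact_mod_cast this
  have h2 : (0 : ℝ) < 2 ^ (k - 1) := by positivity
  calc (1 : ℝ) / k.factorial ≤ 1 / 2 ^ (k - 1) := one_div_le_one_div_of_le h2 h1
    _ = 2 * (1 / 2) ^ k := by
      obtain ⟨k', rfl⟩ : ∃ k', k = k' + 1 := ⟨k - 1, by omega⟩
      rw [Nat.add_sub_cancel, one_div_pow, pow_succ]
      field_simp

theorem sum_fact_inv_le (K M : ℕ) :
    ∑ k ∈ Finset.Ioc K M, (1 : ℝ) / k.factorial ≤ 2 * (1 / 2) ^ K := by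
  rcases Nat.lt_or_ge M K with h | h
  · rw [Finset.Ioc_eq_empty (by omega), Finset.sum_empty]
    positivity
  · have key : ∑ k ∈ Finset.Ioc K M, (1 : ℝ) / k.factorial ≤
        2 * (1 / 2) ^ K - 2 * (1 / 2) ^ M := by
      induction M, h using Nat.le_induction with
      | base => simp
      | succ M hM ih =>
        rw [Finset.sum_Ioc_succ_top (by omega)]
        have h1 := fact_inv_le (M + 1) (by omega)
        have h2 : (2 : ℝ) * (1 / 2) ^ (M + 1) = 2 * (1 / 2) ^ M - 2 * (1 / 2) ^ (M + 1) := by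
          rw [pow_succ]
          ring
        linarith
    have : (0 : ℝ) < 2 * (1 / 2) ^ M := by positivity
    linarith

/-- Overlaps of size more than `K` are rare. -/
theorem long_rare {N K : ℕ} (a : Fin (N + 1)) (hK : 1 ≤ K) (hN : 2 * K ≤ N) :
    ({τ : Perm (Fin (N + 1)) | τ 0 = a ∧ NoShort K τ ∧ ¬ MinOverlap τ}.ncard : ℝ) ≤
      N.factorial * (4 * (1 / 2) ^ K) := by
  classical
  let n := N + 1
  let A : ℕ → Set (Perm (Fin (N + 1))) := fun k => {τ | τ 0 = a ∧ Same τ k (n - k)}
  let B : Set (Perm (Fin (N + 1))) := {τ | τ 0 = a ∧ Same τ (n / 2) (n / 2)}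
  have hsub : {τ : Perm (Fin (N + 1)) | τ 0 = a ∧ NoShort K τ ∧ ¬ MinOverlap τ} ⊆
      (⋃ k ∈ Finset.Ioc K (n / 2), A k) ∪ B := by
    rintro τ ⟨h1, h2, h3⟩
    rcases long_overlap τ h2 h3 with ⟨k, hk1, hk2, hk3, hk4⟩ | h4
    · left
      rw [Set.mem_iUnion₂]
      refine ⟨k, ?_, h1, hk4⟩
      rw [Finset.mem_Ioc]
      omega
    · right
      exact ⟨h1, h4⟩
  have h1 := Set.ncard_le_ncard hsub (Set.toFinite _)
  have h2 := Set.ncard_union_le (⋃ k ∈ Finset.Ioc K (n / 2), A k) B
  have h3 : (⋃ k ∈ Finset.Ioc K (n / 2), A k).ncard ≤ ∑ k ∈ Finset.Ioc K (n / 2), (A k).ncard := by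
    have h4 : (⋃ k ∈ Finset.Ioc K (n / 2), A k) =
        (((Finset.Ioc K (n / 2)).biUnion (fun k => (A k).toFinite.toFinset) :
          Finset (Perm (Fin (N + 1)))) : Set (Perm (Fin (N + 1)))) := by
      ext τ
      rw [Set.mem_iUnion₂, Finset.mem_coe, Finset.mem_biUnion]
      constructor
      · rintro ⟨k, hk, h⟩
        exact ⟨k, hk, (Set.Finite.mem_toFinset _).mpr h⟩
      · rintro ⟨k, hk, h⟩
        exact ⟨k, hk, (Set.Finite.mem_toFinset _).mp h⟩
    rw [h4, Set.ncard_coe_finset]
    refine Finset.card_biUnion_le.trans (le_of_eq ?_)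
    apply Finset.sum_congr rfl
    intro k _
    rw [← Set.ncard_eq_toFinset_card]
  have hN0 : (0 : ℝ) < N.factorial := by exact_mod_cast Nat.factorial_pos N
  have hAk : ∀ k ∈ Finset.Ioc K (n / 2), ((A k).ncard : ℝ) ≤ N.factorial * (1 / k.factorial) := by
    intro k hk
    rw [Finset.mem_Ioc] at hk
    have h5 := window_bound (N := N) (k := k) (c := n - k) a (by omega) (by omega) (by omega)
    have h6 : (0 : ℝ) < k.factorial := by exact_mod_cast Nat.factorial_pos k
    rw [mul_one_div, le_div_iff₀ h6]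
    exact_mod_cast h5
  have hB : (B.ncard : ℝ) ≤ N.factorial * (2 * (1 / 2) ^ K) := by
    have h5 := window_bound (N := N) (k := n / 2) (c := n / 2) a (by omega) (le_refl _) (by omega)
    have h6 : (0 : ℝ) < (n / 2).factorial := by exact_mod_cast Nat.factorial_pos _
    have h7 : (B.ncard : ℝ) ≤ N.factorial * (1 / (n / 2).factorial) := by
      rw [mul_one_div, le_div_iff₀ h6]
      exact_mod_cast h5
    refine h7.trans (mul_le_mul_of_nonneg_left ?_ hN0.le)
    refine (fact_inv_le (n / 2) (by omega)).trans ?_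
    apply mul_le_mul_of_nonneg_left _ (by norm_num)
    apply pow_le_pow_of_le_one (by norm_num) (by norm_num)
    omega
  have h8 : ({τ : Perm (Fin (N + 1)) | τ 0 = a ∧ NoShort K τ ∧ ¬ MinOverlap τ}.ncard : ℝ) ≤
      ∑ k ∈ Finset.Ioc K (n / 2), ((A k).ncard : ℝ) + B.ncard := by
    have : {τ : Perm (Fin (N + 1)) | τ 0 = a ∧ NoShort K τ ∧ ¬ MinOverlap τ}.ncard ≤
        ∑ k ∈ Finset.Ioc K (n / 2), (A k).ncard + B.ncard := by omega
    exact_mod_cast this
  refine h8.trans ?_
  have h9 : ∑ k ∈ Finset.Ioc K (n / 2), ((A k).ncard : ℝ) ≤ N.factorial * (2 * (1 / 2) ^ K) := by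
    refine (Finset.sum_le_sum hAk).trans ?_
    rw [← Finset.mul_sum]
    exact mul_le_mul_of_nonneg_left (sum_fact_inv_le K (n / 2)) hN0.le
  linarith

end Q165.MinOv
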