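import Pool.Agent.Q165.QZ

set_option autoImplicit false

/-!
# The core of the block pattern theorem: labelled latin squares
-/

namespace Q165.OddWeight

open Finset

section Core

variable {n : ℕ} {K : Type*} [AddCommGroup K] [DecidableEq K]

/-- Number of indices with value `x`. -/
def cnt (F : Fin n → K) (x : K) : ℕ := (univ.filter (fun i => F i = x)).card

omit [AddCommGroup K] in
theorem cnt_pos_iff (F : Fin n → K) (x : K) : 0 < cnt F x ↔ ∃ i, F i = x := by
  unfold cnt
  rw [Finset.card_pos]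
  constructor
  · rintro ⟨i, hi⟩
    exact ⟨i, (mem_filter.mp hi).2⟩
  · rintro ⟨i, hi⟩
    exact ⟨i, mem_filter.mpr ⟨mem_univ _, hi⟩⟩

theorem cnt_row (L : Fin n → Fin n → Fin n) (hr : ∀ i, Function.Bijective (L i))
    (F G T : Fin n → K) (h : ∀ i j, T (L i j) = F i + G j) (i : Fin n) (x : K) :
    cnt T x = cnt G (x - F i) := by
  symm
  unfold cnt
  apply Finset.card_bij (fun j _ => L i j)
  · intro j hj
    rw [mem_filter] at hj ⊢
    refine ⟨mem_univ _, ?_⟩
    rw [h, hj.2]
    abel
  · intro a _ b _ hab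
    exact (hr i).1 hab
  · intro s hs
    obtain ⟨j, hj⟩ := (hr i).2 s
    refine ⟨j, ?_, hj⟩
    rw [mem_filter] at hs ⊢
    refine ⟨mem_univ _, ?_⟩
    rw [← hs.2, ← hj, h]
    abel

/-- If the symbols, rows and columns of a latin square carry compatible labels in an abelian group,
normalised at one row and one column, then the labels form a finite subgroup and every label is
taken equally often. -/
theorem core (L : Fin n → Fin n → Fin n) (hr : ∀ i, Function.Bijective (L i))
    (hc : ∀ j, Function.Bijective (fun i => L i j))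
    (F G T : Fin n → K) (h : ∀ i j, T (L i j) = F i + G j) (r0 c0 : Fin n)
    (hF : F r0 = 0) (hG : G c0 = 0) :
    ∃ P : AddSubgroup K, Finite P ∧ (∀ i, F i ∈ P) ∧ (∀ i, G i ∈ P) ∧ (∀ i, T i ∈ P) ∧
      ∃ q : ℕ, 0 < q ∧ ∀ x ∈ P, cnt F x = q ∧ cnt G x = q ∧ cnt T x = q := by
  have h1 := cnt_row L hr F G T h
  have h2 := cnt_row (fun j i => L i j) hc G F T (fun j i => by rw [h, add_comm])
  have hTG : ∀ x, cnt T x = cnt G x := by
    intro x
    rw [h1 r0, hF, sub_zero]
  have hTF : ∀ x, cnt T x = cnt F x := by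
    intro x
    rw [h2 c0, hG, sub_zero]
  -- periods
  have hper : ∀ i x, cnt T (x - F i) = cnt T x := by
    intro i x
    rw [hTG (x - F i), ← h1 i x]
  have hper' : ∀ i x, cnt T (x + F i) = cnt T x := by
    intro i x
    have := hper i (x + F i)
    rw [add_sub_cancel_right] at this
    exact this.symm
  have hsup : ∀ x, 0 < cnt T x ↔ ∃ i, F i = x := by
    intro x
    rw [hTF, cnt_pos_iff]
  let P : AddSubgroup K :=
    { carrier := {x | 0 < cnt T x}
      add_mem' := by
        intro a b ha hb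
        obtain ⟨i, rfl⟩ := (hsup b).mp hb
        show 0 < cnt T (a + F i)
        rw [hper']
        exact ha
      zero_mem' := (hsup 0).mpr ⟨r0, hF⟩
      neg_mem' := by
        intro a ha
        obtain ⟨i, rfl⟩ := (hsup a).mp ha
        show 0 < cnt T (-F i)
        have := hper i 0
        rw [zero_sub] at this
        rw [this]
        exact (hsup 0).mpr ⟨r0, hF⟩ }
  have hmem : ∀ x, x ∈ P ↔ 0 < cnt T x := fun _ => Iff.rfl
  refine ⟨P, ?_, ?_, ?_, ?_, cnt T 0, ?_, ?_⟩
  · have hfin : (Set.range F).Finite := Set.finite_range F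
    apply Set.Finite.subset hfin
    intro x hx
    exact (hsup x).mp hx
  · intro i
    exact (hsup _).mpr ⟨i, rfl⟩
  · intro i
    rw [hmem, hTG, cnt_pos_iff]
    exact ⟨i, rfl⟩
  · intro i
    rw [hmem, cnt_pos_iff]
    exact ⟨i, rfl⟩
  · exact (hsup 0).mpr ⟨r0, hF⟩
  · intro x hx
    have hx0 : cnt T x = cnt T 0 := by
      obtain ⟨i, rfl⟩ := (hsup x).mp hx
      have := hper' i 0
      rwa [zero_add] at this
    exact ⟨by rw [← hTF, hx0], by rw [← hTG, hx0], hx0⟩

end Core

theorem sum_label {n N : ℕ} [NeZero N] (ρ : Fin n → ZMod N) (q : ℕ)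
    (h : ∀ a, (univ.filter (fun i => ρ i = a)).card = q) :
    ∑ i, ρ i = q • ∑ a : ZMod N, a := by
  rw [← Finset.sum_fiberwise univ ρ ρ, Finset.smul_sum]
  apply Finset.sum_congr rfl
  intro a _
  rw [Finset.sum_congr rfl (g := fun _ => a)]
  · rw [Finset.sum_const, h a]
  · intro i hi
    exact (mem_filter.mp hi).2

theorem two_nsmul_sum (N : ℕ) [NeZero N] : 2 • ∑ a : ZMod N, a = 0 := by
  have h : ∑ a : ZMod N, a = ∑ a : ZMod N, (-a) :=
    (Equiv.sum_comp (Equiv.neg (ZMod N)) (fun a => a)).symm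
  rw [two_nsmul]
  nth_rw 2 [h]
  rw [← Finset.sum_add_distrib]
  simp

/-- Arithmetic: if `q • ∑ a ≠ 0` in `ZMod N` then `N` is even and `q` is odd. -/
theorem parity {N q : ℕ} [NeZero N] (h : q • ∑ a : ZMod N, a ≠ 0) : Even N ∧ Odd q := by
  have h2 := two_nsmul_sum N
  refine ⟨?_, ?_⟩
  · by_contra hodd
    rw [Nat.not_even_iff_odd] at hodd
    obtain ⟨k, hk⟩ := hodd
    apply h
    have h3 : N • ∑ a : ZMod N, a = 0 := by simp
    have h4 : (∑ a : ZMod N, a) = 0 := by
      have h5 : (2 * k + 1) • (∑ a : ZMod N, a) = 0 := by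
        rw [← h3]
        exact congrArg (fun t : ℕ => t • (∑ a : ZMod N, a)) hk.symm
      rw [add_nsmul, one_nsmul, mul_comm 2 k, mul_nsmul', h2, smul_zero, zero_add] at h5
      exact h5
    rw [h4, smul_zero]
  · by_contra heven
    rw [Nat.not_odd_iff_even] at heven
    obtain ⟨k, hk⟩ := heven
    apply h
    rw [hk, ← two_mul, mul_comm, mul_nsmul', h2, smul_zero]

/-- Triples of integer functions (row, column and symbol sums). -/
abbrev Sums (n : ℕ) : Type := (Fin n → ℤ) × (Fin n → ℤ) × (Fin n → ℤ)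

/-- The line sums of a weighting of the cells. -/
def lineSums {n : ℕ} (L : Fin n → Fin n → Fin n) : (Fin n → Fin n → ℤ) →+ Sums n :=
  AddMonoidHom.mk' (fun θ => (fun i => ∑ j, θ i j, fun j => ∑ i, θ i j,
        fun s => ∑ i, ∑ j, (if L i j = s then θ i j else 0))) (by
    intro θ θ'
    refine Prod.ext ?_ (Prod.ext ?_ ?_)
    · funext x
      show ∑ j, (θ x j + θ' x j) = ∑ j, θ x j + ∑ j, θ' x j
      rw [Finset.sum_add_distrib]
    · funext x
      show ∑ i, (θ i x + θ' i x) = ∑ i, θ i x + ∑ i, θ' i x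
      rw [Finset.sum_add_distrib]
    · funext s
      show ∑ i, ∑ j, (if L i j = s then θ i j + θ' i j else 0) =
        (∑ i, ∑ j, (if L i j = s then θ i j else 0)) + ∑ i, ∑ j, (if L i j = s then θ' i j else 0)
      rw [← Finset.sum_add_distrib]
      apply Finset.sum_congr rfl
      intro i _
      rw [← Finset.sum_add_distrib]
      apply Finset.sum_congr rfl
      intro j _
      split_ifs <;> simp)

theorem lineSums_single {n : ℕ} (L : Fin n → Fin n → Fin n) (i j : Fin n) :
    lineSums L (Pi.single i (Pi.single j 1)) =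
      ((Pi.single i 1, 0, 0) : Sums n) + (0, Pi.single j 1, 0) + (0, 0, Pi.single (L i j) 1) := by
  have e1 : ∀ a b : Fin n, (Pi.single i (Pi.single j (1 : ℤ)) : Fin n → Fin n → ℤ) a b =
      if a = i ∧ b = j then 1 else 0 := by
    intro a b
    by_cases ha : a = i
    · subst ha
      rw [Pi.single_eq_same, Pi.single_apply]
      simp
    · rw [Pi.single_eq_of_ne ha]
      simp [ha]
  refine Prod.ext ?_ (Prod.ext ?_ ?_)
  · funext a
    show ∑ b, (Pi.single i (Pi.single j (1 : ℤ)) : Fin n → Fin n → ℤ) a b = _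
    simp only [e1]
    simp only [Prod.fst_add, add_zero, Pi.single_apply]
    by_cases ha : a = i <;> simp [ha]
  · funext b
    show ∑ a, (Pi.single i (Pi.single j (1 : ℤ)) : Fin n → Fin n → ℤ) a b = _
    simp only [e1]
    simp only [Prod.snd_add, Prod.fst_add, add_zero, zero_add, Pi.single_apply]
    by_cases hb : b = j <;> simp [hb]
  · funext s
    show ∑ a, ∑ b, (if L a b = s then
      (Pi.single i (Pi.single j (1 : ℤ)) : Fin n → Fin n → ℤ) a b else 0) = _
    simp only [e1]
    simp only [Prod.snd_add, zero_add, Pi.single_apply]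
    rw [Finset.sum_eq_single i, Finset.sum_eq_single j]
    · simp [eq_comm]
    · intro b _ hb
      simp [hb]
    · simp
    · intro a _ ha
      apply Finset.sum_eq_zero
      intro b _
      simp [ha]
    · simp

theorem ones_eq (n : ℕ) : ((fun _ => 1, fun _ => 1, fun _ => 1) : Sums n) =
    (∑ i, ((Pi.single i 1, 0, 0) : Sums n)) + (∑ j, ((0, Pi.single j 1, 0) : Sums n)) +
      (∑ s, ((0, 0, Pi.single s 1) : Sums n)) := by
  refine Prod.ext ?_ (Prod.ext ?_ ?_)
  · funext x
    simp [Prod.fst_sum, Finset.sum_apply, Pi.single_apply]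
  · funext x
    simp [Prod.fst_sum, Prod.snd_sum, Finset.sum_apply, Pi.single_apply]
  · funext x
    simp [Prod.snd_sum, Finset.sum_apply, Pi.single_apply]

/-- Labels in `ℚ / ℤ` from the absence of a `1`-weight. -/
theorem exists_labels {n : ℕ} (L : Fin n → Fin n → Fin n)
    (hv : ((fun _ => 1, fun _ => 1, fun _ => 1) : Sums n) ∉ (lineSums L).range) :
    ∃ f g t : Fin n → AddCircle (1 : ℚ), (∀ i j, f i + g j + t (L i j) = 0) ∧
      (∑ i, f i) + (∑ j, g j) + (∑ s, t s) ≠ 0 := by
  obtain ⟨χ, hχ0, hχ1⟩ := Q165.QZ.exists_char_range (lineSums L) hv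
  refine ⟨fun i => χ (Pi.single i 1, 0, 0), fun j => χ (0, Pi.single j 1, 0),
    fun s => χ (0, 0, Pi.single s 1), ?_, ?_⟩
  · intro i j
    have h1 := hχ0 (Pi.single i (Pi.single j 1))
    rw [lineSums_single, map_add, map_add] at h1
    exact h1
  · intro h0
    apply hχ1
    rw [ones_eq, map_add, map_add, map_sum, map_sum, map_sum]
    exact h0

end Q165.OddWeight
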