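import Pool.Agent.Q165.PatMoment

set_option autoImplicit false

/-!
# The probability that a random permutation contains a long good subsequence
-/

namespace Q165.PatClass

open Equiv Finset

/-- Positions in the cells `a, ..., b`. -/
def cells (n t a b : ℕ) : Finset (Fin n) := univ.filter (fun u : Fin n => a ≤ u / t ∧ (u : ℕ) / t ≤ b)

theorem card_cells_le {n t a b : ℕ} (ht : 0 < t) (hab : a ≤ b) :
    ((cells n t a b).card : ℝ) ≤ ((b : ℝ) - a + 1) * t := by
  have h1 : (cells n t a b).image (fun u : Fin n => (u : ℕ)) ⊆ Finset.Ico (a * t) ((b + 1) * t) := by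
    intro x hx
    rw [Finset.mem_image] at hx
    obtain ⟨u, hu, rfl⟩ := hx
    unfold cells at hu
    rw [mem_filter] at hu
    rw [Finset.mem_Ico]
    constructor
    · exact (Nat.le_div_iff_mul_le ht).mp hu.2.1
    · exact (Nat.div_lt_iff_lt_mul ht).mp (Nat.lt_succ_of_le hu.2.2)
  have h2 := Finset.card_le_card h1
  rw [Finset.card_image_of_injective _ Fin.val_injective, Nat.card_Ico] at h2
  have h3 : a * t ≤ (b + 1) * t := Nat.mul_le_mul_right t (by omega)
  have h4 : ((cells n t a b).card : ℝ) ≤ (((b + 1) * t - a * t : ℕ) : ℝ) := by exact_mod_cast h2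
  rw [Nat.cast_sub h3] at h4
  push_cast at h4
  linarith

theorem telescope {J K : ℕ} (α : Fin (J + 1) → Fin K) :
    ∑ j : Fin J, (((α j.succ : ℕ) : ℝ) - (α j.castSucc : ℕ)) =
      ((α (Fin.last J) : ℕ) : ℝ) - ((α 0 : ℕ) : ℝ) := by
  have h1 := Fin.sum_univ_succ (fun j : Fin (J + 1) => ((α j : ℕ) : ℝ))
  have h2 := Fin.sum_univ_castSucc (fun j : Fin (J + 1) => ((α j : ℕ) : ℝ))
  rw [Finset.sum_sub_distrib]
  linarith

/-- The weights of the boxes in `G`. -/
noncomputable def wt {n : ℕ} (t J K : ℕ) (α β : Fin (J + 1) → Fin K) (G : Finset (Fin J))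
    (u v : Fin n) : ℝ :=
  ∑ j ∈ G, (if u ∈ cells n t (α j.castSucc) (α j.succ) then 1 else 0) *
    (if v ∈ cells n t (β j.castSucc) (β j.succ) then 1 else 0)

theorem wt_nonneg {n : ℕ} (t J K : ℕ) (α β : Fin (J + 1) → Fin K) (G : Finset (Fin J))
    (u v : Fin n) : 0 ≤ wt t J K α β G u v := by
  unfold wt
  apply Finset.sum_nonneg
  intro j _
  split_ifs <;> norm_num

theorem sum_wt {n : ℕ} (t J K : ℕ) (α β : Fin (J + 1) → Fin K) (G : Finset (Fin J)) :
    ∑ u : Fin n, ∑ v : Fin n, wt t J K α β G u v =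
      ∑ j ∈ G, ((cells n t (α j.castSucc) (α j.succ)).card : ℝ) *
        ((cells n t (β j.castSucc) (β j.succ)).card : ℝ) := by
  classical
  unfold wt
  have h1 : ∀ u : Fin n, ∑ v : Fin n, ∑ j ∈ G,
      ((if u ∈ cells n t (α j.castSucc) (α j.succ) then 1 else 0) *
        (if v ∈ cells n t (β j.castSucc) (β j.succ) then 1 else 0) : ℝ) =
      ∑ j ∈ G, (if u ∈ cells n t (α j.castSucc) (α j.succ) then 1 else 0) *
        ((cells n t (β j.castSucc) (β j.succ)).card : ℝ) := by
    intro u
    rw [Finset.sum_comm]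
    apply Finset.sum_congr rfl
    intro j _
    rw [← Finset.mul_sum]
    congr 1
    simp
  rw [Finset.sum_congr rfl (fun u _ => h1 u), Finset.sum_comm]
  apply Finset.sum_congr rfl
  intro j _
  rw [← Finset.sum_mul]
  congr 1
  simp

theorem exp_le_pow (s : ℕ) (x : ℝ) (hx : x ≤ s) : Real.exp (x / 21) ≤ (1 / 20 + 1 : ℝ) ^ s := by
  have h1 : Real.exp (1 / 21) ≤ (1 / 20 + 1 : ℝ) := by
    have h2 := Real.one_sub_inv_le_log_of_pos (show (0 : ℝ) < 21 / 20 by norm_num)
    have h3 : (1 : ℝ) - (21 / 20)⁻¹ = 1 / 21 := by norm_num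
    rw [h3, Real.le_log_iff_exp_le (by norm_num)] at h2
    linarith
  calc Real.exp (x / 21) ≤ Real.exp (s * (1 / 21)) := by
        apply Real.exp_le_exp.mpr
        linarith
    _ = Real.exp (1 / 21) ^ s := by
        rw [← Real.exp_nat_mul]
    _ ≤ _ := pow_le_pow_left₀ (Real.exp_pos _).le h1 s

/-- On the event the truncated generating function is large. -/
theorem le_F {n t J m k K : ℕ} (α β : Fin (J + 1) → Fin K) (G : Finset (Fin J))
    (π : Perm (Fin n)) (h : Ev t J m k K α β π) :
    Real.exp (((k : ℝ) - m * (univ \ G).card) / 21) ≤ F k (1 / 20) (wt t J K α β G) π := by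
  classical
  obtain ⟨f, lab, hf, hlab, hbox⟩ := h
  let I : Finset (Fin k) := univ.filter (fun i => lab i ∈ G)
  let S : Finset (Fin n) := I.image f
  have hScard : S.card = I.card := Finset.card_image_of_injective _ hf
  have hIk : I.card ≤ k := by
    have := Finset.card_le_univ I
    rwa [Fintype.card_fin] at this
  have hI : (k : ℝ) - m * (univ \ G).card ≤ I.card := by
    have h1 : (univ.filter (fun i : Fin k => ¬ lab i ∈ G)).card ≤ m * (univ \ G).card := by
      have h2 : univ.filter (fun i : Fin k => ¬ lab i ∈ G) =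
          (univ \ G).biUnion (fun j => univ.filter (fun i => lab i = j)) := by
        ext i
        simp
      rw [h2]
      refine Finset.card_biUnion_le.trans ?_
      refine (Finset.sum_le_sum (fun j _ => hlab j)).trans ?_
      rw [Finset.sum_const, smul_eq_mul, mul_comm]
    have h2 := Finset.card_filter_add_card_filter_not (s := (univ : Finset (Fin k)))
      (fun i => lab i ∈ G)
    rw [card_univ, Fintype.card_fin] at h2
    have h3 : (k : ℝ) ≤ I.card + m * (univ \ G).card := by
      have : k ≤ I.card + m * (univ \ G).card := by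
        have e1 : I.card = (univ.filter (fun i : Fin k => lab i ∈ G)).card := rfl
        omega
      exact_mod_cast this
    linarith
  have hone : ∀ u ∈ S, 1 ≤ wt t J K α β G u (π u) := by
    intro u hu
    obtain ⟨i, hi, rfl⟩ := Finset.mem_image.mp hu
    have hi' : lab i ∈ G := (mem_filter.mp hi).2
    obtain ⟨b1, b2, b3, b4⟩ := hbox i
    unfold wt
    have h1 : (1 : ℝ) = (if f i ∈ cells n t (α (lab i).castSucc) (α (lab i).succ) then 1 else 0) *
        (if π (f i) ∈ cells n t (β (lab i).castSucc) (β (lab i).succ) then 1 else 0) := by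
      rw [if_pos, if_pos, one_mul]
      · unfold cells
        rw [mem_filter]
        exact ⟨mem_univ _, b3, b4⟩
      · unfold cells
        rw [mem_filter]
        exact ⟨mem_univ _, b1, b2⟩
    refine h1.le.trans ?_
    apply Finset.single_le_sum (f := fun j =>
      ((if f i ∈ cells n t (α j.castSucc) (α j.succ) then 1 else 0) *
        (if π (f i) ∈ cells n t (β j.castSucc) (β j.succ) then 1 else 0) : ℝ)) _ hi'
    intro j _
    split_ifs <;> norm_num
  calc Real.exp (((k : ℝ) - m * (univ \ G).card) / 21) ≤ (1 / 20 + 1 : ℝ) ^ S.card := by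
        apply exp_le_pow
        rw [hScard]
        exact hI
    _ = ∑ T ∈ S.powerset, (1 / 20 : ℝ) ^ T.card * 1 ^ (S.card - T.card) := by
        rw [Finset.sum_pow_mul_eq_add_pow]
    _ ≤ ∑ T ∈ S.powerset, (1 / 20 : ℝ) ^ T.card * ∏ u ∈ T, wt t J K α β G u (π u) := by
        apply Finset.sum_le_sum
        intro T hT
        rw [Finset.mem_powerset] at hT
        apply mul_le_mul_of_nonneg_left _ (by positivity)
        rw [one_pow]
        have h5 : ∏ u ∈ T, (1 : ℝ) ≤ ∏ u ∈ T, wt t J K α β G u (π u) := by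
          apply Finset.prod_le_prod
          · intro _ _
            norm_num
          · intro u hu
            exact hone u (hT hu)
        rwa [Finset.prod_const_one] at h5
    _ ≤ F k (1 / 20) (wt t J K α β G) π := by
        unfold F
        apply Finset.sum_le_sum_of_subset_of_nonneg
        · intro T hT
          rw [Finset.mem_powerset] at hT
          rw [mem_filter]
          refine ⟨mem_univ _, ?_⟩
          have := Finset.card_le_card hT
          omega
        · intro T _ _
          apply mul_nonneg (by positivity)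
          exact Finset.prod_nonneg (fun u _ => wt_nonneg _ _ _ _ _ _ _ _)

theorem box_ineq {x y h : ℝ} (hx : 0 ≤ x) (hy : 0 ≤ y) (hh : 0 < h) (hxy : x * y ≤ h ^ 2) :
    2 * (x * y) ≤ h * (x + y) := by
  by_contra hlt
  push Not at hlt
  have h0 : 0 ≤ h * (x + y) := by positivity
  have h1 : (h * (x + y)) ^ 2 < (2 * (x * y)) ^ 2 := pow_lt_pow_left₀ hlt h0 (by norm_num)
  have h2 : 0 ≤ x * y := by positivity
  have h3 : 4 * (x * y) ≤ (x + y) ^ 2 := by nlinarith [sq_nonneg (x - y)]
  have h4 : (x * y) * (4 * (x * y)) ≤ h ^ 2 * (x + y) ^ 2 := by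
    apply mul_le_mul hxy h3 (by positivity) (by positivity)
  nlinarith

theorem box_ineq' {x y h : ℝ} (hx : 0 ≤ x) (hy : 0 ≤ y) (hh : 0 < h) (hxy : h ^ 2 < x * y) :
    2 * h ≤ x + y := by
  by_contra hlt
  push Not at hlt
  nlinarith [sq_nonneg (x - y)]

theorem ev_card_le {n t J m k K : ℕ} (ht : 0 < t) (hk : k < n) (h : ℝ) (hh : 0 < h)
    (hhm : h ^ 2 ≤ m * ((n : ℝ) - k)) (α β : Fin (J + 1) → Fin K)
    (hα : Monotone α) (hβ : Monotone β) :
    ({π : Perm (Fin n) | Ev t J m k K α β π}.ncard : ℝ) ≤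
      n.factorial * Real.exp (m * (t * (K + J)) / (20 * h) - k / 21) := by
  classical
  have hnk : (0 : ℝ) < (n : ℝ) - k := by
    have : (k : ℝ) < n := by exact_mod_cast hk
    linarith
  have hncard : {π : Perm (Fin n) | Ev t J m k K α β π}.ncard =
      (univ.filter (fun π : Perm (Fin n) => Ev t J m k K α β π)).card := by
    rw [← Set.ncard_coe_finset]
    congr 1
    ext π
    simp
  rw [hncard]
  let x : Fin J → ℝ := fun j => (((α j.succ : ℕ) : ℝ) - (α j.castSucc : ℕ) + 1) * t
  let y : Fin J → ℝ := fun j => (((β j.succ : ℕ) : ℝ) - (β j.castSucc : ℕ) + 1) * t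
  have ht' : (0 : ℝ) < t := by exact_mod_cast ht
  have hαj : ∀ j : Fin J, (α j.castSucc : ℕ) ≤ α j.succ := fun j => hα (Fin.castSucc_le_succ j)
  have hβj : ∀ j : Fin J, (β j.castSucc : ℕ) ≤ β j.succ := fun j => hβ (Fin.castSucc_le_succ j)
  have hx0 : ∀ j, 0 ≤ x j := by
    intro j
    have : ((α j.castSucc : ℕ) : ℝ) ≤ (α j.succ : ℕ) := by exact_mod_cast hαj j
    apply mul_nonneg _ ht'.le
    linarith
  have hy0 : ∀ j, 0 ≤ y j := by
    intro j
    have : ((β j.castSucc : ℕ) : ℝ) ≤ (β j.succ : ℕ) := by exact_mod_cast hβj j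
    apply mul_nonneg _ ht'.le
    linarith
  have hsum : ∀ γ : Fin (J + 1) → Fin K,
      ∑ j : Fin J, (((γ j.succ : ℕ) : ℝ) - (γ j.castSucc : ℕ) + 1) * t ≤ t * (K + J) := by
    intro γ
    rw [← Finset.sum_mul, Finset.sum_add_distrib, telescope γ, Finset.sum_const, card_univ,
      Fintype.card_fin, nsmul_eq_mul, mul_one, mul_comm]
    apply mul_le_mul_of_nonneg_left _ ht'.le
    have h1 : ((γ (Fin.last J) : ℕ) : ℝ) ≤ K := by exact_mod_cast (γ (Fin.last J)).isLt.le
    have h2 : (0 : ℝ) ≤ ((γ 0 : ℕ) : ℝ) := by positivity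
    linarith
  let G : Finset (Fin J) := univ.filter (fun j => x j * y j ≤ h ^ 2)
  -- the first moment
  have hmom := sum_F_le hk (1 / 20) (by norm_num) (wt (n := n) t J K α β G)
    (fun u v => wt_nonneg _ _ _ _ _ _ _ _)
  have hlow : ((univ.filter (fun π : Perm (Fin n) => Ev t J m k K α β π)).card : ℝ) *
      Real.exp (((k : ℝ) - m * (univ \ G).card) / 21) ≤
      ∑ π : Perm (Fin n), F k (1 / 20) (wt t J K α β G) π := by
    calc ((univ.filter (fun π : Perm (Fin n) => Ev t J m k K α β π)).card : ℝ) *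
        Real.exp (((k : ℝ) - m * (univ \ G).card) / 21)
        = ∑ π ∈ univ.filter (fun π : Perm (Fin n) => Ev t J m k K α β π),
            Real.exp (((k : ℝ) - m * (univ \ G).card) / 21) := by
          rw [Finset.sum_const, nsmul_eq_mul]
      _ ≤ ∑ π ∈ univ.filter (fun π : Perm (Fin n) => Ev t J m k K α β π),
            F k (1 / 20) (wt t J K α β G) π := by
          apply Finset.sum_le_sum
          intro π hπ
          exact le_F α β G π (mem_filter.mp hπ).2
      _ ≤ _ := by
          apply Finset.sum_le_sum_of_subset_of_nonneg (Finset.filter_subset _ _)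
          intro π _ _
          unfold F
          apply Finset.sum_nonneg
          intro T _
          apply mul_nonneg (by positivity)
          exact Finset.prod_nonneg (fun u _ => wt_nonneg _ _ _ _ _ _ _ _)
  have hcomb := hlow.trans hmom
  rw [sum_wt] at hcomb
  have hcells : ∑ j ∈ G, ((cells n t (α j.castSucc) (α j.succ)).card : ℝ) *
        ((cells n t (β j.castSucc) (β j.succ)).card : ℝ) ≤ ∑ j ∈ G, x j * y j := by
    apply Finset.sum_le_sum
    intro j _
    apply mul_le_mul (card_cells_le ht (hαj j)) (card_cells_le ht (hβj j)) (by positivity) (hx0 j)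
  have hm0 : (0 : ℝ) ≤ m := by positivity
  -- the exponent
  have hexp : 1 / 20 * (∑ j ∈ G, x j * y j) / ((n : ℝ) - k) + m * (univ \ G).card / 21 ≤
      m * (t * (K + J)) / (20 * h) := by
    have h1 : ∀ j ∈ G, 1 / 20 * (x j * y j) / ((n : ℝ) - k) ≤ m * (x j + y j) / (40 * h) := by
      intro j hj
      have h2 : x j * y j ≤ h ^ 2 := (mem_filter.mp hj).2
      have h3 := box_ineq (hx0 j) (hy0 j) hh h2
      rw [div_le_div_iff₀ hnk (by positivity)]
      have h4 : 0 ≤ x j * y j := mul_nonneg (hx0 j) (hy0 j)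
      have h5 : 0 ≤ x j + y j := add_nonneg (hx0 j) (hy0 j)
      -- `2 h (x y) ≤ h² (x + y) ≤ m (n - k) (x + y)`
      have h6 : h * (2 * (x j * y j)) ≤ h * (h * (x j + y j)) := mul_le_mul_of_nonneg_left h3 hh.le
      have h7 : h ^ 2 * (x j + y j) ≤ m * ((n : ℝ) - k) * (x j + y j) :=
        mul_le_mul_of_nonneg_right hhm h5
      nlinarith
    have h1' : ∀ j ∈ univ \ G, (m : ℝ) / 21 ≤ m * (x j + y j) / (40 * h) := by
      intro j hj
      have h2 : h ^ 2 < x j * y j := by
        by_contra hc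
        rw [Finset.mem_sdiff] at hj
        exact hj.2 (mem_filter.mpr ⟨mem_univ _, not_lt.mp hc⟩)
      have h3 := box_ineq' (hx0 j) (hy0 j) hh h2
      rw [div_le_div_iff₀ (by norm_num) (by positivity)]
      have h4 : (m : ℝ) * (2 * h) ≤ m * (x j + y j) := mul_le_mul_of_nonneg_left h3 hm0
      nlinarith [mul_nonneg hm0 hh.le]
    have h2 : 1 / 20 * (∑ j ∈ G, x j * y j) / ((n : ℝ) - k) =
        ∑ j ∈ G, 1 / 20 * (x j * y j) / ((n : ℝ) - k) := by
      rw [Finset.mul_sum, Finset.sum_div]
    have h3 : (m : ℝ) * (univ \ G).card / 21 = ∑ j ∈ univ \ G, (m : ℝ) / 21 := by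
      rw [Finset.sum_const, nsmul_eq_mul]
      ring
    rw [h2, h3]
    have h4 : ∑ j ∈ G, 1 / 20 * (x j * y j) / ((n : ℝ) - k) + ∑ j ∈ univ \ G, (m : ℝ) / 21 ≤
        ∑ j ∈ G, m * (x j + y j) / (40 * h) + ∑ j ∈ univ \ G, m * (x j + y j) / (40 * h) :=
      add_le_add (Finset.sum_le_sum h1) (Finset.sum_le_sum h1')
    refine h4.trans ?_
    have h5 : ∑ j ∈ G, (m : ℝ) * (x j + y j) / (40 * h) +
        ∑ j ∈ univ \ G, m * (x j + y j) / (40 * h) = ∑ j : Fin J, m * (x j + y j) / (40 * h) := by
      rw [add_comm]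
      exact Finset.sum_sdiff (Finset.subset_univ G)
    rw [h5, ← Finset.sum_div, ← Finset.mul_sum, Finset.sum_add_distrib]
    rw [div_le_div_iff₀ (by positivity) (by positivity)]
    have h6 : ∑ j, x j + ∑ j, y j ≤ 2 * (t * ((K : ℝ) + J)) := by
      have e1 := hsum α
      have e2 := hsum β
      linarith
    have h7 : (m : ℝ) * (∑ j, x j + ∑ j, y j) ≤ m * (2 * (t * ((K : ℝ) + J))) :=
      mul_le_mul_of_nonneg_left h6 hm0
    nlinarith [mul_le_mul_of_nonneg_right h7 hh.le]
  -- conclusion
  have hfin : ((univ.filter (fun π : Perm (Fin n) => Ev t J m k K α β π)).card : ℝ) *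
      Real.exp (((k : ℝ) - m * (univ \ G).card) / 21) ≤
      n.factorial * Real.exp (1 / 20 * (∑ j ∈ G, x j * y j) / ((n : ℝ) - k)) := by
    refine hcomb.trans ?_
    apply mul_le_mul_of_nonneg_left _ (by positivity)
    apply Real.exp_le_exp.mpr
    apply div_le_div_of_nonneg_right _ hnk.le
    exact mul_le_mul_of_nonneg_left hcells (by norm_num)
  have hpos : 0 < Real.exp (((k : ℝ) - m * (univ \ G).card) / 21) := Real.exp_pos _
  rw [← le_div_iff₀ hpos] at hfin
  refine hfin.trans ?_
  rw [mul_div_assoc, ← Real.exp_sub]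
  apply mul_le_mul_of_nonneg_left _ (by positivity)
  apply Real.exp_le_exp.mpr
  linarith

end Q165.PatClass
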