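import Pool.Agent.Q165.PatClass

set_option autoImplicit false

/-!
# Good subsequences are covered by short chains of grid boxes
-/

namespace Q165.PatClass

open Equiv Finset

section Greedy

open Classical in
/-- The greedy sequence of cuts. -/
noncomputable def q {k : ℕ} (σ : Perm (Fin k)) (m : ℕ) : ℕ → ℕ
  | 0 => 0
  | j + 1 => Nat.findGreatest (Cut σ) (q σ m j + m)

variable {k : ℕ} (σ : Perm (Fin k)) (m : ℕ)

theorem cut_zero : Cut σ 0 := ⟨Nat.zero_le _, fun i => by simp⟩

theorem q_cut (j : ℕ) : Cut σ (q σ m j) := by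
  classical
  cases j with
  | zero => exact cut_zero σ
  | succ j =>
    unfold q
    exact Nat.findGreatest_spec (P := Cut σ) (Nat.zero_le _) (cut_zero σ)

theorem q_le_succ (j : ℕ) : q σ m j ≤ q σ m (j + 1) := by
  classical
  conv_rhs => unfold q
  exact Nat.le_findGreatest (Nat.le_add_right _ _) (q_cut σ m j)

theorem q_succ_le (j : ℕ) : q σ m (j + 1) ≤ q σ m j + m := by
  classical
  conv_lhs => unfold q
  exact Nat.findGreatest_le _

theorem le_q_succ (j c : ℕ) (h : Cut σ c) (hc : c ≤ q σ m j + m) : c ≤ q σ m (j + 1) := by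
  classical
  conv_rhs => unfold q
  exact Nat.le_findGreatest hc h

theorem q_mono : Monotone (q σ m) := monotone_nat_of_le_succ (q_le_succ σ m)

theorem q_step (hσ : Good m σ) (j : ℕ) : min k (q σ m j + m) ≤ q σ m (j + 2) := by
  rcases Nat.lt_or_ge (q σ m (j + 1)) k with h | h
  · obtain ⟨c, h1, h2, h3⟩ := hσ _ h
    have h4 := le_q_succ σ m (j + 1) c h3 h2
    have h5 : q σ m j + m < c := by
      by_contra h6
      have := le_q_succ σ m j c h3 (not_lt.mp h6)
      omega
    have : q σ m (j + 1 + 1) = q σ m (j + 2) := rfl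
    omega
  · have h1 := q_le_succ σ m (j + 1)
    have : q σ m (j + 1 + 1) = q σ m (j + 2) := rfl
    have h2 : min k (q σ m j + m) ≤ k := min_le_left _ _
    omega

theorem q_even (hσ : Good m σ) (i : ℕ) : min k (i * m) ≤ q σ m (2 * i) := by
  induction i with
  | zero => simp
  | succ i ih =>
    have h1 := q_step σ m hσ (2 * i)
    have h2 : 2 * (i + 1) = 2 * i + 2 := by ring
    rw [h2]
    have h3 : (i + 1) * m = i * m + m := by ring
    rw [h3]
    have h4 : q σ m (2 * i + 2) = q σ m (2 * i + 2) := rfl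
    omega

theorem q_last (hσ : Good m σ) (i : ℕ) (hi : k ≤ i * m) : q σ m (2 * i) = k := by
  have h1 := q_even σ m hσ i
  rw [min_eq_left hi] at h1
  exact le_antisymm (q_cut σ m _).1 h1

/-- Every position lies in one of the groups. -/
theorem exists_label (hσ : Good m σ) (i : ℕ) (hi : k ≤ i * m) (p : ℕ) (hp : p < k) :
    ∃ j < 2 * i, q σ m j ≤ p ∧ p < q σ m (j + 1) := by
  classical
  have hex : ∃ j, p < q σ m (j + 1) := by
    have h1 := q_last σ m hσ i hi
    refine ⟨2 * i, ?_⟩
    have := q_le_succ σ m (2 * i)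
    omega
  refine ⟨Nat.find hex, ?_, ?_, Nat.find_spec hex⟩
  · have h1 := q_last σ m hσ i hi
    have h2 : 0 < 2 * i := by
      rcases Nat.eq_zero_or_pos i with h0 | h0
      · subst h0
        omega
      · omega
    have h3 : Nat.find hex ≤ 2 * i - 1 := by
      apply Nat.find_min'
      have : 2 * i - 1 + 1 = 2 * i := by omega
      rw [this, h1]
      exact hp
    omega
  · rcases Nat.eq_zero_or_pos (Nat.find hex) with h0 | h0
    · rw [h0]
      exact Nat.zero_le _
    · have h1 := Nat.find_min hex (m := Nat.find hex - 1) (by omega)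
      have : Nat.find hex - 1 + 1 = Nat.find hex := by omega
      rw [this] at h1
      omega

end Greedy

/-- Rounded boundaries. -/
def bdry {k : ℕ} (n t : ℕ) (g : Fin k → ℕ) (c : ℕ → ℕ) (j : ℕ) : ℕ :=
  if h : c j < k then g ⟨c j, h⟩ / t else n / t

theorem bdry_le {k : ℕ} (n t : ℕ) (g : Fin k → ℕ) (hg : ∀ i, g i < n) (c : ℕ → ℕ) (j : ℕ) :
    bdry n t g c j ≤ n / t := by
  unfold bdry
  split_ifs with h
  · exact Nat.div_le_div_right (hg _).le
  · exact le_refl _

theorem bdry_mono {k : ℕ} (n t : ℕ) (g : Fin k → ℕ) (hg : ∀ i, g i < n) (hm : Monotone g)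
    (c : ℕ → ℕ) (hc : Monotone c) : Monotone (bdry n t g c) := by
  intro i j hij
  have hcij := hc hij
  by_cases hj : c j < k
  · have hi : c i < k := lt_of_le_of_lt hcij hj
    unfold bdry
    rw [dif_pos hi, dif_pos hj]
    apply Nat.div_le_div_right
    apply hm
    exact hcij
  · have : bdry n t g c j = n / t := by
      unfold bdry
      rw [dif_neg hj]
    rw [this]
    exact bdry_le n t g hg c i

theorem bdry_left {k : ℕ} (n t : ℕ) (g : Fin k → ℕ) (hm : Monotone g)
    (c : ℕ → ℕ) (j : ℕ) (v : Fin k) (hv : c j ≤ v) : bdry n t g c j ≤ g v / t := by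
  have hk : c j < k := lt_of_le_of_lt hv v.isLt
  unfold bdry
  rw [dif_pos hk]
  apply Nat.div_le_div_right
  apply hm
  exact hv

theorem bdry_right {k : ℕ} (n t : ℕ) (g : Fin k → ℕ) (hg : ∀ i, g i < n) (hm : Monotone g)
    (c : ℕ → ℕ) (j : ℕ) (v : Fin k) (hv : (v : ℕ) < c j) : g v / t ≤ bdry n t g c j := by
  unfold bdry
  split_ifs with h
  · apply Nat.div_le_div_right
    apply hm
    exact hv.le
  · exact Nat.div_le_div_right (hg _).le

/-- `π` has a subset of `k` points which splits into `J` parts, of size at most `m` each, the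
`j`-th part lying in the box with corners `α j, β j` and `α (j + 1), β (j + 1)` (in units of
`t`). -/
def Ev {n : ℕ} (t J m k K : ℕ) (α β : Fin (J + 1) → Fin K) (π : Perm (Fin n)) : Prop :=
  ∃ (f : Fin k → Fin n) (lab : Fin k → Fin J), Function.Injective f ∧
    (∀ j, (univ.filter (fun i => lab i = j)).card ≤ m) ∧
    ∀ i, (α (lab i).castSucc : ℕ) ≤ f i / t ∧ (f i : ℕ) / t ≤ α (lab i).succ ∧
      (β (lab i).castSucc : ℕ) ≤ π (f i) / t ∧ (π (f i) : ℕ) / t ≤ β (lab i).succ

theorem exists_ev {n k m : ℕ} (t i₀ : ℕ) (π : Perm (Fin n)) (σ : Perm (Fin k)) (hσ : Good m σ)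
    (h : Contains σ π) (hi : k ≤ i₀ * m) :
    ∃ α β : Fin (2 * i₀ + 1) → Fin (n / t + 1), Monotone α ∧ Monotone β ∧
      Ev t (2 * i₀) m k (n / t + 1) α β π := by
  classical
  obtain ⟨f, hf⟩ := h
  have hmono : ∀ u v : Fin k, u ≤ v → π (f (σ.symm u)) ≤ π (f (σ.symm v)) := by
    intro u v huv
    rcases huv.eq_or_lt with rfl | huv
    · exact le_refl _
    · apply le_of_lt
      rw [← hf]
      simpa using huv
  let gf : Fin k → ℕ := fun i => f i
  let gv : Fin k → ℕ := fun v => π (f (σ.symm v))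
  have hgf : ∀ i, gf i < n := fun i => (f i).isLt
  have hgv : ∀ i, gv i < n := fun i => (π (f (σ.symm i))).isLt
  have hmf : Monotone gf := fun i j hij => f.monotone hij
  have hmv : Monotone gv := fun i j hij => hmono i j hij
  let c := q σ m
  have hc : Monotone c := q_mono σ m
  have hlab : ∀ p : Fin k, ∃ j : Fin (2 * i₀), c j ≤ p ∧ (p : ℕ) < c (j + 1) := by
    intro p
    obtain ⟨j, h1, h2, h3⟩ := exists_label σ m hσ i₀ hi p p.isLt
    exact ⟨⟨j, h1⟩, h2, h3⟩
  choose lab hlab1 hlab2 using hlab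
  refine ⟨fun j => ⟨bdry n t gf c j, Nat.lt_succ_of_le (bdry_le n t gf hgf c j)⟩,
    fun j => ⟨bdry n t gv c j, Nat.lt_succ_of_le (bdry_le n t gv hgv c j)⟩, ?_, ?_,
    fun i => f i, lab, ?_, ?_, ?_⟩
  · intro a b hab
    exact bdry_mono n t gf hgf hmf c hc hab
  · intro a b hab
    exact bdry_mono n t gv hgv hmv c hc hab
  · exact f.injective
  · intro j
    have hsub : (univ.filter (fun i => lab i = j)).image (fun i : Fin k => (i : ℕ)) ⊆
        Finset.Ico (c j) (c (j + 1)) := by
      intro x hx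
      rw [Finset.mem_image] at hx
      obtain ⟨i, hi, rfl⟩ := hx
      rw [mem_filter] at hi
      rw [Finset.mem_Ico, ← hi.2]
      exact ⟨hlab1 i, hlab2 i⟩
    have h1 := Finset.card_le_card hsub
    rw [Finset.card_image_of_injective _ Fin.val_injective, Nat.card_Ico] at h1
    have h2 : c (j + 1) ≤ c j + m := q_succ_le σ m j
    omega
  · intro i
    have hcut1 := (q_cut σ m (lab i)).2 i
    have hcut2 := (q_cut σ m (lab i + 1)).2 i
    have h1 : c (lab i) ≤ σ i := by
      have := hlab1 i
      by_contra h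
      push Not at h
      have := hcut1.mpr h
      have h3 : c (lab i) = q σ m (lab i) := rfl
      omega
    have h2 : (σ i : ℕ) < c (lab i + 1) := hcut2.mp (hlab2 i)
    have e1 : gv (σ i) = π (f i) := by
      simp [gv]
    refine ⟨bdry_left n t gf hmf c _ i (hlab1 i), bdry_right n t gf hgf hmf c _ i (hlab2 i), ?_, ?_⟩
    · have := bdry_left n t gv hmv c (lab i) (σ i) h1
      rw [e1] at this
      exact this
    · have := bdry_right n t gv hgv hmv c (lab i + 1) (σ i) h2
      rw [e1] at this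
      exact this

/-- There are at most `2 ^ (K + J)` weakly increasing sequences. -/
theorem card_mono_le (J K : ℕ) :
    (univ.filter (fun α : Fin (J + 1) → Fin K => Monotone α)).card ≤ 2 ^ (K + J) := by
  classical
  have h1 : ∀ α : Fin (J + 1) → Fin K, ∀ j : Fin (J + 1), (α j : ℕ) + j < K + J := by
    intro α j
    have h2 := (α j).isLt
    have h3 := j.isLt
    omega
  let F : (Fin (J + 1) → Fin K) → Finset (Fin (K + J)) := fun α =>
    univ.image (fun j => (⟨(α j : ℕ) + j, h1 α j⟩ : Fin (K + J)))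
  have h2 : (2 : ℕ) ^ (K + J) = (univ : Finset (Finset (Fin (K + J)))).card := by
    rw [card_univ, Fintype.card_finset, Fintype.card_fin]
  rw [h2]
  apply Finset.card_le_card_of_injOn F (fun _ _ => mem_univ _)
  intro α hα β hβ hF
  have hα' : Monotone α := (mem_filter.mp hα).2
  have hβ' : Monotone β := (mem_filter.mp hβ).2
  have strict : ∀ γ : Fin (J + 1) → Fin K, Monotone γ →
      StrictMono (fun j => (⟨(γ j : ℕ) + j, h1 γ j⟩ : Fin (K + J))) := by
    intro γ hγ a b hab
    have h3 := hγ hab.le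
    rw [Fin.le_def] at h3
    rw [Fin.lt_def] at hab ⊢
    show (γ a : ℕ) + a < (γ b : ℕ) + b
    omega
  have hr : Set.range (fun j => (⟨(α j : ℕ) + j, h1 α j⟩ : Fin (K + J))) =
      Set.range (fun j => (⟨(β j : ℕ) + j, h1 β j⟩ : Fin (K + J))) := by
    have := congrArg (fun s : Finset (Fin (K + J)) => (s : Set (Fin (K + J)))) hF
    simp only [F, Finset.coe_image, Finset.coe_univ, Set.image_univ] at this
    exact this
  have heq := (StrictMono.range_inj (strict α hα') (strict β hβ')).mp hr
  funext j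
  have h4 := congrArg Fin.val (congrFun heq j)
  simp only at h4
  apply Fin.ext
  omega

end Q165.PatClass
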