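import Mathlib

set_option autoImplicit false

/-!
# Pattern classes, and the sum closure of the permutations of length at most `m`
-/

namespace Q165.PatClass

open Equiv Finset

/-- `σ` is contained in `π`. -/
def Contains {k n : ℕ} (σ : Perm (Fin k)) (π : Perm (Fin n)) : Prop :=
  ∃ f : Fin k ↪o Fin n, ∀ i j, σ i < σ j ↔ π (f i) < π (f j)

theorem Contains.refl {n : ℕ} (π : Perm (Fin n)) : Contains π π :=
  ⟨RelEmbedding.refl _, fun _ _ => Iff.rfl⟩

theorem Contains.trans {a b c : ℕ} {σ : Perm (Fin a)} {τ : Perm (Fin b)} {π : Perm (Fin c)}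
    (h1 : Contains σ τ) (h2 : Contains τ π) : Contains σ π := by
  obtain ⟨f, hf⟩ := h1
  obtain ⟨g, hg⟩ := h2
  exact ⟨f.trans g, fun i j => (hf i j).trans (hg _ _)⟩

/-- The permutations of length `n` which contain no element of `B`. -/
def Av (B : Set (Σ k, Perm (Fin k))) (n : ℕ) : Set (Perm (Fin n)) :=
  {π | ∀ β ∈ B, ¬ Contains β.2 π}

/-- `c` is a cut of `σ`: it is at most the length, and `σ` maps the first `c` positions to the
first `c` values. -/
def Cut {k : ℕ} (σ : Perm (Fin k)) (c : ℕ) : Prop :=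
  c ≤ k ∧ ∀ i : Fin k, (i : ℕ) < c ↔ (σ i : ℕ) < c

/-- `σ` is a direct sum of permutations of length at most `m`. -/
def Good (m : ℕ) {k : ℕ} (σ : Perm (Fin k)) : Prop :=
  ∀ p < k, ∃ c, p < c ∧ c ≤ p + m ∧ Cut σ c

theorem lower_card {k : ℕ} (C : Finset (Fin k)) (h : ∀ i j : Fin k, i ≤ j → j ∈ C → i ∈ C)
    (i : Fin k) : (i : ℕ) < C.card ↔ i ∈ C := by
  constructor
  · intro hi
    by_contra hn
    have hsub : C ⊆ Finset.Iio i := by
      intro j hj
      rw [Finset.mem_Iio]
      by_contra hji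
      exact hn (h i j (not_lt.mp hji) hj)
    have := Finset.card_le_card hsub
    rw [Fin.card_Iio] at this
    omega
  · intro hi
    have hsub : Finset.Iic i ⊆ C := by
      intro j hj
      rw [Finset.mem_Iic] at hj
      exact h j i hj hi
    have := Finset.card_le_card hsub
    rw [Fin.card_Iic] at this
    omega

theorem emb_gap {k n : ℕ} (f : Fin k ↪o Fin n) (i : Fin k) (d : ℕ) (hd : (i : ℕ) + d < k) :
    (f i : ℕ) + d ≤ f ⟨i + d, hd⟩ := by
  induction d with
  | zero => exact le_of_eq rfl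
  | succ d ih =>
    have h1 := ih (by omega)
    have h2 : f ⟨(i : ℕ) + d, by omega⟩ < f ⟨(i : ℕ) + (d + 1), hd⟩ := by
      apply f.strictMono
      rw [Fin.lt_def]
      show (i : ℕ) + d < (i : ℕ) + (d + 1)
      omega
    rw [Fin.lt_def] at h2
    omega

/-- The good permutations form a class. -/
theorem Good.of_contains {m k n : ℕ} {σ : Perm (Fin k)} {π : Perm (Fin n)}
    (hπ : Good m π) (h : Contains σ π) : Good m σ := by
  classical
  obtain ⟨f, hf⟩ := h
  intro p hp
  obtain ⟨c, hc1, hc2, hc3, hc4⟩ := hπ (f ⟨p, hp⟩) (f ⟨p, hp⟩).isLt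
  let C : Finset (Fin k) := univ.filter (fun i => (f i : ℕ) < c)
  let D : Finset (Fin k) := univ.filter (fun v => (π (f (σ.symm v)) : ℕ) < c)
  have hC : ∀ i : Fin k, (i : ℕ) < C.card ↔ (f i : ℕ) < c := by
    intro i
    rw [lower_card C]
    · simp [C]
    · intro i j hij hj
      simp only [C, mem_filter, mem_univ, true_and] at hj ⊢
      have : f i ≤ f j := f.monotone hij
      rw [Fin.le_def] at this
      omega
  have hmono : ∀ u v : Fin k, u ≤ v → π (f (σ.symm u)) ≤ π (f (σ.symm v)) := by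
    intro u v huv
    rcases huv.eq_or_lt with rfl | huv
    · exact le_refl _
    · apply le_of_lt
      rw [← hf]
      simpa using huv
  have hD : ∀ v : Fin k, (v : ℕ) < D.card ↔ (π (f (σ.symm v)) : ℕ) < c := by
    intro v
    rw [lower_card D]
    · simp [D]
    · intro i j hij hj
      simp only [D, mem_filter, mem_univ, true_and] at hj ⊢
      have := hmono i j hij
      rw [Fin.le_def] at this
      omega
  have hCD : D.card = C.card := by
    symm
    apply Finset.card_bij (fun i _ => σ i)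
    · intro i hi
      simp only [C, D, mem_filter, mem_univ, true_and, Equiv.symm_apply_apply] at hi ⊢
      exact (hc4 _).mp hi
    · intro i _ j _ hij
      exact σ.injective hij
    · intro v hv
      refine ⟨σ.symm v, ?_, Equiv.apply_symm_apply _ _⟩
      simp only [C, D, mem_filter, mem_univ, true_and] at hv ⊢
      exact (hc4 _).mpr hv
  refine ⟨C.card, (hC ⟨p, hp⟩).mpr hc1, ?_, ?_, ?_⟩
  · by_contra hlt
    push Not at hlt
    have hk : C.card ≤ k := by
      have := Finset.card_le_univ C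
      rwa [Fintype.card_fin] at this
    have h1 := (hC ⟨p + m, by omega⟩).mp hlt
    have h2 := emb_gap f ⟨p, hp⟩ m (by show p + m < k; omega)
    have h3 : (f ⟨p + m, by omega⟩ : ℕ) = f ⟨((⟨p, hp⟩ : Fin k) : ℕ) + m, by show p + m < k; omega⟩ :=
      rfl
    omega
  · have := Finset.card_le_univ C
    rwa [Fintype.card_fin] at this
  · intro i
    rw [hC, hc4]
    have := hD (σ i)
    rw [Equiv.symm_apply_apply, hCD] at this
    exact this.symm

/-- The basis. -/
def Bas (m : ℕ) : Set (Σ k, Perm (Fin k)) := {β | ¬ Good m β.2}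

theorem Av_bas (m n : ℕ) : Av (Bas m) n = {π | Good m π} := by
  ext π
  constructor
  · intro h
    by_contra hn
    exact h ⟨n, π⟩ hn (Contains.refl π)
  · intro h β hβ hc
    exact hβ (h.of_contains hc)

theorem Bas_nonempty (m : ℕ) : (Bas m).Nonempty := by
  refine ⟨⟨m + 1, Fin.revPerm⟩, ?_⟩
  intro h
  obtain ⟨c, h1, h2, h3, h4⟩ := h 0 (Nat.succ_pos m)
  have h5 := (h4 0).mp (by simpa using h1)
  simp only [Fin.revPerm_apply, Fin.val_rev, Fin.val_zero] at h5
  omega

/-- The direct sum of `q` permutations of length `m`. -/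
def blockPerm {q m : ℕ} (τ : Fin q → Perm (Fin m)) : Perm (Fin (q * m)) :=
  Equiv.permCongr finProdFinEquiv (Equiv.prodCongrRight τ)

theorem blockPerm_injective {q m : ℕ} :
    Function.Injective (blockPerm : (Fin q → Perm (Fin m)) → Perm (Fin (q * m))) := by
  intro τ τ' h
  unfold blockPerm at h
  have h1 := (Equiv.permCongr finProdFinEquiv).injective h
  funext a
  ext1 b
  have h2 := congrArg (fun e => (e (a, b)).2) h1
  exact h2

theorem blockPerm_div {q m : ℕ} (τ : Fin q → Perm (Fin m)) (i : Fin (q * m)) :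
    (blockPerm τ i : ℕ) / m = (i : ℕ) / m := by
  obtain ⟨⟨a, b⟩, rfl⟩ := finProdFinEquiv.surjective i
  have hm : 0 < m := lt_of_le_of_lt (Nat.zero_le _) b.isLt
  have h1 : blockPerm τ (finProdFinEquiv (a, b)) = finProdFinEquiv (a, τ a b) := by
    unfold blockPerm
    simp [Equiv.permCongr_apply]
  rw [h1, finProdFinEquiv_apply_val, finProdFinEquiv_apply_val]
  simp only
  rw [Nat.add_mul_div_left _ _ hm, Nat.add_mul_div_left _ _ hm, Nat.div_eq_of_lt b.isLt,
    Nat.div_eq_of_lt (τ a b).isLt]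

theorem blockPerm_good {q m : ℕ} (hm : 0 < m) (τ : Fin q → Perm (Fin m)) :
    Good m (blockPerm τ) := by
  intro p hp
  have h0 : p / m < q := by
    rw [Nat.div_lt_iff_lt_mul hm]
    exact hp
  have h1 : m * (p / m) ≤ p := Nat.mul_div_le p m
  have h2 : p < m * (p / m + 1) := Nat.lt_mul_div_succ p hm
  refine ⟨m * (p / m + 1), h2, ?_, ?_, ?_⟩
  · rw [Nat.mul_add, Nat.mul_one]
    omega
  · rw [mul_comm]
    exact Nat.mul_le_mul_right m h0
  · intro i
    have h3 := blockPerm_div τ i
    rw [mul_comm m, ← Nat.div_lt_iff_lt_mul hm, ← Nat.div_lt_iff_lt_mul hm, h3]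

theorem card_good_ge {q m : ℕ} (hm : 0 < m) :
    m.factorial ^ q ≤ ({π : Perm (Fin (q * m)) | Good m π}).ncard := by
  have h1 : Set.range (blockPerm : (Fin q → Perm (Fin m)) → Perm (Fin (q * m))) ⊆
      {π : Perm (Fin (q * m)) | Good m π} := by
    rintro _ ⟨τ, rfl⟩
    exact blockPerm_good hm τ
  have h2 := Set.ncard_le_ncard h1 (Set.toFinite _)
  rw [← Set.image_univ, Set.ncard_image_of_injective _ blockPerm_injective, Set.ncard_univ,
    Nat.card_eq_fintype_card, Fintype.card_fun, Fintype.card_perm, Fintype.card_fin,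
    Fintype.card_fin] at h2
  exact h2

end Q165.PatClass
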