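import Pool.Agent.Q165.PatChain

set_option autoImplicit false

/-!
# The first moment bound for chains of boxes
-/

namespace Q165.PatClass

open Equiv Finset

/-- The number of permutations with prescribed values on `T`. -/
theorem card_fixed {n : ℕ} (T : Finset (Fin n)) (g : T → Fin n) :
    (univ.filter (fun π : Perm (Fin n) => (fun u : T => π u) = g)).card ≤
      (n - T.card).factorial := by
  classical
  rcases (univ.filter (fun π : Perm (Fin n) => (fun u : T => π u) = g)).eq_empty_or_nonempty with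
    h | ⟨π₀, h0⟩
  · rw [h]
    simp
  · rw [mem_filter] at h0
    have hcard : Fintype.card {f : Perm (Fin n) // ∀ a, ¬ (a ∉ T) → f a = a} =
        (n - T.card).factorial := by
      rw [← Fintype.card_congr (Equiv.Perm.subtypeEquivSubtypePerm (fun a : Fin n => a ∉ T))]
      rw [Fintype.card_perm, Fintype.card_subtype_compl, Fintype.card_fin]
      simp
    rw [← hcard, ← Finset.card_univ]
    apply Finset.card_le_card_of_injOn (fun π => if h : ∀ a, ¬ (a ∉ T) → (π₀⁻¹ * π) a = a then
      (⟨π₀⁻¹ * π, h⟩ : {f : Perm (Fin n) // ∀ a, ¬ (a ∉ T) → f a = a}) else ⟨1, fun _ _ => rfl⟩)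
    · intro π _
      exact mem_univ _
    · have key : ∀ π ∈ univ.filter (fun π : Perm (Fin n) => (fun u : T => π u) = g),
          ∀ a, ¬ (a ∉ T) → (π₀⁻¹ * π) a = a := by
        intro π hπ a ha
        rw [mem_filter] at hπ
        push Not at ha
        have h1 := congrFun hπ.2 ⟨a, ha⟩
        have h2 := congrFun h0.2 ⟨a, ha⟩
        simp only at h1 h2
        rw [Perm.mul_apply, Perm.inv_eq_iff_eq, h1, h2]
      intro π hπ ρ hρ he
      simp only at he
      rw [dif_pos (key π hπ), dif_pos (key ρ hρ)] at he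
      have := congrArg Subtype.val he
      exact mul_left_cancel this

/-- The expectation of a product over `T`. -/
theorem sum_perm_le {n : ℕ} (w : Fin n → Fin n → ℝ) (hw : ∀ u v, 0 ≤ w u v)
    (T : Finset (Fin n)) :
    ∑ π : Perm (Fin n), ∏ u ∈ T, w u (π u) ≤
      ((n - T.card).factorial : ℝ) * ∏ u ∈ T, ∑ v, w u v := by
  classical
  have h1 : ∑ π : Perm (Fin n), ∏ u ∈ T, w u (π u) =
      ∑ g : T → Fin n, ∑ π ∈ univ.filter (fun π : Perm (Fin n) => (fun u : T => π u) = g),
        ∏ u : T, w u (g u) := by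
    rw [← Finset.sum_fiberwise univ (fun π : Perm (Fin n) => (fun u : T => π u))]
    apply Finset.sum_congr rfl
    intro g _
    apply Finset.sum_congr rfl
    intro π hπ
    rw [mem_filter] at hπ
    rw [← hπ.2, ← Finset.prod_coe_sort T (fun u => w u (π u))]
  have h2 : ∏ u ∈ T, ∑ v, w u v = ∑ g : T → Fin n, ∏ u : T, w u (g u) := by
    rw [← Finset.prod_coe_sort T (fun u => ∑ v, w u v), Finset.prod_univ_sum]
    simp
  rw [h1, h2, Finset.mul_sum]
  apply Finset.sum_le_sum
  intro g _
  rw [Finset.sum_const, nsmul_eq_mul]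
  apply mul_le_mul_of_nonneg_right
  · exact_mod_cast card_fixed T g
  · exact Finset.prod_nonneg (fun u _ => hw _ _)

/-- The truncated generating function. -/
noncomputable def F {n : ℕ} (k : ℕ) (θ : ℝ) (w : Fin n → Fin n → ℝ) (π : Perm (Fin n)) : ℝ :=
  ∑ T ∈ (univ : Finset (Finset (Fin n))).filter (fun T => T.card ≤ k),
    θ ^ T.card * ∏ u ∈ T, w u (π u)

theorem sum_F_le {n k : ℕ} (hk : k < n) (θ : ℝ) (hθ : 0 ≤ θ) (w : Fin n → Fin n → ℝ)
    (hw : ∀ u v, 0 ≤ w u v) :
    ∑ π : Perm (Fin n), F k θ w π ≤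
      (n.factorial : ℝ) * Real.exp (θ * (∑ u, ∑ v, w u v) / (n - k)) := by
  classical
  have hnk : (0 : ℝ) < (n : ℝ) - k := by
    have : (k : ℝ) < n := by exact_mod_cast hk
    linarith
  unfold F
  rw [Finset.sum_comm]
  have hr : ∀ u, 0 ≤ ∑ v, w u v := fun u => Finset.sum_nonneg (fun v _ => hw u v)
  have h1 : ∀ T ∈ (univ : Finset (Finset (Fin n))).filter (fun T => T.card ≤ k),
      ∑ π : Perm (Fin n), θ ^ T.card * ∏ u ∈ T, w u (π u) ≤
        (n.factorial : ℝ) * ∏ u ∈ T, (θ * (∑ v, w u v) / (n - k)) := by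
    intro T hT
    rw [mem_filter] at hT
    rw [← Finset.mul_sum]
    have h2 := sum_perm_le w hw T
    have h3 : ((n - T.card).factorial : ℝ) * ((n : ℝ) - k) ^ T.card ≤ n.factorial := by
      have h4 := Nat.factorial_mul_pow_le_factorial (m := n - T.card) (n := T.card)
      have h5 : T.card ≤ n := by
        have := Finset.card_le_univ T
        rwa [Fintype.card_fin] at this
      rw [Nat.sub_add_cancel h5] at h4
      have h6 : ((n - T.card).factorial : ℝ) * ((n - T.card + 1 : ℕ) : ℝ) ^ T.card ≤ n.factorial := by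
        exact_mod_cast h4
      refine le_trans ?_ h6
      apply mul_le_mul_of_nonneg_left _ (by positivity)
      apply pow_le_pow_left₀ hnk.le
      have h7 : (n : ℝ) ≤ ((n - T.card + 1 : ℕ) : ℝ) + k := by
        have : n ≤ n - T.card + 1 + k := by omega
        exact_mod_cast this
      linarith
    have h8 : ∏ u ∈ T, (θ * (∑ v, w u v) / ((n : ℝ) - k)) =
        θ ^ T.card * (∏ u ∈ T, ∑ v, w u v) / ((n : ℝ) - k) ^ T.card := by
      rw [Finset.prod_div_distrib, Finset.prod_mul_distrib, Finset.prod_const, Finset.prod_const]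
    rw [h8, ← mul_div_assoc, le_div_iff₀ (pow_pos hnk _)]
    calc θ ^ T.card * (∑ π : Perm (Fin n), ∏ u ∈ T, w u (π u)) * ((n : ℝ) - k) ^ T.card
        ≤ θ ^ T.card * (((n - T.card).factorial : ℝ) * ∏ u ∈ T, ∑ v, w u v) *
            ((n : ℝ) - k) ^ T.card := by
          apply mul_le_mul_of_nonneg_right _ (pow_nonneg hnk.le _)
          exact mul_le_mul_of_nonneg_left h2 (pow_nonneg hθ _)
      _ = (θ ^ T.card * ∏ u ∈ T, ∑ v, w u v) *
            (((n - T.card).factorial : ℝ) * ((n : ℝ) - k) ^ T.card) := by ring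
      _ ≤ (θ ^ T.card * ∏ u ∈ T, ∑ v, w u v) * n.factorial := by
          apply mul_le_mul_of_nonneg_left h3
          exact mul_nonneg (pow_nonneg hθ _) (Finset.prod_nonneg (fun u _ => hr u))
      _ = _ := by ring
  refine (Finset.sum_le_sum h1).trans ?_
  rw [← Finset.mul_sum]
  apply mul_le_mul_of_nonneg_left _ (by positivity)
  have hnn : ∀ u, 0 ≤ θ * (∑ v, w u v) / ((n : ℝ) - k) := fun u =>
    div_nonneg (mul_nonneg hθ (hr u)) hnk.le
  calc ∑ T ∈ (univ : Finset (Finset (Fin n))).filter (fun T => T.card ≤ k),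
        ∏ u ∈ T, (θ * (∑ v, w u v) / ((n : ℝ) - k))
      ≤ ∑ T : Finset (Fin n), ∏ u ∈ T, (θ * (∑ v, w u v) / ((n : ℝ) - k)) := by
        apply Finset.sum_le_sum_of_subset_of_nonneg (Finset.filter_subset _ _)
        intro T _ _
        exact Finset.prod_nonneg (fun u _ => hnn u)
    _ = ∏ u : Fin n, (1 + θ * (∑ v, w u v) / ((n : ℝ) - k)) := by
        rw [Finset.prod_one_add, Finset.powerset_univ]
    _ ≤ ∏ u : Fin n, Real.exp (θ * (∑ v, w u v) / ((n : ℝ) - k)) := by
        apply Finset.prod_le_prod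
        · intro u _
          have := hnn u
          linarith
        · intro u _
          rw [add_comm]
          exact Real.add_one_le_exp _
    _ = Real.exp (θ * (∑ u, ∑ v, w u v) / (n - k)) := by
        rw [← Real.exp_sum]
        congr 1
        rw [← Finset.sum_div, ← Finset.mul_sum]

end Q165.PatClass
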