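import Mathlib

set_option autoImplicit false

/-!
# Characters with values in `ℚ / ℤ`
-/

namespace Q165.QZ

/-- A nonzero element of an abelian group is detected by a character to `ℚ / ℤ`. -/
theorem exists_char {A : Type*} [AddCommGroup A] {a : A} (ha : a ≠ 0) :
    ∃ χ : A →+ AddCircle (1 : ℚ), χ a ≠ 0 := by
  obtain ⟨c, hc⟩ := CharacterModule.exists_character_apply_ne_zero_of_ne_zero ha
  exact ⟨c, hc⟩

/-- An element outside the range of a homomorphism is separated from it by a character. -/
theorem exists_char_range {W A : Type*} [AddCommGroup W] [AddCommGroup A] (Θ : W →+ A) {v : A}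
    (hv : v ∉ Θ.range) :
    ∃ χ : A →+ AddCircle (1 : ℚ), (∀ w, χ (Θ w) = 0) ∧ χ v ≠ 0 := by
  have h1 : (QuotientAddGroup.mk' Θ.range) v ≠ 0 := by
    intro h
    exact hv ((QuotientAddGroup.eq_zero_iff v).mp h)
  obtain ⟨χ, hχ⟩ := exists_char h1
  refine ⟨χ.comp (QuotientAddGroup.mk' Θ.range), ?_, hχ⟩
  intro w
  have : (QuotientAddGroup.mk' Θ.range) (Θ w) = 0 :=
    (QuotientAddGroup.eq_zero_iff (Θ w)).mpr ⟨w, rfl⟩
  rw [AddMonoidHom.comp_apply, this, map_zero]

/-- Every element of `ℚ / ℤ` killed by `n > 0` is `k / n` for some `k < n`. -/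
theorem torsion_mem {n : ℕ} (hn : 0 < n) (x : AddCircle (1 : ℚ)) (hx : n • x = 0) :
    ∃ k ∈ Finset.range n, ((k : ℚ) / n : ℚ) = x := by
  induction x using QuotientAddGroup.induction_on with
  | H q =>
    have h1 : ((n • q : ℚ) : AddCircle (1 : ℚ)) = 0 := hx
    rw [AddCircle.coe_eq_zero_iff] at h1
    obtain ⟨m, hm⟩ := h1
    have hn' : (n : ℚ) ≠ 0 := by positivity
    have hq : q = (m : ℚ) / n := by
      rw [eq_div_iff hn']
      simp only [zsmul_eq_mul, mul_one, nsmul_eq_mul] at hm
      rw [hm, mul_comm]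
    have hnz : (n : ℤ) ≠ 0 := by exact_mod_cast hn.ne'
    refine ⟨(m % n).toNat, ?_, ?_⟩
    · rw [Finset.mem_range]
      have h2 := Int.emod_lt_of_pos m (show (0 : ℤ) < n by exact_mod_cast hn)
      have h3 := Int.emod_nonneg m hnz
      omega
    · have h3 := Int.emod_nonneg m hnz
      have h4 : (((m % n).toNat : ℕ) : ℚ) = ((m % n : ℤ) : ℚ) := by
        have : (((m % n).toNat : ℕ) : ℤ) = m % n := Int.toNat_of_nonneg h3
        exact_mod_cast congrArg (Int.cast : ℤ → ℚ) this
      rw [h4, hq]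
      rw [← sub_eq_zero, ← AddCircle.coe_sub, AddCircle.coe_eq_zero_iff]
      refine ⟨-(m / n), ?_⟩
      have h5 : (m : ℚ) = n * ((m / n : ℤ) : ℚ) + ((m % n : ℤ) : ℚ) := by
        exact_mod_cast (Int.mul_ediv_add_emod m n).symm
      rw [h5]
      simp only [zsmul_eq_mul, mul_one]
      push_cast
      field_simp
      ring

/-- Finite subgroups of `ℚ / ℤ` are cyclic. -/
theorem isAddCyclic (P : AddSubgroup (AddCircle (1 : ℚ))) [Finite P] : IsAddCyclic P := by
  classical
  have : Fintype P := Fintype.ofFinite P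
  apply isAddCyclic_of_card_nsmul_eq_zero_le
  intro n hn
  have hinj : (Finset.univ.filter (fun a : P => n • a = 0)).image Subtype.val ⊆
      (Finset.range n).image (fun k : ℕ => (((k : ℚ) / n : ℚ) : AddCircle (1 : ℚ))) := by
    intro x hx
    rw [Finset.mem_image] at hx ⊢
    obtain ⟨a, ha, rfl⟩ := hx
    rw [Finset.mem_filter] at ha
    have h1 : n • (a : AddCircle (1 : ℚ)) = 0 := by
      have := congrArg (fun b : P => (b : AddCircle (1 : ℚ))) ha.2
      simpa using this
    obtain ⟨k, hk, hk2⟩ := torsion_mem hn _ h1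
    exact ⟨k, hk, hk2⟩
  calc (Finset.univ.filter (fun a : P => n • a = 0)).card
      = ((Finset.univ.filter (fun a : P => n • a = 0)).image Subtype.val).card :=
        (Finset.card_image_of_injective _ Subtype.val_injective).symm
    _ ≤ _ := Finset.card_le_card hinj
    _ ≤ (Finset.range n).card := Finset.card_image_le
    _ = n := Finset.card_range n

end Q165.QZ
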