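import Mathlib

set_option autoImplicit false

/-!
# Degree sequences that realize a perfect matching

A perfect matching of `Fin n` is given here by its involution `f`.  `K f a s` is the number of pairs
of the matching with one end `< a` and the other `≥ s`.
-/

open Finset

namespace Q165.RM

variable {n : ℕ}

/-- The number of `j ≥ s` whose mate is `< a`. -/
def K (f : Fin n → Fin n) (a s : ℕ) : ℕ :=
  (univ.filter fun j : Fin n => s ≤ j.val ∧ (f j).val < a).card

theorem K_s (f : Fin n → Fin n) (a s : ℕ) (hs : s < n) :
    K f a s = K f a (s + 1) + if (f ⟨s, hs⟩).val < a then 1 else 0 := by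
  unfold K
  rw [card_filter, card_filter]
  have h : (if (f ⟨s, hs⟩).val < a then 1 else 0) =
      ∑ j : Fin n, if j = ⟨s, hs⟩ then (if (f ⟨s, hs⟩).val < a then 1 else 0) else 0 := by
    simp
  rw [h, ← sum_add_distrib]
  apply sum_congr rfl
  intro j _
  by_cases hj : j = ⟨s, hs⟩
  · subst hj
    simp
  · have hj' : j.val ≠ s := fun e => hj (Fin.ext e)
    simp only [hj, if_false, add_zero]
    by_cases h1 : (f j).val < a
    · by_cases h2 : s ≤ j.val
      · have h3 : s + 1 ≤ j.val := by omega
        simp [h1, h2, h3]
      · have h3 : ¬ s + 1 ≤ j.val := by omega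
        simp [h2, h3]
    · simp [h1]

theorem K_a (f : Fin n → Fin n) (hf : ∀ i, f (f i) = i) (a s : ℕ) (ha : a < n) :
    K f (a + 1) s = K f a s + if s ≤ (f ⟨a, ha⟩).val then 1 else 0 := by
  unfold K
  rw [card_filter, card_filter]
  have h : (if s ≤ (f ⟨a, ha⟩).val then 1 else 0) =
      ∑ j : Fin n, if j = f ⟨a, ha⟩ then (if s ≤ (f ⟨a, ha⟩).val then 1 else 0) else 0 := by
    simp
  rw [h, ← sum_add_distrib]
  apply sum_congr rfl
  intro j _
  by_cases hj : j = f ⟨a, ha⟩
  · have h1 : (f j).val = a := by rw [hj, hf]
    rw [← hj]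
    simp [h1]
  · have hj' : (f j).val ≠ a := by
      intro e
      apply hj
      have : f j = ⟨a, ha⟩ := Fin.ext e
      rw [← this, hf]
    simp only [hj, if_false, add_zero]
    by_cases h2 : s ≤ j.val
    · by_cases h1 : (f j).val < a
      · have h3 : (f j).val < a + 1 := by omega
        simp [h1, h2, h3]
      · have h3 : ¬ (f j).val < a + 1 := by omega
        simp [h1, h3]
    · simp [h2]

theorem K_zero (f : Fin n → Fin n) (s : ℕ) : K f 0 s = 0 := by
  unfold K
  simp

theorem K_large (f : Fin n → Fin n) (a s : ℕ) (hs : n ≤ s) : K f a s = 0 := by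
  unfold K
  rw [card_eq_zero, filter_eq_empty_iff]
  intro j _ h
  have := j.isLt
  omega

theorem K_le (f : Fin n → Fin n) (a s : ℕ) : K f a s ≤ n - s := by
  unfold K
  calc _ ≤ (univ.filter fun j : Fin n => s ≤ j.val).card := by
        apply card_le_card
        intro j hj
        simp only [mem_filter, mem_univ, true_and] at hj ⊢
        exact hj.1
    _ ≤ n - s := by
        by_cases hs : s < n
        · have : (univ.filter fun j : Fin n => s ≤ j.val) = Finset.Ici (⟨s, hs⟩ : Fin n) := by
            ext j
            simp [Fin.le_def]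
          rw [this]
          simp
        · have : (univ.filter fun j : Fin n => s ≤ j.val) = ∅ := by
            rw [filter_eq_empty_iff]
            intro j _ h
            have := j.isLt
            omega
          rw [this]
          simp

/-- A finite set with an even number of elements has an involution without fixed points. -/
theorem exists_pairing {α : Type*} [DecidableEq α] (S : Finset α) (hS : Even S.card) :
    ∃ σ : α → α, ∀ x ∈ S, σ x ∈ S ∧ σ x ≠ x ∧ σ (σ x) = x := by
  obtain ⟨m, hm⟩ := hS
  induction m generalizing S with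
  | zero =>
    have : S = ∅ := by
      rw [← card_eq_zero]; omega
    subst this
    exact ⟨id, by simp⟩
  | succ m ih =>
    have h1 : 0 < S.card := by omega
    obtain ⟨x, hx⟩ := card_pos.1 h1
    have h2 : 0 < (S.erase x).card := by
      rw [card_erase_of_mem hx]; omega
    obtain ⟨y, hy⟩ := card_pos.1 h2
    have hyx : y ≠ x := (mem_erase.1 hy).1
    have hyS : y ∈ S := (mem_erase.1 hy).2
    obtain ⟨σ, hσ⟩ := ih ((S.erase x).erase y) (by
      rw [card_erase_of_mem hy, card_erase_of_mem hx]; omega)
    refine ⟨fun z => if z = x then y else if z = y then x else σ z, ?_⟩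
    intro z hz
    by_cases hzx : z = x
    · subst hzx
      simp [hyS, hyx]
    · by_cases hzy : z = y
      · subst hzy
        simp [hx, hyx, Ne.symm hyx]
      · have hz' : z ∈ (S.erase x).erase y := by
          simp [hzx, hzy, hz]
        obtain ⟨h3, h4, h5⟩ := hσ z hz'
        have h6 : σ z ≠ y := (mem_erase.1 h3).1
        have h7 : σ z ≠ x := (mem_erase.1 (mem_erase.1 h3).2).1
        have h8 : σ z ∈ S := (mem_erase.1 (mem_erase.1 h3).2).2
        simp [hzx, hzy, h6, h7, h8, h4, h5]

end Q165.RM
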