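import Pool.Agent.Q165.RealMatch

set_option autoImplicit false

/-!
# A degree sequence that distinguishes two perfect matchings with different cut numbers
-/

open Finset

namespace Q165.RM

variable {n : ℕ}

/-- There is a graph with degrees `d` that contains the pairs `i, f i`. -/
def Realizes (d : Fin n → ℕ) (f : Fin n → Fin n) : Prop :=
  ∃ G : SimpleGraph (Fin n), (∀ i, (G.neighborSet i).ncard = d i) ∧ ∀ i, G.Adj i (f i)

theorem card_aux (P : Fin n) (E : Finset (Fin n)) (hE : ∀ x ∈ E, P ≤ x) :
    (Finset.Iio P ∪ E).card = P.val + E.card := by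
  rw [card_union_of_disjoint, Fin.card_Iio]
  rw [Finset.disjoint_left]
  intro x hx hx'
  exact absurd (Finset.mem_Iio.1 hx) (not_lt.2 (hE x hx'))

/-- The sequence. -/
def seq (f : Fin n → Fin n) (p s : ℕ) (ev : Bool) (i : Fin n) : ℕ :=
  if i.val < p then n - 1
  else if i.val = p then (s - 1) + K f (p + 1) s
  else if i.val < s then (if i.val = p + 1 ∧ ev = false then p + 3 else p + 2)
  else p + 1

theorem seq_antitone (f : Fin n → Fin n) (p s : ℕ) (ev : Bool) (hps : p + 1 ≤ s) (hsn : s < n)
    (hK : 1 ≤ K f (p + 1) s) (_hc : s = p + 1 ∨ p + 3 ≤ s) (hev : ev = false → p + 4 ≤ s) :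
    Antitone (seq f p s ev) := by
  intro i j hij
  have hij' : i.val ≤ j.val := hij
  have hi := i.isLt
  have hj := j.isLt
  have hKn := K_le f (p + 1) s
  unfold seq
  cases ev with
  | false =>
    have h4 := hev rfl
    simp only [and_true]
    split_ifs <;> omega
  | true =>
    simp only [Bool.true_eq_false, and_false, if_false]
    split_ifs <;> omega

theorem one_le_seq (f : Fin n → Fin n) (p s : ℕ) (ev : Bool) (hps : p + 1 ≤ s) (hsn : s < n)
    (hK : 1 ≤ K f (p + 1) s) (i : Fin n) : 1 ≤ seq f p s ev i := by
  unfold seq
  split_ifs <;> omega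

section Graph

variable (f : Fin n → Fin n) (p s : ℕ) (Z : Finset (Fin n)) (σ : Fin n → Fin n)

/-- The adjacency relation of the realization. -/
def Rel (i j : Fin n) : Prop :=
  i.val < p ∨ j.val < p ∨ (i.val = p ∧ (j.val < s ∨ (f j).val < p + 1)) ∨
    (j.val = p ∧ (i.val < s ∨ (f i).val < p + 1)) ∨ f i = j ∨ (i ∈ Z ∧ σ i = j)

/-- The realization. -/
def graph (hf : ∀ i, f (f i) = i) (hσ : ∀ x ∈ Z, σ x ∈ Z ∧ σ x ≠ x ∧ σ (σ x) = x) :
    SimpleGraph (Fin n) where
  Adj i j := i ≠ j ∧ Rel f p s Z σ i j
  symm := ⟨by
    rintro i j ⟨h, h'⟩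
    refine ⟨h.symm, ?_⟩
    rcases h' with h1 | h1 | h1 | h1 | h1 | h1
    · exact Or.inr (Or.inl h1)
    · exact Or.inl h1
    · exact Or.inr (Or.inr (Or.inr (Or.inl h1)))
    · exact Or.inr (Or.inr (Or.inl h1))
    · refine Or.inr (Or.inr (Or.inr (Or.inr (Or.inl ?_))))
      rw [← h1, hf]
    · refine Or.inr (Or.inr (Or.inr (Or.inr (Or.inr ?_))))
      rw [← h1.2]
      exact ⟨(hσ i h1.1).1, (hσ i h1.1).2.2⟩⟩
  loopless := ⟨fun i h => h.1 rfl⟩

end Graph

/-- The realization of the sequence that contains the matching `f`. -/
theorem realizes_seq (f : Fin n → Fin n) (hf : ∀ i, f (f i) = i) (hne : ∀ i, f i ≠ i)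
    (p s : ℕ) (hps : p + 1 ≤ s) (hsn : s < n)
    (hc : s = p + 1 ∨ (p + 3 ≤ s ∧ ∀ h : p + 1 < n, (f ⟨p + 1, h⟩).val = s - 1)) :
    ∃ ev : Bool, (ev = false → p + 4 ≤ s) ∧ Realizes (seq f p s ev) f := by
  classical
  have hpn : p < n := by omega
  set P : Fin n := ⟨p, hpn⟩ with hP
  set Z : Finset (Fin n) := univ.filter fun i => p + 1 ≤ i.val ∧ i.val < s ∧ (f i).val < p + 1
    with hZ
  have memZ : ∀ i, i ∈ Z ↔ p + 1 ≤ i.val ∧ i.val < s ∧ (f i).val < p + 1 := by
    intro i; rw [hZ]; simp
  -- the set which is paired, the flag
  obtain ⟨ev, Z', hev, hZ'1, hZ'2, hZ'e⟩ : ∃ (ev : Bool) (Z' : Finset (Fin n)),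
      (ev = false → p + 4 ≤ s) ∧ (ev = true → Z' = Z) ∧
      (ev = false → ∃ h : p + 1 < n, Z' = insert ⟨p + 1, h⟩ Z ∧ (⟨p + 1, h⟩ : Fin n) ∉ Z ∧
        (f ⟨p + 1, h⟩).val = s - 1 ∧ p + 3 ≤ s) ∧ Even Z'.card := by
    by_cases he : Even Z.card
    · exact ⟨true, Z, by simp, fun _ => rfl, by simp, he⟩
    · have hne' : Z.Nonempty := by
        rw [nonempty_iff_ne_empty]
        intro h0
        rw [h0] at he
        simp at he
      obtain ⟨z, hz⟩ := hne'
      rw [memZ] at hz
      have h3 : p + 3 ≤ s ∧ ∀ h : p + 1 < n, (f ⟨p + 1, h⟩).val = s - 1 := by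
        rcases hc with h | h
        · omega
        · exact h
      have h1n : p + 1 < n := by omega
      have hfa := h3.2 h1n
      have hnot : (⟨p + 1, h1n⟩ : Fin n) ∉ Z := by
        rw [memZ]
        rintro ⟨-, -, h⟩
        omega
      refine ⟨false, insert ⟨p + 1, h1n⟩ Z, ?_, by simp, ?_, ?_⟩
      · intro _
        have hz1 : z.val ≠ p + 1 := by
          intro h
          apply hnot
          rw [memZ]
          have : z = ⟨p + 1, h1n⟩ := Fin.ext h
          rw [← this]
          exact hz
        have hz2 : z.val ≠ s - 1 := by
          intro h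
          have h5 : z = f ⟨p + 1, h1n⟩ := Fin.ext (by rw [hfa]; exact h)
          have h6 : (f z).val = p + 1 := by rw [h5, hf]
          omega
        omega
      · intro _
        exact ⟨h1n, rfl, hnot, hfa, h3.1⟩
      · rw [card_insert_of_notMem hnot]
        rw [Nat.not_even_iff_odd] at he
        exact he.add_one
  obtain ⟨σ, hσ⟩ := exists_pairing Z' hZ'e
  have Z'_sub : ∀ i ∈ Z', p + 1 ≤ i.val ∧ i.val < s := by
    intro i hi
    cases ev with
    | true =>
      rw [hZ'1 rfl, memZ] at hi
      exact ⟨hi.1, hi.2.1⟩
    | false =>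
      obtain ⟨h, h1, -, -, h4⟩ := hZ'2 rfl
      rw [h1, mem_insert] at hi
      rcases hi with hi | hi
      · rw [hi]
        refine ⟨le_refl _, ?_⟩
        show p + 1 < s
        omega
      · rw [memZ] at hi
        exact ⟨hi.1, hi.2.1⟩
  have Z_sub : ∀ i ∈ Z, i ∈ Z' := by
    intro i hi
    cases ev with
    | true => rw [hZ'1 rfl]; exact hi
    | false =>
      obtain ⟨h, h1, -, -, -⟩ := hZ'2 rfl
      rw [h1]
      exact mem_insert_of_mem hi
  refine ⟨ev, hev, graph f p s Z' σ hf hσ, ?_, ?_⟩
  swap
  · intro i
    exact ⟨(hne i).symm, Or.inr (Or.inr (Or.inr (Or.inr (Or.inl rfl))))⟩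
  intro i
  have adj : ∀ i j, (graph f p s Z' σ hf hσ).Adj i j ↔ i ≠ j ∧ Rel f p s Z' σ i j :=
    fun _ _ => Iff.rfl
  unfold seq
  by_cases h1 : i.val < p
  · rw [if_pos h1]
    have : (graph f p s Z' σ hf hσ).neighborSet i = (({i}ᶜ : Finset (Fin n)) : Set (Fin n)) := by
      ext j
      simp only [SimpleGraph.mem_neighborSet, adj, coe_compl, coe_singleton, Set.mem_compl_iff,
        Set.mem_singleton_iff]
      constructor
      · rintro ⟨h, -⟩ h'
        exact h h'.symm
      · intro h
        exact ⟨fun h' => h h'.symm, Or.inl h1⟩
    rw [this, Set.ncard_coe_finset, card_compl, card_singleton, Fintype.card_fin]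
  rw [if_neg h1]
  by_cases h2 : i.val = p
  · rw [if_pos h2]
    have hiP : i = P := Fin.ext h2
    have : (graph f p s Z' σ hf hσ).neighborSet i =
        ((((Finset.Iio (⟨s, hsn⟩ : Fin n)).erase P ∪
          univ.filter fun j : Fin n => s ≤ j.val ∧ (f j).val < p + 1) : Finset (Fin n)) :
          Set (Fin n)) := by
      ext j
      simp only [SimpleGraph.mem_neighborSet, adj, coe_union, coe_erase, coe_Iio, coe_filter,
        Set.mem_union, Set.mem_sdiff, Set.mem_Iio, Set.mem_singleton_iff, mem_univ, true_and,
        Set.mem_ofPred_eq, Fin.lt_def]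
      constructor
      · rintro ⟨h, h'⟩
        have hjP : j ≠ P := fun e => h (by rw [hiP, e])
        by_cases hjs : j.val < s
        · exact Or.inl ⟨hjs, hjP⟩
        · right
          refine ⟨by omega, ?_⟩
          rcases h' with h3 | h3 | h3 | h3 | h3 | h3
          · omega
          · omega
          · rcases h3.2 with h4 | h4
            · exact absurd h4 hjs
            · exact h4
          · exact absurd (Fin.ext h3.1 : j = P) hjP
          · rw [← h3, hf]; omega
          · have := Z'_sub i h3.1
            omega
      · rintro (⟨h3, h4⟩ | ⟨h3, h4⟩)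
        · refine ⟨fun e => h4 (by rw [← e, hiP]), ?_⟩
          exact Or.inr (Or.inr (Or.inl ⟨h2, Or.inl h3⟩))
        · refine ⟨?_, Or.inr (Or.inr (Or.inl ⟨h2, Or.inr h4⟩))⟩
          intro e
          rw [← e] at h3
          omega
    rw [this, Set.ncard_coe_finset, card_union_of_disjoint, card_erase_of_mem, Fin.card_Iio]
    · rfl
    · simp only [mem_Iio, Fin.lt_def]
      show p < s
      omega
    · rw [Finset.disjoint_left]
      intro x hx hx'
      simp only [mem_erase, mem_Iio, Fin.lt_def, mem_filter, mem_univ, true_and] at hx hx'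
      omega
  rw [if_neg h2]
  have hPi : P ≤ i := by
    rw [Fin.le_def]; show p ≤ i.val; omega
  by_cases h3 : i.val < s
  · rw [if_pos h3]
    by_cases hiZ' : i ∈ Z'
    · -- i is paired by σ
      obtain ⟨hs1, hs2, hs3⟩ := hσ i hiZ'
      have hσi := Z'_sub _ hs1
      by_cases hiZ : i ∈ Z
      · have hfi := ((memZ i).1 hiZ).2.2
        have hval : ¬ (i.val = p + 1 ∧ ev = false) := by
          rintro ⟨h5, h6⟩
          obtain ⟨h, -, h8, -, -⟩ := hZ'2 h6
          apply h8
          have : (⟨p + 1, h⟩ : Fin n) = i := Fin.ext h5.symm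
          rw [this]; exact hiZ
        rw [if_neg hval]
        have : (graph f p s Z' σ hf hσ).neighborSet i =
            ((Finset.Iio P ∪ {P, σ i} : Finset (Fin n)) : Set (Fin n)) := by
          ext j
          simp only [SimpleGraph.mem_neighborSet, adj, coe_union, coe_insert, coe_singleton,
            coe_Iio, Set.mem_union, Set.mem_Iio, Set.mem_insert_iff, Set.mem_singleton_iff,
            Fin.lt_def]
          constructor
          · rintro ⟨h, h'⟩
            rcases h' with h4 | h4 | h4 | h4 | h4 | h4
            · omega
            · exact Or.inl h4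
            · omega
            · exact Or.inr (Or.inl (Fin.ext h4.1))
            · by_cases h5 : j.val < p
              · exact Or.inl h5
              · right; left
                apply Fin.ext
                rw [← h4] at h5 ⊢
                show (f i).val = p
                omega
            · exact Or.inr (Or.inr h4.2.symm)
          · rintro (h4 | h4 | h4)
            · refine ⟨fun e => ?_, Or.inr (Or.inl h4)⟩
              rw [e] at h1
              exact h1 h4
            · refine ⟨fun e => h2 (by rw [e, h4]), ?_⟩
              exact Or.inr (Or.inr (Or.inr (Or.inl ⟨by rw [h4], Or.inl h3⟩)))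
            · refine ⟨fun e => hs2 (by rw [← h4, ← e]), ?_⟩
              exact Or.inr (Or.inr (Or.inr (Or.inr (Or.inr ⟨hiZ', h4.symm⟩))))
        rw [this, Set.ncard_coe_finset, card_aux, card_pair]
        · intro e
          have := congrArg Fin.val e
          simp only [hP] at this
          omega
        · intro x hx
          simp only [mem_insert, mem_singleton] at hx
          rcases hx with hx | hx
          · rw [hx]
          · rw [hx, Fin.le_def]; show p ≤ _; omega
      · -- the extra vertex
        have hevf : ev = false := by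
          cases ev with
          | false => rfl
          | true => exact absurd (by rw [← hZ'1 rfl]; exact hiZ') hiZ
        obtain ⟨h, h6, h7, h8, h9⟩ := hZ'2 hevf
        have hival : i = ⟨p + 1, h⟩ := by
          rw [h6, mem_insert] at hiZ'
          rcases hiZ' with h' | h'
          · exact h'
          · exact absurd h' hiZ
        have hival' : i.val = p + 1 := by rw [hival]
        rw [if_pos ⟨hival', hevf⟩]
        have hfi : (f i).val = s - 1 := by rw [hival]; exact h8
        have hσne : σ i ≠ f i := by
          intro e
          have h10 : σ i ∈ Z := by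
            have := hs1
            rw [h6, mem_insert] at this
            rcases this with h' | h'
            · exact absurd (by rw [h', hival]) hs2
            · exact h'
          rw [e, memZ, hf] at h10
          omega
        have : (graph f p s Z' σ hf hσ).neighborSet i =
            ((Finset.Iio P ∪ {P, f i, σ i} : Finset (Fin n)) : Set (Fin n)) := by
          ext j
          simp only [SimpleGraph.mem_neighborSet, adj, coe_union, coe_insert, coe_singleton,
            coe_Iio, Set.mem_union, Set.mem_Iio, Set.mem_insert_iff, Set.mem_singleton_iff,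
            Fin.lt_def]
          constructor
          · rintro ⟨h, h'⟩
            rcases h' with h4 | h4 | h4 | h4 | h4 | h4
            · omega
            · exact Or.inl h4
            · omega
            · exact Or.inr (Or.inl (Fin.ext h4.1))
            · exact Or.inr (Or.inr (Or.inl h4.symm))
            · exact Or.inr (Or.inr (Or.inr h4.2.symm))
          · rintro (h4 | h4 | h4 | h4)
            · refine ⟨fun e => ?_, Or.inr (Or.inl h4)⟩
              rw [e] at h1
              exact h1 h4
            · refine ⟨fun e => h2 (by rw [e, h4]), ?_⟩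
              exact Or.inr (Or.inr (Or.inr (Or.inl ⟨by rw [h4], Or.inl h3⟩)))
            · refine ⟨fun e => hne i (by rw [← h4, ← e]), ?_⟩
              exact Or.inr (Or.inr (Or.inr (Or.inr (Or.inl h4.symm))))
            · refine ⟨fun e => hs2 (by rw [← h4, ← e]), ?_⟩
              exact Or.inr (Or.inr (Or.inr (Or.inr (Or.inr ⟨hiZ', h4.symm⟩))))
        rw [this, Set.ncard_coe_finset, card_aux]
        · rw [card_insert_of_notMem, card_pair hσne.symm]
          simp only [mem_insert, mem_singleton, not_or]
          constructor
          · intro e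
            have := congrArg Fin.val e
            simp only [hP] at this
            omega
          · intro e
            have := congrArg Fin.val e
            simp only [hP] at this
            omega
        · intro x hx
          simp only [mem_insert, mem_singleton] at hx
          rcases hx with hx | hx | hx
          · rw [hx]
          · rw [hx, Fin.le_def]; show p ≤ _; omega
          · rw [hx, Fin.le_def]; show p ≤ _; omega
    · have hiZ : i ∉ Z := fun h => hiZ' (Z_sub i h)
      have hfi : p + 1 ≤ (f i).val := by
        by_contra h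
        apply hiZ
        rw [memZ]
        exact ⟨by omega, h3, by omega⟩
      have hval : ¬ (i.val = p + 1 ∧ ev = false) := by
        rintro ⟨h5, h6⟩
        obtain ⟨h, h7, -, -, -⟩ := hZ'2 h6
        apply hiZ'
        rw [h7, mem_insert]
        exact Or.inl (Fin.ext h5)
      rw [if_neg hval]
      have : (graph f p s Z' σ hf hσ).neighborSet i =
          ((Finset.Iio P ∪ {P, f i} : Finset (Fin n)) : Set (Fin n)) := by
        ext j
        simp only [SimpleGraph.mem_neighborSet, adj, coe_union, coe_insert, coe_singleton,
          coe_Iio, Set.mem_union, Set.mem_Iio, Set.mem_insert_iff, Set.mem_singleton_iff,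
          Fin.lt_def]
        constructor
        · rintro ⟨h, h'⟩
          rcases h' with h4 | h4 | h4 | h4 | h4 | h4
          · omega
          · exact Or.inl h4
          · omega
          · exact Or.inr (Or.inl (Fin.ext h4.1))
          · exact Or.inr (Or.inr h4.symm)
          · exact absurd h4.1 hiZ'
        · rintro (h4 | h4 | h4)
          · refine ⟨fun e => ?_, Or.inr (Or.inl h4)⟩
            rw [e] at h1
            exact h1 h4
          · refine ⟨fun e => h2 (by rw [e, h4]), ?_⟩
            exact Or.inr (Or.inr (Or.inr (Or.inl ⟨by rw [h4], Or.inl h3⟩)))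
          · refine ⟨fun e => hne i (by rw [← h4, ← e]), ?_⟩
            exact Or.inr (Or.inr (Or.inr (Or.inr (Or.inl h4.symm))))
      rw [this, Set.ncard_coe_finset, card_aux, card_pair]
      · intro e
        have := congrArg Fin.val e
        simp only [hP] at this
        omega
      · intro x hx
        simp only [mem_insert, mem_singleton] at hx
        rcases hx with hx | hx
        · rw [hx]
        · rw [hx, Fin.le_def]; show p ≤ _; omega
  · rw [if_neg h3]
    have hiZ' : i ∉ Z' := fun h => h3 (Z'_sub i h).2
    by_cases hfi : (f i).val < p + 1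
    · have : (graph f p s Z' σ hf hσ).neighborSet i =
          ((Finset.Iio P ∪ {P} : Finset (Fin n)) : Set (Fin n)) := by
        ext j
        simp only [SimpleGraph.mem_neighborSet, adj, coe_union, coe_singleton,
          coe_Iio, Set.mem_union, Set.mem_Iio, Set.mem_singleton_iff, Fin.lt_def]
        constructor
        · rintro ⟨h, h'⟩
          rcases h' with h4 | h4 | h4 | h4 | h4 | h4
          · omega
          · exact Or.inl h4
          · omega
          · exact Or.inr (Fin.ext h4.1)
          · by_cases h5 : j.val < p
            · exact Or.inl h5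
            · right
              apply Fin.ext
              rw [← h4] at h5 ⊢
              show (f i).val = p
              omega
          · exact absurd h4.1 hiZ'
        · rintro (h4 | h4)
          · refine ⟨fun e => ?_, Or.inr (Or.inl h4)⟩
            rw [e] at h1
            exact h1 h4
          · refine ⟨fun e => h2 (by rw [e, h4]), ?_⟩
            exact Or.inr (Or.inr (Or.inr (Or.inl ⟨by rw [h4], Or.inr hfi⟩)))
      rw [this, Set.ncard_coe_finset, card_aux, card_singleton]
      intro x hx
      simp only [mem_singleton] at hx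
      rw [hx]
    · have : (graph f p s Z' σ hf hσ).neighborSet i =
          ((Finset.Iio P ∪ {f i} : Finset (Fin n)) : Set (Fin n)) := by
        ext j
        simp only [SimpleGraph.mem_neighborSet, adj, coe_union, coe_singleton,
          coe_Iio, Set.mem_union, Set.mem_Iio, Set.mem_singleton_iff, Fin.lt_def]
        constructor
        · rintro ⟨h, h'⟩
          rcases h' with h4 | h4 | h4 | h4 | h4 | h4
          · omega
          · exact Or.inl h4
          · omega
          · exfalso
            rcases h4.2 with h5 | h5
            · exact h3 h5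
            · exact hfi h5
          · exact Or.inr h4.symm
          · exact absurd h4.1 hiZ'
        · rintro (h4 | h4)
          · refine ⟨fun e => ?_, Or.inr (Or.inl h4)⟩
            rw [e] at h1
            exact h1 h4
          · refine ⟨fun e => hne i (by rw [← h4, ← e]), ?_⟩
            exact Or.inr (Or.inr (Or.inr (Or.inr (Or.inl h4.symm))))
      rw [this, Set.ncard_coe_finset, card_aux, card_singleton]
      intro x hx
      simp only [mem_singleton] at hx
      rw [hx, Fin.le_def]; show p ≤ _; omega

/-- A matching with a smaller cut number is not realized by the sequence. -/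
theorem not_realizes_seq (f g : Fin n → Fin n)
    (p s : ℕ) (ev : Bool) (hps : p + 1 ≤ s) (hsn : s < n)
    (hK : K g (p + 1) s < K f (p + 1) s) : ¬ Realizes (seq f p s ev) g := by
  classical
  rintro ⟨G, hdeg, hadj⟩
  have hpn : p < n := by omega
  set P : Fin n := ⟨p, hpn⟩ with hP
  have hdom : ∀ i : Fin n, i.val < p → ∀ j, j ≠ i → G.Adj i j := by
    intro i hi j hj
    have h1 := hdeg i
    unfold seq at h1
    rw [if_pos hi] at h1
    by_contra hcon
    have h2 : G.neighborSet i ⊆ ((({i, j} : Finset (Fin n))ᶜ : Finset (Fin n)) : Set (Fin n)) := by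
      intro k hk
      simp only [coe_compl, coe_insert, coe_singleton, Set.mem_compl_iff, Set.mem_insert_iff,
        Set.mem_singleton_iff, not_or]
      rw [SimpleGraph.mem_neighborSet] at hk
      exact ⟨fun e => G.loopless.irrefl i (by rw [e] at hk; exact hk), fun e => hcon (by rw [← e]; exact hk)⟩
    have h3 := Set.ncard_le_ncard h2 (Finset.finite_toSet _)
    rw [h1, Set.ncard_coe_finset, card_compl, Fintype.card_fin, card_pair hj.symm] at h3
    omega
  have hfar : ∀ j : Fin n, s ≤ j.val → G.Adj P j → (g j).val < p + 1 := by
    intro j hj hPj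
    by_contra hcon
    have h1 := hdeg j
    unfold seq at h1
    rw [if_neg (by omega), if_neg (by omega), if_neg (by omega)] at h1
    have h2 : ((Finset.Iio P ∪ {P, g j} : Finset (Fin n)) : Set (Fin n)) ⊆ G.neighborSet j := by
      intro k hk
      simp only [coe_union, coe_insert, coe_singleton,
        coe_Iio, Set.mem_union, Set.mem_Iio, Set.mem_insert_iff, Set.mem_singleton_iff,
        Fin.lt_def] at hk
      rw [SimpleGraph.mem_neighborSet]
      rcases hk with hk | hk | hk
      · apply SimpleGraph.Adj.symm
        apply hdom k hk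
        intro e
        have := congrArg Fin.val e
        have hk' : k.val < p := hk
        omega
      · rw [hk]; exact hPj.symm
      · rw [hk]; exact hadj j
    have h3 := Set.ncard_le_ncard h2 (Set.toFinite _)
    rw [h1, Set.ncard_coe_finset, card_aux, card_pair] at h3
    · have : P.val = p := rfl
      omega
    · intro e
      have := congrArg Fin.val e
      simp only [hP] at this
      omega
    · intro x hx
      simp only [mem_insert, mem_singleton] at hx
      rcases hx with hx | hx
      · rw [hx]
      · rw [hx, Fin.le_def]; show p ≤ _; omega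
  have h1 := hdeg P
  unfold seq at h1
  rw [if_neg (lt_irrefl p), if_pos rfl] at h1
  have h2 : G.neighborSet P ⊆ ((((Finset.Iio (⟨s, hsn⟩ : Fin n)).erase P ∪
          univ.filter fun j : Fin n => s ≤ j.val ∧ (g j).val < p + 1) : Finset (Fin n)) :
          Set (Fin n)) := by
    intro j hj
    rw [SimpleGraph.mem_neighborSet] at hj
    simp only [coe_union, coe_erase, coe_Iio, coe_filter,
        Set.mem_union, Set.mem_sdiff, Set.mem_Iio, Set.mem_singleton_iff, mem_univ, true_and,
        Set.mem_ofPred_eq, Fin.lt_def]
    by_cases hjs : j.val < s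
    · refine Or.inl ⟨hjs, ?_⟩
      intro e
      rw [e] at hj
      exact G.loopless.irrefl P hj
    · exact Or.inr ⟨by omega, hfar j (by omega) hj⟩
  have h3 := Set.ncard_le_ncard h2 (Finset.finite_toSet _)
  rw [h1, Set.ncard_coe_finset] at h3
  have h4 := card_union_le ((Finset.Iio (⟨s, hsn⟩ : Fin n)).erase P)
    (univ.filter fun j : Fin n => s ≤ j.val ∧ (g j).val < p + 1)
  rw [card_erase_of_mem (by simp only [mem_Iio, Fin.lt_def]; show p < s; omega), Fin.card_Iio] at h4
  have h5 : (univ.filter fun j : Fin n => s ≤ j.val ∧ (g j).val < p + 1).card = K g (p + 1) s := rfl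
  rw [h5] at h4
  have h6 : (⟨s, hsn⟩ : Fin n).val = s := rfl
  omega

end Q165.RM
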