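import Pool.Agent.Q165.RealMatch2

set_option autoImplicit false

/-!
# The cut numbers of a perfect matching are determined by the sequences that realize it
-/

open Finset

namespace Q165.RM

variable {n : ℕ}

/-- A different cut number of the right kind gives a sequence which realizes `f` but not `g`. -/
theorem distinguish (f g : Fin n → Fin n) (hf : ∀ i, f (f i) = i) (hne : ∀ i, f i ≠ i)
    (a s : ℕ) (has : a ≤ s) (hK : K g a s < K f a s)
    (hc : s = a ∨ (a + 2 ≤ s ∧ ∀ h : a < n, (f ⟨a, h⟩).val = s - 1)) :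
    ∃ d : Fin n → ℕ, Antitone d ∧ (∀ i, 1 ≤ d i) ∧ Realizes d f ∧ ¬ Realizes d g := by
  have hsn : s < n := by
    by_contra h
    rw [K_large f a s (by omega)] at hK
    omega
  obtain ⟨p, rfl⟩ : ∃ p, a = p + 1 := by
    cases a with
    | zero => rw [K_zero, K_zero] at hK; omega
    | succ p => exact ⟨p, rfl⟩
  obtain ⟨ev, hev, hr⟩ := realizes_seq f hf hne p s has hsn (by
    rcases hc with h | h
    · exact Or.inl h
    · exact Or.inr ⟨by omega, h.2⟩)
  refine ⟨seq f p s ev, ?_, ?_, hr, not_realizes_seq f g p s ev has hsn hK⟩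
  · apply seq_antitone f p s ev has hsn (by omega) _ hev
    rcases hc with h | h
    · exact Or.inl h
    · exact Or.inr (by omega)
  · exact one_le_seq f p s ev has hsn (by omega)

/-- If the same sequences realize `f` and `g`, then all cut numbers agree. -/
theorem K_eq (f g : Fin n → Fin n) (hf : ∀ i, f (f i) = i) (hfne : ∀ i, f i ≠ i)
    (hg : ∀ i, g (g i) = i) (hgne : ∀ i, g i ≠ i)
    (h : ∀ d : Fin n → ℕ, Antitone d → (∀ i, 1 ≤ d i) → (Realizes d f ↔ Realizes d g)) :
    ∀ k a : ℕ, K f a (a + k) = K g a (a + k) := by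
  have key : ∀ f g : Fin n → Fin n, (∀ i, f (f i) = i) → (∀ i, f i ≠ i) → (∀ i, g (g i) = i) →
      (∀ d : Fin n → ℕ, Antitone d → (∀ i, 1 ≤ d i) → (Realizes d f ↔ Realizes d g)) →
      ∀ k : ℕ, (∀ m < k, ∀ a, K f a (a + m) = K g a (a + m)) → ∀ a,
        ¬ K g a (a + k) < K f a (a + k) := by
    intro f g hf hfne hg h k ih a hlt
    have hsn : a + k < n := by
      by_contra h'
      rw [K_large f a _ (by omega)] at hlt
      omega
    have hc : a + k = a ∨ (a + 2 ≤ a + k ∧ ∀ h : a < n, (f ⟨a, h⟩).val = a + k - 1) := by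
      rcases Nat.lt_or_ge k 1 with hk | hk
      · left; omega
      rcases Nat.lt_or_ge k 2 with hk2 | hk2
      · exfalso
        have hk1 : k = 1 := by omega
        subst hk1
        have han : a < n := by omega
        have e1 := ih 0 (by omega) a
        have e2 := ih 0 (by omega) (a + 1)
        simp only [add_zero] at e1 e2
        rw [K_s f a a han, K_s g a a han] at e1
        rw [K_a f hf a (a + 1) han, K_a g hg a (a + 1) han] at e2
        have hf1 : (f ⟨a, han⟩).val ≠ a := fun e => hfne ⟨a, han⟩ (Fin.ext e)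
        split_ifs at e1 e2 <;> omega
      · right
        refine ⟨by omega, ?_⟩
        intro han
        obtain ⟨m, rfl⟩ : ∃ m, k = m + 2 := ⟨k - 2, by omega⟩
        have e1 := ih (m + 1) (by omega) a
        have e2 := ih (m + 1) (by omega) (a + 1)
        have e3 := ih m (by omega) (a + 1)
        have hs1 : a + (m + 1) < n := by omega
        have t1 : a + 1 + (m + 1) = a + (m + 1) + 1 := by omega
        have t2 : a + 1 + m = a + (m + 1) := by omega
        have t3 : a + (m + 2) = a + (m + 1) + 1 := by omega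
        rw [t1] at e2
        rw [t2] at e3
        rw [t3] at hlt
        rw [K_s f a _ hs1, K_s g a _ hs1] at e1
        rw [K_s f (a + 1) _ hs1, K_s g (a + 1) _ hs1] at e3
        have hfa : (f ⟨a + (m + 1), hs1⟩).val = a := by
          split_ifs at e1 e3 <;> omega
        have h2 : f ⟨a, han⟩ = ⟨a + (m + 1), hs1⟩ := by
          have h3 : f ⟨a + (m + 1), hs1⟩ = ⟨a, han⟩ := Fin.ext hfa
          rw [← h3, hf]
        rw [h2]
        show a + (m + 1) = a + (m + 2) - 1
        omega
    obtain ⟨d, h1, h2, h3, h4⟩ := distinguish f g hf hfne a (a + k) (by omega) hlt hc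
    exact h4 ((h d h1 h2).1 h3)
  intro k
  induction k using Nat.strong_induction_on with
  | _ k ih =>
    intro a
    have h1 := key f g hf hfne hg h k ih a
    have h2 := key g f hg hgne hf (fun d hd hd' => (h d hd hd').symm) k
      (fun m hm a => (ih m hm a).symm) a
    omega

/-- If the same sequences realize `f` and `g`, then `f = g`. -/
theorem eq_of_realizes (f g : Fin n → Fin n) (hf : ∀ i, f (f i) = i) (hfne : ∀ i, f i ≠ i)
    (hg : ∀ i, g (g i) = i) (hgne : ∀ i, g i ≠ i)
    (h : ∀ d : Fin n → ℕ, Antitone d → (∀ i, 1 ≤ d i) → (Realizes d f ↔ Realizes d g)) :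
    f = g := by
  have hK := K_eq f g hf hfne hg hgne h
  -- the mate of `j` is `< i` for `f` iff it is so for `g`
  have h1 : ∀ (j : Fin n) (i : ℕ), i ≤ j.val → ((f j).val < i ↔ (g j).val < i) := by
    intro j i hij
    have e1 := hK (j.val - i) i
    have e2 := hK (j.val + 1 - i) i
    have t1 : i + (j.val - i) = j.val := by omega
    have t2 : i + (j.val + 1 - i) = j.val + 1 := by omega
    rw [t1, K_s f i j.val j.isLt, K_s g i j.val j.isLt] at e1
    rw [t2] at e2
    have t3 : (⟨j.val, j.isLt⟩ : Fin n) = j := rfl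
    rw [t3] at e1
    split_ifs at e1 <;> omega
  have h2 : ∀ j : Fin n, (f j).val < j.val → f j = g j := by
    intro j hj
    have e1 := (h1 j ((f j).val + 1) (by omega)).1 (by omega)
    have e2 : ¬ (g j).val < (f j).val := by
      intro e
      have := (h1 j (f j).val (by omega)).2 e
      omega
    exact Fin.ext (by omega)
  funext j
  by_cases hj : (f j).val < j.val
  · exact h2 j hj
  · have hj1 : (f j).val ≠ j.val := fun e => hfne j (Fin.ext e)
    have h3 := h2 (f j) (by rw [hf]; omega)
    rw [hf] at h3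
    rw [h3, hg, ← h3]

end Q165.RM
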