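import Pool.Agent.Q165.QZ

set_option autoImplicit false

/-!
# Separating finitely many elements by few characters

Any `N` nonzero elements of an abelian group are detected by at most `log₂ N + 1` characters.
-/

namespace Q165.Separate

open Finset

variable {A : Type*} [AddCommGroup A]

/-- A character killing at most half of a finite set of nonzero elements. -/
theorem exists_half (F : Finset A) (hF : ∀ a ∈ F, a ≠ 0) :
    ∃ χ : A →+ AddCircle (1 : ℚ), 2 * {a ∈ F | χ a = 0}.card ≤ F.card := by
  classical
  have hex : ∀ a : A, ∃ χ : A →+ AddCircle (1 : ℚ), a ≠ 0 → χ a ≠ 0 := by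
    intro a
    by_cases h : a = 0
    · exact ⟨0, fun h' => absurd h h'⟩
    · obtain ⟨χ, hχ⟩ := Q165.QZ.exists_char h
      exact ⟨χ, fun _ => hχ⟩
  choose ψ hψ using hex
  let X : Finset A → (A →+ AddCircle (1 : ℚ)) := fun T => ∑ a ∈ T, ψ a
  -- for every `a`, at most half of the subsets give a character killing `a`
  have hhalf : ∀ a ∈ F, 2 * {T ∈ F.powerset | X T a = 0}.card ≤ 2 ^ F.card := by
    intro a ha
    have h1 : {T ∈ F.powerset | X T a = 0}.card ≤ {T ∈ F.powerset | ¬ X T a = 0}.card := by
      apply Finset.card_le_card_of_injOn (fun T => symmDiff T {a})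
      · intro T hT
        rw [Finset.mem_coe, mem_filter, mem_powerset] at hT
        rw [Finset.mem_coe, mem_filter, mem_powerset]
        refine ⟨?_, ?_⟩
        · intro x hx
          rw [mem_symmDiff, mem_singleton] at hx
          rcases hx with ⟨h, -⟩ | ⟨h, -⟩
          · exact hT.1 h
          · rw [h]; exact ha
        · by_cases haT : a ∈ T
          · have e : X T = X (symmDiff T {a}) + ψ a := by
              have : T = insert a (symmDiff T {a}) := by
                ext x
                rw [mem_insert, mem_symmDiff, mem_singleton]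
                by_cases hx : x = a
                · subst hx; simp [haT]
                · simp [hx]
              show ∑ x ∈ T, ψ x = _
              conv_lhs => rw [this]
              rw [Finset.sum_insert (by simp [mem_symmDiff, haT]), add_comm]
            intro h0
            rw [e, AddMonoidHom.add_apply, h0, zero_add] at hT
            exact hψ a (hF a ha) hT.2
          · have e : X (symmDiff T {a}) = X T + ψ a := by
              have : symmDiff T {a} = insert a T := by
                ext x
                rw [mem_insert, mem_symmDiff, mem_singleton]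
                by_cases hx : x = a
                · subst hx; simp [haT]
                · simp [hx]
              show ∑ x ∈ symmDiff T {a}, ψ x = _
              rw [this, Finset.sum_insert haT, add_comm]
            intro h0
            rw [e, AddMonoidHom.add_apply, hT.2, zero_add] at h0
            exact hψ a (hF a ha) h0
      · intro T _ T' _ h
        have h' : symmDiff T {a} = symmDiff T' {a} := h
        exact symmDiff_left_injective {a} h'
    have h2 := Finset.card_filter_add_card_filter_not (s := F.powerset) (fun T => X T a = 0)
    rw [card_powerset] at h2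
    omega
  -- double counting
  have hdc : ∑ T ∈ F.powerset, {a ∈ F | X T a = 0}.card =
      ∑ a ∈ F, {T ∈ F.powerset | X T a = 0}.card := by
    simp only [Finset.card_filter]
    exact Finset.sum_comm
  by_contra hcon
  push Not at hcon
  have h1 : ∑ T ∈ F.powerset, (F.card + 1) ≤ ∑ T ∈ F.powerset, 2 * {a ∈ F | X T a = 0}.card :=
    Finset.sum_le_sum (fun T _ => hcon (X T))
  have h2 : ∑ a ∈ F, 2 * {T ∈ F.powerset | X T a = 0}.card ≤ ∑ a ∈ F, 2 ^ F.card :=
    Finset.sum_le_sum hhalf
  rw [← Finset.mul_sum, hdc, Finset.sum_const, card_powerset, smul_eq_mul] at h1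
  rw [← Finset.mul_sum, Finset.sum_const, smul_eq_mul] at h2
  have h3 := h1.trans h2
  have h4 : 0 < 2 ^ F.card := by positivity
  nlinarith

/-- Few characters separate a finite set of nonzero elements from zero. -/
theorem exists_family : ∀ (N : ℕ) (F : Finset A), (∀ a ∈ F, a ≠ 0) → F.card ≤ N →
    ∃ χ : Fin (Nat.log 2 N + 1) → (A →+ AddCircle (1 : ℚ)), ∀ a ∈ F, ∃ i, χ i a ≠ 0 := by
  classical
  intro N
  induction N using Nat.strong_induction_on with
  | _ N ih =>
    intro F hF hN
    obtain ⟨χ0, h0⟩ := exists_half F hF
    by_cases hsmall : N < 2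
    · -- at most one element
      refine ⟨fun _ => χ0, ?_⟩
      intro a ha
      refine ⟨⟨0, by omega⟩, ?_⟩
      intro hz
      have : 0 < {a ∈ F | χ0 a = 0}.card :=
        Finset.card_pos.mpr ⟨a, mem_filter.mpr ⟨ha, hz⟩⟩
      omega
    · push Not at hsmall
      obtain ⟨χ, hχ⟩ := ih (N / 2) (by omega) {a ∈ F | χ0 a = 0}
        (fun a ha => hF a (mem_filter.mp ha).1) (by omega)
      have hlog : Nat.log 2 N + 1 = (Nat.log 2 (N / 2) + 1) + 1 := by
        rw [Nat.log_div_base]
        have : 0 < Nat.log 2 N := Nat.log_pos (by norm_num) hsmall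
        omega
      rw [hlog]
      refine ⟨Fin.cons χ0 χ, ?_⟩
      intro a ha
      by_cases hz : χ0 a = 0
      · obtain ⟨i, hi⟩ := hχ a (mem_filter.mpr ⟨ha, hz⟩)
        exact ⟨i.succ, by simpa using hi⟩
      · exact ⟨0, by simpa using hz⟩

end Q165.Separate
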