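import Mathlib

set_option autoImplicit false

/-!
# Prime solutions of `a p - b q = c`: definitions
-/

namespace Q165.Slope

open Filter

/-- for every `η > 0` there are arbitrarily large `x` with at least `x ^ (1 - η)` members up to `x` -/
def Many (F : Set ℕ) : Prop :=
  ∀ η : ℝ, 0 < η → ∃ᶠ x : ℝ in atTop, x ^ (1 - η) ≤ ({n : ℕ | n ∈ F ∧ (n : ℝ) ≤ x}.ncard : ℝ)

/-- `(a, b, c)` satisfies the hypotheses of the question, and `a p - b q = c` has infinitely many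
solutions in primes; moreover at least `x ^ (1 - η)` primes `q ≤ x` occur, for every `η > 0` and
arbitrarily large `x`. -/
def Good (a b : ℕ) (c : ℤ) : Prop :=
  1 ≤ a ∧ 1 ≤ b ∧ c ≠ 0 ∧ IsCoprime (a : ℤ) b ∧ IsCoprime (a : ℤ) c ∧ IsCoprime (b : ℤ) c ∧
    ¬ (Odd a ∧ Odd b ∧ Odd c) ∧
    {pq : ℕ × ℕ | pq.1.Prime ∧ pq.2.Prime ∧ (a : ℤ) * pq.1 - b * pq.2 = c}.Infinite ∧
    Many {q : ℕ | q.Prime ∧ ∃ p : ℕ, p.Prime ∧ (a : ℤ) * p - b * q = c}

end Q165.Slope
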