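import Pool.Agent.H732R3.DickS
import Pool.Agent.TH899.UG.Qd
import Pool.Agent.Q165.SlopeDef

/-!
Families of slopes: cliques of solvable lines at arbitrary positions.
-/

set_option autoImplicit false

namespace Q165.Slope

open Finset Filter Pool.Agent.H732R3.BigQ Pool.Agent.H732R3.DickS Pool.Agent.TH899.UG

theorem key : ∃ c₀ : ℝ, 0 < c₀ ∧ c₀ < 1 ∧ ∀ (T : ℕ) (m : Fin T → ℕ), (∀ l, 1 ≤ m l) →
    ∃ Λ W : ℕ, 1 ≤ Λ ∧ ∀ A : Fin T → ℤ, ∃ (S : Finset (Fin T)) (b : Fin T → ℤ),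
      (T : ℝ) ≤ (4 - c₀) * S.card ∧ (∀ g, |b g - A g| ≤ W) ∧
      (∀ g ∈ S, ∀ g' ∈ S, g < g' → ∀ a e : ℕ, Nat.Coprime a e → a * m g' = e * m g →
        Good a e (a * b g' - e * b g)) ∧
      Many {n : ℕ | ∀ g ∈ S, 0 < ((Λ * m g : ℕ) : ℤ) * n + b g ∧
        Prime (((Λ * m g : ℕ) : ℤ) * n + b g)} := by
  classical
  obtain ⟨c₀, hc₀, hc₁, hQ⟩ := quarterD
  refine ⟨c₀, hc₀, hc₁, ?_⟩
  intro T m hm
  obtain ⟨K, hK, hQT⟩ := hQ T
  obtain ⟨M, hM⟩ : ∃ M : ℕ, M = ∏ g, m g := ⟨_, rfl⟩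
  have hM0 : 0 < M := by rw [hM]; exact Finset.prod_pos fun g _ => hm g
  have hmM : ∀ g, m g ∣ M := fun g => by rw [hM]; exact Finset.dvd_prod_of_mem m (mem_univ g)
  obtain ⟨N, hN⟩ : ∃ N : ℕ, N = T * K + 2 := ⟨_, rfl⟩
  have hN0 : 0 < N := by omega
  have hNz : (0 : ℤ) < N := by exact_mod_cast hN0
  obtain ⟨Λ, hΛ⟩ : ∃ Λ : ℕ, Λ = N.factorial := ⟨_, rfl⟩
  have hΛ0 : 0 < Λ := by rw [hΛ]; exact Nat.factorial_pos _
  obtain ⟨P, hP⟩ : ∃ P : ℕ, P = Λ * M := ⟨_, rfl⟩
  have hP0 : 0 < P := by rw [hP]; exact Nat.mul_pos hΛ0 hM0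
  have hPz : (0 : ℤ) < P := by exact_mod_cast hP0
  obtain ⟨W, hW⟩ : ∃ W : ℕ, W = P * (N + 2) := ⟨_, rfl⟩
  refine ⟨Λ, W, hΛ0, fun A' => ?_⟩
  obtain ⟨u, hu⟩ : ∃ u : Fin T → Fin K → ℤ,
    u = fun (g : Fin T) (s : Fin K) =>
      (N : ℤ) * ((A' g / P) / N) + (((finProdFinEquiv (g, s) : Fin (T * K)) : ℕ) : ℤ) := ⟨_, rfl⟩
  obtain ⟨b, hb⟩ : ∃ b : Fin T → Fin K → ℤ,
    b = fun (g : Fin T) (s : Fin K) => 1 + (P : ℤ) * u g s := ⟨_, rfl⟩
  have hidx : ∀ (g : Fin T) (s : Fin K), (((finProdFinEquiv (g, s) : Fin (T * K)) : ℕ) : ℤ) < N := by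
    intro g s
    have h1 := (finProdFinEquiv (g, s) : Fin (T * K)).2
    have h2 : ((finProdFinEquiv (g, s) : Fin (T * K)) : ℕ) < N := by rw [hN]; omega
    exact_mod_cast h2
  have hbA : ∀ (g : Fin T) (s : Fin K), |b g s - A' g| ≤ W := by
    intro g s
    have h1 := Int.mul_ediv_add_emod (A' g) P
    have h2 := Int.emod_nonneg (A' g) hPz.ne'
    have h3 := Int.emod_lt_of_pos (A' g) hPz
    have h4 := Int.mul_ediv_add_emod (A' g / P) N
    have h5 := Int.emod_nonneg (A' g / P) hNz.ne'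
    have h6 := Int.emod_lt_of_pos (A' g / P) hNz
    have h7 := hidx g s
    have h8 : (0 : ℤ) ≤ (((finProdFinEquiv (g, s) : Fin (T * K)) : ℕ) : ℤ) := by positivity
    set I : ℤ := (((finProdFinEquiv (g, s) : Fin (T * K)) : ℕ) : ℤ) with hI
    have e1 : b g s - A' g = 1 - A' g % P + P * (I - A' g / P % N) := by
      rw [hb, hu]
      simp only
      rw [← hI]
      linear_combination h1 + (P : ℤ) * h4
    rw [e1, hW]
    have e2 : |I - A' g / P % N| ≤ N := by rw [abs_le]; constructor <;> linarith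
    have e3 : |1 - A' g % P| ≤ P + 1 := by rw [abs_le]; constructor <;> linarith
    calc |1 - A' g % P + P * (I - A' g / P % N)| ≤ |1 - A' g % P| + |P * (I - A' g / P % N)| :=
          abs_add_le _ _
      _ = |1 - A' g % P| + P * |I - A' g / P % N| := by rw [abs_mul, abs_of_pos hPz]
      _ ≤ (P + 1) + P * N := add_le_add e3 (mul_le_mul_of_nonneg_left e2 hPz.le)
      _ ≤ ((P * (N + 2) : ℕ) : ℤ) := by
          push_cast
          have : (1 : ℤ) ≤ P := hPz
          linarith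
  have hbinj : ∀ (g : Fin T) (s : Fin K) (g' : Fin T) (s' : Fin K), b g s = b g' s' →
      g = g' ∧ s = s' := by
    intro g s g' s' h1
    rw [hb] at h1
    simp only at h1
    have h2 : u g s = u g' s' := mul_left_cancel₀ hPz.ne' (add_left_cancel h1)
    have h3 : ∀ (g : Fin T) (s : Fin K), u g s % N = (((finProdFinEquiv (g, s) : Fin (T * K)) : ℕ) : ℤ) := by
      intro g s
      rw [hu]
      simp only
      rw [Int.mul_add_emod_self_left]
      exact Int.emod_eq_of_lt (by positivity) (hidx g s)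
    have h4 := h3 g s
    rw [h2, h3 g' s'] at h4
    have h5 : (finProdFinEquiv (g', s') : Fin (T * K)) = finProdFinEquiv (g, s) :=
      Fin.ext (by exact_mod_cast h4)
    have h6 := finProdFinEquiv.injective h5
    exact ⟨(congrArg Prod.fst h6).symm, (congrArg Prod.snd h6).symm⟩
  -- the coloured Maynard-Tao theorem
  obtain ⟨S, c, hS, hBig⟩ := hQT (fun g _ => ((Λ * m g : ℕ) : ℤ)) b
    (fun g _ => by exact_mod_cast Nat.mul_pos hΛ0 (hm g))
    (by
      rintro ⟨g, s⟩ ⟨g', s'⟩ h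
      obtain ⟨h1, h2⟩ := hbinj g s g' s' (congrArg Prod.snd h)
      rw [h1, h2])
    (by
      intro p hp
      have hpp := Nat.prime_iff_prime_int.1 hp
      by_cases hpP : (p : ℤ) ∣ P
      · refine ⟨0, fun g s hdv => ?_⟩
        rw [mul_zero, zero_add, hb] at hdv
        exact hpp.not_isUnit (isUnit_of_dvd_one ((dvd_add_left (Dvd.dvd.mul_right hpP _)).1 hdv))
      · have hlt : N < p := by
          by_contra hle
          apply hpP
          rw [hP, hΛ]
          exact_mod_cast (Nat.dvd_factorial hp.pos (not_lt.1 hle)).mul_right _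
        obtain ⟨y, hy⟩ := exists_avoid (ι := Fin T × Fin K) hp (by
          rw [Fintype.card_prod, Fintype.card_fin, Fintype.card_fin]
          omega) (fun t => ((Λ * m t.1 : ℕ) : ℤ)) (fun t => b t.1 t.2) (fun t h => by
            exfalso
            apply hpP
            refine h.trans ?_
            rw [hP]
            exact_mod_cast Nat.mul_dvd_mul_left Λ (hmM t.1))
        exact ⟨y, fun g s => hy (g, s)⟩)
  refine ⟨S, fun g => b g (c g), hS, fun g => hbA g (c g), ?_, hBig⟩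
  intro g hg g' hg' hlt a e hae heq
  -- the reduced slope
  have hmg := hm g
  have hmg' := hm g'
  have ha1 : a ∣ m g := by
    have h1 : a ∣ e * m g := Dvd.intro _ heq
    exact hae.dvd_of_dvd_mul_left h1
  obtain ⟨G, hG⟩ := ha1
  have ha0 : 1 ≤ a := by
    rcases Nat.eq_zero_or_pos a with h | h
    · rw [h, zero_mul] at hG; omega
    · exact h
  have hG0 : 0 < G := by
    rcases Nat.eq_zero_or_pos G with h | h
    · rw [h, mul_zero] at hG; omega
    · exact h
  have he : m g' = G * e := by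
    rw [hG] at heq
    have h1 : a * m g' = a * (G * e) := by rw [heq]; ring
    exact Nat.eq_of_mul_eq_mul_left ha0 h1
  have ha : m g = G * a := by rw [hG]; ring
  have he0 : 1 ≤ e := by
    rcases Nat.eq_zero_or_pos e with h | h
    · rw [h, mul_zero] at he; omega
    · exact h
  have haM : a ∣ M := (Dvd.intro_left G ha.symm).trans (hmM g)
  have heM : e ∣ M := (Dvd.intro_left G he.symm).trans (hmM g')
  have hMP : (M : ℤ) ∣ P := by rw [hP]; push_cast; exact Dvd.intro_left _ rfl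
  have hcopb : ∀ (t : ℕ) (z : Fin T) (s : Fin K), t ∣ M → IsCoprime (t : ℤ) (b z s) := by
    intro t z s ht
    have h1 : (t : ℤ) ∣ P := (by exact_mod_cast ht : (t : ℤ) ∣ M).trans hMP
    obtain ⟨w, hw⟩ := h1
    refine ⟨-(w * u z s), 1, ?_⟩
    rw [hb]
    simp only
    rw [hw]
    ring
  have haeZ : IsCoprime (a : ℤ) e := Nat.isCoprime_iff_coprime.2 hae
  have hac : IsCoprime (a : ℤ) (a * b g' (c g') - e * b g (c g)) := by
    have h1 : IsCoprime (a : ℤ) (-(e * b g (c g))) := (haeZ.mul_right (hcopb a g (c g) haM)).neg_right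
    have h2 := h1.add_mul_left_right (b g' (c g'))
    have h3 : -(e * b g (c g)) + a * b g' (c g') = a * b g' (c g') - e * b g (c g) := by ring
    rwa [h3] at h2
  have hec : IsCoprime (e : ℤ) (a * b g' (c g') - e * b g (c g)) := by
    have h1 : IsCoprime (e : ℤ) (a * b g' (c g')) := haeZ.symm.mul_right (hcopb e g' (c g') heM)
    have h2 := h1.add_mul_left_right (-(b g (c g)))
    have h3 : a * b g' (c g') + e * (-(b g (c g))) = a * b g' (c g') - e * b g (c g) := by ring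
    rwa [h3] at h2
  have hP2 : (2 : ℤ) ∣ P := by
    have h1 : 2 ∣ Λ := by rw [hΛ]; exact Nat.dvd_factorial (by norm_num) (by omega)
    rw [hP]
    exact_mod_cast h1.mul_right M
  have hbodd : ∀ (z : Fin T) (s : Fin K), Odd (b z s) := by
    intro z s
    obtain ⟨w, hw⟩ := hP2
    refine ⟨w * u z s, ?_⟩
    rw [hb]
    simp only
    rw [hw]
    ring
  have hnz : (a : ℤ) * b g' (c g') - e * b g (c g) ≠ 0 := by
    intro h0
    rw [h0] at hac hec
    have h1 : IsUnit (a : ℤ) := isCoprime_zero_right.1 hac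
    have h2 : IsUnit (e : ℤ) := isCoprime_zero_right.1 hec
    have h3 : a = 1 := by
      have := Int.isUnit_iff.1 h1
      omega
    have h4 : e = 1 := by
      have := Int.isUnit_iff.1 h2
      omega
    rw [h3, h4] at h0
    have h5 : b g' (c g') = b g (c g) := by push_cast at h0; linarith
    have h6 := (hbinj _ _ _ _ h5).1
    rw [h6] at hlt
    exact lt_irrefl _ hlt
  have hmany : Big {q : ℕ | q.Prime ∧ ∃ p : ℕ, p.Prime ∧
      (a : ℤ) * p - e * q = a * b g' (c g') - e * b g (c g)} := by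
    refine Big.affine hBig (Λ * m g) (b g (c g)) (Nat.mul_pos hΛ0 (hm g))
      (fun n => (((Λ * m g : ℕ) : ℤ) * n + b g (c g)).toNat) ?_ ?_
    · intro n hn
      exact Int.toNat_of_nonneg (hn g hg).1.le
    · intro n hn
      obtain ⟨h1, h2⟩ := hn g hg
      obtain ⟨h3, h4⟩ := hn g' hg'
      have h5 : (((((Λ * m g : ℕ) : ℤ) * n + b g (c g)).toNat : ℕ) : ℤ) =
        ((Λ * m g : ℕ) : ℤ) * n + b g (c g) := Int.toNat_of_nonneg h1.le
      refine ⟨?_, (((Λ * m g' : ℕ) : ℤ) * n + b g' (c g')).toNat, ?_, ?_⟩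
      · rw [Nat.prime_iff_prime_int, h5]
        exact h2
      · rw [Nat.prime_iff_prime_int, Int.toNat_of_nonneg h3.le]
        exact h4
      · rw [h5, Int.toNat_of_nonneg h3.le, ha, he]
        push_cast
        ring
  refine ⟨ha0, he0, hnz, haeZ, hac, hec, ?_, ?_, hmany⟩
  · rintro ⟨h1, h2, h3⟩
    have h4 : Odd ((a : ℤ) * b g' (c g')) := ((Int.odd_coe_nat a).2 h1).mul (hbodd _ _)
    have h5 : Odd ((e : ℤ) * b g (c g)) := ((Int.odd_coe_nat e).2 h2).mul (hbodd _ _)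
    exact (Int.not_even_iff_odd.2 h3) (h4.sub_odd h5)
  · apply Set.Infinite.of_image Prod.snd
    refine hmany.infinite.mono ?_
    rintro q ⟨hq, p, hp, hpq⟩
    exact ⟨(p, q), ⟨hp, hq, hpq⟩, rfl⟩

/-- pigeonhole: a map from the naturals to a finite type has a value attained arbitrarily far -/
theorem recurrent {α : Type} [Finite α] (f : ℕ → α) : ∃ v, ∀ n, ∃ k, n ≤ k ∧ f k = v := by
  by_contra hcon
  push Not at hcon
  choose N hN using hcon
  have : Fintype α := Fintype.ofFinite α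
  exact hN (f (univ.sup N)) (univ.sup N) (Finset.le_sup (mem_univ _)) rfl

theorem cliques : ∃ c₀ : ℝ, 0 < c₀ ∧ c₀ < 1 ∧ ∀ (T : ℕ) (m : Fin T → ℕ), (∀ l, 1 ≤ m l) →
    (∃ Λ W : ℕ, 1 ≤ Λ ∧ ∀ B : Fin T → ℤ, ∃ (S : Finset (Fin T)) (β : Fin T → ℤ),
      (T : ℝ) ≤ (4 - c₀) * S.card ∧ (∀ j, |β j - B j| ≤ W) ∧
      (∀ i ∈ S, ∀ j ∈ S, i < j → ∀ a b : ℕ, Nat.Coprime a b → a * m j = b * m i →
        Good a b (a * β j - b * β i)) ∧
      Many {n : ℕ | ∀ j ∈ S, 0 < ((Λ * m j : ℕ) : ℤ) * n + β j ∧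
        Prime (((Λ * m j : ℕ) : ℤ) * n + β j)}) ∧
    (∃ C : ℕ, ∀ B : Fin T → ℤ, ∃ S : Finset (Fin T), (T : ℝ) ≤ (4 - c₀) * S.card ∧
      ∀ i ∈ S, ∀ j ∈ S, i < j → ∃ (a b : ℕ) (c : ℤ), a * m j = b * m i ∧ Good a b c ∧
        |c - a * B j| ≤ C) := by
  classical
  obtain ⟨c₀, hc₀, hc₁, H⟩ := key
  refine ⟨c₀, hc₀, hc₁, fun T m hm => ⟨H T m hm, ?_⟩⟩
  obtain ⟨Λ, W, hΛ, hA⟩ := H T m hm
  by_contra hcon
  push Not at hcon
  choose AB hAB using hcon
  obtain ⟨f, hf⟩ : ∃ f : ℕ → Set (Fin T × Fin T), f = fun C => {x | ∃ (a b : ℕ) (c : ℤ),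
    a * m x.2 = b * m x.1 ∧ Good a b c ∧ |c - a * AB C x.2| ≤ C} := ⟨_, rfl⟩
  obtain ⟨G, hG⟩ := recurrent f
  choose next hnext hGn using hG
  obtain ⟨M, hM⟩ : ∃ M : ℕ, M = ∏ g, m g := ⟨_, rfl⟩
  have hM0 : 0 < M := by rw [hM]; exact Finset.prod_pos fun g _ => hm g
  have hmM : ∀ g, m g ∣ M := fun g => by rw [hM]; exact Finset.dvd_prod_of_mem m (mem_univ g)
  -- the bound for the first `j` positions
  obtain ⟨β, hβs⟩ : ∃ β : ℕ → ℕ,
      ∀ j, β (j + 1) = β j + (∑ l, (AB (next (M * W + M * β j)) l).natAbs) + W :=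
    ⟨fun m => Nat.rec W (fun _ e => e + (∑ l, (AB (next (M * W + M * e)) l).natAbs) + W) m,
      fun _ => rfl⟩
  have hβm : Monotone β := monotone_nat_of_le_succ fun j => by rw [hβs]; omega
  obtain ⟨A', hA'⟩ : ∃ A' : Fin T → ℤ, A' = fun j : Fin T => AB (next (M * W + M * β j)) j := ⟨_, rfl⟩
  obtain ⟨S, b, hS, hbW, hgood, -⟩ := hA A'
  have hbβ : ∀ g : Fin T, |b g| ≤ β (g + 1) := by
    intro g
    have h1 := hbW g
    have h2 : |b g| ≤ |b g - A' g| + |A' g| := by
      have := abs_add_le (b g - A' g) (A' g)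
      rwa [sub_add_cancel] at this
    have h3 : (A' g).natAbs ≤ ∑ l, (AB (next (M * W + M * β g)) l).natAbs := by
      rw [hA']
      exact Finset.single_le_sum (f := fun l => (AB (next (M * W + M * β g)) l).natAbs)
        (fun _ _ => Nat.zero_le _) (mem_univ g)
    have h4 : ((A' g).natAbs : ℤ) + W ≤ β (g + 1) := by
      have := hβs g
      have h5 : (A' g).natAbs + W ≤ β (g + 1) := by omega
      exact_mod_cast h5
    rw [← Int.abs_eq_natAbs] at h4
    linarith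
  -- every pair of the clique lies in the limit graph
  have hin : ∀ i ∈ S, ∀ j ∈ S, i < j → (i, j) ∈ G := by
    intro i hi j hj hij
    obtain ⟨a, e, hae, heq⟩ : ∃ a e : ℕ, Nat.Coprime a e ∧ a * m j = e * m i := by
      have hg : 0 < Nat.gcd (m i) (m j) := Nat.gcd_pos_of_pos_left _ (hm i)
      refine ⟨m i / Nat.gcd (m i) (m j), m j / Nat.gcd (m i) (m j),
        Nat.coprime_div_gcd_div_gcd hg, ?_⟩
      obtain ⟨u, hu⟩ := Nat.gcd_dvd_left (m i) (m j)
      obtain ⟨v, hv⟩ := Nat.gcd_dvd_right (m i) (m j)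
      set d := Nat.gcd (m i) (m j)
      rw [hu, hv, Nat.mul_div_cancel_left _ hg, Nat.mul_div_cancel_left _ hg]
      ring
    have hgd := hgood i hi j hj hij a e hae heq
    have ha : a ∣ m i := by
      have h1 : a ∣ e * m i := Dvd.intro _ heq
      exact hae.dvd_of_dvd_mul_left h1
    have he : e ∣ m j := by
      have h1 : e ∣ a * m j := Dvd.intro _ heq.symm
      exact hae.symm.dvd_of_dvd_mul_left h1
    have haM : a ≤ M := Nat.le_of_dvd hM0 (ha.trans (hmM i))
    have heM : e ≤ M := Nat.le_of_dvd hM0 (he.trans (hmM j))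
    rw [← hGn (M * W + M * β j), hf]
    refine ⟨a, e, a * b j - e * b i, heq, hgd, ?_⟩
    have h1 : A' j = AB (next (M * W + M * β j)) j := by rw [hA']
    simp only
    rw [← h1]
    have h2 := hbW j
    have h3 := hbβ i
    have h4 : β (i + 1) ≤ β j := hβm (by have : (i : ℕ) < j := hij; omega)
    have h5 : M * W + M * β j ≤ next (M * W + M * β j) := hnext _
    calc |(a : ℤ) * b j - e * b i - a * A' j|
        = |a * (b j - A' j) - e * b i| := by congr 1; ring
      _ ≤ |a * (b j - A' j)| + |e * b i| := abs_sub _ _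
      _ = a * |b j - A' j| + e * |b i| := by
          rw [abs_mul, abs_mul, Nat.abs_cast, Nat.abs_cast]
      _ ≤ (M : ℤ) * W + (M : ℤ) * (β j : ℤ) := by
          apply add_le_add
          · exact mul_le_mul (by exact_mod_cast haM) h2 (abs_nonneg _) (by positivity)
          · exact mul_le_mul (by exact_mod_cast heM) (h3.trans (by exact_mod_cast h4)) (abs_nonneg _)
              (by positivity)
      _ = ((M * W + M * β j : ℕ) : ℤ) := by push_cast; ring
      _ ≤ _ := by exact_mod_cast h5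
  -- contradiction
  obtain ⟨i, hi, j, hj, hij, hno⟩ := hAB (next 0) S hS
  have h1 := hin i hi j hj hij
  rw [← hGn 0, hf] at h1
  obtain ⟨a, e, c, h2, h3, h4⟩ := h1
  exact absurd h4 (not_le.2 (hno a e c h2 h3))

end Q165.Slope
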