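import Pool.Agent.Q165.SlopeCl

/-!
A third of the pairs of slopes, by Turan's theorem.
-/

set_option autoImplicit false

namespace Q165.Slope

open Finset Filter

/-- there is a good line of slope `m j / m i` at distance at most `C` from the position `b` -/
def Near {T : ℕ} (m : Fin T → ℕ) (C : ℕ) (i j : Fin T) (b : ℤ) : Prop :=
  ∃ (a e : ℕ) (c : ℤ), a * m j = e * m i ∧ Good a e c ∧ |c - a * b| ≤ C

theorem card_lt (T : ℕ) : 2 * ((univ : Finset (Fin T × Fin T)).filter fun x => x.1 < x.2).card + T =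
    T * T := by
  have h1 : ((univ : Finset (Fin T × Fin T)).filter fun x => x.1 < x.2).card =
      ∑ j : Fin T, (j : ℕ) := by
    rw [card_filter, ← univ_product_univ, sum_product_right]
    refine sum_congr rfl fun j _ => ?_
    rw [← card_filter]
    have : (univ : Finset (Fin T)).filter (fun i => i < j) = Finset.Iio j := by ext i; simp
    simp only
    rw [this, Fin.card_Iio]
  rw [h1, Fin.sum_univ_eq_sum_range (fun i => i) T]
  have h2 := Finset.sum_range_id_mul_two T
  rcases Nat.eq_zero_or_pos T with h | h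
  · subst h; simp
  · obtain ⟨k, rfl⟩ : ∃ k, T = k + 1 := ⟨T - 1, by omega⟩
    rw [Nat.add_sub_cancel] at h2
    nlinarith

theorem third (c₀ : ℝ) (hc₀ : 0 < c₀) (hc₁ : c₀ < 1)
    (H : ∀ (T : ℕ) (m : Fin T → ℕ), (∀ l, 1 ≤ m l) → ∃ C : ℕ, ∀ B : Fin T → ℤ,
      ∃ S : Finset (Fin T), (T : ℝ) ≤ (4 - c₀) * S.card ∧
      ∀ i ∈ S, ∀ j ∈ S, i < j → Near m C i j (B j))
    (T : ℕ) (m : Fin T → ℕ) (hm : ∀ l, 1 ≤ m l) : ∃ C : ℕ, ∀ B : Fin T → ℤ,
      (T : ℝ) * (T - 3) / 6 ≤ ({x : Fin T × Fin T | x.1 < x.2 ∧ Near m C x.1 x.2 (B x.2)}.ncard : ℝ) := by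
  classical
  have H4 : ∀ e : Fin 4 → Fin T, ∃ C : ℕ, ∀ B : Fin T → ℤ, ∃ i j : Fin 4, i < j ∧
      Near m C (e i) (e j) (B (e j)) := by
    intro e
    obtain ⟨C, hC⟩ := H 4 (fun l => m (e l)) (fun l => hm _)
    refine ⟨C, fun B => ?_⟩
    obtain ⟨S, hS, hgood⟩ := hC (fun l => B (e l))
    have h2 : 1 < S.card := by
      by_contra hle
      have h3 : (S.card : ℝ) ≤ 1 := by exact_mod_cast not_lt.1 hle
      have h4 : (4 - c₀) * (S.card : ℝ) ≤ (4 - c₀) * 1 :=
        mul_le_mul_of_nonneg_left h3 (by linarith)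
      push_cast at hS
      linarith
    obtain ⟨x, hx, y, hy, hxy⟩ := Finset.one_lt_card.1 h2
    rcases lt_or_gt_of_ne hxy with h | h
    · exact ⟨x, y, h, hgood x hx y hy h⟩
    · exact ⟨y, x, h, hgood y hy x hx h⟩
  choose Cf hCf using H4
  refine ⟨∑ e : Fin 4 → Fin T, Cf e, fun B => ?_⟩
  obtain ⟨C, hC⟩ : ∃ C : ℕ, C = ∑ e : Fin 4 → Fin T, Cf e := ⟨_, rfl⟩
  rw [← hC]
  have hle : ∀ e, Cf e ≤ C := by
    intro e
    rw [hC]
    exact Finset.single_le_sum (f := Cf) (fun _ _ => Nat.zero_le _) (mem_univ e)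
  -- the graph of the pairs without a good line
  let G : SimpleGraph (Fin T) :=
    { Adj := fun i j => i ≠ j ∧ ¬ Near m C (min i j) (max i j) (B (max i j))
      symm := by
        constructor
        intro i j h
        rw [min_comm, max_comm]
        exact ⟨h.1.symm, h.2⟩
      loopless := ⟨fun i h => h.1 rfl⟩ }
  have hG : G.CliqueFree 4 := by
    intro s hs
    rw [SimpleGraph.isNClique_iff] at hs
    obtain ⟨hs1, hs2⟩ := hs
    let e := s.orderEmbOfFin hs2
    obtain ⟨i, j, hij, a, b, c, h1, h2, h3⟩ := hCf e B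
    have h4 : e i < e j := e.strictMono hij
    have h5 : G.Adj (e i) (e j) := hs1 (s.orderEmbOfFin_mem hs2 i) (s.orderEmbOfFin_mem hs2 j) h4.ne
    apply h5.2
    rw [min_eq_left h4.le, max_eq_right h4.le]
    refine ⟨a, b, c, h1, h2, h3.trans ?_⟩
    exact_mod_cast hle e
  have hT : 3 * G.edgeFinset.card ≤ T ^ 2 := by
    obtain ⟨H', _, maxH⟩ := SimpleGraph.exists_isTuranMaximal (V := Fin T) (r := 3) (by norm_num)
    have h1 := maxH.2 hG
    have h2 := ((SimpleGraph.isTuranMaximal_iff_nonempty_iso_turanGraph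
      (by norm_num : 0 < 3)).mp maxH).some.card_edgeFinset_eq
    have h3 := SimpleGraph.mul_card_edgeFinset_turanGraph_le (n := Fintype.card (Fin T)) (r := 3)
    rw [h2] at h1
    rw [Fintype.card_fin] at h1 h3
    have h4 : 3 * (SimpleGraph.turanGraph T 3).edgeFinset.card ≤ T ^ 2 := by omega
    calc 3 * G.edgeFinset.card ≤ 3 * (SimpleGraph.turanGraph T 3).edgeFinset.card := by
          apply Nat.mul_le_mul_left
          convert! h1
      _ ≤ T ^ 2 := h4
  obtain ⟨P, hP⟩ : ∃ P : Finset (Fin T × Fin T), P = univ.filter fun x => x.1 < x.2 := ⟨_, rfl⟩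
  have hbad : (P.filter fun x => ¬ Near m C x.1 x.2 (B x.2)).card ≤ G.edgeFinset.card := by
    apply Finset.card_le_card_of_injOn (fun x => s(x.1, x.2))
    · intro x hx
      rw [hP, Finset.mem_coe, mem_filter, mem_filter] at hx
      obtain ⟨⟨-, h1⟩, h2⟩ := hx
      rw [Finset.mem_coe, SimpleGraph.mem_edgeFinset, SimpleGraph.mem_edgeSet]
      refine ⟨h1.ne, ?_⟩
      rw [min_eq_left h1.le, max_eq_right h1.le]
      exact h2
    · intro x hx y hy hxy
      rw [hP, Finset.mem_coe, mem_filter, mem_filter] at hx hy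
      have h1 := hx.1.2
      have h2 := hy.1.2
      simp only [Sym2.eq_iff] at hxy
      rcases hxy with ⟨h3, h4⟩ | ⟨h3, h4⟩
      · exact Prod.ext h3 h4
      · rw [h3, h4] at h1
        exact absurd h1 (not_lt.2 h2.le)
  have hsplit : (P.filter fun x => Near m C x.1 x.2 (B x.2)).card +
      (P.filter fun x => ¬ Near m C x.1 x.2 (B x.2)).card = P.card :=
    Finset.card_filter_add_card_filter_not _
  have hPc := card_lt T
  rw [← hP] at hPc
  have hset : {x : Fin T × Fin T | x.1 < x.2 ∧ Near m C x.1 x.2 (B x.2)} =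
      ((P.filter fun x => Near m C x.1 x.2 (B x.2) : Finset (Fin T × Fin T)) : Set _) := by
    ext x
    rw [hP]
    simp
  rw [hset, Set.ncard_coe_finset]
  have e1 : (3 * (G.edgeFinset.card : ℝ)) ≤ (T : ℝ) ^ 2 := by exact_mod_cast hT
  have e2 : ((P.filter fun x => Near m C x.1 x.2 (B x.2)).card : ℝ) +
      ((P.filter fun x => ¬ Near m C x.1 x.2 (B x.2)).card : ℝ) = P.card := by
    exact_mod_cast hsplit
  have e3 : ((P.filter fun x => ¬ Near m C x.1 x.2 (B x.2)).card : ℝ) ≤ G.edgeFinset.card := by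
    exact_mod_cast hbad
  have e4 : 2 * (P.card : ℝ) + T = T * T := by exact_mod_cast hPc
  nlinarith

end Q165.Slope
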