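import Pool.Agent.Q165.StrongDef

/-!
# Permutations of `ℕ` that strongly avoid `321` and `1342`
-/

set_option autoImplicit false

namespace Q165.Strong

open Equiv

/-- `321` occurs -/
def O3 (p : ℕ → ℕ) : Prop := ∃ a b c, a < b ∧ b < c ∧ p c < p b ∧ p b < p a

/-- `1342` occurs -/
def O4 (p : ℕ → ℕ) : Prop :=
  ∃ a b c d, a < b ∧ b < c ∧ c < d ∧ p a < p d ∧ p d < p b ∧ p b < p c

/-- strong avoidance -/
def SA (p : ℕ → ℕ) : Prop :=
  (¬ O3 p ∧ ¬ O4 p) ∧ (¬ O3 (fun x => p (p x)) ∧ ¬ O4 (fun x => p (p x)))

/-- the strongly avoiding permutations of `{0, …, n-1}`, as permutations of `ℕ` -/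
def T (n : ℕ) : Set (Perm ℕ) := {p | (∀ x, n ≤ x → p x = x) ∧ SA p}

/-! ### rotations -/

/-- rotation -/
def rf (n c x : ℕ) : ℕ := if x < n then (if x + c < n then x + c else x + c - n) else x

theorem rf_avoid (n c : ℕ) (hc : c < n) : ¬ O3 (rf n c) ∧ ¬ O4 (rf n c) := by
  constructor
  · rintro ⟨a, b, d, h1, h2, h3, h4⟩
    unfold rf at h3 h4
    split_ifs at h3 h4 <;> omega
  · rintro ⟨a, b, d, e, h1, h2, h3, h4, h5, h6⟩
    unfold rf at h4 h5 h6
    split_ifs at h4 h5 h6 <;> omega

theorem rf_rf (n c x : ℕ) (hc : c < n) :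
    rf n c (rf n c x) = rf n (if c + c < n then c + c else c + c - n) x := by
  unfold rf
  split_ifs <;> omega

/-- rotation, as a permutation -/
def rot (n c : ℕ) (h1 : 1 ≤ c) (h2 : c < n) : Perm ℕ where
  toFun := rf n c
  invFun := rf n (n - c)
  left_inv := by
    intro x
    unfold rf
    split_ifs <;> omega
  right_inv := by
    intro x
    unfold rf
    split_ifs <;> omega

theorem rot_mem {n c : ℕ} (h1 : 1 ≤ c) (h2 : c < n) : rot n c h1 h2 ∈ T n := by
  refine ⟨?_, rf_avoid n c h2, ?_⟩
  · intro x hx
    change rf n c x = x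
    unfold rf
    rw [if_neg (by omega)]
  · have e : (fun x => (rot n c h1 h2) ((rot n c h1 h2) x)) =
        rf n (if c + c < n then c + c else c + c - n) := by
      funext x
      exact rf_rf n c x h2
    rw [e]
    apply rf_avoid
    split_ifs <;> omega

/-! ### direct sums -/

theorem occ_congr {N : ℕ} {p q : ℕ → ℕ} (h1 : ∀ x < N, p x = q x) (h2 : ∀ x < N, p x < N)
    (h3 : ∀ b d, N ≤ b → b < d → p d < p b → d = b + 1) (h4 : ∀ x, N ≤ x → N ≤ p x) :
    (O3 p → O3 q) ∧ (O4 p → O4 q) := by
  constructor
  · rintro ⟨a, b, c, hab, hbc, hcb, hba⟩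
    rcases Nat.lt_or_ge c N with h | h
    · refine ⟨a, b, c, hab, hbc, ?_, ?_⟩
      · rw [← h1 c h, ← h1 b (by omega)]; exact hcb
      · rw [← h1 a (by omega), ← h1 b (by omega)]; exact hba
    · exfalso
      have k1 := h4 c h
      have k2 : N ≤ b := by
        by_contra hc
        have := h2 b (by omega)
        omega
      have k3 : N ≤ a := by
        by_contra hc
        have := h2 a (by omega)
        omega
      have := h3 a c k3 (by omega) (by omega)
      omega
  · rintro ⟨a, b, c, d, hab, hbc, hcd, had, hdb, hbc'⟩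
    rcases Nat.lt_or_ge d N with h | h
    · refine ⟨a, b, c, d, hab, hbc, hcd, ?_, ?_, ?_⟩
      · rw [← h1 a (by omega), ← h1 d (by omega)]; exact had
      · rw [← h1 d (by omega), ← h1 b (by omega)]; exact hdb
      · rw [← h1 b (by omega), ← h1 c (by omega)]; exact hbc'
    · exfalso
      have k1 := h4 d h
      have k2 : N ≤ b := by
        by_contra hc
        have := h2 b (by omega)
        omega
      have := h3 b d k2 (by omega) (by omega)
      omega

theorem maps_lt {n : ℕ} {p : Perm ℕ} (h : ∀ x, n ≤ x → p x = x) : ∀ x < n, p x < n := by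
  intro x hx
  by_contra hc
  have h1 := h (p x) (by omega)
  have := p.injective h1
  omega

/-- the case `p (n-1) = n-2`, `p (n-2) = n-1` -/
theorem swap_mem {n : ℕ} {q : Perm ℕ} :
    q * swap n (n + 1) ∈ T (n + 2) ↔ (q ∈ T n ∨ (q * swap n (n + 1) ∈ T (n + 2) ∧ ¬ q ∈ T n)) := by
  constructor
  · intro h
    by_cases hq : q ∈ T n
    · exact Or.inl hq
    · exact Or.inr ⟨h, hq⟩
  · rintro (h | h)
    · obtain ⟨h1, ⟨h2, h3⟩, h4, h5⟩ := h
      have hlt := maps_lt h1
      have e1 : ∀ x, x < n → (q * swap n (n + 1)) x = q x := by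
        intro x hx
        rw [Perm.mul_apply, swap_apply_of_ne_of_ne (by omega) (by omega)]
      have e2 : (q * swap n (n + 1)) n = n + 1 := by
        rw [Perm.mul_apply, swap_apply_left, h1 _ (by omega)]
      have e3 : (q * swap n (n + 1)) (n + 1) = n := by
        rw [Perm.mul_apply, swap_apply_right, h1 _ (by omega)]
      have e4 : ∀ x, n + 2 ≤ x → (q * swap n (n + 1)) x = x := by
        intro x hx
        rw [Perm.mul_apply, swap_apply_of_ne_of_ne (by omega) (by omega), h1 _ (by omega)]
      have e5 : (fun x => (q * swap n (n + 1)) ((q * swap n (n + 1)) x)) = fun x => q (q x) := by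
        funext x
        rcases Nat.lt_or_ge x n with h | h
        · rw [e1 x h, e1 _ (hlt x h)]
        · rw [h1 x h, h1 x h]
          by_cases hx1 : x = n
          · rw [hx1, e2, e3]
          · by_cases hx2 : x = n + 1
            · rw [hx2, e3, e2]
            · rw [e4 x (by omega), e4 x (by omega)]
      have key := occ_congr (N := n) (p := ⇑(q * swap n (n + 1) : Perm ℕ)) (q := q) (fun x hx => e1 x hx)
        (fun x hx => by rw [e1 x hx]; exact hlt x hx) (by
          intro b d hb hbd hlt'
          by_cases hd : d = n + 1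
          · omega
          · rw [e4 d (by omega)] at hlt'
            by_cases hb1 : b = n
            · rw [hb1, e2] at hlt'
              omega
            · by_cases hb2 : b = n + 1
              · rw [hb2, e3] at hlt'
                omega
              · rw [e4 b (by omega)] at hlt'
                omega) (by
          intro x hx
          by_cases hx1 : x = n
          · rw [hx1, e2]; omega
          · by_cases hx2 : x = n + 1
            · rw [hx2, e3]
            · rw [e4 x (by omega)]
              exact hx)
      refine ⟨e4, ⟨fun h => h2 (key.1 h), fun h => h3 (key.2 h)⟩, ?_⟩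
      rw [e5]
      exact ⟨h4, h5⟩
    · exact h.1

theorem mem_swap {n : ℕ} {q : Perm ℕ} (h : q ∈ T n) : q * swap n (n + 1) ∈ T (n + 2) :=
  swap_mem.2 (Or.inl h)

theorem of_swap {n : ℕ} {p : Perm ℕ} (h : p ∈ T (n + 2)) (ha : p n = n + 1)
    (hb : p (n + 1) = n) : p * swap n (n + 1) ∈ T n := by
  obtain ⟨h1, ⟨h2, h3⟩, h4, h5⟩ := h
  have hlt : ∀ x < n, p x < n := by
    intro x hx
    have h6 := maps_lt h1 x (by omega)
    have h7 : p x ≠ n := by
      intro hc
      rw [← hb] at hc
      have := p.injective hc
      omega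
    have h8 : p x ≠ n + 1 := by
      intro hc
      rw [← ha] at hc
      have := p.injective hc
      omega
    omega
  have e1 : ∀ x, x < n → (p * swap n (n + 1)) x = p x := by
    intro x hx
    rw [Perm.mul_apply, swap_apply_of_ne_of_ne (by omega) (by omega)]
  have e2 : ∀ x, n ≤ x → (p * swap n (n + 1)) x = x := by
    intro x hx
    rw [Perm.mul_apply]
    by_cases hx1 : x = n
    · rw [hx1, swap_apply_left, hb]
    · by_cases hx2 : x = n + 1
      · rw [hx2, swap_apply_right, ha]
      · rw [swap_apply_of_ne_of_ne hx1 hx2, h1 x (by omega)]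
  have key := occ_congr (N := n) (p := ⇑(p * swap n (n + 1) : Perm ℕ)) (q := p) (fun x hx => e1 x hx)
    (fun x hx => by rw [e1 x hx]; exact hlt x hx) (by
      intro b d hb hbd hlt'
      rw [e2 b hb, e2 d (by omega)] at hlt'
      omega) (by
      intro x hx
      rw [e2 x hx]
      exact hx)
  have e5 : (fun x => (p * swap n (n + 1)) ((p * swap n (n + 1)) x)) = fun x => p (p x) := by
    funext x
    rcases Nat.lt_or_ge x n with h | h
    · rw [e1 x h, e1 _ (hlt x h)]
    · rw [e2 x h, e2 x h]
      by_cases hx1 : x = n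
      · rw [hx1, ha, hb]
      · by_cases hx2 : x = n + 1
        · rw [hx2, hb, ha]
        · rw [h1 x (by omega), h1 x (by omega)]
  refine ⟨e2, ⟨fun h => h2 (key.1 h), fun h => h3 (key.2 h)⟩, ?_⟩
  rw [e5]
  exact ⟨h4, h5⟩

/-! ### auxiliary lemmas -/

theorem eq_of_mono {n : ℕ} {h : ℕ → ℕ} (h1 : ∀ v < n, h v < n)
    (h2 : ∀ u v, u < v → v < n → h u < h v) : ∀ v < n, h v = v := by
  have lo : ∀ v, v < n → v ≤ h v := by
    intro v
    induction v with
    | zero => intro _; exact Nat.zero_le _
    | succ v ih =>
      intro hv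
      have := ih (by omega)
      have := h2 v (v + 1) (by omega) hv
      omega
  have hi : ∀ d v, v + d + 1 = n → h v ≤ v := by
    intro d
    induction d with
    | zero =>
      intro v hv
      have := h1 v (by omega)
      omega
    | succ d ih =>
      intro v hv
      have := ih (v + 1) (by omega)
      have := h2 v (v + 1) (by omega) (by omega)
      omega
  intro v hv
  have := lo v hv
  have := hi (n - 1 - v) v (by omega)
  omega

theorem thr (Q : ℕ → Prop) (N : ℕ) (h : ∀ x y, x < y → y < N → Q y → Q x) :
    ∃ k ≤ N, ∀ x < N, (Q x ↔ x < k) := by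
  induction N with
  | zero => exact ⟨0, le_refl _, fun x hx => by omega⟩
  | succ N ih =>
    obtain ⟨k, hk, hQ⟩ := ih (fun x y hxy hy => h x y hxy (by omega))
    by_cases hN : Q N
    · refine ⟨N + 1, le_refl _, fun x hx => ⟨fun _ => hx, fun _ => ?_⟩⟩
      rcases Nat.lt_or_ge x N with h1 | h1
      · exact h x N h1 (by omega) hN
      · rw [show x = N by omega]; exact hN
    · refine ⟨k, by omega, fun x hx => ?_⟩
      rcases Nat.lt_or_ge x N with h1 | h1
      · exact hQ x h1
      · rw [show x = N by omega]
        exact ⟨fun h2 => absurd h2 hN, fun h2 => by omega⟩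

/-! ### the explicit form in the first case -/

/-- the explicit permutation -/
def ff (n k P M x : ℕ) : ℕ :=
  if x < k then x + (M - k - 1) else if x < P then x - k else if x = P then n - 1 else
    if x < M then x - k - 1 else if x < n then x - 1 else x

section ffs

variable {n k P M : ℕ}

theorem ff1 {x : ℕ} (h : x < k) : ff n k P M x = x + (M - k - 1) := by
  unfold ff; rw [if_pos h]

theorem ff2 {x : ℕ} (h : k ≤ x) (h' : x < P) : ff n k P M x = x - k := by
  unfold ff; rw [if_neg (by omega), if_pos h']

theorem ff3 (h : k ≤ P) : ff n k P M P = n - 1 := by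
  unfold ff; rw [if_neg (by omega), if_neg (by omega), if_pos rfl]

theorem ff4 {x : ℕ} (hk : k ≤ P) (h : P < x) (h' : x < M) : ff n k P M x = x - k - 1 := by
  unfold ff
  rw [if_neg (by omega), if_neg (by omega), if_neg (by omega), if_pos h']

theorem ff5 {x : ℕ} (hk : k ≤ P) (hP : P < M) (h : M ≤ x) (h' : x < n) :
    ff n k P M x = x - 1 := by
  unfold ff
  rw [if_neg (by omega), if_neg (by omega), if_neg (by omega), if_neg (by omega), if_pos h']

/-- the square of the explicit permutation contains a forbidden pattern, except in one case -/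
theorem ff_bad (hk : 1 ≤ k) (hkP : k ≤ P) (hPM : P + 2 ≤ M) (hM : M ≤ n)
    (h : ¬ (M = n ∧ P = k)) :
    O3 (fun x => ff n k P M (ff n k P M x)) ∨ O4 (fun x => ff n k P M (ff n k P M x)) := by
  -- the values that are used
  have vP : ff n k P M P = n - 1 := ff3 hkP
  have v0 : ff n k P M 0 = M - k - 1 := by rw [ff1 (by omega)]; omega
  rcases Nat.lt_or_ge M n with hMn | hMn
  · -- `e ≥ 1`
    have w1 : ff n k P M (n - 1) = n - 2 := by
      rw [ff5 hkP (by omega) (by omega) (by omega)]; omega
    have w2 : ff n k P M M = M - 1 := by rw [ff5 hkP (by omega) le_rfl hMn]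
    have w3 : ff n k P M (M - 1) = M - k - 2 := by
      rw [ff4 hkP (by omega) (by omega)]; omega
    rcases Nat.lt_or_ge k P with hj | hj
    · rcases Nat.lt_or_ge k (M - P - 1) with hi | hi
      · -- case C
        right
        have w4 : ff n k P M k = 0 := by rw [ff2 le_rfl hj]; omega
        have w5 : ff n k P M (M - k - 1) = M - k - 1 - k - 1 :=
          ff4 hkP (by omega) (by omega)
        refine ⟨0, k, P, M, by omega, hj, by omega, ?_, ?_, ?_⟩
        · simp only; rw [v0, w5, w2, w3]; omega
        · simp only; rw [w2, w3, w4, v0]; omega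
        · simp only; rw [w4, v0, vP, w1]; omega
      · -- case B
        left
        have w4 : ff n k P M (k - (M - P - 1)) = P := by rw [ff1 (by omega)]; omega
        refine ⟨k - (M - P - 1), P, M - 1, by omega, by omega, ?_, ?_⟩
        · simp only
          rw [w3, vP, w1]
          rcases Nat.lt_or_ge (M - k - 2) k with h1 | h1
          · rw [ff1 h1]; omega
          · rw [ff2 h1 (by omega)]; omega
        · simp only
          rw [vP, w1, w4, vP]; omega
    · -- case A
      left
      have hPk : P = k := by omega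
      have w4 : ff n k P M (P + 1) = 0 := by rw [ff4 hkP (by omega) (by omega)]; omega
      refine ⟨P, P + 1, M, by omega, by omega, ?_, ?_⟩
      · simp only
        rw [w2, w3, w4, v0]; omega
      · simp only
        rw [w4, v0, vP, w1]; omega
  · have hMn' : M = n := by omega
    have hj : k < P := by
      rcases Nat.lt_or_ge k P with h1 | h1
      · exact h1
      · exact absurd ⟨hMn', by omega⟩ h
    have w1 : ff n k P M (n - 1) = M - k - 2 := by
      rw [ff4 hkP (by omega) (by omega)]; omega
    have w4 : ff n k P M k = 0 := by rw [ff2 le_rfl hj]; omega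
    left
    rcases Nat.lt_or_ge (P - k) k with h1 | h1
    · rcases Nat.lt_or_ge k (M - P - 1) with hi | hi
      · -- case F
        have w5 : ff n k P M (2 * k + 1) = k := by rw [ff4 hkP (by omega) (by omega)]; omega
        refine ⟨k, P, 2 * k + 1, hj, by omega, ?_, ?_⟩
        · simp only; rw [w5, w4, vP, w1]; omega
        · simp only; rw [vP, w1, w4, v0]; omega
      · -- case E
        have w5 : ff n k P M (k - (M - P - 1)) = P := by rw [ff1 (by omega)]; omega
        refine ⟨k - (M - P - 1), k, P, by omega, hj, ?_, ?_⟩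
        · simp only; rw [vP, w1, w4, v0]; omega
        · simp only; rw [w4, v0, w5, vP]; omega
    · -- case D
      have w5 : ff n k P M (P + 1) = P - k := by rw [ff4 hkP (by omega) (by omega)]; omega
      have w6 : ff n k P M (P - k) = P - k - k := ff2 h1 (by omega)
      refine ⟨k, P, P + 1, hj, by omega, ?_, ?_⟩
      · simp only; rw [w5, w6, vP, w1]; omega
      · simp only; rw [vP, w1, w4, v0]; omega

end ffs

end Q165.Strong
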