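import Pool.Agent.Q165.StrongKey

/-!
# The recursion and the count
-/

set_option autoImplicit false

namespace Q165.Strong

open Equiv

/-- the rotations -/
noncomputable def rot' (n c : ℕ) : Perm ℕ := open Classical in
  if h : 1 ≤ c ∧ c < n then rot n c h.1 h.2 else 1

theorem rot'_eq {n c : ℕ} (h1 : 1 ≤ c) (h2 : c < n) : rot' n c = rot n c h1 h2 := by
  unfold rot'
  rw [dif_pos ⟨h1, h2⟩]

theorem rot'_apply {n c x : ℕ} (h1 : 1 ≤ c) (h2 : c < n) : rot' n c x = rf n c x := by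
  rw [rot'_eq h1 h2]
  rfl

theorem T_rec (n : ℕ) : T (n + 3) =
    (T (n + 2) ∪ (fun q : Perm ℕ => q * swap (n + 1) (n + 1 + 1)) '' T (n + 1)) ∪
      rot' (n + 3) '' (Set.Ico 1 (n + 3)) := by
  ext p
  constructor
  · intro h
    rcases main_cases (by omega) h with h1 | ⟨h1, h2⟩ | ⟨c, h1, h2, h3⟩
    · exact Or.inl (Or.inl h1)
    · left; right
      refine ⟨p * swap (n + 1) (n + 1 + 1), of_swap h h1 h2, ?_⟩
      simp only
      rw [mul_assoc, swap_mul_self, mul_one]
    · right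
      exact ⟨c, ⟨h1, h2⟩, by rw [rot'_eq h1 h2, h3]⟩
  · rintro ((h | ⟨q, hq, rfl⟩) | ⟨c, ⟨h1, h2⟩, rfl⟩)
    · exact ⟨fun x hx => h.1 x (by omega), h.2⟩
    · exact mem_swap hq
    · rw [rot'_eq h1 h2]
      exact rot_mem h1 h2

theorem T_ncard (n : ℕ) (hf2 : (T (n + 2)).Finite) (hf1 : (T (n + 1)).Finite) :
    (T (n + 3)).Finite ∧ (T (n + 3)).ncard = (T (n + 2)).ncard + (T (n + 1)).ncard + (n + 2) := by
  have hfi : ((fun q : Perm ℕ => q * swap (n + 1) (n + 1 + 1)) '' T (n + 1)).Finite := hf1.image _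
  have hfr : (rot' (n + 3) '' (Set.Ico 1 (n + 3))).Finite := (Set.finite_Ico _ _).image _
  have hd1 : Disjoint (T (n + 2)) ((fun q : Perm ℕ => q * swap (n + 1) (n + 1 + 1)) '' T (n + 1)) := by
    rw [Set.disjoint_left]
    rintro p hp ⟨q, hq, rfl⟩
    have h1 := hp.1 (n + 2) le_rfl
    simp only at h1
    rw [Perm.mul_apply, show n + 2 = n + 1 + 1 from rfl, swap_apply_right, hq.1 _ le_rfl] at h1
    omega
  have hd2 : Disjoint (T (n + 2) ∪ (fun q : Perm ℕ => q * swap (n + 1) (n + 1 + 1)) '' T (n + 1))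
      (rot' (n + 3) '' (Set.Ico 1 (n + 3))) := by
    rw [Set.disjoint_left]
    rintro p hp ⟨c, ⟨h1, h2⟩, rfl⟩
    rcases hp with hp | ⟨q, hq, h3⟩
    · have h4 := hp.1 (n + 2) le_rfl
      rw [rot'_apply h1 h2] at h4
      unfold rf at h4
      split_ifs at h4 <;> omega
    · have h4 := congrArg (fun f : Perm ℕ => f (n + 1)) h3
      have h5 := congrArg (fun f : Perm ℕ => f (n + 1 + 1)) h3
      rw [Perm.mul_apply, swap_apply_left, hq.1 _ (by omega), rot'_apply h1 h2] at h4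
      rw [Perm.mul_apply, swap_apply_right, hq.1 _ (by omega), rot'_apply h1 h2] at h5
      unfold rf at h4 h5
      split_ifs at h4 h5 <;> omega
  have hc1 : ((fun q : Perm ℕ => q * swap (n + 1) (n + 1 + 1)) '' T (n + 1)).ncard =
      (T (n + 1)).ncard := by
    apply Set.ncard_image_of_injective
    intro a b hab
    exact mul_right_cancel hab
  have hc2 : (rot' (n + 3) '' (Set.Ico 1 (n + 3))).ncard = n + 2 := by
    rw [Set.ncard_image_of_injOn]
    · rw [Set.ncard_eq_toFinset_card', Set.toFinset_Ico, Nat.card_Ico]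
      omega
    · rintro a ⟨ha1, ha2⟩ b ⟨hb1, hb2⟩ hab
      have := congrArg (fun f : Perm ℕ => f 0) hab
      rw [rot'_apply ha1 ha2, rot'_apply hb1 hb2] at this
      unfold rf at this
      split_ifs at this <;> omega
  rw [T_rec]
  refine ⟨(hf2.union hfi).union hfr, ?_⟩
  rw [Set.ncard_union_eq hd2 (hf2.union hfi) hfr, Set.ncard_union_eq hd1 hf2 hfi, hc1, hc2]

theorem one_SA : SA (fun x => (1 : Perm ℕ) x) := by
  refine ⟨⟨?_, ?_⟩, ?_, ?_⟩
  · rintro ⟨a, b, c, h1, h2, h3, h4⟩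
    simp only [Perm.one_apply] at h3 h4
    omega
  · rintro ⟨a, b, c, d, h1, h2, h3, h4, h5, h6⟩
    simp only [Perm.one_apply] at h4 h5 h6
    omega
  · rintro ⟨a, b, c, h1, h2, h3, h4⟩
    simp only [Perm.one_apply] at h3 h4
    omega
  · rintro ⟨a, b, c, d, h1, h2, h3, h4, h5, h6⟩
    simp only [Perm.one_apply] at h4 h5 h6
    omega

theorem one_mem (n : ℕ) : (1 : Perm ℕ) ∈ T n := ⟨fun _ _ => rfl, one_SA⟩

theorem T_one : T 1 = {1} := by
  ext p
  rw [Set.mem_singleton_iff]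
  constructor
  · intro h
    ext x
    rcases Nat.eq_zero_or_pos x with hx | hx
    · have := maps_lt h.1 0 (by omega)
      rw [hx, Perm.one_apply]
      omega
    · rw [h.1 x hx, Perm.one_apply]
  · rintro rfl
    exact one_mem 1

theorem T_two : T 2 = {1, swap 0 1} := by
  ext p
  rw [Set.mem_insert_iff, Set.mem_singleton_iff]
  constructor
  · intro h
    have h0 := maps_lt h.1 0 (by omega)
    have h1 := maps_lt h.1 1 (by omega)
    have hne : p 0 ≠ p 1 := fun he => by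
      have := p.injective he
      omega
    by_cases hc : p 0 = 0
    · left
      ext x
      rw [Perm.one_apply]
      rcases Nat.lt_or_ge x 2 with hx | hx
      · rcases Nat.eq_zero_or_pos x with hx0 | hx0
        · rw [hx0, hc]
        · rw [show x = 1 by omega]
          omega
      · exact h.1 x hx
    · right
      ext x
      rcases Nat.lt_or_ge x 2 with hx | hx
      · rcases Nat.eq_zero_or_pos x with hx0 | hx0
        · rw [hx0, swap_apply_left]
          omega
        · rw [show x = 1 by omega, swap_apply_right]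
          omega
      · rw [h.1 x hx, swap_apply_of_ne_of_ne (by omega) (by omega)]
  · rintro (rfl | rfl)
    · exact one_mem 2
    · have := mem_swap (one_mem 0)
      rw [one_mul] at this
      exact this

theorem T_count (n : ℕ) : ((T (n + 1)).Finite ∧ (T (n + 1)).ncard + (n + 1) + 2 =
    2 * Nat.fib (n + 3)) ∧ ((T (n + 2)).Finite ∧ (T (n + 2)).ncard + (n + 2) + 2 =
    2 * Nat.fib (n + 4)) := by
  induction n with
  | zero =>
    refine ⟨⟨?_, ?_⟩, ?_, ?_⟩
    · rw [T_one]; exact Set.finite_singleton _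
    · rw [T_one, Set.ncard_singleton]; rfl
    · rw [T_two]; exact Set.toFinite _
    · rw [T_two, Set.ncard_pair]
      · rfl
      · intro h
        have := congrArg (fun f : Perm ℕ => f 0) h
        simp at this
  | succ n ih =>
    obtain ⟨⟨h1, h2⟩, h3, h4⟩ := ih
    obtain ⟨h5, h6⟩ := T_ncard n h3 h1
    refine ⟨⟨h3, h4⟩, h5, ?_⟩
    rw [show n + 1 + 2 = n + 3 from rfl, h6]
    have h7 : Nat.fib (n + 5) = Nat.fib (n + 3) + Nat.fib (n + 4) := Nat.fib_add_two
    rw [show n + 1 + 4 = n + 5 from rfl, h7]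
    omega

/-! ### transfer to permutations of `Fin n` -/

/-- extension by the identity -/
def hi {n : ℕ} (π : Perm (Fin n)) : Perm ℕ where
  toFun x := if h : x < n then (π ⟨x, h⟩ : ℕ) else x
  invFun x := if h : x < n then (π.symm ⟨x, h⟩ : ℕ) else x
  left_inv := by
    intro x
    by_cases h : x < n
    · simp only [dif_pos h, Fin.is_lt, dif_pos, Fin.eta, Equiv.symm_apply_apply]
    · simp only [dif_neg h]
  right_inv := by
    intro x
    by_cases h : x < n
    · simp only [dif_pos h, Fin.is_lt, dif_pos, Fin.eta, Equiv.apply_symm_apply]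
    · simp only [dif_neg h]

theorem hi_lt {n : ℕ} (π : Perm (Fin n)) (x : Fin n) : hi π x = π x := by
  change (if h : (x : ℕ) < n then (π ⟨x, h⟩ : ℕ) else x) = _
  rw [dif_pos x.2]

theorem hi_ge {n : ℕ} (π : Perm (Fin n)) {x : ℕ} (h : n ≤ x) : hi π x = x := by
  change (if h : (x : ℕ) < n then (π ⟨x, h⟩ : ℕ) else x) = _
  rw [dif_neg (by omega)]

theorem hi_mul {n : ℕ} (π : Perm (Fin n)) (x : ℕ) : hi (π * π) x = hi π (hi π x) := by
  rcases Nat.lt_or_ge x n with h | h
  · rw [hi_lt (π * π) ⟨x, h⟩, hi_lt π ⟨x, h⟩, hi_lt π]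
    rfl
  · rw [hi_ge _ h, hi_ge _ h, hi_ge _ h]

theorem occurs3 {n : ℕ} (π : Perm (Fin n)) : Occurs ![3, 2, 1] π ↔ O3 (hi π) := by
  constructor
  · rintro ⟨i, hi1, hi2⟩
    refine ⟨i 0, i 1, i 2, hi1 (by decide), hi1 (by decide), ?_, ?_⟩
    · rw [hi_lt, hi_lt]
      exact (hi2 2 1).2 (by decide)
    · rw [hi_lt, hi_lt]
      exact (hi2 1 0).2 (by decide)
  · rintro ⟨a, b, c, hab, hbc, hcb, hba⟩
    have hc : c < n := by
      by_contra hc
      rw [hi_ge π (by omega)] at hcb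
      rcases Nat.lt_or_ge b n with h | h
      · have := hi_lt π ⟨b, h⟩
        have h2 := (π ⟨b, h⟩).2
        simp only at this
        omega
      · rw [hi_ge π h] at hcb
        omega
    have hb : b < n := by omega
    have ha : a < n := by omega
    have e1 := hi_lt π ⟨a, ha⟩
    have e2 := hi_lt π ⟨b, hb⟩
    have e3 := hi_lt π ⟨c, hc⟩
    simp only at e1 e2 e3
    rw [e3, e2] at hcb
    rw [e2, e1] at hba
    refine ⟨![⟨a, ha⟩, ⟨b, hb⟩, ⟨c, hc⟩], ?_, ?_⟩
    · intro x y hxy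
      rw [Fin.lt_def] at hxy ⊢
      fin_cases x <;> fin_cases y <;> simp at hxy ⊢ <;> omega
    · intro x y
      rw [Fin.lt_def]
      fin_cases x <;> fin_cases y <;> simp <;> omega

theorem occurs4 {n : ℕ} (π : Perm (Fin n)) : Occurs ![1, 3, 4, 2] π ↔ O4 (hi π) := by
  constructor
  · rintro ⟨i, hi1, hi2⟩
    refine ⟨i 0, i 1, i 2, i 3, hi1 (by decide), hi1 (by decide), hi1 (by decide), ?_, ?_, ?_⟩
    · rw [hi_lt, hi_lt]
      exact (hi2 0 3).2 (by decide)
    · rw [hi_lt, hi_lt]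
      exact (hi2 3 1).2 (by decide)
    · rw [hi_lt, hi_lt]
      exact (hi2 1 2).2 (by decide)
  · rintro ⟨a, b, c, d, hab, hbc, hcd, had, hdb, hbc'⟩
    have hd : d < n := by
      by_contra hc
      rw [hi_ge π (show n ≤ d by omega)] at hdb
      rcases Nat.lt_or_ge b n with h | h
      · have := hi_lt π ⟨b, h⟩
        have h2 := (π ⟨b, h⟩).2
        simp only at this
        omega
      · rw [hi_ge π h] at hdb
        omega
    have hc : c < n := by omega
    have hb : b < n := by omega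
    have ha : a < n := by omega
    have e1 := hi_lt π ⟨a, ha⟩
    have e2 := hi_lt π ⟨b, hb⟩
    have e3 := hi_lt π ⟨c, hc⟩
    have e4 := hi_lt π ⟨d, hd⟩
    simp only at e1 e2 e3 e4
    rw [e1, e4] at had
    rw [e4, e2] at hdb
    rw [e2, e3] at hbc'
    refine ⟨![⟨a, ha⟩, ⟨b, hb⟩, ⟨c, hc⟩, ⟨d, hd⟩], ?_, ?_⟩
    · intro x y hxy
      rw [Fin.lt_def] at hxy ⊢
      fin_cases x <;> fin_cases y <;> simp at hxy ⊢ <;> omega
    · intro x y
      rw [Fin.lt_def]
      fin_cases x <;> fin_cases y <;> simp <;> omega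

theorem mem_T_iff {n : ℕ} (π : Perm (Fin n)) : hi π ∈ T n ↔
    (StronglyAvoids ![3, 2, 1] π ∧ StronglyAvoids ![1, 3, 4, 2] π) := by
  have e : (fun x => hi π (hi π x)) = hi (π * π) := by
    funext x
    rw [hi_mul]
  constructor
  · rintro ⟨_, ⟨h1, h2⟩, h3, h4⟩
    rw [e] at h3 h4
    exact ⟨⟨(occurs3 π).not.2 h1, (occurs3 (π * π)).not.2 h3⟩,
      ⟨(occurs4 π).not.2 h2, (occurs4 (π * π)).not.2 h4⟩⟩
  · rintro ⟨⟨h1, h3⟩, ⟨h2, h4⟩⟩
    refine ⟨fun x hx => hi_ge π hx, ⟨(occurs3 π).not.1 h1, (occurs4 π).not.1 h2⟩, ?_⟩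
    rw [e]
    exact ⟨(occurs3 (π * π)).not.1 h3, (occurs4 (π * π)).not.1 h4⟩

theorem hi_injective {n : ℕ} : Function.Injective (hi : Perm (Fin n) → Perm ℕ) := by
  intro π π' h
  ext x
  rw [← hi_lt π x, ← hi_lt π' x, h]

/-- restriction -/
def lo {n : ℕ} (p : Perm ℕ) (h : ∀ x, n ≤ x → p x = x) : Perm (Fin n) where
  toFun x := ⟨p x, maps_lt h x x.2⟩
  invFun x := ⟨p.symm x, by
    have hx := x.2
    by_contra hc
    have h1 := h (p.symm x) (by omega)
    rw [Equiv.apply_symm_apply] at h1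
    omega⟩
  left_inv := by
    intro x
    apply Fin.ext
    simp
  right_inv := by
    intro x
    apply Fin.ext
    simp

theorem hi_lo {n : ℕ} (p : Perm ℕ) (h : ∀ x, n ≤ x → p x = x) : hi (lo p h) = p := by
  ext x
  rcases Nat.lt_or_ge x n with hx | hx
  · rw [hi_lt (lo p h) ⟨x, hx⟩]
    rfl
  · rw [hi_ge _ hx, h x hx]

theorem savCount_eq (n : ℕ) : savCount n = (T n).ncard := by
  unfold savCount
  rw [← Nat.card_coe_set_eq]
  apply Nat.card_eq_of_bijective (fun π => (⟨hi π.1, (mem_T_iff π.1).2 π.2⟩ : T n))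
  constructor
  · intro π π' h
    have := congrArg Subtype.val h
    exact Subtype.ext (hi_injective this)
  · rintro ⟨p, hp⟩
    refine ⟨⟨lo p hp.1, (mem_T_iff _).1 (by rw [hi_lo]; exact hp)⟩, ?_⟩
    apply Subtype.ext
    simp only
    rw [hi_lo]

theorem count_main {n : ℕ} (hn : 1 ≤ n) : savCount n + n + 2 = 2 * Nat.fib (n + 2) := by
  obtain ⟨m, rfl⟩ : ∃ m, n = m + 1 := ⟨n - 1, by omega⟩
  rw [savCount_eq]
  exact (T_count m).1.2

end Q165.Strong
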