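import Mathlib

/-!
# Definitions: permutations that strongly avoid 321 and 1342
-/

set_option autoImplicit false

namespace Q165.Strong

open Equiv

/-- the pattern `τ` (a permutation of size `m` in one-line notation) occurs in `π` -/
def Occurs {m n : ℕ} (τ : Fin m → ℕ) (π : Perm (Fin n)) : Prop :=
  ∃ i : Fin m → Fin n, StrictMono i ∧ ∀ j k, π (i j) < π (i k) ↔ τ j < τ k

/-- both `π` and `π²` avoid the pattern `τ` -/
def StronglyAvoids {m n : ℕ} (τ : Fin m → ℕ) (π : Perm (Fin n)) : Prop :=
  ¬ Occurs τ π ∧ ¬ Occurs τ (π * π)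

/-- the number of the permutations of `n` letters that strongly avoid `321` and `1342` -/
noncomputable def savCount (n : ℕ) : ℕ :=
  Nat.card {π : Perm (Fin n) // StronglyAvoids ![3, 2, 1] π ∧ StronglyAvoids ![1, 3, 4, 2] π}

end Q165.Strong
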