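import Pool.Agent.Q165.Strong

/-!
# The structure of the strongly avoiding permutations
-/

set_option autoImplicit false

namespace Q165.Strong

open Equiv

theorem inj_lt {p : Perm ℕ} {x y : ℕ} (h : ¬ p x < p y) (hne : x ≠ y) : p y < p x := by
  have : p x ≠ p y := fun he => hne (p.injective he)
  omega

/-- the structure in the first case -/
theorem eq_ff {n k P M : ℕ} {p : Perm ℕ} (hsup : ∀ x, n ≤ x → p x = x)
    (hk : 1 ≤ k) (hkP : k ≤ P) (hPM : P + 2 ≤ M) (hM : M ≤ n) (hP : p P = n - 1)
    (ha : ∀ x y, P < x → x < y → y < n → p x < p y)
    (hb : ∀ x y z, x < y → y < P → P < z → z < n → p x < p z → p y < p z)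
    (h3 : ¬ O3 p)
    (hQ : ∀ x < P, (p (P + 1) < p x ↔ x < k))
    (hR : ∀ z, P < z → z < n → (p z < p 0 ↔ z < M)) : ∀ x, p x = ff n k P M x := by
  have hlt := maps_lt hsup
  have hmax : ∀ x, x < n → x ≠ P → p x < n - 1 := by
    intro x hx hne
    have h1 := hlt x hx
    have h2 : p x ≠ n - 1 := by
      intro hc
      rw [← hP] at hc
      exact hne (p.injective hc)
    omega
  have h0 : p (P + 1) < p 0 := (hQ 0 (by omega)).2 (by omega)
  -- comparisons
  have F1 : ∀ x y, x < y → y < k → p x < p y := by
    intro x y hxy hy
    by_contra hc
    have h1 := inj_lt hc (by omega)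
    exact h3 ⟨x, y, P + 1, hxy, by omega, (hQ y (by omega)).2 hy, h1⟩
  have F2 : ∀ x y, k ≤ x → x < y → y < P → p x < p y := by
    intro x y hx hxy hy
    by_contra hc
    have h1 := inj_lt hc (by omega)
    have h2 : ¬ p (P + 1) < p x := fun h => by
      have := (hQ x (by omega)).1 h
      omega
    exact h3 ⟨0, x, y, by omega, hxy, h1, by omega⟩
  have F4 : ∀ x y, k ≤ x → x < P → P < y → y < n → p x < p y := by
    intro x y hx hxP hy hyn
    have h2 : ¬ p (P + 1) < p x := fun h => by
      have := (hQ x hxP).1 h
      omega
    have h2' := inj_lt h2 (by omega)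
    rcases Nat.lt_or_ge (P + 1) y with h4 | h4
    · have := ha (P + 1) y (by omega) h4 hyn
      omega
    · rw [show y = P + 1 by omega]
      exact h2'
  have F5 : ∀ x y, k ≤ x → x < P → y < k → p x < p y := by
    intro x y hx hxP hy
    have h1 := F4 x (P + 1) hx hxP (by omega) (by omega)
    have h2 := (hQ y (by omega)).2 hy
    omega
  have F6 : ∀ x y, P < x → x < M → y < k → p x < p y := by
    intro x y hx hxM hy
    have h1 := (hR x hx (by omega)).2 hxM
    rcases Nat.eq_zero_or_pos y with h4 | h4
    · rw [h4]; exact h1
    · have := F1 0 y h4 hy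
      omega
  have F7 : ∀ x y, y < P → M ≤ x → x < n → p y < p x := by
    intro x y hy hx hxn
    have h1 : ¬ p x < p 0 := fun h => by
      have := (hR x (by omega) hxn).1 h
      omega
    have h1' := inj_lt h1 (by omega)
    rcases Nat.eq_zero_or_pos y with h4 | h4
    · rw [h4]; exact h1'
    · exact hb 0 y x h4 hy (by omega) hxn h1'
  have key : ∀ x y, x < n → y < n → x ≠ y → p x < p y → ff n k P M x < ff n k P M y := by
    intro x y hx hy hne hpxy
    -- `x` or `y` is `P`
    by_cases hyP : y = P
    · rw [hyP, ff3 hkP]
      rcases Nat.lt_or_ge x k with c1 | c1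
      · rw [ff1 c1]; omega
      · rcases Nat.lt_or_ge x P with c2 | c2
        · rw [ff2 c1 c2]; omega
        · rcases Nat.lt_or_ge x M with c3 | c3
          · rw [ff4 hkP (by omega) c3]; omega
          · rw [ff5 hkP (by omega) c3 hx]; omega
    by_cases hxP : x = P
    · have := hmax y hy hyP
      rw [hxP, hP] at hpxy
      omega
    -- the blocks
    rcases Nat.lt_or_ge x k with a1 | a1
    · rcases Nat.lt_or_ge y k with b1 | b1
      · rw [ff1 a1, ff1 b1]
        by_contra hc
        have := F1 y x (by omega) a1
        omega
      · rcases Nat.lt_or_ge y P with b2 | b2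
        · have := F5 y x b1 b2 a1
          omega
        · rcases Nat.lt_or_ge y M with b3 | b3
          · have := F6 y x (by omega) b3 a1
            omega
          · rw [ff1 a1, ff5 hkP (by omega) b3 hy]; omega
    · rcases Nat.lt_or_ge x P with a2 | a2
      · rw [ff2 a1 a2]
        rcases Nat.lt_or_ge y k with b1 | b1
        · rw [ff1 b1]; omega
        · rcases Nat.lt_or_ge y P with b2 | b2
          · rw [ff2 b1 b2]
            by_contra hc
            have := F2 y x b1 (by omega) a2
            omega
          · rcases Nat.lt_or_ge y M with b3 | b3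
            · rw [ff4 hkP (by omega) b3]; omega
            · rw [ff5 hkP (by omega) b3 hy]; omega
      · have a2' : P < x := by omega
        rcases Nat.lt_or_ge x M with a3 | a3
        · rw [ff4 hkP a2' a3]
          rcases Nat.lt_or_ge y k with b1 | b1
          · rw [ff1 b1]; omega
          · rcases Nat.lt_or_ge y P with b2 | b2
            · have := F4 y x b1 b2 a2' hx
              omega
            · rcases Nat.lt_or_ge y M with b3 | b3
              · rw [ff4 hkP (by omega) b3]
                by_contra hc
                have := ha y x (by omega) (by omega) hx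
                omega
              · rw [ff5 hkP (by omega) b3 hy]; omega
        · rcases Nat.lt_or_ge y P with b2 | b2
          · have := F7 x y b2 a3 hx
            omega
          · rcases Nat.lt_or_ge x y with b4 | b4
            · rw [ff5 hkP (by omega) a3 hx, ff5 hkP (by omega) (by omega) hy]; omega
            · have := ha y x (by omega) (by omega) hx
              omega
  have hffn : ∀ x < n, ff n k P M x < n := by
    intro x hx
    rcases Nat.lt_or_ge x k with a1 | a1
    · rw [ff1 a1]; omega
    · rcases Nat.lt_or_ge x P with a2 | a2
      · rw [ff2 a1 a2]; omega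
      · by_cases hxP : x = P
        · rw [hxP, ff3 hkP]; omega
        · rcases Nat.lt_or_ge x M with a3 | a3
          · rw [ff4 hkP (by omega) a3]; omega
          · rw [ff5 hkP (by omega) a3 hx]; omega
  have hinv : ∀ v < n, p.symm v < n := by
    intro v hv
    by_contra hc
    have h1 := hsup (p.symm v) (by omega)
    rw [Equiv.apply_symm_apply] at h1
    omega
  have hE := eq_of_mono (n := n) (h := fun v => ff n k P M (p.symm v))
    (fun v hv => hffn _ (hinv v hv)) (by
      intro u v huv hv
      apply key _ _ (hinv u (by omega)) (hinv v hv)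
      · intro hc
        have := p.symm.injective hc
        omega
      · rw [Equiv.apply_symm_apply, Equiv.apply_symm_apply]
        exact huv)
  intro x
  rcases Nat.lt_or_ge x n with hx | hx
  · have := hE (p x) (hlt x hx)
    simp only [Equiv.symm_apply_apply] at this
    exact this.symm
  · rw [hsup x hx]
    unfold ff
    rw [if_neg (by omega), if_neg (by omega), if_neg (by omega), if_neg (by omega),
      if_neg (by omega)]

theorem main_cases {n : ℕ} (hn : 3 ≤ n) {p : Perm ℕ} (h : p ∈ T n) :
    p ∈ T (n - 1) ∨ (p (n - 2) = n - 1 ∧ p (n - 1) = n - 2) ∨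
      ∃ (c : ℕ) (h1 : 1 ≤ c) (h2 : c < n), p = rot n c h1 h2 := by
  obtain ⟨hsup, ⟨h3, h4⟩, h5, h6⟩ := h
  have hlt := maps_lt hsup
  by_cases hl : p (n - 1) = n - 1
  · left
    refine ⟨?_, ⟨h3, h4⟩, h5, h6⟩
    intro x hx
    rcases Nat.lt_or_ge x n with h7 | h7
    · rw [show x = n - 1 by omega, hl]
    · exact hsup x h7
  right
  obtain ⟨P, hP⟩ := p.surjective (n - 1)
  have hPn : P < n := by
    by_contra hc
    have := hsup P (by omega)
    omega
  have hPn1 : P ≠ n - 1 := by
    rintro rfl
    exact hl hP
  have hmax : ∀ x, x < n → x ≠ P → p x < n - 1 := by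
    intro x hx hne
    have h1 := hlt x hx
    have h2 : p x ≠ n - 1 := by
      intro hc
      rw [← hP] at hc
      exact hne (p.injective hc)
    omega
  have ha : ∀ x y, P < x → x < y → y < n → p x < p y := by
    intro x y hx hxy hy
    by_contra hc
    have h1 := inj_lt hc (by omega)
    refine h3 ⟨P, x, y, hx, hxy, h1, ?_⟩
    rw [hP]
    exact hmax x (by omega) (by omega)
  have hb : ∀ x y z, x < y → y < P → P < z → z < n → p x < p z → p y < p z := by
    intro x y z hxy hyP hz hzn hxz
    by_contra hc
    have h1 := inj_lt hc (by omega)
    refine h4 ⟨x, y, P, z, hxy, hyP, hz, hxz, h1, ?_⟩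
    rw [hP]
    exact hmax y (by omega) (by omega)
  by_cases hcase : 0 < P ∧ p (P + 1) < p 0
  · -- the first case
    obtain ⟨hP0, h0⟩ := hcase
    obtain ⟨k, hkP, hQ⟩ := thr (fun x => p (P + 1) < p x) P (by
      intro x y hxy hy hQy
      by_contra hc
      have h1 := inj_lt hc (by omega)
      have := hb x y (P + 1) hxy hy (by omega) (by omega) h1
      omega)
    obtain ⟨M, hM, hR⟩ := thr (fun z => z ≤ P ∨ p z < p 0) n (by
      intro x y hxy hy hQy
      rcases Nat.lt_or_ge P x with h7 | h7
      · right
        rcases hQy with h8 | h8
        · omega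
        · have := ha x y h7 hxy hy
          omega
      · exact Or.inl h7)
    have hk : 1 ≤ k := (hQ 0 hP0).1 h0
    have hM2 : P + 1 < M := (hR (P + 1) (by omega)).1 (Or.inr h0)
    have hE := eq_ff hsup hk hkP (by omega) hM hP ha hb h3 hQ (by
      intro z hz hzn
      rw [← hR z hzn]
      constructor
      · intro h7; exact Or.inr h7
      · rintro (h7 | h7)
        · omega
        · exact h7)
    have hfun : (p : ℕ → ℕ) = ff n k P M := funext hE
    by_cases hrot : M = n ∧ P = k
    · right
      obtain ⟨e1, e2⟩ := hrot
      refine ⟨n - 1 - k, by omega, by omega, ?_⟩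
      ext x
      change p x = rf n (n - 1 - k) x
      rw [hE]
      unfold ff rf
      split_ifs <;> omega
    · exfalso
      have := ff_bad hk hkP (by omega) hM hrot
      rw [hfun] at h5 h6
      rcases this with h7 | h7
      · exact h5 h7
      · exact h6 h7
  · -- the second case
    have hA : ∀ y, y < P → p y < p (P + 1) := by
      intro y hy
      have h7 : ¬ p (P + 1) < p 0 := fun hc => hcase ⟨by omega, hc⟩
      have h8 := inj_lt h7 (by omega)
      rcases Nat.eq_zero_or_pos y with h9 | h9
      · rw [h9]; exact h8
      · exact hb 0 y (P + 1) h9 hy (by omega) (by omega) h8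
    have hPle : P ≤ p (P + 1) := by
      have := Finset.card_le_card_of_injOn (s := Finset.range P)
        (t := Finset.range (p (P + 1))) (fun x => p x) (by
          intro x hx
          rw [Finset.mem_coe, Finset.mem_range] at hx ⊢
          exact hA x hx) (by
          intro x _ y _ hxy
          exact p.injective hxy)
      rwa [Finset.card_range, Finset.card_range] at this
    have hlo : ∀ d, P + 1 + d < n → P + d ≤ p (P + 1 + d) := by
      intro d
      induction d with
      | zero => intro _; exact hPle
      | succ d ih =>
        intro hd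
        have h7 := ih (by omega)
        have h8 := ha (P + 1 + d) (P + 1 + (d + 1)) (by omega) (by omega) hd
        omega
    have hhi : ∀ d x, x + d + 1 = n → P < x → p x + 1 ≤ x := by
      intro d
      induction d with
      | zero =>
        intro x hx hPx
        have := hmax x (by omega) (by omega)
        omega
      | succ d ih =>
        intro x hx hPx
        have h7 := ih (x + 1) (by omega) (by omega)
        have h8 := ha x (x + 1) hPx (by omega) (by omega)
        omega
    have hval : ∀ x, P < x → x < n → p x = x - 1 := by
      intro x h7 h8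
      have h9 := hlo (x - (P + 1)) (by omega)
      rw [show P + 1 + (x - (P + 1)) = x by omega] at h9
      have h10 := hhi (n - 1 - x) x (by omega) h7
      omega
    rcases Nat.eq_zero_or_pos P with hP0 | hP0
    · right
      refine ⟨n - 1, by omega, by omega, ?_⟩
      ext x
      change p x = rf n (n - 1) x
      unfold rf
      rcases Nat.lt_or_ge x n with h7 | h7
      · rcases Nat.eq_zero_or_pos x with h8 | h8
        · have : p x = n - 1 := by rw [h8, ← hP0]; exact hP
          rw [this]
          split_ifs <;> omega
        · rw [hval x (by omega) h7]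
          split_ifs <;> omega
      · rw [hsup x h7, if_neg (by omega)]
    · by_cases hr : P = n - 2
      · left
        rw [← hr]
        refine ⟨hP, ?_⟩
        rw [hval (n - 1) (by omega) (by omega)]
        omega
      · exfalso
        have hpP : p (P + 1) = P := by rw [hval (P + 1) (by omega) (by omega)]; omega
        have h0P : p 0 < P := by rw [← hpP]; exact hA 0 hP0
        have hpp : p (p 0) < P := by
          have := hA _ h0P
          omega
        apply h6
        refine ⟨0, P, P + 1, P + 2, hP0, by omega, by omega, ?_, ?_, ?_⟩
        · simp only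
          rw [hval (P + 2) (by omega) (by omega), show P + 2 - 1 = P + 1 by omega, hpP]
          exact hpp
        · simp only
          rw [hval (P + 2) (by omega) (by omega), show P + 2 - 1 = P + 1 by omega, hpP, hP,
            hval (n - 1) (by omega) (by omega)]
          omega
        · simp only
          rw [hpP, hP, hval (n - 1) (by omega) (by omega)]
          omega

end Q165.Strong
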