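import Pool.Agent.Q165.Separate

set_option autoImplicit false

/-!
# The group `(Fin m → e-torsion of ℚ / ℤ)` is generated by `m` elements
-/

namespace Q165.TorsionPower

open Finset

/-- The `e`-torsion subgroup of `ℚ / ℤ`. -/
def T (e : ℕ) : AddSubgroup (AddCircle (1 : ℚ)) :=
  (nsmulAddMonoidHom (α := AddCircle (1 : ℚ)) e).ker

theorem mem_T {e : ℕ} {x : AddCircle (1 : ℚ)} : x ∈ T e ↔ e • x = 0 := Iff.rfl

/-- Every element of `ℚ / ℤ` is torsion. -/
theorem exists_torsion (x : AddCircle (1 : ℚ)) : ∃ e : ℕ, 0 < e ∧ e • x = 0 := by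
  induction x using QuotientAddGroup.induction_on with
  | H q =>
    refine ⟨q.den, q.den_pos, ?_⟩
    have h1 : ((q.den • q : ℚ) : AddCircle (1 : ℚ)) = 0 := by
      rw [AddCircle.coe_eq_zero_iff]
      refine ⟨q.num, ?_⟩
      simp only [zsmul_eq_mul, mul_one, nsmul_eq_mul]
      exact (Rat.den_mul_eq_num q).symm
    exact h1

/-- A common exponent for finitely many elements. -/
theorem exists_exponent (X : Finset (AddCircle (1 : ℚ))) : ∃ e : ℕ, 0 < e ∧ ∀ x ∈ X, e • x = 0 := by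
  classical
  induction X using Finset.induction_on with
  | empty => exact ⟨1, one_pos, by simp⟩
  | insert a X _ ih =>
    obtain ⟨e, he, h⟩ := ih
    obtain ⟨d, hd, h'⟩ := exists_torsion a
    refine ⟨e * d, Nat.mul_pos he hd, ?_⟩
    intro x hx
    rw [mem_insert] at hx
    rcases hx with rfl | hx
    · rw [mul_nsmul', h', smul_zero]
    · rw [mul_comm, mul_nsmul', h x hx, smul_zero]

/-- A generator of the `e`-torsion. -/
theorem exists_gen {e : ℕ} (he : 0 < e) : ∃ g : T e, ∀ x : T e, ∃ k : ℕ, x = k • g := by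
  have hne : (e : ℚ) ≠ 0 := by positivity
  have hg : e • (((1 : ℚ) / e : ℚ) : AddCircle (1 : ℚ)) = 0 := by
    have h1 : ((e • ((1 : ℚ) / e) : ℚ) : AddCircle (1 : ℚ)) = 0 := by
      rw [AddCircle.coe_eq_zero_iff]
      refine ⟨1, ?_⟩
      simp only [zsmul_eq_mul, mul_one, nsmul_eq_mul, Int.cast_one]
      field_simp
    exact h1
  refine ⟨⟨_, mem_T.mpr hg⟩, ?_⟩
  intro x
  obtain ⟨k, -, hk⟩ := Q165.QZ.torsion_mem he (x : AddCircle (1 : ℚ)) (mem_T.mp x.2)
  refine ⟨k, ?_⟩
  apply Subtype.ext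
  rw [← hk]
  have : ((k : ℚ) / e : ℚ) = k • ((1 : ℚ) / e) := by
    rw [nsmul_eq_mul]
    ring
  rw [this]
  rfl

/-- `Fin m → T e` is generated by `m` elements. -/
theorem generated (m : ℕ) {e : ℕ} (he : 0 < e) :
    ∃ g : Fin m → (Fin m → T e), AddSubgroup.closure (Set.range g) = ⊤ := by
  classical
  obtain ⟨g, hg⟩ := exists_gen he
  refine ⟨fun i => Pi.single i g, ?_⟩
  rw [eq_top_iff]
  intro f _
  have hf : f = ∑ i, Pi.single i (f i) := (Finset.univ_sum_single f).symm
  rw [hf]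
  apply AddSubgroup.sum_mem
  intro i _
  obtain ⟨k, hk⟩ := hg (f i)
  rw [hk]
  have : (Pi.single i (k • g) : Fin m → T e) = k • Pi.single i g := by
    rw [Pi.single_smul]
  rw [this]
  apply AddSubgroup.nsmul_mem
  exact AddSubgroup.subset_closure ⟨i, rfl⟩

/-- Truncation to the `e`-torsion. -/
noncomputable def toT (e : ℕ) (x : AddCircle (1 : ℚ)) : T e := by
  classical
  exact if h : e • x = 0 then ⟨x, mem_T.mpr h⟩ else 0

theorem toT_val {e : ℕ} {x : AddCircle (1 : ℚ)} (h : e • x = 0) :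
    (toT e x : AddCircle (1 : ℚ)) = x := by
  unfold toT
  rw [dif_pos h]

end Q165.TorsionPower
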